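import Pool.Agent.Y326.Fact
import Pool.Agent.Y326.Chw2

/-!
# Linear contractions: the slow vectors, and the conclusions
-/

set_option autoImplicit false

namespace Pool.Agent.Y326

open Finset Filter
open Pool.Agent.TH833.BL (S H H_le le_H one_le_log)

variable {X : Type*} [NormedAddCommGroup X] [NormedSpace ℂ X]

/-- The vector `x` is slow: for each `η > 0` there are `L ≥ 1` and vectors `c 0, …, c (L - 1)` of a
Hilbert space with `∑ ‖c h‖² ≤ (η L)²` such that `‖∑ v h Tʰ x‖ ≤ ‖∑ v h c h‖ + η L` for all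
coefficients with `|v h| ≤ 1`. -/
def Slow (T : X →L[ℂ] X) (x : X) : Prop := ∀ η : ℝ, 0 < η → ∃ L : ℕ, 1 ≤ L ∧
  ∃ (E : Type) (_ : NormedAddCommGroup E) (_ : InnerProductSpace ℂ E) (c : ℕ → E),
    ∑ h ∈ range L, ‖c h‖ ^ 2 ≤ (η * L) ^ 2 ∧
    ∀ v : ℕ → ℂ, (∀ h, ‖v h‖ ≤ 1) →
      ‖∑ h ∈ range L, v h • (T^[h]) x‖ ≤ ‖∑ h ∈ range L, v h • c h‖ + η * L

variable {f : ℕ → ℤ} {T : X →L[ℂ] X}

lemma iter_le (hT : ‖T‖ ≤ 1) (k : ℕ) (x : X) : ‖(T^[k]) x‖ ≤ ‖x‖ := by
  induction k with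
  | zero => simp
  | succ k ih =>
    rw [Function.iterate_succ_apply']
    refine (T.le_opNorm _).trans ?_
    calc ‖T‖ * ‖(T^[k]) x‖ ≤ 1 * ‖x‖ := mul_le_mul hT ih (norm_nonneg _) zero_le_one
      _ = ‖x‖ := one_mul _

lemma iter_sum (k L : ℕ) (v : ℕ → ℂ) (y : ℕ → X) :
    (T^[k]) (∑ h ∈ range L, v h • y h) = ∑ h ∈ range L, v h • (T^[k]) (y h) := by
  induction k with
  | zero => simp
  | succ k ih =>
    rw [Function.iterate_succ_apply', ih, map_sum]
    refine sum_congr rfl fun h _ => ?_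
    rw [map_smul, Function.iterate_succ_apply']

lemma iter_add (k : ℕ) (x y : X) : (T^[k]) (x + y) = (T^[k]) x + (T^[k]) y := by
  induction k with
  | zero => simp
  | succ k ih => simp only [Function.iterate_succ_apply', ih, map_add]

lemma iter_smul (k : ℕ) (c : ℂ) (x : X) : (T^[k]) (c • x) = c • (T^[k]) x := by
  induction k with
  | zero => simp
  | succ k ih => simp only [Function.iterate_succ_apply', ih, map_smul]

lemma iter_zero (k : ℕ) : (T^[k]) (0 : X) = 0 := by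
  have := iter_smul (T := T) k 0 0
  simpa using this

lemma iter_sub (k : ℕ) (x y : X) : (T^[k]) (x - y) = (T^[k]) x - (T^[k]) y := by
  have := iter_add (T := T) k (x - y) y
  rw [sub_add_cancel] at this
  rw [this, add_sub_cancel_right]

/-- slow vectors -/
theorem slow_lw (hf : ∀ n, |f n| ≤ 1) (hf2 : TwoPoint f) (hT : ‖T‖ ≤ 1) {x : X} (hx : Slow T x) :
    LW f (fun n => (T^[n]) x) := by
  refine lw_of_fac hf hf2 (B := ‖x‖) _ (fun n => iter_le hT n x) ?_ ?_
  · intro k L v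
    have e : ∑ h ∈ range L, v h • (T^[k + h]) x = (T^[k]) (∑ h ∈ range L, v h • (T^[h]) x) := by
      rw [iter_sum]
      refine sum_congr rfl fun h _ => ?_
      rw [Function.iterate_add_apply]
    rw [e]
    exact iter_le hT k _
  · intro η hη
    obtain ⟨L, hL, E, iE, iE', c, hc1, hc2⟩ := hx η hη
    refine ⟨L, hL, E, iE, iE', c, hc1, ?_⟩
    intro a ha v hv
    rw [Set.mem_singleton_iff.1 ha]
    exact hc2 v hv

/-- the vectors with small windows -/
def lws (T : X →L[ℂ] X) (f : ℕ → ℤ) : Submodule ℂ X where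
  carrier := {x | LW f (fun n => (T^[n]) x)}
  add_mem' {x y} hx hy := by
    have := LW.add hx hy
    refine (congrArg (LW f) (funext fun n => ?_)).mp this
    exact (iter_add n x y).symm
  zero_mem' := by
    have := LW.zero (X := X) f
    refine (congrArg (LW f) (funext fun n => ?_)).mp this
    exact (iter_zero n).symm
  smul_mem' c x hx := by
    have := LW.smul c hx
    refine (congrArg (LW f) (funext fun n => ?_)).mp this
    exact (iter_smul n c x).symm

/-- the closure -/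
theorem lw_closure (hf : ∀ n, |f n| ≤ 1) (hT : ‖T‖ ≤ 1) (D : Set X)
    (hD : ∀ x ∈ D, LW f (fun n => (T^[n]) x)) (x : X)
    (hx : x ∈ (Submodule.span ℂ D).topologicalClosure) : LW f (fun n => (T^[n]) x) := by
  have h1 : Submodule.span ℂ D ≤ lws T f := Submodule.span_le.2 hD
  have h2 : x ∈ closure ((Submodule.span ℂ D : Submodule ℂ X) : Set X) := hx
  refine LW.approx hf fun ε hε => ?_
  obtain ⟨y, hy, hxy⟩ := Metric.mem_closure_iff.1 h2 ε hε
  refine ⟨fun n => (T^[n]) y, fun n => ?_, h1 hy⟩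
  rw [← iter_sub]
  refine (iter_le hT n _).trans ?_
  rw [← dist_eq_norm]
  exact hxy.le

lemma LD1_univ : LD1 Set.univ := by
  unfold LD1
  simp only [Set.mem_univ, not_true_eq_false, filter_false, sum_empty, mul_zero]
  exact tendsto_const_nhds

/-- many vectors and many twists -/
theorem lw_scales (hf : ∀ n, |f n| ≤ 1) (hT : ‖T‖ ≤ 1) (D : Set X) (Θ : Set ℝ)
    (hD : ∀ x ∈ D, LW f (fun n => (T^[n]) x)) (hDs : TopologicalSpace.IsSeparable D) (hΘ : Θ.Countable) :
    ∃ s : Set ℕ, LD1 s ∧ ∀ x ∈ D, ∀ θ ∈ Θ,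
      Tendsto (fun N : ℕ => ‖(1 / (N : ℂ)) • fs f (fun n => (T^[n]) x) θ N‖) (atTop ⊓ 𝓟 s) (nhds 0) := by
  classical
  rcases D.eq_empty_or_nonempty with rfl | hne
  · exact ⟨Set.univ, LD1_univ, fun x hx => absurd hx (Set.notMem_empty x)⟩
  rcases Θ.eq_empty_or_nonempty with rfl | hΘne
  · exact ⟨Set.univ, LD1_univ, fun x _ θ hθ => absurd hθ (Set.notMem_empty θ)⟩
  -- a countable dense subset of `D`
  obtain ⟨C, hCD, hCc, hCd⟩ := hDs.exists_countable_dense_subset
  have hCne : C.Nonempty := by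
    obtain ⟨x, hx⟩ := hne
    exact closure_nonempty_iff.1 ⟨x, hCd hx⟩
  obtain ⟨u, hu⟩ := hCc.exists_eq_range hCne
  obtain ⟨τ, hτ⟩ := hΘ.exists_eq_range hΘne
  obtain ⟨s, hs1, hs2⟩ := diag (fun i N => ‖fs f (fun n => (T^[n]) (u i.unpair.1)) (τ i.unpair.2) N‖ / N) (by
    intro i ε hε
    have h1 : u i.unpair.1 ∈ D := hCD (hu ▸ Set.mem_range_self _)
    obtain ⟨X₀, hX₀⟩ := LW.scales (B := ‖u i.unpair.1‖) hf (fun n => iter_le hT n _) (hD _ h1) ε hε
    refine ⟨X₀, fun Z hZ => ?_⟩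
    refine le_trans (le_of_eq ?_) (hX₀ Z hZ (τ i.unpair.2))
    apply sum_congr _ fun _ _ => rfl
    ext N
    rw [mem_filter, mem_filter]
    refine and_congr_right fun hN => ?_
    have hN0 : (0 : ℝ) < N := by exact_mod_cast (mem_Icc.1 hN).1
    rw [lt_div_iff₀ hN0])
  refine ⟨s, hs1, fun x hx θ hθ => ?_⟩
  rw [Metric.tendsto_nhds]
  intro ε hε
  obtain ⟨y, hy, hxy⟩ := Metric.mem_closure_iff.1 (hCd hx) (ε / 4) (by positivity)
  rw [hu] at hy
  obtain ⟨i, rfl⟩ := hy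
  rw [hτ] at hθ
  obtain ⟨j, rfl⟩ := hθ
  obtain ⟨N₀, hN₀⟩ := hs2 (Nat.pair i j) (ε / 4) (by positivity)
  rw [eventually_inf_principal]
  filter_upwards [eventually_ge_atTop (max N₀ 1)] with N hN hNs
  have hN1 : 1 ≤ N := (le_max_right _ _).trans hN
  have hN0 : (0 : ℝ) < N := by exact_mod_cast hN1
  have h1 := hN₀ N hNs ((le_max_left _ _).trans hN)
  simp only [Nat.unpair_pair] at h1
  rw [div_le_iff₀ hN0] at h1
  have h2 : fs f (fun n => (T^[n]) x) (τ j) N = fs f (fun n => (T^[n]) (u i)) (τ j) N +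
      fs f (fun n => (T^[n]) (x - u i)) (τ j) N := by
    unfold fs tm
    rw [← sum_add_distrib]
    refine sum_congr rfl fun n _ => ?_
    rw [← smul_add, ← iter_add, add_sub_cancel]
  have h3 := fs_le (a := fun n => (T^[n]) (x - u i)) (B := ε / 4) hf (fun n => by
    refine (iter_le hT n _).trans ?_
    rw [← dist_eq_norm]
    exact hxy.le) (τ j) N
  have h4 : ‖fs f (fun n => (T^[n]) x) (τ j) N‖ ≤ ε / 4 * N + N * (ε / 4) := by
    rw [h2]
    exact (norm_add_le _ _).trans (add_le_add h1 h3)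
  rw [dist_zero_right, norm_norm, norm_smul, norm_div, norm_one, Complex.norm_natCast]
  calc 1 / (N : ℝ) * ‖fs f (fun n => (T^[n]) x) (τ j) N‖ ≤ 1 / (N : ℝ) * (ε / 4 * N + N * (ε / 4)) :=
        mul_le_mul_of_nonneg_left h4 (by positivity)
    _ = ε / 2 := by field_simp; ring
    _ < ε := by linarith

lemma TwoPoint.mu : TwoPoint (fun n => ArithmeticFunction.moebius n) := tao_mu

lemma TwoPoint.lam : TwoPoint Pool.Agent.H376R2.MR.lam := tao_lam

end Pool.Agent.Y326
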