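import Pool.Agent.Y326.Win

/-!
# Windows of sequences which factor through a Hilbert space with a small trace
-/

set_option autoImplicit false

namespace Pool.Agent.Y326

open Finset Filter
open Pool.Agent.TH833.BL (S H H_le le_H one_le_log)

variable {X : Type*} [NormedAddCommGroup X] [NormedSpace ℂ X]

/-- windows of sequences which change with the window -/
noncomputable def wv (f : ℕ → ℤ) (A : ℕ → ℕ → X) (θ : ℝ) (L n : ℕ) : ℝ :=
  ‖∑ h ∈ range L, (((f (n + h) : ℤ) : ℂ) * ex (h * θ)) • A n h‖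

/-- The sequences of the family are dominated on `[0, L)` by one sequence of vectors of a Hilbert
space with a small sum of squares. -/
def Fac (𝓕 : Set (ℕ → X)) (L : ℕ) (η : ℝ) : Prop :=
  ∃ (E : Type) (_ : NormedAddCommGroup E) (_ : InnerProductSpace ℂ E) (c : ℕ → E),
    ∑ h ∈ range L, ‖c h‖ ^ 2 ≤ (η * L) ^ 2 ∧
    ∀ a ∈ 𝓕, ∀ v : ℕ → ℂ, (∀ h, ‖v h‖ ≤ 1) →
      ‖∑ h ∈ range L, v h • a h‖ ≤ ‖∑ h ∈ range L, v h • c h‖ + η * L

variable {f : ℕ → ℤ} {𝓕 : Set (ℕ → X)} {B : ℝ}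

lemma wv_nonneg (f : ℕ → ℤ) (A : ℕ → ℕ → X) (θ : ℝ) (L n : ℕ) : 0 ≤ wv f A θ L n := norm_nonneg _

lemma coef_le (hf : ∀ n, |f n| ≤ 1) (θ : ℝ) (n h : ℕ) : ‖((f (n + h) : ℤ) : ℂ) * ex (h * θ)‖ ≤ 1 := by
  rw [norm_mul, norm_ex, mul_one]
  exact f_norm hf _

lemma wv_le (hf : ∀ n, |f n| ≤ 1) {A : ℕ → ℕ → X} (hA : ∀ n h, ‖A n h‖ ≤ B) (θ : ℝ) (L n : ℕ) :
    wv f A θ L n ≤ L * B := by
  have hB : 0 ≤ B := (norm_nonneg _).trans (hA 0 0)
  unfold wv
  refine (norm_sum_le _ _).trans ?_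
  calc ∑ h ∈ range L, ‖(((f (n + h) : ℤ) : ℂ) * ex (h * θ)) • A n h‖ ≤ ∑ h ∈ range L, B := by
        refine sum_le_sum fun h _ => ?_
        rw [norm_smul]
        calc _ ≤ 1 * B := mul_le_mul (coef_le hf θ n h) (hA n h) (norm_nonneg _) zero_le_one
          _ = B := one_mul B
    _ = L * B := by rw [sum_const, card_range, nsmul_eq_mul]

/-- short windows -/
theorem short_fac (hf : ∀ n, |f n| ≤ 1) (hT : TwoPoint f) (L : ℕ) (hL : 1 ≤ L) (η : ℝ) (hη : 0 ≤ η) :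
    ∃ N₀ : ℕ, ∀ N : ℕ, N₀ ≤ N → ∀ (𝓕 : Set (ℕ → X)), Fac 𝓕 L η → ∀ A : ℕ → ℕ → X, (∀ n, A n ∈ 𝓕) →
      ∀ θ : ℝ, S (wv f A θ L) N ≤ 5 * η * L * Real.log N := by
  obtain ⟨N₀, hN3, hN₀⟩ := meansq hf hT L hL
  refine ⟨N₀, fun N hN 𝓕 hfac A hA θ => ?_⟩
  obtain ⟨E, iE, iE', c, hc1, hc2⟩ := hfac
  have hl := one_le_log (hN3.trans hN)
  set c' : ℕ → E := fun h => ex (h * θ) • c h with hc'
  have hc3 : ∑ h ∈ range L, ‖c' h‖ ^ 2 = ∑ h ∈ range L, ‖c h‖ ^ 2 := by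
    refine sum_congr rfl fun h _ => ?_
    rw [hc']
    simp only [norm_smul, norm_ex, one_mul]
  have h1 := hN₀ N hN E c'
  rw [hc3] at h1
  set φ : ℕ → ℝ := fun n => ‖∑ h ∈ range L, ((f (n + h) : ℤ) : ℂ) • c' h‖ with hφ
  have h2 : ∀ n, wv f A θ L n ≤ φ n + η * L := by
    intro n
    have h3 := hc2 (A n) (hA n) (fun h => ((f (n + h) : ℤ) : ℂ) * ex (h * θ)) (fun h => coef_le hf θ n h)
    refine h3.trans_eq ?_
    congr 2
    refine sum_congr rfl fun h _ => ?_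
    rw [hc', smul_smul]
  have h3 := S_mono h2 N
  rw [Pool.Agent.TH833.BL.S_add φ (fun _ => η * L), S_const] at h3
  have hH : H N ≤ 2 * Real.log N := by linarith [H_le N]
  have hηL : 0 ≤ η * L := by positivity
  have h4 : S φ N ^ 2 ≤ (3 * (η * L) * Real.log N) ^ 2 := by
    refine (S_cs φ N).trans ?_
    have h5 : S (fun n => φ n ^ 2) N ≤ 3 * (η * L) ^ 2 * Real.log N := by
      refine h1.trans ?_
      gcongr
    have h6 : 0 ≤ S (fun n => φ n ^ 2) N := by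
      unfold S
      exact sum_nonneg fun n _ => by positivity
    calc H N * S (fun n => φ n ^ 2) N ≤ (2 * Real.log N) * (3 * (η * L) ^ 2 * Real.log N) :=
          mul_le_mul hH h5 h6 (by positivity)
      _ = 6 * ((η * L) * Real.log N) ^ 2 := by ring
      _ ≤ 9 * ((η * L) * Real.log N) ^ 2 := by nlinarith [sq_nonneg ((η * L) * Real.log N)]
      _ = _ := by ring
  have h5 : S φ N ≤ 3 * (η * L) * Real.log N := le_of_sq_le_sq' h4 (by positivity)
  have h6 : η * L * H N ≤ η * L * (2 * Real.log N) := mul_le_mul_of_nonneg_left hH hηL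
  calc S (wv f A θ L) N ≤ S φ N + η * L * H N := h3
    _ ≤ 3 * (η * L) * Real.log N + η * L * (2 * Real.log N) := by linarith
    _ = _ := by ring
where
  le_of_sq_le_sq' {a b : ℝ} (h : a ^ 2 ≤ b ^ 2) (hb : 0 ≤ b) : a ≤ b := by
    exact abs_le_of_sq_le_sq' h hb |>.2

lemma shift_mem (hs : ∀ a ∈ 𝓕, (fun n => a (n + 1)) ∈ 𝓕) {a : ℕ → X} (ha : a ∈ 𝓕) (j : ℕ) :
    (fun h => a (j + h)) ∈ 𝓕 := by
  induction j with
  | zero => simpa using ha
  | succ j ih =>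
    have h1 := hs _ ih
    have e : (fun n => (fun h => a (j + h)) (n + 1)) = fun h => a (j + 1 + h) := by
      funext n
      show a (j + (n + 1)) = a (j + 1 + n)
      congr 1
      ring
    rw [e] at h1
    exact h1

/-- long windows from short windows, for sequences which change with the window -/
lemma comb_var (hf : ∀ n, |f n| ≤ 1) (A : ℕ → ℕ → X) (hA : ∀ n h, ‖A n h‖ ≤ B) (θ : ℝ) (L M n : ℕ) :
    (L : ℝ) * wv f A θ M n ≤
      ∑ j ∈ range M, wv f (fun m h => A (m - j) (j + h)) θ L (n + j) + 2 * B * L * L := by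
  have hB : 0 ≤ B := (norm_nonneg _).trans (hA 0 0)
  set t : ℕ → X := fun h => (((f (n + h) : ℤ) : ℂ) * ex (h * θ)) • A n h with ht
  have htb : ∀ h, ‖t h‖ ≤ B := by
    intro h
    rw [ht]
    simp only [norm_smul]
    calc _ ≤ 1 * B := mul_le_mul (coef_le hf θ n h) (hA n h) (norm_nonneg _) zero_le_one
      _ = B := one_mul B
  have h1 : (L : ℂ) • ∑ j ∈ range M, t j = ∑ j ∈ range M, ∑ h ∈ range L, t (j + h) -
      ∑ h ∈ range L, (∑ j ∈ range M, t (h + j) - ∑ j ∈ range M, t j) := by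
    rw [sum_sub_distrib, sum_const, card_range, sum_comm]
    have e : ∑ h ∈ range L, ∑ j ∈ range M, t (j + h) = ∑ h ∈ range L, ∑ j ∈ range M, t (h + j) := by
      refine sum_congr rfl fun h _ => sum_congr rfl fun j _ => ?_
      rw [add_comm]
    rw [e, sub_sub_cancel, Nat.cast_smul_eq_nsmul]
  have h2 : (L : ℝ) * wv f A θ M n = ‖(L : ℂ) • ∑ j ∈ range M, t j‖ := by
    rw [norm_smul, Complex.norm_natCast]
    rfl
  rw [h2, h1]
  refine (norm_sub_le _ _).trans (add_le_add ?_ ?_)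
  · refine (norm_sum_le _ _).trans (sum_le_sum fun j _ => ?_)
    unfold wv
    have e : ∑ h ∈ range L, t (j + h) = ex (j * θ) •
        ∑ h ∈ range L, (((f (n + j + h) : ℤ) : ℂ) * ex (h * θ)) • A (n + j - j) (j + h) := by
      rw [smul_sum]
      refine sum_congr rfl fun h _ => ?_
      rw [smul_smul, ht, Nat.add_sub_cancel]
      show (((f (n + (j + h)) : ℤ) : ℂ) * ex (((j + h : ℕ) : ℝ) * θ)) • A n (j + h) = _
      rw [add_assoc]
      congr 1
      push_cast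
      rw [add_mul, ex_add]
      ring
    rw [e, norm_smul, norm_ex, one_mul]
  · refine (norm_sum_le _ _).trans ?_
    calc ∑ h ∈ range L, ‖∑ j ∈ range M, t (h + j) - ∑ j ∈ range M, t j‖ ≤
        ∑ h ∈ range L, 2 * B * L := by
          refine sum_le_sum fun h hh => ?_
          have h3 := shift_block t htb M 0 h
          simp only [zero_add] at h3
          refine h3.trans ?_
          have : (h : ℝ) ≤ L := by exact_mod_cast (mem_range.1 hh).le
          exact mul_le_mul_of_nonneg_left this (by positivity)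
      _ = 2 * B * L * L := by
          rw [sum_const, card_range, nsmul_eq_mul]
          ring

/-- **long windows** -/
theorem long_fac (hf : ∀ n, |f n| ≤ 1) (hT : TwoPoint f) (hb : ∀ a ∈ 𝓕, ∀ n, ‖a n‖ ≤ B)
    (hs : ∀ a ∈ 𝓕, (fun n => a (n + 1)) ∈ 𝓕) (h : ∀ η : ℝ, 0 < η → ∃ L : ℕ, 1 ≤ L ∧ Fac 𝓕 L η)
    (ε : ℝ) (hε : 0 < ε) : ∃ M₀ : ℕ, ∀ M : ℕ, M₀ ≤ M → ∃ N₀ : ℕ, ∀ N : ℕ, N₀ ≤ N →
      ∀ A : ℕ → ℕ → X, (∀ n, A n ∈ 𝓕) → ∀ θ : ℝ, S (wv f A θ M) N ≤ ε * M * Real.log N := by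
  obtain ⟨L, hL, hfac⟩ := h (ε / 15) (by positivity)
  have hL0 : (0 : ℝ) < L := by exact_mod_cast hL
  obtain ⟨N₀, hN₀⟩ := short_fac (X := X) hf hT L hL (ε / 15) (by positivity)
  refine ⟨⌈12 * L * |B| / ε⌉₊, fun M hM => ?_⟩
  have hM' : 12 * L * |B| / ε ≤ M := (Nat.le_ceil _).trans (by exact_mod_cast hM)
  rw [div_le_iff₀ hε] at hM'
  have hlog : Tendsto (fun N : ℕ => ε / 3 * Real.log (N : ℝ)) atTop atTop :=
    (Pool.Agent.TH833.BL.log_tendsto).const_mul_atTop (by positivity)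
  obtain ⟨N₁, hN₁⟩ := eventually_atTop.1 (hlog.eventually_ge_atTop (3 * |B| * M))
  refine ⟨max (max N₀ N₁) 3, fun N hN A hA θ => ?_⟩
  have hB : 0 ≤ B := (norm_nonneg _).trans (hb _ (hA 0) 0)
  rw [abs_of_nonneg hB] at hM' hN₁
  have hAb : ∀ n h, ‖A n h‖ ≤ B := fun n h => hb _ (hA n) h
  have h1 := hN₁ N (((le_max_right _ _).trans (le_max_left _ _)).trans hN)
  have hl := one_le_log ((le_max_right _ _).trans hN)
  have hM0 : (0 : ℝ) ≤ M := Nat.cast_nonneg M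
  set D : ℕ → ℕ → ℕ → X := fun j m h => A (m - j) (j + h) with hD
  have hDm : ∀ j m, D j m ∈ 𝓕 := fun j m => shift_mem hs (hA (m - j)) j
  have hDb : ∀ j m h, ‖D j m h‖ ≤ B := fun j m h => hAb _ _
  have h0 : ∀ j, S (wv f (D j) θ L) N ≤ 5 * (ε / 15) * L * Real.log N := fun j =>
    hN₀ N (((le_max_left _ _).trans (le_max_left _ _)).trans hN) 𝓕 hfac (D j) (hDm j) θ
  have h2 : (L : ℝ) * S (wv f A θ M) N ≤
      ∑ j ∈ range M, S (fun n => wv f (D j) θ L (n + j)) N + 2 * B * L * L * H N := by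
    have h3 := S_mono (φ := fun n => (L : ℝ) * wv f A θ M n)
      (ψ := fun n => ∑ j ∈ range M, wv f (D j) θ L (n + j) + 2 * B * L * L)
      (fun n => comb_var hf A hAb θ L M n) N
    rw [S_cmul] at h3
    refine h3.trans (le_of_eq ?_)
    rw [Pool.Agent.TH833.BL.S_add (fun n => ∑ j ∈ range M, wv f (D j) θ L (n + j)) (fun _ => 2 * B * L * L),
      S_sum, S_const]
  have h4 : ∀ j ∈ range M, S (fun n => wv f (D j) θ L (n + j)) N ≤
      ε / 3 * L * Real.log N + 3 * (L * B) * M := by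
    intro j hj
    have h5 := (abs_le.1 (S_shift (φ := wv f (D j) θ L) (C := L * B) (fun n => by
      rw [abs_of_nonneg (wv_nonneg _ _ _ _ _)]
      exact wv_le hf (hDb j) θ L n) j N)).2
    have h6 : 3 * (L * B) * (j : ℝ) ≤ 3 * (L * B) * M := by
      apply mul_le_mul_of_nonneg_left _ (by positivity)
      exact_mod_cast (mem_range.1 hj).le
    have h7 := h0 j
    have h8 : 5 * (ε / 15) * L * Real.log N = ε / 3 * L * Real.log N := by ring
    linarith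
  have h5 := (sum_le_sum h4).trans_eq (by rw [sum_const, card_range, nsmul_eq_mul])
  have h6 : 2 * B * L * L * H N ≤ 2 * B * L * L * (2 * Real.log N) := by
    apply mul_le_mul_of_nonneg_left _ (by positivity)
    linarith [H_le N]
  have h7 : (L : ℝ) * S (wv f A θ M) N ≤ L * (ε * M * Real.log N) := by
    have h9 : (M : ℝ) * (3 * (L * B) * M) ≤ L * M * (ε / 3 * Real.log N) := by
      have : (M : ℝ) * (3 * (L * B) * M) = L * M * (3 * B * M) := by ring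
      rw [this]
      exact mul_le_mul_of_nonneg_left h1 (by positivity)
    have h10 : 2 * B * L * L * (2 * Real.log N) ≤ L * (ε / 3 * M * Real.log N) := by
      have h11 : 4 * L * B ≤ ε / 3 * M := by linarith
      have h12 : 2 * B * L * L * (2 * Real.log N) = L * Real.log N * (4 * L * B) := by ring
      rw [h12]
      calc L * Real.log N * (4 * L * B) ≤ L * Real.log N * (ε / 3 * M) :=
            mul_le_mul_of_nonneg_left h11 (by positivity)
        _ = _ := by ring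
    have h13 : (M : ℝ) * (ε / 3 * L * Real.log N + 3 * (L * B) * M) =
        M * (ε / 3 * L * Real.log N) + M * (3 * (L * B) * M) := by ring
    have h14 : L * (ε * M * Real.log N) = M * (ε / 3 * L * Real.log N) + L * M * (ε / 3 * Real.log N) +
        L * (ε / 3 * M * Real.log N) := by ring
    linarith
  exact le_of_mul_le_mul_left h7 hL0

/-- one sequence -/
lemma wn_eq_wv (f : ℕ → ℤ) (a : ℕ → X) (θ : ℝ) (L n : ℕ) :
    wn f a θ L n = wv f (fun n h => a (n + h)) θ L n := by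
  unfold wn wv tm
  have e : ∑ h ∈ range L, (((f (n + h) : ℤ) : ℂ) * ex (((n + h : ℕ) : ℝ) * θ)) • a (n + h) =
      ex (n * θ) • ∑ h ∈ range L, (((f (n + h) : ℤ) : ℂ) * ex (h * θ)) • a (n + h) := by
    rw [smul_sum]
    refine sum_congr rfl fun h _ => ?_
    rw [smul_smul]
    congr 1
    push_cast
    rw [add_mul, ex_add]
    ring
  rw [e, norm_smul, norm_ex, one_mul]

/-- **Sequences whose tails are dominated by the initial piece.** -/
theorem lw_of_fac (hf : ∀ n, |f n| ≤ 1) (hT : TwoPoint f) (a : ℕ → X) (ha : ∀ n, ‖a n‖ ≤ B)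
    (hc : ∀ (k L : ℕ) (v : ℕ → ℂ), ‖∑ h ∈ range L, v h • a (k + h)‖ ≤ ‖∑ h ∈ range L, v h • a h‖)
    (h : ∀ η : ℝ, 0 < η → ∃ L : ℕ, 1 ≤ L ∧ Fac {a} L η) : LW f a := by
  set 𝓕 : Set (ℕ → X) := {b | ∃ k : ℕ, b = fun h => a (k + h)} with h𝓕
  have h1 : ∀ η : ℝ, 0 < η → ∃ L : ℕ, 1 ≤ L ∧ Fac 𝓕 L η := by
    intro η hη
    obtain ⟨L, hL, E, iE, iE', c, hc1, hc2⟩ := h η hη
    refine ⟨L, hL, E, iE, iE', c, hc1, ?_⟩
    rintro b ⟨k, rfl⟩ v hv
    exact (hc k L v).trans (hc2 a rfl v hv)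
  have h2 : ∀ b ∈ 𝓕, ∀ n, ‖b n‖ ≤ B := by
    rintro b ⟨k, rfl⟩ n
    exact ha _
  have h3 : ∀ b ∈ 𝓕, (fun n => b (n + 1)) ∈ 𝓕 := by
    rintro b ⟨k, rfl⟩
    refine ⟨k + 1, ?_⟩
    funext n
    show a (k + (n + 1)) = a (k + 1 + n)
    congr 1
    ring
  intro ε hε
  obtain ⟨M₀, hM₀⟩ := long_fac hf hT h2 h3 h1 ε hε
  refine ⟨M₀, fun M hM => ?_⟩
  obtain ⟨N₀, hN₀⟩ := hM₀ M hM
  refine ⟨N₀, fun N hN θ => ?_⟩
  have h4 := hN₀ N hN (fun n h => a (n + h)) (fun n => ⟨n, rfl⟩) θ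
  have e : wn f a θ M = wv f (fun n h => a (n + h)) θ M := funext fun n => wn_eq_wv f a θ M n
  rw [e]
  exact h4

end Pool.Agent.Y326
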