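import Pool.Agent.Y326.Unif
import Pool.Agent.Y326.Conc
import Mathlib.Analysis.Fourier.AddCircleMulti
import Mathlib.MeasureTheory.Integral.IntervalIntegral.Periodic

/-!
# Rotations of tori with the rotation in a small set
-/

set_option autoImplicit false

namespace Pool.Agent.Y326

open Finset Filter MeasureTheory UnitAddTorus
open Pool.Agent.TH833.BL (S H H_le le_H one_le_log)

/-! ## characters -/

lemma norm_four (m : ℤ) (x : UnitAddCircle) : ‖(fourier m x : ℂ)‖ = 1 := by
  rw [fourier_apply]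
  exact Circle.norm_coe _

lemma four_one_sub (x : UnitAddCircle) : ‖(fourier 1 x : ℂ) - 1‖ ≤ 2 * Real.pi * ‖x‖ := by
  induction x using QuotientAddGroup.induction_on with
  | H t =>
    set s : ℝ := t - round t with hs
    have e : ((t : ℝ) : UnitAddCircle) = ((s : ℝ) : UnitAddCircle) := by
      have h1 : (((round t : ℤ) : ℝ) : UnitAddCircle) = 0 := by
        have := AddCircle.coe_period (1 : ℝ)
        rw [show ((round t : ℤ) : ℝ) = (round t : ℤ) • (1 : ℝ) by simp]
        rw [AddCircle.coe_zsmul, this, smul_zero]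
      rw [hs, AddCircle.coe_sub, h1, sub_zero]
    have e2 : ‖((t : ℝ) : UnitAddCircle)‖ = |s| := UnitAddCircle.norm_eq
    show ‖(fourier 1 ((t : ℝ) : UnitAddCircle) : ℂ) - 1‖ ≤ 2 * Real.pi * ‖((t : ℝ) : UnitAddCircle)‖
    rw [e2, e, fourier_coe_apply]
    have h1 := Real.norm_exp_I_mul_ofReal_sub_one_le (x := 2 * Real.pi * s)
    rw [Real.norm_eq_abs, abs_mul, abs_of_pos Real.two_pi_pos] at h1
    refine le_trans (le_of_eq ?_) h1
    congr 3
    push_cast
    ring

lemma four_sub (h : ℕ) (x y : UnitAddCircle) :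
    ‖(fourier (h : ℤ) x : ℂ) - fourier (h : ℤ) y‖ ≤ 2 * Real.pi * h * dist x y := by
  have e : (fourier (h : ℤ) x : ℂ) - fourier (h : ℤ) y =
      (fourier (h : ℤ) y : ℂ) * ((fourier 1 (h • (x - y)) : ℂ) - 1) := by
    have h1 : (fourier (h : ℤ) x : ℂ) = (fourier (h : ℤ) y : ℂ) * (fourier 1 (h • (x - y)) : ℂ) := by
      simp only [fourier_apply]
      rw [← Circle.coe_mul, ← AddCircle.toCircle_add]
      congr 2
      rw [one_zsmul, natCast_zsmul, natCast_zsmul, smul_sub]
      abel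
    rw [h1]; ring
  rw [e, norm_mul, norm_four, one_mul]
  refine (four_one_sub _).trans ?_
  have h1 : ‖h • (x - y)‖ ≤ h * ‖x - y‖ := norm_nsmul_le
  rw [dist_eq_norm]
  calc 2 * Real.pi * ‖h • (x - y)‖ ≤ 2 * Real.pi * (h * ‖x - y‖) :=
        mul_le_mul_of_nonneg_left h1 Real.two_pi_pos.le
    _ = _ := by ring

/-- the characters with frequencies in a set -/
def chars (E : Set UnitAddCircle) : Set (ℕ → ℂ) :=
  {a | ∃ α ∈ E, ∃ z : ℂ, ‖z‖ ≤ 1 ∧ ∀ h : ℕ, a h = z * (fourier (h : ℤ) α : ℂ)}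

lemma chars_bd {E : Set UnitAddCircle} : ∀ a ∈ chars E, ∀ n, ‖a n‖ ≤ 1 := by
  rintro a ⟨α, _, z, hz, ha⟩ n
  rw [ha, norm_mul, norm_four, mul_one]
  exact hz

lemma chars_shift {E : Set UnitAddCircle} : ∀ a ∈ chars E, (fun n => a (n + 1)) ∈ chars E := by
  rintro a ⟨α, hα, z, hz, ha⟩
  refine ⟨α, hα, z * (fourier 1 α : ℂ), ?_, fun h => ?_⟩
  · rw [norm_mul, norm_four, mul_one]; exact hz
  · show a (h + 1) = _
    rw [ha]
    push_cast
    rw [add_comm, fourier_add]
    ring

lemma fac_chars {E : Set UnitAddCircle} (s : Finset UnitAddCircle) (r : ℝ)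
    (h : ∀ α ∈ E, ∃ y ∈ s, dist α y ≤ r) (L : ℕ) (η : ℝ) (h1 : (s.card : ℝ) ≤ η ^ 2 * L)
    (h2 : 2 * Real.pi * r * L ≤ η) : Fac (chars E) L η := by
  refine ⟨EuclideanSpace ℂ s, inferInstance, inferInstance,
    fun h => WithLp.toLp 2 fun y : s => (fourier (h : ℤ) (y : UnitAddCircle) : ℂ), ?_, ?_⟩
  · have e : ∀ h : ℕ, ‖(WithLp.toLp 2 fun y : s => (fourier (h : ℤ) (y : UnitAddCircle) : ℂ) :
        EuclideanSpace ℂ s)‖ ^ 2 = s.card := by
      intro h
      rw [EuclideanSpace.norm_sq_eq]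
      simp only [norm_four, one_pow, sum_const, card_univ, Fintype.card_coe, nsmul_eq_mul, mul_one]
    simp only [e, sum_const, card_range, nsmul_eq_mul]
    calc (L : ℝ) * s.card ≤ L * (η ^ 2 * L) := mul_le_mul_of_nonneg_left h1 (Nat.cast_nonneg L)
      _ = _ := by ring
  · rintro a ⟨α, hα, z, hz, ha⟩ v hv
    obtain ⟨y, hy, hd⟩ := h α hα
    have h3 : ‖∑ h ∈ range L, v h • a h‖ ≤ ‖∑ h ∈ range L, v h * (fourier (h : ℤ) α : ℂ)‖ := by
      have e : ∑ h ∈ range L, v h • a h = z * ∑ h ∈ range L, v h * (fourier (h : ℤ) α : ℂ) := by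
        rw [mul_sum]
        refine sum_congr rfl fun h _ => ?_
        rw [ha, smul_eq_mul]; ring
      rw [e, norm_mul]
      calc _ ≤ 1 * _ := mul_le_mul_of_nonneg_right hz (norm_nonneg _)
        _ = _ := one_mul _
    have h4 : ‖∑ h ∈ range L, v h * (fourier (h : ℤ) y : ℂ)‖ ≤
        ‖∑ h ∈ range L, v h • (WithLp.toLp 2 fun y : s => (fourier (h : ℤ) (y : UnitAddCircle) : ℂ) :
          EuclideanSpace ℂ s)‖ := by
      refine le_trans (le_of_eq ?_) (PiLp.norm_apply_le _ (⟨y, hy⟩ : s))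
      congr 1
      simp [smul_eq_mul]
    have h5 : ‖∑ h ∈ range L, v h * (fourier (h : ℤ) α : ℂ) - ∑ h ∈ range L, v h * (fourier (h : ℤ) y : ℂ)‖ ≤
        η * L := by
      rw [← sum_sub_distrib]
      refine (norm_sum_le _ _).trans ?_
      calc ∑ h ∈ range L, ‖v h * (fourier (h : ℤ) α : ℂ) - v h * (fourier (h : ℤ) y : ℂ)‖ ≤
          ∑ h ∈ range L, η := by
            refine sum_le_sum fun h hh => ?_
            rw [← mul_sub, norm_mul]
            have hr : 0 ≤ r := dist_nonneg.trans hd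
            have hhL : (h : ℝ) ≤ L := by exact_mod_cast (mem_range.1 hh).le
            calc ‖v h‖ * ‖(fourier (h : ℤ) α : ℂ) - fourier (h : ℤ) y‖ ≤ 1 * (2 * Real.pi * h * dist α y) :=
                  mul_le_mul (hv h) (four_sub h α y) (norm_nonneg _) zero_le_one
              _ ≤ 2 * Real.pi * L * r := by
                  rw [one_mul]
                  have : 0 ≤ 2 * Real.pi := Real.two_pi_pos.le
                  exact mul_le_mul (mul_le_mul_of_nonneg_left hhL this) hd dist_nonneg (by positivity)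
              _ ≤ η := by linarith
        _ = η * L := by rw [sum_const, card_range, nsmul_eq_mul, mul_comm]
    have h6 := norm_le_norm_add_norm_sub' (∑ h ∈ range L, v h * (fourier (h : ℤ) α : ℂ))
      (∑ h ∈ range L, v h * (fourier (h : ℤ) y : ℂ))
    linarith

/-! ## coverings -/

/-- small measure gives small coverings at all small scales -/
lemma cover_of_volume (F : Set UnitAddCircle) (hF : IsClosed F) (δ : ℝ) (hδ : 0 < δ)
    (hv : volume F < ENNReal.ofReal δ) : ∃ Q₀ : ℕ, ∀ Q : ℕ, Q₀ ≤ Q → ∃ s : Finset UnitAddCircle,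
      (s.card : ℝ) ≤ 2 * δ * Q ∧ ∀ α ∈ F, ∃ y ∈ s, dist α y ≤ 1 / Q := by
  have h1 := tendsto_measure_cthickening_of_isCompact (μ := (volume : Measure UnitAddCircle)) hF.isCompact
  have h2 := h1.eventually_lt_const hv
  obtain ⟨ρ, hρ, hb⟩ := Metric.eventually_nhds_iff.1 h2
  refine ⟨max 3 (⌈1 / ρ⌉₊ + 1), fun Q hQ => ?_⟩
  have hQ3 : 3 ≤ Q := (le_max_left _ _).trans hQ
  have hQ0 : (0 : ℝ) < Q := by exact_mod_cast (by omega : 0 < Q)
  have hQρ : 1 / (Q : ℝ) < ρ := by
    have : 1 / ρ < Q := by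
      have h3 : (⌈1 / ρ⌉₊ : ℝ) + 1 ≤ Q := by exact_mod_cast (le_max_right _ _).trans hQ
      linarith [Nat.le_ceil (1 / ρ)]
    rw [div_lt_iff₀ hQ0]
    rw [div_lt_iff₀ hρ] at this
    linarith
  set r : ℝ := 1 / (2 * Q) with hr
  have hr0 : 0 < r := by positivity
  have hrρ : r < ρ := by
    refine lt_of_le_of_lt ?_ hQρ
    rw [hr]
    apply one_div_le_one_div_of_le hQ0
    linarith
  have hvol := hb (by rw [Real.dist_eq, sub_zero, abs_of_pos hr0]; exact hrρ : dist r 0 < ρ)
  -- separated sets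
  set P : Finset UnitAddCircle → Prop := fun s => (∀ y ∈ s, y ∈ F) ∧ ∀ x ∈ s, ∀ y ∈ s, x ≠ y → 1 / (Q : ℝ) < dist x y
    with hP
  have hcard : ∀ s, P s → (s.card : ℝ) ≤ δ * Q := by
    intro s hs
    have hd : (s : Set UnitAddCircle).PairwiseDisjoint (fun y => Metric.closedBall y r) := by
      intro x hx y hy hxy
      have h3 := hs.2 x hx y hy hxy
      apply Metric.closedBall_disjoint_closedBall
      have : r + r = 1 / (Q : ℝ) := by rw [hr]; field_simp; ring
      rw [this]; exact h3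
    have h4 : volume (⋃ y ∈ s, Metric.closedBall y r) = ∑ y ∈ s, volume (Metric.closedBall y r) :=
      measure_biUnion_finset hd fun y _ => measurableSet_closedBall
    have h5 : (⋃ y ∈ s, Metric.closedBall y r) ⊆ Metric.cthickening r F := by
      intro z hz
      simp only [Set.mem_iUnion] at hz
      obtain ⟨y, hy, hz⟩ := hz
      exact Metric.closedBall_subset_cthickening (hs.1 y hy) r hz
    have h6 : ∀ y : UnitAddCircle, volume (Metric.closedBall y r) = ENNReal.ofReal (1 / Q) := by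
      intro y
      rw [AddCircle.volume_closedBall]
      congr 1
      have : 2 * r = 1 / (Q : ℝ) := by rw [hr]; field_simp
      rw [this]
      apply min_eq_right
      rw [div_le_one hQ0]
      exact_mod_cast (by omega : 1 ≤ Q)
    have h7 : ∑ y ∈ s, volume (Metric.closedBall y r) ≤ ENNReal.ofReal δ := by
      rw [← h4]
      exact (measure_mono h5).trans hvol.le
    simp only [h6, sum_const, nsmul_eq_mul] at h7
    rw [← ENNReal.ofReal_natCast, ← ENNReal.ofReal_mul (by positivity), ENNReal.ofReal_le_ofReal_iff hδ.le] at h7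
    rw [mul_one_div, div_le_iff₀ hQ0] at h7
    exact h7
  set Sn : Set ℕ := {n | ∃ s, P s ∧ s.card = n} with hSn
  have hne : Sn.Nonempty := ⟨0, ∅, ⟨by simp, by simp⟩, by simp⟩
  have hbdd : BddAbove Sn := by
    refine ⟨⌊δ * Q⌋₊, ?_⟩
    rintro n ⟨s, hs, rfl⟩
    exact Nat.le_floor (hcard s hs)
  obtain ⟨s, hs, hsc⟩ := Nat.sSup_mem hne hbdd
  refine ⟨s, (hcard s hs).trans (by nlinarith), fun α hα => ?_⟩
  by_contra hcon
  push Not at hcon
  classical
  have hα' : α ∉ s := by
    intro h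
    have := hcon α h
    rw [dist_self] at this
    have : (0 : ℝ) < 1 / Q := by positivity
    linarith
  have h3 : P (insert α s) := by
    constructor
    · intro y hy
      rw [mem_insert] at hy
      rcases hy with h | h
      · rw [h]; exact hα
      · exact hs.1 y h
    · intro x hx y hy hxy
      rw [mem_insert] at hx hy
      rcases hx with hx | hx <;> rcases hy with hy | hy
      · exact absurd (hx.trans hy.symm) hxy
      · rw [hx]; exact hcon y hy
      · rw [hy, dist_comm]; exact hcon x hx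
      · exact hs.2 x hx y hy hxy
  have h4 : (insert α s).card ≤ sSup Sn := le_csSup hbdd ⟨_, h3, rfl⟩
  rw [card_insert_of_notMem hα', hsc] at h4
  omega

end Pool.Agent.Y326
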