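import Pool.Agent.Y326.Null

/-!
# Rotations of tori with the rotation in a small set: continuous functions
-/

set_option autoImplicit false

namespace Pool.Agent.Y326

open Finset Filter MeasureTheory UnitAddTorus
open Pool.Agent.TH833.BL (S H H_le le_H one_le_log)

/-- the linear form -/
def linf {d : ℕ} (k : Fin d → ℤ) (g : Fin d → UnitAddCircle) : UnitAddCircle := ∑ i, k i • g i

lemma toCircle_sum {ι : Type*} (S : Finset ι) (f : ι → UnitAddCircle) :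
    ((AddCircle.toCircle (∑ i ∈ S, f i) : Circle) : ℂ) = ∏ i ∈ S, ((AddCircle.toCircle (f i) : Circle) : ℂ) := by
  classical
  induction S using Finset.induction_on with
  | empty => simp
  | insert a S ha ih => rw [sum_insert ha, prod_insert ha, AddCircle.toCircle_add, Circle.coe_mul, ih]

lemma mF_lin {d : ℕ} (k : Fin d → ℤ) (y : Fin d → UnitAddCircle) :
    (mFourier k y : ℂ) = (fourier 1 (linf k y) : ℂ) := by
  show (∏ i, (fourier (k i) (y i) : ℂ)) = _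
  simp only [fourier_apply, one_zsmul]
  unfold linf
  rw [toCircle_sum]

lemma mF_rot {d : ℕ} (k : Fin d → ℤ) (g x : Fin d → UnitAddCircle) (n : ℕ) :
    mFourier k (x + n • g) = mFourier k x * (fourier (n : ℤ) (linf k g) : ℂ) := by
  have e2 : linf k (x + n • g) = linf k x + (n : ℤ) • linf k g := by
    unfold linf
    rw [Finset.smul_sum, ← sum_add_distrib]
    refine sum_congr rfl fun i _ => ?_
    rw [Pi.add_apply, Pi.smul_apply, zsmul_add, natCast_zsmul]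
    congr 1
    rw [smul_comm]
  rw [mF_lin, mF_lin, e2, fourier_apply, fourier_apply, fourier_apply, one_zsmul, one_zsmul, AddCircle.toCircle_add]
  push_cast
  rfl

/-- trigonometric polynomials are dense -/
lemma exists_trig {d : ℕ} (f : C(UnitAddTorus (Fin d), ℂ)) (τ : ℝ) (hτ : 0 < τ) :
    ∃ (s : Finset (Fin d → ℤ)) (c : (Fin d → ℤ) → ℂ), ∀ x, ‖f x - ∑ k ∈ s, c k * mFourier k x‖ ≤ τ := by
  have h1 : f ∈ (Submodule.span ℂ (Set.range (mFourier (d := Fin d)))).topologicalClosure := by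
    rw [span_mFourier_closure_eq_top]; trivial
  have h2 : f ∈ closure ((Submodule.span ℂ (Set.range (mFourier (d := Fin d)))) : Set C(UnitAddTorus (Fin d), ℂ)) := h1
  obtain ⟨p, hp, hd⟩ := Metric.mem_closure_iff.1 h2 τ hτ
  obtain ⟨c, hc⟩ := Finsupp.mem_span_range_iff_exists_finsupp.1 hp
  refine ⟨c.support, c, fun x => ?_⟩
  have e : ∑ k ∈ c.support, c k * mFourier k x = p x := by
    rw [← hc, Finsupp.sum]
    rw [ContinuousMap.coe_sum, Finset.sum_apply]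
    rfl
  rw [e]
  have := (f - p).norm_coe_le_norm x
  rw [← dist_eq_norm] at this
  exact this.trans hd.le

/-- The supremum of `|∑_{h ≤ H} f(x + (h + n) g) u(n + h)|` over all rotations `g` in `E` and all starting
points `x` of the torus. -/
noncomputable def wsup {d : ℕ} (E : Set (Fin d → UnitAddCircle)) (f : C(Fin d → UnitAddCircle, ℂ)) (u : ℕ → ℤ)
    (n H : ℕ) : ℝ :=
  ⨆ p : E × (Fin d → UnitAddCircle), ‖∑ h ∈ Icc 1 H, f (p.2 + (h + n) • (p.1 : Fin d → UnitAddCircle)) *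
    ((u (n + h) : ℤ) : ℂ)‖

lemma wsup_nonneg {d : ℕ} (E : Set (Fin d → UnitAddCircle)) (f : C(Fin d → UnitAddCircle, ℂ)) (u : ℕ → ℤ)
    (n H : ℕ) : 0 ≤ wsup E f u n H := Real.iSup_nonneg fun _ => norm_nonneg _

lemma wsup_near {d : ℕ} {E : Set (Fin d → UnitAddCircle)} (f : C(Fin d → UnitAddCircle, ℂ)) (u : ℕ → ℤ)
    (n H : ℕ) (hE : E.Nonempty) (τ : ℝ) (hτ : 0 < τ) :
    ∃ ω : (Fin d → UnitAddCircle) × (Fin d → UnitAddCircle), ω.1 ∈ E ∧
      wsup E f u n H ≤ ‖∑ h ∈ Icc 1 H, f (ω.2 + (h + n) • ω.1) * ((u (n + h) : ℤ) : ℂ)‖ + τ := by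
  obtain ⟨g0, hg0⟩ := hE
  have : Nonempty (E × (Fin d → UnitAddCircle)) := ⟨(⟨g0, hg0⟩, 0)⟩
  obtain ⟨p, hp⟩ := exists_lt_of_lt_ciSup (show wsup E f u n H - τ < wsup E f u n H by linarith)
  exact ⟨(p.1, p.2), p.1.2, by linarith⟩

/-- the windows in terms of the windows of characters -/
lemma wsup_le {d : ℕ} {E : Set (Fin d → UnitAddCircle)} (f : C(Fin d → UnitAddCircle, ℂ)) {u : ℕ → ℤ}
    (hu : ∀ n, |u n| ≤ 1) (hE : E.Nonempty) (H : ℕ) (τ : ℝ) (hτ : 0 < τ) (s : Finset (Fin d → ℤ))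
    (c : (Fin d → ℤ) → ℂ) (hc : ∀ x, ‖f x - ∑ k ∈ s, c k * mFourier k x‖ ≤ τ) :
    ∃ ω : ℕ → (Fin d → UnitAddCircle) × (Fin d → UnitAddCircle), (∀ n, (ω n).1 ∈ E) ∧
      ∀ n, wsup E f u n H ≤ ∑ k ∈ s, ‖c k‖ *
        (wv u (fun n h => mFourier k ((ω n).2 + n • (ω n).1) * (fourier (h : ℤ) (linf k (ω n).1) : ℂ)) 0 (H + 1) n + 1) +
          τ * (H + 1) := by
  choose ω hω1 hω2 using fun n => wsup_near f u n H hE τ hτ
  refine ⟨ω, hω1, fun n => (hω2 n).trans ?_⟩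
  set g := (ω n).1 with hg
  set x := (ω n).2 with hx
  have h1 : ‖∑ h ∈ Icc 1 H, f (x + (h + n) • g) * ((u (n + h) : ℤ) : ℂ) -
      ∑ h ∈ Icc 1 H, (∑ k ∈ s, c k * mFourier k (x + (h + n) • g)) * ((u (n + h) : ℤ) : ℂ)‖ ≤ τ * H := by
    rw [← sum_sub_distrib]
    refine (norm_sum_le _ _).trans ?_
    calc _ ≤ ∑ h ∈ Icc 1 H, τ := by
          refine sum_le_sum fun h _ => ?_
          rw [← sub_mul, norm_mul]
          calc _ ≤ τ * 1 := mul_le_mul (hc _) (f_norm hu _) (norm_nonneg _) hτ.le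
            _ = τ := mul_one τ
      _ = τ * H := by rw [sum_const, Nat.card_Icc, nsmul_eq_mul, mul_comm]; simp
  have h2 : ‖∑ h ∈ Icc 1 H, (∑ k ∈ s, c k * mFourier k (x + (h + n) • g)) * ((u (n + h) : ℤ) : ℂ)‖ ≤
      ∑ k ∈ s, ‖c k‖ *
        (wv u (fun n h => mFourier k ((ω n).2 + n • (ω n).1) * (fourier (h : ℤ) (linf k (ω n).1) : ℂ)) 0 (H + 1) n + 1) := by
    have e : ∑ h ∈ Icc 1 H, (∑ k ∈ s, c k * mFourier k (x + (h + n) • g)) * ((u (n + h) : ℤ) : ℂ) =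
        ∑ k ∈ s, c k * ∑ h ∈ Icc 1 H, mFourier k (x + (h + n) • g) * ((u (n + h) : ℤ) : ℂ) := by
      simp only [sum_mul, mul_sum]
      rw [sum_comm]
      refine sum_congr rfl fun k _ => sum_congr rfl fun h _ => by ring
    rw [e]
    refine (norm_sum_le _ _).trans (sum_le_sum fun k _ => ?_)
    rw [norm_mul]
    refine mul_le_mul_of_nonneg_left ?_ (norm_nonneg _)
    have e2 : ∀ h : ℕ, mFourier k (x + (h + n) • g) * ((u (n + h) : ℤ) : ℂ) =
        (((u (n + h) : ℤ) : ℂ) * ex (h * 0)) • (mFourier k (x + n • g) * (fourier (h : ℤ) (linf k g) : ℂ)) := by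
      intro h
      have : x + (h + n) • g = (x + n • g) + h • g := by
        rw [add_smul]; abel
      rw [this, mF_rot, mul_zero, smul_eq_mul]
      have : ex 0 = 1 := by unfold ex; simp
      rw [this, mul_one]
      ring
    simp only [e2]
    have e3 : ∑ h ∈ range (H + 1), (((u (n + h) : ℤ) : ℂ) * ex (h * 0)) •
          (mFourier k (x + n • g) * (fourier (h : ℤ) (linf k g) : ℂ)) =
        ∑ h ∈ Icc 1 H, (((u (n + h) : ℤ) : ℂ) * ex (h * 0)) •
          (mFourier k (x + n • g) * (fourier (h : ℤ) (linf k g) : ℂ)) +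
        (((u (n + 0) : ℤ) : ℂ) * ex ((0 : ℕ) * 0)) •
          (mFourier k (x + n • g) * (fourier ((0 : ℕ) : ℤ) (linf k g) : ℂ)) := by
      rw [sum_range_succ']
      congr 1
      rw [range_eq_Ico, sum_Ico_add' (fun h : ℕ => (((u (n + h) : ℤ) : ℂ) * ex (h * 0)) •
          (mFourier k (x + n • g) * (fourier (h : ℤ) (linf k g) : ℂ))) 0 H 1]
      rfl
    have h3 : ‖(((u (n + 0) : ℤ) : ℂ) * ex ((0 : ℕ) * 0)) •
          (mFourier k (x + n • g) * (fourier ((0 : ℕ) : ℤ) (linf k g) : ℂ))‖ ≤ 1 := by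
      rw [norm_smul, norm_mul, norm_mul, norm_ex, mul_one, norm_four, mul_one]
      calc _ ≤ 1 * 1 := mul_le_mul (f_norm hu _) (((mFourier k).norm_coe_le_norm _).trans (le_of_eq mFourier_norm))
            (norm_nonneg _) zero_le_one
        _ = 1 := one_mul 1
    have h4 : ∑ h ∈ Icc 1 H, (((u (n + h) : ℤ) : ℂ) * ex (h * 0)) •
          (mFourier k (x + n • g) * (fourier (h : ℤ) (linf k g) : ℂ)) =
        ∑ h ∈ range (H + 1), (((u (n + h) : ℤ) : ℂ) * ex (h * 0)) •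
          (mFourier k (x + n • g) * (fourier (h : ℤ) (linf k g) : ℂ)) -
        (((u (n + 0) : ℤ) : ℂ) * ex ((0 : ℕ) * 0)) •
          (mFourier k (x + n • g) * (fourier ((0 : ℕ) : ℤ) (linf k g) : ℂ)) := by
      rw [e3]; ring
    rw [h4]
    refine (norm_sub_le _ _).trans ?_
    unfold wv
    linarith
  have h5 := norm_le_norm_add_norm_sub' (∑ h ∈ Icc 1 H, f (x + (h + n) • g) * ((u (n + h) : ℤ) : ℂ))
    (∑ h ∈ Icc 1 H, (∑ k ∈ s, c k * mFourier k (x + (h + n) • g)) * ((u (n + h) : ℤ) : ℂ))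
  linarith

/-- **uniform version**: coverings at one scale -/
theorem wsup_cov {u : ℕ → ℤ} (hu : ∀ n, |u n| ≤ 1) (hT : TwoPoint u) {d : ℕ} (f : C(Fin d → UnitAddCircle, ℂ))
    (ε : ℝ) (hε : 0 < ε) : ∃ δ : ℝ, 0 < δ ∧ ∃ K L₀ : ℕ, ∀ L : ℕ, L₀ ≤ L → ∃ H₀ C : ℕ,
      ∀ E : Set (Fin d → UnitAddCircle), (∀ k : Fin d → ℤ, k ≠ 0 → (∀ i, |k i| ≤ K) →
        ∃ s : Finset UnitAddCircle, (s.card : ℝ) ≤ δ * L ∧ ∀ g ∈ E, ∃ y ∈ s, dist (∑ i, k i • g i) y ≤ 1 / L) →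
      ∀ H N : ℕ, H₀ ≤ H → H ^ C ≤ N →
        ∑ n ∈ Icc 1 N, (1 / (n : ℝ)) * wsup E f u n H ≤ ε * H * Real.log N := by
  obtain ⟨s, c, hc⟩ := exists_trig f (ε / 16) (by positivity)
  set Cs : ℝ := ∑ k ∈ s, ‖c k‖ with hCs
  have hCs0 : 0 ≤ Cs := sum_nonneg fun k _ => norm_nonneg _
  set η : ℝ := ε / (96 * (Cs + 1)) with hη
  have hη0 : 0 < η := by positivity
  set q : ℕ := ⌈2 * Real.pi / η⌉₊ with hq
  have hq1 : 2 * Real.pi / η ≤ q := Nat.le_ceil _
  have hq0 : (0 : ℝ) < q := lt_of_lt_of_le (by have := Real.pi_pos; positivity) hq1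
  have hq0' : 0 < q := by exact_mod_cast hq0
  obtain ⟨K, hK⟩ : ∃ K : ℕ, ∀ k ∈ s, ∀ i, |k i| ≤ K := by
    refine ⟨∑ k ∈ s, ∑ i, (k i).natAbs, fun k hk i => ?_⟩
    have h1 : (k i).natAbs ≤ ∑ i, (k i).natAbs := single_le_sum (f := fun i => (k i).natAbs) (fun _ _ => Nat.zero_le _) (mem_univ i)
    have h2 : ∑ i, (k i).natAbs ≤ ∑ k ∈ s, ∑ i, (k i).natAbs :=
      single_le_sum (f := fun k : Fin d → ℤ => ∑ i, (k i).natAbs) (fun _ _ => Nat.zero_le _) hk
    have h3 : |k i| = ((k i).natAbs : ℤ) := Int.abs_eq_natAbs _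
    rw [h3]
    exact_mod_cast h1.trans h2
  refine ⟨η ^ 2 / (2 * q), by positivity, K, q * (⌈1 / η ^ 2⌉₊ + 1), fun L hL => ?_⟩
  set ℓ : ℕ := L / q with hℓ
  have hℓ1 : ⌈1 / η ^ 2⌉₊ + 1 ≤ ℓ := by
    rw [hℓ, Nat.le_div_iff_mul_le hq0', mul_comm]; exact hL
  have hℓ1' : 1 ≤ ℓ := le_trans (by omega) hℓ1
  have hℓ0 : (0 : ℝ) < ℓ := by exact_mod_cast hℓ1'
  have hℓη : 1 ≤ η ^ 2 * ℓ := by
    have h1 : 1 / η ^ 2 ≤ (ℓ : ℝ) := (Nat.le_ceil _).trans (by exact_mod_cast (by omega : ⌈1 / η ^ 2⌉₊ ≤ ℓ))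
    rw [div_le_iff₀ (by positivity)] at h1
    linarith
  have hLℓ : (q : ℝ) * ℓ ≤ L := by exact_mod_cast Nat.mul_div_le L q
  have hLℓ2 : (L : ℝ) ≤ 2 * q * ℓ := by
    have h1 : L < q * ℓ + q := by
      have := Nat.lt_mul_div_succ L hq0'
      rw [hℓ]
      linarith
    have h2 : (L : ℝ) ≤ q * ℓ + q := by exact_mod_cast h1.le
    have h3 : (1 : ℝ) ≤ ℓ := by exact_mod_cast hℓ1'
    nlinarith
  have hL0 : (0 : ℝ) < L := lt_of_lt_of_le (by positivity) hLℓ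
  obtain ⟨M₀, C, hMC⟩ := long_unif (X := ℂ) hu hT ℓ hℓ1' η hη0 1 zero_le_one
  refine ⟨max (max 3 M₀) ⌈8 * Cs / ε⌉₊, 2 * C + 1, fun E hcov H N hH hN => ?_⟩
  have hH3 : 3 ≤ H := ((le_max_left _ _).trans (le_max_left _ _)).trans hH
  have hHM : M₀ ≤ H := ((le_max_right _ _).trans (le_max_left _ _)).trans hH
  have hHC : 8 * Cs / ε ≤ H := (Nat.le_ceil _).trans (by exact_mod_cast (le_max_right _ _).trans hH)
  rw [div_le_iff₀ hε] at hHC
  have hHN : H ≤ N := (Nat.le_self_pow (by omega) H).trans hN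
  have hHN2 : (H + 1) ^ C ≤ N := by
    calc (H + 1) ^ C ≤ (H ^ 2) ^ C := Nat.pow_le_pow_left (by nlinarith) C
      _ = H ^ (2 * C) := by rw [← pow_mul]
      _ ≤ H ^ (2 * C + 1) := Nat.pow_le_pow_right (by omega) (by omega)
      _ ≤ N := hN
  have hl := one_le_log (hH3.trans hHN)
  have hH0 : (0 : ℝ) < H := by exact_mod_cast (by omega : 0 < H)
  have hH1 : (3 : ℝ) ≤ H := by exact_mod_cast hH3
  rcases E.eq_empty_or_nonempty with hem | hne
  · subst hem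
    have h0 : ∀ n, wsup (∅ : Set (Fin d → UnitAddCircle)) f u n H = 0 := fun n => Real.iSup_of_isEmpty _
    simp only [h0, mul_zero, sum_const_zero]
    positivity
  obtain ⟨ω, hω1, hω2⟩ := wsup_le f hu hne H (ε / 16) (by positivity) s c hc
  have h1 : ∀ k ∈ s, S (wv u (fun n h => mFourier k ((ω n).2 + n • (ω n).1) *
      (fourier (h : ℤ) (linf k (ω n).1) : ℂ)) 0 (H + 1)) N ≤ 12 * η * ((H + 1 : ℕ) : ℝ) * Real.log N := by
    intro k hk
    set E' : Set UnitAddCircle := if k = 0 then {0} else linf k '' E with hE'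
    have hfac : Fac (chars E') ℓ η := by
      by_cases hk0 : k = 0
      · refine fac_chars {0} 0 ?_ ℓ η ?_ ?_
        · intro α hα
          rw [hE', if_pos hk0, Set.mem_singleton_iff] at hα
          exact ⟨0, by simp, by rw [hα, dist_self]⟩
        · simp only [card_singleton, Nat.cast_one]
          exact hℓη
        · simp only [mul_zero, zero_mul]
          exact hη0.le
      · obtain ⟨t, ht1, ht2⟩ := hcov k hk0 (hK k hk)
        refine fac_chars t (1 / L) ?_ ℓ η ?_ ?_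
        · intro α hα
          rw [hE', if_neg hk0] at hα
          obtain ⟨g, hg, rfl⟩ := hα
          exact ht2 g hg
        · refine ht1.trans ?_
          calc η ^ 2 / (2 * q) * L ≤ η ^ 2 / (2 * q) * (2 * q * ℓ) := mul_le_mul_of_nonneg_left hLℓ2 (by positivity)
            _ = η ^ 2 * ℓ := by field_simp
        · rw [div_le_iff₀ hη0] at hq1
          rw [mul_one_div, div_mul_eq_mul_div, div_le_iff₀ hL0]
          calc 2 * Real.pi * ℓ ≤ (q * η) * ℓ := mul_le_mul_of_nonneg_right hq1 hℓ0.le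
            _ = η * (q * ℓ) := by ring
            _ ≤ η * L := mul_le_mul_of_nonneg_left hLℓ hη0.le
    refine hMC (H + 1) N (by omega) hHN2 (chars E') hfac chars_bd chars_shift _ (fun n => ?_) 0
    refine ⟨linf k (ω n).1, ?_, mFourier k ((ω n).2 + n • (ω n).1), ?_, fun h => rfl⟩
    · rw [hE']
      split_ifs with hk0
      · rw [hk0, Set.mem_singleton_iff]
        unfold linf
        simp
      · exact ⟨(ω n).1, hω1 n, rfl⟩
    · exact ((mFourier k).norm_coe_le_norm _).trans (le_of_eq mFourier_norm)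
  have h2 := S_mono hω2 N
  rw [Pool.Agent.TH833.BL.S_add (fun n => ∑ k ∈ s, ‖c k‖ *
        (wv u (fun n h => mFourier k ((ω n).2 + n • (ω n).1) * (fourier (h : ℤ) (linf k (ω n).1) : ℂ)) 0 (H + 1) n + 1))
        (fun _ => ε / 16 * ((H : ℝ) + 1)), S_sum, S_const] at h2
  have hHarm : Pool.Agent.TH833.BL.H N ≤ 2 * Real.log N := by linarith [H_le N]
  have hHarm0 : 0 ≤ Pool.Agent.TH833.BL.H N := by
    unfold Pool.Agent.TH833.BL.H
    exact sum_nonneg fun n _ => by positivity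
  have h3 : ∀ k ∈ s, S (fun n => ‖c k‖ *
        (wv u (fun n h => mFourier k ((ω n).2 + n • (ω n).1) * (fourier (h : ℤ) (linf k (ω n).1) : ℂ)) 0 (H + 1) n + 1)) N ≤
        ‖c k‖ * (12 * η * ((H + 1 : ℕ) : ℝ) * Real.log N + 2 * Real.log N) := by
    intro k hk
    rw [S_cmul, Pool.Agent.TH833.BL.S_add, S_const]
    refine mul_le_mul_of_nonneg_left ?_ (norm_nonneg _)
    linarith [h1 k hk]
  have h4 := sum_le_sum h3
  rw [← sum_mul, ← hCs] at h4
  have h5 : ε / 16 * ((H : ℝ) + 1) * Pool.Agent.TH833.BL.H N ≤ ε / 16 * (2 * H) * (2 * Real.log N) :=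
    mul_le_mul (by nlinarith) hHarm hHarm0 (by positivity)
  have h6 : Cs * (12 * η * ((H + 1 : ℕ) : ℝ) * Real.log N + 2 * Real.log N) ≤
      ε / 4 * H * Real.log N + ε / 4 * H * Real.log N := by
    have e1 : Cs * (12 * η * ((H + 1 : ℕ) : ℝ)) ≤ ε / 4 * H := by
      have h7 : Cs * η ≤ ε / 96 := by
        rw [hη, mul_div_assoc', div_le_div_iff₀ (by positivity) (by norm_num)]
        nlinarith
      push_cast
      have h8 : Cs * (12 * η * ((H : ℝ) + 1)) = 12 * (Cs * η) * (H + 1) := by ring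
      rw [h8]
      calc 12 * (Cs * η) * ((H : ℝ) + 1) ≤ 12 * (ε / 96) * (2 * H) :=
            mul_le_mul (by linarith) (by linarith) (by positivity) (by positivity)
        _ = ε / 4 * H := by ring
    have e2 : Cs * 2 ≤ ε / 4 * H := by linarith
    calc Cs * (12 * η * ((H + 1 : ℕ) : ℝ) * Real.log N + 2 * Real.log N) =
          (Cs * (12 * η * ((H + 1 : ℕ) : ℝ))) * Real.log N + (Cs * 2) * Real.log N := by ring
      _ ≤ ε / 4 * H * Real.log N + ε / 4 * H * Real.log N :=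
          add_le_add (mul_le_mul_of_nonneg_right e1 (by linarith)) (mul_le_mul_of_nonneg_right e2 (by linarith))
  have e : ∑ n ∈ Icc 1 N, (1 / (n : ℝ)) * wsup E f u n H = S (fun n => wsup E f u n H) N := rfl
  rw [e]
  calc S (fun n => wsup E f u n H) N ≤ ε / 4 * H * Real.log N + ε / 4 * H * Real.log N +
        ε / 16 * (2 * H) * (2 * Real.log N) := by linarith
    _ ≤ ε * H * Real.log N := by
        have : 0 < ε * H * Real.log N := by positivity
        nlinarith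

/-- **version with measures** -/
theorem wsup_vol {u : ℕ → ℤ} (hu : ∀ n, |u n| ≤ 1) (hT : TwoPoint u) {d : ℕ} (f : C(Fin d → UnitAddCircle, ℂ))
    (ε : ℝ) (hε : 0 < ε) : ∃ δ : ℝ, 0 < δ ∧ ∃ K : ℕ, ∀ E : Set (Fin d → UnitAddCircle),
      (∀ k : Fin d → ℤ, k ≠ 0 → (∀ i, |k i| ≤ K) →
        volume (closure ((fun g : Fin d → UnitAddCircle => ∑ i, k i • g i) '' E)) < ENNReal.ofReal δ) →
      ∃ H₀ C : ℕ, ∀ H N : ℕ, H₀ ≤ H → H ^ C ≤ N →
        ∑ n ∈ Icc 1 N, (1 / (n : ℝ)) * wsup E f u n H ≤ ε * H * Real.log N := by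
  obtain ⟨δ, hδ, K, L₀, h⟩ := wsup_cov hu hT f ε hε
  refine ⟨δ / 2, by positivity, K, fun E hE => ?_⟩
  have h1 : ∀ k : Fin d → ℤ, ∃ Q₀ : ℕ, k ≠ 0 → (∀ i, |k i| ≤ K) → ∀ Q : ℕ, Q₀ ≤ Q →
      ∃ s : Finset UnitAddCircle, (s.card : ℝ) ≤ δ * Q ∧ ∀ g ∈ E, ∃ y ∈ s, dist (∑ i, k i • g i) y ≤ 1 / Q := by
    intro k
    by_cases hk : k ≠ 0 ∧ ∀ i, |k i| ≤ K
    · obtain ⟨Q₀, hQ⟩ := cover_of_volume _ isClosed_closure (δ / 2) (by positivity) (hE k hk.1 hk.2)
      refine ⟨Q₀, fun _ _ Q hQQ => ?_⟩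
      obtain ⟨s, hs1, hs2⟩ := hQ Q hQQ
      refine ⟨s, hs1.trans (le_of_eq (by ring)), fun g hg => ?_⟩
      exact hs2 _ (subset_closure ⟨g, hg, rfl⟩)
    · exact ⟨0, fun h1 h2 => absurd ⟨h1, h2⟩ hk⟩
  choose Q₀ hQ₀ using h1
  set F : Finset (Fin d → ℤ) := Fintype.piFinset fun _ => Finset.Icc (-(K : ℤ)) K with hF
  obtain ⟨H₀, C, hH⟩ := h (max L₀ (∑ k ∈ F, Q₀ k)) (le_max_left _ _)
  refine ⟨H₀, C, hH E fun k hk0 hk => ?_⟩
  refine hQ₀ k hk0 hk _ (le_trans ?_ (le_max_right _ _))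
  refine single_le_sum (f := Q₀) (fun _ _ => Nat.zero_le _) ?_
  rw [hF, Fintype.mem_piFinset]
  intro i
  rw [mem_Icc]
  exact abs_le.1 (hk i)

end Pool.Agent.Y326
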