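import Pool.Agent.Y326.Chw

/-!
# Logarithmic mean squares of short sums with coefficients in a Hilbert space
-/

set_option autoImplicit false

namespace Pool.Agent.Y326

open Finset Filter Pool.Agent.TH112.BL
open Pool.Agent.TH833.BL (S H H_le le_H shift_bound one_le_log)

lemma S_mono {φ ψ : ℕ → ℝ} (h : ∀ n, φ n ≤ ψ n) (N : ℕ) : S φ N ≤ S ψ N :=
  sum_le_sum fun n _ => mul_le_mul_of_nonneg_left (h n) (by positivity)

lemma S_const (c : ℝ) (N : ℕ) : S (fun _ => c) N = c * H N := by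
  unfold S H
  rw [mul_sum]
  exact sum_congr rfl fun n _ => by ring

lemma S_sum {ι : Type*} (s : Finset ι) (φ : ι → ℕ → ℝ) (N : ℕ) :
    S (fun n => ∑ i ∈ s, φ i n) N = ∑ i ∈ s, S (φ i) N := by
  unfold S
  rw [sum_comm]
  exact sum_congr rfl fun n _ => by rw [mul_sum]

lemma S_cmul (c : ℝ) (φ : ℕ → ℝ) (N : ℕ) : S (fun n => c * φ n) N = c * S φ N :=
  Pool.Agent.TH833.BL.S_smul c φ N

/-- shifts -/
lemma S_shift {φ : ℕ → ℝ} {C : ℝ} (h : ∀ n, |φ n| ≤ C) (k N : ℕ) :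
    |S (fun n => φ (n + k)) N - S φ N| ≤ 3 * C * k := by
  have hC : 0 ≤ C := (abs_nonneg _).trans (h 0)
  induction k with
  | zero => simp
  | succ k ih =>
    have h1 := shift_bound (φ := fun n => φ (n + k)) (C := C) (fun n => h _) N
    have e : (fun n => φ (n + (k + 1))) = fun n => (fun n => φ (n + k)) (n + 1) := by
      funext n
      congr 1
      ring
    rw [e]
    have h2 : |(1 / ((N : ℝ) + 1)) * φ (N + 1 + k)| ≤ C := by
      rw [abs_mul, abs_of_nonneg (by positivity : (0 : ℝ) ≤ 1 / ((N : ℝ) + 1))]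
      have h3 : 1 / ((N : ℝ) + 1) ≤ 1 := by
        rw [div_le_one (by positivity)]
        have : (0 : ℝ) ≤ N := Nat.cast_nonneg N
        linarith
      calc _ ≤ 1 * C := mul_le_mul h3 (h _) (abs_nonneg _) zero_le_one
        _ = C := one_mul C
    have h3 := h (1 + k)
    have h4 : C * (1 - 1 / ((N : ℝ) + 1)) ≤ C := by
      have : 0 ≤ 1 / ((N : ℝ) + 1) := by positivity
      nlinarith
    rw [abs_le] at ih h1 h2 h3 ⊢
    push_cast
    constructor <;> linarith [ih.1, ih.2, h1.1, h1.2, h2.1, h2.2, h3.1, h3.2]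

variable {f : ℕ → ℤ}

/-- the Gram matrix of the shifts -/
def TwoPoint (f : ℕ → ℤ) : Prop := ∀ h : ℕ, 1 ≤ h →
    Tendsto (fun N : ℕ => (1 / Real.log (N : ℝ)) * ∑ n ∈ Icc 1 N, (1 / (n : ℝ)) * ps f h n)
      atTop (nhds 0)

lemma gram (hf : ∀ n, |f n| ≤ 1) (hT : TwoPoint f) (L : ℕ) (κ : ℝ) (hκ : 0 < κ) :
    ∃ N₀ : ℕ, ∀ N : ℕ, N₀ ≤ N → ∀ h < L, ∀ h' < L, h ≠ h' →
      |S (fun n => (f (n + h) : ℝ) * f (n + h')) N| ≤ κ * Real.log N := by
  have h1 : ∀ d : ℕ, 1 ≤ d → ∃ N₀ : ℕ, ∀ N : ℕ, N₀ ≤ N → |S (ps f d) N| ≤ κ / 2 * Real.log N := by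
    intro d hd
    obtain ⟨N₀, hN₀⟩ := (Metric.tendsto_atTop.1 (hT d hd)) (κ / 2) (by positivity)
    refine ⟨max N₀ 3, fun N hN => ?_⟩
    have h2 := hN₀ N ((le_max_left _ _).trans hN)
    have h3 := one_le_log ((le_max_right _ _).trans hN)
    rw [dist_zero_right, Real.norm_eq_abs, abs_mul, abs_of_nonneg (by positivity)] at h2
    rw [one_div, inv_mul_lt_iff₀ (by linarith)] at h2
    have e : S (ps f d) N = ∑ n ∈ Icc 1 N, (1 / (n : ℝ)) * ps f d n := rfl
    rw [e]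
    linarith
  choose g hg using h1
  have hlog : Tendsto (fun N : ℕ => κ / 2 * Real.log (N : ℝ)) atTop atTop :=
    (Pool.Agent.TH833.BL.log_tendsto).const_mul_atTop (by positivity)
  obtain ⟨N₁, hN₁⟩ := eventually_atTop.1 (hlog.eventually_ge_atTop (3 * 1 * (L : ℝ)))
  refine ⟨max N₁ ((range (L + 1)).sup fun d => if hd : 1 ≤ d then g d hd else 0), fun N hN => ?_⟩
  have hN1 : N₁ ≤ N := (le_max_left _ _).trans hN
  have key : ∀ h < L, ∀ h' < L, h < h' →
      |S (fun n => (f (n + h) : ℝ) * f (n + h')) N| ≤ κ * Real.log N := by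
    intro h _ h' hh' hlt
    obtain ⟨d, rfl⟩ : ∃ d, h' = h + (d + 1) := ⟨h' - h - 1, by omega⟩
    have e : (fun n => (f (n + h) : ℝ) * f (n + (h + (d + 1)))) = fun n => ps f (d + 1) (n + h) := by
      funext n
      unfold ps
      rw [add_assoc n h]
    rw [e]
    have h2 := S_shift (ps_le hf (d + 1)) h N
    have hd : 1 ≤ d + 1 := by omega
    have h3 : g (d + 1) hd ≤ N := by
      refine le_trans ?_ ((le_max_right _ _).trans hN)
      have h4 := Finset.le_sup (f := fun d => if hd : 1 ≤ d then g d hd else 0)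
        (mem_range.2 (by omega : d + 1 < L + 1))
      simp only [dif_pos hd] at h4
      exact h4
    have h4 := hg (d + 1) hd N h3
    have h5 := hN₁ N hN1
    have h6 : 3 * 1 * (h : ℝ) ≤ 3 * 1 * L := by
      have : (h : ℝ) ≤ L := by exact_mod_cast (by omega : h ≤ L)
      linarith
    rw [abs_le] at h2 h4 ⊢
    constructor <;> linarith [h2.1, h2.2, h4.1, h4.2]
  intro h hh h' hh' hne
  rcases Nat.lt_or_gt_of_ne hne with h1 | h1
  · exact key h hh h' hh' h1
  · have := key h' hh' h hh h1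
    refine le_trans (le_of_eq ?_) this
    congr 2
    funext n
    ring

/-- **the mean square** -/
theorem meansq (hf : ∀ n, |f n| ≤ 1) (hT : TwoPoint f) (L : ℕ) (hL : 1 ≤ L) :
    ∃ N₀ : ℕ, 3 ≤ N₀ ∧ ∀ N : ℕ, N₀ ≤ N → ∀ (E : Type*) [NormedAddCommGroup E] [InnerProductSpace ℂ E]
      (c : ℕ → E),
      S (fun n => ‖∑ h ∈ range L, ((f (n + h) : ℤ) : ℂ) • c h‖ ^ 2) N ≤
        3 * (∑ h ∈ range L, ‖c h‖ ^ 2) * Real.log N := by
  obtain ⟨N₀, hN₀⟩ := gram hf hT L (1 / L) (by positivity)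
  refine ⟨max N₀ 3, le_max_right _ _, fun N hN E _ _ c => ?_⟩
  have hl := one_le_log ((le_max_right _ _).trans hN)
  have hg := hN₀ N ((le_max_left _ _).trans hN)
  have hL0 : (0 : ℝ) < L := by exact_mod_cast hL
  have hexp : ∀ n, ‖∑ h ∈ range L, ((f (n + h) : ℤ) : ℂ) • c h‖ ^ 2 =
      ∑ h ∈ range L, ∑ h' ∈ range L, (inner ℂ (c h) (c h')).re * ((f (n + h) : ℝ) * f (n + h')) := by
    intro n
    have h1 : ((‖∑ h ∈ range L, ((f (n + h) : ℤ) : ℂ) • c h‖ ^ 2 : ℝ) : ℂ) =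
        inner ℂ (∑ h ∈ range L, ((f (n + h) : ℤ) : ℂ) • c h) (∑ h ∈ range L, ((f (n + h) : ℤ) : ℂ) • c h) := by
      rw [inner_self_eq_norm_sq_to_K]
      push_cast
      rfl
    have h2 := congrArg Complex.re h1
    rw [Complex.ofReal_re] at h2
    rw [h2, sum_inner, Complex.re_sum]
    refine sum_congr rfl fun h _ => ?_
    rw [inner_sum, Complex.re_sum]
    refine sum_congr rfl fun h' _ => ?_
    rw [inner_smul_left, inner_smul_right]
    have e1 : (starRingEnd ℂ) ((f (n + h) : ℤ) : ℂ) = (((f (n + h) : ℝ)) : ℂ) := by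
      rw [map_intCast]
      push_cast
      rfl
    have e2 : ((f (n + h') : ℤ) : ℂ) = (((f (n + h') : ℝ)) : ℂ) := by
      push_cast
      rfl
    rw [e1, e2, ← mul_assoc, ← Complex.ofReal_mul, Complex.re_ofReal_mul]
    ring
  have e0 : (fun n => ‖∑ h ∈ range L, ((f (n + h) : ℤ) : ℂ) • c h‖ ^ 2) =
      fun n => ∑ h ∈ range L, ∑ h' ∈ range L,
        (inner ℂ (c h) (c h')).re * ((f (n + h) : ℝ) * f (n + h')) := funext hexp
  rw [e0, S_sum]
  have hin : ∀ h h', |(inner ℂ (c h) (c h')).re| ≤ (‖c h‖ ^ 2 + ‖c h'‖ ^ 2) / 2 := by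
    intro h h'
    refine (Complex.abs_re_le_norm _).trans ((norm_inner_le_norm _ _).trans ?_)
    nlinarith [sq_nonneg (‖c h‖ - ‖c h'‖)]
  have hdg : ∀ h, |(inner ℂ (c h) (c h)).re| ≤ ‖c h‖ ^ 2 := by
    intro h
    have := hin h h
    linarith
  have hlog0 : (0 : ℝ) ≤ Real.log N := by linarith
  have hbound : ∀ h ∈ range L, S (fun n => ∑ h' ∈ range L,
        (inner ℂ (c h) (c h')).re * ((f (n + h) : ℝ) * f (n + h'))) N ≤
      ‖c h‖ ^ 2 * H N + ∑ h' ∈ range L, (‖c h‖ ^ 2 + ‖c h'‖ ^ 2) / 2 * (1 / L * Real.log N) := by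
    intro h hh
    rw [S_sum]
    have h1 : ∀ h' ∈ range L, S (fun n => (inner ℂ (c h) (c h')).re * ((f (n + h) : ℝ) * f (n + h'))) N ≤
        (if h' = h then ‖c h‖ ^ 2 * H N else 0) + (‖c h‖ ^ 2 + ‖c h'‖ ^ 2) / 2 * (1 / L * Real.log N) := by
      intro h' hh'
      rw [S_cmul]
      by_cases he : h' = h
      · rw [if_pos he, he]
        have h2 : |S (fun n => (f (n + h) : ℝ) * f (n + h)) N| ≤ 1 * H N :=
          Pool.Agent.TH833.BL.S_bound (fun n => by
            rw [abs_mul]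
            have h1 : |(f (n + h) : ℝ)| ≤ 1 := by exact_mod_cast hf (n + h)
            calc _ ≤ 1 * 1 := mul_le_mul h1 h1 (abs_nonneg _) zero_le_one
              _ = 1 := one_mul 1) N
        rw [one_mul] at h2
        have h3 : (inner ℂ (c h) (c h)).re * S (fun n => (f (n + h) : ℝ) * f (n + h)) N ≤
            ‖c h‖ ^ 2 * H N := by
          refine (le_abs_self _).trans ?_
          rw [abs_mul]
          exact mul_le_mul (hdg h) h2 (abs_nonneg _) (by positivity)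
        have h4 : 0 ≤ (‖c h‖ ^ 2 + ‖c h‖ ^ 2) / 2 * (1 / L * Real.log N) := by positivity
        linarith
      · rw [if_neg he, zero_add]
        refine (le_abs_self _).trans ?_
        rw [abs_mul]
        refine mul_le_mul (hin h h') ?_ (abs_nonneg _) (by positivity)
        exact hg h (mem_range.1 hh) h' (mem_range.1 hh') (fun e => he e.symm)
    refine (sum_le_sum h1).trans (le_of_eq ?_)
    rw [sum_add_distrib, sum_ite_eq' (range L) h, if_pos hh]
  refine (sum_le_sum hbound).trans ?_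
  have hH : H N ≤ 2 * Real.log N := by linarith [H_le N]
  set T := ∑ h ∈ range L, ‖c h‖ ^ 2 with hT'
  have hT0 : 0 ≤ T := sum_nonneg fun _ _ => by positivity
  have e1 : ∑ h ∈ range L, ∑ h' ∈ range L, (‖c h‖ ^ 2 + ‖c h'‖ ^ 2) / 2 * (1 / (L : ℝ) * Real.log N) =
      T * Real.log N := by
    have e2 : ∀ h ∈ range L, ∑ h' ∈ range L, (‖c h‖ ^ 2 + ‖c h'‖ ^ 2) / 2 * (1 / (L : ℝ) * Real.log N) =
        (L * ‖c h‖ ^ 2 + T) / 2 * (1 / (L : ℝ) * Real.log N) := by
      intro h _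
      rw [← sum_mul, ← sum_div, sum_add_distrib, sum_const, card_range, nsmul_eq_mul]
    rw [sum_congr rfl e2, ← sum_mul, ← sum_div, sum_add_distrib, ← mul_sum, sum_const, card_range,
      nsmul_eq_mul, ← hT']
    field_simp
    ring
  rw [sum_add_distrib, ← sum_mul, e1]
  have h2 : T * H N ≤ T * (2 * Real.log N) := mul_le_mul_of_nonneg_left hH hT0
  calc T * H N + T * Real.log N ≤ T * (2 * Real.log N) + T * Real.log N := by linarith
    _ = _ := by ring

/-- Cauchy-Schwarz -/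
lemma S_cs (φ : ℕ → ℝ) (N : ℕ) : S φ N ^ 2 ≤ H N * S (fun n => φ n ^ 2) N := by
  have h1 := Finset.sum_mul_sq_le_sq_mul_sq (Icc 1 N) (fun n => Real.sqrt (1 / (n : ℝ)))
    (fun n => Real.sqrt (1 / (n : ℝ)) * φ n)
  have e1 : ∑ n ∈ Icc 1 N, Real.sqrt (1 / (n : ℝ)) * (Real.sqrt (1 / (n : ℝ)) * φ n) = S φ N := by
    unfold S
    refine sum_congr rfl fun n _ => ?_
    rw [← mul_assoc, Real.mul_self_sqrt (by positivity)]
  have e2 : ∑ n ∈ Icc 1 N, Real.sqrt (1 / (n : ℝ)) ^ 2 = H N := by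
    unfold H
    refine sum_congr rfl fun n _ => ?_
    rw [Real.sq_sqrt (by positivity)]
  have e3 : ∑ n ∈ Icc 1 N, (Real.sqrt (1 / (n : ℝ)) * φ n) ^ 2 = S (fun n => φ n ^ 2) N := by
    unfold S
    refine sum_congr rfl fun n _ => ?_
    rw [mul_pow, Real.sq_sqrt (by positivity)]
  rw [e1, e2, e3] at h1
  exact h1

end Pool.Agent.Y326
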