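import Mathlib

/-!
# Averages of invariant measures converging to an ergodic product measure

`Rwm1`: rectangle-simple functions, the closure argument.
-/

set_option autoImplicit false
open MeasureTheory Filter Topology
open scoped ENNReal

namespace Pool.Agent.Y326.Rwm

universe v w x y z

section Basic

variable {X : Type v} {Y : Type w} [MeasurableSpace X] [MeasurableSpace Y]

/-- an integrable function with zero integral over all rectangles vanishes -/
lemma ae_zero_of_rect {μ1 : Measure X} {μ2 : Measure Y} [IsFiniteMeasure μ1] [IsFiniteMeasure μ2]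
    (k : X × Y → ℝ) (hk : Integrable k (μ1.prod μ2))
    (h : ∀ (C : Set X) (D : Set Y), MeasurableSet C → MeasurableSet D →
      ∫ p in C ×ˢ D, k p ∂(μ1.prod μ2) = 0) : k =ᵐ[μ1.prod μ2] 0 := by
  refine hk.ae_eq_zero_of_forall_setIntegral_eq_zero (fun s hs _ => ?_)
  induction s, hs using MeasurableSpace.induction_on_inter generateFrom_prod.symm isPiSystem_prod with
  | empty => simp
  | basic t ht =>
    obtain ⟨C, hC, D, hD, rfl⟩ := ht
    exact h C D hC hD
  | compl t ht ih =>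
    have h1 := integral_add_compl ht hk
    have h2 := h Set.univ Set.univ MeasurableSet.univ MeasurableSet.univ
    rw [Set.univ_prod_univ, Measure.restrict_univ] at h2
    rw [ih (measure_lt_top _ _), h2, zero_add] at h1
    exact h1
  | iUnion f hd hf ih =>
    rw [integral_iUnion hf hd hk.integrableOn]
    simp only [fun i => ih i (measure_lt_top _ _), tsum_zero]

/-- `r` is a finite combination of indicators of measurable rectangles inside `F × H`. -/
def Rep (F : Set X) (H : Set Y) (r : X × Y → ℝ) : Prop :=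
  ∃ (ι : Type) (_ : Fintype ι) (b : ι → ℝ) (C : ι → Set X) (D : ι → Set Y),
    (∀ l, MeasurableSet (C l)) ∧ (∀ l, MeasurableSet (D l)) ∧ (∀ l, C l ⊆ F) ∧ (∀ l, D l ⊆ H) ∧
    r = fun p => ∑ l, b l * (C l ×ˢ D l).indicator (fun _ => (1 : ℝ)) p

variable {F : Set X} {H : Set Y}

lemma Rep.add {r s : X × Y → ℝ} (hr : Rep F H r) (hs : Rep F H s) :
    Rep F H (fun p => r p + s p) := by
  obtain ⟨ι, _, b, C, D, h1, h2, h3, h4, rfl⟩ := hr
  obtain ⟨κ, _, b', C', D', h1', h2', h3', h4', rfl⟩ := hs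
  refine ⟨ι ⊕ κ, inferInstance, Sum.elim b b', Sum.elim C C', Sum.elim D D', ?_, ?_, ?_, ?_, ?_⟩
  · rintro (l | l); exacts [h1 l, h1' l]
  · rintro (l | l); exacts [h2 l, h2' l]
  · rintro (l | l); exacts [h3 l, h3' l]
  · rintro (l | l); exacts [h4 l, h4' l]
  · funext p
    rw [Fintype.sum_sum_type]
    rfl

lemma Rep.smul {r : X × Y → ℝ} (hr : Rep F H r) (c : ℝ) :
    Rep F H (fun p => c * r p) := by
  obtain ⟨ι, _, b, C, D, h1, h2, h3, h4, rfl⟩ := hr
  refine ⟨ι, inferInstance, fun l => c * b l, C, D, h1, h2, h3, h4, ?_⟩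
  funext p
  rw [Finset.mul_sum]
  exact Finset.sum_congr rfl (fun l _ => by ring)

lemma Rep.ind {C : Set X} {D : Set Y} (hC : MeasurableSet C) (hD : MeasurableSet D)
    (hCF : C ⊆ F) (hDF : D ⊆ H) : Rep F H ((C ×ˢ D).indicator (fun _ => (1 : ℝ))) := by
  refine ⟨Unit, inferInstance, fun _ => 1, fun _ => C, fun _ => D, fun _ => hC, fun _ => hD,
    fun _ => hCF, fun _ => hDF, ?_⟩
  funext p
  simp

lemma Rep.sub {r s : X × Y → ℝ} (hr : Rep F H r) (hs : Rep F H s) :
    Rep F H (fun p => r p - s p) := by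
  have := hr.add (hs.smul (-1))
  refine (congrArg (Rep F H) ?_).mp this
  funext p; ring

open Classical in
lemma Rep.abs (hF : MeasurableSet F) (hH : MeasurableSet H) {r : X × Y → ℝ} (hr : Rep F H r) :
    Rep F H (fun p => |r p|) := by
  obtain ⟨ι, _, b, C, D, h1, h2, h3, h4, rfl⟩ := hr
  let P : (ι → Prop) → Set X := fun w => {x | x ∈ F ∧ ∀ l, (x ∈ C l ↔ w l)}
  let Q : (ι → Prop) → Set Y := fun w => {x | x ∈ H ∧ ∀ l, (x ∈ D l ↔ w l)}
  refine ⟨(ι → Prop) × (ι → Prop), inferInstance,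
    fun w => |∑ l, b l * (if w.1 l ∧ w.2 l then 1 else 0)|,
    fun w => P w.1, fun w => Q w.2, ?_, ?_, ?_, ?_, ?_⟩
  · intro w
    have : P w.1 = F ∩ ⋂ l, {x | (x ∈ C l ↔ w.1 l)} := by
      ext x; simp [P]
    change MeasurableSet (P w.1)
    rw [this]
    refine hF.inter (MeasurableSet.iInter (fun l => ?_))
    by_cases hw : w.1 l
    · simpa [hw] using h1 l
    · have e : {x | (x ∈ C l ↔ w.1 l)} = (C l)ᶜ := by ext x; simp [hw]
      rw [e]; exact (h1 l).compl
  · intro w
    have : Q w.2 = H ∩ ⋂ l, {x | (x ∈ D l ↔ w.2 l)} := by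
      ext x; simp [Q]
    change MeasurableSet (Q w.2)
    rw [this]
    refine hH.inter (MeasurableSet.iInter (fun l => ?_))
    by_cases hw : w.2 l
    · simpa [hw] using h2 l
    · have e : {x | (x ∈ D l ↔ w.2 l)} = (D l)ᶜ := by ext x; simp [hw]
      rw [e]; exact (h2 l).compl
  · intro w x hx; exact hx.1
  · intro w x hx; exact hx.1
  · funext p
    by_cases hp : p.1 ∈ F ∧ p.2 ∈ H
    · let w0 : (ι → Prop) × (ι → Prop) := (fun l => p.1 ∈ C l, fun l => p.2 ∈ D l)
      rw [Finset.sum_eq_single w0]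
      · have hm : p ∈ P w0.1 ×ˢ Q w0.2 := by
          refine ⟨⟨hp.1, fun l => Iff.rfl⟩, ⟨hp.2, fun l => Iff.rfl⟩⟩
        rw [Set.indicator_of_mem hm, mul_one]
        congr 1
        refine Finset.sum_congr rfl (fun l _ => ?_)
        congr 1
        by_cases hl : p.1 ∈ C l ∧ p.2 ∈ D l
        · have : p ∈ C l ×ˢ D l := hl
          rw [Set.indicator_of_mem this]
          simp [w0, hl]
        · have : p ∉ C l ×ˢ D l := hl
          rw [Set.indicator_of_notMem this]
          simp only [w0, if_neg hl]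
      · intro w _ hw
        have hm : p ∉ P w.1 ×ˢ Q w.2 := by
          rintro ⟨⟨_, h5⟩, ⟨_, h6⟩⟩
          apply hw
          refine Prod.ext ?_ ?_
          · funext l; exact (propext (h5 l)).symm
          · funext l; exact (propext (h6 l)).symm
        rw [Set.indicator_of_notMem hm, mul_zero]
      · intro h; exact absurd (Finset.mem_univ _) h
    · have h5 : ∀ l, p ∉ C l ×ˢ D l := by
        intro l hl
        exact hp ⟨h3 l hl.1, h4 l hl.2⟩
      have h6 : ∀ w : (ι → Prop) × (ι → Prop), p ∉ P w.1 ×ˢ Q w.2 := by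
        intro w hw
        exact hp ⟨hw.1.1, hw.2.1⟩
      simp [Set.indicator_of_notMem (h5 _), Set.indicator_of_notMem (h6 _)]

lemma Rep.zero_off {r : X × Y → ℝ} (hr : Rep F H r) (p : X × Y) (hp : p ∉ F ×ˢ H) :
    r p = 0 := by
  obtain ⟨ι, _, b, C, D, h1, h2, h3, h4, rfl⟩ := hr
  refine Finset.sum_eq_zero (fun l _ => ?_)
  have : p ∉ C l ×ˢ D l := fun h => hp ⟨h3 l h.1, h4 l h.2⟩
  rw [Set.indicator_of_notMem this, mul_zero]

lemma J_ind (lam : Measure (X × Y)) {C : Set X} {D : Set Y} (hC : MeasurableSet C)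
    (hD : MeasurableSet D) :
    ∫ p, (C ×ˢ D).indicator (fun _ => (1 : ℝ)) p ∂lam = lam.real (C ×ˢ D) := by
  rw [integral_indicator (hC.prod hD)]
  simp

lemma ind_int (lam : Measure (X × Y)) (hl : lam (F ×ˢ H) < ∞) {C : Set X} {D : Set Y}
    (hC : MeasurableSet C) (hD : MeasurableSet D) (hCF : C ⊆ F) (hDH : D ⊆ H) :
    Integrable ((C ×ˢ D).indicator (fun _ => (1 : ℝ))) lam := by
  rw [integrable_indicator_iff (hC.prod hD)]
  exact integrableOn_const (ne_top_of_le_ne_top hl.ne (measure_mono (Set.prod_mono hCF hDH)))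

lemma Rep.int (lam : Measure (X × Y)) (hl : lam (F ×ˢ H) < ∞) {r : X × Y → ℝ}
    (hr : Rep F H r) : Integrable r lam := by
  obtain ⟨ι, _, b, C, D, h1, h2, h3, h4, rfl⟩ := hr
  refine integrable_finsetSum _ (fun l _ => ?_)
  exact (ind_int lam hl (h1 l) (h2 l) (h3 l) (h4 l)).const_mul _

/-- the integral of a rectangle-simple function -/
lemma J_sum (lam : Measure (X × Y)) (hl : lam (F ×ˢ H) < ∞) {ι : Type} [Fintype ι] (b : ι → ℝ)
    (C : ι → Set X) (D : ι → Set Y) (h1 : ∀ l, MeasurableSet (C l))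
    (h2 : ∀ l, MeasurableSet (D l)) (h3 : ∀ l, C l ⊆ F) (h4 : ∀ l, D l ⊆ H) :
    ∫ p, (∑ l, b l * (C l ×ˢ D l).indicator (fun _ => (1 : ℝ)) p) ∂lam =
      ∑ l, b l * lam.real (C l ×ˢ D l) := by
  rw [integral_finsetSum]
  · refine Finset.sum_congr rfl (fun l _ => ?_)
    rw [integral_const_mul, J_ind lam (h1 l) (h2 l)]
  · intro l _
    exact (ind_int lam hl (h1 l) (h2 l) (h3 l) (h4 l)).const_mul _

end Basic

section Conv

variable {X : Type v} {Y : Type w} [MeasurableSpace X] [MeasurableSpace Y]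
variable {ι : Type x} [MeasurableSpace ι] {κ : Type y}

/-- averages of the integrals converge on rectangle-simple functions -/
lemma conv (μ : Measure X) (ν : Measure Y) [SigmaFinite μ] [SigmaFinite ν]
    {F : Set X} {H : Set Y} (hFf : μ F < ∞) (hHf : ν H < ∞)
    (lam : ι → Measure (X × Y)) (hl : ∀ t, lam t (F ×ˢ H) < ∞)
    (l : Filter κ) (W : κ → Measure ι)
    (hint : ∀ (n : κ) (A : Set X) (B : Set Y), MeasurableSet A → MeasurableSet B → A ⊆ F → B ⊆ H →
      Integrable (fun t => (lam t).real (A ×ˢ B)) (W n))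
    (hW : ∀ (A : Set X) (B : Set Y), MeasurableSet A → MeasurableSet B → A ⊆ F → B ⊆ H →
      Tendsto (fun n : κ => ∫ t, (lam t).real (A ×ˢ B) ∂(W n)) l (𝓝 (μ.real A * ν.real B)))
    {r : X × Y → ℝ} (hr : Rep F H r) :
    (∀ n, Integrable (fun t => ∫ p, r p ∂(lam t)) (W n)) ∧
    Tendsto (fun n : κ => ∫ t, (∫ p, r p ∂(lam t)) ∂(W n)) l (𝓝 (∫ p, r p ∂(μ.prod ν))) := by
  obtain ⟨J, _, b, C, D, h1, h2, h3, h4, rfl⟩ := hr
  have hfin : (μ.prod ν) (F ×ˢ H) < ∞ := by
    rw [Measure.prod_prod]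
    exact ENNReal.mul_lt_top hFf hHf
  have e1 : ∫ p, (∑ l, b l * (C l ×ˢ D l).indicator (fun _ => (1 : ℝ)) p) ∂(μ.prod ν) =
      ∑ l, b l * (μ.real (C l) * ν.real (D l)) := by
    rw [J_sum (μ.prod ν) hfin b C D h1 h2 h3 h4]
    refine Finset.sum_congr rfl (fun l _ => ?_)
    rw [measureReal_prod_prod]
  have e2 : ∀ t, ∫ p, (∑ l, b l * (C l ×ˢ D l).indicator (fun _ => (1 : ℝ)) p) ∂(lam t) =
      ∑ l, b l * (lam t).real (C l ×ˢ D l) := fun t => J_sum (lam t) (hl t) b C D h1 h2 h3 h4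
  constructor
  · intro n
    simp only [e2]
    exact integrable_finsetSum _ (fun j _ =>
      (hint n (C j) (D j) (h1 j) (h2 j) (h3 j) (h4 j)).const_mul _)
  · rw [e1]
    have e3 : (fun n : κ => ∫ t,
          (∫ p, (∑ l, b l * (C l ×ˢ D l).indicator (fun _ => (1 : ℝ)) p) ∂(lam t)) ∂(W n)) =
        fun n => ∑ l, b l * ∫ t, (lam t).real (C l ×ˢ D l) ∂(W n) := by
      funext n
      simp only [e2]
      rw [integral_finsetSum]
      · refine Finset.sum_congr rfl (fun j _ => ?_)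
        rw [integral_const_mul]
      · intro j _
        exact (hint n (C j) (D j) (h1 j) (h2 j) (h3 j) (h4 j)).const_mul _
    rw [e3]
    exact tendsto_finsetSum _ (fun j _ =>
      (hW (C j) (D j) (h1 j) (h2 j) (h3 j) (h4 j)).const_mul (b j))

end Conv

section Core

variable {X : Type v} {Y : Type w} [MeasurableSpace X] [MeasurableSpace Y]
variable (Γ : Type z) [Group Γ] [Countable Γ] [MulAction Γ X] [MulAction Γ Y]
variable (μ : Measure X) (ν : Measure Y) [SigmaFinite μ] [SigmaFinite ν]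

/-- partial invariance implies constancy on the rectangle -/
lemma const_of_inv (m : Measure (X × Y))
    (hm : ∀ g : Γ, Measurable (fun p : X × Y => g • p))
    (herg : ∀ S : Set (X × Y), MeasurableSet S → (∀ g : Γ, (fun p : X × Y => g • p) ⁻¹' S = S) →
      m S = 0 ∨ m Sᶜ = 0)
    {K : Set (X × Y)} (hK : MeasurableSet K) (g : X × Y → ℝ) (hg : Measurable g)
    (h : ∀ a : Γ, ∀ᵐ p ∂m, p ∈ K → a • p ∈ K → g (a • p) = g p) :
    ∃ c, ∀ᵐ p ∂(m.restrict K), g p = c := by
  have key := exists_eventuallyEq_const_of_forall_separating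
    (l := ae (m.restrict K)) (f := g) MeasurableSet ?_
  · obtain ⟨c, hc⟩ := key
    exact ⟨c, hc⟩
  intro U hU
  set E : Set (X × Y) := K ∩ g ⁻¹' U with hE
  have hEm : MeasurableSet E := hK.inter (hg hU)
  set S : Set (X × Y) := ⋃ a : Γ, (fun p : X × Y => a • p) ⁻¹' E with hS
  have hSm : MeasurableSet S := MeasurableSet.iUnion (fun a => hm a hEm)
  have hinv : ∀ a : Γ, (fun p : X × Y => a • p) ⁻¹' S = S := by
    intro a
    ext p
    simp only [hS, Set.mem_preimage, Set.mem_iUnion, ← mul_smul]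
    constructor
    · rintro ⟨b, hb⟩; exact ⟨b * a, hb⟩
    · rintro ⟨b, hb⟩; exact ⟨b * a⁻¹, by rwa [mul_assoc, inv_mul_cancel, mul_one]⟩
  rcases herg S hSm hinv with h0 | h0
  · right
    have h1 : ∀ᵐ p ∂m, p ∉ S := measure_eq_zero_iff_ae_notMem.1 h0
    filter_upwards [ae_restrict_of_ae h1, ae_restrict_mem hK] with p h2 h3
    intro h4
    apply h2
    rw [hS, Set.mem_iUnion]
    refine ⟨1, ?_⟩
    rw [Set.mem_preimage, one_smul]
    exact ⟨h3, h4⟩
  · left
    have h1 : ∀ᵐ p ∂m, p ∈ S := by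
      have := measure_eq_zero_iff_ae_notMem.1 h0
      filter_upwards [this] with p hp
      simpa using hp
    filter_upwards [ae_restrict_of_ae h1, ae_restrict_mem hK, ae_restrict_of_ae (ae_all_iff.2 h)]
      with p h2 h3 h4
    rw [hS, Set.mem_iUnion] at h2
    obtain ⟨a, ha⟩ := h2
    have h5 := h4 a h3 ha.1
    have h6 : g (a • p) ∈ U := ha.2
    rwa [h5] at h6

variable {ι : Type x} (lam : ι → Measure (X × Y))

/-- the space of combinations that are killed by all the measures -/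
def VV (F : Set X) (H : Set Y) (hl : ∀ t, lam t (F ×ˢ H) < ∞) :
    Submodule ℝ (Lp ℝ 2 ((μ.prod ν).restrict (F ×ˢ H))) where
  carrier := {v | ∃ r, Rep F H r ∧ (∀ t, ∫ p, r p ∂(lam t) = 0) ∧
    v =ᵐ[(μ.prod ν).restrict (F ×ˢ H)] r}
  add_mem' := by
    rintro v w ⟨r, h1, h2, h3⟩ ⟨s, h1', h2', h3'⟩
    refine ⟨fun p => r p + s p, h1.add h1', ?_, ?_⟩
    · intro t
      rw [integral_add (h1.int (lam t) (hl t)) (h1'.int (lam t) (hl t)), h2, h2', add_zero]
    · filter_upwards [Lp.coeFn_add v w, h3, h3'] with p a1 a2 a3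
      rw [a1, Pi.add_apply, a2, a3]
  zero_mem' := by
    refine ⟨fun _ => 0, ⟨Empty, inferInstance, fun l => l.elim, fun l => l.elim, fun l => l.elim,
      fun l => l.elim, fun l => l.elim, fun l => l.elim, fun l => l.elim, ?_⟩, ?_, ?_⟩
    · funext p; simp
    · intro t; simp
    · exact Lp.coeFn_zero _ _ _
  smul_mem' := by
    rintro c v ⟨r, h1, h2, h3⟩
    refine ⟨fun p => c * r p, h1.smul c, ?_, ?_⟩
    · intro t
      rw [integral_const_mul, h2, mul_zero]
    · filter_upwards [Lp.coeFn_smul c v, h3] with p a1 a2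
      rw [a1, Pi.smul_apply, a2, smul_eq_mul]

/-- elements orthogonal to `VV` are invariant under the partial moves -/
lemma inv_of_orth (hX : ∀ g : Γ, MeasurePreserving (fun x : X => g • x) μ μ)
    (hY : ∀ g : Γ, MeasurePreserving (fun y : Y => g • y) ν ν)
    {F : Set X} {H : Set Y} (hF : MeasurableSet F) (hH : MeasurableSet H)
    (hFf : μ F < ∞) (hHf : ν H < ∞) (hl : ∀ t, lam t (F ×ˢ H) < ∞)
    (hlam : ∀ (t : ι) (g : Γ), MeasurePreserving (fun p : X × Y => g • p) (lam t) (lam t))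
    (g : Lp ℝ 2 ((μ.prod ν).restrict (F ×ˢ H))) (hg : g ∈ (VV μ ν lam F H hl)ᗮ) (a : Γ) :
    ∀ᵐ p ∂(μ.prod ν), p ∈ F ×ˢ H → a • p ∈ F ×ˢ H → g (a • p) = g p := by
  have hFH : MeasurableSet (F ×ˢ H) := hF.prod hH
  have hfin : (μ.prod ν) (F ×ˢ H) < ∞ := by
    rw [Measure.prod_prod]; exact ENNReal.mul_lt_top hFf hHf
  have hfm : IsFiniteMeasure ((μ.prod ν).restrict (F ×ˢ H)) := ⟨by
    rw [Measure.restrict_apply_univ]; exact hfin⟩
  have hmp : MeasurePreserving (fun p : X × Y => a • p) (μ.prod ν) (μ.prod ν) :=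
    (hX a).prod (hY a)
  have hgi : Integrable g ((μ.prod ν).restrict (F ×ˢ H)) :=
    (Lp.memLp g).integrable (by norm_num)
  have hgm : Measurable (g : X × Y → ℝ) := (Lp.stronglyMeasurable g).measurable
  set FN : Set X := F ∩ (fun x => a • x) ⁻¹' F with hFN
  set HN : Set Y := H ∩ (fun x => a • x) ⁻¹' H with hHN
  have hFNm : MeasurableSet FN := hF.inter ((hX a).measurable hF)
  have hHNm : MeasurableSet HN := hH.inter ((hY a).measurable hH)
  have hsub : FN ×ˢ HN ⊆ F ×ˢ H := Set.prod_mono Set.inter_subset_left Set.inter_subset_left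
  have hsub2 : FN ×ˢ HN ⊆ (fun p : X × Y => a • p) ⁻¹' (F ×ˢ H) := by
    rintro p ⟨h1, h2⟩
    exact ⟨h1.2, h2.2⟩
  have hfN : IsFiniteMeasure (μ.restrict FN) := ⟨by
    rw [Measure.restrict_apply_univ]
    exact lt_of_le_of_lt (measure_mono Set.inter_subset_left) hFf⟩
  have hhN : IsFiniteMeasure (ν.restrict HN) := ⟨by
    rw [Measure.restrict_apply_univ]
    exact lt_of_le_of_lt (measure_mono Set.inter_subset_left) hHf⟩
  have eprod : (μ.restrict FN).prod (ν.restrict HN) = (μ.prod ν).restrict (FN ×ˢ HN) :=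
    Measure.prod_restrict _ _
  have i1 : IntegrableOn g (FN ×ˢ HN) (μ.prod ν) :=
    IntegrableOn.mono_set (show IntegrableOn g (F ×ˢ H) (μ.prod ν) from hgi) hsub
  have hres := hmp.restrict_preimage hFH
  have i2 : IntegrableOn (fun p : X × Y => g (a • p)) (FN ×ˢ HN) (μ.prod ν) := by
    have h1 : Integrable (g ∘ fun p : X × Y => a • p)
        ((μ.prod ν).restrict ((fun p : X × Y => a • p) ⁻¹' (F ×ˢ H))) :=
      (hres.integrable_comp hgi.aestronglyMeasurable).2 hgi
    exact IntegrableOn.mono_set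
      (show IntegrableOn (g ∘ fun p : X × Y => a • p) _ (μ.prod ν) from h1) hsub2
  have hk : Integrable (fun p => g (a • p) - g p) ((μ.restrict FN).prod (ν.restrict HN)) := by
    rw [eprod]
    exact i2.sub i1
  have hz := ae_zero_of_rect (fun p : X × Y => g (a • p) - g p) hk ?_
  · rw [eprod] at hz
    have h1 := (ae_restrict_iff' (hFNm.prod hHNm)).1 hz
    filter_upwards [h1] with p h2 h3 h4
    have h5 : p ∈ FN ×ˢ HN := ⟨⟨h3.1, h4.1⟩, ⟨h3.2, h4.2⟩⟩
    have h6 := h2 h5
    exact sub_eq_zero.1 h6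
  · intro C D hC hD
    rw [eprod, Measure.restrict_restrict (hC.prod hD)]
    have e1 : C ×ˢ D ∩ FN ×ˢ HN = (C ∩ FN) ×ˢ (D ∩ HN) := Set.prod_inter_prod
    rw [e1]
    set C1 := C ∩ FN with hC1
    set D1 := D ∩ HN with hD1
    have hC1m : MeasurableSet C1 := hC.inter hFNm
    have hD1m : MeasurableSet D1 := hD.inter hHNm
    set C2 : Set X := (fun x => a⁻¹ • x) ⁻¹' C1 with hC2
    set D2 : Set Y := (fun x => a⁻¹ • x) ⁻¹' D1 with hD2
    have hC2m : MeasurableSet C2 := (hX a⁻¹).measurable hC1m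
    have hD2m : MeasurableSet D2 := (hY a⁻¹).measurable hD1m
    have eC : (fun x => a • x) ⁻¹' C2 = C1 := by
      ext x; simp only [hC2, Set.mem_preimage, inv_smul_smul]
    have eD : (fun x => a • x) ⁻¹' D2 = D1 := by
      ext x; simp only [hD2, Set.mem_preimage, inv_smul_smul]
    have sC1 : C1 ⊆ F := fun x hx => hx.2.1
    have sD1 : D1 ⊆ H := fun x hx => hx.2.1
    have sC2 : C2 ⊆ F := by
      intro x hx
      have h1 : a⁻¹ • x ∈ C1 := hx
      have h2 : a • a⁻¹ • x ∈ F := h1.2.2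
      rwa [smul_inv_smul] at h2
    have sD2 : D2 ⊆ H := by
      intro x hx
      have h1 : a⁻¹ • x ∈ D1 := hx
      have h2 : a • a⁻¹ • x ∈ H := h1.2.2
      rwa [smul_inv_smul] at h2
    have epre : (fun p : X × Y => a • p) ⁻¹' (C2 ×ˢ D2) = C1 ×ˢ D1 := by
      rw [← eC, ← eD]; rfl
    have j1 : IntegrableOn (fun p : X × Y => g (a • p)) (C1 ×ˢ D1) (μ.prod ν) :=
      i2.mono_set (Set.prod_mono Set.inter_subset_right Set.inter_subset_right)
    have j2 : IntegrableOn g (C1 ×ˢ D1) (μ.prod ν) :=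
      i1.mono_set (Set.prod_mono Set.inter_subset_right Set.inter_subset_right)
    rw [integral_sub j1 j2]
    have hres2 := hmp.restrict_preimage (hC2m.prod hD2m)
    have e2 : ∫ p in C1 ×ˢ D1, g (a • p) ∂(μ.prod ν) = ∫ p in C2 ×ˢ D2, g p ∂(μ.prod ν) := by
      rw [← epre, ← hres2.map_eq, integral_map hres2.measurable.aemeasurable]
      exact hgm.aestronglyMeasurable
    rw [e2]
    -- the vector in VV
    set w : Lp ℝ 2 ((μ.prod ν).restrict (F ×ˢ H)) :=
      indicatorConstLp 2 (hC2m.prod hD2m) (measure_ne_top _ _) (1 : ℝ) -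
        indicatorConstLp 2 (hC1m.prod hD1m) (measure_ne_top _ _) (1 : ℝ) with hw
    have hwV : w ∈ VV μ ν lam F H hl := by
      refine ⟨fun p => (C2 ×ˢ D2).indicator (fun _ => (1 : ℝ)) p -
        (C1 ×ˢ D1).indicator (fun _ => (1 : ℝ)) p, ?_, ?_, ?_⟩
      · exact (Rep.ind hC2m hD2m sC2 sD2).sub (Rep.ind hC1m hD1m sC1 sD1)
      · intro t
        rw [integral_sub (ind_int (lam t) (hl t) hC2m hD2m sC2 sD2)
          (ind_int (lam t) (hl t) hC1m hD1m sC1 sD1), J_ind _ hC2m hD2m, J_ind _ hC1m hD1m,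
          ← epre, measureReal_def, measureReal_def,
          (hlam t a).measure_preimage (hC2m.prod hD2m).nullMeasurableSet, sub_self]
      · filter_upwards [Lp.coeFn_sub (indicatorConstLp 2 (hC2m.prod hD2m) (measure_ne_top _ _) (1 : ℝ))
          (indicatorConstLp 2 (hC1m.prod hD1m) (measure_ne_top _ _) (1 : ℝ)),
          indicatorConstLp_coeFn (p := 2) (hs := hC2m.prod hD2m)
            (hμs := measure_ne_top ((μ.prod ν).restrict (F ×ˢ H)) _) (c := (1 : ℝ)),
          indicatorConstLp_coeFn (p := 2) (hs := hC1m.prod hD1m)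
            (hμs := measure_ne_top ((μ.prod ν).restrict (F ×ˢ H)) _) (c := (1 : ℝ))] with p a1 a2 a3
        rw [hw, a1, Pi.sub_apply, a2, a3]
    have h0 := (Submodule.mem_orthogonal _ _).1 hg w hwV
    rw [hw, inner_sub_left, L2.inner_indicatorConstLp_one, L2.inner_indicatorConstLp_one,
      Measure.restrict_restrict (hC2m.prod hD2m), Measure.restrict_restrict (hC1m.prod hD1m),
      Set.inter_eq_left.2 (Set.prod_mono sC2 sD2), Set.inter_eq_left.2 (Set.prod_mono sC1 sD1)] at h0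
    exact h0

end Core

end Pool.Agent.Y326.Rwm
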