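import Pool.Agent.Y326.Rwm1

/-!
# Averages of invariant measures converging to an ergodic product measure

`Rwm2`: the main theorem and its converse.
-/

set_option autoImplicit false
open MeasureTheory Filter Topology
open scoped ENNReal

namespace Pool.Agent.Y326.Rwm

universe v w x y z

section Core

variable {X : Type v} {Y : Type w} [MeasurableSpace X] [MeasurableSpace Y]
variable (Γ : Type z) [Group Γ] [Countable Γ] [MulAction Γ X] [MulAction Γ Y]
variable (μ : Measure X) (ν : Measure Y) [SigmaFinite μ] [SigmaFinite ν]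
variable {ι : Type x} (lam : ι → Measure (X × Y))

/-- approximation: the centred rectangle indicator is close in mean to a function
killed by all the measures -/
lemma approx (hX : ∀ g : Γ, MeasurePreserving (fun x : X => g • x) μ μ)
    (hY : ∀ g : Γ, MeasurePreserving (fun y : Y => g • y) ν ν)
    (herg : ∀ S : Set (X × Y), MeasurableSet S → (∀ g : Γ, (fun p : X × Y => g • p) ⁻¹' S = S) →
      (μ.prod ν) S = 0 ∨ (μ.prod ν) Sᶜ = 0)
    {F : Set X} {H : Set Y} (hF : MeasurableSet F) (hH : MeasurableSet H)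
    (hFf : μ F < ∞) (hHf : ν H < ∞) (hl : ∀ t, lam t (F ×ˢ H) < ∞)
    (hlam : ∀ (t : ι) (g : Γ), MeasurePreserving (fun p : X × Y => g • p) (lam t) (lam t))
    {A : Set X} {B : Set Y} (hA : MeasurableSet A)
    (hB : MeasurableSet B) (hAF : A ⊆ F) (hBF : B ⊆ H) (k : ℝ)
    (hk : k * (μ.real F * ν.real H) = μ.real A * ν.real B) (ε : ℝ) (hε : 0 < ε) :
    ∃ r, Rep F H r ∧ (∀ t, ∫ p, r p ∂(lam t) = 0) ∧
      ∫ p, |((A ×ˢ B).indicator (fun _ => (1 : ℝ)) p -
        k * (F ×ˢ H).indicator (fun _ => (1 : ℝ)) p) - r p| ∂(μ.prod ν) < ε := by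
  have hFF : MeasurableSet (F ×ˢ H) := hF.prod hH
  have hfin : (μ.prod ν) (F ×ˢ H) < ∞ := by
    rw [Measure.prod_prod]; exact ENNReal.mul_lt_top hFf hHf
  have hfm : IsFiniteMeasure ((μ.prod ν).restrict (F ×ˢ H)) := ⟨by
    rw [Measure.restrict_apply_univ]; exact hfin⟩
  set ρ := (μ.prod ν).restrict (F ×ˢ H) with hρ
  set h1 : Lp ℝ 2 ρ := indicatorConstLp 2 (hA.prod hB) (measure_ne_top _ _) (1 : ℝ) with hh1
  set h2 : Lp ℝ 2 ρ := indicatorConstLp 2 hFF (measure_ne_top _ _) (1 : ℝ) with hh2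
  set h0 : Lp ℝ 2 ρ := h1 - k • h2 with hh0
  have hmem : h0 ∈ (VV μ ν lam F H hl)ᗮᗮ := by
    rw [Submodule.mem_orthogonal]
    intro g hg
    obtain ⟨c, hc⟩ := const_of_inv Γ (μ.prod ν) (fun a => ((hX a).prod (hY a)).measurable) herg hFF
      (g : X × Y → ℝ) (Lp.stronglyMeasurable g).measurable
      (fun a => inv_of_orth Γ μ ν lam hX hY hF hH hFf hHf hl hlam g hg a)
    rw [real_inner_comm, hh0, inner_sub_left, real_inner_smul_left, hh1, hh2,
      L2.inner_indicatorConstLp_one, L2.inner_indicatorConstLp_one]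
    have e1 : ∀ E : Set (X × Y), MeasurableSet E → E ⊆ F ×ˢ H →
        ∫ p in E, g p ∂ρ = (μ.prod ν).real E * c := by
      intro E hE hEF
      have : ∫ p in E, g p ∂ρ = ∫ p in E, c ∂ρ :=
        integral_congr_ae (ae_restrict_of_ae hc)
      rw [this, integral_const, smul_eq_mul, hρ, Measure.restrict_restrict hE,
        Set.inter_eq_left.2 hEF, measureReal_restrict_apply_univ]
    rw [e1 _ (hA.prod hB) (Set.prod_mono hAF hBF), e1 _ hFF subset_rfl,
      measureReal_prod_prod, measureReal_prod_prod]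
    linear_combination (-c) * hk
  rw [Submodule.orthogonal_orthogonal_eq_closure] at hmem
  set one : Lp ℝ 2 ρ := indicatorConstLp 2 MeasurableSet.univ (measure_ne_top _ _) (1 : ℝ) with hone
  have hpos : 0 < ‖one‖ + 1 := by positivity
  obtain ⟨v, hv, hdist⟩ := Metric.mem_closure_iff.1 hmem (ε / (‖one‖ + 1)) (div_pos hε hpos)
  obtain ⟨r, hr, hIr, hvr⟩ := hv
  refine ⟨r, hr, hIr, ?_⟩
  set fn : X × Y → ℝ := fun p => |((A ×ˢ B).indicator (fun _ => (1 : ℝ)) p -
        k * (F ×ˢ H).indicator (fun _ => (1 : ℝ)) p) - r p| with hfn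
  have hoff : ∀ p, p ∉ F ×ˢ H → fn p = 0 := by
    intro p hp
    have hp2 : p ∉ A ×ˢ B := fun h => hp (Set.prod_mono hAF hBF h)
    simp only [hfn, Set.indicator_of_notMem hp, Set.indicator_of_notMem hp2,
      hr.zero_off p hp, mul_zero, sub_zero, abs_zero]
  have e1 : ∫ p, fn p ∂(μ.prod ν) = ∫ p, fn p ∂ρ :=
    (setIntegral_eq_integral_of_forall_compl_eq_zero hoff).symm
  rw [e1]
  have hae : (fun p => |(h0 - v : Lp ℝ 2 ρ)| p) =ᵐ[ρ] fn := by
    filter_upwards [Lp.coeFn_abs (h0 - v), Lp.coeFn_sub h0 v, Lp.coeFn_sub h1 (k • h2),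
      Lp.coeFn_smul k h2, hvr,
      indicatorConstLp_coeFn (p := 2) (hs := hA.prod hB)
            (hμs := measure_ne_top ρ _) (c := (1 : ℝ)),
      indicatorConstLp_coeFn (p := 2) (hs := hFF)
            (hμs := measure_ne_top ρ _) (c := (1 : ℝ))] with p a1 a2 a3 a4 a5 a6 a7
    rw [a1, a2, Pi.sub_apply, a5, hh0, a3, Pi.sub_apply, a4, Pi.smul_apply, hh1, a6, hh2, a7,
      smul_eq_mul]
  have e2 : ∫ p, fn p ∂ρ = inner ℝ one |h0 - v| := by
    rw [hone, L2.inner_indicatorConstLp_one, Measure.restrict_univ]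
    exact (integral_congr_ae hae).symm
  rw [e2]
  calc inner ℝ one |h0 - v| ≤ ‖one‖ * ‖|h0 - v|‖ := real_inner_le_norm _ _
    _ = ‖one‖ * dist h0 v := by rw [norm_abs_eq_norm, dist_eq_norm]
    _ ≤ (‖one‖ + 1) * dist h0 v := by
        have := dist_nonneg (x := h0) (y := v)
        nlinarith
    _ < (‖one‖ + 1) * (ε / (‖one‖ + 1)) := by gcongr
    _ = ε := by field_simp

/-- If the product measure is ergodic and averages of invariant measures converge to it on the
rectangles in `F × H`, then most of these measures are nearly proportional to it there. -/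
theorem main [MeasurableSpace ι] {κ : Type y}
    (hX : ∀ g : Γ, MeasurePreserving (fun x : X => g • x) μ μ)
    (hY : ∀ g : Γ, MeasurePreserving (fun y : Y => g • y) ν ν)
    (herg : ∀ S : Set (X × Y), MeasurableSet S → (∀ g : Γ, (fun p : X × Y => g • p) ⁻¹' S = S) →
      (μ.prod ν) S = 0 ∨ (μ.prod ν) Sᶜ = 0)
    {F : Set X} {H : Set Y} (hF : MeasurableSet F) (hH : MeasurableSet H)
    (hF0 : 0 < μ F) (hH0 : 0 < ν H) (hFf : μ F < ∞) (hHf : ν H < ∞)
    (hl : ∀ t, lam t (F ×ˢ H) < ∞)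
    (hlam : ∀ (t : ι) (g : Γ), MeasurePreserving (fun p : X × Y => g • p) (lam t) (lam t))
    (l : Filter κ) (W : κ → Measure ι)
    (hint : ∀ (n : κ) (A : Set X) (B : Set Y), MeasurableSet A → MeasurableSet B → A ⊆ F → B ⊆ H →
      Integrable (fun t => (lam t).real (A ×ˢ B)) (W n))
    (hW : ∀ (A : Set X) (B : Set Y), MeasurableSet A → MeasurableSet B → A ⊆ F → B ⊆ H →
      Tendsto (fun n : κ => ∫ t, (lam t).real (A ×ˢ B) ∂(W n)) l (𝓝 (μ.real A * ν.real B)))
    {A : Set X} {B : Set Y} (hA : MeasurableSet A) (hB : MeasurableSet B) (hAF : A ⊆ F)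
    (hBF : B ⊆ H) :
    Tendsto (fun n : κ => ∫ t, |(lam t).real (A ×ˢ B) -
      μ.real A * ν.real B / (μ.real F * ν.real H) * (lam t).real (F ×ˢ H)| ∂(W n)) l (𝓝 0) := by
  have hFr : 0 < μ.real F := ENNReal.toReal_pos hF0.ne' hFf.ne
  have hHr : 0 < ν.real H := ENNReal.toReal_pos hH0.ne' hHf.ne
  set k : ℝ := μ.real A * ν.real B / (μ.real F * ν.real H) with hk
  have hk' : k * (μ.real F * ν.real H) = μ.real A * ν.real B := by
    rw [hk]; field_simp
  rw [Metric.tendsto_nhds]
  intro ε hε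
  obtain ⟨r, hr, hIr, hlt⟩ := approx Γ μ ν lam hX hY herg hF hH hFf hHf hl hlam hA hB hAF hBF k hk'
    ε hε
  set h0 : X × Y → ℝ := fun p => (A ×ˢ B).indicator (fun _ => (1 : ℝ)) p -
        k * (F ×ˢ H).indicator (fun _ => (1 : ℝ)) p with hh0
  have R1 : Rep F H ((A ×ˢ B).indicator (fun _ => (1 : ℝ))) := Rep.ind hA hB hAF hBF
  have R2 : Rep F H (fun p => k * (F ×ˢ H).indicator (fun _ => (1 : ℝ)) p) :=
    (Rep.ind hF hH subset_rfl subset_rfl).smul k
  have R0 : Rep F H h0 := R1.sub R2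
  have Rd : Rep F H (fun p => h0 p - r p) := R0.sub hr
  have Ra : Rep F H (fun p => |h0 p - r p|) := Rd.abs hF hH
  have hI0 : ∀ t, ∫ p, h0 p ∂(lam t) = (lam t).real (A ×ˢ B) - k * (lam t).real (F ×ˢ H) := by
    intro t
    rw [hh0, integral_sub (R1.int (lam t) (hl t)) (R2.int (lam t) (hl t)), integral_const_mul,
      J_ind _ hA hB, J_ind _ hF hH]
  have hle : ∀ t, |(lam t).real (A ×ˢ B) - k * (lam t).real (F ×ˢ H)| ≤
      ∫ p, |h0 p - r p| ∂(lam t) := by
    intro t
    rw [← hI0 t]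
    have e1 : ∫ p, h0 p ∂(lam t) = ∫ p, (h0 p - r p) ∂(lam t) := by
      rw [integral_sub (R0.int (lam t) (hl t)) (hr.int (lam t) (hl t)), hIr t, sub_zero]
    rw [e1]
    exact abs_integral_le_integral_abs
  obtain ⟨hci, hc⟩ := conv μ ν hFf hHf lam hl l W hint hW Ra
  have hev := hc.eventually (gt_mem_nhds hlt)
  filter_upwards [hev] with n hn
  have h1 : ∫ t, |(lam t).real (A ×ˢ B) - k * (lam t).real (F ×ˢ H)| ∂(W n) ≤
      ∫ t, (∫ p, |h0 p - r p| ∂(lam t)) ∂(W n) := by
    refine integral_mono_of_nonneg (Eventually.of_forall fun t => abs_nonneg _) (hci n)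
      (Eventually.of_forall hle)
  have h2 : 0 ≤ ∫ t, |(lam t).real (A ×ˢ B) - k * (lam t).real (F ×ˢ H)| ∂(W n) :=
    integral_nonneg fun t => abs_nonneg _
  rw [Real.dist_eq, sub_zero, abs_of_nonneg h2]
  exact lt_of_le_of_lt h1 hn

/-- Converse: if the conclusion of `main` holds for all families of two invariant measures whose mean
value is the product measure, then the product measure is ergodic. -/
theorem converse
    (hX : ∀ g : Γ, MeasurePreserving (fun x : X => g • x) μ μ)
    (hY : ∀ g : Γ, MeasurePreserving (fun y : Y => g • y) ν ν)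
    (hyp : ∀ (F : Set X) (H : Set Y), MeasurableSet F → MeasurableSet H → 0 < μ F → 0 < ν H →
      μ F < ∞ → ν H < ∞ → ∀ lam : Bool → Measure (X × Y), (∀ t, lam t (F ×ˢ H) < ∞) →
      (∀ (t : Bool) (g : Γ), MeasurePreserving (fun p : X × Y => g • p) (lam t) (lam t)) →
      (∀ (A : Set X) (B : Set Y), MeasurableSet A → MeasurableSet B → A ⊆ F → B ⊆ H →
        ((lam true).real (A ×ˢ B) + (lam false).real (A ×ˢ B)) / 2 = μ.real A * ν.real B) →
      ∀ (A : Set X) (B : Set Y), MeasurableSet A → MeasurableSet B → A ⊆ F → B ⊆ H →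
        (lam true).real (A ×ˢ B) =
          μ.real A * ν.real B / (μ.real F * ν.real H) * (lam true).real (F ×ˢ H))
    (S : Set (X × Y)) (hS : MeasurableSet S)
    (hinv : ∀ g : Γ, (fun p : X × Y => g • p) ⁻¹' S = S) :
    (μ.prod ν) S = 0 ∨ (μ.prod ν) Sᶜ = 0 := by
  by_contra hcon
  push Not at hcon
  obtain ⟨hS1, hS2⟩ := hcon
  -- a finite rectangle which meets both parts
  set F' : ℕ → Set X := fun n => spanningSets μ n with hF'
  set H' : ℕ → Set Y := fun n => spanningSets ν n with hH'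
  have hcov : ∀ T : Set (X × Y), (μ.prod ν) T ≠ 0 → ∃ n, ∀ k, n ≤ k →
      (μ.prod ν) (T ∩ F' k ×ˢ H' k) ≠ 0 := by
    intro T hT
    by_contra hc
    push Not at hc
    apply hT
    have hU : T ⊆ ⋃ n, T ∩ F' n ×ˢ H' n := by
      intro p hp
      have h1 : p.1 ∈ ⋃ n, spanningSets μ n := by rw [iUnion_spanningSets]; trivial
      have h2 : p.2 ∈ ⋃ n, spanningSets ν n := by rw [iUnion_spanningSets]; trivial
      obtain ⟨a, ha⟩ := Set.mem_iUnion.1 h1
      obtain ⟨b, hb⟩ := Set.mem_iUnion.1 h2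
      refine Set.mem_iUnion.2 ⟨max a b, hp, ?_, ?_⟩
      · exact monotone_spanningSets μ (le_max_left a b) ha
      · exact monotone_spanningSets ν (le_max_right a b) hb
    refine measure_mono_null hU (measure_iUnion_null fun n => ?_)
    obtain ⟨k, hk, hk0⟩ := hc n
    refine measure_mono_null (Set.inter_subset_inter_right _ (Set.prod_mono ?_ ?_)) hk0
    · exact monotone_spanningSets μ hk
    · exact monotone_spanningSets ν hk
  obtain ⟨n1, hn1⟩ := hcov S hS1
  obtain ⟨n2, hn2⟩ := hcov Sᶜ hS2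
  set N := max n1 n2 with hN
  have h1 := hn1 N (le_max_left _ _)
  have h2 := hn2 N (le_max_right _ _)
  set F := F' N with hFdef
  set H := H' N with hHdef
  have hF : MeasurableSet F := measurableSet_spanningSets μ N
  have hH : MeasurableSet H := measurableSet_spanningSets ν N
  have hFf : μ F < ∞ := measure_spanningSets_lt_top μ N
  have hHf : ν H < ∞ := measure_spanningSets_lt_top ν N
  have hFH : (μ.prod ν) (F ×ˢ H) ≠ 0 := fun h =>
    h1 (measure_mono_null Set.inter_subset_right h)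
  have hfin : (μ.prod ν) (F ×ˢ H) < ∞ := by
    rw [Measure.prod_prod]; exact ENNReal.mul_lt_top hFf hHf
  have hF0 : 0 < μ F := by
    rw [pos_iff_ne_zero]
    intro h
    exact hFH (by rw [Measure.prod_prod, h, zero_mul])
  have hH0 : 0 < ν H := by
    rw [pos_iff_ne_zero]
    intro h
    exact hFH (by rw [Measure.prod_prod, h, mul_zero])
  have hmp : ∀ a : Γ, MeasurePreserving (fun p : X × Y => a • p) (μ.prod ν) (μ.prod ν) :=
    fun a => (hX a).prod (hY a)
  -- the two measures
  have hinvc : ∀ g : Γ, (fun p : X × Y => g • p) ⁻¹' Sᶜ = Sᶜ := by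
    intro g
    rw [Set.preimage_compl, hinv g]
  have hres : ∀ T : Set (X × Y), MeasurableSet T → (∀ g : Γ, (fun p : X × Y => g • p) ⁻¹' T = T) →
      ∀ g : Γ, MeasurePreserving (fun p : X × Y => g • p) ((2 : ℝ≥0∞) • (μ.prod ν).restrict T)
        ((2 : ℝ≥0∞) • (μ.prod ν).restrict T) := by
    intro T hT hTi g
    have e := (hmp g).restrict_preimage hT
    rw [hTi g] at e
    exact e.smul_measure _
  set lam : Bool → Measure (X × Y) := fun t =>
    if t then (2 : ℝ≥0∞) • (μ.prod ν).restrict S else (2 : ℝ≥0∞) • (μ.prod ν).restrict Sᶜ with hlam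
  have hval : ∀ (A : Set X) (B : Set Y), MeasurableSet A → MeasurableSet B →
      lam true (A ×ˢ B) = 2 * (μ.prod ν) (A ×ˢ B ∩ S) ∧
      lam false (A ×ˢ B) = 2 * (μ.prod ν) (A ×ˢ B ∩ Sᶜ) := by
    intro A B hA hB
    constructor
    · simp only [hlam, if_true, Measure.smul_apply, smul_eq_mul]
      rw [Measure.restrict_apply (hA.prod hB)]
    · simp only [hlam, Measure.smul_apply, smul_eq_mul]
      rw [if_neg (by simp), Measure.smul_apply, smul_eq_mul, Measure.restrict_apply (hA.prod hB)]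
  have hlf : ∀ t, lam t (F ×ˢ H) < ∞ := by
    intro t
    cases t
    · rw [(hval F H hF hH).2]
      exact ENNReal.mul_lt_top (by norm_num) (lt_of_le_of_lt (measure_mono Set.inter_subset_left) hfin)
    · rw [(hval F H hF hH).1]
      exact ENNReal.mul_lt_top (by norm_num) (lt_of_le_of_lt (measure_mono Set.inter_subset_left) hfin)
  have hmean : ∀ (A : Set X) (B : Set Y), MeasurableSet A → MeasurableSet B → A ⊆ F → B ⊆ H →
        ((lam true).real (A ×ˢ B) + (lam false).real (A ×ˢ B)) / 2 = μ.real A * ν.real B := by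
    intro A B hA hB hAF hBH
    have hAB : (μ.prod ν) (A ×ˢ B) ≠ ∞ :=
      ne_top_of_le_ne_top hfin.ne (measure_mono (Set.prod_mono hAF hBH))
    have e1 : (lam true).real (A ×ˢ B) = 2 * (μ.prod ν).real (A ×ˢ B ∩ S) := by
      rw [measureReal_def, (hval A B hA hB).1, ENNReal.toReal_mul, measureReal_def]
      rfl
    have e2 : (lam false).real (A ×ˢ B) = 2 * (μ.prod ν).real (A ×ˢ B ∩ Sᶜ) := by
      rw [measureReal_def, (hval A B hA hB).2, ENNReal.toReal_mul, measureReal_def]
      rfl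
    have e3 : (μ.prod ν).real (A ×ˢ B ∩ S) + (μ.prod ν).real (A ×ˢ B ∩ Sᶜ) =
        (μ.prod ν).real (A ×ˢ B) := by
      have := measureReal_inter_add_diff (μ := μ.prod ν) (s := A ×ˢ B) hS hAB
      rwa [Set.diff_eq] at this
    rw [e1, e2, ← measureReal_prod_prod, ← e3]
    ring
  have hconc := hyp F H hF hH hF0 hH0 hFf hHf lam hlf (by
    intro t g
    cases t
    · have := hres Sᶜ hS.compl hinvc g
      simpa [hlam] using this
    · have := hres S hS hinv g
      simpa [hlam] using this) hmean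
  -- `S ∩ (F × H)` is proportional to the product measure
  set c : ℝ≥0∞ := lam true (F ×ˢ H) / (μ F * ν H) with hc
  have hFHne : μ F * ν H ≠ 0 := mul_ne_zero hF0.ne' hH0.ne'
  have hFHt : μ F * ν H ≠ ∞ := (ENNReal.mul_lt_top hFf hHf).ne
  have hext : (lam true).restrict (F ×ˢ H) = c • (μ.prod ν).restrict (F ×ˢ H) := by
    have hfm : IsFiniteMeasure ((lam true).restrict (F ×ˢ H)) := ⟨by
      rw [Measure.restrict_apply_univ]; exact hlf true⟩
    refine ext_of_generate_finite _ generateFrom_prod.symm isPiSystem_prod ?_ ?_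
    · rintro T ⟨A, hA, B, hB, rfl⟩
      have hA' : MeasurableSet (A ∩ F) := MeasurableSet.inter hA hF
      have hB' : MeasurableSet (B ∩ H) := MeasurableSet.inter hB hH
      have h3 := hconc (A ∩ F) (B ∩ H) hA' hB' Set.inter_subset_right Set.inter_subset_right
      rw [Measure.restrict_apply (MeasurableSet.prod hA hB), Measure.smul_apply,
        Measure.restrict_apply (MeasurableSet.prod hA hB), smul_eq_mul, Set.prod_inter_prod,
        Measure.prod_prod]
      have t1 : lam true ((A ∩ F) ×ˢ (B ∩ H)) ≠ ∞ := ne_top_of_le_ne_top (hlf true).ne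
        (measure_mono (Set.prod_mono Set.inter_subset_right Set.inter_subset_right))
      have t2 : μ (A ∩ F) ≠ ∞ := ne_top_of_le_ne_top hFf.ne (measure_mono Set.inter_subset_right)
      have t3 : ν (B ∩ H) ≠ ∞ := ne_top_of_le_ne_top hHf.ne (measure_mono Set.inter_subset_right)
      have t4 : c * (μ (A ∩ F) * ν (B ∩ H)) ≠ ∞ :=
        ENNReal.mul_ne_top (ENNReal.div_ne_top (hlf true).ne hFHne) (ENNReal.mul_ne_top t2 t3)
      rw [← ENNReal.toReal_eq_toReal_iff' t1 t4, ENNReal.toReal_mul, ENNReal.toReal_mul, hc,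
        ENNReal.toReal_div, ENNReal.toReal_mul]
      simp only [measureReal_def] at h3
      rw [h3]
      ring
    · rw [Measure.restrict_apply_univ, Measure.smul_apply, Measure.restrict_apply_univ, smul_eq_mul,
        Measure.prod_prod, hc]
      exact (ENNReal.div_mul_cancel hFHne hFHt).symm
  have h4 : (lam true).restrict (F ×ˢ H) Sᶜ = 0 := by
    rw [Measure.restrict_apply hS.compl]
    simp only [hlam, if_true, Measure.smul_apply, smul_eq_mul]
    rw [Measure.restrict_apply (hS.compl.inter (hF.prod hH))]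
    have : Sᶜ ∩ F ×ˢ H ∩ S = ∅ := by
      ext p; simp; tauto
    rw [this, measure_empty, mul_zero]
  rw [hext, Measure.smul_apply, smul_eq_mul, Measure.restrict_apply hS.compl] at h4
  rcases mul_eq_zero.1 h4 with h5 | h5
  · rw [hc, ENNReal.div_eq_zero_iff] at h5
    rcases h5 with h5 | h5
    · rw [(hval F H hF hH).1] at h5
      rcases mul_eq_zero.1 h5 with h6 | h6
      · norm_num at h6
      · rw [Set.inter_comm] at h6
        exact h1 h6
    · exact hFHt h5
  · exact h2 h5

end Core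

end Pool.Agent.Y326.Rwm
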