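import Pool.Agent.Y326.Rwm2

/-!
# Averages of invariant measures converging to an ergodic product measure

`Rwm3`: equivariant maps, one transformation.
-/

set_option autoImplicit false
open MeasureTheory Filter Topology
open scoped ENNReal

namespace Pool.Agent.Y326.Rwm

universe v w x y z

section Graph

variable {X : Type v} {Y : Type w} [MeasurableSpace X] [MeasurableSpace Y]
variable (Γ : Type z) [Group Γ] [Countable Γ] [MulAction Γ X] [MulAction Γ Y]
variable (μ : Measure X) (ν : Measure Y) [SigmaFinite μ] [SigmaFinite ν]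

/-- the version of `main` for a family of equivariant maps -/
theorem graph {ι : Type x} [MeasurableSpace ι] {κ : Type y} (S : ι → X → Y)
    (hS : ∀ t, Measurable (S t)) (heq : ∀ (t : ι) (g : Γ) (x : X), S t (g • x) = g • S t x)
    (hX : ∀ g : Γ, MeasurePreserving (fun x : X => g • x) μ μ)
    (hY : ∀ g : Γ, MeasurePreserving (fun y : Y => g • y) ν ν)
    (herg : ∀ S : Set (X × Y), MeasurableSet S → (∀ g : Γ, (fun p : X × Y => g • p) ⁻¹' S = S) →
      (μ.prod ν) S = 0 ∨ (μ.prod ν) Sᶜ = 0)
    {F : Set X} {H : Set Y} (hF : MeasurableSet F) (hH : MeasurableSet H)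
    (hF0 : 0 < μ F) (hH0 : 0 < ν H) (hFf : μ F < ∞) (hHf : ν H < ∞)
    (l : Filter κ) (W : κ → Measure ι)
    (hint : ∀ (n : κ) (A : Set X) (B : Set Y), MeasurableSet A → MeasurableSet B → A ⊆ F → B ⊆ H →
      Integrable (fun t => μ.real (A ∩ S t ⁻¹' B)) (W n))
    (hW : ∀ (A : Set X) (B : Set Y), MeasurableSet A → MeasurableSet B → A ⊆ F → B ⊆ H →
      Tendsto (fun n : κ => ∫ t, μ.real (A ∩ S t ⁻¹' B) ∂(W n)) l (𝓝 (μ.real A * ν.real B)))
    {A : Set X} {B : Set Y} (hA : MeasurableSet A) (hB : MeasurableSet B) (hAF : A ⊆ F)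
    (hBF : B ⊆ H) :
    Tendsto (fun n : κ => ∫ t, |μ.real (A ∩ S t ⁻¹' B) -
      μ.real A * ν.real B / (μ.real F * ν.real H) * μ.real (F ∩ S t ⁻¹' H)| ∂(W n)) l (𝓝 0) := by
  set lam : ι → Measure (X × Y) := fun t => μ.map (fun x => (x, S t x)) with hlam
  have hm : ∀ t, Measurable (fun x => (x, S t x)) := fun t => measurable_id.prodMk (hS t)
  have hval : ∀ t (A : Set X) (B : Set Y), MeasurableSet A → MeasurableSet B →
      lam t (A ×ˢ B) = μ (A ∩ S t ⁻¹' B) := by
    intro t A B hA hB
    rw [hlam]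
    simp only
    rw [Measure.map_apply (hm t) (hA.prod hB)]
    rfl
  have hvr : ∀ t (A : Set X) (B : Set Y), MeasurableSet A → MeasurableSet B →
      (lam t).real (A ×ˢ B) = μ.real (A ∩ S t ⁻¹' B) := by
    intro t A B hA hB
    rw [measureReal_def, hval t A B hA hB, measureReal_def]
  have hinv : ∀ (t : ι) (g : Γ),
      MeasurePreserving (fun p : X × Y => g • p) (lam t) (lam t) := by
    intro t g
    have hgm : Measurable (fun p : X × Y => g • p) := ((hX g).prod (hY g)).measurable
    refine ⟨hgm, ?_⟩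
    rw [hlam]
    simp only
    rw [Measure.map_map hgm (hm t)]
    have e : (fun p : X × Y => g • p) ∘ (fun x => (x, S t x)) =
        (fun x => (x, S t x)) ∘ (fun x => g • x) := by
      funext x
      simp only [Function.comp]
      rw [heq t g x]
      rfl
    rw [e, ← Measure.map_map (hm t) (hX g).measurable, (hX g).map_eq]
  have hmain := main Γ μ ν lam hX hY herg hF hH hF0 hH0 hFf hHf
    (fun t => by
      rw [hval t F H hF hH]
      exact lt_of_le_of_lt (measure_mono Set.inter_subset_left) hFf) hinv l W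
    (fun n A B hA hB hAF hBH => by
      simp only [hvr _ A B hA hB]
      exact hint n A B hA hB hAF hBH)
    (fun A B hA hB hAF hBH => by
      simp only [hvr _ A B hA hB]
      exact hW A B hA hB hAF hBH) hA hB hAF hBF
  simp only [hvr _ A B hA hB, hvr _ F H hF hH] at hmain
  exact hmain

end Graph

section One

variable {X : Type v} [MeasurableSpace X] (T : X ≃ᵐ X) {μ : Measure X} [SigmaFinite μ]

/-- The integer power `T^k` as a map. -/
def zp (T : X ≃ᵐ X) (k : ℤ) : X → X := ⇑((T.toEquiv : Equiv.Perm X) ^ k)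

lemma zp_zero : zp T 0 = id := by
  unfold zp; simp

lemma zp_add (m n : ℤ) : zp T (m + n) = zp T m ∘ zp T n := by
  unfold zp
  rw [_root_.zpow_add, Equiv.Perm.coe_mul]

lemma zp_one : zp T 1 = ⇑T := by
  unfold zp
  rw [zpow_one]; rfl

lemma zp_neg_one : zp T (-1) = ⇑T.symm := by
  unfold zp
  rw [zpow_neg_one]; rfl

lemma zp_nat (n : ℕ) : zp T n = (⇑T)^[n] := by
  unfold zp
  rw [zpow_natCast, ← Equiv.Perm.iterate_eq_pow]; rfl

omit [SigmaFinite μ] in
lemma zp_mp (hT : MeasurePreserving T μ μ) (n : ℤ) : MeasurePreserving (zp T n) μ μ := by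
  induction n using Int.induction_on with
  | zero => rw [zp_zero]; exact MeasurePreserving.id μ
  | succ i ih => rw [zp_add, zp_one]; exact ih.comp hT
  | pred i ih =>
    rw [sub_eq_add_neg, zp_add, zp_neg_one]
    exact ih.comp (MeasurePreserving.symm T hT)

lemma zp_neg_cancel (n : ℤ) (x : X) : zp T (-n) (zp T n x) = x := by
  have h := zp_add T (-n) n
  rw [neg_add_cancel, zp_zero] at h
  exact (congrFun h x).symm

lemma zp_cancel_neg (n : ℤ) (x : X) : zp T n (zp T (-n) x) = x := by
  have h := zp_add T n (-n)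
  rw [add_neg_cancel, zp_zero] at h
  exact (congrFun h x).symm

omit [SigmaFinite μ] in
lemma image_inter_real (hT : MeasurePreserving T μ μ) (i : ℤ) {C D : Set X}
    (hC : MeasurableSet C) (hD : MeasurableSet D) :
    μ.real (zp T i '' C ∩ D) = μ.real (C ∩ zp T i ⁻¹' D) := by
  have e : zp T i '' C = zp T (-i) ⁻¹' C :=
    congrFun (Set.image_eq_preimage_of_inverse (zp_neg_cancel T i) (zp_cancel_neg T i)) C
  have hm := zp_mp T hT i
  have hm' := zp_mp T hT (-i)
  have e2 : C ∩ zp T i ⁻¹' D = zp T i ⁻¹' (zp T i '' C ∩ D) := by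
    ext x
    simp only [Set.mem_inter_iff, Set.mem_preimage, e, zp_neg_cancel]
  rw [e2, measureReal_def, measureReal_def, hm.measure_preimage]
  rw [e]
  exact ((hm'.measurable hC).inter hD).nullMeasurableSet

/-- One transformation with ergodic square, arbitrary averages over the integers. -/
theorem one {κ : Type y} (hT : MeasurePreserving T μ μ)
    (hR : Ergodic (Prod.map T T) (μ.prod μ))
    {F : Set X} (hF : MeasurableSet F) (hF0 : 0 < μ F) (hFf : μ F < ∞)
    (l : Filter κ) (W : κ → Measure ℤ)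
    (hint : ∀ n : κ, Integrable (fun i : ℤ => μ.real (zp T i '' F ∩ F)) (W n))
    (hW : ∀ A B : Set X, MeasurableSet A → MeasurableSet B → A ⊆ F → B ⊆ F →
      Tendsto (fun n : κ => ∫ i, μ.real (zp T i '' A ∩ B) ∂(W n)) l (𝓝 (μ.real A * μ.real B)))
    {A B : Set X} (hA : MeasurableSet A) (hB : MeasurableSet B) (hAF : A ⊆ F) (hBF : B ⊆ F) :
    Tendsto (fun n : κ => ∫ i, |μ.real (zp T i '' A ∩ B) -
      μ.real A * μ.real B * (μ.real (zp T i '' F ∩ F) / μ.real F ^ 2)| ∂(W n)) l (𝓝 0) := by
  letI : MulAction (Multiplicative ℤ) X :=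
    MulAction.compHom X (zpowersHom (Equiv.Perm X) T.toEquiv)
  have hsm : ∀ (g : Multiplicative ℤ) (x : X), g • x = zp T g.toAdd x := by
    intro g x
    change (zpowersHom (Equiv.Perm X) T.toEquiv g) x = _
    rw [zpowersHom_apply]
    rfl
  have hX : ∀ g : Multiplicative ℤ, MeasurePreserving (fun x : X => g • x) μ μ := by
    intro g
    have e : (fun x : X => g • x) = zp T g.toAdd := funext (hsm g)
    rw [e]
    exact zp_mp T hT _
  have herg : ∀ S : Set (X × X), MeasurableSet S →
      (∀ g : Multiplicative ℤ, (fun p : X × X => g • p) ⁻¹' S = S) →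
      (μ.prod μ) S = 0 ∨ (μ.prod μ) Sᶜ = 0 := by
    intro S hS hi
    refine hR.toPreErgodic.measure_self_or_compl_eq_zero hS ?_
    have h1 := hi (Multiplicative.ofAdd 1)
    have e : (fun p : X × X => (Multiplicative.ofAdd (1 : ℤ)) • p) = Prod.map T T := by
      funext p
      refine Prod.ext ?_ ?_
      · change (Multiplicative.ofAdd (1 : ℤ)) • p.1 = _
        rw [hsm, toAdd_ofAdd, zp_one]
        rfl
      · change (Multiplicative.ofAdd (1 : ℤ)) • p.2 = _
        rw [hsm, toAdd_ofAdd, zp_one]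
        rfl
    rwa [e] at h1
  have hcomm : ∀ (t : ℤ) (g : Multiplicative ℤ) (x : X), zp T t (g • x) = g • zp T t x := by
    intro t g x
    rw [hsm, hsm]
    have h4 := congrFun (zp_add T t g.toAdd) x
    have h5 := congrFun (zp_add T g.toAdd t) x
    simp only [Function.comp] at h4 h5
    rw [← h4, ← h5, add_comm]
  have hint' : ∀ (n : κ) (A B : Set X), MeasurableSet A → MeasurableSet B → A ⊆ F → B ⊆ F →
      Integrable (fun t : ℤ => μ.real (A ∩ zp T t ⁻¹' B)) (W n) := by
    intro n A B hA hB hAF hBF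
    refine (hint n).mono' (measurable_of_countable _).aestronglyMeasurable
      (Eventually.of_forall fun t => ?_)
    rw [Real.norm_of_nonneg measureReal_nonneg, image_inter_real T hT t hF hF]
    refine measureReal_mono (Set.inter_subset_inter hAF (Set.preimage_mono hBF)) ?_
    exact ne_top_of_le_ne_top hFf.ne (measure_mono Set.inter_subset_left)
  have hmain := graph (Multiplicative ℤ) μ μ (fun t : ℤ => zp T t)
    (fun t => (zp_mp T hT t).measurable) hcomm hX hX herg hF hF hF0 hF0 hFf hFf l W hint'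
    (fun A B hA hB hAF hBF => by
      simp only [← image_inter_real T hT _ hA hB]
      exact hW A B hA hB hAF hBF) hA hB hAF hBF
  refine hmain.congr fun n => ?_
  refine integral_congr_ae (Eventually.of_forall fun t => ?_)
  simp only
  rw [image_inter_real T hT t hA hB, image_inter_real T hT t hF hF]
  congr 2
  rw [sq]
  ring

/-- power weak mixing gives ergodicity of the Cartesian square -/
lemma sq_of_pwm (h : ∀ r : ℕ, 1 ≤ r → ∀ k : Fin r → ℤ, (∀ j, k j ≠ 0) →
    Ergodic (fun (x : Fin r → X) (j : Fin r) => zp T (k j) (x j)) (Measure.pi fun _ => μ)) :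
    Ergodic (Prod.map T T) (μ.prod μ) := by
  have h2 := h 2 (by norm_num) (fun _ => 1) (fun _ => one_ne_zero)
  have he := measurePreserving_finTwoArrow μ
  have h3 := (MeasurePreserving.ergodic_conjugate_iff (e := MeasurableEquiv.finTwoArrow) he
    (f := fun (x : Fin 2 → X) (j : Fin 2) => zp T 1 (x j))).2 h2
  convert h3 using 1
  funext p
  simp only [Function.comp]
  refine Prod.ext ?_ ?_
  · simp [MeasurableEquiv.finTwoArrow, zp_one]
  · simp [MeasurableEquiv.finTwoArrow, zp_one]

/-- Cesàro-type averages are integrals -/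
lemma avg_eq (c : ℝ) (hc : 0 ≤ c) (n : ℕ) (f : ℤ → ℝ) :
    ∫ i, f i ∂(∑ i ∈ Finset.range n, ENNReal.ofReal c • Measure.dirac (i : ℤ)) =
      c * ∑ i ∈ Finset.range n, f i := by
  rw [integral_finsetSum_measure]
  · rw [Finset.mul_sum]
    refine Finset.sum_congr rfl fun i _ => ?_
    rw [integral_smul_measure, integral_dirac, ENNReal.toReal_ofReal hc, smul_eq_mul]
  · intro i _
    exact (integrable_dirac (by simp)).smul_measure ENNReal.ofReal_ne_top

end One

end Pool.Agent.Y326.Rwm
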