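import Pool.Agent.Y326.Conc

/-!
# Elements of C*-algebras with singular spectrum: inequalities, and a minimax argument
-/

set_option autoImplicit false

namespace Pool.Agent.Y326

open Finset Filter

section order

variable {A : Type*} [NonUnitalCStarAlgebra A] [PartialOrder A] [StarOrderedRing A]

lemma conv_sq (a b : A) (t : ℝ) (h0 : 0 ≤ t) (h1 : t ≤ 1) :
    star (t • a + (1 - t) • b) * (t • a + (1 - t) • b) ≤ t • (star a * a) + (1 - t) • (star b * b) := by
  have key : t • (star a * a) + (1 - t) • (star b * b) -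
      star (t • a + (1 - t) • b) * (t • a + (1 - t) • b) = (t * (1 - t)) • (star (a - b) * (a - b)) := by
    simp only [star_add, star_smul, star_sub, star_trivial, mul_add, add_mul, mul_sub, sub_mul,
      smul_mul_assoc, mul_smul_comm, smul_add, smul_sub, smul_smul]
    module
  rw [← sub_nonneg, key]
  exact smul_nonneg (mul_nonneg h0 (by linarith)) (star_mul_self_nonneg _)

lemma sq_sum_le (z : ℕ → A) (n : ℕ) : star (∑ h ∈ range n, z h) * (∑ h ∈ range n, z h) ≤
    (n : ℝ) • ∑ h ∈ range n, star (z h) * z h := by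
  induction n with
  | zero => simp
  | succ n ih =>
    rw [sum_range_succ, sum_range_succ]
    set S := ∑ h ∈ range n, z h with hS
    set Q := ∑ h ∈ range n, star (z h) * z h with hQ
    have hQ0 : 0 ≤ Q := sum_nonneg fun h _ => star_mul_self_nonneg _
    rcases Nat.eq_zero_or_pos n with rfl | hn
    · have h1 : S = 0 := by rw [hS]; simp
      have h2 : Q = 0 := by rw [hQ]; simp
      rw [h1, h2]
      simp
    have hn0 : (0 : ℝ) < n := by exact_mod_cast hn
    have h1 : ((1 : ℝ) / n) • (star S * S) ≤ Q := by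
      calc ((1 : ℝ) / n) • (star S * S) ≤ ((1 : ℝ) / n) • ((n : ℝ) • Q) :=
            smul_le_smul_of_nonneg_left ih (by positivity)
        _ = Q := by rw [smul_smul, one_div, inv_mul_cancel₀ hn0.ne', one_smul]
    have key : ((n : ℝ) + 1) • (((1 : ℝ) / n) • (star S * S) + star (z n) * z n) -
        star (S + z n) * (S + z n) = ((1 : ℝ) / n) • (star (S - (n : ℝ) • z n) * (S - (n : ℝ) • z n)) := by
      obtain ⟨r, hr⟩ : ∃ r : ℝ, r = 1 / n := ⟨_, rfl⟩
      have e2 : (n : ℝ) * r = 1 := by rw [hr]; field_simp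
      rw [← hr]
      simp only [star_add, star_smul, star_sub, star_trivial, mul_add, add_mul, mul_sub, sub_mul,
        smul_mul_assoc, mul_smul_comm, smul_add, smul_sub, smul_smul, e2, one_mul, one_smul]
      have e3 : r * (n * n) = n := by
        calc r * (n * n) = (n * r) * n := by ring
          _ = n := by rw [e2, one_mul]
      have e4 : r * n = 1 := by rw [mul_comm, e2]
      simp only [e3, e4, one_smul]
      module
    have h2 : star (S + z n) * (S + z n) ≤ ((n : ℝ) + 1) • (((1 : ℝ) / n) • (star S * S) + star (z n) * z n) := by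
      rw [← sub_nonneg, key]
      exact smul_nonneg (by positivity) (star_mul_self_nonneg _)
    push_cast
    refine h2.trans (smul_le_smul_of_nonneg_left ?_ (by positivity))
    exact add_le_add_left h1 _

/-- windows with bounded coefficients -/
lemma window_sq (v : ℕ → ℂ) (hv : ∀ h, ‖v h‖ ≤ 1) (y : ℕ → A) (n : ℕ) :
    ‖∑ h ∈ range n, v h • y h‖ ^ 2 ≤ n * ‖∑ h ∈ range n, star (y h) * y h‖ := by
  have h1 := sq_sum_le (fun h => v h • y h) n
  have h2 : ∀ h ∈ range n, star (v h • y h) * (v h • y h) ≤ star (y h) * y h := by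
    intro h _
    have e : star (v h • y h) * (v h • y h) = (‖v h‖ ^ 2) • (star (y h) * y h) := by
      rw [star_smul, smul_mul_smul_comm]
      have : star (v h) * v h = ((‖v h‖ ^ 2 : ℝ) : ℂ) := by
        have := Complex.normSq_eq_conj_mul_self (z := v h)
        rw [Complex.normSq_eq_norm_sq] at this
        exact this.symm
      rw [this]
      exact Complex.coe_smul _ _
    rw [e]
    have h3 : 0 ≤ star (y h) * y h := star_mul_self_nonneg _
    calc (‖v h‖ ^ 2) • (star (y h) * y h) ≤ (1 : ℝ) • (star (y h) * y h) := by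
          apply smul_le_smul_of_nonneg_right _ h3
          have := hv h
          have := norm_nonneg (v h)
          nlinarith
      _ = _ := one_smul _ _
  have h3 : star (∑ h ∈ range n, v h • y h) * (∑ h ∈ range n, v h • y h) ≤
      (n : ℝ) • ∑ h ∈ range n, star (y h) * y h :=
    h1.trans (smul_le_smul_of_nonneg_left (sum_le_sum h2) (by positivity))
  have h4 := CStarAlgebra.norm_le_norm_of_nonneg_of_le (star_mul_self_nonneg _) h3
  rw [CStarRing.norm_star_mul_self, norm_smul, Real.norm_natCast] at h4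
  calc _ = ‖∑ h ∈ range n, v h • y h‖ * ‖∑ h ∈ range n, v h • y h‖ := sq _
    _ ≤ _ := h4

end order

/-! ### approximate relations -/

section rel

variable {X : Type*} [NormedAddCommGroup X] [NormedSpace ℂ X]

/-- the differences of `Tᵐ x` and combinations `∑ q k Tᵏ x` with `∑ |q k|² ≤ ε` -/
def Rel (T : X → X) (x : X) (ε : ℝ) (m : ℕ) : Set X :=
  {y | ∃ (K : ℕ) (q : ℕ → ℂ), ∑ k ∈ range K, ‖q k‖ ^ 2 ≤ ε ∧
    y = (T^[m]) x - ∑ k ∈ range K, q k • (T^[k]) x}

lemma ext_sum {Y : Type*} [AddCommMonoid Y] (K K' : ℕ) (h : K ≤ K') (F : ℕ → ℂ → Y)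
    (hF : ∀ k, F k 0 = 0) (q : ℕ → ℂ) :
    ∑ k ∈ range K', F k (if k < K then q k else 0) = ∑ k ∈ range K, F k (q k) := by
  symm
  have h1 : ∑ k ∈ range K, F k (q k) = ∑ k ∈ range K, F k (if k < K then q k else 0) :=
    sum_congr rfl fun k hk => by rw [if_pos (mem_range.1 hk)]
  rw [h1]
  apply sum_subset (range_mono h)
  intro k _ hk
  rw [mem_range] at hk
  rw [if_neg hk, hF]

lemma Rel.convex (T : X → X) (x : X) (ε : ℝ) (m : ℕ) : Convex ℝ (Rel T x ε m) := by
  rintro y₁ ⟨K₁, q₁, h1, rfl⟩ y₂ ⟨K₂, q₂, h2, rfl⟩ a b ha hb hab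
  set r₁ : ℕ → ℂ := fun k => if k < K₁ then q₁ k else 0 with hr₁
  set r₂ : ℕ → ℂ := fun k => if k < K₂ then q₂ k else 0 with hr₂
  refine ⟨max K₁ K₂, fun k => (a : ℂ) * r₁ k + (b : ℂ) * r₂ k, ?_, ?_⟩
  · have e1 := ext_sum K₁ (max K₁ K₂) (le_max_left _ _) (fun _ c => ‖c‖ ^ 2) (by simp) q₁
    have e2 := ext_sum K₂ (max K₁ K₂) (le_max_right _ _) (fun _ c => ‖c‖ ^ 2) (by simp) q₂
    have h3 : ∀ k ∈ range (max K₁ K₂), ‖(a : ℂ) * r₁ k + (b : ℂ) * r₂ k‖ ^ 2 ≤
        a * ‖r₁ k‖ ^ 2 + b * ‖r₂ k‖ ^ 2 := by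
      intro k _
      have h4 : ‖(a : ℂ) * r₁ k + (b : ℂ) * r₂ k‖ ≤ a * ‖r₁ k‖ + b * ‖r₂ k‖ := by
        refine (norm_add_le _ _).trans ?_
        rw [norm_mul, norm_mul, Complex.norm_real, Complex.norm_real, Real.norm_of_nonneg ha,
          Real.norm_of_nonneg hb]
      have h5 : ‖(a : ℂ) * r₁ k + (b : ℂ) * r₂ k‖ ^ 2 ≤ (a * ‖r₁ k‖ + b * ‖r₂ k‖) ^ 2 :=
        pow_le_pow_left₀ (norm_nonneg _) h4 2
      have h6 : b = 1 - a := by linarith
      refine h5.trans ?_
      rw [h6]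
      have h7 : 0 ≤ a * (1 - a) := mul_nonneg ha (by linarith)
      nlinarith [mul_nonneg h7 (sq_nonneg (‖r₁ k‖ - ‖r₂ k‖))]
    refine (sum_le_sum h3).trans ?_
    rw [sum_add_distrib, ← mul_sum, ← mul_sum]
    rw [hr₁, hr₂]
    simp only at e1 e2 ⊢
    rw [e1, e2]
    calc a * ∑ k ∈ range K₁, ‖q₁ k‖ ^ 2 + b * ∑ k ∈ range K₂, ‖q₂ k‖ ^ 2 ≤ a * ε + b * ε := by gcongr
      _ = ε := by rw [← add_mul, hab, one_mul]
  · have e1 := ext_sum K₁ (max K₁ K₂) (le_max_left _ _) (fun k c => c • (T^[k]) x) (by simp) q₁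
    have e2 := ext_sum K₂ (max K₁ K₂) (le_max_right _ _) (fun k c => c • (T^[k]) x) (by simp) q₂
    rw [← e1, ← e2]
    have e3 : ∑ k ∈ range (max K₁ K₂), ((a : ℂ) * r₁ k + (b : ℂ) * r₂ k) • (T^[k]) x =
        a • ∑ k ∈ range (max K₁ K₂), r₁ k • (T^[k]) x + b • ∑ k ∈ range (max K₁ K₂), r₂ k • (T^[k]) x := by
      rw [smul_sum, smul_sum, ← sum_add_distrib]
      refine sum_congr rfl fun k _ => ?_
      rw [add_smul, mul_smul, mul_smul]
      rw [Complex.coe_smul, Complex.coe_smul]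
    rw [e3]
    have e4 : (T^[m]) x = a • (T^[m]) x + b • (T^[m]) x := by rw [← add_smul, hab, one_smul]
    conv_rhs => rw [e4]
    rw [smul_sub, smul_sub]
    abel

variable {T : X →L[ℂ] X}

lemma Rel.shift {x : X} {ε : ℝ} {m : ℕ} {y : X} (hy : y ∈ Rel T x ε m) (j : ℕ) :
    (T^[j]) y ∈ Rel T x ε (m + j) := by
  obtain ⟨K, q, h1, rfl⟩ := hy
  refine ⟨j + K, fun k => if j ≤ k then q (k - j) else 0, ?_, ?_⟩
  · rw [sum_range_add]
    have e1 : ∑ k ∈ range j, ‖(if j ≤ k then q (k - j) else 0)‖ ^ 2 = 0 := by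
      refine sum_eq_zero fun k hk => ?_
      rw [if_neg (by rw [mem_range] at hk; omega)]
      simp
    have e2 : ∑ k ∈ range K, ‖(if j ≤ j + k then q (j + k - j) else 0)‖ ^ 2 = ∑ k ∈ range K, ‖q k‖ ^ 2 := by
      refine sum_congr rfl fun k _ => ?_
      rw [if_pos (by omega), Nat.add_sub_cancel_left]
    rw [e1, e2, zero_add]
    exact h1
  · rw [iter_sub, iter_sum, sum_range_add]
    have e1 : ∑ k ∈ range j, (if j ≤ k then q (k - j) else 0) • (T^[k]) x = 0 := by
      refine sum_eq_zero fun k hk => ?_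
      rw [if_neg (by rw [mem_range] at hk; omega), zero_smul]
    have e2 : ∑ k ∈ range K, (if j ≤ j + k then q (j + k - j) else 0) • (T^[j + k]) x =
        ∑ k ∈ range K, q k • (T^[j]) ((T^[k]) x) := by
      refine sum_congr rfl fun k _ => ?_
      rw [if_pos (by omega), Nat.add_sub_cancel_left, Function.iterate_add_apply]
    rw [e1, e2, zero_add, add_comm m j, Function.iterate_add_apply]

end rel

end Pool.Agent.Y326
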