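import Pool.Agent.Y326.Sing1

/-!
# Elements of C*-algebras with singular spectrum: slowness
-/

set_option autoImplicit false

namespace Pool.Agent.Y326

open Finset Filter

section

variable {A : Type*} [NonUnitalCStarAlgebra A]

/-- the linear map of a *-endomorphism -/
noncomputable def lin (α : A →⋆ₙₐ[ℂ] A) : A →L[ℂ] A := LinearMap.mkContinuous
    ({ toFun := α, map_add' := map_add α, map_smul' := map_smul α } : A →ₗ[ℂ] A) 1 (fun a => by
      rw [one_mul]
      exact NonUnitalStarAlgHom.norm_apply_le α a)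

lemma lin_le (α : A →⋆ₙₐ[ℂ] A) : ‖lin α‖ ≤ 1 := LinearMap.mkContinuous_norm_le _ zero_le_one _

lemma lin_coe (α : A →⋆ₙₐ[ℂ] A) : (lin α : A → A) = α := rfl

lemma lin_star (α : A →⋆ₙₐ[ℂ] A) (j : ℕ) (a : A) : ((lin α)^[j]) (star a) = star (((lin α)^[j]) a) := by
  induction j with
  | zero => rfl
  | succ j ih =>
    rw [Function.iterate_succ_apply', ih, Function.iterate_succ_apply']
    exact map_star α _

lemma lin_mul (α : A →⋆ₙₐ[ℂ] A) (j : ℕ) (a b : A) :
    ((lin α)^[j]) (a * b) = ((lin α)^[j]) a * ((lin α)^[j]) b := by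
  induction j with
  | zero => rfl
  | succ j ih =>
    rw [Function.iterate_succ_apply', ih, Function.iterate_succ_apply', Function.iterate_succ_apply']
    exact map_mul α _ _

/-- the sums of the first iterates -/
noncomputable def Av (T : A → A) (n : ℕ) (b : A) : A := ∑ j ∈ range n, (T^[j]) b

lemma av_le (T : A →L[ℂ] A) (hT : ‖T‖ ≤ 1) (n : ℕ) (b : A) : ‖Av T n b‖ ≤ n * ‖b‖ := by
  unfold Av
  refine (norm_sum_le _ _).trans ((sum_le_sum fun j _ => iter_le hT j b).trans ?_)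
  rw [sum_const, card_range, nsmul_eq_mul]

lemma iter_sum' (T : A →L[ℂ] A) (k L : ℕ) (y : ℕ → A) :
    (T^[k]) (∑ h ∈ range L, y h) = ∑ h ∈ range L, (T^[k]) (y h) := by
  have := iter_sum (T := T) k L (fun _ => 1) y
  simpa using this

lemma av_mul (T : A →L[ℂ] A) (l n : ℕ) (b : A) :
    Av T (l * n) b = ∑ i ∈ range l, (T^[i * n]) (Av T n b) := by
  induction l with
  | zero => simp [Av]
  | succ l ih =>
    rw [sum_range_succ, ← ih, add_mul, one_mul]
    unfold Av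
    rw [sum_range_add, iter_sum']
    congr 1
    refine sum_congr rfl fun j _ => ?_
    rw [Function.iterate_add_apply]

lemma av_mul_le (T : A →L[ℂ] A) (hT : ‖T‖ ≤ 1) (l n : ℕ) (b : A) :
    ‖Av T (l * n) b‖ ≤ l * ‖Av T n b‖ := by
  rw [av_mul]
  refine (norm_sum_le _ _).trans ((sum_le_sum fun i _ => iter_le hT _ _).trans ?_)
  rw [sum_const, card_range, nsmul_eq_mul]

end

/-! ### convolutions -/

/-- the coefficients of the combination -/
noncomputable def cvec (q : ℕ → ℂ) (K _L R : ℕ) (h : ℕ) : EuclideanSpace ℂ (Fin R) :=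
  WithLp.toLp 2 fun j => ∑ k ∈ range K, if h + k = j then q k else 0

lemma cvec_sq (q : ℕ → ℂ) (K L R : ℕ) (h : ℕ) (hh : h < L) (hR : L + K ≤ R) :
    ‖cvec q K L R h‖ ^ 2 = ∑ k ∈ range K, ‖q k‖ ^ 2 := by
  rw [EuclideanSpace.norm_sq_eq]
  have e : ∀ j : Fin R, (cvec q K L R h).ofLp j = ∑ k ∈ range K, if h + k = j then q k else 0 := fun _ => rfl
  simp only [e]
  have e1 : ∀ j : Fin R, ‖∑ k ∈ range K, (if h + k = (j : ℕ) then q k else 0)‖ ^ 2 =
      ∑ k ∈ range K, if h + k = (j : ℕ) then ‖q k‖ ^ 2 else 0 := by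
    intro j
    by_cases hj : ∃ k ∈ range K, h + k = (j : ℕ)
    · obtain ⟨k, hk, hkj⟩ := hj
      rw [sum_eq_single k, sum_eq_single k, if_pos hkj, if_pos hkj]
      · intro k' _ hne
        rw [if_neg (by omega)]
      · intro hn; exact absurd hk hn
      · intro k' _ hne
        rw [if_neg (by omega)]
      · intro hn; exact absurd hk hn
    · push Not at hj
      rw [sum_eq_zero fun k hk => if_neg (hj k hk), sum_eq_zero fun k hk => if_neg (hj k hk)]
      simp
  simp only [e1]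
  rw [sum_comm]
  refine sum_congr rfl fun k hk => ?_
  rw [mem_range] at hk
  rw [sum_eq_single (⟨h + k, by omega⟩ : Fin R)]
  · simp
  · intro j _ hj
    rw [if_neg]
    intro hjk
    exact hj (Fin.ext hjk.symm)
  · intro hn
    exact absurd (mem_univ _) hn

variable {X : Type*} [NormedAddCommGroup X] [NormedSpace ℂ X]

/-- the windows of a combination -/
lemma conv_window (T : X →L[ℂ] X) (hT : ‖T‖ ≤ 1) (x : X) (q : ℕ → ℂ) (K L : ℕ) (v : ℕ → ℂ) :
    ‖∑ h ∈ range L, v h • ∑ k ∈ range K, q k • (T^[h + k]) x‖ ≤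
      ‖x‖ * Real.sqrt (L + K : ℕ) * ‖∑ h ∈ range L, v h • cvec q K L (L + K) h‖ := by
  set w : EuclideanSpace ℂ (Fin (L + K)) := ∑ h ∈ range L, v h • cvec q K L (L + K) h with hw
  have hwj : ∀ j : Fin (L + K), w.ofLp j = ∑ h ∈ range L, v h * ∑ k ∈ range K, if h + k = j then q k else 0 := by
    intro j
    rw [hw]
    have e : (∑ h ∈ range L, v h • cvec q K L (L + K) h).ofLp j =
        ∑ h ∈ range L, (v h • cvec q K L (L + K) h).ofLp j := by
      rw [WithLp.ofLp_sum]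
      exact Finset.sum_apply _ _ _
    rw [e]
    rfl
  have e1 : ∑ h ∈ range L, v h • ∑ k ∈ range K, q k • (T^[h + k]) x =
      ∑ j : Fin (L + K), w.ofLp j • (T^[(j : ℕ)]) x := by
    have h1 : ∀ h ∈ range L, v h • ∑ k ∈ range K, q k • (T^[h + k]) x =
        ∑ j : Fin (L + K), (v h * ∑ k ∈ range K, if h + k = (j : ℕ) then q k else 0) • (T^[(j : ℕ)]) x := by
      intro h hh
      rw [mem_range] at hh
      have h2 : ∑ k ∈ range K, q k • (T^[h + k]) x =
          ∑ j : Fin (L + K), (∑ k ∈ range K, if h + k = (j : ℕ) then q k else 0) • (T^[(j : ℕ)]) x := by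
        simp only [sum_smul]
        rw [sum_comm]
        refine sum_congr rfl fun k hk => ?_
        rw [mem_range] at hk
        rw [sum_eq_single (⟨h + k, by omega⟩ : Fin (L + K))]
        · simp
        · intro j _ hj
          rw [if_neg, zero_smul]
          intro hjk
          exact hj (Fin.ext hjk.symm)
        · intro hn
          exact absurd (mem_univ _) hn
      rw [h2, smul_sum]
      exact sum_congr rfl fun j _ => by rw [smul_smul]
    rw [sum_congr rfl h1, sum_comm]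
    refine sum_congr rfl fun j _ => ?_
    rw [← sum_smul, hwj]
  rw [e1]
  have h1 : ‖∑ j : Fin (L + K), w.ofLp j • (T^[(j : ℕ)]) x‖ ≤ ∑ j : Fin (L + K), ‖w.ofLp j‖ * ‖x‖ := by
    refine (norm_sum_le _ _).trans (sum_le_sum fun j _ => ?_)
    rw [norm_smul]
    exact mul_le_mul_of_nonneg_left (iter_le hT _ _) (norm_nonneg _)
  have h2 := Finset.sum_mul_sq_le_sq_mul_sq (univ : Finset (Fin (L + K))) (fun j => ‖w.ofLp j‖) (fun _ => 1)
  simp only [mul_one, one_pow, sum_const, card_univ, Fintype.card_fin, nsmul_eq_mul] at h2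
  rw [← EuclideanSpace.norm_sq_eq] at h2
  have h3 : ∑ j : Fin (L + K), ‖w.ofLp j‖ ≤ ‖w‖ * Real.sqrt (L + K : ℕ) := by
    have h4 : (∑ j : Fin (L + K), ‖w.ofLp j‖) ^ 2 ≤ (‖w‖ * Real.sqrt (L + K : ℕ)) ^ 2 := by
      rw [mul_pow, Real.sq_sqrt (Nat.cast_nonneg _)]
      exact h2
    exact (abs_le_of_sq_le_sq' h4 (by positivity)).2
  calc ‖∑ j : Fin (L + K), w.ofLp j • (T^[(j : ℕ)]) x‖ ≤ ∑ j : Fin (L + K), ‖w.ofLp j‖ * ‖x‖ := h1
    _ = (∑ j : Fin (L + K), ‖w.ofLp j‖) * ‖x‖ := by rw [sum_mul]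
    _ ≤ (‖w‖ * Real.sqrt (L + K : ℕ)) * ‖x‖ := mul_le_mul_of_nonneg_right h3 (norm_nonneg _)
    _ = _ := by ring

/-- **approximate relations with small windows give slowness** -/
theorem slow_core (T : X →L[ℂ] X) (hT : ‖T‖ ≤ 1) (x : X)
    (h : ∀ ε : ℝ, 0 < ε → ∃ m : ℕ, ∃ y ∈ Rel T x (ε ^ 2) m, ∃ n : ℕ, 1 ≤ n ∧ ∀ (l : ℕ) (v : ℕ → ℂ),
      (∀ h, ‖v h‖ ≤ 1) → ‖∑ h ∈ range (l * n), v h • (T^[h]) y‖ ≤ ε * (l * n : ℕ)) : Slow T x := by
  intro η hη
  obtain ⟨m, y, ⟨K, q, hq, hy⟩, n, hn, hav⟩ := h (min (η / (2 * (‖x‖ + 1))) (η / 2)) (by positivity)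
  set ε := min (η / (2 * (‖x‖ + 1))) (η / 2) with hε
  have hε0 : 0 < ε := by positivity
  have hn0 : (0 : ℝ) < n := by exact_mod_cast hn
  -- the number of blocks
  obtain ⟨l, hl⟩ : ∃ l : ℕ, 2 * (m * ‖x‖) / η + K + 1 ≤ l := exists_nat_ge _
  obtain ⟨L, hL⟩ : ∃ L : ℕ, L = l * n := ⟨_, rfl⟩
  have hl1 : (1 : ℝ) ≤ l := by
    have : 0 ≤ 2 * (m * ‖x‖) / η := by positivity
    have h2 : (0 : ℝ) ≤ K := Nat.cast_nonneg _
    linarith
  have hLl : (l : ℝ) ≤ L := by
    rw [hL]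
    push_cast
    have : (1 : ℝ) ≤ n := by exact_mod_cast hn
    nlinarith
  have hKL : (K : ℝ) ≤ L := by
    have : 0 ≤ 2 * (m * ‖x‖) / η := by positivity
    linarith
  have hmL : (m : ℝ) * ‖x‖ ≤ η / 2 * L := by
    have h1 : 2 * (m * ‖x‖) / η ≤ L := by
      have h2 : (0 : ℝ) ≤ K := Nat.cast_nonneg _
      linarith
    rw [div_le_iff₀ hη] at h1
    linarith
  have hL0 : (0 : ℝ) < L := by linarith
  have hL1 : 1 ≤ L := by exact_mod_cast hL0
  refine ⟨m + L, by omega, EuclideanSpace ℂ (Fin (L + K)), inferInstance, inferInstance,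
    fun h => if m ≤ h then ((‖x‖ * Real.sqrt (L + K : ℕ) : ℝ) : ℂ) • cvec q K L (L + K) (h - m) else 0,
    ?_, ?_⟩
  · -- the sum of the squares
    rw [sum_range_add]
    have e1 : ∑ h ∈ range m, ‖(if m ≤ h then ((‖x‖ * Real.sqrt (L + K : ℕ) : ℝ) : ℂ) •
        cvec q K L (L + K) (h - m) else 0)‖ ^ 2 = 0 := by
      refine sum_eq_zero fun h hh => ?_
      rw [mem_range] at hh
      rw [if_neg (by omega)]
      simp
    have e2 : ∀ h ∈ range L, ‖(if m ≤ m + h then ((‖x‖ * Real.sqrt (L + K : ℕ) : ℝ) : ℂ) •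
        cvec q K L (L + K) (m + h - m) else 0)‖ ^ 2 ≤ ‖x‖ ^ 2 * (L + K : ℕ) * ε ^ 2 := by
      intro h hh
      rw [mem_range] at hh
      rw [if_pos (by omega), Nat.add_sub_cancel_left, norm_smul, mul_pow, Complex.norm_real,
        Real.norm_of_nonneg (by positivity), mul_pow, Real.sq_sqrt (Nat.cast_nonneg _),
        cvec_sq q K L (L + K) h hh le_rfl]
      gcongr
    rw [e1, zero_add]
    refine (sum_le_sum e2).trans ?_
    rw [sum_const, card_range, nsmul_eq_mul]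
    push_cast
    have h1 : ‖x‖ * ε ≤ η / 2 := by
      calc ‖x‖ * ε ≤ (‖x‖ + 1) * (η / (2 * (‖x‖ + 1))) := by
            apply mul_le_mul (by linarith) (min_le_left _ _) (by positivity) (by positivity)
        _ = η / 2 := by field_simp
    have h2 : (‖x‖ * ε) ^ 2 ≤ (η / 2) ^ 2 := pow_le_pow_left₀ (by positivity) h1 2
    calc (L : ℝ) * (‖x‖ ^ 2 * (L + K) * ε ^ 2) = (‖x‖ * ε) ^ 2 * (L * (L + K)) := by ring
      _ ≤ (η / 2) ^ 2 * (L * (L + L)) := by gcongr
      _ ≤ (η * L) ^ 2 := by nlinarith [sq_nonneg (η * L)]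
      _ ≤ (η * (m + L)) ^ 2 := by
          have : (0 : ℝ) ≤ m := Nat.cast_nonneg _
          gcongr
          linarith
  · -- the windows
    intro v hv
    rw [sum_range_add, sum_range_add]
    have e1 : ∑ h ∈ range m, v h • (if m ≤ h then ((‖x‖ * Real.sqrt (L + K : ℕ) : ℝ) : ℂ) •
        cvec q K L (L + K) (h - m) else 0) = 0 := by
      refine sum_eq_zero fun h hh => ?_
      rw [mem_range] at hh
      rw [if_neg (by omega), smul_zero]
    have e2 : ∑ h ∈ range L, v (m + h) • (if m ≤ m + h then ((‖x‖ * Real.sqrt (L + K : ℕ) : ℝ) : ℂ) •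
        cvec q K L (L + K) (m + h - m) else 0) =
        ((‖x‖ * Real.sqrt (L + K : ℕ) : ℝ) : ℂ) • ∑ h ∈ range L, v (m + h) • cvec q K L (L + K) h := by
      rw [smul_sum]
      refine sum_congr rfl fun h hh => ?_
      rw [if_pos (by omega), Nat.add_sub_cancel_left, smul_comm]
    rw [e1, zero_add, e2, norm_smul, Complex.norm_real, Real.norm_of_nonneg (by positivity)]
    have h1 : ‖∑ h ∈ range m, v h • (T^[h]) x‖ ≤ m * ‖x‖ := by
      refine (norm_sum_le _ _).trans ?_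
      calc ∑ h ∈ range m, ‖v h • (T^[h]) x‖ ≤ ∑ h ∈ range m, ‖x‖ := by
            refine sum_le_sum fun h _ => ?_
            rw [norm_smul]
            calc ‖v h‖ * ‖(T^[h]) x‖ ≤ 1 * ‖x‖ := mul_le_mul (hv h) (iter_le hT h x) (norm_nonneg _) zero_le_one
              _ = ‖x‖ := one_mul _
        _ = m * ‖x‖ := by rw [sum_const, card_range, nsmul_eq_mul]
    have h2 : ∑ h ∈ range L, v (m + h) • (T^[m + h]) x = ∑ h ∈ range L, v (m + h) • (T^[h]) y +
        ∑ h ∈ range L, v (m + h) • ∑ k ∈ range K, q k • (T^[h + k]) x := by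
      rw [← sum_add_distrib]
      refine sum_congr rfl fun h _ => ?_
      rw [← smul_add]
      congr 1
      rw [hy, iter_sub, iter_sum, add_comm m h, Function.iterate_add_apply]
      have e3 : ∑ k ∈ range K, q k • (T^[h + k]) x = ∑ k ∈ range K, q k • (T^[h]) ((T^[k]) x) :=
        sum_congr rfl fun k _ => by rw [Function.iterate_add_apply]
      rw [e3, sub_add_cancel]
    have h3 : ‖∑ h ∈ range L, v (m + h) • (T^[h]) y‖ ≤ η / 2 * L := by
      rw [hL]
      refine (hav l (fun h => v (m + h)) (fun h => hv _)).trans ?_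
      have : ε ≤ η / 2 := min_le_right _ _
      gcongr
    have h4 := conv_window T hT x q K L (fun h => v (m + h))
    rw [h2]
    have h5 := norm_add_le (∑ h ∈ range m, v h • (T^[h]) x) (∑ h ∈ range L, v (m + h) • (T^[h]) y +
        ∑ h ∈ range L, v (m + h) • ∑ k ∈ range K, q k • (T^[h + k]) x)
    have h6 := norm_add_le (∑ h ∈ range L, v (m + h) • (T^[h]) y)
        (∑ h ∈ range L, v (m + h) • ∑ k ∈ range K, q k • (T^[h + k]) x)
    have h7 : η * ((m + L : ℕ) : ℝ) ≥ η / 2 * L + η / 2 * L := by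
      push_cast
      have : (0 : ℝ) ≤ m := Nat.cast_nonneg _
      nlinarith
    linarith

/-- approximate relations of small norm -/
theorem slow_of_norm (T : X →L[ℂ] X) (hT : ‖T‖ ≤ 1) (x : X)
    (h : ∀ ε : ℝ, 0 < ε → ∃ m : ℕ, ∃ y ∈ Rel T x (ε ^ 2) m, ‖y‖ ≤ ε) : Slow T x := by
  refine slow_core T hT x fun ε hε => ?_
  obtain ⟨m, y, hy, hyε⟩ := h ε hε
  refine ⟨m, y, hy, 1, le_rfl, fun l v hv => ?_⟩
  refine (norm_sum_le _ _).trans ?_
  calc ∑ h ∈ range (l * 1), ‖v h • (T^[h]) y‖ ≤ ∑ h ∈ range (l * 1), ε := by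
        refine sum_le_sum fun h _ => ?_
        rw [norm_smul]
        calc ‖v h‖ * ‖(T^[h]) y‖ ≤ 1 * ‖y‖ := mul_le_mul (hv h) (iter_le hT h y) (norm_nonneg _) zero_le_one
          _ ≤ ε := by rw [one_mul]; exact hyε
    _ = _ := by rw [sum_const, card_range, nsmul_eq_mul]; ring

section slow

variable {A : Type*} [NonUnitalCStarAlgebra A] [PartialOrder A] [StarOrderedRing A]

/-- **approximate relations which are small in the mean give slowness** -/
theorem slow_of_rel (α : A →⋆ₙₐ[ℂ] A) (x : A)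
    (h : ∀ ε : ℝ, 0 < ε → ∃ m : ℕ, ∃ y ∈ Rel (lin α) x ε m, ∃ n : ℕ, 1 ≤ n ∧
      ‖Av (lin α) n (star y * y)‖ ≤ ε * n) : Slow (lin α) x := by
  have hT := lin_le α
  refine slow_core (lin α) hT x fun ε hε => ?_
  obtain ⟨m, y, hy, n, hn, hav⟩ := h (ε ^ 2) (by positivity)
  refine ⟨m, y, hy, n, hn, fun l v hv => ?_⟩
  have h4 := window_sq v hv (fun h => ((lin α)^[h]) y) (l * n)
  have e4 : ∑ h ∈ range (l * n), star (((lin α)^[h]) y) * ((lin α)^[h]) y = Av (lin α) (l * n) (star y * y) := by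
    unfold Av
    refine sum_congr rfl fun h _ => ?_
    rw [lin_mul, lin_star]
  rw [e4] at h4
  have h5 : ‖Av (lin α) (l * n) (star y * y)‖ ≤ ε ^ 2 * (l * n : ℕ) := by
    refine (av_mul_le (lin α) hT l n _).trans ?_
    calc (l : ℝ) * ‖Av (lin α) n (star y * y)‖ ≤ l * (ε ^ 2 * n) :=
          mul_le_mul_of_nonneg_left hav (by positivity)
      _ = _ := by push_cast; ring
  have h6 : ‖∑ h ∈ range (l * n), v h • ((lin α)^[h]) y‖ ^ 2 ≤ (ε * (l * n : ℕ)) ^ 2 := by
    calc _ ≤ ((l * n : ℕ) : ℝ) * ‖Av (lin α) (l * n) (star y * y)‖ := h4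
      _ ≤ ((l * n : ℕ) : ℝ) * (ε ^ 2 * (l * n : ℕ)) := mul_le_mul_of_nonneg_left h5 (by positivity)
      _ = _ := by ring
  exact (abs_le_of_sq_le_sq' h6 (by positivity)).2

end slow

end Pool.Agent.Y326
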