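import Pool.Agent.Y326.Sing2

/-!
# Elements of C*-algebras with singular spectrum: from the invariant states to the norm
-/

set_option autoImplicit false

namespace Pool.Agent.Y326

open Finset Filter

/-- invariant states -/
def InvState {A : Type*} [NonUnitalCStarAlgebra A] (α : A →⋆ₙₐ[ℂ] A) (φ : A →L[ℂ] ℂ) : Prop :=
  ‖φ‖ = 1 ∧ (∀ a, 0 ≤ (φ (star a * a)).re ∧ (φ (star a * a)).im = 0) ∧ ∀ a, φ (α a) = φ a

section

variable {A : Type*} [NonUnitalCStarAlgebra A]

lemma av_cob (T : A →L[ℂ] A) (n : ℕ) (b : A) : Av T n b - T (Av T n b) = b - (T^[n]) b := by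
  induction n with
  | zero => simp [Av]
  | succ n ih =>
    have e : Av T (n + 1) b = Av T n b + (T^[n]) b := by
      unfold Av
      rw [sum_range_succ]
    rw [e, map_add, Function.iterate_succ_apply']
    have : Av T n b + (T^[n]) b - (T (Av T n b) + T ((T^[n]) b)) =
        (Av T n b - T (Av T n b)) + ((T^[n]) b - T ((T^[n]) b)) := by abel
    rw [this, ih]
    abel

lemma av_add (T : A →L[ℂ] A) (n : ℕ) (a b : A) : Av T n (a + b) = Av T n a + Av T n b := by
  unfold Av
  rw [← sum_add_distrib]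
  exact sum_congr rfl fun j _ => iter_add j a b

lemma av_sub (T : A →L[ℂ] A) (n : ℕ) (a b : A) : Av T n (a - b) = Av T n a - Av T n b := by
  unfold Av
  rw [← sum_sub_distrib]
  exact sum_congr rfl fun j _ => iter_sub j a b

lemma av_T (T : A →L[ℂ] A) (n : ℕ) (b : A) : Av T n (T b) = T (Av T n b) := by
  unfold Av
  rw [map_sum]
  refine sum_congr rfl fun j _ => ?_
  rw [← Function.iterate_succ_apply, Function.iterate_succ_apply']

end

variable {A : Type*} [NonUnitalCStarAlgebra A] [PartialOrder A] [StarOrderedRing A]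

/-- the cone -/
def Cone (α : A →⋆ₙₐ[ℂ] A) (x : A) (ε : ℝ) : Set A :=
  {g | ∃ (m : ℕ) (y w z s : A), y ∈ Rel (lin α) x ε m ∧ 0 ≤ z ∧ IsSelfAdjoint s ∧
    g = star y * y + (w - lin α w) + z + Complex.I • s}

lemma Cone.convex (α : A →⋆ₙₐ[ℂ] A) (x : A) (ε : ℝ) : Convex ℝ (Cone α x ε) := by
  rintro g₁ ⟨m₁, y₁, w₁, z₁, s₁, hy₁, hz₁, hs₁, rfl⟩ g₂ ⟨m₂, y₂, w₂, z₂, s₂, hy₂, hz₂, hs₂, rfl⟩ a b ha hb hab
  set T := lin α with hT
  set y₁' := (T^[m₂]) y₁ with hy₁'
  set y₂' := (T^[m₁]) y₂ with hy₂'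
  have h1 : y₁' ∈ Rel T x ε (m₁ + m₂) := Rel.shift hy₁ m₂
  have h2 : y₂' ∈ Rel T x ε (m₁ + m₂) := by
    rw [add_comm]
    exact Rel.shift hy₂ m₁
  have h3 : a • y₁' + b • y₂' ∈ Rel T x ε (m₁ + m₂) := Rel.convex T x ε _ h1 h2 ha hb hab
  have hb' : b = 1 - a := by linarith
  have h4 := conv_sq y₁' y₂' a ha (by linarith)
  rw [← hb'] at h4
  have h5 : star y₁ * y₁ = star y₁' * y₁' + (Av T m₂ (star y₁ * y₁) - T (Av T m₂ (star y₁ * y₁))) := by
    rw [av_cob, hy₁', hT, ← lin_star, ← lin_mul]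
    abel
  have h6 : star y₂ * y₂ = star y₂' * y₂' + (Av T m₁ (star y₂ * y₂) - T (Av T m₁ (star y₂ * y₂))) := by
    rw [av_cob, hy₂', hT, ← lin_star, ← lin_mul]
    abel
  set W₁ := Av T m₂ (star y₁ * y₁)
  set W₂ := Av T m₁ (star y₂ * y₂)
  set y := a • y₁' + b • y₂' with hy
  refine ⟨m₁ + m₂, y, a • (W₁ + w₁) + b • (W₂ + w₂),
    (a • (star y₁' * y₁') + b • (star y₂' * y₂') - star y * y) + (a • z₁ + b • z₂),
    a • s₁ + b • s₂, h3, ?_, ?_, ?_⟩
  · exact add_nonneg (sub_nonneg.2 h4) (add_nonneg (smul_nonneg ha hz₁) (smul_nonneg hb hz₂))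
  · rw [IsSelfAdjoint, star_add, star_smul, star_smul, hs₁.star_eq, hs₂.star_eq, star_trivial, star_trivial]
  · rw [h5, h6]
    have e1 : T (a • (W₁ + w₁) + b • (W₂ + w₂)) = a • (T W₁ + T w₁) + b • (T W₂ + T w₂) := by
      rw [map_add, T.map_smul_of_tower a, T.map_smul_of_tower b, map_add, map_add]
    have e2 : Complex.I • (a • s₁ + b • s₂) = a • (Complex.I • s₁) + b • (Complex.I • s₂) := by
      rw [smul_add, smul_comm Complex.I a, smul_comm Complex.I b]
    rw [e1, e2]
    module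

lemma nonneg_iter (α : A →⋆ₙₐ[ℂ] A) (n : ℕ) (z : A) (hz : 0 ≤ z) : 0 ≤ ((lin α)^[n]) z := by
  induction n with
  | zero => simpa using hz
  | succ n ih =>
    rw [Function.iterate_succ_apply']
    exact map_nonneg α ih

lemma Cone.norm (α : A →⋆ₙₐ[ℂ] A) (x : A) (ε : ℝ)
    (h : ∀ m : ℕ, ∀ y ∈ Rel (lin α) x ε m, ∀ n : ℕ, 1 ≤ n → ε * n < ‖Av (lin α) n (star y * y)‖)
    (g : A) (hg : g ∈ Cone α x ε) : ε ≤ ‖g‖ := by
  obtain ⟨m, y, w, z, s, hy, hz, hs, rfl⟩ := hg
  have hT := lin_le α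
  set T := lin α with hTd
  set g := star y * y + (w - T w) + z + Complex.I • s with hg
  set w' := (1 / 2 : ℂ) • (w + star w) with hw'
  have hR : (1 / 2 : ℂ) • (g + star g) = star y * y + (w' - T w') + z := by
    have e1 : star g = star y * y + (star w - T (star w)) + z - Complex.I • s := by
      rw [hg]
      simp only [star_add, star_mul, star_star, star_sub, star_smul]
      have h1 : star (T w) = T (star w) := (map_star α w).symm
      have h2 : star z = z := (IsSelfAdjoint.of_nonneg hz).star_eq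
      rw [h1, h2, hs.star_eq]
      have h3 : star Complex.I = - Complex.I := Complex.conj_I
      rw [h3, neg_smul]
      abel
    rw [e1, hg, hw', map_smul, map_add]
    module
  have hRn : ‖star y * y + (w' - T w') + z‖ ≤ ‖g‖ := by
    rw [← hR, norm_smul]
    have h1 : ‖(1 / 2 : ℂ)‖ = 1 / 2 := by simp
    rw [h1]
    have h2 := norm_add_le g (star g)
    rw [norm_star] at h2
    linarith
  have key : ∀ n : ℕ, 1 ≤ n → ε * n < n * ‖g‖ + 2 * ‖w'‖ := by
    intro n hn
    refine (h m y hy n hn).trans_le ?_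
    have e1 : Av T n (star y * y) + Av T n z = Av T n (star y * y + (w' - T w') + z) - (w' - (T^[n]) w') := by
      rw [av_add, av_add, av_sub, av_T, ← av_cob]
      abel
    have h1 : 0 ≤ Av T n (star y * y) := by
      unfold Av
      exact sum_nonneg fun j _ => nonneg_iter α j _ (star_mul_self_nonneg _)
    have h2 : 0 ≤ Av T n z := by
      unfold Av
      exact sum_nonneg fun j _ => nonneg_iter α j _ hz
    have h3 : Av T n (star y * y) ≤ Av T n (star y * y) + Av T n z := le_add_of_nonneg_right h2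
    have h4 := CStarAlgebra.norm_le_norm_of_nonneg_of_le h1 h3
    rw [e1] at h4
    refine h4.trans ((norm_sub_le _ _).trans ?_)
    have h5 := (av_le T hT n (star y * y + (w' - T w') + z)).trans
      (mul_le_mul_of_nonneg_left hRn (Nat.cast_nonneg n))
    have h6 := norm_sub_le w' ((T^[n]) w')
    have h7 := iter_le hT n w'
    linarith
  by_contra hcon
  push Not at hcon
  obtain ⟨n, hn⟩ := exists_nat_gt (2 * ‖w'‖ / (ε - ‖g‖))
  have h1 : (0 : ℝ) < ε - ‖g‖ := by linarith
  rw [div_lt_iff₀ h1] at hn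
  have hn1 : 1 ≤ n := by
    by_contra h0
    have : n = 0 := by omega
    subst this
    have : 0 ≤ 2 * ‖w'‖ := by positivity
    simp at hn
    linarith [norm_nonneg w']
  have := key n hn1
  linarith

/-- **from the invariant states to the norm** -/
theorem minimax (α : A →⋆ₙₐ[ℂ] A) (x : A) (ε : ℝ) (hε : 0 < ε)
    (h : ∀ φ : A →L[ℂ] ℂ, InvState α φ → ∀ δ : ℝ, 0 < δ →
      ∃ m : ℕ, ∃ y ∈ Rel (lin α) x ε m, (φ (star y * y)).re ≤ δ) :
    ∃ m : ℕ, ∃ y ∈ Rel (lin α) x ε m, ∃ n : ℕ, 1 ≤ n ∧ ‖Av (lin α) n (star y * y)‖ ≤ ε * n := by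
  by_contra hcon
  push Not at hcon
  have hG := Cone.norm α x ε hcon
  have hx : x ∈ Rel (lin α) x ε 0 := ⟨0, fun _ => 0, by simpa using hε.le, by simp⟩
  have hmem : ∀ (m : ℕ) (y : A), y ∈ Rel (lin α) x ε m → ∀ w z s : A, 0 ≤ z → IsSelfAdjoint s →
      star y * y + (w - lin α w) + z + Complex.I • s ∈ Cone α x ε :=
    fun m y hy w z s hz hs => ⟨m, y, w, z, s, hy, hz, hs, rfl⟩
  have hdisj : Disjoint (Metric.ball (0 : A) ε) (Cone α x ε) := by
    rw [Set.disjoint_left]
    intro g hg1 hg2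
    rw [mem_ball_zero_iff] at hg1
    exact absurd (hG g hg2) (by linarith)
  obtain ⟨f, u, hf1, hf2⟩ := RCLike.geometric_hahn_banach_open (𝕜 := ℂ) (convex_ball (0 : A) ε)
    Metric.isOpen_ball (Cone.convex α x ε) hdisj
  have hu : 0 < u := by
    have := hf1 0 (Metric.mem_ball_self hε)
    simpa using this
  set g₀ := star x * x with hg₀
  have hlow : ∀ w z s : A, 0 ≤ z → IsSelfAdjoint s →
      u ≤ (f g₀).re + (f (w - lin α w)).re + (f z).re - (f s).im := by
    intro w z s hz hs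
    have h1 := hf2 _ (hmem 0 x hx w z s hz hs)
    simp only [map_add, map_smul, smul_eq_mul] at h1
    simp only [RCLike.re_to_complex, Complex.add_re, Complex.mul_re, Complex.I_re, Complex.I_im,
      zero_mul, one_mul] at h1
    rw [hg₀]
    linarith
  have lin0 : ∀ c d : ℝ, (∀ t : ℝ, 0 ≤ t → u ≤ d + t * c) → 0 ≤ c := by
    intro c d hcd
    by_contra hc
    push Not at hc
    have h0 := hcd 0 le_rfl
    have h1 := hcd (d / (-c)) (by
      apply div_nonneg _ (by linarith)
      linarith)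
    have h2 : d / (-c) * c = -d := by
      rw [div_neg, neg_mul, div_mul_cancel₀ _ hc.ne]
    rw [h2] at h1
    linarith
  have hcob : ∀ w : A, f (w - lin α w) = 0 := by
    intro w
    have h1 := lin0 (- ‖f (w - lin α w)‖ ^ 2) (f g₀).re (by
      intro t ht
      have h2 := hlow ((-(t : ℂ) * star (f (w - lin α w))) • w) 0 0 le_rfl (by simp [IsSelfAdjoint])
      have e : (-(t : ℂ) * star (f (w - lin α w))) • w - lin α ((-(t : ℂ) * star (f (w - lin α w))) • w) =
          (-(t : ℂ) * star (f (w - lin α w))) • (w - lin α w) := by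
        rw [map_smul, smul_sub]
      rw [e, map_smul, smul_eq_mul, map_zero] at h2
      have e2 : (-(t : ℂ) * star (f (w - lin α w)) * f (w - lin α w)).re = - (t * ‖f (w - lin α w)‖ ^ 2) := by
        have e3 : star (f (w - lin α w)) * f (w - lin α w) = ((‖f (w - lin α w)‖ ^ 2 : ℝ) : ℂ) := by
          have := Complex.normSq_eq_conj_mul_self (z := f (w - lin α w))
          rw [Complex.normSq_eq_norm_sq] at this
          exact this.symm
        rw [mul_assoc, e3, neg_mul, ← Complex.ofReal_mul, ← Complex.ofReal_neg, Complex.ofReal_re]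
      rw [e2] at h2
      simp only [Complex.zero_re, Complex.zero_im, add_zero, sub_zero] at h2
      linarith)
    have h2 : ‖f (w - lin α w)‖ ^ 2 = 0 := le_antisymm (by linarith) (by positivity)
    exact norm_eq_zero.1 (pow_eq_zero_iff (two_ne_zero) |>.1 h2)
  have hpos : ∀ z : A, 0 ≤ z → 0 ≤ (f z).re := by
    intro z hz
    refine lin0 (f z).re (f g₀).re fun t ht => ?_
    have h2 := hlow 0 (t • z) 0 (smul_nonneg ht hz) (by simp [IsSelfAdjoint])
    rw [f.map_smul_of_tower t] at h2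
    simp at h2
    linarith
  have him : ∀ z : A, 0 ≤ z → (f z).im = 0 := by
    intro z hz
    have hsa : IsSelfAdjoint z := IsSelfAdjoint.of_nonneg hz
    have h1 : 0 ≤ (f z).im := by
      refine lin0 (f z).im (f g₀).re fun t ht => ?_
      have h2 := hlow 0 0 ((-t) • z) le_rfl (by
        rw [IsSelfAdjoint, star_smul, hsa.star_eq, star_trivial])
      rw [f.map_smul_of_tower (-t)] at h2
      simp at h2
      linarith
    have h3 : 0 ≤ -(f z).im := by
      refine lin0 (-(f z).im) (f g₀).re fun t ht => ?_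
      have h2 := hlow 0 0 (t • z) le_rfl (by
        rw [IsSelfAdjoint, star_smul, hsa.star_eq, star_trivial])
      rw [f.map_smul_of_tower t] at h2
      simp at h2
      linarith
    linarith
  have hf0 : 0 < ‖f‖ := by
    rw [norm_pos_iff]
    intro h0
    have := hlow 0 0 0 le_rfl (by simp [IsSelfAdjoint])
    rw [h0] at this
    simp at this
    linarith
  set φ : A →L[ℂ] ℂ := ((1 / ‖f‖ : ℝ) : ℂ) • f with hφ
  have hφe : ∀ a, φ a = ((1 / ‖f‖ : ℝ) : ℂ) * f a := fun a => rfl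
  have hinv : InvState α φ := by
    refine ⟨?_, fun a => ⟨?_, ?_⟩, fun a => ?_⟩
    · rw [hφ, norm_smul, Complex.norm_real, Real.norm_of_nonneg (by positivity)]
      field_simp
    · rw [hφe, Complex.re_ofReal_mul]
      exact mul_nonneg (by positivity) (hpos _ (star_mul_self_nonneg _))
    · rw [hφe, Complex.im_ofReal_mul, him _ (star_mul_self_nonneg _), mul_zero]
    · rw [hφe, hφe]
      have h1 := hcob a
      rw [map_sub, sub_eq_zero] at h1
      congr 1
      exact h1.symm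
  obtain ⟨m, y, hy, hyδ⟩ := h φ hinv (u / (2 * ‖f‖)) (by positivity)
  rw [hφe, Complex.re_ofReal_mul] at hyδ
  have h1 : u ≤ (f (star y * y)).re := by
    have h2 := hf2 _ (hmem m y hy 0 0 0 le_rfl (by simp [IsSelfAdjoint]))
    simpa using h2
  have h2 : (f (star y * y)).re ≤ u / 2 := by
    have h3 : (f (star y * y)).re = ‖f‖ * (1 / ‖f‖ * (f (star y * y)).re) := by field_simp
    rw [h3]
    calc ‖f‖ * (1 / ‖f‖ * (f (star y * y)).re) ≤ ‖f‖ * (u / (2 * ‖f‖)) :=
          mul_le_mul_of_nonneg_left hyδ hf0.le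
      _ = u / 2 := by field_simp
  linarith

/-- **slowness from the invariant states** -/
theorem slow_of_states (α : A →⋆ₙₐ[ℂ] A) (x : A)
    (h : ∀ φ : A →L[ℂ] ℂ, InvState α φ → ∀ ε : ℝ, 0 < ε →
      ∃ m : ℕ, ∃ y ∈ Rel (lin α) x ε m, (φ (star y * y)).re ≤ ε) : Slow (lin α) x := by
  refine slow_of_rel α x fun ε hε => minimax α x ε hε fun φ hφ δ hδ => ?_
  obtain ⟨m, y, ⟨K, q, hq, hy⟩, h1⟩ := h φ hφ (min ε δ) (by positivity)
  exact ⟨m, y, ⟨K, q, hq.trans (min_le_left _ _), hy⟩, h1.trans (min_le_right _ _)⟩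

end Pool.Agent.Y326
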