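import Pool.Agent.Y326.Sing3

/-!
# Elements of C*-algebras with singular spectral measures
-/

set_option autoImplicit false

namespace Pool.Agent.Y326

open Finset Filter MeasureTheory AddCircle

section measure

lemma L2_norm_sq {Ω : Type*} [MeasurableSpace Ω] (ν : Measure Ω) (F : Lp ℂ 2 ν) :
    ‖F‖ ^ 2 = ∫ t, ‖F t‖ ^ 2 ∂ν := by
  have h1 : (inner ℂ F F : ℂ) = ∫ t, inner ℂ (F t) (F t) ∂ν := L2.inner_def F F
  rw [inner_self_eq_norm_sq_to_K] at h1
  have h2 : ∫ t, (inner ℂ (F t) (F t) : ℂ) ∂ν = ∫ t, ((‖F t‖ ^ 2 : ℝ) : ℂ) ∂ν := by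
    refine integral_congr_ae (Eventually.of_forall fun t => ?_)
    simp only
    rw [inner_self_eq_norm_sq_to_K]
    push_cast
    rfl
  rw [h2, integral_complex_ofReal] at h1
  apply Complex.ofReal_injective
  rw [← h1]
  push_cast
  rfl

/-- trigonometric polynomials which are small for Lebesgue measure and close to one for a singular
measure -/
lemma poly_of_singular (σ : Measure UnitAddCircle) [IsFiniteMeasure σ]
    (h : σ ⟂ₘ (haarAddCircle : Measure UnitAddCircle)) (ε : ℝ) (hε : 0 < ε) :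
    ∃ (s : Finset ℤ) (p : ℤ → ℂ), ∑ k ∈ s, ‖p k‖ ^ 2 ≤ ε ∧
      ∫ t, ‖1 - ∑ k ∈ s, p k * fourier k t‖ ^ 2 ∂σ ≤ ε := by
  obtain ⟨A, hA, hA1, hA2⟩ := h
  set ν : Measure UnitAddCircle := σ + haarAddCircle with hν
  set f : UnitAddCircle → ℂ := Aᶜ.indicator (fun _ => (1 : ℂ)) with hf
  have hfm : MemLp f 2 ν := MemLp.indicator hA.compl (memLp_const 1)
  have hd := (ContinuousMap.toLp_denseRange ℂ ν ℂ (p := 2) (by norm_num)).topologicalClosure_map_submodule
    (span_fourier_closure_eq_top (T := 1))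
  have hF : hfm.toLp f ∈ closure ((Submodule.map (ContinuousMap.toLp (E := ℂ) 2 ν ℂ : C(UnitAddCircle, ℂ) →ₗ[ℂ] _)
      (Submodule.span ℂ (Set.range (@fourier 1))) : Submodule ℂ (Lp ℂ 2 ν)) : Set (Lp ℂ 2 ν)) := by
    have : hfm.toLp f ∈ (⊤ : Submodule ℂ (Lp ℂ 2 ν)) := Submodule.mem_top
    rw [← hd] at this
    exact this
  obtain ⟨G, hG, hdist⟩ := Metric.mem_closure_iff.1 hF (Real.sqrt ε) (Real.sqrt_pos.2 hε)
  obtain ⟨P, hP, rfl⟩ := hG
  have hP' : P ∈ Submodule.span ℂ (Set.range (@fourier 1)) := hP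
  rw [Finsupp.mem_span_range_iff_exists_finsupp] at hP'
  obtain ⟨p, hp⟩ := hP'
  have hPe : ∀ t, P t = ∑ k ∈ p.support, p k * fourier k t := by
    intro t
    rw [← hp, Finsupp.sum, ContinuousMap.coe_sum, Finset.sum_apply]
    rfl
  have h1 : ‖hfm.toLp f - ContinuousMap.toLp (E := ℂ) 2 ν ℂ P‖ ^ 2 ≤ ε := by
    rw [dist_eq_norm] at hdist
    have := pow_le_pow_left₀ (norm_nonneg _) hdist.le 2
    rw [Real.sq_sqrt hε.le] at this
    exact this
  have h2 : ∫ t, ‖f t - P t‖ ^ 2 ∂ν = ‖hfm.toLp f - ContinuousMap.toLp (E := ℂ) 2 ν ℂ P‖ ^ 2 := by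
    rw [L2_norm_sq]
    refine integral_congr_ae ?_
    filter_upwards [Lp.coeFn_sub (hfm.toLp f) (ContinuousMap.toLp (E := ℂ) 2 ν ℂ P), hfm.coeFn_toLp,
      ContinuousMap.coeFn_toLp (p := 2) (𝕜 := ℂ) ν P] with t ht1 ht2 ht3
    rw [ht1, Pi.sub_apply, ht2, ht3]
  have hbd : ∀ t, ‖f t - P t‖ ^ 2 ≤ (1 + ‖P‖) ^ 2 := by
    intro t
    refine pow_le_pow_left₀ (norm_nonneg _) ?_ 2
    refine (norm_sub_le _ _).trans (add_le_add ?_ (P.norm_coe_le_norm t))
    rw [hf]
    unfold Set.indicator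
    split_ifs <;> simp
  have hmeas : Measurable (fun t => ‖f t - P t‖ ^ 2) :=
    (((measurable_const.indicator hA.compl).sub P.continuous.measurable).norm).pow_const 2
  have hint : ∀ τ : Measure UnitAddCircle, IsFiniteMeasure τ → Integrable (fun t => ‖f t - P t‖ ^ 2) τ := by
    intro τ hτ
    refine Integrable.of_bound hmeas.aestronglyMeasurable ((1 + ‖P‖) ^ 2) (Eventually.of_forall fun t => ?_)
    rw [Real.norm_of_nonneg (by positivity)]
    exact hbd t
  have h3 : ∫ t, ‖f t - P t‖ ^ 2 ∂ν = ∫ t, ‖f t - P t‖ ^ 2 ∂σ + ∫ t, ‖f t - P t‖ ^ 2 ∂haarAddCircle :=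
    integral_add_measure (hint σ inferInstance) (hint haarAddCircle inferInstance)
  have h4 : ∫ t, ‖f t - P t‖ ^ 2 ∂σ = ∫ t, ‖1 - ∑ k ∈ p.support, p k * fourier k t‖ ^ 2 ∂σ := by
    refine integral_congr_ae ?_
    have h5 : ∀ᵐ t ∂σ, t ∉ A := by
      rw [ae_iff]
      simpa using hA1
    filter_upwards [h5] with t ht
    rw [hPe, hf, Set.indicator_of_mem (by exact ht)]
  have h5 : ∫ t, ‖f t - P t‖ ^ 2 ∂(haarAddCircle : Measure UnitAddCircle) =
      ∫ t, ‖P t‖ ^ 2 ∂(haarAddCircle : Measure UnitAddCircle) := by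
    refine integral_congr_ae ?_
    have h5 : ∀ᵐ t ∂(haarAddCircle : Measure UnitAddCircle), t ∈ A := by
      rw [ae_iff]
      exact hA2
    filter_upwards [h5] with t ht
    rw [hf, Set.indicator_of_notMem (by simpa using ht), zero_sub, norm_neg]
  have h6 : ∫ t, ‖P t‖ ^ 2 ∂(haarAddCircle : Measure UnitAddCircle) = ∑ k ∈ p.support, ‖p k‖ ^ 2 := by
    have e1 : ∫ t, ‖P t‖ ^ 2 ∂(haarAddCircle : Measure UnitAddCircle) =
        ‖ContinuousMap.toLp (E := ℂ) 2 (haarAddCircle : Measure UnitAddCircle) ℂ P‖ ^ 2 := by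
      rw [L2_norm_sq]
      refine integral_congr_ae ?_
      filter_upwards [ContinuousMap.coeFn_toLp (p := 2) (𝕜 := ℂ) (haarAddCircle : Measure UnitAddCircle) P] with t ht
      rw [ht]
    have e2 : ContinuousMap.toLp (E := ℂ) 2 (haarAddCircle : Measure UnitAddCircle) ℂ P =
        ∑ k ∈ p.support, p k • (fourierLp 2 k : Lp ℂ 2 (haarAddCircle : Measure UnitAddCircle)) := by
      rw [← hp, Finsupp.sum, map_sum]
      exact sum_congr rfl fun k _ => by rw [map_smul]
    rw [e1, e2]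
    have e3 := (orthonormal_fourier (T := 1)).inner_sum (fun k => p k) (fun k => p k) p.support
    rw [inner_self_eq_norm_sq_to_K] at e3
    have e4 : ∀ k, (starRingEnd ℂ) (p k) * p k = ((‖p k‖ ^ 2 : ℝ) : ℂ) := by
      intro k
      have := Complex.normSq_eq_conj_mul_self (z := p k)
      rw [Complex.normSq_eq_norm_sq] at this
      exact this.symm
    simp only [e4] at e3
    rw [← Complex.ofReal_sum] at e3
    apply Complex.ofReal_injective
    rw [← e3]
    push_cast
    rfl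
  have h7 : 0 ≤ ∫ t, ‖f t - P t‖ ^ 2 ∂σ := integral_nonneg fun t => by positivity
  have h8 : 0 ≤ ∑ k ∈ p.support, ‖p k‖ ^ 2 := sum_nonneg fun k _ => by positivity
  refine ⟨p.support, p, ?_, ?_⟩
  · rw [← h6, ← h5]
    linarith [h5, h6]
  · rw [← h4]
    linarith [h5, h6]

end measure

section states

variable {A : Type*} [NonUnitalCStarAlgebra A] {α : A →⋆ₙₐ[ℂ] A} {φ : A →L[ℂ] ℂ}

lemma InvState.symm (hφ : InvState α φ) (a b : A) : φ (star b * a) = star (φ (star a * b)) := by
  have h1 := (hφ.2.1 (a + b)).2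
  have h2 := (hφ.2.1 (a + Complex.I • b)).2
  have ha := (hφ.2.1 a).2
  have hb := (hφ.2.1 b).2
  have e1 : φ (star (a + b) * (a + b)) = φ (star a * a) + φ (star a * b) + φ (star b * a) + φ (star b * b) := by
    rw [star_add, add_mul, mul_add, mul_add, map_add, map_add, map_add]
    ring
  have e2 : φ (star (a + Complex.I • b) * (a + Complex.I • b)) = φ (star a * a) +
      Complex.I * φ (star a * b) - Complex.I * φ (star b * a) + φ (star b * b) := by
    have h3 : star (Complex.I • b) = -(Complex.I • star b) := by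
      rw [star_smul]
      have : star Complex.I = - Complex.I := Complex.conj_I
      rw [this, neg_smul]
    simp only [star_add, h3, add_mul, mul_add, neg_mul, smul_mul_assoc, mul_smul_comm, map_add, map_neg,
      map_smul, smul_eq_mul]
    linear_combination (-φ (star b * b)) * Complex.I_mul_I
  rw [e1] at h1
  rw [e2] at h2
  simp only [Complex.add_im, Complex.sub_im, Complex.mul_im, Complex.I_re, Complex.I_im, zero_mul, one_mul,
    zero_add] at h1 h2
  apply Complex.ext
  · show (φ (star b * a)).re = ((starRingEnd ℂ) (φ (star a * b))).re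
    rw [Complex.conj_re]
    linarith
  · show (φ (star b * a)).im = ((starRingEnd ℂ) (φ (star a * b))).im
    rw [Complex.conj_im]
    linarith

lemma InvState.iter (hφ : InvState α φ) (k : ℕ) (a : A) : φ (((lin α)^[k]) a) = φ a := by
  induction k with
  | zero => rfl
  | succ k ih =>
    rw [Function.iterate_succ_apply']
    exact (hφ.2.2 _).trans ih

/-- the spectral measure -/
def Spectral (α : A →⋆ₙₐ[ℂ] A) (φ : A →L[ℂ] ℂ) (x : A) (σ : Measure UnitAddCircle) : Prop :=
  ∀ n : ℕ, ∫ t, fourier (n : ℤ) t ∂σ = φ (star x * ((lin α)^[n]) x)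

lemma fourier_conj_mul (i j : ℤ) (t : UnitAddCircle) :
    (starRingEnd ℂ) (fourier i t : ℂ) * fourier j t = fourier (j - i) t := by
  rw [← fourier_neg, ← fourier_add]
  congr 1
  congr 1
  ring

lemma spectral_gram {x : A} {σ : Measure UnitAddCircle} (hφ : InvState α φ) (hσ : Spectral α φ x σ)
    (i j : ℕ) : φ (star (((lin α)^[i]) x) * ((lin α)^[j]) x) =
      ∫ t, (starRingEnd ℂ) (fourier (i : ℤ) t : ℂ) * fourier (j : ℤ) t ∂σ := by
  have key : ∀ i j : ℕ, i ≤ j → φ (star (((lin α)^[i]) x) * ((lin α)^[j]) x) =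
      ∫ t, (starRingEnd ℂ) (fourier (i : ℤ) t : ℂ) * fourier (j : ℤ) t ∂σ := by
    intro i j hij
    obtain ⟨d, rfl⟩ := Nat.exists_eq_add_of_le hij
    rw [← lin_star, Function.iterate_add_apply, ← lin_mul, hφ.iter, ← hσ d]
    refine integral_congr_ae (Eventually.of_forall fun t => ?_)
    simp only
    rw [fourier_conj_mul]
    congr 2
    push_cast
    ring
  rcases le_total i j with h | h
  · exact key i j h
  · rw [hφ.symm, key j i h]
    show (starRingEnd ℂ) _ = _
    rw [← integral_conj]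
    refine integral_congr_ae (Eventually.of_forall fun t => ?_)
    simp only [map_mul, Complex.conj_conj]
    ring

lemma spectral_sq {x : A} {σ : Measure UnitAddCircle} [IsFiniteMeasure σ] (hφ : InvState α φ)
    (hσ : Spectral α φ x σ) (K : ℕ) (c : ℕ → ℂ) :
    φ (star (∑ k ∈ range K, c k • ((lin α)^[k]) x) * ∑ k ∈ range K, c k • ((lin α)^[k]) x) =
      ((∫ t, ‖∑ k ∈ range K, c k * fourier (k : ℤ) t‖ ^ 2 ∂σ : ℝ) : ℂ) := by
  have h1 : φ (star (∑ k ∈ range K, c k • ((lin α)^[k]) x) * ∑ k ∈ range K, c k • ((lin α)^[k]) x) =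
      ∑ i ∈ range K, ∑ j ∈ range K, (star (c i) * c j) *
        ∫ t, (starRingEnd ℂ) (fourier (i : ℤ) t : ℂ) * fourier (j : ℤ) t ∂σ := by
    rw [star_sum, sum_mul, map_sum]
    refine sum_congr rfl fun i _ => ?_
    rw [mul_sum, map_sum]
    refine sum_congr rfl fun j _ => ?_
    rw [star_smul, smul_mul_smul_comm, map_smul, smul_eq_mul, spectral_gram hφ hσ]
  have hcont : ∀ i j : ℕ, Integrable (fun t : UnitAddCircle =>
      (starRingEnd ℂ) (fourier (i : ℤ) t : ℂ) * fourier (j : ℤ) t) σ := by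
    intro i j
    refine Integrable.of_bound (C := 1) ?_ (Eventually.of_forall fun t => ?_)
    · exact (((Complex.continuous_conj.comp (fourier (i : ℤ)).continuous).mul
        (fourier (j : ℤ)).continuous).measurable).aestronglyMeasurable
    · rw [norm_mul, RCLike.norm_conj]
      have h2 : ∀ n : ℤ, ‖(fourier n t : ℂ)‖ = 1 := fun n => by
        rw [fourier_apply]
        exact Circle.norm_coe _
      rw [h2, h2, one_mul]
  rw [h1, ← integral_complex_ofReal]
  have h2 : ∀ t : UnitAddCircle, ((‖∑ k ∈ range K, c k * fourier (k : ℤ) t‖ ^ 2 : ℝ) : ℂ) =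
      ∑ i ∈ range K, ∑ j ∈ range K, (star (c i) * c j) *
        ((starRingEnd ℂ) (fourier (i : ℤ) t : ℂ) * fourier (j : ℤ) t) := by
    intro t
    have h3 := Complex.normSq_eq_conj_mul_self (z := ∑ k ∈ range K, c k * (fourier (k : ℤ) t : ℂ))
    rw [Complex.normSq_eq_norm_sq] at h3
    rw [h3, map_sum, sum_mul]
    refine sum_congr rfl fun i _ => ?_
    rw [mul_sum]
    refine sum_congr rfl fun j _ => ?_
    rw [map_mul]
    show (starRingEnd ℂ) (c i) * _ * _ = (starRingEnd ℂ) (c i) * _ * _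
    ring
  simp only [h2]
  rw [integral_finsetSum _ fun i _ => integrable_finsetSum _ fun j _ => (hcont i j).const_mul _]
  refine sum_congr rfl fun i _ => ?_
  rw [integral_finsetSum _ fun j _ => (hcont i j).const_mul _]
  refine sum_congr rfl fun j _ => ?_
  rw [integral_const_mul]

/-- **singular spectral measures give approximate relations** -/
theorem rel_of_spectral {x : A} {σ : Measure UnitAddCircle} [IsFiniteMeasure σ] (hφ : InvState α φ)
    (hσ : Spectral α φ x σ) (hs : σ ⟂ₘ (haarAddCircle : Measure UnitAddCircle)) (ε : ℝ) (hε : 0 < ε) :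
    ∃ m : ℕ, ∃ y ∈ Rel (lin α) x ε m, (φ (star y * y)).re ≤ ε := by
  obtain ⟨s, p, hp1, hp2⟩ := poly_of_singular σ hs ε hε
  obtain ⟨m, hm⟩ : ∃ m : ℕ, ∀ k ∈ s, |k| ≤ m := by
    refine ⟨s.sup fun k => k.natAbs, fun k hk => ?_⟩
    have := Finset.le_sup (f := fun k : ℤ => k.natAbs) hk
    rw [Int.abs_eq_natAbs]
    exact_mod_cast this
  classical
  set q : ℕ → ℂ := fun k => if (k : ℤ) - m ∈ s then p ((k : ℤ) - m) else 0 with hq
  have reindex : ∀ {Y : Type} [AddCommMonoid Y] (F : ℤ → ℂ → Y), (∀ k, F k 0 = 0) →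
      ∑ k ∈ range (2 * m + 1), F k (q k) = ∑ k ∈ s, F (k + m) (p k) := by
    intro Y _ F hF
    symm
    apply sum_bij_ne_zero (fun (k : ℤ) _ _ => (k + (m : ℤ)).toNat)
    · intro k hk _
      have := hm k hk
      rw [abs_le] at this
      rw [mem_range]
      omega
    · intro k hk _ k' hk' _ h
      have h1 := hm k hk
      have h2 := hm k' hk'
      rw [abs_le] at h1 h2
      omega
    · intro k hk hne
      have h1 : (k : ℤ) - m ∈ s := by
        by_contra hn
        apply hne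
        rw [hq]
        simp only
        rw [if_neg hn, hF]
      have h2 : q k = p ((k : ℤ) - m) := if_pos h1
      refine ⟨(k : ℤ) - m, h1, ?_, ?_⟩
      · rw [sub_add_cancel, ← h2]
        exact hne
      · rw [sub_add_cancel, Int.toNat_natCast]
    · intro k hk _
      have h1 := hm k hk
      rw [abs_le] at h1
      have h2 : (((k + m).toNat : ℕ) : ℤ) = k + m := Int.toNat_of_nonneg (by omega)
      have h3 : q ((k + m).toNat) = p k := by
        rw [hq]
        simp only
        rw [h2, add_sub_cancel_right, if_pos hk]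
      rw [h3, h2]
  have hqs : ∑ k ∈ range (2 * m + 1), ‖q k‖ ^ 2 ≤ ε := by
    rw [reindex (fun _ c => ‖c‖ ^ 2) (by simp)]
    exact hp1
  set c : ℕ → ℂ := fun k => (if k = m then 1 else 0) - q k with hc
  have hy : (((lin α)^[m]) x - ∑ k ∈ range (2 * m + 1), q k • ((lin α)^[k]) x) =
      ∑ k ∈ range (2 * m + 1), c k • ((lin α)^[k]) x := by
    rw [hc]
    simp only [sub_smul, sum_sub_distrib, ite_smul, one_smul, zero_smul]
    rw [sum_ite_eq' (range (2 * m + 1)) m, if_pos (by rw [mem_range]; omega)]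
  refine ⟨m, _, ⟨2 * m + 1, q, hqs, rfl⟩, ?_⟩
  rw [hy, spectral_sq hφ hσ, Complex.ofReal_re]
  refine le_trans (le_of_eq ?_) hp2
  refine integral_congr_ae (Eventually.of_forall fun t => ?_)
  simp only
  have h1 : ∑ k ∈ range (2 * m + 1), c k * fourier (k : ℤ) t =
      fourier (m : ℤ) t * (1 - ∑ k ∈ s, p k * fourier k t) := by
    have h2 : ∑ k ∈ range (2 * m + 1), c k * fourier (k : ℤ) t =
        fourier (m : ℤ) t - ∑ k ∈ range (2 * m + 1), q k * fourier (k : ℤ) t := by
      rw [hc]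
      simp only [sub_mul, sum_sub_distrib, ite_mul, one_mul, zero_mul]
      rw [sum_ite_eq' (range (2 * m + 1)) m, if_pos (by rw [mem_range]; omega)]
    rw [h2, reindex (fun k c => c * fourier k t) (by simp), mul_sub, mul_one, mul_sum]
    congr 1
    refine sum_congr rfl fun k _ => ?_
    rw [fourier_add]
    ring
  rw [h1, norm_mul]
  have h3 : ‖(fourier (m : ℤ) t : ℂ)‖ = 1 := by
    rw [fourier_apply]
    exact Circle.norm_coe _
  rw [h3, one_mul]

/-- **singular spectral measures give slowness** -/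
theorem slow_of_singular [PartialOrder A] [StarOrderedRing A] (x : A)
    (h : ∀ φ : A →L[ℂ] ℂ, InvState α φ → ∃ σ : Measure UnitAddCircle, IsFiniteMeasure σ ∧
      Spectral α φ x σ ∧ σ ⟂ₘ (haarAddCircle : Measure UnitAddCircle)) : Slow (lin α) x := by
  refine slow_of_states α x fun φ hφ ε hε => ?_
  obtain ⟨σ, hσ1, hσ2, hσ3⟩ := h φ hφ
  exact rel_of_spectral hφ hσ2 hσ3 ε hε

end states

end Pool.Agent.Y326
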