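import Pool.Agent.Y326.Sing4
import Pool.Agent.TH327.Dim.CstH

/-!
# Elements whose Arveson spectrum is a null set
-/

set_option autoImplicit false

namespace Pool.Agent.Y326

open Finset Filter MeasureTheory AddCircle
open Pool.Agent.TH327.Thin (tri W tri_apply W_zero W_nonneg summable_W hasSum_W tri_eq_zero coeff_tri SpecIn orb
  norm_orb uspec)

lemma W_le_one (δ : ℝ) (h0 : 0 < δ) (n : ℤ) : W δ n ≤ 1 := by
  rw [← W_zero δ h0]
  unfold W
  apply intervalIntegral.integral_mono_on h0.le
  · exact Continuous.intervalIntegrable (by fun_prop) _ _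
  · exact Continuous.intervalIntegrable (by fun_prop) _ _
  · intro x hx
    have h1 : 0 ≤ (1 - x / δ) / δ := by
      apply div_nonneg _ h0.le
      rw [sub_nonneg, div_le_one h0]
      exact hx.2
    apply mul_le_mul_of_nonneg_right _ h1
    have h2 := Real.cos_le_one (2 * Real.pi * n * x)
    simp only [Int.cast_zero, mul_zero, zero_mul, Real.cos_zero]
    linarith

lemma norm_fou (n : ℤ) (t : UnitAddCircle) : ‖(fourier n t : ℂ)‖ = 1 := by
  rw [fourier_apply]
  exact Circle.norm_coe _

lemma wiener (K : Set UnitAddCircle) (hK : IsClosed K) (hK0 : (haarAddCircle : Measure UnitAddCircle) K = 0)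
    (ε : ℝ) (hε : 0 < ε) : ∃ p : ℤ → ℂ, Summable (fun n => ‖p n‖) ∧ (∀ s : Finset ℤ, ∑ n ∈ s, ‖p n‖ ^ 2 ≤ ε) ∧
      ∃ U : Set UnitAddCircle, IsOpen U ∧ K ⊆ U ∧ ∀ η ∈ U, ∑' n, p n * fourier n η = 1 := by
  obtain ⟨V, hKV, hVo, hV⟩ := Set.exists_isOpen_lt_of_lt (μ := (haarAddCircle : Measure UnitAddCircle)) K
    (ENNReal.ofReal ε) (by rw [hK0]; exact ENNReal.ofReal_pos.2 hε)
  obtain ⟨δ', hδ'0, hδ'⟩ := hK.isCompact.exists_thickening_subset_open hVo hKV
  set δ := min (δ' / 2) (1 / 2) with hδ
  have hδ0 : 0 < δ := by positivity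
  have hδ1 : δ ≤ 1 / 2 := min_le_right _ _
  have hδ2 : δ ≤ δ' / 2 := min_le_left _ _
  set μ : Measure UnitAddCircle := haarAddCircle with hμ
  set g : UnitAddCircle → ℂ := V.indicator (fun _ => (1 : ℂ)) with hg
  have hgm : MemLp g 2 μ := MemLp.indicator hVo.measurableSet (memLp_const 1)
  set c : ℤ → ℂ := fun n => fourierCoeff g n with hc
  -- Bessel
  have hbes : ∀ s : Finset ℤ, ∑ n ∈ s, ‖c n‖ ^ 2 ≤ ε := by
    intro s
    have h1 := hasSum_sq_fourierCoeff (hgm.toLp g)
    have h2 : ∀ n, fourierCoeff (hgm.toLp g) n = c n := fun n =>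
      congrFun (fourierCoeff_congr_ae hgm.coeFn_toLp) n
    simp only [h2] at h1
    have h3 := sum_le_hasSum s (fun n _ => by positivity) h1
    refine h3.trans ?_
    have h4 : ∫ t, ‖(hgm.toLp g : UnitAddCircle → ℂ) t‖ ^ 2 ∂μ = ∫ t, V.indicator (fun _ => (1 : ℝ)) t ∂μ := by
      refine integral_congr_ae ?_
      filter_upwards [hgm.coeFn_toLp] with t ht
      rw [ht, hg]
      unfold Set.indicator
      split_ifs <;> simp
    rw [h4, integral_indicator_const _ hVo.measurableSet, smul_eq_mul, mul_one]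
    have h5 : μ.real V = (μ V).toReal := rfl
    rw [h5]
    calc (μ V).toReal ≤ (ENNReal.ofReal ε).toReal := ENNReal.toReal_mono ENNReal.ofReal_ne_top hV.le
      _ = ε := ENNReal.toReal_ofReal hε.le
  have hc1 : ∀ n, ‖c n‖ ≤ 1 := by
    intro n
    rw [hc]
    simp only [fourierCoeff]
    refine (norm_integral_le_of_norm_le_const (C := 1) (Eventually.of_forall fun t => ?_)).trans ?_
    · rw [norm_smul, norm_fou, one_mul, hg]
      unfold Set.indicator
      split_ifs <;> simp
    · simp
  refine ⟨fun n => (W δ n : ℂ) * c n, ?_, ?_, ?_⟩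
  · refine Summable.of_nonneg_of_le (fun n => norm_nonneg _) (fun n => ?_) (summable_W δ hδ0)
    rw [norm_mul, Complex.norm_real, Real.norm_of_nonneg (W_nonneg δ hδ0 n)]
    exact mul_le_of_le_one_right (W_nonneg δ hδ0 n) (hc1 n)
  · intro s
    refine (sum_le_sum fun n _ => ?_).trans (hbes s)
    rw [norm_mul, Complex.norm_real, Real.norm_of_nonneg (W_nonneg δ hδ0 n), mul_pow]
    have h1 : W δ n ^ 2 ≤ 1 := pow_le_one₀ (W_nonneg δ hδ0 n) (W_le_one δ hδ0 n)
    exact mul_le_of_le_one_left (by positivity) h1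
  · refine ⟨Metric.thickening (δ' / 2) K, Metric.isOpen_thickening, Metric.self_subset_thickening (by positivity) K,
      fun η hη => ?_⟩
    set F : ℤ → UnitAddCircle → ℂ := fun n t => ((W δ n : ℂ) * fourier n (η - t)) * g t with hF
    have hgmeas : Measurable g := measurable_const.indicator hVo.measurableSet
    have hFint : ∀ n, Integrable (F n) μ := by
      intro n
      refine Integrable.of_bound (C := 1) ?_ (Eventually.of_forall fun t => ?_)
      · have : Continuous fun t : UnitAddCircle => (W δ n : ℂ) * fourier n (η - t) :=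
          continuous_const.mul ((fourier n).continuous.comp (continuous_const.sub continuous_id))
        exact (this.measurable.mul hgmeas).aestronglyMeasurable
      · rw [hF]
        simp only [norm_mul, norm_fou, mul_one, Complex.norm_real]
        rw [Real.norm_of_nonneg (W_nonneg δ hδ0 n)]
        have h1 : ‖g t‖ ≤ 1 := by
          rw [hg]
          unfold Set.indicator
          split_ifs <;> simp
        calc W δ n * ‖g t‖ ≤ 1 * 1 := mul_le_mul (W_le_one δ hδ0 n) h1 (norm_nonneg _) zero_le_one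
          _ = 1 := one_mul 1
    have hFn : ∀ n, ∫ t, ‖F n t‖ ∂μ ≤ W δ n := by
      intro n
      have h1 : ∀ t, ‖F n t‖ ≤ W δ n := by
        intro t
        rw [hF]
        simp only [norm_mul, norm_fou, mul_one, Complex.norm_real]
        rw [Real.norm_of_nonneg (W_nonneg δ hδ0 n)]
        apply mul_le_of_le_one_right (W_nonneg δ hδ0 n)
        rw [hg]
        unfold Set.indicator
        split_ifs <;> simp
      calc ∫ t, ‖F n t‖ ∂μ ≤ ∫ _t, W δ n ∂μ := integral_mono (hFint n).norm (integrable_const _) h1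
        _ = W δ n := by simp
    have hsum : Summable fun n => ∫ t, ‖F n t‖ ∂μ :=
      Summable.of_nonneg_of_le (fun n => integral_nonneg fun t => norm_nonneg _) hFn (summable_W δ hδ0)
    have h1 := hasSum_integral_of_summable_integral_norm hFint hsum
    have h2 : ∀ n, ∫ t, F n t ∂μ = (W δ n : ℂ) * c n * fourier n η := by
      intro n
      have e : ∀ t, F n t = ((W δ n : ℂ) * fourier n η) * (fourier (-n) t • g t) := by
        intro t
        rw [hF]
        simp only [smul_eq_mul]
        have : (fourier n (η - t) : ℂ) = fourier n η * fourier (-n) t := by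
          have h3 : (fourier (-n) t : ℂ) = fourier n (-t) := by
            rw [fourier_apply, fourier_apply, neg_smul, smul_neg]
          rw [h3, ← fourier_eval_add, sub_eq_add_neg]
        rw [this]
        ring
      simp only [e]
      rw [integral_const_mul]
      have : ∫ t, (fourier (-n) t : ℂ) • g t ∂μ = c n := rfl
      rw [this]
      ring
    simp only [h2] at h1
    rw [h1.tsum_eq]
    have h3 : ∀ t, ∑' n, F n t = tri δ (η - t) := by
      intro t
      have h4 := hasSum_W δ hδ0 hδ1 (η - t)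
      by_cases ht : t ∈ V
      · have : g t = 1 := Set.indicator_of_mem ht _
        rw [← h4.tsum_eq]
        refine tsum_congr fun n => ?_
        rw [hF]
        simp only
        rw [this, mul_one]
      · have h5 : g t = 0 := Set.indicator_of_notMem ht _
        have h6 : δ ≤ ‖η - t‖ := by
          by_contra hcon
          push Not at hcon
          apply ht
          apply hδ'
          rw [Metric.mem_thickening_iff] at hη ⊢
          obtain ⟨z, hz, hzη⟩ := hη
          refine ⟨z, hz, ?_⟩
          have h7 : dist t η < δ' / 2 := by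
            rw [dist_comm, dist_eq_norm]
            linarith
          calc dist t z ≤ dist t η + dist η z := dist_triangle _ _ _
            _ < δ' := by linarith
        rw [tri_eq_zero δ hδ0 _ h6]
        rw [hF]
        simp only [h5, mul_zero, tsum_zero]
    simp only [h3]
    rw [integral_sub_left_eq_self (fun t => tri δ t) μ η]
    have h5 := coeff_tri δ hδ0 hδ1 0
    rw [W_zero δ hδ0] at h5
    unfold fourierCoeff at h5
    simp only [neg_zero, fourier_zero, one_smul] at h5
    rw [h5]
    simp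
where
  fourier_eval_add {n : ℤ} {x y : UnitAddCircle} : (fourier n (x + y) : ℂ) = fourier n x * fourier n y := by
    rw [fourier_apply, fourier_apply, fourier_apply, smul_add, toCircle_add]
    push_cast
    rfl

/-- the relation of a sequence with small spectrum -/
lemma rel_of_spec {E : Type*} [NormedAddCommGroup E] [NormedSpace ℂ E] [CompleteSpace E] {a : ℤ → E} {B : ℝ}
    (ha : ∀ n, ‖a n‖ ≤ B) {K : Set UnitAddCircle} (hx : SpecIn K a) (p : ℤ → ℂ) (hp1 : Summable (fun n => ‖p n‖))
    (U : Set UnitAddCircle) (hU : IsOpen U) (hKU : K ⊆ U) (hp3 : ∀ η ∈ U, ∑' n, p n * fourier n η = 1) :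
    HasSum (fun n => p n • a n) (a 0) := by
  have hs2 : Summable fun n : ℤ => p n • a n := by
    refine Summable.of_norm_bounded (hp1.mul_right B) fun n => ?_
    rw [norm_smul]
    exact mul_le_mul_of_nonneg_left (ha n) (norm_nonneg _)
  set d : ℤ → ℂ := fun n => if n = 0 then 1 else 0 with hd
  have hd1 : ∀ n, n ≠ 0 → d n = 0 := fun n hn => if_neg hn
  have hd0 : d 0 = 1 := if_pos rfl
  have hds : Summable fun n : ℤ => ‖d n‖ := by
    refine summable_of_ne_finset_zero (s := {0}) fun n hn => ?_
    rw [hd1 n (by simpa using hn), norm_zero]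
  have hf : Summable fun n : ℤ => ‖d n - p n‖ :=
    Summable.of_nonneg_of_le (fun n => norm_nonneg _) (fun n => norm_sub_le _ _) (hds.add hp1)
  have hv : ∀ η ∈ U, ∑' n, (d n - p n) * fourier n η = 0 := by
    intro η hη
    have hs1 : HasSum (fun n : ℤ => d n * fourier n η) (d 0 * fourier 0 η) :=
      hasSum_single 0 fun n hn => by rw [hd1 n hn, zero_mul]
    have hs3 : Summable fun n : ℤ => p n * fourier n η := by
      refine Summable.of_norm ?_
      refine hp1.congr fun n => ?_
      rw [norm_mul, norm_fou, mul_one]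
    have h3 := hs1.sub hs3.hasSum
    rw [hp3 η hη, hd0, fourier_zero, one_mul, sub_self] at h3
    rw [← h3.tsum_eq]
    exact tsum_congr fun n => by rw [sub_mul]
  have h1 : ∑' n, (d n - p n) • a n = 0 := hx (fun n => d n - p n) hf ⟨U, hU, hKU, hv⟩
  have hs1 : HasSum (fun n : ℤ => d n • a n) (d 0 • a 0) :=
    hasSum_single 0 fun n hn => by rw [hd1 n hn, zero_smul]
  have h3 := hs1.sub hs2.hasSum
  have h4 : ∑' n, (d n - p n) • a n = d 0 • a 0 - ∑' n, p n • a n := by
    rw [← h3.tsum_eq]
    exact tsum_congr fun n => by rw [sub_smul]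
  rw [h4, hd0, one_smul] at h1
  rw [sub_eq_zero.1 h1]
  exact hs2.hasSum

section

variable {X : Type*} [NormedAddCommGroup X] [NormedSpace ℂ X]

lemma orbit_iter (T : X →L[ℂ] X) (a : ℤ → X) (h1 : ∀ n, a (n + 1) = T (a n)) (m : ℕ) (k : ℤ) :
    (T^[m]) (a k) = a (m + k) := by
  induction m with
  | zero => simp
  | succ m ih =>
    rw [Function.iterate_succ_apply', ih, ← h1]
    congr 1
    push_cast
    ring

lemma sum_shift_Icc {Y : Type*} [AddCommMonoid Y] (m : ℕ) (F : ℤ → Y) :
    ∑ k ∈ range (2 * m + 1), F ((k : ℤ) - m) = ∑ k ∈ Finset.Icc (-(m : ℤ)) m, F k := by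
  apply sum_bij (fun (k : ℕ) _ => (k : ℤ) - m)
  · intro k hk
    rw [mem_range] at hk
    rw [Finset.mem_Icc]
    omega
  · intro k _ k' _ h
    omega
  · intro k hk
    rw [Finset.mem_Icc] at hk
    exact ⟨(k + m).toNat, by rw [mem_range]; omega, by omega⟩
  · intro k _
    rfl

/-- **null spectrum gives slowness** -/
theorem slow_of_null [CompleteSpace X] (T : X →L[ℂ] X) (hT : ‖T‖ ≤ 1) (x : X) (K : Set UnitAddCircle)
    (hK : IsClosed K) (hK0 : (haarAddCircle : Measure UnitAddCircle) K = 0) (a : ℤ → X) (B : ℝ)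
    (hB : ∀ n, ‖a n‖ ≤ B) (h0 : a 0 = x) (h1 : ∀ n, a (n + 1) = T (a n)) (hx : SpecIn K a) : Slow T x := by
  refine slow_of_norm T hT x fun ε hε => ?_
  obtain ⟨p, hp1, hp2, U, hU, hKU, hp3⟩ := wiener K hK hK0 (ε ^ 2) (by positivity)
  -- the relation
  have hlim : HasSum (fun n => p n • a n) x := by
    have := rel_of_spec hB hx p hp1 U hU hKU hp3
    rwa [h0] at this
  -- truncation
  obtain ⟨s, hs⟩ := (Metric.tendsto_atTop.1 hlim) ε hε
  obtain ⟨m, hm⟩ : ∃ m : ℕ, ∀ k ∈ s, |k| ≤ m := by
    refine ⟨s.sup fun k => k.natAbs, fun k hk => ?_⟩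
    have := Finset.le_sup (f := fun k : ℤ => k.natAbs) hk
    rw [Int.abs_eq_natAbs]
    exact_mod_cast this
  have hs' := hs (Finset.Icc (-(m : ℤ)) m) (fun k hk => by
    have := abs_le.1 (hm k hk)
    exact Finset.mem_Icc.2 this)
  have hTi : ∀ n : ℕ, (T^[n]) x = a n := by
    intro n
    have := orbit_iter T a h1 n 0
    rwa [h0, add_zero] at this
  have h2 : (T^[m]) x - ∑ k ∈ range (2 * m + 1), p ((k : ℤ) - m) • (T^[k]) x =
      (T^[m]) (x - ∑ k ∈ Finset.Icc (-(m : ℤ)) m, p k • a k) := by
    rw [iter_sub, ← sum_shift_Icc m (fun k => p k • a k), iter_sum]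
    congr 1
    refine sum_congr rfl fun k _ => ?_
    rw [hTi, orbit_iter T a h1]
    congr 2
    ring
  refine ⟨m, (T^[m]) x - ∑ k ∈ range (2 * m + 1), p ((k : ℤ) - m) • (T^[k]) x,
    ⟨2 * m + 1, fun k => p ((k : ℤ) - m), ?_, rfl⟩, ?_⟩
  · have := sum_shift_Icc m (fun k => ‖p k‖ ^ 2)
    exact this.trans_le (hp2 _)
  · rw [h2]
    refine (iter_le hT m _).trans ?_
    rw [dist_comm, dist_eq_norm] at hs'
    exact hs'.le

end

end Pool.Agent.Y326
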