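import Pool.Agent.Y326.Slw1

/-!
# Entropy decrement with local variables which are constant on long blocks
-/

set_option autoImplicit false

namespace Pool.Agent.Y326.Slf

open Finset Filter
open Pool.Agent.TH112.BL Pool.Agent.TH928.BLJ
open Pool.Agent.W78.EC (ent cE rsf)
open Pool.Agent.W212.EC (ent_mono ent_congr submod ce WW ent_eq WW_pos)
open Pool.Agent.Y326.Slw (Rv Rv_eq yv E_ae E_unif)

/-! ## conditional entropy on a part -/

/-- the entropy of the parts -/
lemma ent_split {Ω A : Type} (s : Finset Ω) (w : Ω → ℝ) (Q : Ω → Prop) [DecidablePred Q] (F : Ω → A)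
    (hQ : ∀ a ∈ s, ∀ b ∈ s, F a = F b → (Q a ↔ Q b)) :
    ent s w F = ent (s.filter Q) w F + ent (s.filter fun a => ¬ Q a) w F := by
  classical
  rw [ent_eq, ent_eq, ent_eq]
  have h1 : ∀ ω ∈ s.filter Q, WW (s.filter Q) w F (F ω) = WW s w F (F ω) := by
    intro ω hω
    rw [mem_filter] at hω
    unfold WW
    rw [filter_filter]
    congr 1
    apply filter_congr
    intro b hb
    constructor
    · rintro ⟨_, h⟩; exact h
    · intro h
      exact ⟨(hQ b hb ω hω.1 h).2 hω.2, h⟩
  have h2 : ∀ ω ∈ s.filter (fun a => ¬ Q a), WW (s.filter fun a => ¬ Q a) w F (F ω) = WW s w F (F ω) := by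
    intro ω hω
    rw [mem_filter] at hω
    unfold WW
    rw [filter_filter]
    congr 1
    apply filter_congr
    intro b hb
    constructor
    · rintro ⟨_, h⟩; exact h
    · intro h
      exact ⟨fun hb' => hω.2 ((hQ b hb ω hω.1 h).1 hb'), h⟩
  have e1 : ∑ ω ∈ s.filter Q, w ω * Real.log (WW (s.filter Q) w F (F ω)) =
      ∑ ω ∈ s.filter Q, w ω * Real.log (WW s w F (F ω)) := sum_congr rfl fun ω hω => by rw [h1 ω hω]
  have e2 : ∑ ω ∈ s.filter (fun a => ¬ Q a), w ω * Real.log (WW (s.filter fun a => ¬ Q a) w F (F ω)) =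
      ∑ ω ∈ s.filter (fun a => ¬ Q a), w ω * Real.log (WW s w F (F ω)) :=
    sum_congr rfl fun ω hω => by rw [h2 ω hω]
  rw [e1, e2]
  have h3 := sum_filter_add_sum_filter_not s Q (fun ω => w ω * Real.log (WW s w F (F ω)))
  linarith

/-- conditional entropy of a variable which is determined off the event `Q` -/
lemma E_part (μ : LM) {B C : Type} (F : ℕ → B) (G : ℕ → C) (hF : FR F) (hG : FR G) (Q : ℕ → Prop)
    (hQ : ∀ a b, G a = G b → (Q a ↔ Q b)) (hdet : ∀ a b, ¬ Q a → G a = G b → F a = F b) (k : ℕ)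
    (hk : 1 ≤ k) (t : Finset B) (ht : t.card ≤ k) (hFt : ∀ n, F n ∈ t) :
    E μ (fun n => (F n, G n)) ≤ E μ G + μ.m (ind Q) * Real.log k := by
  classical
  obtain ⟨s, w, h1, h2, h3, h4⟩ := rep μ (fun n => (F n, G n)) (hF.pair hG)
  have hGe : ∀ n m, (F n, G n) = (F m, G m) → G n = G m := fun n m e => by
    simp only [Prod.mk.injEq] at e; exact e.2
  rw [h4 _ (fun n => (F n, G n)) (fun n m e => e), h4 _ G hGe]
  have hQm : μ.m (ind Q) = ∑ n ∈ s.filter Q, w n := by
    rw [h3 (ind Q) (fun n m e => by unfold ind; simp only [hQ n m (hGe n m e)]), sum_filter]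
    refine sum_congr rfl fun n _ => ?_
    unfold ind
    split_ifs <;> simp
  have s1 := ent_split s w Q (fun n => (F n, G n)) (fun a _ b _ e => hQ a b (hGe a b e))
  have s2 := ent_split s w Q G (fun a _ b _ e => hQ a b e)
  have hw1 : ∀ n ∈ s.filter Q, 0 ≤ w n := fun n hn => h1 n (mem_filter.1 hn).1
  have hw2 : ∀ n ∈ s.filter (fun a => ¬ Q a), 0 ≤ w n := fun n hn => h1 n (mem_filter.1 hn).1
  have h5 := (ce ℕ B C Unit (s.filter Q) w F G (fun _ => ()) hw1).2.2.2.2.2.1 k hk ⟨t, ht, fun n _ => hFt n⟩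
  unfold cE at h5
  have h6 : ent (s.filter fun a => ¬ Q a) w (fun n => (F n, G n)) = ent (s.filter fun a => ¬ Q a) w G := by
    apply ent_congr hw2
    intro a ha b hb
    rw [mem_filter] at ha hb
    simp only [Prod.mk.injEq]
    constructor
    · intro h; exact ⟨hdet _ _ (by first | exact ha.2 | exact hb.2) h, h⟩
    · rintro ⟨_, h⟩; exact h
  rw [s1, s2, h6, hQm]
  linarith

/-! ## local variables -/

/-- the local variables: the residue and a variable with `D` values which is constant on the blocks of length `M` -/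
structure LocB (μ : LM) (D M : ℕ) (s : ℕ → ℕ → ℕ) : Prop where
  hD : 1 ≤ D
  hM : 1 ≤ M
  lt : ∀ p n, s p n < D
  blk : ∀ p n m, n / M = m / M → s p n = s p m
  unif : ∀ P : Finset ℕ, (∀ p ∈ P, p.Prime ∧ p ≠ 2) → ∀ v : ℕ → ℕ, (∀ p ∈ P, v p < p * D) → ∀ t < M,
    μ.m (ind (fun n => n % M = t ∧ ∀ p ∈ P, D * (n % p) + s p n = v p)) = (1 / (M : ℝ)) * ∏ p ∈ P, (1 / ((p : ℝ) * D))

variable {μ : LM} {D M : ℕ} {s : ℕ → ℕ → ℕ}

lemma yv_lt (h : LocB μ D M s) {p : ℕ} (hp : 1 ≤ p) (n : ℕ) : yv D s p n < p * D := by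
  unfold yv
  have h1 := h.lt p n
  have h2 := Nat.mod_lt n hp
  calc D * (n % p) + s p n < D * (n % p) + D := by omega
    _ = (n % p + 1) * D := by ring
    _ ≤ p * D := Nat.mul_le_mul_right D h2

lemma yv_div (h : LocB μ D M s) (p n : ℕ) : yv D s p n / D = n % p := by
  unfold yv
  rw [Nat.mul_add_div h.hD, Nat.div_eq_of_lt (h.lt p n), add_zero]

lemma yv_mod (h : LocB μ D M s) (p n : ℕ) : yv D s p n % D = s p n := by
  unfold yv
  rw [Nat.mul_add_mod, Nat.mod_eq_of_lt (h.lt p n)]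

lemma yv_eq (h : LocB μ D M s) (p n m : ℕ) :
    yv D s p n = yv D s p m ↔ n % p = m % p ∧ s p n = s p m := by
  constructor
  · intro e
    rw [← yv_div h p n, ← yv_div h p m, ← yv_mod h p n, ← yv_mod h p m, e]
    exact ⟨rfl, rfl⟩
  · rintro ⟨e1, e2⟩
    unfold yv
    rw [e1, e2]

lemma FR_Rv (h : LocB μ D M s) (P : Finset ℕ) (hP : ∀ p ∈ P, 1 ≤ p) : FR (Rv (yv D s) P) := by
  classical
  set B : ℕ := ∑ p ∈ P, p * D + 1 with hB
  have h1 : ∀ p ∈ P, p * D ≤ B := fun p hp => by
    have := single_le_sum (f := fun p => p * D) (fun _ _ => Nat.zero_le _) hp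
    omega
  refine (Set.finite_range (fun g : ({p // p ∈ P} → Fin B) => fun p : ℕ => if hp : p ∈ P then (g ⟨p, hp⟩ : ℕ) else 0)).subset ?_
  rintro _ ⟨n, rfl⟩
  refine ⟨fun p => ⟨yv D s p n, lt_of_lt_of_le (yv_lt h (hP p p.2) n) (h1 p p.2)⟩, ?_⟩
  funext p
  unfold Rv
  beta_reduce
  split_ifs <;> rfl

/-- the clock -/
def clk (M n : ℕ) : ℕ := n % M

lemma FR_clk (h : LocB μ D M s) : FR (clk M) := by
  refine (Set.finite_Iio M).subset ?_
  rintro _ ⟨n, rfl⟩
  exact Nat.mod_lt n h.hM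

/-- the clock and the local variables -/
def Rc (D M : ℕ) (s : ℕ → ℕ → ℕ) (P : Finset ℕ) (n : ℕ) : ℕ × (ℕ → ℕ) := (clk M n, Rv (yv D s) P n)

lemma FR_Rc (h : LocB μ D M s) (P : Finset ℕ) (hP : ∀ p ∈ P, 1 ≤ p) : FR (Rc D M s P) :=
  (FR_clk h).pair (FR_Rv h P hP)

lemma Rc_eq (P : Finset ℕ) (n m : ℕ) :
    Rc D M s P n = Rc D M s P m ↔ n % M = m % M ∧ ∀ p ∈ P, yv D s p n = yv D s p m := by
  unfold Rc clk
  rw [Prod.mk.injEq, Rv_eq]

/-- the entropy of the clock and the local variables -/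
lemma E_Rc (h : LocB μ D M s) (P : Finset ℕ) (hP : ∀ p ∈ P, p.Prime ∧ p ≠ 2) :
    E μ (Rc D M s P) = Real.log M + ∑ p ∈ P, Real.log ((p * D : ℕ) : ℝ) := by
  have hM0 : (0 : ℝ) < M := by exact_mod_cast h.hM
  have hpos : ∀ p ∈ P, (0 : ℝ) < (p : ℝ) * D := fun p hp => by
    have h1 : (0 : ℝ) < p := by exact_mod_cast (hP p hp).1.pos
    have h2 : (0 : ℝ) < D := by exact_mod_cast h.hD
    positivity
  rw [E_unif μ (Rc D M s P) (FR_Rc h P fun p hp => (hP p hp).1.pos) ((M : ℝ) * ∏ p ∈ P, ((p : ℝ) * D))]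
  · rw [Real.log_mul hM0.ne' (prod_pos hpos).ne', Real.log_prod fun p hp => (hpos p hp).ne']
    congr 1
    refine sum_congr rfl fun p _ => ?_
    push_cast
    rfl
  · intro n
    have h1 := h.unif P hP (fun p => yv D s p n) (fun p hp => yv_lt h (hP p hp).1.pos n) (n % M) (Nat.mod_lt n h.hM)
    have e : ind (fun k => Rc D M s P k = Rc D M s P n) =
        ind (fun k => k % M = n % M ∧ ∀ p ∈ P, D * (k % p) + s p k = yv D s p n) := by
      apply ind_congr
      intro k
      rw [Rc_eq]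
      rfl
    rw [e, h1, prod_div_distrib, prod_const_one]
    ring

lemma clk_mean (h : LocB μ D M s) (t : ℕ) (ht : t < M) : μ.m (ind (fun n => n % M = t)) = 1 / M := by
  have h1 := h.unif ∅ (by simp) (fun _ => 0) (by simp) t ht
  rw [prod_empty, mul_one] at h1
  rw [← h1]
  congr 1
  apply ind_congr
  intro n
  simp

/-- the end of a block is close with small probability -/
lemma end_mean (h : LocB μ D M s) (W : ℕ) : μ.m (ind (fun n => M ≤ n % M + W)) ≤ W / M := by
  classical
  have hM0 : (0 : ℝ) < M := by exact_mod_cast h.hM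
  have hle : ∀ n, ind (fun n => M ≤ n % M + W) n ≤ ∑ t ∈ (range M).filter (fun t => M ≤ t + W), ind (fun n => n % M = t) n := by
    intro n
    by_cases hn : M ≤ n % M + W
    · have h1 : (n % M) ∈ (range M).filter (fun t => M ≤ t + W) := by
        rw [mem_filter, mem_range]
        exact ⟨Nat.mod_lt n h.hM, hn⟩
      have h2 := single_le_sum (f := fun t => ind (fun n => n % M = t) n) (fun t _ => ind_nonneg _ n) h1
      refine le_trans ?_ h2
      show ind (fun n => M ≤ n % M + W) n ≤ ind (fun m => m % M = n % M) n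
      unfold ind
      rw [if_pos rfl]
      split_ifs <;> norm_num
    · unfold ind
      rw [if_neg hn]
      exact sum_nonneg fun t _ => by split_ifs <;> norm_num
  have h1 := μ.mono (Bd_ind _) (Bd.sum ((range M).filter fun t => M ≤ t + W) fun t _ => Bd_ind (fun n => n % M = t)) hle
  rw [μ.sum _ (fun t _ => Bd_ind _)] at h1
  refine h1.trans ?_
  have h2 : ∑ t ∈ (range M).filter (fun t => M ≤ t + W), μ.m (ind fun n => n % M = t) =
      ((range M).filter (fun t => M ≤ t + W)).card * (1 / (M : ℝ)) := by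
    rw [sum_congr rfl fun t ht => clk_mean h t (mem_range.1 (mem_filter.1 ht).1), sum_const, nsmul_eq_mul]
  rw [h2]
  have h3 : ((range M).filter (fun t => M ≤ t + W)).card ≤ W := by
    have : (range M).filter (fun t => M ≤ t + W) ⊆ Ico (M - W) M := by
      intro t ht
      rw [mem_filter, mem_range] at ht
      rw [mem_Ico]
      omega
    refine (card_le_card this).trans ?_
    rw [Nat.card_Ico]
    omega
  have h4 : (((range M).filter (fun t => M ≤ t + W)).card : ℝ) ≤ W := by exact_mod_cast h3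
  rw [mul_one_div]
  exact div_le_div_of_nonneg_right h4 hM0.le

/-- the local variables at a later time, given the local variables -/
lemma E_move (h : LocB μ D M s) (P : Finset ℕ) (hP : ∀ p ∈ P, 1 ≤ p) (W : ℕ) :
    E μ (fun n => (Rc D M s P (n + W), Rc D M s P n)) ≤
      E μ (Rc D M s P) + (W / M : ℝ) * (P.card * Real.log D) := by
  classical
  have hD0 : 1 ≤ D := h.hD
  set F : ℕ → (ℕ → ℕ) := fun n => Rv s P (n + W) with hF
  set t : Finset (ℕ → ℕ) := (Fintype.piFinset fun _ : {p // p ∈ P} => range D).image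
    (fun g : ({p // p ∈ P} → ℕ) => fun p : ℕ => if hp : p ∈ P then g ⟨p, hp⟩ else 0) with ht
  have hFt : ∀ n, F n ∈ t := by
    intro n
    rw [ht, mem_image]
    refine ⟨fun p => s p (n + W), ?_, ?_⟩
    · rw [Fintype.mem_piFinset]
      intro p
      rw [mem_range]
      exact h.lt _ _
    · funext p
      rw [hF]
      unfold Rv
      beta_reduce
      split_ifs <;> rfl
  have hcard : t.card ≤ D ^ P.card := by
    refine card_image_le.trans ?_
    rw [Fintype.card_piFinset]
    simp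
  have fF : FR F := by
    refine (Set.Finite.subset (t.finite_toSet) ?_)
    rintro _ ⟨n, rfl⟩
    exact hFt n
  have fR := FR_Rc h P hP
  have h1 := E_part μ F (Rc D M s P) fF fR (fun n => M ≤ n % M + W)
    (fun a b e => by rw [((Rc_eq P a b).1 e).1])
    (fun a b hQ e => by
      rw [Rc_eq] at e
      rw [hF]
      show Rv s P (a + W) = Rv s P (b + W)
      rw [Rv_eq]
      intro p hp
      have e1 : (a + W) / M = a / M := by
        have h2 := Nat.div_add_mod a M
        have h3 : a + W = M * (a / M) + (a % M + W) := by omega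
        have h4 : (a % M + W) / M = 0 := Nat.div_eq_of_lt (by omega)
        rw [h3, Nat.mul_add_div h.hM, h4, add_zero]
      have e2 : (b + W) / M = b / M := by
        have h2 := Nat.div_add_mod b M
        have h3 : b + W = M * (b / M) + (b % M + W) := by omega
        have h4 : (b % M + W) / M = 0 := Nat.div_eq_of_lt (by have := e.1; omega)
        rw [h3, Nat.mul_add_div h.hM, h4, add_zero]
      rw [h.blk p _ _ e1, h.blk p _ _ e2]
      exact ((yv_eq h p a b).1 (e.2 p hp)).2)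
    (D ^ P.card) (Nat.one_le_iff_ne_zero.2 (pow_pos hD0 _).ne') t hcard hFt
  have h2 : E μ (fun n => (Rc D M s P (n + W), Rc D M s P n)) ≤ E μ (fun n => (F n, Rc D M s P n)) := by
    apply E_mono μ _ _ (fF.pair fR)
    intro n m e
    simp only [Prod.mk.injEq] at e ⊢
    refine ⟨?_, e.2⟩
    have e1 := (Rc_eq P m n).1 e.2
    have e2 : Rv s P (m + W) = Rv s P (n + W) := e.1
    rw [Rv_eq] at e2
    rw [Rc_eq]
    refine ⟨Nat.ModEq.add_right _ e1.1, fun p hp => ?_⟩
    rw [yv_eq h]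
    exact ⟨Nat.ModEq.add_right _ ((yv_eq h p m n).1 (e1.2 p hp)).1, e2 p hp⟩
  have h3 : Real.log ((D ^ P.card : ℕ) : ℝ) = P.card * Real.log D := by
    push_cast
    rw [Real.log_pow]
  rw [h3] at h1
  have h4 : 0 ≤ (P.card : ℝ) * Real.log D :=
    mul_nonneg (Nat.cast_nonneg _) (Real.log_nonneg (by exact_mod_cast hD0))
  have h5 := mul_le_mul_of_nonneg_right (end_mean h W) h4
  linarith

section step

variable (μ) {A : Type} (a : ℕ → A) (D M s) (c : ℕ)

/-- conditional entropy of the window given the clock and the local variables -/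
noncomputable def X (i : ℕ) : ℝ :=
  E μ (fun n => (win (c * 2 ^ i) a n, Rc D M s (QD 1 i) n)) - E μ (Rc D M s (QD 1 i))

/-- the deficiency -/
noncomputable def Df (i : ℕ) : ℝ :=
  ∑ p ∈ QD i (i + 1), Real.log ((p * D : ℕ) : ℝ) -
    (E μ (fun n => (Rv (yv D s) (QD i (i + 1)) n, (win (c * 2 ^ i) a n, clk M n))) -
      E μ (fun n => (win (c * 2 ^ i) a n, clk M n)))

/-- the error at a scale -/
noncomputable def er (c i : ℕ) : ℝ := ((c * 2 ^ i : ℕ) / M : ℝ) * ((QD 1 (i + 1)).card * Real.log D)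

variable [Finite A] {μ D M s}

lemma QD1 {a b p : ℕ} (h : p ∈ QD a b) : 1 ≤ p := (QDp h).pos

lemma QDodd {a b p : ℕ} (ha : 1 ≤ a) (h : p ∈ QD a b) : p.Prime ∧ p ≠ 2 := by
  refine ⟨QDp h, ?_⟩
  have h1 := (mem_Ioc.1 (mem_filter.1 h).1).1
  have h2 : 2 ^ 1 ≤ 2 ^ a := Nat.pow_le_pow_right (by norm_num) ha
  omega

variable (h : LocB μ D M s)
include h

lemma X_nonneg (i : ℕ) : 0 ≤ X μ D M s a c i := by
  unfold X
  have := E_mono μ (Rc D M s (QD 1 i)) (fun n => (win (c * 2 ^ i) a n, Rc D M s (QD 1 i) n))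
    ((FR_win _ a).pair (FR_Rc h _ fun p hp => QD1 hp)) (fun n m e => (Prod.mk.injEq _ _ _ _ ▸ e).2)
  linarith

lemma claim1 (i : ℕ) :
    X μ D M s a c (i + 1) ≤
      2 * (E μ (fun n => (win (c * 2 ^ i) a n, Rc D M s (QD 1 (i + 1)) n)) -
        E μ (Rc D M s (QD 1 (i + 1)))) + er D M c i := by
  unfold X er
  set W := c * 2 ^ i with hW
  set P := QD 1 (i + 1) with hPd
  have hP : ∀ p ∈ P, 1 ≤ p := fun p hp => QD1 hp
  have hW2 : c * 2 ^ (i + 1) = W + W := by rw [hW, pow_succ]; ring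
  set R := Rc D M s P with hR
  set V : ℕ → ℕ × (ℕ → ℕ) := fun n => R (n + W) with hV
  have fW : FR (win W a) := FR_win _ _
  have fR : FR R := FR_Rc h P hP
  have fW' : FR (fun n => win W a (n + W)) := fW.sh W
  have fV : FR V := fR.sh W
  -- the long window
  have h1 : E μ (fun n => (win (c * 2 ^ (i + 1)) a n, R n)) ≤
      E μ (fun n => (win W a (n + W), ((V n, R n), win W a n))) := by
    apply E_mono μ _ _ (fW'.pair ((fV.pair fR).pair fW))
    intro n m e
    simp only [Prod.mk.injEq] at e ⊢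
    refine ⟨?_, e.2.1.2⟩
    funext k
    unfold win
    by_cases hk : (k : ℕ) < W
    · have := congrFun e.2.2 ⟨k, hk⟩
      exact this
    · have h5 : (k : ℕ) - W < W := by
        have := k.2
        omega
      have := congrFun e.1 ⟨k - W, h5⟩
      unfold win at this
      simp only at this
      have e1 : m + W + ((k : ℕ) - W) = m + k := by omega
      have e2 : n + W + ((k : ℕ) - W) = n + k := by omega
      rw [e1, e2] at this
      exact this
  have h2 := E_sub μ (fun n => win W a (n + W)) (fun n => (V n, R n)) (fun n => win W a n) fW' (fV.pair fR) fW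
  -- the two halves
  have h3 := E_sub μ (fun n => win W a (n + W)) V R fW' fV fR
  have h4 := E_sub μ V R (win W a) fV fR fW
  have e3 : E μ (fun n => (win W a (n + W), (V n, R n))) = E μ (fun n => (win W a (n + W), (V n, R n))) := rfl
  have e4 : E μ (fun n => ((V n, R n), win W a n)) = E μ (fun n => (V n, (R n, win W a n))) := by
    apply E_congr μ _ _ (fV.pair (fR.pair fW))
    intro n m
    simp only [Prod.mk.injEq]
    tauto
  have e5 : E μ (fun n => (win W a (n + W), V n)) = E μ (fun n => (win W a n, R n)) :=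
    E_shift μ (fun n => (win W a n, R n)) W
  have e6 : E μ V = E μ R := E_shift μ R W
  have e7 : E μ (fun n => (R n, win W a n)) = E μ (fun n => (win W a n, R n)) := by
    apply E_congr μ _ _ (fW.pair fR)
    intro n m
    simp only [Prod.mk.injEq]
    tauto
  have h5 := E_move h P hP W
  have e8 : E μ (fun n => (V n, R n)) ≤ E μ R + ((W : ℕ) / M : ℝ) * (P.card * Real.log D) := h5
  linarith

lemma claim2 (i : ℕ) (hi : 1 ≤ i) :
    Df μ D M s a c i ≤ X μ D M s a c i -
      (E μ (fun n => (win (c * 2 ^ i) a n, Rc D M s (QD 1 (i + 1)) n)) -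
        E μ (Rc D M s (QD 1 (i + 1)))) := by
  unfold Df X
  have hs := QD_succ 1 i hi
  set W := c * 2 ^ i with hW
  set U := Rv (yv D s) (QD i (i + 1)) with hU
  set R0 := Rv (yv D s) (QD 1 i) with hR0
  set R := Rc D M s (QD 1 i) with hR
  set R' := Rc D M s (QD 1 (i + 1)) with hR'
  have fW : FR (win W a) := FR_win _ _
  have fC : FR (clk M) := FR_clk h
  have fU : FR U := FR_Rv h _ fun p hp => QD1 hp
  have fR0 : FR R0 := FR_Rv h _ fun p hp => QD1 hp
  have fR : FR R := FR_Rc h _ fun p hp => QD1 hp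
  have h1 := E_sub μ U (fun n => (win W a n, clk M n)) R0 fU (fW.pair fC) fR0
  have h2 : E μ (fun n => (win W a n, R' n)) ≤ E μ (fun n => (U n, ((win W a n, clk M n), R0 n))) := by
    apply E_mono μ _ _ (fU.pair ((fW.pair fC).pair fR0))
    intro n m e
    simp only [Prod.mk.injEq] at e ⊢
    obtain ⟨hu, ⟨hw, hc⟩, hr⟩ := e
    refine ⟨hw, ?_⟩
    rw [hR', Rc_eq]
    refine ⟨hc, ?_⟩
    intro p hp
    rw [hs, mem_union] at hp
    rcases hp with hp | hp
    · exact (Rv_eq _ _ _ _).1 hr p hp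
    · exact (Rv_eq _ _ _ _).1 hu p hp
  have e1 : E μ (fun n => ((win W a n, clk M n), R0 n)) = E μ (fun n => (win W a n, R n)) := by
    apply E_congr μ _ _ (fW.pair fR)
    intro n m
    rw [hR]
    unfold Rc
    simp only [Prod.mk.injEq]
    tauto
  have h3 : E μ R' = E μ R + ∑ p ∈ QD i (i + 1), Real.log ((p * D : ℕ) : ℝ) := by
    rw [hR', hR, E_Rc h _ fun p hp => QDodd le_rfl hp, E_Rc h _ fun p hp => QDodd le_rfl hp, hs,
      sum_union (QD_disj 1 i)]
    ring
  linarith

lemma Df_nonneg (i : ℕ) (hi : 1 ≤ i) : 0 ≤ Df μ D M s a c i := by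
  classical
  unfold Df
  have f1 : FR (Rv (yv D s) (QD i (i + 1))) := FR_Rv h _ fun p hp => QD1 hp
  have f2 : FR (win (c * 2 ^ i) a) := FR_win _ a
  have f3 : FR (clk M) := FR_clk h
  have h1 := E_Rc h (QD i (i + 1)) (fun p hp => QDodd hi hp)
  have h0 := E_Rc h ∅ (by simp)
  have h2 := E_sub μ (Rv (yv D s) (QD i (i + 1))) (clk M) (win (c * 2 ^ i) a) f1 f3 f2
  have e1 : E μ (fun n => (Rv (yv D s) (QD i (i + 1)) n, (clk M n, win (c * 2 ^ i) a n))) =
      E μ (fun n => (Rv (yv D s) (QD i (i + 1)) n, (win (c * 2 ^ i) a n, clk M n))) := by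
    apply E_congr μ _ _ (f1.pair (f2.pair f3))
    intro n m
    simp only [Prod.mk.injEq]
    tauto
  have e2 : E μ (fun n => (Rv (yv D s) (QD i (i + 1)) n, clk M n)) = E μ (Rc D M s (QD i (i + 1))) := by
    apply E_congr μ _ _ (FR_Rc h _ fun p hp => QD1 hp)
    intro n m
    unfold Rc
    simp only [Prod.mk.injEq]
    tauto
  have e3 : E μ (fun n => (clk M n, win (c * 2 ^ i) a n)) = E μ (fun n => (win (c * 2 ^ i) a n, clk M n)) := by
    apply E_congr μ _ _ (f2.pair f3)
    intro n m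
    simp only [Prod.mk.injEq]
    tauto
  have e4 : E μ (clk M) = E μ (Rc D M s ∅) := by
    apply E_congr μ _ _ (FR_Rc h _ (by simp))
    intro n m
    rw [Rc_eq]
    simp [clk]
  rw [e1, e2, e3, e4, h1, h0, sum_empty] at h2
  linarith

lemma X_init [Fintype A] [Nonempty A] : X μ D M s a c 1 ≤ 2 * (c * Real.log (Fintype.card A)) := by
  classical
  unfold X
  have hc : 0 < Fintype.card A := Fintype.card_pos
  have h1 := E_card μ (win (c * 2 ^ 1) a) (Rc D M s (QD 1 1)) (FR_win _ a) (FR_Rc h _ fun p hp => QD1 hp)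
    (Fintype.card A ^ (c * 2 ^ 1)) (Nat.one_le_iff_ne_zero.2 (pow_pos hc _).ne') univ
    (by rw [card_univ, Fintype.card_fun, Fintype.card_fin]) (fun _ => mem_univ _)
  have h2 : Real.log ((Fintype.card A ^ (c * 2 ^ 1) : ℕ) : ℝ) =
      2 * (c * Real.log (Fintype.card A)) := by
    push_cast
    rw [Real.log_pow]
    push_cast
    ring
  rw [h2] at h1
  linarith

lemma sum_Df (K : ℕ) (hK : 1 ≤ K) :
    ∑ i ∈ Ico 1 K, Df μ D M s a c i / 2 ^ i ≤
      X μ D M s a c 1 / 2 - X μ D M s a c K / 2 ^ K + ∑ i ∈ Ico 1 K, er D M c i / 2 ^ (i + 1) := by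
  induction K, hK using Nat.le_induction with
  | base => simp
  | succ K hK ih =>
    rw [sum_Ico_succ_top hK, sum_Ico_succ_top hK]
    have h2 := claim1 a c h K
    have h3 := claim2 a c h K hK
    have h4 : Df μ D M s a c K / 2 ^ K ≤ X μ D M s a c K / 2 ^ K - X μ D M s a c (K + 1) / 2 ^ (K + 1) +
        er D M c K / 2 ^ (K + 1) := by
      have h5 : (0 : ℝ) < 2 ^ K := by positivity
      have h6 : X μ D M s a c (K + 1) / 2 ^ (K + 1) = (X μ D M s a c (K + 1) / 2) / 2 ^ K := by
        rw [pow_succ]; field_simp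
      have h7 : er D M c K / 2 ^ (K + 1) = (er D M c K / 2) / 2 ^ K := by
        rw [pow_succ]; field_simp
      rw [h6, h7, ← sub_div, ← add_div]
      apply div_le_div_of_nonneg_right _ h5.le
      linarith
    linarith

end step

end Pool.Agent.Y326.Slf
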