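import Pool.Agent.Y326.Slf1

/-!
# Decoupling at a scale in a finite range
-/

set_option autoImplicit false

namespace Pool.Agent.Y326.Slf

open Finset Filter
open Pool.Agent.TH112.BL Pool.Agent.TH928.BLJ
open Pool.Agent.W78.EC (ent cE rsf)
open Pool.Agent.W212.EC (ent_mono ent_congr submod ce WW ent_eq WW_pos)
open Pool.Agent.Y326.Slw (Rv Rv_eq yv E_ae E_unif)

lemma er_nonneg {D M c : ℕ} (hD : 1 ≤ D) (i : ℕ) : 0 ≤ er D M c i := by
  unfold er
  have : 0 ≤ Real.log (D : ℝ) := Real.log_nonneg (by exact_mod_cast hD)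
  positivity

section step

variable {μ : LM} {D M : ℕ} {s : ℕ → ℕ → ℕ} {A : Type} (a : ℕ → A) (c : ℕ) [Fintype A] [Nonempty A] (h : LocB μ D M s)
include h

/-- there are pairs of consecutive good scales in a finite range -/
lemma good (η : ℝ) (hη : 0 < η) (I : ℕ) (hI : 1 ≤ I) (b : ℕ → ℝ) (hb0 : ∀ i, 0 ≤ b i)
    (B : ℝ) (hb : ∀ K, ∑ i ∈ Ico 1 K, b i ≤ B) (J : ℕ) (hIJ : I ≤ J)
    (hJ : 2 * (c * Real.log (Fintype.card A) + B + 1) / η < ∑ i ∈ Ico I J, (1 / ((i : ℝ) + 1)))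
    (herr : ∑ i ∈ Ico 1 (J + 1), er D M c i / 2 ^ (i + 1) ≤ 1) : ∃ i, I ≤ i ∧ i < J ∧
      (Df μ D M s a c i ≤ η * 2 ^ i / i ∧ b i ≤ η / i) ∧
      (Df μ D M s a c (i + 1) ≤ η * 2 ^ (i + 1) / (i + 1 : ℕ) ∧ b (i + 1) ≤ η / (i + 1 : ℕ)) := by
  by_contra hcon
  push Not at hcon
  set f : ℕ → ℝ := fun i => Df μ D M s a c i / 2 ^ i + b i with hf
  have hd0 : ∀ i, 1 ≤ i → 0 ≤ Df μ D M s a c i / 2 ^ i := fun i hi => div_nonneg (Df_nonneg a c h i hi) (by positivity)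
  have hf0 : ∀ i, 1 ≤ i → 0 ≤ f i := fun i hi => add_nonneg (hd0 i hi) (hb0 i)
  have h1 : ∀ i, I ≤ i → i < J → η * (1 / ((i : ℝ) + 1)) ≤ f i + f (i + 1) := by
    intro i hi hiJ
    have hi0 : (1 : ℝ) ≤ i := by exact_mod_cast hI.trans hi
    have hi1 : 1 ≤ i := hI.trans hi
    by_contra hlt
    push Not at hlt
    have hle : η * (1 / ((i : ℝ) + 1)) ≤ η / i := by
      rw [mul_one_div]
      exact div_le_div_of_nonneg_left hη.le (by linarith) (by linarith)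
    have a1 : Df μ D M s a c i / 2 ^ i ≤ η / i := by
      have := hf0 (i + 1) (by omega)
      have := hb0 i
      simp only [hf] at hlt this ⊢
      linarith [hd0 (i + 1) (by omega), hb0 (i + 1)]
    have a2 : b i ≤ η / i := by
      simp only [hf] at hlt
      linarith [hd0 i hi1, hd0 (i + 1) (by omega), hb0 (i + 1)]
    have a3 : Df μ D M s a c (i + 1) / 2 ^ (i + 1) ≤ η * (1 / ((i : ℝ) + 1)) := by
      simp only [hf] at hlt
      linarith [hd0 i hi1, hb0 i, hb0 (i + 1)]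
    have a4 : b (i + 1) ≤ η * (1 / ((i : ℝ) + 1)) := by
      simp only [hf] at hlt
      linarith [hd0 i hi1, hb0 i, hd0 (i + 1) (by omega)]
    have a5 : Df μ D M s a c i ≤ η * 2 ^ i / i := by
      rw [div_le_iff₀ (by positivity)] at a1
      refine a1.trans (le_of_eq ?_)
      ring
    have a6 : Df μ D M s a c (i + 1) ≤ η * 2 ^ (i + 1) / (i + 1 : ℕ) := by
      rw [div_le_iff₀ (by positivity)] at a3
      refine a3.trans (le_of_eq ?_)
      push_cast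
      ring
    have a7 : b (i + 1) ≤ η / (i + 1 : ℕ) := by
      refine a4.trans (le_of_eq ?_)
      push_cast
      ring
    exact absurd a7 (not_le.2 (hcon i hi hiJ ⟨a5, a2⟩ a6))
  have hX : ∀ K, 1 ≤ K → K ≤ J + 1 → ∑ i ∈ Ico 1 K, f i ≤ c * Real.log (Fintype.card A) + B + 1 := by
    intro K hK hKJ
    have h2 := sum_Df a c h K hK
    have h3 := X_init a c h
    have h4 : 0 ≤ X μ D M s a c K / 2 ^ K := div_nonneg (X_nonneg a c h K) (by positivity)
    rw [hf, sum_add_distrib]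
    have h5 := hb K
    have h6 : ∑ i ∈ Ico 1 K, er D M c i / 2 ^ (i + 1) ≤ ∑ i ∈ Ico 1 (J + 1), er D M c i / 2 ^ (i + 1) := by
      apply sum_le_sum_of_subset_of_nonneg
      · intro i hi
        rw [mem_Ico] at hi ⊢
        omega
      · intro i _ _
        exact div_nonneg (er_nonneg h.hD i) (by positivity)
    linarith
  have h3 : ∑ i ∈ Ico I J, η * (1 / ((i : ℝ) + 1)) ≤ ∑ i ∈ Ico I J, (f i + f (i + 1)) :=
    sum_le_sum fun i hi => h1 i (mem_Ico.1 hi).1 (mem_Ico.1 hi).2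
  rw [sum_add_distrib, ← mul_sum] at h3
  have h4 : ∑ i ∈ Ico I J, f i ≤ ∑ i ∈ Ico 1 J, f i := by
    apply sum_le_sum_of_subset_of_nonneg
    · intro i hi
      rw [mem_Ico] at hi ⊢
      omega
    · intro i hi _
      exact hf0 i (mem_Ico.1 hi).1
  have h5 : ∑ i ∈ Ico I J, f (i + 1) ≤ ∑ i ∈ Ico 1 (J + 1), f i := by
    rw [sum_Ico_add' f I J 1]
    apply sum_le_sum_of_subset_of_nonneg
    · intro i hi
      rw [mem_Ico] at hi ⊢
      omega
    · intro i hi _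
      exact hf0 i (mem_Ico.1 hi).1
  have h6 := hX J (hI.trans hIJ) (by omega)
  have h7 := hX (J + 1) (by omega) le_rfl
  rw [div_lt_iff₀ hη] at hJ
  linarith

/-- decoupling at a good scale -/
lemma scale {ε κ' : ℝ} (hε : 0 < ε) (hκ : κ' = ε / 30) (i : ℕ) (hi1 : 1 ≤ i)
    (h2 : (i : ℝ) / 2 ^ i < κ' * ε / 3) (hD : Df μ D M s a c i ≤ (κ' * ε / 3) * 2 ^ i / i)
    (Ψ : ℕ → ℕ → ℕ → ℝ) (hΨ : ∀ p n r, |Ψ p n r| ≤ 1)
    (hΨ' : ∀ p ∈ QD i (i + 1), ∀ n n' r : ℕ, win (c * 2 ^ i) a n = win (c * 2 ^ i) a n' → n % M = n' % M →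
      Ψ p n r = Ψ p n' r) :
    μ.m (fun n => |∑ p ∈ QD i (i + 1), Real.log p / 2 ^ i *
      (Ψ p n (yv D s p n) - (∑ r ∈ range (p * D), Ψ p n r) / ((p * D : ℕ) : ℝ))|) ≤ ε := by
  classical
  have hκ0 : 0 < κ' := by rw [hκ]; positivity
  have hir : (1 : ℝ) ≤ i := by exact_mod_cast hi1
  set W := c * 2 ^ i with hW
  set P := QD i (i + 1) with hPd
  set U := Rv (yv D s) P with hU
  set V : ℕ → (Fin W → A) × ℕ := fun n => (win W a n, clk M n) with hV
  have fW : FR V := (FR_win _ _).pair (FR_clk h)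
  have fU : FR U := FR_Rv h _ fun p hp => QD1 hp
  obtain ⟨t, w, r1, r2, r3, r4⟩ := rep μ (fun n => (U n, V n)) (fU.pair fW)
  set ζ : ℕ → ((Fin W → A) × ℕ) → ℕ → ℝ := fun p d r =>
    if h : ∃ n, V n = d then Ψ p h.choose r else 0 with hζ
  have hVe : ∀ n n', V n = V n' → win W a n = win W a n' ∧ n % M = n' % M := by
    intro n n' e
    rw [hV] at e
    simp only [Prod.mk.injEq] at e
    exact e
  have hζD : ∀ p ∈ P, ∀ n r : ℕ, ζ p (V n) r = Ψ p n r := by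
    intro p hp n r
    have h : ∃ n', V n' = V n := ⟨n, rfl⟩
    rw [hζ]
    simp only
    rw [dif_pos h]
    exact hΨ' p hp _ _ r (hVe _ _ h.choose_spec).1 (hVe _ _ h.choose_spec).2
  have hζ1 : ∀ p d r, |ζ p d r| ≤ 1 := by
    intro p d r
    rw [hζ]
    simp only
    split_ifs with h
    · exact hΨ _ _ _
    · simp
  set τ : ℝ := κ' * 2 ^ i / i with hτ
  have hτ0 : 0 < τ := by positivity
  have key := Pool.Agent.W721.ECV.dv ℕ ((Fin W → A) × ℕ) ℕ t w V P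
    (fun n p => yv D s p n) (fun p => range (p * D)) (fun p => Real.log p / 2 ^ i) ζ 1 τ
    r1 (fun n _ p hp => by
      rw [mem_range]
      exact yv_lt h (QD1 hp) n) hζ1 hτ0
  rw [r2] at key
  simp only [one_mul, card_range, one_pow, mul_one] at key
  have e1 : μ.m (fun n => |∑ p ∈ P, Real.log p / 2 ^ i *
      (Ψ p n (yv D s p n) - (∑ r ∈ range (p * D), Ψ p n r) / ((p * D : ℕ) : ℝ))|) =
      ∑ n ∈ t, w n * |∑ p ∈ P, Real.log p / 2 ^ i *
      (ζ p (V n) (yv D s p n) - (∑ r ∈ range (p * D), ζ p (V n) r) / ((p * D : ℕ) : ℝ))| := by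
    rw [r3]
    · refine sum_congr rfl fun n _ => ?_
      congr 2
      refine sum_congr rfl fun p hp => ?_
      simp only [hζD p hp]
    · intro n m e
      rw [Prod.mk.injEq] at e
      have hu : ∀ p ∈ P, yv D s p n = yv D s p m := (Rv_eq _ _ _ _).1 e.1
      congr 1
      refine sum_congr rfl fun p hp => ?_
      have hVD : ∀ r, Ψ p n r = Ψ p m r := fun r => hΨ' p hp n m r (hVe _ _ e.2).1 (hVe _ _ e.2).2
      simp only [hVD, hu p hp]
  have e2 : cE t w (rsf P (fun n p => yv D s p n)) V =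
      ∑ p ∈ P, Real.log ((p * D : ℕ) : ℝ) - Df μ D M s a c i := by
    have hrs : ∀ n m : ℕ, rsf P (fun n p => yv D s p n) m = rsf P (fun n p => yv D s p n) n ↔ U m = U n := by
      intro n m
      rw [hU, Rv_eq]
      unfold rsf
      constructor
      · intro h p hp
        have := congrFun h p
        simpa [hp] using this
      · intro h
        funext p
        by_cases hp : p ∈ P
        · simp [hp, h p hp]
        · simp [hp]
    have c1 : ent t w (fun n => (rsf P (fun n p => yv D s p n) n, V n)) = E μ (fun n => (U n, V n)) := by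
      rw [r4 _ (fun n => (U n, V n)) (fun n m e => e)]
      symm
      apply ent_congr r1
      intro n _ m _
      simp only [Prod.mk.injEq, hrs]
    have c2 : ent t w V = E μ V :=
      (r4 _ V (fun n m e => by rw [Prod.mk.injEq] at e; exact e.2)).symm
    unfold cE Df
    rw [c1, c2]
    ring
  rw [e2] at key
  have e3 : (∑ p ∈ P, Real.log ((p * D : ℕ) : ℝ) + Real.log 2) -
      (∑ p ∈ P, Real.log ((p * D : ℕ) : ℝ) - Df μ D M s a c i) = Real.log 2 + Df μ D M s a c i := by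
    ring
  rw [e3] at key
  rw [e1]
  exact key.trans (ε_bound hε hκ i hi1 h2 _ hD τ hτ _ (Pool.Agent.TH575.CW.sq_QD i hi1))

end step

/-- decoupling at pairs of consecutive scales in a finite range -/
theorem decouple {A : Type} [Fintype A] [Nonempty A] (c : ℕ) (ε : ℝ) (hε : 0 < ε) (i₁ : ℕ) (B : ℝ) :
    ∃ J : ℕ, ∀ (μ : LM) (a : ℕ → A) (D M : ℕ) (s : ℕ → ℕ → ℕ), LocB μ D M s →
      ∑ i ∈ Ico 1 (J + 1), er D M c i / 2 ^ (i + 1) ≤ 1 →
      ∀ b : ℕ → ℝ, (∀ i, 0 ≤ b i) → (∀ K, ∑ i ∈ Ico 1 K, b i ≤ B) →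
    ∃ i : ℕ, i₁ ≤ i ∧ i < J ∧ ∀ i' : ℕ, i ≤ i' → i' ≤ i + 1 → b i' ≤ ε / i' ∧ ∀ Ψ : ℕ → ℕ → ℕ → ℝ,
      (∀ p n r, |Ψ p n r| ≤ 1) →
      (∀ p ∈ QD i' (i' + 1), ∀ n n' r : ℕ, win (c * 2 ^ i') a n = win (c * 2 ^ i') a n' → n % M = n' % M →
        Ψ p n r = Ψ p n' r) →
      μ.m (fun n => |∑ p ∈ QD i' (i' + 1), Real.log p / 2 ^ i' *
        (Ψ p n (yv D s p n) - (∑ r ∈ range (p * D), Ψ p n r) / ((p * D : ℕ) : ℝ))|) ≤ ε := by
  set κ' : ℝ := ε / 30 with hκ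
  have hκ0 : 0 < κ' := by positivity
  set η : ℝ := min ε (κ' * ε / 3) with hη
  have hη0 : 0 < κ' * ε / 3 := by positivity
  have hη1 : 0 < η := lt_min hε hη0
  have hlim : Filter.Tendsto (fun i : ℕ => (i : ℝ) / 2 ^ i) Filter.atTop (nhds 0) := by
    have := tendsto_pow_const_div_const_pow_of_one_lt 1 (show (1 : ℝ) < 2 by norm_num)
    simpa using this
  obtain ⟨i2, hi2⟩ := Filter.eventually_atTop.1 (hlim.eventually_lt_const hη0)
  set I : ℕ := max i₁ (max i2 1) with hI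
  have hI1 : 1 ≤ I := le_trans (le_max_right _ _) (le_max_right _ _)
  have hdiv := Real.tendsto_sum_range_one_div_nat_succ_atTop
  set S : ℝ := ∑ i ∈ range I, (1 / ((i : ℝ) + 1)) with hS
  obtain ⟨J, hJ1, hJ2⟩ := ((hdiv.eventually_gt_atTop
    (S + 2 * (c * Real.log (Fintype.card A) + B + 1) / η)).and (eventually_ge_atTop I)).exists
  have h9 := sum_range_add_sum_Ico (fun i : ℕ => 1 / ((i : ℝ) + 1)) hJ2
  rw [← h9] at hJ1
  have h10 : 2 * (c * Real.log (Fintype.card A) + B + 1) / η < ∑ i ∈ Ico I J, (1 / ((i : ℝ) + 1)) := by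
    linarith
  refine ⟨J, fun μ a D M s h herr b hb0 hb => ?_⟩
  obtain ⟨i, hiI, hiJ, ⟨hg1, hb1⟩, ⟨hg2, hb2⟩⟩ := good a c h η hη1 I hI1 b hb0 B hb J hJ2 h10 herr
  have hi_1 : i₁ ≤ i := (le_max_left _ _).trans hiI
  have hi_2 : i2 ≤ i := ((le_max_left _ _).trans (le_max_right _ _)).trans hiI
  have hi_3 : 1 ≤ i := hI1.trans hiI
  refine ⟨i, hi_1, hiJ, ?_⟩
  intro i' h1 h2
  have up : ∀ i : ℕ, η * 2 ^ i / i ≤ (κ' * ε / 3) * 2 ^ i / i := fun i =>
    div_le_div_of_nonneg_right (mul_le_mul_of_nonneg_right (min_le_right _ _) (by positivity)) (Nat.cast_nonneg i)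
  have up2 : ∀ i : ℕ, η / i ≤ ε / i := fun i =>
    div_le_div_of_nonneg_right (min_le_left _ _) (Nat.cast_nonneg i)
  rcases Nat.eq_or_lt_of_le h1 with h3 | h3
  · subst h3
    exact ⟨hb1.trans (up2 _), fun Ψ hΨ hΨ' => scale a c h hε hκ i hi_3 (hi2 i hi_2) (hg1.trans (up _)) Ψ hΨ hΨ'⟩
  · have h' : i' = i + 1 := by omega
    subst h'
    exact ⟨hb2.trans (up2 _), fun Ψ hΨ hΨ' => scale a c h hε hκ (i + 1) (by omega) (hi2 (i + 1) (by omega)) (hg2.trans (up _)) Ψ hΨ hΨ'⟩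

end Pool.Agent.Y326.Slf
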