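import Pool.Agent.Y326.Rank

/-!
# Windows in logarithmic mean
-/

set_option autoImplicit false

namespace Pool.Agent.Y326

open Finset Filter Pool.Agent.TH112.BL
open Pool.Agent.TH833.BL (S H H_le le_H one_le_log)

/-- `e(x) = exp(2πix)` -/
noncomputable def ex (x : ℝ) : ℂ := Complex.exp (2 * Real.pi * Complex.I * x)

lemma norm_ex (x : ℝ) : ‖ex x‖ = 1 := by
  unfold ex
  rw [show 2 * (Real.pi : ℂ) * Complex.I * x = ((2 * Real.pi * x : ℝ) : ℂ) * Complex.I by push_cast; ring]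
  exact Complex.norm_exp_ofReal_mul_I _

lemma ex_add (x y : ℝ) : ex (x + y) = ex x * ex y := by
  unfold ex
  rw [← Complex.exp_add]
  congr 1
  push_cast
  ring

variable {X : Type*} [NormedAddCommGroup X] [NormedSpace ℂ X]

/-- the terms -/
noncomputable def tm (f : ℕ → ℤ) (a : ℕ → X) (θ : ℝ) (m : ℕ) : X := (((f m : ℤ) : ℂ) * ex (m * θ)) • a m

/-- the windows -/
noncomputable def wn (f : ℕ → ℤ) (a : ℕ → X) (θ : ℝ) (L n : ℕ) : ℝ := ‖∑ h ∈ range L, tm f a θ (n + h)‖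

variable {f : ℕ → ℤ} {a b : ℕ → X} {B : ℝ}

lemma f_norm (hf : ∀ n, |f n| ≤ 1) (m : ℕ) : ‖((f m : ℤ) : ℂ)‖ ≤ 1 := by
  rw [Complex.norm_intCast]
  exact_mod_cast hf m

lemma tm_le (hf : ∀ n, |f n| ≤ 1) (ha : ∀ n, ‖a n‖ ≤ B) (θ : ℝ) (m : ℕ) : ‖tm f a θ m‖ ≤ B := by
  have hB : 0 ≤ B := (norm_nonneg _).trans (ha 0)
  unfold tm
  rw [norm_smul, norm_mul, norm_ex, mul_one]
  calc _ ≤ 1 * B := mul_le_mul (f_norm hf m) (ha m) (norm_nonneg _) zero_le_one
    _ = B := one_mul B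

lemma wn_nonneg (f : ℕ → ℤ) (a : ℕ → X) (θ : ℝ) (L n : ℕ) : 0 ≤ wn f a θ L n := norm_nonneg _

lemma wn_le (hf : ∀ n, |f n| ≤ 1) (ha : ∀ n, ‖a n‖ ≤ B) (θ : ℝ) (L n : ℕ) : wn f a θ L n ≤ L * B := by
  unfold wn
  refine (norm_sum_le _ _).trans ((sum_le_sum fun h _ => tm_le hf ha θ (n + h)).trans ?_)
  rw [sum_const, card_range, nsmul_eq_mul]

lemma shift_block (t : ℕ → X) (ht : ∀ n, ‖t n‖ ≤ B) (M n h : ℕ) :
    ‖∑ j ∈ range M, t (n + h + j) - ∑ j ∈ range M, t (n + j)‖ ≤ 2 * B * h := by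
  induction h with
  | zero => simp
  | succ h ih =>
    have h1 : ∑ j ∈ range M, t (n + (h + 1) + j) - ∑ j ∈ range M, t (n + h + j) =
        t (n + h + M) - t (n + h) := by
      have h2 := Finset.sum_range_succ (fun j => t (n + h + j)) M
      have h3 := Finset.sum_range_succ' (fun j => t (n + h + j)) M
      have h4 : ∑ j ∈ range M, t (n + (h + 1) + j) = ∑ j ∈ range M, t (n + h + (j + 1)) :=
        sum_congr rfl fun j _ => by congr 1; ring
      rw [h4]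
      rw [h3] at h2
      simp only [add_zero] at h2
      rw [sub_eq_sub_iff_add_eq_add, h2]
      abel
    have h5 : ∑ j ∈ range M, t (n + (h + 1) + j) - ∑ j ∈ range M, t (n + j) =
        (t (n + h + M) - t (n + h)) + (∑ j ∈ range M, t (n + h + j) - ∑ j ∈ range M, t (n + j)) := by
      rw [← h1]; abel
    rw [h5]
    refine (norm_add_le _ _).trans ?_
    have h6 := norm_sub_le (t (n + h + M)) (t (n + h))
    have h7 := ht (n + h + M)
    have h8 := ht (n + h)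
    push_cast
    linarith

/-- long windows from short windows -/
lemma comb (hf : ∀ n, |f n| ≤ 1) (ha : ∀ n, ‖a n‖ ≤ B) (θ : ℝ) (L M n : ℕ) :
    (L : ℝ) * wn f a θ M n ≤ ∑ j ∈ range M, wn f a θ L (n + j) + 2 * B * L * L := by
  have hB : 0 ≤ B := (norm_nonneg _).trans (ha 0)
  set t := tm f a θ with ht
  have htb := tm_le hf ha θ
  have h1 : (L : ℂ) • ∑ j ∈ range M, t (n + j) = ∑ j ∈ range M, ∑ h ∈ range L, t (n + j + h) -
      ∑ h ∈ range L, (∑ j ∈ range M, t (n + h + j) - ∑ j ∈ range M, t (n + j)) := by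
    rw [sum_sub_distrib, sum_const, card_range, sum_comm]
    have e : ∑ h ∈ range L, ∑ j ∈ range M, t (n + j + h) = ∑ h ∈ range L, ∑ j ∈ range M, t (n + h + j) := by
      refine sum_congr rfl fun h _ => sum_congr rfl fun j _ => ?_
      congr 1; ring
    rw [e, sub_sub_cancel, Nat.cast_smul_eq_nsmul]
  have h2 : (L : ℝ) * wn f a θ M n = ‖(L : ℂ) • ∑ j ∈ range M, t (n + j)‖ := by
    rw [norm_smul, Complex.norm_natCast]
    rfl
  rw [h2, h1]
  refine (norm_sub_le _ _).trans (add_le_add (norm_sum_le _ _) ?_)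
  refine (norm_sum_le _ _).trans ?_
  calc ∑ h ∈ range L, ‖∑ j ∈ range M, t (n + h + j) - ∑ j ∈ range M, t (n + j)‖ ≤
      ∑ h ∈ range L, 2 * B * L := by
        refine sum_le_sum fun h hh => ?_
        refine (shift_block t htb M n h).trans ?_
        have : (h : ℝ) ≤ L := by exact_mod_cast (mem_range.1 hh).le
        exact mul_le_mul_of_nonneg_left this (by positivity)
    _ = 2 * B * L * L := by
        rw [sum_const, card_range, nsmul_eq_mul]
        ring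

lemma abs_wn_le (hf : ∀ n, |f n| ≤ 1) (ha : ∀ n, ‖a n‖ ≤ B) (θ : ℝ) (L n : ℕ) :
    |wn f a θ L n| ≤ L * B := by
  rw [abs_of_nonneg (wn_nonneg _ _ _ _ _)]
  exact wn_le hf ha θ L n

/-- the windows are small in logarithmic mean, uniformly in the twist -/
def LW (f : ℕ → ℤ) (a : ℕ → X) : Prop := ∀ ε : ℝ, 0 < ε → ∃ M₀ : ℕ, ∀ M : ℕ, M₀ ≤ M → ∃ N₀ : ℕ,
  ∀ N : ℕ, N₀ ≤ N → ∀ θ : ℝ, S (wn f a θ M) N ≤ ε * M * Real.log N

/-- one window length is enough -/
theorem lw_of (hf : ∀ n, |f n| ≤ 1) (ha : ∀ n, ‖a n‖ ≤ B)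
    (h : ∀ η : ℝ, 0 < η → ∃ L : ℕ, 1 ≤ L ∧ ∃ N₀ : ℕ, ∀ N : ℕ, N₀ ≤ N → ∀ θ : ℝ,
      S (wn f a θ L) N ≤ η * L * Real.log N) : LW f a := by
  have hB : 0 ≤ B := (norm_nonneg _).trans (ha 0)
  intro ε hε
  obtain ⟨L, hL, N₀, hN₀⟩ := h (ε / 3) (by positivity)
  have hL0 : (0 : ℝ) < L := by exact_mod_cast hL
  refine ⟨⌈12 * L * B / ε⌉₊, fun M hM => ?_⟩
  have hM' : 12 * L * B / ε ≤ M := (Nat.le_ceil _).trans (by exact_mod_cast hM)
  rw [div_le_iff₀ hε] at hM'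
  have hlog : Tendsto (fun N : ℕ => ε / 3 * Real.log (N : ℝ)) atTop atTop :=
    (Pool.Agent.TH833.BL.log_tendsto).const_mul_atTop (by positivity)
  obtain ⟨N₁, hN₁⟩ := eventually_atTop.1 (hlog.eventually_ge_atTop (3 * B * M))
  refine ⟨max (max N₀ N₁) 3, fun N hN θ => ?_⟩
  have h0 := hN₀ N (((le_max_left _ _).trans (le_max_left _ _)).trans hN) θ
  have h1 := hN₁ N (((le_max_right _ _).trans (le_max_left _ _)).trans hN)
  have hl := one_le_log ((le_max_right _ _).trans hN)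
  have hM0 : (0 : ℝ) ≤ M := Nat.cast_nonneg M
  have h2 : (L : ℝ) * S (wn f a θ M) N ≤
      ∑ j ∈ range M, S (fun n => wn f a θ L (n + j)) N + 2 * B * L * L * H N := by
    have h3 := S_mono (φ := fun n => (L : ℝ) * wn f a θ M n)
      (ψ := fun n => ∑ j ∈ range M, wn f a θ L (n + j) + 2 * B * L * L)
      (fun n => comb hf ha θ L M n) N
    rw [S_cmul] at h3
    refine h3.trans (le_of_eq ?_)
    rw [Pool.Agent.TH833.BL.S_add (fun n => ∑ j ∈ range M, wn f a θ L (n + j)) (fun _ => 2 * B * L * L),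
      S_sum, S_const]
  have h4 : ∀ j ∈ range M, S (fun n => wn f a θ L (n + j)) N ≤ S (wn f a θ L) N + 3 * (L * B) * M := by
    intro j hj
    have h5 := (abs_le.1 (S_shift (abs_wn_le hf ha θ L) j N)).2
    have h6 : 3 * (L * B) * (j : ℝ) ≤ 3 * (L * B) * M := by
      apply mul_le_mul_of_nonneg_left _ (by positivity)
      exact_mod_cast (mem_range.1 hj).le
    linarith
  have h5 := (sum_le_sum h4).trans_eq (by rw [sum_const, card_range, nsmul_eq_mul])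
  have h6 : 2 * B * L * L * H N ≤ 2 * B * L * L * (2 * Real.log N) := by
    apply mul_le_mul_of_nonneg_left _ (by positivity)
    linarith [H_le N]
  have h7 : (L : ℝ) * S (wn f a θ M) N ≤ L * (ε * M * Real.log N) := by
    have h8 : (M : ℝ) * S (wn f a θ L) N ≤ M * (ε / 3 * L * Real.log N) :=
      mul_le_mul_of_nonneg_left h0 hM0
    have h9 : (M : ℝ) * (3 * (L * B) * M) ≤ L * M * (ε / 3 * Real.log N) := by
      have : (M : ℝ) * (3 * (L * B) * M) = L * M * (3 * B * M) := by ring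
      rw [this]
      exact mul_le_mul_of_nonneg_left h1 (by positivity)
    have h10 : 2 * B * L * L * (2 * Real.log N) ≤ L * (ε / 3 * M * Real.log N) := by
      have h11 : 4 * L * B ≤ ε / 3 * M := by linarith
      have h12 : 2 * B * L * L * (2 * Real.log N) = L * Real.log N * (4 * L * B) := by ring
      rw [h12]
      calc L * Real.log N * (4 * L * B) ≤ L * Real.log N * (ε / 3 * M) :=
            mul_le_mul_of_nonneg_left h11 (by positivity)
        _ = _ := by ring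
    have h13 : (M : ℝ) * (S (wn f a θ L) N + 3 * (L * B) * M) =
        M * S (wn f a θ L) N + M * (3 * (L * B) * M) := by ring
    have h14 : L * (ε * M * Real.log N) = M * (ε / 3 * L * Real.log N) + L * M * (ε / 3 * Real.log N) +
        L * (ε / 3 * M * Real.log N) := by ring
    linarith
  exact le_of_mul_le_mul_left h7 hL0

lemma wn_add (θ : ℝ) (L n : ℕ) : wn f (fun m => a m + b m) θ L n ≤ wn f a θ L n + wn f b θ L n := by
  unfold wn
  have e : ∀ h ∈ range L, tm f (fun m => a m + b m) θ (n + h) = tm f a θ (n + h) + tm f b θ (n + h) :=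
    fun h _ => by unfold tm; rw [smul_add]
  rw [sum_congr rfl e, sum_add_distrib]
  exact norm_add_le _ _

theorem LW.add (h1 : LW f a) (h2 : LW f b) : LW f (fun m => a m + b m) := by
  intro ε hε
  obtain ⟨M1, hM1⟩ := h1 (ε / 2) (by positivity)
  obtain ⟨M2, hM2⟩ := h2 (ε / 2) (by positivity)
  refine ⟨max M1 M2, fun M hM => ?_⟩
  obtain ⟨N1, hN1⟩ := hM1 M ((le_max_left _ _).trans hM)
  obtain ⟨N2, hN2⟩ := hM2 M ((le_max_right _ _).trans hM)
  refine ⟨max N1 N2, fun N hN θ => ?_⟩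
  have h3 := hN1 N ((le_max_left _ _).trans hN) θ
  have h4 := hN2 N ((le_max_right _ _).trans hN) θ
  have h5 := S_mono (fun n => wn_add (f := f) (a := a) (b := b) θ M n) N
  rw [Pool.Agent.TH833.BL.S_add] at h5
  linarith

theorem LW.smul (c : ℂ) (h1 : LW f a) : LW f (fun m => c • a m) := by
  intro ε hε
  obtain ⟨M1, hM1⟩ := h1 (ε / (‖c‖ + 1)) (by positivity)
  refine ⟨M1, fun M hM => ?_⟩
  obtain ⟨N1, hN1⟩ := hM1 M hM
  refine ⟨max N1 3, fun N hN θ => ?_⟩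
  have h3 := hN1 N ((le_max_left _ _).trans hN) θ
  have hl := one_le_log ((le_max_right _ _).trans hN)
  have e : (wn f (fun m => c • a m) θ M) = fun n => ‖c‖ * wn f a θ M n := by
    funext n
    unfold wn
    have e : ∀ h ∈ range M, tm f (fun m => c • a m) θ (n + h) = c • tm f a θ (n + h) :=
      fun h _ => by unfold tm; rw [smul_comm]
    rw [sum_congr rfl e, ← smul_sum, norm_smul]
  rw [e, S_cmul]
  calc ‖c‖ * S (wn f a θ M) N ≤ ‖c‖ * (ε / (‖c‖ + 1) * M * Real.log N) :=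
        mul_le_mul_of_nonneg_left h3 (norm_nonneg _)
    _ = (‖c‖ / (‖c‖ + 1)) * (ε * M * Real.log N) := by ring
    _ ≤ 1 * (ε * M * Real.log N) := by
        apply mul_le_mul_of_nonneg_right _ (by positivity)
        rw [div_le_one (by positivity)]
        linarith
    _ = _ := one_mul _

theorem LW.zero (f : ℕ → ℤ) : LW f (fun _ => (0 : X)) := by
  intro ε hε
  refine ⟨0, fun M _ => ⟨3, fun N hN θ => ?_⟩⟩
  have hl := one_le_log hN
  have e : (wn f (fun _ => (0 : X)) θ M) = fun _ => 0 := by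
    funext n
    unfold wn tm
    simp
  rw [e, S_const, zero_mul]
  positivity

/-- approximation -/
theorem LW.approx (hf : ∀ n, |f n| ≤ 1) (h : ∀ ε : ℝ, 0 < ε → ∃ b : ℕ → X, (∀ n, ‖a n - b n‖ ≤ ε) ∧ LW f b) :
    LW f a := by
  intro ε hε
  obtain ⟨b, hb1, hb2⟩ := h (ε / 4) (by positivity)
  obtain ⟨M1, hM1⟩ := hb2 (ε / 2) (by positivity)
  refine ⟨M1, fun M hM => ?_⟩
  obtain ⟨N1, hN1⟩ := hM1 M hM
  refine ⟨max N1 3, fun N hN θ => ?_⟩
  have h3 := hN1 N ((le_max_left _ _).trans hN) θ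
  have hl := one_le_log ((le_max_right _ _).trans hN)
  have h4 : ∀ n, wn f a θ M n ≤ wn f b θ M n + M * (ε / 4) := by
    intro n
    have h5 := wn_add (f := f) (a := b) (b := fun m => a m - b m) θ M n
    have e : (fun m => b m + (a m - b m)) = a := by funext m; abel
    rw [e] at h5
    have h6 := wn_le (a := fun m => a m - b m) hf hb1 θ M n
    linarith
  have h5 := S_mono h4 N
  rw [Pool.Agent.TH833.BL.S_add (wn f b θ M) (fun _ => M * (ε / 4)), S_const] at h5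
  have h6 : M * (ε / 4) * H N ≤ M * (ε / 4) * (2 * Real.log N) := by
    apply mul_le_mul_of_nonneg_left _ (by positivity)
    linarith [H_le N]
  have h7 : ε * M * Real.log N = ε / 2 * M * Real.log N + M * (ε / 4) * (2 * Real.log N) := by ring
  linarith

/-! ### from windows to most scales -/

/-- full sums -/
noncomputable def fs (f : ℕ → ℤ) (a : ℕ → X) (θ : ℝ) (N : ℕ) : X := ∑ m ∈ Icc 1 N, tm f a θ m

lemma fs_le (hf : ∀ n, |f n| ≤ 1) (ha : ∀ n, ‖a n‖ ≤ B) (θ : ℝ) (N : ℕ) : ‖fs f a θ N‖ ≤ N * B := by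
  unfold fs
  refine (norm_sum_le _ _).trans ((sum_le_sum fun h _ => tm_le hf ha θ h).trans ?_)
  rw [sum_const, Nat.card_Icc, Nat.add_sub_cancel, nsmul_eq_mul]

lemma Icc_range {α : Type*} [AddCommMonoid α] (g : ℕ → α) (N : ℕ) :
    ∑ n ∈ Icc 1 N, g n = ∑ j ∈ range N, g (1 + j) := by
  induction N with
  | zero => simp
  | succ N ih => rw [sum_Icc_succ_top (by omega), sum_range_succ, ih, add_comm 1 N]

/-- full sums from windows -/
lemma fs_wn (hf : ∀ n, |f n| ≤ 1) (ha : ∀ n, ‖a n‖ ≤ B) (θ : ℝ) (M N : ℕ) :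
    (M : ℝ) * ‖fs f a θ N‖ ≤ ∑ n ∈ Icc 1 N, wn f a θ M n + 2 * B * M * M := by
  have h1 := comb hf ha θ M N 1
  have e1 : wn f a θ N 1 = ‖fs f a θ N‖ := by
    unfold wn fs
    rw [Icc_range]
  rw [e1] at h1
  rw [Icc_range]
  exact h1

lemma sum_sq_le (n Z : ℕ) (hn : 1 ≤ n) (hZ : n ≤ Z + 1) :
    ∑ N ∈ Icc n Z, 1 / (N : ℝ) ^ 2 ≤ 2 / (n : ℝ) - 2 / ((Z : ℝ) + 1) := by
  induction Z with
  | zero =>
    have : n = 1 := by omega
    subst this
    simp
  | succ Z ih =>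
    rcases Nat.eq_or_lt_of_le hZ with h | h
    · subst h
      have : Icc (Z + 1 + 1) (Z + 1) = ∅ := by
        rw [Finset.Icc_eq_empty_iff]; omega
      rw [this, sum_empty]
      push_cast
      simp
    · rw [sum_Icc_succ_top (by omega)]
      have h1 := ih (by omega)
      push_cast
      have hX0 : (0 : ℝ) < (Z : ℝ) + 1 := by positivity
      have h2 : 1 / ((Z : ℝ) + 1) ^ 2 ≤ 2 / ((Z : ℝ) + 1) - 2 / ((Z : ℝ) + 1 + 1) := by
        rw [div_sub_div _ _ (by positivity) (by positivity), div_le_div_iff₀ (by positivity) (by positivity)]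
        have : (0 : ℝ) ≤ Z := Nat.cast_nonneg Z
        nlinarith
      linarith

lemma swap_le (w : ℕ → ℝ) (hw : ∀ n, 0 ≤ w n) (Z : ℕ) :
    ∑ N ∈ Icc 1 Z, 1 / (N : ℝ) ^ 2 * ∑ n ∈ Icc 1 N, w n ≤ 2 * S w Z := by
  have h1 : ∑ N ∈ Icc 1 Z, 1 / (N : ℝ) ^ 2 * ∑ n ∈ Icc 1 N, w n =
      ∑ n ∈ Icc 1 Z, ∑ N ∈ Icc n Z, 1 / (N : ℝ) ^ 2 * w n := by
    simp only [mul_sum]
    apply sum_comm'
    intro N n
    simp only [mem_Icc]
    omega
  rw [h1]
  unfold S
  rw [mul_sum]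
  refine sum_le_sum fun n hn => ?_
  rw [mem_Icc] at hn
  rw [← sum_mul]
  have h2 := sum_sq_le n Z hn.1 (by omega)
  have h3 : (0 : ℝ) ≤ 2 / ((Z : ℝ) + 1) := by positivity
  have h4 : ∑ N ∈ Icc n Z, 1 / (N : ℝ) ^ 2 ≤ 2 / (n : ℝ) := by linarith
  calc _ ≤ 2 / (n : ℝ) * w n := mul_le_mul_of_nonneg_right h4 (hw n)
    _ = _ := by ring

open Classical in
/-- **most scales** -/
theorem LW.scales (hf : ∀ n, |f n| ≤ 1) (ha : ∀ n, ‖a n‖ ≤ B) (h : LW f a) (ε : ℝ) (hε : 0 < ε) :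
    ∃ X₀ : ℕ, ∀ Z : ℕ, X₀ ≤ Z → ∀ θ : ℝ,
      ∑ N ∈ (Icc 1 Z).filter (fun N : ℕ => ε * N < ‖fs f a θ N‖), 1 / (N : ℝ) ≤ ε * Real.log Z := by
  have hB : 0 ≤ B := (norm_nonneg _).trans (ha 0)
  obtain ⟨M₀, hM₀⟩ := h (ε ^ 2 / 8) (by positivity)
  set M := max M₀ 1 with hM
  have hM0 : (0 : ℝ) < M := by exact_mod_cast (lt_of_lt_of_le Nat.one_pos (le_max_right M₀ 1))
  obtain ⟨N₀, hN₀⟩ := hM₀ M (le_max_left _ _)
  set N₂ := ⌈4 * B * M / ε⌉₊ with hN2
  have hlog : Tendsto (fun N : ℕ => ε / 2 * Real.log (N : ℝ)) atTop atTop :=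
    (Pool.Agent.TH833.BL.log_tendsto).const_mul_atTop (by positivity)
  obtain ⟨N₁, hN₁⟩ := eventually_atTop.1 (hlog.eventually_ge_atTop (H N₂))
  refine ⟨max N₀ N₁, fun Z hZ θ => ?_⟩
  have h0 := hN₀ Z ((le_max_left _ _).trans hZ) θ
  have h1 := hN₁ Z ((le_max_right _ _).trans hZ)
  set w := wn f a θ M with hw
  have hw0 : ∀ n, 0 ≤ w n := fun n => wn_nonneg _ _ _ _ _
  have key : ∀ N ∈ (Icc 1 Z).filter (fun N : ℕ => ε * N < ‖fs f a θ N‖), 1 / (N : ℝ) ≤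
      (if N ≤ N₂ then 1 / (N : ℝ) else 0) + 2 / (ε * M) * (1 / (N : ℝ) ^ 2 * ∑ n ∈ Icc 1 N, w n) := by
    intro N hN
    rw [mem_filter, mem_Icc] at hN
    have hN0 : (0 : ℝ) < N := by exact_mod_cast hN.1.1
    have hs0 : 0 ≤ ∑ n ∈ Icc 1 N, w n := sum_nonneg fun n _ => hw0 n
    split_ifs with h2
    · have : 0 ≤ 2 / (ε * M) * (1 / (N : ℝ) ^ 2 * ∑ n ∈ Icc 1 N, w n) := by positivity
      linarith
    · rw [zero_add]
      have h3 : 4 * B * M / ε ≤ N := (Nat.le_ceil _).trans (by exact_mod_cast (by omega : N₂ ≤ N))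
      rw [div_le_iff₀ hε] at h3
      have h4 := fs_wn hf ha θ M N
      have h5 : M * (ε * N) < ∑ n ∈ Icc 1 N, w n + 2 * B * M * M :=
        (mul_lt_mul_of_pos_left hN.2 hM0).trans_le h4
      have h6 : 2 * B * M * M ≤ ε / 2 * M * N := by
        have : 2 * B * M * M = M / 2 * (4 * B * M) := by ring
        rw [this]
        calc (M : ℝ) / 2 * (4 * B * M) ≤ M / 2 * (N * ε) := mul_le_mul_of_nonneg_left h3 (by positivity)
          _ = _ := by ring
      have h7 : ε / 2 * M * N ≤ ∑ n ∈ Icc 1 N, w n := by linarith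
      have h8 : 1 / (N : ℝ) = 2 / (ε * M) * (1 / (N : ℝ) ^ 2 * (ε / 2 * M * N)) := by
        field_simp
      rw [h8]
      gcongr
  refine (sum_le_sum key).trans ?_
  rw [sum_add_distrib, ← mul_sum]
  have h2 : ∑ N ∈ (Icc 1 Z).filter (fun N : ℕ => ε * N < ‖fs f a θ N‖), (if N ≤ N₂ then 1 / (N : ℝ) else 0) ≤ H N₂ := by
    rw [← sum_filter]
    unfold H
    apply sum_le_sum_of_subset_of_nonneg
    · intro N hN
      rw [mem_filter, mem_filter, mem_Icc] at hN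
      rw [mem_Icc]
      exact ⟨hN.1.1.1, hN.2⟩
    · intro N _ _
      positivity
  have h3 : ∑ N ∈ (Icc 1 Z).filter (fun N : ℕ => ε * N < ‖fs f a θ N‖),
      (1 / (N : ℝ) ^ 2 * ∑ n ∈ Icc 1 N, w n) ≤ 2 * S w Z := by
    refine le_trans ?_ (swap_le w hw0 Z)
    apply sum_le_sum_of_subset_of_nonneg (filter_subset _ _)
    intro N _ _
    exact mul_nonneg (by positivity) (sum_nonneg fun n _ => hw0 n)
  have h4 : 2 / (ε * M) * ∑ N ∈ (Icc 1 Z).filter (fun N : ℕ => ε * N < ‖fs f a θ N‖),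
      (1 / (N : ℝ) ^ 2 * ∑ n ∈ Icc 1 N, w n) ≤ 2 / (ε * M) * (2 * (ε ^ 2 / 8 * M * Real.log Z)) := by
    apply mul_le_mul_of_nonneg_left _ (by positivity)
    linarith
  have h5 : 2 / (ε * M) * (2 * (ε ^ 2 / 8 * M * Real.log Z)) = ε / 2 * Real.log Z := by
    field_simp
    ring
  linarith

/-- **logarithmic means** -/
theorem LW.logmean (hf : ∀ n, |f n| ≤ 1) (ha : ∀ n, ‖a n‖ ≤ B) (h : LW f a) (ε : ℝ) (hε : 0 < ε) :
    ∃ X₀ : ℕ, ∀ Z : ℕ, X₀ ≤ Z → ∀ θ : ℝ,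
      ‖∑ n ∈ Icc 1 Z, (1 / (n : ℂ)) • tm f a θ n‖ ≤ ε * Real.log Z := by
  have hB : 0 ≤ B := (norm_nonneg _).trans (ha 0)
  obtain ⟨M₀, hM₀⟩ := h (ε / 2) (by positivity)
  set M := max M₀ 1 with hM
  have hM0 : (0 : ℝ) < M := by exact_mod_cast (lt_of_lt_of_le Nat.one_pos (le_max_right M₀ 1))
  obtain ⟨N₀, hN₀⟩ := hM₀ M (le_max_left _ _)
  have hlog : Tendsto (fun N : ℕ => ε / 2 * Real.log (N : ℝ)) atTop atTop :=
    (Pool.Agent.TH833.BL.log_tendsto).const_mul_atTop (by positivity)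
  obtain ⟨N₁, hN₁⟩ := eventually_atTop.1 (hlog.eventually_ge_atTop (3 * B * M))
  refine ⟨max N₀ N₁, fun Z hZ θ => ?_⟩
  have h0 := hN₀ Z ((le_max_left _ _).trans hZ) θ
  have h1 := hN₁ Z ((le_max_right _ _).trans hZ)
  set t := tm f a θ with ht
  have htb : ∀ n, ‖t n‖ ≤ B := tm_le hf ha θ
  obtain ⟨g, hg1, hg2⟩ := exists_dual_vector'' ℂ (∑ n ∈ Icc 1 Z, (1 / (n : ℂ)) • t n)
  set φ : ℕ → ℝ := fun n => (g (t n)).re with hφ
  have hφb : ∀ n, |φ n| ≤ B := by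
    intro n
    refine (Complex.abs_re_le_norm _).trans ((g.le_opNorm _).trans ?_)
    calc ‖g‖ * ‖t n‖ ≤ 1 * B := mul_le_mul hg1 (htb n) (norm_nonneg _) zero_le_one
      _ = B := one_mul B
  have h2 : ‖∑ n ∈ Icc 1 Z, (1 / (n : ℂ)) • t n‖ = S φ Z := by
    have h4 : ‖∑ n ∈ Icc 1 Z, (1 / (n : ℂ)) • t n‖ = (g (∑ n ∈ Icc 1 Z, (1 / (n : ℂ)) • t n)).re := by
      rw [hg2]; simp
    rw [h4, map_sum, Complex.re_sum]
    unfold S
    refine sum_congr rfl fun n _ => ?_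
    rw [map_smul, smul_eq_mul]
    have e : (1 / (n : ℂ)) = ((1 / (n : ℝ) : ℝ) : ℂ) := by push_cast; rfl
    rw [e, Complex.re_ofReal_mul]
  have h3 : ∀ k ∈ range M, S φ Z ≤ S (fun n => φ (n + k)) Z + 3 * B * M := by
    intro k hk
    have h4 := (abs_le.1 (S_shift hφb k Z)).1
    have h5 : 3 * B * (k : ℝ) ≤ 3 * B * M := by
      apply mul_le_mul_of_nonneg_left _ (by positivity)
      exact_mod_cast (mem_range.1 hk).le
    linarith
  have h4 := sum_le_sum h3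
  rw [sum_const, card_range, nsmul_eq_mul, sum_add_distrib, sum_const, card_range, nsmul_eq_mul,
    ← S_sum] at h4
  have h5 : S (fun n => ∑ k ∈ range M, φ (n + k)) Z ≤ S (wn f a θ M) Z := by
    refine S_mono (fun n => ?_) Z
    have e : ∑ k ∈ range M, φ (n + k) = (g (∑ k ∈ range M, t (n + k))).re := by
      rw [map_sum, Complex.re_sum]
    rw [e]
    refine (le_abs_self _).trans ((Complex.abs_re_le_norm _).trans ((g.le_opNorm _).trans ?_))
    calc ‖g‖ * ‖∑ k ∈ range M, t (n + k)‖ ≤ 1 * ‖∑ k ∈ range M, t (n + k)‖ :=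
          mul_le_mul_of_nonneg_right hg1 (norm_nonneg _)
      _ = _ := one_mul _
  have h6 : (M : ℝ) * (3 * B * M) ≤ M * (ε / 2 * Real.log Z) := mul_le_mul_of_nonneg_left h1 hM0.le
  rw [h2]
  have h7 : (M : ℝ) * S φ Z ≤ M * (ε * Real.log Z) := by
    have : (M : ℝ) * (ε * Real.log Z) = ε / 2 * M * Real.log Z + M * (ε / 2 * Real.log Z) := by ring
    linarith
  exact le_of_mul_le_mul_left h7 hM0

/-! ### sets of logarithmic density one -/

open Classical in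
/-- a set of logarithmic density one -/
def LD1 (s : Set ℕ) : Prop :=
  Tendsto (fun Z : ℕ => (1 / Real.log (Z : ℝ)) * ∑ n ∈ (Icc 1 Z).filter (fun n => n ∉ s), (1 / (n : ℝ)))
    atTop (nhds 0)

open Classical in
/-- countably many sequences which are small on most scales are small along one set of logarithmic
density one -/
theorem diag (F : ℕ → ℕ → ℝ) (h : ∀ i, ∀ ε : ℝ, 0 < ε → ∃ X₀ : ℕ, ∀ Z : ℕ, X₀ ≤ Z →
      ∑ N ∈ (Icc 1 Z).filter (fun N => ε < F i N), 1 / (N : ℝ) ≤ ε * Real.log Z) :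
    ∃ s : Set ℕ, LD1 s ∧ ∀ i, ∀ ε : ℝ, 0 < ε → ∃ N₀ : ℕ, ∀ N ∈ s, N₀ ≤ N → F i N ≤ ε := by
  have hc : ∀ j : ℕ, ∃ X₀ : ℕ, ∀ Z : ℕ, X₀ ≤ Z →
      ∑ N ∈ (Icc 1 Z).filter (fun N => ∃ i ≤ j, 1 / ((j : ℝ) + 1) < F i N), 1 / (N : ℝ) ≤
        1 / ((j : ℝ) + 1) * Real.log Z := by
    intro j
    choose g hg using fun i => h i (1 / ((j : ℝ) + 1) ^ 2) (by positivity)
    refine ⟨(range (j + 1)).sup g, fun Z hZ => ?_⟩
    have h1 : (Icc 1 Z).filter (fun N => ∃ i ≤ j, 1 / ((j : ℝ) + 1) < F i N) ⊆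
        (range (j + 1)).biUnion fun i => (Icc 1 Z).filter (fun N => 1 / ((j : ℝ) + 1) ^ 2 < F i N) := by
      intro N hN
      rw [mem_filter] at hN
      obtain ⟨hN1, i, hi, hN2⟩ := hN
      rw [mem_biUnion]
      refine ⟨i, mem_range.2 (by omega), mem_filter.2 ⟨hN1, lt_of_le_of_lt ?_ hN2⟩⟩
      apply one_div_le_one_div_of_le (by positivity)
      have : (0 : ℝ) ≤ j := Nat.cast_nonneg j
      nlinarith
    have h2 : ∑ N ∈ (Icc 1 Z).filter (fun N => ∃ i ≤ j, 1 / ((j : ℝ) + 1) < F i N), 1 / (N : ℝ) ≤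
        ∑ i ∈ range (j + 1), ∑ N ∈ (Icc 1 Z).filter (fun N => 1 / ((j : ℝ) + 1) ^ 2 < F i N), 1 / (N : ℝ) := by
      have e : ∀ i ∈ range (j + 1), ∑ N ∈ (Icc 1 Z).filter (fun N => 1 / ((j : ℝ) + 1) ^ 2 < F i N), 1 / (N : ℝ) =
          ∑ N ∈ Icc 1 Z, if 1 / ((j : ℝ) + 1) ^ 2 < F i N then 1 / (N : ℝ) else 0 := fun i _ => by
        rw [sum_filter]
      rw [sum_congr rfl e, sum_comm, sum_filter]
      refine sum_le_sum fun N hN => ?_
      split_ifs with h2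
      · have h3 : N ∈ (range (j + 1)).biUnion fun i =>
            (Icc 1 Z).filter (fun N => 1 / ((j : ℝ) + 1) ^ 2 < F i N) := h1 (mem_filter.2 ⟨hN, h2⟩)
        rw [mem_biUnion] at h3
        obtain ⟨i, hi, hi2⟩ := h3
        have h4 := Finset.single_le_sum (f := fun i => if 1 / ((j : ℝ) + 1) ^ 2 < F i N then 1 / (N : ℝ) else 0)
          (fun i _ => by split_ifs <;> positivity) hi
        simp only [if_pos (mem_filter.1 hi2).2] at h4
        exact h4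
      · exact sum_nonneg fun i _ => by split_ifs <;> positivity
    refine h2.trans ?_
    have h3 : ∀ i ∈ range (j + 1), ∑ N ∈ (Icc 1 Z).filter (fun N => 1 / ((j : ℝ) + 1) ^ 2 < F i N), 1 / (N : ℝ) ≤
        1 / ((j : ℝ) + 1) ^ 2 * Real.log Z := by
      intro i hi
      exact hg i Z ((Finset.le_sup hi).trans hZ)
    refine (sum_le_sum h3).trans (le_of_eq ?_)
    rw [sum_const, card_range, nsmul_eq_mul]
    push_cast
    field_simp
  choose X hX using hc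
  set J : ℕ → ℕ := fun N => Nat.findGreatest (fun j => X j ≤ N) N with hJ
  have hJm : ∀ N N', N ≤ N' → J N ≤ J N' := fun N N' hNN =>
    Nat.findGreatest_mono (fun j hj => le_trans hj hNN) hNN
  have hJl : ∀ j N, X j ≤ N → j ≤ N → j ≤ J N := fun j N h1 h2 => Nat.le_findGreatest h2 h1
  have hJs : ∀ N, X 0 ≤ N → X (J N) ≤ N := fun N h1 =>
    Nat.findGreatest_spec (P := fun j => X j ≤ N) (Nat.zero_le N) h1
  obtain ⟨s, hs⟩ : ∃ s : Set ℕ, ∀ N, N ∈ s ↔ ∀ i ≤ J N, F i N ≤ 1 / ((J N : ℝ) + 1) :=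
    ⟨{N | ∀ i ≤ J N, F i N ≤ 1 / ((J N : ℝ) + 1)}, fun _ => Iff.rfl⟩
  refine ⟨s, ?_, ?_⟩
  · unfold LD1
    rw [Metric.tendsto_atTop]
    intro ε hε
    obtain ⟨j, hj⟩ : ∃ j : ℕ, 1 / ε < j := exists_nat_gt _
    refine ⟨max (max (X j) j) (max (X 0) 3), fun Z hZ => ?_⟩
    have hZ1 : X j ≤ Z := ((le_max_left _ _).trans (le_max_left _ _)).trans hZ
    have hZ2 : j ≤ Z := ((le_max_right _ _).trans (le_max_left _ _)).trans hZ
    have hZ3 : X 0 ≤ Z := ((le_max_left _ _).trans (le_max_right _ _)).trans hZ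
    have hl := one_le_log (((le_max_right _ _).trans (le_max_right _ _)).trans hZ)
    have h1 : j ≤ J Z := hJl j Z hZ1 hZ2
    have h2 := hX (J Z) Z (hJs Z hZ3)
    have h3 : (Icc 1 Z).filter (fun n => n ∉ s) ⊆
        (Icc 1 Z).filter (fun N => ∃ i ≤ J Z, 1 / ((J Z : ℝ) + 1) < F i N) := by
      intro N hN
      rw [mem_filter, hs] at hN
      obtain ⟨hN1, hN2⟩ := hN
      push Not at hN2
      obtain ⟨i, hi, hN3⟩ := hN2
      have h4 : J N ≤ J Z := hJm N Z (mem_Icc.1 hN1).2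
      refine mem_filter.2 ⟨hN1, i, hi.trans h4, lt_of_le_of_lt ?_ hN3⟩
      apply one_div_le_one_div_of_le (by positivity)
      have : (J N : ℝ) ≤ J Z := by exact_mod_cast h4
      linarith
    have h4 : ∑ N ∈ (Icc 1 Z).filter (fun n => n ∉ s), 1 / (N : ℝ) ≤
        1 / ((J Z : ℝ) + 1) * Real.log Z :=
      (sum_le_sum_of_subset_of_nonneg h3 fun _ _ _ => by positivity).trans h2
    have h5 : 0 ≤ ∑ N ∈ (Icc 1 Z).filter (fun n => n ∉ s), 1 / (N : ℝ) :=
      sum_nonneg fun _ _ => by positivity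
    rw [dist_zero_right, Real.norm_eq_abs, abs_of_nonneg (by positivity)]
    have h6 : 1 / ((J Z : ℝ) + 1) < ε := by
      rw [div_lt_iff₀ (by positivity)]
      have h7 : (j : ℝ) ≤ J Z := by exact_mod_cast h1
      rw [div_lt_iff₀ hε] at hj
      nlinarith
    calc _ ≤ 1 / Real.log Z * (1 / ((J Z : ℝ) + 1) * Real.log Z) :=
          mul_le_mul_of_nonneg_left h4 (by positivity)
      _ = 1 / ((J Z : ℝ) + 1) := by
          field_simp
      _ < ε := h6
  · intro i ε hε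
    obtain ⟨j, hj⟩ : ∃ j : ℕ, 1 / ε < j := exists_nat_gt _
    refine ⟨max (max (X j) j) (max (X i) i), fun N hN hN0 => ?_⟩
    have hZ1 : X j ≤ N := ((le_max_left _ _).trans (le_max_left _ _)).trans hN0
    have hZ2 : j ≤ N := ((le_max_right _ _).trans (le_max_left _ _)).trans hN0
    have hZ3 : X i ≤ N := ((le_max_left _ _).trans (le_max_right _ _)).trans hN0
    have hZ4 : i ≤ N := ((le_max_right _ _).trans (le_max_right _ _)).trans hN0
    have h1 : j ≤ J N := hJl j N hZ1 hZ2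
    have h2 : i ≤ J N := hJl i N hZ3 hZ4
    refine ((hs N).1 hN i h2).trans ?_
    rw [div_le_iff₀ (by positivity)]
    have h7 : (j : ℝ) ≤ J N := by exact_mod_cast h1
    rw [div_lt_iff₀ hε] at hj
    nlinarith

end Pool.Agent.Y326
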