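import Pool.Agent.Y326.Slw1
import Pool.Agent.Y326.Win
import Pool.Agent.TH112.BL.Sys

/-!
# Means of products of multiplicative functions with a slow phase
-/

set_option autoImplicit false

namespace Pool.Agent.Y326.Slw

open Finset Filter
open Pool.Agent.TH112.BL Pool.Agent.TH928.BLJ
open scoped ComplexConjugate

/-! ## means -/

lemma m_le_large (μ : LM) {φ : ℕ → ℝ} (h : Bd φ) (C : ℝ) (N : ℕ) (hN : ∀ n, N ≤ n → φ n ≤ C) : μ.m φ ≤ C := by
  rw [← μ.shiftk N h]
  have h1 := μ.mono (h.comp fun n => n + N) (Bd.const C) fun n => hN (n + N) (Nat.le_add_left _ _)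
  have h2 := μ.smul C (fun _ => 1) (Bd.const 1)
  simp only [mul_one] at h2
  rw [μ.one, mul_one] at h2
  rwa [h2] at h1

lemma abs_m_le_large (μ : LM) {φ : ℕ → ℝ} (h : Bd φ) (C : ℝ) (N : ℕ) (hN : ∀ n, N ≤ n → |φ n| ≤ C) :
    |μ.m φ| ≤ C := (μ.abs_le h).trans (m_le_large μ h.abs C N hN)

/-- multiples of a large prime among the values of a linear form -/
lemma dvd_le (μ : LM) (p : ℕ) (hp : p.Prime) (a b : ℕ) (ha : 1 ≤ a) (hap : a < p) :
    μ.m (ind (fun n => p ∣ a * n + b)) ≤ 1 / p := by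
  classical
  have hp0 : (0 : ℝ) < p := by exact_mod_cast hp.pos
  have h1 : ∀ i, μ.m (fun n => ind (fun n => p ∣ a * n + b) (n + i)) = μ.m (ind (fun n => p ∣ a * n + b)) :=
    fun i => μ.shiftk i (Bd_ind _)
  have h2 : μ.m (fun n => ∑ i ∈ range p, ind (fun n => p ∣ a * n + b) (n + i)) =
      p * μ.m (ind (fun n => p ∣ a * n + b)) := by
    rw [μ.sum _ fun i _ => (Bd_ind _).comp fun n => n + i]
    simp only [h1, sum_const, card_range, nsmul_eq_mul]
  have h3 : ∀ n, ∑ i ∈ range p, ind (fun n => p ∣ a * n + b) (n + i) ≤ 1 := by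
    intro n
    by_cases hex : ∃ i ∈ range p, p ∣ a * (n + i) + b
    · obtain ⟨i₀, hi₀, hd₀⟩ := hex
      rw [sum_eq_single i₀]
      · unfold ind; split_ifs <;> norm_num
      · intro i hi hne
        unfold ind
        rw [if_neg]
        intro hd
        apply hne
        rw [mem_range] at hi hi₀
        have h5 : (p : ℤ) ∣ (a : ℤ) * ((i : ℤ) - i₀) := by
          have h6 : (p : ℤ) ∣ ((a * (n + i) + b : ℕ) : ℤ) := by exact_mod_cast hd
          have h7 : (p : ℤ) ∣ ((a * (n + i₀) + b : ℕ) : ℤ) := by exact_mod_cast hd₀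
          have h8 := dvd_sub h6 h7
          push_cast at h8
          have e : (a : ℤ) * (n + i) + b - (a * (n + i₀) + b) = a * (i - i₀) := by ring
          rwa [e] at h8
        have hpi : Prime (p : ℤ) := Nat.prime_iff_prime_int.1 hp
        rcases hpi.dvd_or_dvd h5 with h6 | h6
        · have := Nat.le_of_dvd (by omega) (by exact_mod_cast h6 : p ∣ a)
          omega
        · obtain ⟨c, hc⟩ := h6
          have h9 : c = 0 := by
            by_contra hc0
            have h10 : (1 : ℤ) ≤ |c| := Int.one_le_abs hc0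
            have h11 : |((i : ℤ) - i₀)| < p := by
              rw [abs_lt]; constructor <;> omega
            rw [hc, abs_mul] at h11
            have h12 : |(p : ℤ)| = p := abs_of_nonneg (by positivity)
            rw [h12] at h11
            nlinarith
          rw [h9, mul_zero] at hc
          omega
      · intro h; exact absurd hi₀ h
    · push Not at hex
      rw [sum_eq_zero]
      · norm_num
      · intro i hi
        unfold ind
        rw [if_neg (hex i hi)]
  have h4 := m_le_large μ (Bd.sum (range p) fun i _ => (Bd_ind (fun n => p ∣ a * n + b)).comp fun n => n + i) 1 0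
    (fun n _ => h3 n)
  rw [h2] at h4
  rw [le_div_iff₀ hp0]
  linarith

/-! ## products -/

lemma prod_sub_le {k : ℕ} (x y : Fin k → ℂ) (hx : ∀ j, ‖x j‖ ≤ 1) (hy : ∀ j, ‖y j‖ ≤ 1) {δ : ℝ}
    (h : ∀ j, ‖x j - y j‖ ≤ δ) : ‖∏ j, x j - ∏ j, y j‖ ≤ k * δ := by
  have key : ∀ s : Finset (Fin k), ‖∏ j ∈ s, x j - ∏ j ∈ s, y j‖ ≤ s.card * δ := by
    classical
    intro s
    induction s using Finset.induction_on with
    | empty => simp
    | insert j s hj ih =>
      rw [prod_insert hj, prod_insert hj, card_insert_of_notMem hj]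
      have e : x j * ∏ j ∈ s, x j - y j * ∏ j ∈ s, y j =
          (x j - y j) * ∏ j ∈ s, x j + y j * (∏ j ∈ s, x j - ∏ j ∈ s, y j) := by ring
      rw [e]
      refine (norm_add_le _ _).trans ?_
      rw [norm_mul, norm_mul]
      have h1 : ‖∏ j ∈ s, x j‖ ≤ 1 := by
        rw [norm_prod]
        exact prod_le_one (fun j _ => norm_nonneg _) fun j _ => hx j
      have h2 : ‖x j - y j‖ * ‖∏ j ∈ s, x j‖ ≤ δ * 1 :=
        mul_le_mul (h j) h1 (norm_nonneg _) ((norm_nonneg _).trans (h j))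
      have h3 : ‖y j‖ * ‖∏ j ∈ s, x j - ∏ j ∈ s, y j‖ ≤ 1 * (s.card * δ) :=
        mul_le_mul (hy j) ih (norm_nonneg _) zero_le_one
      push_cast
      linarith
  have := key univ
  rwa [card_univ, Fintype.card_fin] at this

lemma norm_prod_le_one {k : ℕ} (x : Fin k → ℂ) (hx : ∀ j, ‖x j‖ ≤ 1) : ‖∏ j, x j‖ ≤ 1 := by
  rw [norm_prod]
  exact prod_le_one (fun j _ => norm_nonneg _) fun j _ => hx j

/-- a finite net of the unit disc -/
lemma exists_net (δ : ℝ) (hδ : 0 < δ) : ∃ T : Finset ℂ, T.Nonempty ∧ (∀ t ∈ T, ‖t‖ ≤ 1) ∧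
    ∀ z : ℂ, ‖z‖ ≤ 1 → ∃ t ∈ T, ‖z - t‖ ≤ δ := by
  obtain ⟨t, ht1, ht2, ht3⟩ := (isCompact_closedBall (0 : ℂ) 1).finite_cover_balls hδ
  have key : ∀ z : ℂ, ‖z‖ ≤ 1 → ∃ x ∈ ht2.toFinset, ‖z - x‖ ≤ δ := by
    intro z hz
    have h1 : z ∈ Metric.closedBall (0 : ℂ) 1 := by rw [mem_closedBall_zero_iff]; exact hz
    have h2 := ht3 h1
    simp only [Set.mem_iUnion] at h2
    obtain ⟨x, hx, hzx⟩ := h2
    refine ⟨x, by rw [Set.Finite.mem_toFinset]; exact hx, ?_⟩
    rw [← dist_eq_norm]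
    exact (Metric.mem_ball.1 hzx).le
  refine ⟨ht2.toFinset, ?_, ?_, key⟩
  · obtain ⟨x, hx, _⟩ := key 0 (by simp)
    exact ⟨x, hx⟩
  · intro x hx
    rw [Set.Finite.mem_toFinset] at hx
    have := ht1 hx
    rwa [mem_closedBall_zero_iff] at this

lemma sum_range_mul (D : ℕ) (G : ℕ → ℝ) (p : ℕ) :
    ∑ r ∈ range (p * D), G r = ∑ i ∈ range p, ∑ j ∈ range D, G (D * i + j) := by
  induction p with
  | zero => simp
  | succ p ih =>
    rw [sum_range_succ, ← ih, Nat.succ_mul, sum_range_add]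
    congr 1
    refine sum_congr rfl fun j _ => ?_
    rw [mul_comm]

lemma sum_ex (D : ℕ) (hD : 2 ≤ D) : ∑ j ∈ range D, ex ((j : ℝ) / D) = 0 := by
  have h1 := (Complex.isPrimitiveRoot_exp D (by omega)).geom_sum_eq_zero (by omega)
  rw [← h1]
  refine sum_congr rfl fun j _ => ?_
  unfold ex
  rw [← Complex.exp_nat_mul]
  congr 1
  push_cast
  ring

/-! ## the core -/

section core

variable {k : ℕ} (f : Fin k → ℕ → ℂ) (a b : Fin k → ℕ) (w : ℕ → ℂ) (z : ℕ → ℕ → ℂ)

/-- the function -/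
noncomputable def f0 (n : ℕ) : ℝ := ((∏ j, f j (a j * n + b j)) * w n).re

/-- the dilates -/
noncomputable def gp (p x : ℕ) : ℝ := ((∏ j, conj (f j p) * f j (a j * x + p * b j)) * z p x).re

variable {f a b w z}

lemma f0_le (hf : ∀ j n, ‖f j n‖ ≤ 1) (hw : ∀ n, ‖w n‖ ≤ 1) (n : ℕ) : |f0 f a b w n| ≤ 1 := by
  refine (Complex.abs_re_le_norm _).trans ?_
  rw [norm_mul]
  exact mul_le_one₀ (norm_prod_le_one _ fun j => hf j _) (norm_nonneg _) (hw n)

lemma fac_le (hf : ∀ j n, ‖f j n‖ ≤ 1) (p : ℕ) (j : Fin k) (y : ℂ) (hy : ‖y‖ ≤ 1) : ‖conj (f j p) * y‖ ≤ 1 := by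
  rw [norm_mul, RCLike.norm_conj]
  exact mul_le_one₀ (hf j p) (norm_nonneg _) hy

lemma gp_le (hf : ∀ j n, ‖f j n‖ ≤ 1) (hz : ∀ p n, ‖z p n‖ ≤ 1) (p x : ℕ) : |gp f a b z p x| ≤ 1 := by
  refine (Complex.abs_re_le_norm _).trans ?_
  rw [norm_mul]
  exact mul_le_one₀ (norm_prod_le_one _ fun j => fac_le hf p j _ (hf j _)) (norm_nonneg _) (hz p x)

/-- the product of the squares of the moduli at a prime -/
noncomputable def rho {k : ℕ} (f : Fin k → ℕ → ℂ) (p : ℕ) : ℝ := ∏ j, ‖f j p‖ ^ 2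

lemma rho_nonneg (p : ℕ) : 0 ≤ rho f p := prod_nonneg fun _ _ => by positivity

lemma rho_le (hf : ∀ j n, ‖f j n‖ ≤ 1) (p : ℕ) : rho f p ≤ 1 :=
  prod_le_one (fun _ _ => by positivity) fun j _ => pow_le_one₀ (norm_nonneg _) (hf j p)

/-- the dilates at multiples of `p` -/
lemma gp_dil (P₀ : ℕ) (hmul : ∀ j p n, p.Prime → P₀ ≤ p → ¬ p ∣ n → f j (p * n) = f j p * f j n)
    (hwz : ∀ p n, p.Prime → z p (p * n) = w n) {p : ℕ}
    (hp : p.Prime) (hP : P₀ ≤ p) (n : ℕ) (hn : ∀ j, ¬ p ∣ a j * n + b j) :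
    gp f a b z p (p * n) = rho f p * f0 f a b w n := by
  unfold gp f0
  rw [hwz p n hp]
  have e0 : ∏ j, conj (f j p) * f j (a j * (p * n) + p * b j) = ((rho f p : ℝ) : ℂ) * ∏ j, f j (a j * n + b j) := by
    unfold rho
    push_cast
    rw [← prod_mul_distrib]
    refine prod_congr rfl fun j _ => ?_
    have e : a j * (p * n) + p * b j = p * (a j * n + b j) := by ring
    rw [e, hmul j p _ hp hP (hn j), ← mul_assoc]
    have h1 : conj (f j p) * f j p = (‖f j p‖ : ℂ) ^ 2 := by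
      rw [mul_comm, Complex.mul_conj, Complex.normSq_eq_norm_sq]
      push_cast
      rfl
    rw [h1]
  rw [e0, mul_assoc, Complex.re_ofReal_mul]

/-- the mean of the function and of the dilates -/
lemma mean_gp (μ : LM) (P₀ : ℕ) (hf : ∀ j n, ‖f j n‖ ≤ 1)
    (hmul : ∀ j p n, p.Prime → P₀ ≤ p → ¬ p ∣ n → f j (p * n) = f j p * f j n)
    (hw : ∀ n, ‖w n‖ ≤ 1) (hz : ∀ p n, ‖z p n‖ ≤ 1)
    (hwz : ∀ p n, p.Prime → z p (p * n) = w n) (ha : ∀ j, 1 ≤ a j) {p : ℕ}
    (hp : p.Prime) (hP : P₀ ≤ p) (hap : ∀ j, a j < p) :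
    |rho f p * μ.m (f0 f a b w) - μ.m (fun m => gp f a b z p (m + jj 0 p m))| ≤ 2 * k / p := by
  classical
  have b1 : Bd (f0 f a b w) := ⟨1, f0_le hf hw⟩
  have b2 : Bd (gp f a b z p) := ⟨1, gp_le hf hz p⟩
  have hr0 : 0 ≤ rho f p := rho_nonneg p
  have hr1 : rho f p ≤ 1 := rho_le hf p
  rw [shift_avg μ 0 p hp.one_lt.le b2, ← μ.smul _ _ b1, ← μ.sub (b1.cmul _) (b2.comp _)]
  have b3 : Bd (fun n => rho f p * f0 f a b w n - gp f a b z p (p * n)) := by
    have := (b1.cmul (rho f p)).add ((b2.comp (fun n => p * n)).cmul (-1))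
    simpa [sub_eq_add_neg] using this
  refine (μ.abs_le b3).trans ?_
  have h1 : ∀ n, |rho f p * f0 f a b w n - gp f a b z p (p * n)| ≤ ∑ j, 2 * ind (fun n => p ∣ a j * n + b j) n := by
    intro n
    by_cases hn : ∀ j, ¬ p ∣ a j * n + b j
    · rw [gp_dil P₀ hmul hwz hp hP n hn, sub_self, abs_zero]
      exact sum_nonneg fun j _ => mul_nonneg zero_le_two (ind_nonneg _ n)
    · push Not at hn
      obtain ⟨j, hj⟩ := hn
      have h2 := single_le_sum (f := fun j => 2 * ind (fun n => p ∣ a j * n + b j) n)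
        (fun j _ => mul_nonneg zero_le_two (ind_nonneg _ n)) (mem_univ j)
      have h3 : ind (fun n => p ∣ a j * n + b j) n = 1 := by
        unfold ind; rw [if_pos hj]
      have h4 := abs_sub (rho f p * f0 f a b w n) (gp f a b z p (p * n))
      have h5 := f0_le hf hw (a := a) (b := b) n
      have h6 := gp_le hf hz (a := a) (b := b) p (p * n)
      have h7 : |rho f p * f0 f a b w n| ≤ 1 := by
        rw [abs_mul, abs_of_nonneg hr0]
        exact mul_le_one₀ hr1 (abs_nonneg _) h5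
      simp only [h3] at h2
      linarith
  refine (μ.mono b3.abs (Bd.sum univ fun j _ => (Bd_ind _).cmul 2) h1).trans ?_
  rw [μ.sum univ fun j _ => (Bd_ind _).cmul 2]
  calc ∑ j : Fin k, μ.m (fun n => 2 * ind (fun n => p ∣ a j * n + b j) n) ≤ ∑ j : Fin k, 2 * (1 / (p : ℝ)) := by
        refine sum_le_sum fun j _ => ?_
        rw [μ.smul 2 _ (Bd_ind _)]
        exact mul_le_mul_of_nonneg_left (dvd_le μ p hp (a j) (b j) (ha j) (hap j)) zero_le_two
    _ = 2 * k / p := by
        rw [sum_const, card_univ, Fintype.card_fin, nsmul_eq_mul]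
        ring

/-- **The mean vanishes.** -/
theorem core (μ : LM) (P₀ : ℕ) (hf : ∀ j n, ‖f j n‖ ≤ 1)
    (hmul : ∀ j p n, p.Prime → P₀ ≤ p → ¬ p ∣ n → f j (p * n) = f j p * f j n)
    (hw : ∀ n, ‖w n‖ ≤ 1) (hz : ∀ p n, ‖z p n‖ ≤ 1)
    (hwz : ∀ p n, p.Prime → z p (p * n) = w n) (ha : ∀ j, 1 ≤ a j) (BB : ℝ)
    (hsum : ∀ K, ∑ i ∈ Ico 1 K, ∑ p ∈ QD i (i + 1), (1 - rho f p) / (p : ℝ) ≤ BB)
    (hloc : ∀ D : ℕ, 2 ≤ D → ∃ s : ℕ → ℕ → ℕ, Loc μ D s ∧ ∀ p, p.Prime → ∃ M₀ : ℕ, ∀ m, M₀ ≤ m → ∀ j < p,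
      ‖z p (m + j) - ex ((s p m : ℝ) / D)‖ ≤ 8 / D) :
    μ.m (f0 f a b w) = 0 := by
  classical
  set s₀ : ℝ := μ.m (f0 f a b w) with hs₀
  -- the estimate for given parameters
  have key : ∀ D : ℕ, 2 ≤ D → ∀ δ : ℝ, 0 < δ → |s₀| ≤ 8 / D + (k + 16) * δ := by
    intro D hD δ hδ
    obtain ⟨s, hs, hap⟩ := hloc D hD
    have hD0 : (0 : ℝ) < D := by exact_mod_cast (by omega : 0 < D)
    obtain ⟨T, hTne, hT1, hT2⟩ := exists_net δ hδ
    -- the quantization
    have hq : ∀ z : ℂ, ∃ t : {x // x ∈ T}, ‖z‖ ≤ 1 → ‖z - t‖ ≤ δ := by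
      intro z
      by_cases hz : ‖z‖ ≤ 1
      · obtain ⟨t, ht, h1⟩ := hT2 z hz
        exact ⟨⟨t, ht⟩, fun _ => h1⟩
      · obtain ⟨t, ht⟩ := hTne
        exact ⟨⟨t, ht⟩, fun h => absurd h hz⟩
    choose q hq using hq
    obtain ⟨t0, ht0⟩ := hTne
    haveI : Nonempty {x // x ∈ T} := ⟨⟨t0, ht0⟩⟩
    set Am : ℕ := ∑ j, a j + 1 with hAm
    have haAm : ∀ j, a j < Am := fun j => by
      have := single_le_sum (f := a) (fun _ _ => Nat.zero_le _) (mem_univ j)
      omega
    set Bm : ℕ := ∑ j, b j with hBm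
    have hbBm : ∀ j, b j ≤ Bm := fun j =>
      single_le_sum (f := b) (fun _ _ => Nat.zero_le _) (mem_univ j)
    set lt : ℕ → (Fin k → Fin Am → {x // x ∈ T}) := fun n j r => q (f j (a j * n + r)) with hlt
    obtain ⟨i₀, hi₀⟩ := cheb
    obtain ⟨N₁, hN₁⟩ := exists_nat_ge (2 * (k : ℝ) / δ)
    obtain ⟨i, hi, hdec⟩ := decouple' μ lt hs (2 * (1 + Bm)) δ hδ (max (max i₀ P₀) (max Am N₁))
      (fun i => ∑ p ∈ QD i (i + 1), (1 - rho f p) / (p : ℝ))
      (fun i => sum_nonneg fun p _ => div_nonneg (by linarith [rho_le hf p]) (Nat.cast_nonneg p)) BB hsum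
    set Ψ : ℕ → ℕ → ℕ → ℝ := fun p n r =>
      ((∏ j, conj (f j p) * (q (f j (a j * (n + (p - r / D) % p) + p * b j)) : ℂ)) * ex (((r % D : ℕ) : ℝ) / D)).re
      with hΨ
    have hΨ1 : ∀ p n r, |Ψ p n r| ≤ 1 := by
      intro p n r
      refine (Complex.abs_re_le_norm _).trans ?_
      rw [norm_mul, norm_ex, mul_one]
      exact norm_prod_le_one _ fun j => fac_le hf p j _ (hT1 _ (q _).2)
    have hΨ0 : ∀ p, 1 ≤ p → ∀ n, ∑ r ∈ range (p * D), Ψ p n r = 0 := by
      intro p _ n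
      rw [sum_range_mul]
      refine sum_eq_zero fun r1 _ => ?_
      have h1 : ∀ r2 ∈ range D, Ψ p n (D * r1 + r2) =
          ((∏ j, conj (f j p) * (q (f j (a j * (n + (p - r1) % p) + p * b j)) : ℂ)) * ex ((r2 : ℝ) / D)).re := by
        intro r2 hr2
        rw [mem_range] at hr2
        rw [hΨ]
        simp only
        rw [Nat.mul_add_div (by omega), Nat.div_eq_of_lt hr2, add_zero, Nat.mul_add_mod, Nat.mod_eq_of_lt hr2]
      rw [sum_congr rfl h1, ← Complex.re_sum, ← mul_sum, sum_ex D hD, mul_zero, Complex.zero_re]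
    have hstep : ∀ i' : ℕ, i ≤ i' → i' ≤ i + 1 →
        |s₀| * ∑ p ∈ QD i' (i' + 1), Real.log p / 2 ^ i' ≤
          5 * δ + (∑ p ∈ QD i' (i' + 1), Real.log p / 2 ^ i') * (8 / D + (k + 1) * δ) := by
      intro i' h1 h2
      have hii : max (max i₀ P₀) (max Am N₁) ≤ i' := hi.trans h1
      have hbig : ∀ p ∈ QD i' (i' + 1), p.Prime ∧ P₀ ≤ p ∧ Am ≤ p ∧ N₁ ≤ p ∧ p ≤ 2 ^ (i' + 1) := by
        intro p hp
        have hpp : p.Prime := (mem_filter.1 hp).2
        have hp1 := mem_Ioc.1 (mem_filter.1 hp).1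
        have h3 : i' < 2 ^ i' := Nat.lt_two_pow_self
        have h4 : max (max i₀ P₀) (max Am N₁) < p := by omega
        simp only [max_lt_iff] at h4
        exact ⟨hpp, h4.1.2.le, h4.2.1.le, h4.2.2.le, hp1.2⟩
      have hAm1 : 1 ≤ Am := by omega
      have hi1 : 1 ≤ i' := le_trans (le_trans hAm1 ((le_max_left _ _).trans (le_max_right _ _))) hii
      have hrho : ∑ p ∈ QD i' (i' + 1), Real.log p / 2 ^ i' * (1 - rho f p) ≤ 4 * δ := by
        have hr := (hdec i' h1 h2).1
        have hir : (1 : ℝ) ≤ i' := by exact_mod_cast hi1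
        calc ∑ p ∈ QD i' (i' + 1), Real.log p / 2 ^ i' * (1 - rho f p) ≤
              ∑ p ∈ QD i' (i' + 1), 4 * i' * ((1 - rho f p) / (p : ℝ)) := by
              refine sum_le_sum fun p hp => ?_
              obtain ⟨hpp, _, _, _, hp2⟩ := hbig p hp
              have hp0 : (0 : ℝ) < p := by exact_mod_cast hpp.pos
              have hp2r : (p : ℝ) ≤ 2 * 2 ^ i' := by
                have : ((p : ℕ) : ℝ) ≤ ((2 ^ (i' + 1) : ℕ) : ℝ) := by exact_mod_cast hp2
                rw [pow_succ] at this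
                push_cast at this
                linarith
              have hlog : Real.log p ≤ 2 * i' := by
                have h5 : Real.log p ≤ Real.log ((2 : ℝ) ^ (i' + 1)) := by
                  apply Real.log_le_log hp0
                  exact_mod_cast hp2
                rw [Real.log_pow] at h5
                push_cast at h5
                nlinarith [Real.log_two_lt_d9]
              have h6 : 0 ≤ 1 - rho f p := by linarith [rho_le hf p]
              have h7 : Real.log p / 2 ^ i' ≤ 4 * i' / p := by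
                rw [div_le_div_iff₀ (by positivity) hp0]
                have h8 : 0 ≤ Real.log (p : ℝ) := Real.log_nonneg (by exact_mod_cast hpp.one_lt.le)
                nlinarith [mul_le_mul hlog hp2r hp0.le (by positivity : (0 : ℝ) ≤ 2 * i')]
              calc Real.log p / 2 ^ i' * (1 - rho f p) ≤ 4 * i' / p * (1 - rho f p) :=
                    mul_le_mul_of_nonneg_right h7 h6
                _ = 4 * i' * ((1 - rho f p) / (p : ℝ)) := by ring
          _ = 4 * i' * ∑ p ∈ QD i' (i' + 1), (1 - rho f p) / (p : ℝ) := by rw [mul_sum]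
          _ ≤ 4 * i' * (δ / i') := mul_le_mul_of_nonneg_left hr (by positivity)
          _ = 4 * δ := by field_simp
      have hd := (hdec i' h1 h2).2 Ψ hΨ1 (by
        intro p hp n n' r hwin
        obtain ⟨hpp, _, _, _, hp2⟩ := hbig p hp
        have hval : ∀ j, q (f j (a j * (n + (p - r / D) % p) + p * b j)) =
            q (f j (a j * (n' + (p - r / D) % p) + p * b j)) := by
          intro j
          set J := (p - r / D) % p with hJ
          have hJp : J < p := Nat.mod_lt _ hpp.pos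
          set Q := p * b j / a j with hQ
          have hQle : Q ≤ p * Bm := (Nat.div_le_self _ _).trans (Nat.mul_le_mul_left p (hbBm j))
          have hdm := Nat.div_add_mod (p * b j) (a j)
          have hr : p * b j % a j < a j := Nat.mod_lt _ (ha j)
          have hidx : J + Q < 2 * (1 + Bm) * 2 ^ i' := by
            calc J + Q < p + p * Bm := by omega
              _ = (1 + Bm) * p := by ring
              _ ≤ (1 + Bm) * 2 ^ (i' + 1) := Nat.mul_le_mul_left _ hp2
              _ = 2 * (1 + Bm) * 2 ^ i' := by rw [pow_succ]; ring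
          have h3 := congrFun hwin ⟨J + Q, hidx⟩
          have h4 := congrFun (congrFun h3 j) ⟨p * b j % a j, hr.trans (haAm j)⟩
          have e1 : ∀ m : ℕ, a j * (m + J) + p * b j = a j * (m + (J + Q)) + p * b j % a j := by
            intro m
            calc a j * (m + J) + p * b j = a j * (m + J) + (a j * Q + p * b j % a j) := by rw [hQ, hdm]
              _ = _ := by ring
          rw [e1 n, e1 n']
          exact h4
        rw [hΨ]
        simp only [hval])
      have ha' : ∀ p ∈ QD i' (i' + 1), 0 ≤ Real.log p / 2 ^ i' := by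
        intro p hp
        exact div_nonneg (Real.log_nonneg (by exact_mod_cast (hbig p hp).1.one_lt.le)) (by positivity)
      have hb1 : ∀ p, Bd (fun n => Ψ p n (yv D s p n)) := fun p => ⟨1, fun n => hΨ1 p n _⟩
      -- the averages vanish
      have hd' : μ.m (fun n => |∑ p ∈ QD i' (i' + 1), Real.log p / 2 ^ i' * Ψ p n (yv D s p n)|) ≤ δ := by
        refine le_trans (le_of_eq ?_) hd
        congr 1
        funext n
        congr 1
        refine sum_congr rfl fun p hp => ?_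
        rw [hΨ0 p (hbig p hp).1.pos n, zero_div, sub_zero]
      have h3 : |∑ p ∈ QD i' (i' + 1), Real.log p / 2 ^ i' * μ.m (fun n => Ψ p n (yv D s p n))| ≤ δ := by
        have e : ∑ p ∈ QD i' (i' + 1), Real.log p / 2 ^ i' * μ.m (fun n => Ψ p n (yv D s p n)) =
            μ.m (fun n => ∑ p ∈ QD i' (i' + 1), Real.log p / 2 ^ i' * Ψ p n (yv D s p n)) := by
          rw [μ.sum _ fun p _ => (hb1 p).cmul _]
          exact sum_congr rfl fun p _ => (μ.smul _ _ (hb1 p)).symm
        rw [e]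
        exact (μ.abs_le (Bd.sum _ fun p _ => (hb1 p).cmul _)).trans hd'
      -- comparison
      have h4 : ∀ p ∈ QD i' (i' + 1), |rho f p * s₀ - μ.m (fun n => Ψ p n (yv D s p n))| ≤ 8 / D + (k + 1) * δ := by
        intro p hp
        obtain ⟨hpp, hP, hA, hN, _⟩ := hbig p hp
        have hp0 : (0 : ℝ) < p := by exact_mod_cast hpp.pos
        obtain ⟨M₀, hM₀⟩ := hap p hpp
        have h5 := mean_gp μ P₀ hf hmul hw hz hwz ha hpp hP (fun j => lt_of_lt_of_le (haAm j) hA) (b := b)
        have h6 : 2 * (k : ℝ) / p ≤ δ := by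
          rw [div_le_iff₀ hδ] at hN₁
          rw [div_le_iff₀ hp0]
          have : (N₁ : ℝ) * δ ≤ p * δ := mul_le_mul_of_nonneg_right (by exact_mod_cast hN) hδ.le
          linarith
        have b2 : Bd (fun m => gp f a b z p (m + jj 0 p m)) := ⟨1, fun m => gp_le hf hz p _⟩
        have h7 : |μ.m (fun m => gp f a b z p (m + jj 0 p m)) - μ.m (fun n => Ψ p n (yv D s p n))| ≤
            8 / D + k * δ := by
          rw [← μ.sub b2 (hb1 p)]
          have b3 : Bd (fun m => gp f a b z p (m + jj 0 p m) - Ψ p m (yv D s p m)) := by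
            have := b2.add ((hb1 p).cmul (-1))
            simpa [sub_eq_add_neg] using this
          refine abs_m_le_large μ b3 _ M₀ fun m hm => ?_
          have hJ : jj 0 p m = (p - yv D s p m / D) % p := by
            unfold jj
            rw [yv_div hs]
            ring_nf
          have hJp : jj 0 p m < p := by
            rw [hJ]; exact Nat.mod_lt _ hpp.pos
          have hmod : yv D s p m % D = s p m := yv_mod hs p m
          have e : gp f a b z p (m + jj 0 p m) - Ψ p m (yv D s p m) =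
              ((∏ j, conj (f j p) * f j (a j * (m + jj 0 p m) + p * b j)) * z p (m + jj 0 p m) -
              (∏ j, conj (f j p) * (q (f j (a j * (m + jj 0 p m) + p * b j)) : ℂ)) * ex ((s p m : ℝ) / D)).re := by
            rw [Complex.sub_re, hΨ]
            unfold gp
            simp only
            rw [← hJ, hmod]
          rw [e]
          refine (Complex.abs_re_le_norm _).trans ?_
          set X1 := ∏ j, conj (f j p) * f j (a j * (m + jj 0 p m) + p * b j) with hX1
          set X2 := ∏ j, conj (f j p) * (q (f j (a j * (m + jj 0 p m) + p * b j)) : ℂ) with hX2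
          have e2 : X1 * z p (m + jj 0 p m) - X2 * ex ((s p m : ℝ) / D) =
              X1 * (z p (m + jj 0 p m) - ex ((s p m : ℝ) / D)) + (X1 - X2) * ex ((s p m : ℝ) / D) := by ring
          rw [e2]
          refine (norm_add_le _ _).trans (add_le_add ?_ ?_)
          · rw [norm_mul]
            calc ‖X1‖ * ‖z p (m + jj 0 p m) - ex ((s p m : ℝ) / D)‖ ≤ 1 * (8 / D) :=
                  mul_le_mul (norm_prod_le_one _ fun j => fac_le hf p j _ (hf j _)) (hM₀ m hm _ hJp)
                    (norm_nonneg _) zero_le_one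
              _ = 8 / D := one_mul _
          · rw [norm_mul, norm_ex, mul_one]
            refine prod_sub_le _ _ (fun j => fac_le hf p j _ (hf j _)) (fun j => fac_le hf p j _ (hT1 _ (q _).2))
              fun j => ?_
            rw [← mul_sub, norm_mul, RCLike.norm_conj]
            calc ‖f j p‖ * _ ≤ 1 * δ := mul_le_mul (hf j p) (hq _ (hf j _)) (norm_nonneg _) zero_le_one
              _ = δ := one_mul δ
        have h8 := abs_sub_le (rho f p * s₀) (μ.m (fun m => gp f a b z p (m + jj 0 p m))) (μ.m (fun n => Ψ p n (yv D s p n)))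
        have h9 : 8 / (D : ℝ) + (k + 1) * δ = δ + (8 / D + k * δ) := by ring
        rw [h9]
        linarith
      have h5 : (∑ p ∈ QD i' (i' + 1), Real.log p / 2 ^ i') * s₀ =
          (∑ p ∈ QD i' (i' + 1), Real.log p / 2 ^ i' * (1 - rho f p)) * s₀ +
          (∑ p ∈ QD i' (i' + 1), Real.log p / 2 ^ i' * (rho f p * s₀ - μ.m (fun n => Ψ p n (yv D s p n))) +
          ∑ p ∈ QD i' (i' + 1), Real.log p / 2 ^ i' * μ.m (fun n => Ψ p n (yv D s p n))) := by
        rw [← sum_add_distrib, sum_mul, sum_mul, ← sum_add_distrib]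
        exact sum_congr rfl fun p _ => by ring
      have hs1 : |s₀| ≤ 1 := by
        rw [hs₀]
        exact abs_m_le_large μ ⟨1, f0_le hf hw⟩ 1 0 fun n _ => f0_le hf hw n
      have h6 : |∑ p ∈ QD i' (i' + 1), Real.log p / 2 ^ i' * (rho f p * s₀ - μ.m (fun n => Ψ p n (yv D s p n)))| ≤
          (∑ p ∈ QD i' (i' + 1), Real.log p / 2 ^ i') * (8 / D + (k + 1) * δ) := by
        refine (abs_sum_le_sum_abs _ _).trans ?_
        rw [sum_mul]
        refine sum_le_sum fun p hp => ?_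
        rw [abs_mul, abs_of_nonneg (ha' p hp)]
        exact mul_le_mul_of_nonneg_left (h4 p hp) (ha' p hp)
      have h6' : |(∑ p ∈ QD i' (i' + 1), Real.log p / 2 ^ i' * (1 - rho f p)) * s₀| ≤ 4 * δ := by
        rw [abs_mul, abs_of_nonneg (sum_nonneg fun p hp => mul_nonneg (ha' p hp) (by linarith [rho_le hf p]))]
        calc _ ≤ (4 * δ) * 1 := mul_le_mul hrho hs1 (abs_nonneg _) (by positivity)
          _ = 4 * δ := mul_one _
      have h7 : |s₀| * ∑ p ∈ QD i' (i' + 1), Real.log p / 2 ^ i' =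
          |(∑ p ∈ QD i' (i' + 1), Real.log p / 2 ^ i') * s₀| := by
        rw [abs_mul, abs_of_nonneg (sum_nonneg ha'), mul_comm]
      rw [h7, h5]
      refine (abs_add_le _ _).trans ?_
      have h8 := abs_add_le (∑ p ∈ QD i' (i' + 1), Real.log p / 2 ^ i' * (rho f p * s₀ - μ.m (fun n => Ψ p n (yv D s p n))))
        (∑ p ∈ QD i' (i' + 1), Real.log p / 2 ^ i' * μ.m (fun n => Ψ p n (yv D s p n)))
      linarith
    have hA := hstep i le_rfl (by omega)
    have hB := hstep (i + 1) (by omega) le_rfl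
    have hc := hi₀ i (((le_max_left _ _).trans (le_max_left _ _)).trans hi)
    set A := ∑ p ∈ QD i (i + 1), Real.log p / 2 ^ i
    set B := ∑ p ∈ QD (i + 1) (i + 1 + 1), Real.log p / 2 ^ (i + 1)
    have hc' : 1 ≤ A + 2 * B := hc
    set E := 8 / (D : ℝ) + (k + 1) * δ with hE
    have h9 : |s₀| * (A + 2 * B) ≤ 15 * δ + (A + 2 * B) * E := by nlinarith
    have h10 : (|s₀| - E) * (A + 2 * B) ≤ 15 * δ := by linarith
    by_contra hcon
    push Not at hcon
    have h11 : 15 * δ < |s₀| - E := by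
      have : 8 / (D : ℝ) + (k + 16) * δ = E + 15 * δ := by rw [hE]; ring
      linarith
    have h12 : (|s₀| - E) * 1 ≤ (|s₀| - E) * (A + 2 * B) :=
      mul_le_mul_of_nonneg_left hc' (by linarith)
    linarith
  -- the limit
  by_contra hne
  have h1 : 0 < |s₀| := abs_pos.2 hne
  obtain ⟨D, hD⟩ := exists_nat_gt (16 / |s₀|)
  have hD2 : 2 ≤ max D 2 := le_max_right _ _
  have hDr : 16 / |s₀| < ((max D 2 : ℕ) : ℝ) := lt_of_lt_of_le hD (by exact_mod_cast le_max_left _ _)
  have hD0 : (0 : ℝ) < ((max D 2 : ℕ) : ℝ) := by exact_mod_cast (by omega : 0 < max D 2)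
  rw [div_lt_iff₀ h1] at hDr
  have h2 := key (max D 2) hD2 (|s₀| / (4 * (k + 16))) (by positivity)
  have h3 : 8 / ((max D 2 : ℕ) : ℝ) < |s₀| / 2 := by
    rw [div_lt_iff₀ hD0]
    linarith
  have h4 : ((k : ℝ) + 16) * (|s₀| / (4 * (k + 16))) = |s₀| / 4 := by field_simp
  rw [h4] at h2
  linarith

end core

end Pool.Agent.Y326.Slw
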