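import Pool.Agent.Y326.Slf2
import Pool.Agent.Y326.Slw2

/-!
# Means of products of multiplicative functions with a fast phase
-/

set_option autoImplicit false

namespace Pool.Agent.Y326.Slf

open Finset Filter
open Pool.Agent.TH112.BL Pool.Agent.TH928.BLJ
open scoped ComplexConjugate
open Pool.Agent.Y326.Slw (Rv Rv_eq yv f0 gp rho rho_le rho_nonneg mean_gp gp_le f0_le fac_le norm_prod_le_one
  prod_sub_le exists_net sum_range_mul m_le_large abs_m_le_large)

section core

variable {k : ℕ} {f : Fin k → ℕ → ℂ} {a b : Fin k → ℕ} {w : ℕ → ℂ} {z : ℕ → ℕ → ℂ}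

/-- **The mean vanishes.** -/
theorem core (μ : LM) (P₀ : ℕ) (hf : ∀ j n, ‖f j n‖ ≤ 1)
    (hmul : ∀ j p n, p.Prime → P₀ ≤ p → ¬ p ∣ n → f j (p * n) = f j p * f j n)
    (hw : ∀ n, ‖w n‖ ≤ 1) (hz : ∀ p n, ‖z p n‖ ≤ 1)
    (hwz : ∀ p n, p.Prime → z p (p * n) = w n) (ha : ∀ j, 1 ≤ a j) (BB : ℝ)
    (hsum : ∀ K, ∑ i ∈ Ico 1 K, ∑ p ∈ QD i (i + 1), (1 - rho f p) / (p : ℝ) ≤ BB)
    (hloc : ∀ ε : ℝ, 0 < ε → ∀ Q : ℝ, ∃ (D M : ℕ) (s : ℕ → ℕ → ℕ) (Ap : ℕ → ℕ → ℕ → ℂ), LocB μ D M s ∧
      Q * Real.log D ≤ M ∧ Q ≤ M ∧ (∀ p t σ, ‖Ap p t σ‖ ≤ 1) ∧ (∀ p t, ∑ σ ∈ range D, Ap p t σ = 0) ∧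
      ∀ p, p.Prime → p ≠ 2 → ∃ N₀ : ℕ, ∀ m, N₀ ≤ m → ∀ j, m % M + j < M →
        ‖z p (m + j) - Ap p (m % M + j) (s p m)‖ ≤ ε) :
    μ.m (f0 f a b w) = 0 := by
  classical
  set s₀ : ℝ := μ.m (f0 f a b w) with hs₀
  -- the estimate for given parameters
  have key : ∀ ε : ℝ, 0 < ε → ∀ δ : ℝ, 0 < δ → |s₀| ≤ ε + (k + 17) * δ := by
    intro ε hε δ hδ
    obtain ⟨T, hTne, hT1, hT2⟩ := exists_net δ hδ
    -- the quantization
    have hq : ∀ z : ℂ, ∃ t : {x // x ∈ T}, ‖z‖ ≤ 1 → ‖z - t‖ ≤ δ := by
      intro z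
      by_cases hz : ‖z‖ ≤ 1
      · obtain ⟨t, ht, h1⟩ := hT2 z hz
        exact ⟨⟨t, ht⟩, fun _ => h1⟩
      · obtain ⟨t, ht⟩ := hTne
        exact ⟨⟨t, ht⟩, fun h => absurd h hz⟩
    choose q hq using hq
    obtain ⟨t0, ht0⟩ := hTne
    haveI : Nonempty {x // x ∈ T} := ⟨⟨t0, ht0⟩⟩
    set Am : ℕ := ∑ j, a j + 1 with hAm
    have haAm : ∀ j, a j < Am := fun j => by
      have := single_le_sum (f := a) (fun _ _ => Nat.zero_le _) (mem_univ j)
      omega
    set Bm : ℕ := ∑ j, b j with hBm
    have hbBm : ∀ j, b j ≤ Bm := fun j =>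
      single_le_sum (f := b) (fun _ _ => Nat.zero_le _) (mem_univ j)
    set lt : ℕ → (Fin k → Fin Am → {x // x ∈ T}) := fun n j r => q (f j (a j * n + r)) with hlt
    obtain ⟨i₀, hi₀⟩ := cheb
    obtain ⟨N₁, hN₁⟩ := exists_nat_ge (2 * (k : ℝ) / δ)
    obtain ⟨J, hJdec⟩ := decouple (A := Fin k → Fin Am → {x // x ∈ T}) (2 * (1 + Bm)) δ hδ
      (max (max i₀ P₀) (max Am N₁)) BB
    set cc : ℕ := 2 * (1 + Bm) with hcc
    obtain ⟨D, M, s, Ap, hs, hQ1, hQ2, hA1, hA0, hap⟩ :=
      hloc ε hε ((J * (cc * 2 ^ J) : ℕ) + 2 * 2 ^ (J + 1) / δ)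
    have hD0 : (0 : ℝ) < D := by exact_mod_cast hs.hD
    have hDn : 0 < D := hs.hD
    have hM0 : (0 : ℝ) < M := by exact_mod_cast hs.hM
    have hlogD : 0 ≤ Real.log (D : ℝ) := Real.log_nonneg (by exact_mod_cast hs.hD)
    have hδM : 2 * (2 : ℝ) ^ (J + 1) / M ≤ δ := by
      have h1 : 2 * (2 : ℝ) ^ (J + 1) / δ ≤ M := by
        have : (0 : ℝ) ≤ ((J * (cc * 2 ^ J) : ℕ) : ℝ) := Nat.cast_nonneg _
        linarith
      rw [div_le_iff₀ hδ] at h1
      rw [div_le_iff₀ hM0]
      linarith
    have herr : ∑ i ∈ Ico 1 (J + 1), er D M cc i / 2 ^ (i + 1) ≤ 1 := by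
      have h1 : ∀ i ∈ Ico 1 (J + 1), er D M cc i / 2 ^ (i + 1) ≤ (cc * 2 ^ J : ℕ) * Real.log D / M := by
        intro i hi
        rw [mem_Ico] at hi
        unfold er
        have h2 : ((QD 1 (i + 1)).card : ℝ) ≤ 2 ^ (i + 1) := by
          have h3 : (QD 1 (i + 1)).card ≤ 2 ^ (i + 1) := by
            unfold QD
            refine (card_filter_le _ _).trans ?_
            rw [Nat.card_Ioc]
            exact Nat.sub_le _ _
          exact_mod_cast h3
        have h3 : ((cc * 2 ^ i : ℕ) : ℝ) ≤ ((cc * 2 ^ J : ℕ) : ℝ) := by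
          exact_mod_cast Nat.mul_le_mul_left cc (Nat.pow_le_pow_right (by norm_num) (by omega))
        rw [div_le_iff₀ (by positivity)]
        calc ((cc * 2 ^ i : ℕ) / M : ℝ) * ((QD 1 (i + 1)).card * Real.log D) ≤
              ((cc * 2 ^ J : ℕ) / M : ℝ) * (2 ^ (i + 1) * Real.log D) := by
              apply mul_le_mul (div_le_div_of_nonneg_right h3 hM0.le) (mul_le_mul_of_nonneg_right h2 hlogD)
                (by positivity) (by positivity)
          _ = (cc * 2 ^ J : ℕ) * Real.log D / M * 2 ^ (i + 1) := by ring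
      refine (sum_le_sum h1).trans ?_
      rw [sum_const, Nat.card_Ico, nsmul_eq_mul]
      have h4 : ((J * (cc * 2 ^ J) : ℕ) : ℝ) * Real.log D ≤ M := by
        have h5 : 0 ≤ 2 * 2 ^ (J + 1) / δ * Real.log D := by positivity
        have h6 : ((J * (cc * 2 ^ J) : ℕ) + 2 * 2 ^ (J + 1) / δ) * Real.log D =
            ((J * (cc * 2 ^ J) : ℕ) : ℝ) * Real.log D + 2 * 2 ^ (J + 1) / δ * Real.log D := by ring
        linarith
      have h7 : ((J + 1 - 1 : ℕ) : ℝ) * (((cc * 2 ^ J : ℕ) : ℝ) * Real.log D / M) =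
          ((J * (cc * 2 ^ J) : ℕ) : ℝ) * Real.log D / M := by
        rw [Nat.add_sub_cancel]
        push_cast
        ring
      rw [h7]
      exact (div_le_one hM0).2 h4
    obtain ⟨i, hi, hiJ, hdec⟩ := hJdec μ lt D M s hs herr
      (fun i => ∑ p ∈ QD i (i + 1), (1 - rho f p) / (p : ℝ))
      (fun i => sum_nonneg fun p _ => div_nonneg (by linarith [rho_le hf p]) (Nat.cast_nonneg p)) hsum
    set Ψ : ℕ → ℕ → ℕ → ℝ := fun p n r =>
      ((∏ j, conj (f j p) * (q (f j (a j * (n + (p - r / D) % p) + p * b j)) : ℂ)) *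
        Ap p (n % M + (p - r / D) % p) (r % D)).re
      with hΨ
    have hΨ1 : ∀ p n r, |Ψ p n r| ≤ 1 := by
      intro p n r
      refine (Complex.abs_re_le_norm _).trans ?_
      rw [norm_mul]
      exact mul_le_one₀ (norm_prod_le_one _ fun j => fac_le hf p j _ (hT1 _ (q _).2)) (norm_nonneg _) (hA1 _ _ _)
    have hΨ0 : ∀ p, 1 ≤ p → ∀ n, ∑ r ∈ range (p * D), Ψ p n r = 0 := by
      intro p _ n
      rw [sum_range_mul]
      refine sum_eq_zero fun r1 _ => ?_
      have h1 : ∀ r2 ∈ range D, Ψ p n (D * r1 + r2) =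
          ((∏ j, conj (f j p) * (q (f j (a j * (n + (p - r1) % p) + p * b j)) : ℂ)) *
            Ap p (n % M + (p - r1) % p) r2).re := by
        intro r2 hr2
        rw [mem_range] at hr2
        rw [hΨ]
        simp only
        rw [Nat.mul_add_div hDn, Nat.div_eq_of_lt hr2, add_zero, Nat.mul_add_mod, Nat.mod_eq_of_lt hr2]
      rw [sum_congr rfl h1, ← Complex.re_sum, ← mul_sum, hA0, mul_zero, Complex.zero_re]
    have hstep : ∀ i' : ℕ, i ≤ i' → i' ≤ i + 1 →
        |s₀| * ∑ p ∈ QD i' (i' + 1), Real.log p / 2 ^ i' ≤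
          5 * δ + (∑ p ∈ QD i' (i' + 1), Real.log p / 2 ^ i') * (ε + (k + 2) * δ) := by
      intro i' h1 h2
      have hii : max (max i₀ P₀) (max Am N₁) ≤ i' := hi.trans h1
      have hbig : ∀ p ∈ QD i' (i' + 1), p.Prime ∧ P₀ ≤ p ∧ Am ≤ p ∧ N₁ ≤ p ∧ p ≤ 2 ^ (i' + 1) := by
        intro p hp
        have hpp : p.Prime := (mem_filter.1 hp).2
        have hp1 := mem_Ioc.1 (mem_filter.1 hp).1
        have h3 : i' < 2 ^ i' := Nat.lt_two_pow_self
        have h4 : max (max i₀ P₀) (max Am N₁) < p := by omega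
        simp only [max_lt_iff] at h4
        exact ⟨hpp, h4.1.2.le, h4.2.1.le, h4.2.2.le, hp1.2⟩
      have hAm1 : 1 ≤ Am := by omega
      have hi1 : 1 ≤ i' := le_trans (le_trans hAm1 ((le_max_left _ _).trans (le_max_right _ _))) hii
      have hrho : ∑ p ∈ QD i' (i' + 1), Real.log p / 2 ^ i' * (1 - rho f p) ≤ 4 * δ := by
        have hr := (hdec i' h1 h2).1
        have hir : (1 : ℝ) ≤ i' := by exact_mod_cast hi1
        calc ∑ p ∈ QD i' (i' + 1), Real.log p / 2 ^ i' * (1 - rho f p) ≤
              ∑ p ∈ QD i' (i' + 1), 4 * i' * ((1 - rho f p) / (p : ℝ)) := by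
              refine sum_le_sum fun p hp => ?_
              obtain ⟨hpp, _, _, _, hp2⟩ := hbig p hp
              have hp0 : (0 : ℝ) < p := by exact_mod_cast hpp.pos
              have hp2r : (p : ℝ) ≤ 2 * 2 ^ i' := by
                have : ((p : ℕ) : ℝ) ≤ ((2 ^ (i' + 1) : ℕ) : ℝ) := by exact_mod_cast hp2
                rw [pow_succ] at this
                push_cast at this
                linarith
              have hlog : Real.log p ≤ 2 * i' := by
                have h5 : Real.log p ≤ Real.log ((2 : ℝ) ^ (i' + 1)) := by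
                  apply Real.log_le_log hp0
                  exact_mod_cast hp2
                rw [Real.log_pow] at h5
                push_cast at h5
                nlinarith [Real.log_two_lt_d9]
              have h6 : 0 ≤ 1 - rho f p := by linarith [rho_le hf p]
              have h7 : Real.log p / 2 ^ i' ≤ 4 * i' / p := by
                rw [div_le_div_iff₀ (by positivity) hp0]
                have h8 : 0 ≤ Real.log (p : ℝ) := Real.log_nonneg (by exact_mod_cast hpp.one_lt.le)
                nlinarith [mul_le_mul hlog hp2r hp0.le (by positivity : (0 : ℝ) ≤ 2 * i')]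
              calc Real.log p / 2 ^ i' * (1 - rho f p) ≤ 4 * i' / p * (1 - rho f p) :=
                    mul_le_mul_of_nonneg_right h7 h6
                _ = 4 * i' * ((1 - rho f p) / (p : ℝ)) := by ring
          _ = 4 * i' * ∑ p ∈ QD i' (i' + 1), (1 - rho f p) / (p : ℝ) := by rw [mul_sum]
          _ ≤ 4 * i' * (δ / i') := mul_le_mul_of_nonneg_left hr (by positivity)
          _ = 4 * δ := by field_simp
      have hd := (hdec i' h1 h2).2 Ψ hΨ1 (by
        intro p hp n n' r hwin hmodM
        obtain ⟨hpp, _, _, _, hp2⟩ := hbig p hp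
        have hval : ∀ j, q (f j (a j * (n + (p - r / D) % p) + p * b j)) =
            q (f j (a j * (n' + (p - r / D) % p) + p * b j)) := by
          intro j
          set J := (p - r / D) % p with hJ
          have hJp : J < p := Nat.mod_lt _ hpp.pos
          set Q := p * b j / a j with hQ
          have hQle : Q ≤ p * Bm := (Nat.div_le_self _ _).trans (Nat.mul_le_mul_left p (hbBm j))
          have hdm := Nat.div_add_mod (p * b j) (a j)
          have hr : p * b j % a j < a j := Nat.mod_lt _ (ha j)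
          have hidx : J + Q < 2 * (1 + Bm) * 2 ^ i' := by
            calc J + Q < p + p * Bm := by omega
              _ = (1 + Bm) * p := by ring
              _ ≤ (1 + Bm) * 2 ^ (i' + 1) := Nat.mul_le_mul_left _ hp2
              _ = 2 * (1 + Bm) * 2 ^ i' := by rw [pow_succ]; ring
          have h3 := congrFun hwin ⟨J + Q, hidx⟩
          have h4 := congrFun (congrFun h3 j) ⟨p * b j % a j, hr.trans (haAm j)⟩
          have e1 : ∀ m : ℕ, a j * (m + J) + p * b j = a j * (m + (J + Q)) + p * b j % a j := by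
            intro m
            calc a j * (m + J) + p * b j = a j * (m + J) + (a j * Q + p * b j % a j) := by rw [hQ, hdm]
              _ = _ := by ring
          rw [e1 n, e1 n']
          exact h4
        rw [hΨ]
        simp only [hval, hmodM])
      have ha' : ∀ p ∈ QD i' (i' + 1), 0 ≤ Real.log p / 2 ^ i' := by
        intro p hp
        exact div_nonneg (Real.log_nonneg (by exact_mod_cast (hbig p hp).1.one_lt.le)) (by positivity)
      have hb1 : ∀ p, Bd (fun n => Ψ p n (yv D s p n)) := fun p => ⟨1, fun n => hΨ1 p n _⟩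
      -- the averages vanish
      have hd' : μ.m (fun n => |∑ p ∈ QD i' (i' + 1), Real.log p / 2 ^ i' * Ψ p n (yv D s p n)|) ≤ δ := by
        refine le_trans (le_of_eq ?_) hd
        congr 1
        funext n
        congr 1
        refine sum_congr rfl fun p hp => ?_
        rw [hΨ0 p (hbig p hp).1.pos n, zero_div, sub_zero]
      have h3 : |∑ p ∈ QD i' (i' + 1), Real.log p / 2 ^ i' * μ.m (fun n => Ψ p n (yv D s p n))| ≤ δ := by
        have e : ∑ p ∈ QD i' (i' + 1), Real.log p / 2 ^ i' * μ.m (fun n => Ψ p n (yv D s p n)) =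
            μ.m (fun n => ∑ p ∈ QD i' (i' + 1), Real.log p / 2 ^ i' * Ψ p n (yv D s p n)) := by
          rw [μ.sum _ fun p _ => (hb1 p).cmul _]
          exact sum_congr rfl fun p _ => (μ.smul _ _ (hb1 p)).symm
        rw [e]
        exact (μ.abs_le (Bd.sum _ fun p _ => (hb1 p).cmul _)).trans hd'
      -- comparison
      have h4 : ∀ p ∈ QD i' (i' + 1), |rho f p * s₀ - μ.m (fun n => Ψ p n (yv D s p n))| ≤ ε + (k + 2) * δ := by
        intro p hp
        obtain ⟨hpp, hP, hA, hN, hp2⟩ := hbig p hp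
        have hp0 : (0 : ℝ) < p := by exact_mod_cast hpp.pos
        obtain ⟨M₀, hM₀⟩ := hap p hpp (QDodd hi1 hp).2
        have hpM : 2 * ((p : ℝ) / M) ≤ δ := by
          have h5 : (p : ℝ) ≤ 2 ^ (J + 1) := by
            have h6 : p ≤ 2 ^ (J + 1) := hp2.trans (Nat.pow_le_pow_right (by norm_num) (by omega))
            exact_mod_cast h6
          calc 2 * ((p : ℝ) / M) ≤ 2 * (2 ^ (J + 1) / M) :=
                mul_le_mul_of_nonneg_left (div_le_div_of_nonneg_right h5 hM0.le) zero_le_two
            _ = 2 * (2 : ℝ) ^ (J + 1) / M := by ring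
            _ ≤ δ := hδM
        have h5 := mean_gp μ P₀ hf hmul hw hz hwz ha hpp hP (fun j => lt_of_lt_of_le (haAm j) hA) (b := b)
        have h6 : 2 * (k : ℝ) / p ≤ δ := by
          rw [div_le_iff₀ hδ] at hN₁
          rw [div_le_iff₀ hp0]
          have : (N₁ : ℝ) * δ ≤ p * δ := mul_le_mul_of_nonneg_right (by exact_mod_cast hN) hδ.le
          linarith
        have b2 : Bd (fun m => gp f a b z p (m + jj 0 p m)) := ⟨1, fun m => gp_le hf hz p _⟩
        have h7 : |μ.m (fun m => gp f a b z p (m + jj 0 p m)) - μ.m (fun n => Ψ p n (yv D s p n))| ≤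
            ε + (k + 1) * δ := by
          rw [← μ.sub b2 (hb1 p)]
          have b3 : Bd (fun m => gp f a b z p (m + jj 0 p m) - Ψ p m (yv D s p m)) := by
            have := b2.add ((hb1 p).cmul (-1))
            simpa [sub_eq_add_neg] using this
          have hpt : ∀ m, M₀ ≤ m → |gp f a b z p (m + jj 0 p m) - Ψ p m (yv D s p m)| -
              2 * ind (fun n => M ≤ n % M + p) m ≤ ε + k * δ := by
            intro m hm
            by_cases hgood : M ≤ m % M + p
            · have e1 : ind (fun n => M ≤ n % M + p) m = 1 := by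
                unfold ind
                rw [if_pos hgood]
              have e2 := abs_sub (gp f a b z p (m + jj 0 p m)) (Ψ p m (yv D s p m))
              have e3 : |gp f a b z p (m + jj 0 p m)| ≤ 1 := gp_le hf hz p _
              have e4 := hΨ1 p m (yv D s p m)
              have e5 : 0 ≤ (k : ℝ) * δ := by positivity
              rw [e1]
              linarith
            have e1 : ind (fun n => M ≤ n % M + p) m = 0 := by
              unfold ind
              rw [if_neg hgood]
            rw [e1, mul_zero, sub_zero]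
            have hJ : jj 0 p m = (p - yv D s p m / D) % p := by
              unfold jj
              rw [yv_div hs]
              ring_nf
            have hJp : jj 0 p m < p := by
              rw [hJ]; exact Nat.mod_lt _ hpp.pos
            have hmod : yv D s p m % D = s p m := yv_mod hs p m
            have e : gp f a b z p (m + jj 0 p m) - Ψ p m (yv D s p m) =
                ((∏ j, conj (f j p) * f j (a j * (m + jj 0 p m) + p * b j)) * z p (m + jj 0 p m) -
                (∏ j, conj (f j p) * (q (f j (a j * (m + jj 0 p m) + p * b j)) : ℂ)) *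
                  Ap p (m % M + jj 0 p m) (s p m)).re := by
              rw [Complex.sub_re, hΨ]
              unfold gp
              simp only
              rw [← hJ, hmod]
            rw [e]
            refine (Complex.abs_re_le_norm _).trans ?_
            set X1 := ∏ j, conj (f j p) * f j (a j * (m + jj 0 p m) + p * b j) with hX1
            set X2 := ∏ j, conj (f j p) * (q (f j (a j * (m + jj 0 p m) + p * b j)) : ℂ) with hX2
            have e2 : X1 * z p (m + jj 0 p m) - X2 * Ap p (m % M + jj 0 p m) (s p m) =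
                X1 * (z p (m + jj 0 p m) - Ap p (m % M + jj 0 p m) (s p m)) +
                  (X1 - X2) * Ap p (m % M + jj 0 p m) (s p m) := by ring
            rw [e2]
            refine (norm_add_le _ _).trans (add_le_add ?_ ?_)
            · rw [norm_mul]
              calc ‖X1‖ * ‖z p (m + jj 0 p m) - Ap p (m % M + jj 0 p m) (s p m)‖ ≤ 1 * ε :=
                    mul_le_mul (norm_prod_le_one _ fun j => fac_le hf p j _ (hf j _))
                      (hM₀ m hm _ (by omega)) (norm_nonneg _) zero_le_one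
                _ = ε := one_mul _
            · rw [norm_mul]
              have e6 : ‖X1 - X2‖ ≤ k * δ := by
                refine prod_sub_le _ _ (fun j => fac_le hf p j _ (hf j _)) (fun j => fac_le hf p j _ (hT1 _ (q _).2))
                  fun j => ?_
                rw [← mul_sub, norm_mul, RCLike.norm_conj]
                calc ‖f j p‖ * _ ≤ 1 * δ := mul_le_mul (hf j p) (hq _ (hf j _)) (norm_nonneg _) zero_le_one
                  _ = δ := one_mul δ
              calc ‖X1 - X2‖ * ‖Ap p (m % M + jj 0 p m) (s p m)‖ ≤ (k * δ) * 1 :=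
                    mul_le_mul e6 (hA1 _ _ _) (norm_nonneg _) (by positivity)
                _ = k * δ := mul_one _
          have b4 : Bd (fun m => |gp f a b z p (m + jj 0 p m) - Ψ p m (yv D s p m)| -
              2 * ind (fun n => M ≤ n % M + p) m) := by
            have := b3.abs.add ((Bd_ind (fun n => M ≤ n % M + p)).cmul (-2))
            simpa [sub_eq_add_neg] using this
          have h11 := m_le_large μ b4 _ M₀ hpt
          rw [μ.sub b3.abs ((Bd_ind _).cmul 2), μ.smul 2 _ (Bd_ind _)] at h11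
          have h12 := end_mean hs p
          have h13 := μ.abs_le b3
          linarith
        have h8 := abs_sub_le (rho f p * s₀) (μ.m (fun m => gp f a b z p (m + jj 0 p m))) (μ.m (fun n => Ψ p n (yv D s p n)))
        have h9 : ε + (k + 2) * δ = δ + (ε + (k + 1) * δ) := by ring
        rw [h9]
        linarith
      have h5 : (∑ p ∈ QD i' (i' + 1), Real.log p / 2 ^ i') * s₀ =
          (∑ p ∈ QD i' (i' + 1), Real.log p / 2 ^ i' * (1 - rho f p)) * s₀ +
          (∑ p ∈ QD i' (i' + 1), Real.log p / 2 ^ i' * (rho f p * s₀ - μ.m (fun n => Ψ p n (yv D s p n))) +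
          ∑ p ∈ QD i' (i' + 1), Real.log p / 2 ^ i' * μ.m (fun n => Ψ p n (yv D s p n))) := by
        rw [← sum_add_distrib, sum_mul, sum_mul, ← sum_add_distrib]
        exact sum_congr rfl fun p _ => by ring
      have hs1 : |s₀| ≤ 1 := by
        rw [hs₀]
        exact abs_m_le_large μ ⟨1, f0_le hf hw⟩ 1 0 fun n _ => f0_le hf hw n
      have h6 : |∑ p ∈ QD i' (i' + 1), Real.log p / 2 ^ i' * (rho f p * s₀ - μ.m (fun n => Ψ p n (yv D s p n)))| ≤
          (∑ p ∈ QD i' (i' + 1), Real.log p / 2 ^ i') * (ε + (k + 2) * δ) := by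
        refine (abs_sum_le_sum_abs _ _).trans ?_
        rw [sum_mul]
        refine sum_le_sum fun p hp => ?_
        rw [abs_mul, abs_of_nonneg (ha' p hp)]
        exact mul_le_mul_of_nonneg_left (h4 p hp) (ha' p hp)
      have h6' : |(∑ p ∈ QD i' (i' + 1), Real.log p / 2 ^ i' * (1 - rho f p)) * s₀| ≤ 4 * δ := by
        rw [abs_mul, abs_of_nonneg (sum_nonneg fun p hp => mul_nonneg (ha' p hp) (by linarith [rho_le hf p]))]
        calc _ ≤ (4 * δ) * 1 := mul_le_mul hrho hs1 (abs_nonneg _) (by positivity)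
          _ = 4 * δ := mul_one _
      have h7 : |s₀| * ∑ p ∈ QD i' (i' + 1), Real.log p / 2 ^ i' =
          |(∑ p ∈ QD i' (i' + 1), Real.log p / 2 ^ i') * s₀| := by
        rw [abs_mul, abs_of_nonneg (sum_nonneg ha'), mul_comm]
      rw [h7, h5]
      refine (abs_add_le _ _).trans ?_
      have h8 := abs_add_le (∑ p ∈ QD i' (i' + 1), Real.log p / 2 ^ i' * (rho f p * s₀ - μ.m (fun n => Ψ p n (yv D s p n))))
        (∑ p ∈ QD i' (i' + 1), Real.log p / 2 ^ i' * μ.m (fun n => Ψ p n (yv D s p n)))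
      linarith
    have hA := hstep i le_rfl (by omega)
    have hB := hstep (i + 1) (by omega) le_rfl
    have hc := hi₀ i (((le_max_left _ _).trans (le_max_left _ _)).trans hi)
    set A := ∑ p ∈ QD i (i + 1), Real.log p / 2 ^ i
    set B := ∑ p ∈ QD (i + 1) (i + 1 + 1), Real.log p / 2 ^ (i + 1)
    have hc' : 1 ≤ A + 2 * B := hc
    set E := ε + (k + 2) * δ with hE
    have h9 : |s₀| * (A + 2 * B) ≤ 15 * δ + (A + 2 * B) * E := by nlinarith
    have h10 : (|s₀| - E) * (A + 2 * B) ≤ 15 * δ := by linarith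
    by_contra hcon
    push Not at hcon
    have h11 : 15 * δ < |s₀| - E := by
      have : ε + (k + 17) * δ = E + 15 * δ := by rw [hE]; ring
      linarith
    have h12 : (|s₀| - E) * 1 ≤ (|s₀| - E) * (A + 2 * B) :=
      mul_le_mul_of_nonneg_left hc' (by linarith)
    linarith
  -- the limit
  by_contra hne
  have h1 : 0 < |s₀| := abs_pos.2 hne
  have h2 := key (|s₀| / 4) (by positivity) (|s₀| / (4 * (k + 17))) (by positivity)
  have h4 : ((k : ℝ) + 17) * (|s₀| / (4 * (k + 17))) = |s₀| / 4 := by field_simp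
  rw [h4] at h2
  linarith

end core

end Pool.Agent.Y326.Slf
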