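import Pool.Agent.Y326.Slw2

/-!
# Multiplicative functions with small values at many primes have mean zero
-/

set_option autoImplicit false

namespace Pool.Agent.Y326.Slw

open Finset Filter
open Pool.Agent.TH112.BL Pool.Agent.TH928.BLJ

noncomputable section

lemma dil_div (μ : LM) {p : ℕ} (hp : 1 ≤ p) {φ : ℕ → ℝ} (hφ : Bd φ) :
    μ.m (fun n => if p ∣ n then φ n else 0) = μ.m (fun n => φ (p * n)) / p := by
  have hp0 : (0 : ℝ) < p := by exact_mod_cast hp
  have b1 : Bd (fun n => if p ∣ n then φ n else 0) := by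
    obtain ⟨C, hC⟩ := hφ
    refine ⟨C, fun n => ?_⟩
    have hC0 : 0 ≤ C := (abs_nonneg _).trans (hC 0)
    dsimp only
    split_ifs
    · exact hC n
    · simpa using hC0
  rw [μ.dil p φ hp hφ, eq_div_iff hp0.ne', mul_comm, ← μ.smul _ _ b1]
  congr 1
  funext n
  split_ifs <;> ring

/-- coprime to all the primes in `P` -/
def cp (P : Finset ℕ) (n : ℕ) : ℝ := by classical exact if ∀ p ∈ P, ¬ p ∣ n then 1 else 0

lemma cp_nonneg (P : Finset ℕ) (n : ℕ) : 0 ≤ cp P n := by unfold cp; split_ifs <;> norm_num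

lemma cp_le (P : Finset ℕ) (n : ℕ) : cp P n ≤ 1 := by unfold cp; split_ifs <;> norm_num

lemma cp_insert (P : Finset ℕ) (p n : ℕ) : cp (insert p P) n = if p ∣ n then 0 else cp P n := by
  classical
  unfold cp
  by_cases h1 : p ∣ n
  · rw [if_pos h1, if_neg]
    intro h
    exact h p (mem_insert_self p P) h1
  · rw [if_neg h1]
    congr 1
    apply propext
    constructor
    · intro h q hq
      exact h q (mem_insert_of_mem hq)
    · intro h q hq
      rcases mem_insert.1 hq with rfl | hq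
      · exact h1
      · exact h q hq

lemma cp_dil (P : Finset ℕ) (hP : ∀ q ∈ P, q.Prime) {p : ℕ} (hp : p.Prime) (hpP : p ∉ P) (n : ℕ) : cp P (p * n) = cp P n := by
  classical
  unfold cp
  congr 1
  apply propext
  constructor
  · intro h q hq hd
    exact h q hq (hd.mul_left p)
  · intro h q hq hd
    rcases ((hP q hq).dvd_mul).1 hd with h1 | h1
    · exact hpP (((Nat.prime_dvd_prime_iff_eq (hP q hq) hp).1 h1) ▸ hq)
    · exact h q hq h1

section

variable {μ : LM} {g : ℕ → ℝ}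

lemma bd_gcp (hg0 : ∀ n, 0 ≤ g n) (hg1 : ∀ n, g n ≤ 1) (P : Finset ℕ) : Bd (fun n => g n * cp P n) :=
  ⟨1, fun n => by
    rw [abs_of_nonneg (mul_nonneg (hg0 n) (cp_nonneg P n))]
    exact mul_le_one₀ (hg1 n) (cp_nonneg P n) (cp_le P n)⟩

lemma bd_cp (P : Finset ℕ) : Bd (fun n => cp P n) :=
  ⟨1, fun n => by
    rw [abs_of_nonneg (cp_nonneg P n)]
    exact cp_le P n⟩

lemma mean_cp (μ : LM) (P : Finset ℕ) (hP : ∀ q ∈ P, q.Prime) : μ.m (fun n => cp P n) = ∏ p ∈ P, (1 - 1 / (p : ℝ)) := by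
  classical
  induction P using Finset.induction_on with
  | empty =>
    rw [prod_empty, ← μ.one]
    congr 1
  | insert p P hp ih =>
    have hpp := hP p (mem_insert_self p P)
    have hP' : ∀ q ∈ P, q.Prime := fun q hq => hP q (mem_insert_of_mem hq)
    rw [prod_insert hp, ← ih hP']
    have hp0 : (0 : ℝ) < p := by exact_mod_cast hpp.pos
    have h1 := dil_div μ hpp.one_lt.le (bd_cp P)
    have e1 : (fun n => cp P (p * n)) = fun n => cp P n := by
      funext n
      exact cp_dil P hP' hpp hp n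
    rw [e1] at h1
    have e2 : (fun n => cp P n) = fun n => cp (insert p P) n + (if p ∣ n then cp P n else 0) := by
      funext n
      rw [cp_insert]
      split_ifs <;> ring
    have b2 : Bd (fun n => if p ∣ n then cp P n else 0) := ⟨1, fun n => by
      dsimp only
      split_ifs
      · rw [abs_of_nonneg (cp_nonneg P n)]; exact cp_le P n
      · simp⟩
    have h2 : μ.m (fun n => cp P n) = μ.m (fun n => cp (insert p P) n) + μ.m (fun n => if p ∣ n then cp P n else 0) := by
      rw [← μ.add _ _ (bd_cp _) b2, ← e2]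
    rw [h1] at h2
    field_simp at h2 ⊢
    linarith

lemma mean_le_prod (hg0 : ∀ n, 0 ≤ g n) (hg1 : ∀ n, g n ≤ 1) (P₀ : ℕ)
    (hmul : ∀ p n, p.Prime → P₀ ≤ p → ¬ p ∣ n → g (p * n) = g p * g n) (P : Finset ℕ) (hP : ∀ q ∈ P, q.Prime ∧ P₀ ≤ q) :
    μ.m g ≤ (∏ p ∈ P, (1 + g p / p)) * μ.m (fun n => g n * cp P n) + ∑ p ∈ P, 1 / (p : ℝ) ^ 2 := by
  classical
  induction P using Finset.induction_on with
  | empty =>
    rw [prod_empty, sum_empty, one_mul, add_zero]
    apply le_of_eq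
    congr 1
    funext n
    simp [cp]
  | insert p P hp ih =>
    have hpp := (hP p (mem_insert_self p P)).1
    have hP0 := (hP p (mem_insert_self p P)).2
    have hP' : ∀ q ∈ P, q.Prime ∧ P₀ ≤ q := fun q hq => hP q (mem_insert_of_mem hq)
    have hP'' : ∀ q ∈ P, q.Prime := fun q hq => (hP' q hq).1
    have hp0 : (0 : ℝ) < p := by exact_mod_cast hpp.pos
    have h1 := dil_div μ hpp.one_lt.le (bd_gcp hg0 hg1 P)
    have b2 : Bd (fun n => if p ∣ n then g n * cp P n else 0) := ⟨1, fun n => by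
      dsimp only
      split_ifs
      · rw [abs_of_nonneg (mul_nonneg (hg0 n) (cp_nonneg P n))]
        exact mul_le_one₀ (hg1 n) (cp_nonneg P n) (cp_le P n)
      · simp⟩
    have b3 : Bd (fun n => if p ∣ n then cp P n else 0) := ⟨1, fun n => by
      dsimp only
      split_ifs
      · rw [abs_of_nonneg (cp_nonneg P n)]; exact cp_le P n
      · simp⟩
    have h2 : μ.m (fun n => g n * cp P n) = μ.m (fun n => g n * cp (insert p P) n) +
        μ.m (fun n => if p ∣ n then g n * cp P n else 0) := by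
      rw [← μ.add _ _ (bd_gcp hg0 hg1 _) b2]
      congr 1
      funext n
      rw [cp_insert]
      split_ifs <;> ring
    have h3 : μ.m (fun n => g (p * n) * cp P (p * n)) ≤ g p * μ.m (fun n => g n * cp (insert p P) n) +
        μ.m (fun n => cp P n) / p := by
      have e3 := dil_div μ hpp.one_lt.le (bd_cp P)
      have e1 : (fun n => cp P (p * n)) = fun n => cp P n := by
        funext n
        exact cp_dil P hP'' hpp hp n
      rw [e1] at e3
      rw [← e3, ← μ.smul _ _ (bd_gcp hg0 hg1 _), ← μ.add _ _ ((bd_gcp hg0 hg1 _).cmul _) b3]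
      apply μ.mono
      · refine ⟨1, fun n => ?_⟩
        rw [abs_of_nonneg (mul_nonneg (hg0 _) (cp_nonneg P _))]
        exact mul_le_one₀ (hg1 _) (cp_nonneg P _) (cp_le P _)
      · exact ((bd_gcp hg0 hg1 _).cmul _).add b3
      · intro n
        rw [cp_dil P hP'' hpp hp n, cp_insert]
        split_ifs with hd
        · rw [mul_zero, mul_zero, zero_add]
          exact mul_le_of_le_one_left (cp_nonneg P n) (hg1 _)
        · rw [hmul p n hpp hP0 hd]
          linarith
    rw [h1] at h2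
    have hc1 : μ.m (fun n => cp P n) = ∏ p ∈ P, (1 - 1 / (p : ℝ)) := mean_cp μ P hP''
    have hA0 : 0 ≤ ∏ q ∈ P, (1 + g q / (q : ℝ)) := prod_nonneg fun q _ => by
      have := hg0 q
      positivity
    have hAc : (∏ q ∈ P, (1 + g q / (q : ℝ))) * μ.m (fun n => cp P n) ≤ 1 := by
      rw [hc1, ← prod_mul_distrib]
      apply prod_le_one
      · intro q hq
        have hq1 : (1 : ℝ) ≤ q := by exact_mod_cast (hP'' q hq).one_lt.le
        have h5 : 1 / (q : ℝ) ≤ 1 := by rw [div_le_one (by linarith)]; exact hq1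
        have h6 := hg0 q
        exact mul_nonneg (by positivity) (by linarith)
      · intro q hq
        have hq1 : (1 : ℝ) ≤ q := by exact_mod_cast (hP'' q hq).one_lt.le
        have h5 : 1 / (q : ℝ) ≤ 1 := by rw [div_le_one (by linarith)]; exact hq1
        have h6 := hg1 q
        have h7 : g q / (q : ℝ) ≤ 1 / q := div_le_div_of_nonneg_right h6 (by linarith)
        have h8 : 0 ≤ 1 / (q : ℝ) := by positivity
        nlinarith
    have h9 : μ.m (fun n => g n * cp P n) ≤ (1 + g p / p) * μ.m (fun n => g n * cp (insert p P) n) + μ.m (fun n => cp P n) / (p : ℝ) ^ 2 := by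
      rw [h2]
      have h10 := div_le_div_of_nonneg_right h3 hp0.le
      have e : (g p * μ.m (fun n => g n * cp (insert p P) n) + μ.m (fun n => cp P n) / p) / (p : ℝ) =
          g p / p * μ.m (fun n => g n * cp (insert p P) n) + μ.m (fun n => cp P n) / (p : ℝ) ^ 2 := by
        field_simp
      rw [e] at h10
      linarith
    rw [prod_insert hp, sum_insert hp]
    refine (ih hP').trans ?_
    have h11 := mul_le_mul_of_nonneg_left h9 hA0
    have h12 : (∏ q ∈ P, (1 + g q / (q : ℝ))) * (μ.m (fun n => cp P n) / (p : ℝ) ^ 2) ≤ 1 / (p : ℝ) ^ 2 := by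
      rw [← mul_div_assoc]
      exact div_le_div_of_nonneg_right hAc (by positivity)
    nlinarith

/-- the primes contribute a divergent sum: the mean is zero -/
theorem mean_zero_of_div (hg0 : ∀ n, 0 ≤ g n) (hg1 : ∀ n, g n ≤ 1) (P₀ : ℕ)
    (hmul : ∀ p n, p.Prime → P₀ ≤ p → ¬ p ∣ n → g (p * n) = g p * g n)
    (hdiv : ∀ K : ℝ, ∃ P : Finset ℕ, (∀ p ∈ P, p.Prime) ∧ K ≤ ∑ p ∈ P, (1 - g p) / (p : ℝ)) : μ.m g = 0 := by
  classical
  have bg : Bd g := ⟨1, fun n => by rw [abs_of_nonneg (hg0 n)]; exact hg1 n⟩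
  have h0 : 0 ≤ μ.m g := μ.nonneg _ bg hg0
  have main : ∀ ε : ℝ, 0 < ε → μ.m g ≤ 3 * ε := by
    intro ε hε
    obtain ⟨y, hy⟩ := exists_nat_gt (1 / ε)
    set Y := max y P₀ + 1 with hY
    have hY1 : 1 / ε < Y := lt_trans hy (by
      have : y < Y := by omega
      exact_mod_cast this)
    have hY0 : (0 : ℝ) < Y := lt_trans (by positivity) hY1
    obtain ⟨P, hP, hK⟩ := hdiv (-Real.log ε + ∑ p ∈ range (Y + 1), (1 : ℝ))
    set Q := P.filter (fun p => Y < p) with hQ
    have hQp : ∀ q ∈ Q, q.Prime ∧ P₀ ≤ q := by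
      intro q hq
      rw [hQ, mem_filter] at hq
      exact ⟨hP q hq.1, by omega⟩
    have h1 := mean_le_prod (μ := μ) hg0 hg1 P₀ hmul Q hQp
    have hsum : -Real.log ε ≤ ∑ p ∈ Q, (1 - g p) / (p : ℝ) := by
      have h2 := sum_filter_add_sum_filter_not P (fun p => Y < p) (fun p => (1 - g p) / (p : ℝ))
      have h3 : ∑ p ∈ P.filter (fun p => ¬ Y < p), (1 - g p) / (p : ℝ) ≤ ∑ p ∈ range (Y + 1), (1 : ℝ) := by
        refine (sum_le_sum_of_subset_of_nonneg (t := range (Y + 1)) ?_ ?_).trans (sum_le_sum ?_)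
        · intro p hp
          rw [mem_filter] at hp
          rw [mem_range]
          omega
        · intro p _ _
          exact div_nonneg (by linarith [hg1 p]) (Nat.cast_nonneg p)
        · intro p _
          rcases Nat.eq_zero_or_pos p with rfl | hp
          · simp
          · have : (1 : ℝ) ≤ p := by exact_mod_cast hp
            rw [div_le_one (by linarith)]
            linarith [hg0 p]
      linarith
    have hcp : μ.m (fun n => g n * cp Q n) ≤ ∏ p ∈ Q, (1 - 1 / (p : ℝ)) := by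
      rw [← mean_cp μ Q fun q hq => (hQp q hq).1]
      exact μ.mono (bd_gcp hg0 hg1 Q) (bd_cp Q) fun n => mul_le_of_le_one_left (cp_nonneg Q n) (hg1 n)
    have hA0 : 0 ≤ ∏ q ∈ Q, (1 + g q / (q : ℝ)) := prod_nonneg fun q _ => by
      have := hg0 q
      positivity
    have h4 : (∏ p ∈ Q, (1 + g p / (p : ℝ))) * μ.m (fun n => g n * cp Q n) ≤ ε := by
      refine (mul_le_mul_of_nonneg_left hcp hA0).trans ?_
      rw [← prod_mul_distrib]
      have h5 : ∏ p ∈ Q, ((1 + g p / (p : ℝ)) * (1 - 1 / (p : ℝ))) ≤ ∏ p ∈ Q, Real.exp (-((1 - g p) / (p : ℝ))) := by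
        apply Finset.prod_le_prod
        · intro q hq
          have hq1 : (1 : ℝ) ≤ q := by exact_mod_cast (hQp q hq).1.one_lt.le
          have h5 : 1 / (q : ℝ) ≤ 1 := by rw [div_le_one (by linarith)]; exact hq1
          have h6 := hg0 q
          exact mul_nonneg (by positivity) (by linarith)
        · intro q hq
          have hq1 : (1 : ℝ) ≤ q := by exact_mod_cast (hQp q hq).1.one_lt.le
          have h6 := Real.add_one_le_exp (-((1 - g q) / (q : ℝ)))
          refine le_trans ?_ h6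
          have e : (1 + g q / (q : ℝ)) * (1 - 1 / (q : ℝ)) = -((1 - g q) / q) + 1 - g q / (q : ℝ) ^ 2 := by
            field_simp
            ring
          rw [e]
          have h7 : 0 ≤ g q / (q : ℝ) ^ 2 := div_nonneg (hg0 q) (by positivity)
          linarith
      refine h5.trans ?_
      rw [← Real.exp_sum, sum_neg_distrib]
      calc Real.exp (-∑ p ∈ Q, (1 - g p) / (p : ℝ)) ≤ Real.exp (Real.log ε) := Real.exp_le_exp.2 (by linarith)
        _ = ε := Real.exp_log hε
    have h6 : ∑ p ∈ Q, 1 / (p : ℝ) ^ 2 ≤ 2 * ε := by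
      obtain ⟨M, hM⟩ : ∃ M, ∀ p ∈ Q, p < M := ⟨∑ p ∈ Q, p + 1, fun p hp => by
        have h9 : p ≤ ∑ p ∈ Q, p := single_le_sum (f := fun p => p) (fun _ _ => Nat.zero_le _) hp
        omega⟩
      have h7 : ∑ p ∈ Q, 1 / (p : ℝ) ^ 2 ≤ ∑ p ∈ Ioo Y M, 1 / (p : ℝ) ^ 2 := by
        apply sum_le_sum_of_subset_of_nonneg
        · intro p hp
          rw [mem_Ioo]
          rw [hQ, mem_filter] at hp
          exact ⟨hp.2, hM p (by rw [hQ, mem_filter]; exact hp)⟩
        · intro p _ _
          positivity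
      have h8 : ∑ p ∈ Ioo Y M, 1 / (p : ℝ) ^ 2 ≤ 2 / ((Y : ℝ) + 1) := by
        have := sum_Ioo_inv_sq_le (α := ℝ) Y M
        simpa [one_div] using this
      have h9 : 2 / ((Y : ℝ) + 1) ≤ 2 * ε := by
        rw [div_le_iff₀ (by linarith)]
        have h10 : 1 < (Y : ℝ) * ε := by
          rw [div_lt_iff₀ hε] at hY1
          exact hY1
        nlinarith
      linarith
    linarith
  by_contra hne
  have h1 : 0 < μ.m g := lt_of_le_of_ne h0 (Ne.symm hne)
  have := main (μ.m g / 4) (by positivity)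
  linarith

/-- linear forms -/
lemma mean_lin {g : ℕ → ℝ} (hg0 : ∀ n, 0 ≤ g n) (hg1 : ∀ n, g n ≤ 1) (h0 : μ.m g = 0) (a b : ℕ) (ha : 1 ≤ a) :
    μ.m (fun n => g (a * n + b)) = 0 := by
  have bg : Bd g := ⟨1, fun n => by rw [abs_of_nonneg (hg0 n)]; exact hg1 n⟩
  have bg' : Bd (fun n => g (n + b)) := ⟨1, fun n => by rw [abs_of_nonneg (hg0 _)]; exact hg1 _⟩
  have h1 : μ.m (fun n => g (n + b)) = 0 := by
    rw [← h0]
    clear ha
    induction b with
    | zero => rfl
    | succ b ih =>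
      have bb : Bd (fun n => g (n + b)) := ⟨1, fun n => by rw [abs_of_nonneg (hg0 _)]; exact hg1 _⟩
      rw [← ih bb, ← μ.shift _ bb]
      congr 1
      funext n
      congr 1
      ring
  have h2 := μ.dil a (fun n => g (n + b)) ha bg'
  have ha0 : (0 : ℝ) ≤ a := Nat.cast_nonneg a
  have h3 : μ.m (fun n => if a ∣ n then (a : ℝ) * g (n + b) else 0) ≤ a * μ.m (fun n => g (n + b)) := by
    rw [← μ.smul _ _ bg']
    apply μ.mono _ (bg'.cmul _)
    · intro n
      split_ifs
      · exact le_rfl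
      · exact mul_nonneg ha0 (hg0 _)
    · refine ⟨a, fun n => ?_⟩
      dsimp only
      split_ifs
      · rw [abs_of_nonneg (mul_nonneg ha0 (hg0 _))]
        exact mul_le_of_le_one_right ha0 (hg1 _)
      · simpa using ha0
  rw [h1, mul_zero] at h3
  apply le_antisymm
  · rw [h2]; exact h3
  · exact μ.nonneg _ ⟨1, fun n => by rw [abs_of_nonneg (hg0 _)]; exact hg1 _⟩ fun n => hg0 _

end

lemma one_sub_prod {ι : Type*} (s : Finset ι) (x : ι → ℝ) (h0 : ∀ i, 0 ≤ x i) (h1 : ∀ i, x i ≤ 1) :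
    1 - ∏ i ∈ s, x i ≤ ∑ i ∈ s, (1 - x i) := by
  classical
  induction s using Finset.induction_on with
  | empty => simp
  | insert i s hi ih =>
    rw [prod_insert hi, sum_insert hi]
    have h2 : 0 ≤ ∏ i ∈ s, x i := prod_nonneg fun i _ => h0 i
    have h3 : ∏ i ∈ s, x i ≤ 1 := prod_le_one (fun i _ => h0 i) fun i _ => h1 i
    nlinarith [h0 i, h1 i]

lemma QD_disj {i j : ℕ} (hij : i ≠ j) : Disjoint (QD i (i + 1)) (QD j (j + 1)) := by
  wlog h : i < j with H
  · exact (H hij.symm (by omega)).symm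
  rw [Finset.disjoint_left]
  intro p hp hq
  unfold QD at hp hq
  rw [mem_filter, mem_Ioc] at hp hq
  have : 2 ^ (i + 1) ≤ 2 ^ j := Nat.pow_le_pow_right (by norm_num) h
  omega

/-- the dichotomy for products of values -/
theorem dichotomy (μ : LM) {k : ℕ} {f : Fin k → ℕ → ℂ} {a b : Fin k → ℕ} (P₀ : ℕ) (hf : ∀ j n, ‖f j n‖ ≤ 1)
    (hmul : ∀ j p n, p.Prime → P₀ ≤ p → ¬ p ∣ n → f j (p * n) = f j p * f j n) (ha : ∀ j, 1 ≤ a j)
    {w : ℕ → ℂ} (hw : ∀ n, ‖w n‖ ≤ 1) :
    (∃ BB : ℝ, ∀ K, ∑ i ∈ Ico 1 K, ∑ p ∈ QD i (i + 1), (1 - rho f p) / (p : ℝ) ≤ BB) ∨ μ.m (f0 f a b w) = 0 := by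
  classical
  by_cases hd : ∃ j, ∀ K : ℝ, ∃ P : Finset ℕ, (∀ p ∈ P, p.Prime) ∧ K ≤ ∑ p ∈ P, (1 - ‖f j p‖) / (p : ℝ)
  · right
    obtain ⟨j, hj⟩ := hd
    have h1 := mean_zero_of_div (μ := μ) (g := fun n => ‖f j n‖) (fun n => norm_nonneg _) (hf j) P₀
      (fun p n hp h0 hn => by rw [hmul j p n hp h0 hn, norm_mul]) hj
    have h2 := mean_lin (μ := μ) (g := fun n => ‖f j n‖) (fun n => norm_nonneg _) (hf j) h1 (a j) (b j) (ha j)
    have b1 : Bd (f0 f a b w) := ⟨1, f0_le hf hw⟩
    have h3 : |μ.m (f0 f a b w)| ≤ 0 := by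
      rw [← h2]
      refine (μ.abs_le b1).trans (μ.mono b1.abs ⟨1, fun n => by rw [abs_of_nonneg (norm_nonneg _)]; exact hf j _⟩ fun n => ?_)
      refine (Complex.abs_re_le_norm _).trans ?_
      rw [norm_mul, norm_prod]
      refine (mul_le_of_le_one_right (prod_nonneg fun _ _ => norm_nonneg _) (hw n)).trans ?_
      rw [← mul_prod_erase univ _ (mem_univ j)]
      exact mul_le_of_le_one_right (norm_nonneg _) (prod_le_one (fun _ _ => norm_nonneg _) fun j _ => hf j _)
    exact abs_nonpos_iff.1 h3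
  · left
    push Not at hd
    choose C hC using hd
    refine ⟨2 * ∑ j, C j, fun K => ?_⟩
    set P := (Ico 1 K).biUnion (fun i => QD i (i + 1)) with hP
    have hPp : ∀ p ∈ P, p.Prime := by
      intro p hp
      rw [hP, mem_biUnion] at hp
      obtain ⟨i, _, hi⟩ := hp
      exact (mem_filter.1 hi).2
    have e1 : ∑ i ∈ Ico 1 K, ∑ p ∈ QD i (i + 1), (1 - rho f p) / (p : ℝ) = ∑ p ∈ P, (1 - rho f p) / (p : ℝ) := by
      rw [hP, sum_biUnion]
      intro i _ j _ hij
      exact QD_disj hij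
    rw [e1]
    have h1 : ∀ p : ℕ, (1 - rho f p) / (p : ℝ) ≤ ∑ j, 2 * ((1 - ‖f j p‖) / (p : ℝ)) := by
      intro p
      have h2 := one_sub_prod univ (fun j => ‖f j p‖ ^ 2) (fun j => by positivity) (fun j => pow_le_one₀ (norm_nonneg _) (hf j p))
      have h3 : ∑ j, (1 - ‖f j p‖ ^ 2) ≤ ∑ j, 2 * (1 - ‖f j p‖) := by
        refine sum_le_sum fun j _ => ?_
        have := hf j p
        have := norm_nonneg (f j p)
        nlinarith
      have h4 : (1 - rho f p) ≤ ∑ j, 2 * (1 - ‖f j p‖) := h2.trans h3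
      have h5 := div_le_div_of_nonneg_right h4 (Nat.cast_nonneg p : (0 : ℝ) ≤ p)
      refine h5.trans (le_of_eq ?_)
      rw [sum_div]
      exact sum_congr rfl fun j _ => by ring
    refine (sum_le_sum fun p _ => h1 p).trans ?_
    rw [sum_comm, mul_sum]
    refine sum_le_sum fun j _ => ?_
    rw [← mul_sum]
    exact mul_le_mul_of_nonneg_left (hC j P hPp).le zero_le_two

end

end Pool.Agent.Y326.Slw
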