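import Pool.Agent.Y326.Slw3
import Pool.Agent.Y326.Slw12

/-!
# Slow phases: the local variables
-/

set_option autoImplicit false

namespace Pool.Agent.Y326.Slw

open Finset Filter MeasureTheory
open Pool.Agent.TH112.BL Pool.Agent.TH928.BLJ

/-- the slow variable with `D` values -/
noncomputable def sv (φ : ℝ → ℝ) (D p m : ℕ) : ℕ := (⌊(D : ℝ) * φ ((m : ℝ) / p)⌋ % (D : ℤ)).toNat

section

variable {φ : ℝ → ℝ} {D : ℕ}

lemma sv_cast (hD : 1 ≤ D) (p m : ℕ) : ((sv φ D p m : ℕ) : ℤ) = ⌊(D : ℝ) * φ ((m : ℝ) / p)⌋ % (D : ℤ) := by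
  unfold sv
  apply Int.toNat_of_nonneg
  exact Int.emod_nonneg _ (by exact_mod_cast (by omega : D ≠ 0))

lemma sv_lt (hD : 1 ≤ D) (p m : ℕ) : sv φ D p m < D := by
  have h1 := sv_cast (φ := φ) hD p m
  have h2 := Int.emod_lt_of_pos ⌊(D : ℝ) * φ ((m : ℝ) / p)⌋ (by exact_mod_cast hD : (0 : ℤ) < D)
  rw [← h1] at h2
  exact_mod_cast h2

/-- the phase and the slow variable -/
lemma sv_approx (hD : 1 ≤ D) (p m : ℕ) : ∃ q : ℤ,
    |φ ((m : ℝ) / p) - ((sv φ D p m : ℝ) / D + q)| ≤ 1 / D ∧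
    |φ ((m : ℝ) / p) - ((2 * (sv φ D p m : ℝ) + 1) / (2 * D) + q)| ≤ 1 / (2 * D) := by
  have hD0 : (0 : ℝ) < D := by exact_mod_cast hD
  set u := φ ((m : ℝ) / p) with hu
  have h1 := sv_cast (φ := φ) hD p m
  have h2 := Int.emod_add_mul_ediv ⌊(D : ℝ) * u⌋ (D : ℤ)
  set q := ⌊(D : ℝ) * u⌋ / (D : ℤ) with hq
  rw [← h1] at h2
  have h3 : ((⌊(D : ℝ) * u⌋ : ℤ) : ℝ) = (sv φ D p m : ℝ) + D * q := by
    rw [← h2]; push_cast; ring
  have h4 := Int.floor_le ((D : ℝ) * u)
  have h5 := Int.lt_floor_add_one ((D : ℝ) * u)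
  rw [h3] at h4 h5
  refine ⟨q, ?_, ?_⟩
  · have e : u - ((sv φ D p m : ℝ) / D + q) = (D * u - (sv φ D p m + D * q)) / D := by field_simp
    rw [e, abs_div, abs_of_pos hD0]
    apply div_le_div_of_nonneg_right _ hD0.le
    rw [abs_le]
    constructor <;> linarith
  · have e : u - ((2 * (sv φ D p m : ℝ) + 1) / (2 * D) + q) =
        (2 * (D * u - (sv φ D p m + D * q)) - 1) / (2 * D) := by field_simp; ring
    rw [e, abs_div, abs_of_pos (by positivity : (0 : ℝ) < 2 * D)]
    apply div_le_div_of_nonneg_right _ (by positivity)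
    rw [abs_le]
    constructor <;> linarith

lemma circ_dist_le (x y : ℝ) (q : ℤ) : dist ((x : ℝ) : UnitAddCircle) ((y : ℝ) : UnitAddCircle) ≤ |x - (y + q)| := by
  have e : ((y : ℝ) : UnitAddCircle) = ((y + q : ℝ) : UnitAddCircle) := by
    have h1 : (((q : ℤ) : ℝ) : UnitAddCircle) = 0 := by
      have := AddCircle.coe_period (1 : ℝ)
      rw [show ((q : ℤ) : ℝ) = (q : ℤ) • (1 : ℝ) by simp]
      rw [AddCircle.coe_zsmul, this, smul_zero]
    rw [AddCircle.coe_add, h1, add_zero]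
  rw [e, dist_eq_norm, ← AddCircle.coe_sub, UnitAddCircle.norm_eq]
  exact round_le (x - (y + q)) 0 |>.trans (by simp)

/-- the approximation of the phases -/
lemma ex_sv (hD : 1 ≤ D) (p m : ℕ) : ‖ex (φ ((m : ℝ) / p)) - ex ((sv φ D p m : ℝ) / D)‖ ≤ 7 / D := by
  have hD0 : (0 : ℝ) < D := by exact_mod_cast hD
  obtain ⟨q, hq, _⟩ := sv_approx (φ := φ) hD p m
  have e : ex ((sv φ D p m : ℝ) / D) = ex ((sv φ D p m : ℝ) / D + q) := by
    rw [ex_add, ex_int, mul_one]
  rw [e]
  refine (ex_sub _ _).trans ?_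
  calc 2 * Real.pi * |φ ((m : ℝ) / p) - ((sv φ D p m : ℝ) / D + q)| ≤ 2 * Real.pi * (1 / D) :=
        mul_le_mul_of_nonneg_left hq Real.two_pi_pos.le
    _ ≤ 7 * (1 / D) := by
        apply mul_le_mul_of_nonneg_right _ (by positivity)
        linarith [Real.pi_lt_d2]
    _ = 7 / D := by ring

end

section

variable {μ : LM} {φ : ℝ → ℝ} {D : ℕ}

lemma m_nonneg_ind (μ : LM) (Q : ℕ → Prop) : 0 ≤ μ.m (ind Q) := μ.nonneg _ (Bd_ind _) (ind_nonneg _)

/-- the slow variable rarely changes -/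
lemma sv_slow (h : SP μ φ) (hD : 1 ≤ D) (p : ℕ) (hp : p.Prime) :
    μ.m (ind (fun n => sv φ D p (n + 1) ≠ sv φ D p n)) = 0 := by
  classical
  have hD0 : (0 : ℝ) < D := by exact_mod_cast hD
  have key : ∀ δ : ℝ, 0 < δ → μ.m (ind (fun n => sv φ D p (n + 1) ≠ sv φ D p n)) ≤ D * (4 * δ) := by
    intro δ hδ
    have hs := h.slow p hp
    obtain ⟨N, hN⟩ := (Metric.tendsto_atTop.1 hs) δ hδ
    set B : ℕ → ℕ → Prop := fun j n => ∀ p' ∈ ({p} : Finset ℕ),
      dist ((φ ((n : ℝ) / p') : ℝ) : UnitAddCircle) ((((j : ℝ) / D : ℝ)) : UnitAddCircle) ≤ δ with hB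
    have h1 : ∀ j, μ.m (ind (B j)) ≤ 4 * δ := by
      intro j
      have := box_le h {p} (by simpa using hp) (fun _ => ((((j : ℝ) / D : ℝ)) : UnitAddCircle)) (fun _ => δ)
        (fun _ => hδ.le) δ hδ
      rw [prod_singleton] at this
      linarith
    have b1 : Bd (fun n => ind (fun n => sv φ D p (n + 1) ≠ sv φ D p n) n - ∑ j ∈ range D, ind (B j) n) := by
      have := (Bd_ind (fun n => sv φ D p (n + 1) ≠ sv φ D p n)).add
        ((Bd.sum (range D) fun j _ => Bd_ind (B j)).cmul (-1))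
      simpa [sub_eq_add_neg] using this
    have h2 : μ.m (fun n => ind (fun n => sv φ D p (n + 1) ≠ sv φ D p n) n - ∑ j ∈ range D, ind (B j) n) ≤ 0 := by
      refine m_le_large μ b1 0 N fun n hn => ?_
      have hd := hN n hn
      rw [Real.dist_eq, sub_zero] at hd
      set u := φ ((n : ℝ) / p) with hu
      set u' := φ (((n + 1 : ℕ) : ℝ) / p) with hu'
      by_cases hne : sv φ D p (n + 1) = sv φ D p n
      · have : ind (fun n => sv φ D p (n + 1) ≠ sv φ D p n) n = 0 := by
          unfold ind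
          rw [if_neg (not_not.2 hne)]
        rw [this]
        have := sum_nonneg fun j (_ : j ∈ range D) => ind_nonneg (B j) n
        linarith
      · have hfl : ⌊(D : ℝ) * u'⌋ ≠ ⌊(D : ℝ) * u⌋ := by
          intro e
          apply hne
          unfold sv
          rw [← hu', ← hu, e]
        -- an integer between
        obtain ⟨J, hJ⟩ : ∃ J : ℤ, |u - (J : ℝ) / D| ≤ |u' - u| := by
          rcases lt_or_gt_of_ne hfl with hlt | hgt
          · refine ⟨⌊(D : ℝ) * u⌋, ?_⟩
            have h3 : (D : ℝ) * u' < ⌊(D : ℝ) * u⌋ := Int.floor_lt.1 hlt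
            have h4 := Int.floor_le ((D : ℝ) * u)
            have h5 : u' < (⌊(D : ℝ) * u⌋ : ℝ) / D := by rw [lt_div_iff₀ hD0]; linarith
            have h6 : (⌊(D : ℝ) * u⌋ : ℝ) / D ≤ u := by rw [div_le_iff₀ hD0]; linarith
            rw [abs_of_nonneg (by linarith), abs_of_neg (by linarith)]
            linarith
          · refine ⟨⌊(D : ℝ) * u'⌋, ?_⟩
            have h3 : (D : ℝ) * u < ⌊(D : ℝ) * u'⌋ := Int.floor_lt.1 hgt
            have h4 := Int.floor_le ((D : ℝ) * u')
            have h5 : u < (⌊(D : ℝ) * u'⌋ : ℝ) / D := by rw [lt_div_iff₀ hD0]; linarith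
            have h6 : (⌊(D : ℝ) * u'⌋ : ℝ) / D ≤ u' := by rw [div_le_iff₀ hD0]; linarith
            rw [abs_of_neg (by linarith), abs_of_pos (by linarith)]
            linarith
        -- its residue
        set j : ℕ := (J % (D : ℤ)).toNat with hj
        have hjc : ((j : ℕ) : ℤ) = J % (D : ℤ) := Int.toNat_of_nonneg (Int.emod_nonneg _ (by exact_mod_cast (by omega : D ≠ 0)))
        have hjD : j < D := by
          have := Int.emod_lt_of_pos J (by exact_mod_cast hD : (0 : ℤ) < D)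
          rw [← hjc] at this
          exact_mod_cast this
        have hJq := Int.emod_add_mul_ediv J (D : ℤ)
        rw [← hjc] at hJq
        have hJr : (J : ℝ) / D = (j : ℝ) / D + ((J / (D : ℤ) : ℤ) : ℝ) := by
          have : (J : ℝ) = (j : ℝ) + D * ((J / (D : ℤ) : ℤ) : ℝ) := by exact_mod_cast hJq.symm
          rw [this]; field_simp
        have hBj : B j n := by
          intro p' hp'
          rw [mem_singleton] at hp'
          subst hp'
          refine (circ_dist_le _ _ (J / (D : ℤ))).trans ?_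
          rw [← hJr]
          exact hJ.trans hd.le
        have h7 := single_le_sum (f := fun j => ind (B j) n) (fun j _ => ind_nonneg _ n) (mem_range.2 hjD)
        have h8 : ind (B j) n = 1 := by unfold ind; rw [if_pos hBj]
        have h9 : ind (fun n => sv φ D p (n + 1) ≠ sv φ D p n) n ≤ 1 := by
          unfold ind; split_ifs <;> norm_num
        simp only [h8] at h7
        linarith
    rw [μ.sub (Bd_ind _) (Bd.sum (range D) fun j _ => Bd_ind (B j)), μ.sum (range D) fun j _ => Bd_ind (B j)] at h2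
    have h3 : ∑ j ∈ range D, μ.m (fun n => ind (B j) n) ≤ D * (4 * δ) := by
      calc _ ≤ ∑ _j ∈ range D, 4 * δ := sum_le_sum fun j _ => h1 j
        _ = D * (4 * δ) := by rw [sum_const, card_range, nsmul_eq_mul]
    linarith
  refine le_antisymm ?_ (m_nonneg_ind μ _)
  by_contra hcon
  push Not at hcon
  have := key (μ.m (ind (fun n => sv φ D p (n + 1) ≠ sv φ D p n)) / (8 * D)) (by positivity)
  have e : (D : ℝ) * (4 * (μ.m (ind (fun n => sv φ D p (n + 1) ≠ sv φ D p n)) / (8 * D))) =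
      μ.m (ind (fun n => sv φ D p (n + 1) ≠ sv φ D p n)) / 2 := by field_simp; ring
  rw [e] at this
  linarith

/-- upper bound for the slow variables -/
lemma sv_le (h : SP μ φ) (hD : 1 ≤ D) (P : Finset ℕ) (hP : ∀ p ∈ P, p.Prime) (t : ℕ → ℕ) :
    μ.m (ind (fun n => ∀ p ∈ P, sv φ D p n = t p)) ≤ ∏ _p ∈ P, (1 / (D : ℝ)) := by
  classical
  have hD0 : (0 : ℝ) < D := by exact_mod_cast hD
  have key : ∀ δ : ℝ, 0 < δ → μ.m (ind (fun n => ∀ p ∈ P, sv φ D p n = t p)) ≤ (1 / (D : ℝ) + 2 * δ) ^ P.card := by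
    intro δ hδ
    have h1 := box_le h P hP (fun p => ((((2 * (t p : ℝ) + 1) / (2 * D) : ℝ)) : UnitAddCircle)) (fun _ => 1 / (2 * (D : ℝ)))
      (fun _ => by positivity) δ hδ
    have h2 : μ.m (ind (fun n => ∀ p ∈ P, sv φ D p n = t p)) ≤
        μ.m (ind (fun m => ∀ p ∈ P, dist ((φ ((m : ℝ) / p) : ℝ) : UnitAddCircle)
          ((((2 * (t p : ℝ) + 1) / (2 * D) : ℝ)) : UnitAddCircle) ≤ 1 / (2 * (D : ℝ)))) := by
      apply μ.mono (Bd_ind _) (Bd_ind _)
      intro n
      unfold ind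
      by_cases hn : ∀ p ∈ P, sv φ D p n = t p
      · rw [if_pos hn, if_pos]
        intro p hp
        obtain ⟨q, _, hq⟩ := sv_approx (φ := φ) hD p n
        rw [hn p hp] at hq
        exact (circ_dist_le _ _ q).trans hq
      · rw [if_neg hn]; split_ifs <;> norm_num
    refine h2.trans (h1.trans (le_of_eq ?_))
    rw [prod_const]
    congr 1
    field_simp
  rw [prod_const]
  have hlim : Tendsto (fun δ : ℝ => (1 / (D : ℝ) + 2 * δ) ^ P.card) (nhdsWithin 0 (Set.Ioi 0))
      (nhds ((1 / (D : ℝ) + 2 * 0) ^ P.card)) := by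
    apply Tendsto.mono_left _ nhdsWithin_le_nhds
    apply Continuous.tendsto
    fun_prop
  rw [mul_zero, add_zero] at hlim
  refine ge_of_tendsto hlim ?_
  filter_upwards [self_mem_nhdsWithin] with δ hδ
  exact key δ hδ

/-- upper bound for the local variables -/
lemma lv_le (h : SP μ φ) (hD : 1 ≤ D) (P : Finset ℕ) (hP : ∀ p ∈ P, p.Prime) (v : ℕ → ℕ) :
    μ.m (ind (fun n => ∀ p ∈ P, D * (n % p) + sv φ D p n = v p)) ≤ ∏ p ∈ P, (1 / ((p : ℝ) * D)) := by
  classical
  have hD0 : (0 : ℝ) < D := by exact_mod_cast hD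
  set Q : ℕ := ∏ p ∈ P, p with hQ
  have hQ1 : 0 < Q := prod_pos fun p hp => (hP p hp).pos
  have hQ0 : (0 : ℝ) < Q := by exact_mod_cast hQ1
  set F : ℕ → Prop := fun n => ∀ p ∈ P, D * (n % p) + sv φ D p n = v p with hF
  set G : ℕ → Prop := fun n => ∀ p ∈ P, sv φ D p n = v p % D with hG
  set R : ℕ → ℕ → Prop := fun i n => (∀ p ∈ P, (n + i) % p = v p / D) ∧ G n with hR
  -- slow variables do not change
  have hslow : ∀ i, μ.m (ind (fun n => ¬ ∀ p ∈ P, sv φ D p (n + i) = sv φ D p n)) = 0 := by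
    intro i
    induction i with
    | zero =>
      have e : ind (fun n => ¬ ∀ p ∈ P, sv φ D p (n + 0) = sv φ D p n) = fun _ => 0 := by
        funext n
        unfold ind
        rw [if_neg (by simp)]
      rw [e]; exact μ.zero
    | succ i ih =>
      have h1 : ∀ p ∈ P, μ.m (fun n => ind (fun n => sv φ D p (n + 1) ≠ sv φ D p n) (n + i)) = 0 := by
        intro p hp
        rw [m_shift μ _ (Bd_ind _) i]
        exact sv_slow h hD p (hP p hp)
      have h2 : ∀ n, ind (fun n => ¬ ∀ p ∈ P, sv φ D p (n + (i + 1)) = sv φ D p n) n ≤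
          ∑ p ∈ P, ind (fun n => sv φ D p (n + 1) ≠ sv φ D p n) (n + i) +
          ind (fun n => ¬ ∀ p ∈ P, sv φ D p (n + i) = sv φ D p n) n := by
        intro n
        have a0 : 0 ≤ ∑ p ∈ P, ind (fun n => sv φ D p (n + 1) ≠ sv φ D p n) (n + i) :=
          sum_nonneg fun p _ => ind_nonneg _ _
        by_cases a2 : ∀ p ∈ P, sv φ D p (n + i) = sv φ D p n
        · by_cases a1 : ∀ p ∈ P, sv φ D p (n + i + 1) = sv φ D p (n + i)
          · have : ind (fun n => ¬ ∀ p ∈ P, sv φ D p (n + (i + 1)) = sv φ D p n) n = 0 := by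
              unfold ind
              rw [if_neg]
              rw [not_not]
              intro p hp
              rw [← add_assoc, a1 p hp, a2 p hp]
            rw [this]
            exact add_nonneg a0 (ind_nonneg _ n)
          · push Not at a1
            obtain ⟨p, hp, hne⟩ := a1
            have h3 := single_le_sum (f := fun p => ind (fun n => sv φ D p (n + 1) ≠ sv φ D p n) (n + i))
              (fun p _ => ind_nonneg _ _) hp
            have h4 : ind (fun n => sv φ D p (n + 1) ≠ sv φ D p n) (n + i) = 1 := by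
              unfold ind; rw [if_pos hne]
            simp only [h4] at h3
            have h5 : ind (fun n => ¬ ∀ p ∈ P, sv φ D p (n + (i + 1)) = sv φ D p n) n ≤ 1 := by
              unfold ind; split_ifs <;> norm_num
            have h6 := ind_nonneg (fun n => ¬ ∀ p ∈ P, sv φ D p (n + i) = sv φ D p n) n
            linarith
        · have h4 : ind (fun n => ¬ ∀ p ∈ P, sv φ D p (n + i) = sv φ D p n) n = 1 := by
            unfold ind; rw [if_pos a2]
          have h5 : ind (fun n => ¬ ∀ p ∈ P, sv φ D p (n + (i + 1)) = sv φ D p n) n ≤ 1 := by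
            unfold ind; split_ifs <;> norm_num
          linarith
      have h3 := μ.mono (Bd_ind _) ((Bd.sum P fun p _ => (Bd_ind _).comp fun n => n + i).add (Bd_ind _)) h2
      rw [μ.add _ _ (Bd.sum P fun p _ => (Bd_ind _).comp fun n => n + i) (Bd_ind _),
        μ.sum P fun p _ => (Bd_ind _).comp fun n => n + i, sum_eq_zero h1, ih] at h3
      have h4 := m_nonneg_ind μ (fun n => ¬ ∀ p ∈ P, sv φ D p (n + (i + 1)) = sv φ D p n)
      linarith
  have h1 : ∀ i, μ.m (ind F) ≤ μ.m (ind (R i)) := by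
    intro i
    have e : μ.m (ind F) = μ.m (fun n => ind F (n + i)) := (m_shift μ _ (Bd_ind _) i).symm
    have h2 : ∀ n, ind F (n + i) ≤ ind (R i) n + ind (fun n => ¬ ∀ p ∈ P, sv φ D p (n + i) = sv φ D p n) n := by
      intro n
      by_cases hn : F (n + i)
      · by_cases hs : ∀ p ∈ P, sv φ D p (n + i) = sv φ D p n
        · have hRn : R i n := by
            refine ⟨fun p hp => ?_, fun p hp => ?_⟩
            · have := hn p hp
              rw [← this, Nat.mul_add_div hD, Nat.div_eq_of_lt (sv_lt hD p _), add_zero]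
            · have := hn p hp
              rw [← this, Nat.mul_add_mod, Nat.mod_eq_of_lt (sv_lt hD p _), hs p hp]
          have : ind (R i) n = 1 := by unfold ind; rw [if_pos hRn]
          rw [this]
          have h3 : ind F (n + i) ≤ 1 := by unfold ind; split_ifs <;> norm_num
          have h4 := ind_nonneg (fun n => ¬ ∀ p ∈ P, sv φ D p (n + i) = sv φ D p n) n
          linarith
        · have : ind (fun n => ¬ ∀ p ∈ P, sv φ D p (n + i) = sv φ D p n) n = 1 := by unfold ind; rw [if_pos hs]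
          rw [this]
          have h3 : ind F (n + i) ≤ 1 := by unfold ind; split_ifs <;> norm_num
          have h4 := ind_nonneg (R i) n
          linarith
      · have : ind F (n + i) = 0 := by unfold ind; rw [if_neg hn]
        rw [this]
        exact add_nonneg (ind_nonneg _ n) (ind_nonneg _ n)
    have h3 := μ.mono ((Bd_ind F).comp fun n => n + i) ((Bd_ind _).add (Bd_ind _)) h2
    rw [μ.add _ _ (Bd_ind _) (Bd_ind _), hslow i, add_zero] at h3
    rw [e]
    exact h3
  have h2 : ∑ i ∈ range Q, μ.m (ind (R i)) ≤ μ.m (ind G) := by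
    rw [← μ.sum (range Q) fun i _ => Bd_ind (R i)]
    apply μ.mono (Bd.sum (range Q) fun i _ => Bd_ind (R i)) (Bd_ind _)
    intro n
    by_cases hex : ∃ i ∈ range Q, R i n
    · obtain ⟨i₀, hi₀, hR₀⟩ := hex
      rw [sum_eq_single i₀]
      · have e1 : ind (R i₀) n ≤ 1 := by unfold ind; split_ifs <;> norm_num
        have e2 : ind G n = 1 := by unfold ind; rw [if_pos hR₀.2]
        rw [e2]; exact e1
      · intro i hi hne
        unfold ind
        rw [if_neg]
        intro hRi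
        apply hne
        rw [mem_range] at hi hi₀
        have h5 : ∀ p ∈ P, (n + i) % p = (n + i₀) % p := fun p hp => (hRi.1 p hp).trans (hR₀.1 p hp).symm
        have h6 := (Pool.Agent.TH575.CW.modEq_prod P hP (n + i₀) (n + i)).1 h5
        have h7 : i ≡ i₀ [MOD Q] := Nat.ModEq.add_left_cancel' n h6
        exact Nat.ModEq.eq_of_lt_of_lt h7 hi hi₀
      · intro hn; exact absurd hi₀ hn
    · push Not at hex
      rw [sum_eq_zero]
      · exact ind_nonneg _ n
      · intro i hi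
        unfold ind
        rw [if_neg (hex i hi)]
  have h3 : (Q : ℝ) * μ.m (ind F) ≤ μ.m (ind G) := by
    refine le_trans ?_ h2
    calc (Q : ℝ) * μ.m (ind F) = ∑ _i ∈ range Q, μ.m (ind F) := by rw [sum_const, card_range, nsmul_eq_mul]
      _ ≤ _ := sum_le_sum fun i _ => h1 i
  have h4 := sv_le h hD P hP (fun p => v p % D)
  have h5 : μ.m (ind F) ≤ 1 / Q * ∏ _p ∈ P, (1 / (D : ℝ)) := by
    rw [one_div, ← div_eq_inv_mul, le_div_iff₀ hQ0]
    linarith
  refine h5.trans (le_of_eq ?_)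
  rw [hQ]
  push_cast
  rw [one_div, ← prod_inv_distrib, ← prod_mul_distrib]
  refine prod_congr rfl fun p _ => ?_
  rw [one_div, one_div, mul_inv]

/-- the local variables are uniformly distributed -/
lemma lv_unif (h : SP μ φ) (hD : 1 ≤ D) (P : Finset ℕ) (hP : ∀ p ∈ P, p.Prime) (v : ℕ → ℕ)
    (hv : ∀ p ∈ P, v p < p * D) :
    μ.m (ind (fun n => ∀ p ∈ P, D * (n % p) + sv φ D p n = v p)) = ∏ p ∈ P, (1 / ((p : ℝ) * D)) := by
  classical
  have hD0 : (0 : ℝ) < D := by exact_mod_cast hD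
  set V : Finset ((p : ℕ) → p ∈ P → ℕ) := P.pi fun p => range (p * D) with hV
  set ev : ((p : ℕ) → p ∈ P → ℕ) → ℕ → ℕ := fun g p => if hp : p ∈ P then g p hp else 0 with hev
  set F : ((p : ℕ) → p ∈ P → ℕ) → ℕ → Prop := fun g n => ∀ p ∈ P, D * (n % p) + sv φ D p n = ev g p with hF
  have hsum : ∑ g ∈ V, μ.m (ind (F g)) = 1 := by
    rw [← μ.sum V fun g _ => Bd_ind (F g), ← μ.one]
    congr 1
    funext n
    set g₀ : (p : ℕ) → p ∈ P → ℕ := fun p _ => D * (n % p) + sv φ D p n with hg₀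
    have hg₀V : g₀ ∈ V := by
      rw [hV, Finset.mem_pi]
      intro p hp
      rw [mem_range, hg₀]
      have h1 := sv_lt (φ := φ) hD p n
      have h2 := Nat.mod_lt n (hP p hp).pos
      calc D * (n % p) + sv φ D p n < D * (n % p) + D := by omega
        _ = (n % p + 1) * D := by ring
        _ ≤ p * D := Nat.mul_le_mul_right D h2
    rw [sum_eq_single g₀]
    · unfold ind
      rw [if_pos]
      intro p hp
      rw [hev]
      simp only [hp, dif_pos]
      rw [hg₀]
    · intro g _ hne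
      unfold ind
      rw [if_neg]
      intro hFg
      apply hne
      funext p hp
      have := hFg p hp
      rw [hev] at this
      simp only [hp, dif_pos] at this
      exact this.symm
    · intro hn; exact absurd hg₀V hn
  have hcard : ∑ _g ∈ V, ∏ p ∈ P, (1 / ((p : ℝ) * D)) = 1 := by
    rw [sum_const, hV, card_pi, nsmul_eq_mul]
    push_cast
    rw [← prod_mul_distrib]
    apply prod_eq_one
    intro p hp
    rw [card_range]
    have hp0 : (0 : ℝ) < p := by exact_mod_cast (hP p hp).pos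
    push_cast
    field_simp
  have hle : ∀ g ∈ V, μ.m (ind (F g)) ≤ ∏ p ∈ P, (1 / ((p : ℝ) * D)) := fun g _ => lv_le h hD P hP (ev g)
  have heq : ∀ g ∈ V, μ.m (ind (F g)) = ∏ p ∈ P, (1 / ((p : ℝ) * D)) :=
    (sum_eq_sum_iff_of_le hle).1 (hsum.trans hcard.symm)
  have hgv : (fun p (_ : p ∈ P) => v p) ∈ V := by
    rw [hV, Finset.mem_pi]
    intro p hp
    rw [mem_range]
    exact hv p hp
  rw [← heq _ hgv]
  congr 1
  apply ind_congr
  intro n
  refine forall_congr' fun p => forall_congr' fun hp => ?_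
  rw [hev]
  simp only [hp, dif_pos]

lemma loc_of_sp (h : SP μ φ) (hD : 1 ≤ D) : Loc μ D (sv φ D) :=
  ⟨hD, fun p n => sv_lt hD p n, fun p hp => sv_slow h hD p hp, fun P hP v hv => lv_unif h hD P hP v hv⟩

/-- shifts of the phases -/
lemma phase_shift (h : SP μ φ) (p : ℕ) (hp : p.Prime) (η : ℝ) (hη : 0 < η) (J : ℕ) :
    ∃ M₀ : ℕ, ∀ m, M₀ ≤ m → ∀ j < J, |φ (((m + j : ℕ) : ℝ) / p) - φ ((m : ℝ) / p)| ≤ η := by
  rcases Nat.eq_zero_or_pos J with hJ | hJ
  · exact ⟨0, fun m _ j hj => by omega⟩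
  have hJ0 : (0 : ℝ) < J := by exact_mod_cast hJ
  obtain ⟨M₀, hM₀⟩ := (Metric.tendsto_atTop.1 (h.slow p hp)) (η / J) (by positivity)
  refine ⟨M₀, fun m hm => ?_⟩
  have key : ∀ j : ℕ, |φ (((m + j : ℕ) : ℝ) / p) - φ ((m : ℝ) / p)| ≤ j * (η / J) := by
    intro j
    induction j with
    | zero => simp
    | succ j ih =>
      have h1 := hM₀ (m + j) (by omega)
      rw [Real.dist_eq, sub_zero] at h1
      have h2 := abs_sub_le (φ (((m + (j + 1) : ℕ) : ℝ) / p)) (φ (((m + j : ℕ) : ℝ) / p)) (φ ((m : ℝ) / p))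
      rw [show m + (j + 1) = m + j + 1 by ring] at h2 ⊢
      push_cast at h1 h2 ih ⊢
      linarith
  intro j hj
  refine (key j).trans ?_
  have hj' : (j : ℝ) ≤ J := by exact_mod_cast hj.le
  calc (j : ℝ) * (η / J) ≤ J * (η / J) := mul_le_mul_of_nonneg_right hj' (by positivity)
    _ = η := by field_simp

/-- **The mean of a product of multiplicative functions with a slow phase vanishes.** -/
theorem slow_mean (h : SP μ φ) {k : ℕ} (f : Fin k → ℕ → ℂ) (a b : Fin k → ℕ) (P₀ : ℕ) (hf : ∀ j n, ‖f j n‖ ≤ 1)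
    (hmul : ∀ j p n, p.Prime → P₀ ≤ p → ¬ p ∣ n → f j (p * n) = f j p * f j n) (ha : ∀ j, 1 ≤ a j) :
    μ.m (fun n => ((∏ j, f j (a j * n + b j)) * ex (φ n)).re) = 0 := by
  rcases dichotomy μ (f := f) (a := a) (b := b) P₀ hf hmul ha (w := fun n => ex (φ n)) (fun n => (norm_ex _).le) with
    ⟨BB, hBB⟩ | hz
  swap
  · exact hz
  refine core (f := f) (a := a) (b := b) (w := fun n => ex (φ n)) (z := fun p m => ex (φ ((m : ℝ) / p))) μ P₀ hf hmul
    (fun n => (norm_ex _).le) (fun p n => (norm_ex _).le) ?_ ha BB hBB ?_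
  · intro p n hp
    have hp0 : (p : ℝ) ≠ 0 := by exact_mod_cast hp.ne_zero
    show ex (φ (((p * n : ℕ) : ℝ) / p)) = ex (φ n)
    congr 2
    push_cast
    field_simp
  · intro D hD
    have hD1 : 1 ≤ D := by omega
    have hD0 : (0 : ℝ) < D := by exact_mod_cast hD1
    refine ⟨sv φ D, loc_of_sp h hD1, fun p hp => ?_⟩
    obtain ⟨M₀, hM₀⟩ := phase_shift h p hp (1 / (7 * D)) (by positivity) p
    refine ⟨M₀, fun m hm j hj => ?_⟩
    have h1 := hM₀ m hm j hj
    have h2 := ex_sv (φ := φ) hD1 p m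
    have h3 : ‖ex (φ (((m + j : ℕ) : ℝ) / p)) - ex (φ ((m : ℝ) / p))‖ ≤ 1 / D := by
      refine (ex_sub _ _).trans ?_
      calc 2 * Real.pi * |φ (((m + j : ℕ) : ℝ) / p) - φ ((m : ℝ) / p)| ≤ 2 * Real.pi * (1 / (7 * D)) :=
            mul_le_mul_of_nonneg_left h1 Real.two_pi_pos.le
        _ ≤ 7 * (1 / (7 * D)) := by
            apply mul_le_mul_of_nonneg_right _ (by positivity)
            linarith [Real.pi_lt_d2]
        _ = 1 / D := by field_simp
    have h4 := norm_sub_le_norm_sub_add_norm_sub (ex (φ (((m + j : ℕ) : ℝ) / p))) (ex (φ ((m : ℝ) / p)))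
      (ex ((sv φ D p m : ℝ) / D))
    calc _ ≤ _ := h4
      _ ≤ 1 / D + 7 / D := add_le_add h3 h2
      _ = 8 / D := by ring

end

end Pool.Agent.Y326.Slw
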