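import Pool.Agent.Y326.Slf3
import Pool.Agent.Y326.Slw4
import Mathlib.Algebra.Group.ForwardDiff

/-!
# Block variables of fast phases
-/

set_option autoImplicit false

namespace Pool.Agent.Y326.Slf

open Finset Filter MeasureTheory UnitAddTorus
open Pool.Agent.TH112.BL Pool.Agent.TH928.BLJ
open Pool.Agent.Y326.Slw

/-! ## boxes -/

section box

variable {ι : Type} [Fintype ι] [DecidableEq ι]

/-- boxes have at most the right mean -/
lemma box_gen (μ : LM) (Θ : ℕ → ι → ℝ)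
    (hW : ∀ κ : ι → ℤ, κ ≠ 0 → ∀ c : ℝ, μ.m (fun u => (ex (∑ i, κ i * Θ u i + c)).re) = 0)
    (c : ι → UnitAddCircle) (r : ι → ℝ) (hr : ∀ i, 0 ≤ r i) (δ : ℝ) (hδ : 0 < δ) :
    μ.m (ind (fun u => ∀ i, dist ((Θ u i : ℝ) : UnitAddCircle) (c i) ≤ r i)) ≤ ∏ i, (2 * r i + 2 * δ) := by
  classical
  set T : ℕ → UnitAddTorus ι := fun u i => ((Θ u i : ℝ) : UnitAddCircle) with hT
  have hTW : ∀ k : ι → ℤ, k ≠ 0 → μ.m (fun m => (mFourier k (T m)).re) = 0 ∧ μ.m (fun m => (mFourier k (T m)).im) = 0 := by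
    intro k hk
    have e : ∀ m, (mFourier k (T m) : ℂ) = ex (∑ i, k i * Θ m i) := by
      intro m
      show (∏ i, (fourier (k i) (T m i) : ℂ)) = _
      rw [ex_sum]
      refine prod_congr rfl fun i _ => ?_
      rw [hT]
      simp only
      rw [four_coe]
    simp only [e]
    constructor
    · have := hW k hk 0
      simpa using this
    · have h1 := hW k hk (-(1 / 4))
      have e2 : ∀ x : ℝ, (ex (x + -(1 / 4))).re = (ex x).im := by
        intro x
        rw [ex_add]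
        have e3 : ex (-(1 / 4)) = -Complex.I := by
          unfold ex
          have e4 : 2 * (Real.pi : ℂ) * Complex.I * ((-(1 / 4) : ℝ) : ℂ) = ((-(Real.pi / 2) : ℝ) : ℂ) * Complex.I := by
            push_cast
            ring
          rw [e4, Complex.exp_mul_I, ← Complex.ofReal_cos, ← Complex.ofReal_sin, Real.cos_neg, Real.sin_neg,
            Real.cos_pi_div_two, Real.sin_pi_div_two]
          simp
        rw [e3, Complex.mul_re]
        simp
      simp only [e2] at h1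
      exact h1
  set G : C(UnitAddTorus ι, ℂ) :=
    ⟨fun x => ((∏ i, maj (c i) (r i) δ (x i) : ℝ) : ℂ), by
      refine Complex.continuous_ofReal.comp (continuous_finsetProd _ fun p _ => ?_)
      exact (maj_cont _ _ _).comp (continuous_apply p)⟩ with hG
  have h1 := mean_cont μ T hTW G
  have e1 : ∀ x, (G x).re = ∏ i, maj (c i) (r i) δ (x i) := fun x => Complex.ofReal_re _
  have h2 : (∫ x, G x).re = ∏ i, ∫ y, maj (c i) (r i) δ y := by
    have e2 : (∫ x, G x) = ((∫ x : UnitAddTorus ι, ∏ i, maj (c i) (r i) δ (x i) : ℝ) : ℂ) :=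
      integral_ofReal
    rw [e2, Complex.ofReal_re]
    have e3 := integral_fintype_prod_volume_eq_prod (𝕜 := ℝ) (fun (i : ι) (y : UnitAddCircle) => maj (c i) (r i) δ y)
    exact Eq.trans rfl e3
  have h3 : μ.m (ind (fun u => ∀ i, dist ((Θ u i : ℝ) : UnitAddCircle) (c i) ≤ r i)) ≤
      μ.m (fun m => (G (T m)).re) := by
    apply μ.mono (Bd_ind _) ⟨‖G‖, fun m => (Complex.abs_re_le_norm _).trans (G.norm_coe_le_norm _)⟩
    intro m
    rw [e1]
    have h0 : 0 ≤ ∏ i, maj (c i) (r i) δ (T m i) := prod_nonneg fun p _ => maj_nonneg _ _ _ _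
    by_cases hm : ∀ i, dist ((Θ m i : ℝ) : UnitAddCircle) (c i) ≤ r i
    · have h4 : (1 : ℝ) ≤ ∏ i, maj (c i) (r i) δ (T m i) := by
        calc (1 : ℝ) = ∏ _i : ι, (1 : ℝ) := by rw [prod_const_one]
          _ ≤ _ := prod_le_prod (fun _ _ => zero_le_one) fun p _ => one_le_maj _ _ _ _ (hm p)
      refine le_trans ?_ h4
      unfold ind
      split_ifs <;> norm_num
    · have : ind (fun u => ∀ i, dist ((Θ u i : ℝ) : UnitAddCircle) (c i) ≤ r i) m = 0 := by
        unfold ind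
        rw [if_neg hm]
      rw [this]
      exact h0
  refine h3.trans ?_
  rw [h1, h2]
  exact prod_le_prod (fun p _ => (integral_maj _ _ _ (hr p) hδ).1) fun p _ => (integral_maj _ _ _ (hr p) hδ).2

/-- the digit of a point of the circle -/
noncomputable def dg (D : ℕ) (x : ℝ) : ℕ := sv (fun _ => x) D 1 0

lemma dg_lt {D : ℕ} (hD : 1 ≤ D) (x : ℝ) : dg D x < D := sv_lt (φ := fun _ => x) hD 1 0

lemma dg_approx {D : ℕ} (hD : 1 ≤ D) (x : ℝ) : ∃ q : ℤ,
    |x - ((dg D x : ℝ) / D + q)| ≤ 1 / D ∧ |x - ((2 * (dg D x : ℝ) + 1) / (2 * D) + q)| ≤ 1 / (2 * D) :=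
  sv_approx (φ := fun _ => x) hD 1 0

lemma dig_le (μ : LM) {D : ℕ} (hD : 1 ≤ D) (Θ : ℕ → ι → ℝ)
    (hW : ∀ κ : ι → ℤ, κ ≠ 0 → ∀ c : ℝ, μ.m (fun u => (ex (∑ i, κ i * Θ u i + c)).re) = 0) (t : ι → ℕ) :
    μ.m (ind (fun u => ∀ i, dg D (Θ u i) = t i)) ≤ (1 / (D : ℝ)) ^ Fintype.card ι := by
  classical
  have hD0 : (0 : ℝ) < D := by exact_mod_cast hD
  have key : ∀ δ : ℝ, 0 < δ → μ.m (ind (fun u => ∀ i, dg D (Θ u i) = t i)) ≤ (1 / (D : ℝ) + 2 * δ) ^ Fintype.card ι := by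
    intro δ hδ
    have h1 := box_gen μ Θ hW (fun i => ((((2 * (t i : ℝ) + 1) / (2 * D) : ℝ)) : UnitAddCircle)) (fun _ => 1 / (2 * (D : ℝ)))
      (fun _ => by positivity) δ hδ
    have h2 : μ.m (ind (fun u => ∀ i, dg D (Θ u i) = t i)) ≤
        μ.m (ind (fun u => ∀ i, dist ((Θ u i : ℝ) : UnitAddCircle)
          ((((2 * (t i : ℝ) + 1) / (2 * D) : ℝ)) : UnitAddCircle) ≤ 1 / (2 * (D : ℝ)))) := by
      apply μ.mono (Bd_ind _) (Bd_ind _)
      intro n
      unfold ind
      by_cases hn : ∀ i, dg D (Θ n i) = t i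
      · rw [if_pos hn, if_pos]
        intro i
        obtain ⟨q, _, hq⟩ := dg_approx hD (Θ n i)
        rw [hn i] at hq
        exact (circ_dist_le _ _ q).trans hq
      · rw [if_neg hn]; split_ifs <;> norm_num
    refine h2.trans (h1.trans (le_of_eq ?_))
    rw [prod_const, card_univ]
    congr 1
    field_simp
  have hlim : Tendsto (fun δ : ℝ => (1 / (D : ℝ) + 2 * δ) ^ Fintype.card ι) (nhdsWithin 0 (Set.Ioi 0))
      (nhds ((1 / (D : ℝ) + 2 * 0) ^ Fintype.card ι)) := by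
    apply Tendsto.mono_left _ nhdsWithin_le_nhds
    apply Continuous.tendsto
    fun_prop
  rw [mul_zero, add_zero] at hlim
  refine ge_of_tendsto hlim ?_
  filter_upwards [self_mem_nhdsWithin] with δ hδ
  exact key δ hδ

end box

/-! ## digits -/

/-- the number with given digits -/
def enc (D K : ℕ) (x : ℕ → ℕ) : ℕ := ∑ j ∈ range K, x j * D ^ j

lemma enc_lt {D : ℕ} (K : ℕ) (x : ℕ → ℕ) (hx : ∀ j, x j < D) : enc D K x < D ^ K := by
  unfold enc
  induction K with
  | zero => simp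
  | succ K ih =>
    rw [sum_range_succ, pow_succ]
    have h1 := hx K
    calc ∑ j ∈ range K, x j * D ^ j + x K * D ^ K < D ^ K + x K * D ^ K := by omega
      _ = D ^ K * (x K + 1) := by ring
      _ ≤ D ^ K * D := Nat.mul_le_mul_left _ h1

lemma enc_dig {D : ℕ} (K : ℕ) (x : ℕ → ℕ) (hx : ∀ j, x j < D) {j : ℕ} (hj : j < K) : enc D K x / D ^ j % D = x j := by
  have hD : 0 < D := lt_of_le_of_lt (Nat.zero_le _) (hx 0)
  induction K with
  | zero => omega
  | succ K ih =>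
    have e : enc D (K + 1) x = enc D K x + D ^ K * x K := by
      unfold enc
      rw [sum_range_succ]
      ring
    rw [e]
    rcases Nat.lt_succ_iff_lt_or_eq.1 hj with h | h
    · have h1 : D ^ K * x K = D ^ j * (D * (D ^ (K - j - 1) * x K)) := by
        have : K = j + 1 + (K - j - 1) := by omega
        calc D ^ K * x K = D ^ (j + 1 + (K - j - 1)) * x K := by rw [← this]
          _ = _ := by rw [pow_add, pow_add, pow_one]; ring
      rw [h1, Nat.add_mul_div_left _ _ (pow_pos hD j), Nat.add_mul_mod_self_left]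
      exact ih h
    · subst h
      rw [Nat.add_mul_div_left _ _ (pow_pos hD j), Nat.div_eq_of_lt (enc_lt j x hx), zero_add]
      exact Nat.mod_eq_of_lt (hx j)

lemma enc_inj {D : ℕ} (K : ℕ) (x y : ℕ → ℕ) (hx : ∀ j, x j < D) (hy : ∀ j, y j < D) (h : enc D K x = enc D K y) {j : ℕ}
    (hj : j < K) : x j = y j := by
  rw [← enc_dig K x hx hj, ← enc_dig K y hy hj, h]

/-! ## fast phases -/

/-- the iterated differences -/
noncomputable def jt (ψ : ℕ → ℕ → ℝ) (j p : ℕ) : ℕ → ℝ := (fwdDiff 1)^[j] (ψ p)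

/-- Fast phases of degree `k`: the differences of order `k + 1` tend to zero, and those of order at most `k`
are jointly uniformly distributed, along arithmetic progressions. -/
structure FP (μ : LM) (k : ℕ) (ψ : ℕ → ℕ → ℝ) : Prop where
  diff : ∀ p, p.Prime → Tendsto (jt ψ (k + 1) p) atTop (nhds 0)
  weyl : ∀ P : Finset ℕ, (∀ p ∈ P, p.Prime) → ∀ κ : ℕ → ℕ → ℤ, (∃ p ∈ P, ∃ j ≤ k, κ p j ≠ 0) →
    ∀ q r : ℕ, 1 ≤ q → ∀ c : ℝ,
      μ.m (fun u => (ex (∑ p ∈ P, ∑ j ∈ range (k + 1), κ p j * jt ψ j p (q * u + r) + c)).re) = 0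

/-- the block variable -/
noncomputable def bv (ψ : ℕ → ℕ → ℝ) (K D M p n : ℕ) : ℕ := enc D K (fun j => dg D (jt ψ j p (M * (n / M))))

section unif

variable {μ : LM} {k : ℕ} {ψ : ℕ → ℕ → ℝ} (h : FP μ k ψ) {D : ℕ} (hD : 1 ≤ D)
include h hD

/-- upper bound along an arithmetic progression -/
lemma jets_le (P : Finset ℕ) (hP : ∀ p ∈ P, p.Prime) (q r : ℕ) (hq : 1 ≤ q) (d : ℕ → ℕ → ℕ) :
    μ.m (ind (fun u => ∀ p ∈ P, ∀ j < k + 1, dg D (jt ψ j p (q * u + r)) = d p j)) ≤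
      ∏ _p ∈ P, (1 / (D ^ (k + 1) : ℕ) : ℝ) := by
  classical
  have h1 := dig_le μ hD (ι := {p // p ∈ P} × Fin (k + 1)) (fun u i => jt ψ i.2 i.1 (q * u + r)) (by
    intro κ hκ c
    set κ' : ℕ → ℕ → ℤ := fun p j => if hpj : p ∈ P ∧ j < k + 1 then κ (⟨p, hpj.1⟩, ⟨j, hpj.2⟩) else 0 with hκ'
    have hne : ∃ p ∈ P, ∃ j ≤ k, κ' p j ≠ 0 := by
      obtain ⟨⟨p, j⟩, hpj⟩ := Function.ne_iff.1 hκ
      refine ⟨p, p.2, j, by have := j.2; omega, ?_⟩
      rw [hκ']
      simp only [p.2, j.2, and_self, dif_pos]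
      exact hpj
    have h2 := h.weyl P hP κ' hne q r hq c
    rw [← h2]
    congr 1
    funext u
    congr 3
    rw [Fintype.sum_prod_type, ← sum_coe_sort P]
    refine sum_congr rfl fun p _ => ?_
    rw [← Fin.sum_univ_eq_sum_range (fun j => (κ' p j : ℝ) * jt ψ j p (q * u + r)) (k + 1)]
    refine sum_congr rfl fun j _ => ?_
    rw [hκ']
    simp only [p.2, j.2, and_self, dif_pos]) (fun i => d i.1 i.2)
  have e1 : ind (fun u => ∀ p ∈ P, ∀ j < k + 1, dg D (jt ψ j p (q * u + r)) = d p j) =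
      ind (fun u => ∀ i : {p // p ∈ P} × Fin (k + 1), dg D (jt ψ i.2 i.1 (q * u + r)) = d i.1 i.2) := by
    apply ind_congr
    intro u
    constructor
    · rintro hu ⟨p, j⟩
      exact hu p p.2 j j.2
    · intro hu p hp j hj
      exact hu (⟨p, hp⟩, ⟨j, hj⟩)
  rw [e1]
  refine h1.trans (le_of_eq ?_)
  rw [Fintype.card_prod, Fintype.card_fin, Fintype.card_coe, prod_const]
  push_cast
  rw [mul_comm, pow_mul, ← one_div_pow]

end unif

/-- residues and means -/
lemma m_res (μ : LM) (q r : ℕ) (hr : r < q) {g : ℕ → ℝ} (hg : Bd g) :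
    μ.m (fun n => ind (fun n => n % q = r) n * g n) = (1 / q : ℝ) * μ.m (fun u => g (q * u + r)) := by
  have hq : 1 ≤ q := by omega
  have hq0 : (0 : ℝ) < q := by exact_mod_cast hq
  have b1 : Bd (fun n => ind (fun n => n % q = r) n * g n) := by
    obtain ⟨C, hC⟩ := hg
    refine ⟨C, fun n => ?_⟩
    rw [abs_mul]
    have h1 : |ind (fun n => n % q = r) n| ≤ 1 := by
      unfold ind
      split_ifs <;> norm_num
    calc _ ≤ 1 * C := mul_le_mul h1 (hC n) (abs_nonneg _) zero_le_one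
      _ = C := one_mul C
  have e0 := Pool.Agent.TH928.BLJ.m_shift μ _ b1 r
  have e1 := μ.dil q (fun n => g (n + r)) hq (hg.comp fun n => n + r)
  have e2 : (fun n => if q ∣ n then (q : ℝ) * g (n + r) else 0) =
      fun n => (q : ℝ) * (ind (fun n => n % q = r) (n + r) * g (n + r)) := by
    funext n
    unfold ind
    by_cases hn : q ∣ n
    · have h2 : (n + r) % q = r := by
        obtain ⟨m, rfl⟩ := hn
        rw [Nat.mul_add_mod, Nat.mod_eq_of_lt hr]
      rw [if_pos hn, if_pos h2]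
      ring
    · have h2 : ¬ (n + r) % q = r := by
        intro h3
        apply hn
        have h4 : (n + r) % q = (0 + r) % q := by rw [h3, zero_add, Nat.mod_eq_of_lt hr]
        exact (Nat.modEq_zero_iff_dvd).1 (Nat.ModEq.add_right_cancel' r h4)
      rw [if_neg hn, if_neg h2]
      ring
  rw [e2, μ.smul _ _ (b1.comp fun n => n + r), e0] at e1
  rw [e1]
  field_simp

section unif2

variable {μ : LM} {k : ℕ} {ψ : ℕ → ℕ → ℝ} (h : FP μ k ψ) {D : ℕ} (hD : 1 ≤ D) (L : ℕ)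
include h hD

lemma bv_lt (K M p n : ℕ) : bv ψ K D M p n < D ^ K := by
  apply enc_lt
  intro j
  exact dg_lt hD _

/-- upper bound for the block variables -/
lemma bv_le (P : Finset ℕ) (hP : ∀ p ∈ P, p.Prime ∧ p ≠ 2) (v : ℕ → ℕ) (t : ℕ) :
    μ.m (ind (fun n => n % 2 ^ L = t ∧ ∀ p ∈ P, D ^ (k + 1) * (n % p) + bv ψ (k + 1) D (2 ^ L) p n = v p)) ≤
      (1 / ((2 ^ L : ℕ) : ℝ)) * ∏ p ∈ P, (1 / ((p : ℝ) * (D ^ (k + 1) : ℕ))) := by
  classical
  set M : ℕ := 2 ^ L with hM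
  have hM1 : 0 < M := pow_pos (by norm_num) L
  set K : ℕ := k + 1 with hK
  have hDK : 0 < D ^ K := pow_pos hD K
  set Q : ℕ := ∏ p ∈ P, p with hQ
  have hQ1 : 0 < Q := prod_pos fun p hp => (hP p hp).1.pos
  have hQ0 : (0 : ℝ) < Q := by exact_mod_cast hQ1
  have hM0 : (0 : ℝ) < M := by exact_mod_cast hM1
  set F : ℕ → Prop := fun n => n % M = t ∧ ∀ p ∈ P, D ^ K * (n % p) + bv ψ K D M p n = v p with hF
  have hpos : 0 ≤ (1 / (M : ℝ)) * ∏ p ∈ P, (1 / ((p : ℝ) * (D ^ K : ℕ))) := by positivity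
  -- if the event is empty
  by_cases hex : ∃ n₀, F n₀
  swap
  · have e : ind F = fun _ => 0 := by
      funext n
      unfold ind
      rw [if_neg (fun hn => hex ⟨n, hn⟩)]
    rw [e, μ.zero]
    exact hpos
  obtain ⟨n₀, hn₀⟩ := hex
  set q : ℕ := M * Q with hq
  have hq1 : 0 < q := Nat.mul_pos hM1 hQ1
  set r : ℕ := n₀ % q with hr
  have hrq : r < q := Nat.mod_lt _ hq1
  have htM : t < M := by rw [← hn₀.1]; exact Nat.mod_lt _ hM1
  have hrM : r % M = t := by
    rw [hr, hq, Nat.mod_mul_right_mod]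
    exact hn₀.1
  have htr : t ≤ r := by rw [← hrM]; exact Nat.mod_le _ _
  -- the event lies in a residue class
  have hcop : Nat.Coprime M Q := by
    rw [hQ, hM]
    apply Nat.Coprime.pow_left
    apply Nat.Coprime.prod_right
    intro p hp
    exact (Nat.coprime_primes Nat.prime_two (hP p hp).1).2 (Ne.symm (hP p hp).2)
  have hres : ∀ n, F n → n % q = r := by
    intro n hn
    have h1 : n ≡ n₀ [MOD M] := hn.1.trans hn₀.1.symm
    have h2 : n ≡ n₀ [MOD Q] := by
      apply (Pool.Agent.TH575.CW.modEq_prod P (fun p hp => (hP p hp).1) n₀ n).1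
      intro p hp
      have h3 := hn.2 p hp
      have h4 := hn₀.2 p hp
      have h5 : n % p = v p / D ^ K := by
        rw [← h3, Nat.mul_add_div hDK, Nat.div_eq_of_lt (bv_lt h hD K M p n), add_zero]
      have h6 : n₀ % p = v p / D ^ K := by
        rw [← h4, Nat.mul_add_div hDK, Nat.div_eq_of_lt (bv_lt h hD K M p n₀), add_zero]
      rw [h5, h6]
    exact (Nat.modEq_and_modEq_iff_modEq_mul hcop).1 ⟨h1, h2⟩
  set G : ℕ → Prop := fun m => ∀ p ∈ P, ∀ j < k + 1, dg D (jt ψ j p m) = v p % D ^ K / D ^ j % D with hG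
  have hFG : ∀ n, ind F n ≤ ind (fun n => n % q = r) n * ind G (n - t) := by
    intro n
    by_cases hn : F n
    · have e1 : ind (fun n => n % q = r) n = 1 := by
        unfold ind
        rw [if_pos (hres n hn)]
      have hm : M * (n / M) = n - t := by
        have := Nat.div_add_mod n M
        rw [hn.1] at this
        omega
      have e2 : ind G (n - t) = 1 := by
        unfold ind
        rw [if_pos]
        intro p hp j hj
        have h3 := hn.2 p hp
        have h4 : v p % D ^ K = bv ψ K D M p n := by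
          rw [← h3, Nat.mul_add_mod, Nat.mod_eq_of_lt (bv_lt h hD K M p n)]
        rw [h4]
        unfold bv
        rw [enc_dig K _ (fun j => dg_lt hD _) hj, hm]
      rw [e1, e2, mul_one]
      unfold ind
      split_ifs <;> norm_num
    · have : ind F n = 0 := by unfold ind; rw [if_neg hn]
      rw [this]
      exact mul_nonneg (ind_nonneg _ _) (ind_nonneg _ _)
  have b1 : Bd (fun n => ind G (n - t)) := (Bd_ind G).comp fun n => n - t
  have b2 : Bd (fun n => ind (fun n => n % q = r) n * ind G (n - t)) := by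
    refine ⟨1, fun n => ?_⟩
    rw [abs_mul]
    have a1 : |ind (fun n => n % q = r) n| ≤ 1 := by unfold ind; split_ifs <;> norm_num
    have a2 : |ind G (n - t)| ≤ 1 := by unfold ind; split_ifs <;> norm_num
    exact mul_le_one₀ a1 (abs_nonneg _) a2
  have h1 := μ.mono (Bd_ind F) b2 hFG
  rw [m_res μ q r hrq b1] at h1
  have e3 : (fun u => ind G (q * u + r - t)) =
      ind (fun u => ∀ p ∈ P, ∀ j < k + 1, dg D (jt ψ j p (q * u + (r - t))) = v p % D ^ K / D ^ j % D) := by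
    funext u
    unfold ind
    have : q * u + r - t = q * u + (r - t) := by omega
    rw [this]
  rw [e3] at h1
  have h2 := jets_le h hD P (fun p hp => (hP p hp).1) q (r - t) hq1 (fun p j => v p % D ^ K / D ^ j % D)
  have hq0 : (0 : ℝ) < q := by exact_mod_cast hq1
  have h3 := mul_le_mul_of_nonneg_left h2 (by positivity : (0 : ℝ) ≤ 1 / q)
  refine h1.trans (h3.trans (le_of_eq ?_))
  have e4 : ∏ p ∈ P, (1 / ((p : ℝ) * (D ^ K : ℕ))) = (∏ p ∈ P, (p : ℝ))⁻¹ * ∏ _p ∈ P, (1 / (D ^ K : ℕ) : ℝ) := by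
    rw [← prod_inv_distrib, ← prod_mul_distrib]
    refine prod_congr rfl fun p _ => ?_
    rw [one_div, one_div, mul_inv]
  have e5 : (q : ℝ) = M * ∏ p ∈ P, (p : ℝ) := by
    rw [hq, hQ]
    push_cast
    rfl
  rw [e4, e5, one_div, mul_inv, one_div]
  ring

/-- the block variables are uniformly distributed -/
lemma bv_unif (P : Finset ℕ) (hP : ∀ p ∈ P, p.Prime ∧ p ≠ 2) (v : ℕ → ℕ) (hv : ∀ p ∈ P, v p < p * D ^ (k + 1)) (t : ℕ)
    (ht : t < 2 ^ L) :
    μ.m (ind (fun n => n % 2 ^ L = t ∧ ∀ p ∈ P, D ^ (k + 1) * (n % p) + bv ψ (k + 1) D (2 ^ L) p n = v p)) =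
      (1 / ((2 ^ L : ℕ) : ℝ)) * ∏ p ∈ P, (1 / ((p : ℝ) * (D ^ (k + 1) : ℕ))) := by
  classical
  set M : ℕ := 2 ^ L with hM
  have hM1 : 0 < M := pow_pos (by norm_num) L
  have hM0 : (0 : ℝ) < M := by exact_mod_cast hM1
  set K : ℕ := k + 1 with hK
  have hDK : 0 < D ^ K := pow_pos hD K
  set DK : ℕ := D ^ K with hDKd
  have hDK0 : (0 : ℝ) < DK := by exact_mod_cast hDK
  set V : Finset (ℕ × ((p : ℕ) → p ∈ P → ℕ)) := range M ×ˢ P.pi fun p => range (p * DK) with hV
  set ev : ((p : ℕ) → p ∈ P → ℕ) → ℕ → ℕ := fun g p => if hp : p ∈ P then g p hp else 0 with hev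
  set F : (ℕ × ((p : ℕ) → p ∈ P → ℕ)) → ℕ → Prop := fun g n =>
    n % M = g.1 ∧ ∀ p ∈ P, DK * (n % p) + bv ψ K D M p n = ev g.2 p with hF
  have hsum : ∑ g ∈ V, μ.m (ind (F g)) = 1 := by
    rw [← μ.sum V fun g _ => Bd_ind (F g), ← μ.one]
    congr 1
    funext n
    set g₀ : ℕ × ((p : ℕ) → p ∈ P → ℕ) := (n % M, fun p _ => DK * (n % p) + bv ψ K D M p n) with hg₀
    have hg₀V : g₀ ∈ V := by
      rw [hV, mem_product, Finset.mem_pi]
      refine ⟨mem_range.2 (Nat.mod_lt n hM1), ?_⟩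
      intro p hp
      rw [mem_range, hg₀]
      have h1 := bv_lt h hD K M p n
      have h2 := Nat.mod_lt n (hP p hp).1.pos
      calc DK * (n % p) + bv ψ K D M p n < DK * (n % p) + DK := by omega
        _ = (n % p + 1) * DK := by ring
        _ ≤ p * DK := Nat.mul_le_mul_right DK h2
    rw [sum_eq_single g₀]
    · unfold ind
      rw [if_pos]
      refine ⟨rfl, ?_⟩
      intro p hp
      rw [hev]
      simp only [hp, dif_pos]
      rw [hg₀]
    · intro g _ hne
      unfold ind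
      rw [if_neg]
      intro hFg
      apply hne
      refine Prod.ext hFg.1.symm ?_
      funext p hp
      have := hFg.2 p hp
      rw [hev] at this
      simp only [hp, dif_pos] at this
      exact this.symm
    · intro hn; exact absurd hg₀V hn
  have hcard : ∑ _g ∈ V, ((1 / (M : ℝ)) * ∏ p ∈ P, (1 / ((p : ℝ) * DK))) = 1 := by
    rw [sum_const, hV, card_product, card_range, card_pi, nsmul_eq_mul]
    push_cast
    have e : (M : ℝ) * (∏ p ∈ P, ((range (p * DK)).card : ℝ)) * (1 / M * ∏ p ∈ P, (1 / ((p : ℝ) * DK))) =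
        ((M : ℝ) * (1 / M)) * ((∏ p ∈ P, ((range (p * DK)).card : ℝ)) * ∏ p ∈ P, (1 / ((p : ℝ) * DK))) := by ring
    rw [e, ← prod_mul_distrib, mul_one_div_cancel hM0.ne', one_mul]
    apply prod_eq_one
    intro p hp
    rw [card_range]
    have hp0 : (0 : ℝ) < p := by exact_mod_cast (hP p hp).1.pos
    push_cast
    field_simp
  have hle : ∀ g ∈ V, μ.m (ind (F g)) ≤ (1 / (M : ℝ)) * ∏ p ∈ P, (1 / ((p : ℝ) * DK)) :=
    fun g _ => bv_le h hD L P hP (ev g.2) g.1
  have heq : ∀ g ∈ V, μ.m (ind (F g)) = (1 / (M : ℝ)) * ∏ p ∈ P, (1 / ((p : ℝ) * DK)) :=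
    (sum_eq_sum_iff_of_le hle).1 (hsum.trans hcard.symm)
  have hgv : ((t, fun p (_ : p ∈ P) => v p) : ℕ × ((p : ℕ) → p ∈ P → ℕ)) ∈ V := by
    rw [hV, mem_product, Finset.mem_pi]
    refine ⟨mem_range.2 ht, ?_⟩
    intro p hp
    rw [mem_range]
    exact hv p hp
  rw [← heq _ hgv]
  congr 1
  apply ind_congr
  intro n
  apply and_congr Iff.rfl
  refine forall_congr' fun p => forall_congr' fun hp => ?_
  rw [hev]
  simp only [hp, dif_pos]

lemma locB_bv : LocB μ (D ^ (k + 1)) (2 ^ L) (bv ψ (k + 1) D (2 ^ L)) where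
  hD := Nat.one_le_iff_ne_zero.2 (pow_pos hD _).ne'
  hM := Nat.one_le_iff_ne_zero.2 (pow_pos (by norm_num) _).ne'
  lt := fun p n => bv_lt h hD _ _ p n
  blk := fun p n m e => by unfold bv; rw [e]
  unif := fun P hP v hv t ht => bv_unif h hD L P hP v hv t ht

end unif2

end Pool.Agent.Y326.Slf
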