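import Pool.Agent.Y326.Slw4
import Pool.Agent.TH833.BL.J4542

/-!
# Slow phases: windows, and the distribution of the phase
-/

set_option autoImplicit false

namespace Pool.Agent.Y326.Slw

open Finset Filter MeasureTheory
open Pool.Agent.TH112.BL Pool.Agent.TH928.BLJ

noncomputable section

open Pool.Agent.TH833.BL (S H S_bound S_add S_smul S_one S_nonneg S_succ shift_diff S_dil S_sub_bound dil_diff H_le le_H)

/-- logarithmic averages over the window `(A, N]` -/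
def wa (φ : ℕ → ℝ) (x : ℕ × ℕ) : ℝ := (1 / (H x.2 - H x.1)) * (S φ x.2 - S φ x.1)

lemma H_mono {A N : ℕ} (h : A ≤ N) : H A ≤ H N := by
  unfold H
  exact sum_le_sum_of_subset_of_nonneg (Icc_subset_Icc le_rfl h) fun _ _ _ => by positivity

lemma lt_of_H {A N : ℕ} (h : 0 < H N - H A) : A < N := by
  by_contra hc
  have := H_mono (not_lt.1 hc)
  linarith

lemma wa_bound {φ : ℕ → ℝ} {C : ℝ} (h : ∀ n, |φ n| ≤ C) {x : ℕ × ℕ} (hx : 0 < H x.2 - H x.1) : |wa φ x| ≤ C := by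
  unfold wa
  rw [abs_mul, abs_of_pos (by positivity : 0 < 1 / (H x.2 - H x.1)), div_mul_eq_mul_div, one_mul, div_le_iff₀ hx]
  exact S_sub_bound h (lt_of_H hx).le

lemma wa_add (φ ψ : ℕ → ℝ) (x : ℕ × ℕ) : wa (fun n => φ n + ψ n) x = wa φ x + wa ψ x := by
  unfold wa
  rw [S_add, S_add]; ring

lemma wa_smul (c : ℝ) (φ : ℕ → ℝ) (x : ℕ × ℕ) : wa (fun n => c * φ n) x = c * wa φ x := by
  unfold wa
  rw [S_smul, S_smul]; ring

section ultra

variable {F : Filter (ℕ × ℕ)}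

lemma wsmall (hF : Tendsto (fun x : ℕ × ℕ => H x.2 - H x.1) F atTop) {a : ℕ × ℕ → ℝ} {K : ℝ} (h : ∀ x, |a x| ≤ K) :
    Tendsto (fun x : ℕ × ℕ => (1 / (H x.2 - H x.1)) * a x) F (nhds 0) := by
  have h1 : Tendsto (fun x : ℕ × ℕ => K / (H x.2 - H x.1)) F (nhds 0) :=
    Tendsto.div_atTop tendsto_const_nhds hF
  apply squeeze_zero_norm' _ h1
  filter_upwards [hF.eventually_gt_atTop 0] with x hx
  rw [Real.norm_eq_abs, abs_mul, abs_of_pos (by positivity : 0 < 1 / (H x.2 - H x.1)), div_mul_eq_mul_div, one_mul]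
  exact div_le_div_of_nonneg_right (h x) hx.le

lemma wexists_lim (hF : Tendsto (fun x : ℕ × ℕ => H x.2 - H x.1) F atTop) (U : Ultrafilter (ℕ × ℕ))
    (hU : (U : Filter (ℕ × ℕ)) ≤ F) {φ : ℕ → ℝ} (h : Bd φ) : ∃ L, Tendsto (wa φ) U (nhds L) := by
  obtain ⟨C, hC⟩ := h
  have h1 : ∀ᶠ x in (U : Filter (ℕ × ℕ)), wa φ x ∈ Set.Icc (-C) C := by
    apply hU
    filter_upwards [hF.eventually_gt_atTop 0] with x hx
    have := wa_bound hC hx
    rw [abs_le] at this
    exact this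
  obtain ⟨L, _, hL⟩ := (isCompact_Icc (a := -C) (b := C)).ultrafilter_le_nhds
    (U.map (wa φ)) (by
      rw [le_principal_iff]
      exact h1)
  exact ⟨L, hL⟩

/-- limit along an ultrafilter -/
def wl (U : Ultrafilter (ℕ × ℕ)) (φ : ℕ → ℝ) : ℝ :=
  open Classical in if h : ∃ L, Tendsto (wa φ) U (nhds L) then h.choose else 0

lemma wl_eq {U : Ultrafilter (ℕ × ℕ)} {φ : ℕ → ℝ} {a : ℝ} (h : Tendsto (wa φ) U (nhds a)) : wl U φ = a := by
  unfold wl
  have h' : ∃ L, Tendsto (wa φ) U (nhds L) := ⟨a, h⟩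
  rw [dif_pos h']
  exact tendsto_nhds_unique h'.choose_spec h

lemma wl_tendsto (hF : Tendsto (fun x : ℕ × ℕ => H x.2 - H x.1) F atTop) {U : Ultrafilter (ℕ × ℕ)}
    (hU : (U : Filter (ℕ × ℕ)) ≤ F) {φ : ℕ → ℝ} (h : Bd φ) : Tendsto (wa φ) U (nhds (wl U φ)) := by
  obtain ⟨L, hL⟩ := wexists_lim hF U hU h
  rw [wl_eq hL]; exact hL

lemma wl_eq_of_diff (hF : Tendsto (fun x : ℕ × ℕ => H x.2 - H x.1) F atTop) {U : Ultrafilter (ℕ × ℕ)}
    (hU : (U : Filter (ℕ × ℕ)) ≤ F) {φ ψ : ℕ → ℝ}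
    (h : Bd ψ) {K : ℝ} (hd : ∀ N, |S φ N - S ψ N| ≤ K) : wl U φ = wl U ψ := by
  apply wl_eq
  have h1 := (wsmall hF (a := fun x : ℕ × ℕ => (S φ x.2 - S ψ x.2) - (S φ x.1 - S ψ x.1)) (K := K + K)
    (fun x => (abs_sub _ _).trans (add_le_add (hd _) (hd _)))).mono_left hU
  have h2 := (wl_tendsto hF hU h).add h1
  rw [add_zero] at h2
  refine h2.congr fun N => ?_
  unfold wa
  ring

/-- a mean along windows -/
theorem win_exists (hF : Tendsto (fun x : ℕ × ℕ => H x.2 - H x.1) F atTop) (f : ℕ → ℝ) (hf : Bd f)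
    (hne : ¬ Tendsto (wa f) F (nhds 0)) :
    ∃ μ : LM, μ.m f ≠ 0 ∧ ∀ φ : ℕ → ℝ, ∀ L : ℝ, Tendsto (wa φ) F (nhds L) → μ.m φ = L := by
  rw [Filter.tendsto_iff_ultrafilter] at hne
  push Not at hne
  obtain ⟨U, hU, hUf⟩ := hne
  refine ⟨⟨wl U, ?_, ?_, ?_, ?_, ?_, ?_⟩, ?_, ?_⟩
  · intro φ ψ hφ hψ
    apply wl_eq
    refine ((wl_tendsto hF hU hφ).add (wl_tendsto hF hU hψ)).congr fun N => ?_
    rw [wa_add]
  · intro c φ hφ
    apply wl_eq
    refine ((wl_tendsto hF hU hφ).const_mul c).congr fun N => ?_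
    rw [wa_smul]
  · intro φ hφ h0
    apply ge_of_tendsto (wl_tendsto hF hU hφ)
    apply hU
    filter_upwards [hF.eventually_gt_atTop 0] with x hx
    unfold wa
    refine mul_nonneg (by positivity) ?_
    have := (lt_of_H hx).le
    rw [sub_nonneg]
    unfold S
    exact sum_le_sum_of_subset_of_nonneg (Icc_subset_Icc le_rfl this) fun n _ _ => mul_nonneg (by positivity) (h0 n)
  · apply wl_eq
    apply Tendsto.mono_left _ hU
    refine tendsto_const_nhds.congr' ?_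
    filter_upwards [hF.eventually_gt_atTop 0] with x hx
    unfold wa
    rw [S_one, S_one]
    field_simp
  · intro φ hφ
    obtain ⟨C, hC⟩ := hφ
    exact wl_eq_of_diff hF hU ⟨C, hC⟩ (shift_diff hC)
  · intro p φ hp hφ
    obtain ⟨C, hC⟩ := hφ
    refine wl_eq_of_diff hF hU ⟨p * C, fun n => ?_⟩ (dil_diff hC hp)
    have hC0 : 0 ≤ C := (abs_nonneg _).trans (hC 0)
    dsimp only
    split_ifs
    · rw [abs_mul, abs_of_nonneg (by positivity : (0 : ℝ) ≤ (p : ℝ))]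
      exact mul_le_mul_of_nonneg_left (hC n) (by positivity)
    · rw [abs_zero]; positivity
  · intro h0
    apply hUf
    have := wl_tendsto hF hU hf
    have h0' : wl U f = 0 := h0
    rw [h0'] at this
    exact this
  · intro φ L h
    exact wl_eq (h.mono_left hU)

end ultra

/-- the slow phases along a family of windows -/
structure WP (F : Filter (ℕ × ℕ)) (φ : ℝ → ℝ) : Prop where
  slow : ∀ p : ℕ, p.Prime → Tendsto (fun m : ℕ => φ (((m + 1 : ℕ) : ℝ) / p) - φ ((m : ℝ) / p)) atTop (nhds 0)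
  weyl : ∀ P : Finset ℕ, (∀ p ∈ P, p.Prime) → ∀ κ : ℕ → ℤ, (∃ p ∈ P, κ p ≠ 0) →
    Tendsto (wa (fun m => (ex (∑ p ∈ P, κ p * φ ((m : ℝ) / p))).re)) F (nhds 0) ∧
    Tendsto (wa (fun m => (ex (∑ p ∈ P, κ p * φ ((m : ℝ) / p))).im)) F (nhds 0)

lemma SP.mul_int {μ : LM} {φ : ℝ → ℝ} (h : SP μ φ) (k : ℤ) (hk : k ≠ 0) (c : ℝ) : SP μ (fun x => k * φ x + c) := by
  refine ⟨fun p hp => ?_, fun P hP κ hκ => ?_⟩
  · have h1 := (h.slow p hp).const_mul (k : ℝ)
    rw [mul_zero] at h1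
    refine h1.congr fun m => ?_
    ring
  · obtain ⟨p, hp, hne⟩ := hκ
    have h1 := h.weyl P hP (fun q => κ q * k) ⟨p, hp, mul_ne_zero hne hk⟩
    set B : ℝ := ∑ q ∈ P, κ q * c with hB
    have e : ∀ m : ℕ, ex (∑ q ∈ P, (κ q : ℝ) * (k * φ ((m : ℝ) / q) + c)) =
        ex B * ex (∑ q ∈ P, ((κ q * k : ℤ) : ℝ) * φ ((m : ℝ) / q)) := by
      intro m
      rw [← ex_add]
      congr 1
      rw [hB, ← sum_add_distrib]
      refine sum_congr rfl fun q _ => ?_
      push_cast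
      ring
    simp only [e]
    have b1 : Bd (fun m : ℕ => (ex (∑ q ∈ P, ((κ q * k : ℤ) : ℝ) * φ ((m : ℝ) / q))).re) :=
      ⟨1, fun m => (Complex.abs_re_le_norm _).trans (norm_ex _).le⟩
    have b2 : Bd (fun m : ℕ => (ex (∑ q ∈ P, ((κ q * k : ℤ) : ℝ) * φ ((m : ℝ) / q))).im) :=
      ⟨1, fun m => (Complex.abs_im_le_norm _).trans (norm_ex _).le⟩
    constructor
    · have e2 : (fun m : ℕ => (ex B * ex (∑ q ∈ P, ((κ q * k : ℤ) : ℝ) * φ ((m : ℝ) / q))).re) =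
          fun m : ℕ => (ex B).re * (ex (∑ q ∈ P, ((κ q * k : ℤ) : ℝ) * φ ((m : ℝ) / q))).re +
            (-(ex B).im) * (ex (∑ q ∈ P, ((κ q * k : ℤ) : ℝ) * φ ((m : ℝ) / q))).im := by
        funext m
        rw [Complex.mul_re]; ring
      rw [e2, μ.add _ _ (b1.cmul _) (b2.cmul _), μ.smul _ _ b1, μ.smul _ _ b2, h1.1, h1.2]
      ring
    · have e2 : (fun m : ℕ => (ex B * ex (∑ q ∈ P, ((κ q * k : ℤ) : ℝ) * φ ((m : ℝ) / q))).im) =
          fun m : ℕ => (ex B).re * (ex (∑ q ∈ P, ((κ q * k : ℤ) : ℝ) * φ ((m : ℝ) / q))).im +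
            (ex B).im * (ex (∑ q ∈ P, ((κ q * k : ℤ) : ℝ) * φ ((m : ℝ) / q))).re := by
        funext m
        rw [Complex.mul_im]
      rw [e2, μ.add _ _ (b2.cmul _) (b1.cmul _), μ.smul _ _ b1, μ.smul _ _ b2, h1.1, h1.2]
      ring

/-- multiplicative families -/
structure MF {k : ℕ} (f : Fin k → ℕ → ℂ) (a : Fin k → ℕ) (P₀ : ℕ) : Prop where
  le : ∀ j n, ‖f j n‖ ≤ 1
  mul : ∀ j p n, p.Prime → P₀ ≤ p → ¬ p ∣ n → f j (p * n) = f j p * f j n
  pos : ∀ j, 1 ≤ a j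

section

variable {μ : LM} {φ : ℝ → ℝ} {k : ℕ} {f : Fin k → ℕ → ℂ} {a : Fin k → ℕ} {b : Fin k → ℤ} {P₀ : ℕ}

/-- the product of the values along linear forms -/
def prd {k : ℕ} (f : Fin k → ℕ → ℂ) (a : Fin k → ℕ) (b : Fin k → ℤ) (n : ℕ) : ℂ := ∏ j, f j ((a j * n + b j : ℤ).toNat)

lemma norm_prod_le (hf : MF f a P₀) (n : ℕ) : ‖prd f a b n‖ ≤ 1 := by
  unfold prd
  rw [norm_prod]
  exact prod_le_one (fun _ _ => norm_nonneg _) fun j _ => hf.le j _

lemma m_shift (μ : LM) {g : ℕ → ℝ} (hg : Bd g) (s : ℕ) : μ.m (fun n => g (n + s)) = μ.m g := by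
  induction s with
  | zero => rfl
  | succ s ih =>
    rw [← ih]
    have hb : Bd (fun n => g (n + s)) := by
      obtain ⟨C, hC⟩ := hg
      exact ⟨C, fun n => hC _⟩
    rw [← μ.shift _ hb]
    congr 1
    funext n
    congr 1
    ring

lemma slow_shift (h : SP μ φ) (s : ℕ) : Tendsto (fun m : ℕ => φ (((m + s : ℕ) : ℝ)) - φ (m : ℝ)) atTop (nhds 0) := by
  have h2 : Tendsto (fun m : ℕ => φ (((2 * m + 2 * s : ℕ) : ℝ) / 2) - φ (((2 * m : ℕ) : ℝ) / 2)) atTop (nhds 0) := by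
    have key : ∀ r : ℕ, Tendsto (fun m : ℕ => φ (((m + r : ℕ) : ℝ) / 2) - φ ((m : ℝ) / 2)) atTop (nhds 0) := by
      intro r
      induction r with
      | zero => simp
      | succ r ih =>
        have h1 := (h.slow 2 Nat.prime_two).comp (tendsto_add_atTop_nat r)
        have h3 := ih.add h1
        rw [add_zero] at h3
        refine h3.congr fun m => ?_
        simp only [Function.comp]
        push_cast
        ring_nf
    have h4 : Tendsto (fun m : ℕ => 2 * m) atTop atTop :=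
      tendsto_atTop_mono (fun m => show m ≤ 2 * m by omega) tendsto_id
    exact (key (2 * s)).comp h4
  refine h2.congr fun m => ?_
  push_cast
  congr 2 <;> ring

/-- all orders, integer shifts -/
theorem slow_meanZ (h : SP μ φ) (hf : MF f a P₀) : μ.m (fun n => (prd f a b n * ex (φ n)).re) = 0 := by
  have bd : ∀ (ψ : ℕ → ℝ), Bd (fun n => (prd f a b n * ex (ψ n)).re) := fun ψ =>
    ⟨1, fun n => (Complex.abs_re_le_norm _).trans (by rw [norm_mul, norm_ex, mul_one]; exact norm_prod_le hf n)⟩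
  set s : ℕ := ∑ j, (b j).natAbs with hs
  have hle : ∀ j, 0 ≤ (a j : ℤ) * s + b j := by
    intro j
    have h1 : (b j).natAbs ≤ s := single_le_sum (f := fun j => (b j).natAbs) (fun _ _ => Nat.zero_le _) (mem_univ j)
    have h2 : (s : ℤ) ≤ a j * s := by
      have := hf.pos j
      nlinarith [(by exact_mod_cast this : (1 : ℤ) ≤ a j), (Int.natCast_nonneg s)]
    have h3 : -(b j) ≤ ((b j).natAbs : ℤ) := by omega
    have h4 : ((b j).natAbs : ℤ) ≤ s := by exact_mod_cast h1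
    linarith
  set b' : Fin k → ℕ := fun j => ((a j : ℤ) * s + b j).toNat with hb'
  have e1 : ∀ n : ℕ, prd f a b (n + s) = ∏ j, f j (a j * n + b' j) := by
    intro n
    unfold prd
    refine prod_congr rfl fun j _ => ?_
    congr 1
    have h1 : ((b' j : ℕ) : ℤ) = (a j : ℤ) * s + b j := Int.toNat_of_nonneg (hle j)
    have h2 : (a j : ℤ) * ((n + s : ℕ) : ℤ) + b j = ((a j * n + b' j : ℕ) : ℤ) := by
      push_cast
      rw [h1]; ring
    rw [h2, Int.toNat_natCast]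
  rw [← m_shift μ (bd fun n => φ n) s]
  have h0 := slow_mean h f a b' P₀ hf.le hf.mul hf.pos
  have bA : Bd (fun n : ℕ => (prd f a b (n + s) * ex (φ ((n + s : ℕ) : ℝ))).re) :=
    ⟨1, fun n => (Complex.abs_re_le_norm _).trans (by rw [norm_mul, norm_ex, mul_one]; exact norm_prod_le hf _)⟩
  have bB : Bd (fun n : ℕ => ((∏ j, f j (a j * n + b' j)) * ex (φ n)).re) := by
    refine ⟨1, fun n => (Complex.abs_re_le_norm _).trans ?_⟩
    rw [norm_mul, norm_ex, mul_one, ← e1]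
    exact norm_prod_le hf _
  have key : ∀ ε : ℝ, 0 < ε → |μ.m (fun n : ℕ => (prd f a b (n + s) * ex (φ ((n + s : ℕ) : ℝ))).re) -
      μ.m (fun n : ℕ => ((∏ j, f j (a j * n + b' j)) * ex (φ n)).re)| ≤ 2 * Real.pi * ε := by
    intro ε hε
    rw [← μ.sub bA bB]
    have b3 : Bd (fun n : ℕ => (prd f a b (n + s) * ex (φ ((n + s : ℕ) : ℝ))).re -
        ((∏ j, f j (a j * n + b' j)) * ex (φ n)).re) := by
      have := bA.add (bB.cmul (-1))
      simpa [sub_eq_add_neg] using this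
    obtain ⟨M, hM⟩ := eventually_atTop.1 ((slow_shift h s).eventually (Metric.ball_mem_nhds 0 hε))
    refine abs_m_le_large μ b3 _ M fun n hn => ?_
    have h1 := hM n hn
    rw [dist_zero_right, Real.norm_eq_abs] at h1
    rw [← Complex.sub_re, e1, ← mul_sub]
    refine (Complex.abs_re_le_norm _).trans ?_
    rw [norm_mul, ← e1]
    refine (mul_le_of_le_one_left (norm_nonneg _) (norm_prod_le hf _)).trans ((ex_sub _ _).trans ?_)
    exact mul_le_mul_of_nonneg_left h1.le Real.two_pi_pos.le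
  by_contra hne
  rw [h0, sub_zero] at key
  have h1 := abs_pos.2 hne
  have h2 := key (|μ.m (fun n : ℕ => (prd f a b (n + s) * ex (φ ((n + s : ℕ) : ℝ))).re)| / (4 * Real.pi)) (by positivity)
  have h3 : 2 * Real.pi * (|μ.m (fun n : ℕ => (prd f a b (n + s) * ex (φ ((n + s : ℕ) : ℝ))).re)| / (4 * Real.pi)) =
      |μ.m (fun n : ℕ => (prd f a b (n + s) * ex (φ ((n + s : ℕ) : ℝ))).re)| / 2 := by
    field_simp
    ring
  rw [h3] at h2
  linarith

/-- all the Fourier coefficients -/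
lemma slow_coeff (h : SP μ φ) (hf : MF f a P₀) (l : ℤ) (hl : l ≠ 0) (c : ℂ) :
    μ.m (fun n => (prd f a b n * (c * ex (l * φ n))).re) = 0 := by
  have h1 := slow_meanZ (b := b) (h.mul_int l hl 0) hf
  have h2 := slow_meanZ (b := b) (h.mul_int l hl (-(1 / 4))) hf
  have e4 : ex (-(1 / 4)) = -Complex.I := by
    unfold ex
    rw [show 2 * (Real.pi : ℂ) * Complex.I * ((-(1 / 4) : ℝ) : ℂ) = -(Real.pi / 2 * Complex.I) by push_cast; ring,
      Complex.exp_neg, Complex.exp_pi_div_two_mul_I, Complex.inv_I]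
  have b0 : ∀ n, ‖prd f a b n * ex (l * φ n)‖ ≤ 1 := by
    intro n
    rw [norm_mul, norm_ex, mul_one]
    exact norm_prod_le hf n
  have b1 : Bd (fun n => (prd f a b n * ex (l * φ n)).re) :=
    ⟨1, fun n => (Complex.abs_re_le_norm _).trans (b0 n)⟩
  have b2 : Bd (fun n => (prd f a b n * ex (l * φ n)).im) :=
    ⟨1, fun n => (Complex.abs_im_le_norm _).trans (b0 n)⟩
  have h1' : μ.m (fun n => (prd f a b n * ex (l * φ n)).re) = 0 := by
    simpa using h1
  have h2' : μ.m (fun n => (prd f a b n * ex (l * φ n)).im) = 0 := by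
    rw [← h2]
    congr 1
    funext n
    rw [ex_add, e4]
    rw [← mul_assoc, Complex.mul_re (_ * _) (-Complex.I)]
    simp
  have e : (fun n => (prd f a b n * (c * ex (l * φ n))).re) =
      fun n => c.re * (prd f a b n * ex (l * φ n)).re +
        (-c.im) * (prd f a b n * ex (l * φ n)).im := by
    funext n
    rw [mul_left_comm, Complex.mul_re c]; ring
  rw [e, μ.add _ _ (b1.cmul _) (b2.cmul _), μ.smul _ _ b1, μ.smul _ _ b2, h1', h2']
  ring

end

end

end Pool.Agent.Y326.Slw
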