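import Pool.Agent.Y326.Slf4
import Pool.Agent.Y326.Slw5
import Pool.Agent.Y326.Slw12

/-!
# Means of products of multiplicative functions with a fast phase
-/

set_option autoImplicit false

namespace Pool.Agent.Y326.Slf

open Finset Filter
open Pool.Agent.TH112.BL Pool.Agent.TH928.BLJ
open Pool.Agent.Y326.Slw

lemma norm_ex' (x : ℝ) : ‖ex x‖ = 1 := norm_ex x

lemma norm_ex_sum_sub (K : ℕ) {D : ℕ} (hD : 1 ≤ D) (C : ℕ → ℕ) (x : ℕ → ℝ) :
    ‖ex (∑ j ∈ range K, C j * x j) - ex (∑ j ∈ range K, C j * ((dg D (x j) : ℝ) / D))‖ ≤ 7 * (∑ j ∈ range K, (C j : ℝ)) / D := by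
  have hD0 : (0 : ℝ) < D := by exact_mod_cast hD
  choose q hq using fun y : ℝ => dg_approx hD y
  have e : ex (∑ j ∈ range K, C j * ((dg D (x j) : ℝ) / D)) =
      ex (∑ j ∈ range K, C j * ((dg D (x j) : ℝ) / D + q (x j))) := by
    have e1 : ∑ j ∈ range K, (C j : ℝ) * ((dg D (x j) : ℝ) / D + q (x j)) =
        ∑ j ∈ range K, (C j : ℝ) * ((dg D (x j) : ℝ) / D) + ((∑ j ∈ range K, (C j : ℤ) * q (x j) : ℤ) : ℝ) := by
      push_cast
      rw [← sum_add_distrib]
      exact sum_congr rfl fun j _ => by ring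
    rw [e1, ex_add, ex_int, mul_one]
  rw [e]
  refine (ex_sub _ _).trans ?_
  rw [← sum_sub_distrib]
  have h1 : |∑ j ∈ range K, ((C j : ℝ) * x j - C j * ((dg D (x j) : ℝ) / D + q (x j)))| ≤ (∑ j ∈ range K, (C j : ℝ)) / D := by
    refine (abs_sum_le_sum_abs _ _).trans ?_
    rw [sum_div]
    refine sum_le_sum fun j _ => ?_
    rw [← mul_sub, abs_mul, abs_of_nonneg (Nat.cast_nonneg _)]
    calc (C j : ℝ) * _ ≤ C j * (1 / D) := mul_le_mul_of_nonneg_left (hq (x j)).1 (Nat.cast_nonneg _)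
      _ = (C j : ℝ) / D := by ring
  have h0 : 0 ≤ (∑ j ∈ range K, (C j : ℝ)) / D := by positivity
  calc 2 * Real.pi * |∑ j ∈ range K, ((C j : ℝ) * x j - C j * ((dg D (x j) : ℝ) / D + q (x j)))| ≤
        7 * ((∑ j ∈ range K, (C j : ℝ)) / D) :=
        mul_le_mul (by linarith [Real.pi_lt_d2]) h1 (abs_nonneg _) (by norm_num)
    _ = 7 * (∑ j ∈ range K, (C j : ℝ)) / D := by ring

/-- differences of null sequences -/
lemma fwd_null {g : ℕ → ℝ} (hg : Tendsto g atTop (nhds 0)) (i : ℕ) : Tendsto ((fwdDiff 1)^[i] g) atTop (nhds 0) := by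
  induction i with
  | zero => exact hg
  | succ i ih =>
    rw [Function.iterate_succ_apply']
    have h1 : Tendsto (fun n => (fwdDiff 1)^[i] g (n + 1)) atTop (nhds 0) := (tendsto_add_atTop_iff_nat 1).2 ih
    have h2 := h1.sub ih
    rw [sub_zero] at h2
    exact h2

section

variable {μ : LM} {k : ℕ} {ψ : ℕ → ℕ → ℝ} (h : FP μ k ψ)
include h

/-- high differences tend to zero -/
lemma jt_null (p : ℕ) (hp : p.Prime) (j : ℕ) (hj : k + 1 ≤ j) : Tendsto (jt ψ j p) atTop (nhds 0) := by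
  have e : jt ψ j p = (fwdDiff 1)^[j - (k + 1)] (jt ψ (k + 1) p) := by
    unfold jt
    rw [← Function.iterate_add_apply]
    congr 1
    congr 1
    omega
  rw [e]
  exact fwd_null (h.diff p hp) _

/-- the polynomial approximation on a block -/
lemma newton (p : ℕ) (hp : p.Prime) (M : ℕ) (η : ℝ) (hη : 0 < η) : ∃ N₀ : ℕ, ∀ m, N₀ ≤ m → ∀ t < M,
    |ψ p (m + t) - ∑ j ∈ range (k + 1), (t.choose j : ℝ) * jt ψ j p m| ≤ η := by
  have key : ∀ t : ℕ, ∀ᶠ m in atTop, |ψ p (m + t) - ∑ j ∈ range (k + 1), (t.choose j : ℝ) * jt ψ j p m| ≤ η := by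
    intro t
    have h1 : Tendsto (fun m => ∑ j ∈ Ico (k + 1) (t + 1), (t.choose j : ℝ) * jt ψ j p m) atTop
        (nhds (∑ _j ∈ Ico (k + 1) (t + 1), (0 : ℝ))) := by
      apply tendsto_finsetSum
      intro j hj
      have := (jt_null h p hp j (mem_Ico.1 hj).1).const_mul (t.choose j : ℝ)
      simpa using this
    rw [sum_const_zero] at h1
    have h2 := (Metric.tendsto_nhds.1 h1) η hη
    filter_upwards [h2] with m hm
    rw [Real.dist_eq, sub_zero] at hm
    have e := shift_eq_sum_fwdDiff_iter (h := (1 : ℕ)) (ψ p) t m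
    have e' : ψ p (m + t) = ∑ j ∈ range (t + 1), (t.choose j : ℝ) * jt ψ j p m := by
      rw [smul_eq_mul, mul_one] at e
      rw [e]
      refine sum_congr rfl fun j _ => ?_
      rw [nsmul_eq_mul]
      rfl
    rw [e']
    refine le_trans (le_of_eq ?_) hm.le
    congr 1
    rcases le_total (k + 1) (t + 1) with hle | hle
    · rw [← sum_range_add_sum_Ico _ hle]
      ring
    · rw [Ico_eq_empty (by omega), sum_empty, sub_eq_zero]
      symm
      rw [← sum_range_add_sum_Ico _ hle]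
      have : ∑ j ∈ Ico (t + 1) (k + 1), (t.choose j : ℝ) * jt ψ j p m = 0 := by
        apply sum_eq_zero
        intro j hj
        rw [Nat.choose_eq_zero_of_lt (by rw [mem_Ico] at hj; omega)]
        simp
      rw [this, add_zero]
  have h3 : ∀ᶠ m in atTop, ∀ t ∈ range M, |ψ p (m + t) - ∑ j ∈ range (k + 1), (t.choose j : ℝ) * jt ψ j p m| ≤ η := by
    rw [Filter.eventually_all_finset]
    intro t _
    exact key t
  obtain ⟨N₀, hN₀⟩ := eventually_atTop.1 h3
  exact ⟨N₀, fun m hm t ht => hN₀ m hm t (mem_range.2 ht)⟩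

end

/-- the approximating function -/
noncomputable def AA' (K D t σ : ℕ) : ℂ := ex (∑ j ∈ range K, (t.choose j : ℝ) * (((σ / D ^ j % D : ℕ) : ℝ) / D))

lemma AA'_norm (K D t σ : ℕ) : ‖AA' K D t σ‖ ≤ 1 := (norm_ex _).le

lemma AA'_zero (k D t : ℕ) (hD : 2 ≤ D) : ∑ σ ∈ range (D ^ (k + 1)), AA' (k + 1) D t σ = 0 := by
  have hD0 : 0 < D := by omega
  have e0 : ∀ (N : ℕ) (G : ℕ → ℂ), ∑ r ∈ range (N * D), G r = ∑ i ∈ range N, ∑ j ∈ range D, G (D * i + j) := by
    intro N G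
    induction N with
    | zero => simp
    | succ p ih =>
      rw [sum_range_succ, ← ih, Nat.succ_mul, sum_range_add]
      congr 1
      refine sum_congr rfl fun j _ => ?_
      rw [mul_comm]
  rw [pow_succ, e0]
  apply sum_eq_zero
  intro i _
  have h1 : ∀ j ∈ range D, AA' (k + 1) D t (D * i + j) =
      ex (∑ l ∈ range k, (t.choose (l + 1) : ℝ) * (((i / D ^ l % D : ℕ) : ℝ) / D)) * ex ((j : ℝ) / D) := by
    intro j hj
    rw [mem_range] at hj
    unfold AA'
    rw [sum_range_succ', ← ex_add]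
    congr 1
    congr 1
    · refine sum_congr rfl fun l _ => ?_
      have : (D * i + j) / D ^ (l + 1) = i / D ^ l := by
        rw [pow_succ', ← Nat.div_div_eq_div_mul, Nat.mul_add_div hD0, Nat.div_eq_of_lt hj, add_zero]
      rw [this]
    · rw [Nat.choose_zero_right, pow_zero, Nat.div_one, Nat.mul_add_mod, Nat.mod_eq_of_lt hj]
      simp
  rw [sum_congr rfl h1, ← mul_sum, sum_ex D hD, mul_zero]

section

variable {μ : LM} {k : ℕ} {ψ : ℕ → ℕ → ℝ} (h : FP μ k ψ)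
include h

/-- the parameters -/
lemma params (ε : ℝ) (hε : 0 < ε) (Q : ℝ) : ∃ (D M : ℕ) (s : ℕ → ℕ → ℕ) (Ap : ℕ → ℕ → ℕ → ℂ), LocB μ D M s ∧
      Q * Real.log D ≤ M ∧ Q ≤ M ∧ (∀ p t σ, ‖Ap p t σ‖ ≤ 1) ∧ (∀ p t, ∑ σ ∈ range D, Ap p t σ = 0) ∧
      ∀ p, p.Prime → p ≠ 2 → ∃ N₀ : ℕ, ∀ m, N₀ ≤ m → ∀ j, m % M + j < M →
        ‖ex (ψ p (m + j)) - Ap p (m % M + j) (s p m)‖ ≤ ε := by
  obtain ⟨D₀, hD₀⟩ := exists_nat_ge (14 * ((k : ℝ) + 1) / ε)
  set D1 : ℕ := D₀ + 2 with hD1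
  have hD1r : 14 * ((k : ℝ) + 1) / ε ≤ D1 := by rw [hD1]; push_cast; linarith
  have hD10 : (0 : ℝ) < D1 := by rw [hD1]; positivity
  -- choice of the length of the blocks
  have hlim : Tendsto (fun L : ℕ => |Q| * ((k + 1) * (Real.log D1 + k * (L * Real.log 2))) / (2 : ℝ) ^ L) atTop (nhds 0) := by
    have h1 : Tendsto (fun L : ℕ => (L : ℝ) / 2 ^ L) atTop (nhds 0) := by
      have := tendsto_pow_const_div_const_pow_of_one_lt 1 (show (1 : ℝ) < 2 by norm_num)
      simpa using this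
    have h2 : Tendsto (fun L : ℕ => (1 : ℝ) / 2 ^ L) atTop (nhds 0) := by
      have := tendsto_pow_const_div_const_pow_of_one_lt 0 (show (1 : ℝ) < 2 by norm_num)
      simpa using this
    have h3 := ((h1.const_mul (|Q| * (k + 1) * k * Real.log 2)).add (h2.const_mul (|Q| * (k + 1) * Real.log D1)))
    rw [mul_zero, mul_zero, add_zero] at h3
    refine h3.congr fun L => ?_
    ring
  have hbig : Tendsto (fun L : ℕ => (2 : ℝ) ^ L) atTop atTop := tendsto_pow_atTop_atTop_of_one_lt (by norm_num)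
  obtain ⟨L, hL1, hL2⟩ := ((hlim.eventually_lt_const (zero_lt_one (α := ℝ))).and (hbig.eventually_ge_atTop Q)).exists
  set M : ℕ := 2 ^ L with hM
  have hM1 : 1 ≤ M := Nat.one_le_iff_ne_zero.2 (pow_pos (by norm_num) L).ne'
  have hMr : (M : ℝ) = 2 ^ L := by rw [hM]; push_cast; rfl
  have hM0 : (0 : ℝ) < M := by exact_mod_cast hM1
  set D : ℕ := D1 * M ^ k with hD
  have hMk : 1 ≤ M ^ k := Nat.one_le_iff_ne_zero.2 (pow_pos hM1 k).ne'
  have hD2 : 2 ≤ D := by
    rw [hD, hD1]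
    nlinarith
  have hD1' : 1 ≤ D := by omega
  have hDr : (D : ℝ) = D1 * (M : ℝ) ^ k := by rw [hD]; push_cast; rfl
  have hlogD : Real.log (D : ℝ) = Real.log D1 + k * (L * Real.log 2) := by
    rw [hDr, Real.log_mul hD10.ne' (by positivity), Real.log_pow, hMr, Real.log_pow]
  have hlogDK : Real.log ((D ^ (k + 1) : ℕ) : ℝ) = (k + 1) * (Real.log D1 + k * (L * Real.log 2)) := by
    push_cast
    rw [Real.log_pow, hlogD]
    push_cast
    ring
  refine ⟨D ^ (k + 1), M, bv ψ (k + 1) D M, fun _ t σ => AA' (k + 1) D t σ, locB_bv h hD1' L, ?_, ?_, ?_, ?_, ?_⟩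
  · rw [hlogDK, hMr]
    have h1 : 0 ≤ (k + 1) * (Real.log D1 + k * (L * Real.log 2)) := by
      rw [← hlogDK]
      exact Real.log_nonneg (by exact_mod_cast Nat.one_le_iff_ne_zero.2 (pow_pos (by omega : 0 < D) (k + 1)).ne')
    have h2 : |Q| * ((k + 1) * (Real.log D1 + k * (L * Real.log 2))) ≤ 2 ^ L := by
      rw [div_lt_one (by positivity)] at hL1
      exact hL1.le
    exact (mul_le_mul_of_nonneg_right (le_abs_self Q) h1).trans h2
  · rw [hMr]; exact hL2
  · exact fun p t σ => AA'_norm _ _ _ _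
  · exact fun p t => AA'_zero k D t hD2
  · intro p hp _
    obtain ⟨N₀, hN₀⟩ := newton h p hp M (ε / 14) (by positivity)
    refine ⟨N₀ + M, fun m hm j hj => ?_⟩
    set m₀ := M * (m / M) with hm₀
    set t := m % M + j with ht
    have hdm := Nat.div_add_mod m M
    have hmM : m % M < M := Nat.mod_lt _ hM1
    have h1 := hN₀ m₀ (by omega) t hj
    have e1 : m + j = m₀ + t := by omega
    have h2 : ‖ex (ψ p (m + j)) - ex (∑ j ∈ range (k + 1), (t.choose j : ℝ) * jt ψ j p m₀)‖ ≤ ε / 2 := by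
      rw [e1]
      refine (ex_sub _ _).trans ?_
      calc 2 * Real.pi * _ ≤ 7 * (ε / 14) := mul_le_mul (by linarith [Real.pi_lt_d2]) h1 (abs_nonneg _) (by norm_num)
        _ = ε / 2 := by ring
    have h3 := norm_ex_sum_sub (k + 1) hD1' (fun j => t.choose j) (fun j => jt ψ j p m₀)
    have e2 : ex (∑ j ∈ range (k + 1), (t.choose j : ℝ) * ((dg D (jt ψ j p m₀) : ℝ) / D)) =
        AA' (k + 1) D t (bv ψ (k + 1) D M p m) := by
      unfold AA' bv
      congr 1
      refine sum_congr rfl fun j hj => ?_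
      rw [enc_dig (k + 1) _ (fun j => dg_lt hD1' _) (mem_range.1 hj)]
    rw [e2] at h3
    have h4 : (∑ j ∈ range (k + 1), (t.choose j : ℝ)) ≤ (k + 1) * (M : ℝ) ^ k := by
      have h5 : ∀ j ∈ range (k + 1), (t.choose j : ℝ) ≤ (M : ℝ) ^ k := by
        intro j hj'
        rw [mem_range] at hj'
        have h6 : t.choose j ≤ M ^ k := by
          calc t.choose j ≤ t ^ j := Nat.choose_le_pow t j
            _ ≤ M ^ j := Nat.pow_le_pow_left (by omega) j
            _ ≤ M ^ k := Nat.pow_le_pow_right hM1 (by omega)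
        exact_mod_cast h6
      refine (sum_le_sum h5).trans (le_of_eq ?_)
      rw [sum_const, card_range, nsmul_eq_mul]
      push_cast
      ring
    have h7 : 7 * (∑ j ∈ range (k + 1), (t.choose j : ℝ)) / D ≤ ε / 2 := by
      rw [hDr, div_le_iff₀ (by positivity)]
      rw [div_le_iff₀ hε] at hD1r
      have h8 : 0 ≤ (M : ℝ) ^ k := by positivity
      nlinarith [mul_le_mul_of_nonneg_right hD1r h8]
    have h8 := norm_sub_le_norm_sub_add_norm_sub (ex (ψ p (m + j)))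
      (ex (∑ j ∈ range (k + 1), (t.choose j : ℝ) * jt ψ j p m₀)) (AA' (k + 1) D t (bv ψ (k + 1) D M p m))
    linarith

/-- **The mean of a product of multiplicative functions with a fast phase vanishes.** -/
theorem fast_mean {w : ℕ → ℂ} (hw : ∀ n, ‖w n‖ ≤ 1) (hwz : ∀ p n, p.Prime → ex (ψ p (p * n)) = w n)
    {m : ℕ} (f : Fin m → ℕ → ℂ) (a b : Fin m → ℕ) (P₀ : ℕ) (hf : ∀ j n, ‖f j n‖ ≤ 1)
    (hmul : ∀ j p n, p.Prime → P₀ ≤ p → ¬ p ∣ n → f j (p * n) = f j p * f j n) (ha : ∀ j, 1 ≤ a j) :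
    μ.m (fun n => ((∏ j, f j (a j * n + b j)) * w n).re) = 0 := by
  rcases dichotomy μ (f := f) (a := a) (b := b) P₀ hf hmul ha (w := w) hw with ⟨BB, hBB⟩ | hz
  swap
  · exact hz
  exact core (f := f) (a := a) (b := b) (w := w) (z := fun p m => ex (ψ p m)) μ P₀ hf hmul
    hw (fun p n => (norm_ex _).le) hwz ha BB hBB (params h)

end

end Pool.Agent.Y326.Slf
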