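import Pool.Agent.Y326.Slw11

/-!
# Slow phases: averages with absolute values
-/

set_option autoImplicit false

namespace Pool.Agent.Y326.Slw

open Finset Filter MeasureTheory
open Pool.Agent.TH112.BL Pool.Agent.TH928.BLJ

noncomputable section

open Pool.Agent.TH833.BL (S H S_bound S_add S_smul S_one S_nonneg S_succ shift_diff S_dil S_sub_bound dil_diff H_le le_H one_le_log log_tendsto)

/-- phases which stay oscillating against functions with increments at most `Δ` -/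
structure RP (φ : ℝ → ℝ) (Δ : ℕ → ℝ) : Prop where
  nn : ∀ n, 0 ≤ Δ n
  tz : Tendsto Δ atTop (nhds 0)
  sm : ∀ P : Finset ℕ, (∀ p ∈ P, p.Prime) → ∀ κ : ℕ → ℤ, (∃ p ∈ P, κ p ≠ 0) →
    ∃ D D' : ℝ → ℝ, ∃ x₀ : ℝ, SM (fun x => ∑ p ∈ P, κ p * φ (x / p)) D D' x₀ ∧
      (∀ q : ℕ, 1 ≤ q → Tendsto (fun n : ℕ => Δ (n / q) * (((n : ℝ) + 1) / |D ((n : ℝ) + 1)|)) atTop (nhds 0)) ∧
      (∀ᶠ x in atTop, |1 / D x| ≤ 1)

lemma RP.mul {φ : ℝ → ℝ} {Δ : ℕ → ℝ} (h : RP φ Δ) (l : ℤ) (hl : l ≠ 0) : RP (fun x => l * φ x) Δ := by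
  refine ⟨h.nn, h.tz, fun P hP κ hκ => ?_⟩
  obtain ⟨p, hp, hne⟩ := hκ
  obtain ⟨D, D', x₀, h1, h2, h3⟩ := h.sm P hP (fun q => κ q * l) ⟨p, hp, mul_ne_zero hne hl⟩
  refine ⟨D, D', x₀, ?_, h2, h3⟩
  have e : (fun x => ∑ p ∈ P, (κ p : ℝ) * (l * φ (x / p))) = fun x => ∑ p ∈ P, ((κ p * l : ℤ) : ℝ) * φ (x / p) := by
    funext x
    refine sum_congr rfl fun q _ => ?_
    push_cast
    ring
  rw [e]
  exact h1

/-- sums over windows -/
lemma S_sub (φ : ℕ → ℝ) {A N : ℕ} (h : A ≤ N) : S φ N - S φ A = ∑ n ∈ Ioc A N, (1 / (n : ℝ)) * φ n := by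
  induction N, h using Nat.le_induction with
  | base => simp
  | succ N hN ih =>
    rw [S_succ, ← Finset.insert_Ioc_right_eq_Ioc_add_one hN, Finset.sum_insert (by simp), ← ih]
    push_cast
    ring

/-- windows: a criterion -/
lemma wa_zero_of {F : Filter (ℕ × ℕ)} (hF : Tendsto (fun x : ℕ × ℕ => H x.2 - H x.1) F atTop) {g : ℕ → ℂ}
    (hg : ∀ n, ‖g n‖ ≤ 1)
    (h : ∀ ε : ℝ, 0 < ε → ∃ (n₀ : ℕ) (C : ℝ), ∀ A N : ℕ, n₀ ≤ A → A ≤ N →
      ‖∑ n ∈ Ioc A N, g n / (n : ℂ)‖ ≤ ε * (H N - H A) + C) :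
    Tendsto (wa fun n => (g n).re) F (nhds 0) ∧ Tendsto (wa fun n => (g n).im) F (nhds 0) := by
  have main : ∀ ε : ℝ, 0 < ε → ∀ᶠ x : ℕ × ℕ in F, |wa (fun n => (g n).re) x| ≤ ε ∧ |wa (fun n => (g n).im) x| ≤ ε := by
    intro ε hε
    obtain ⟨n₀, C, hC⟩ := h (ε / 2) (by positivity)
    filter_upwards [hF.eventually_ge_atTop (max 1 (2 * (H n₀ + |C|) / ε))] with x hx
    obtain ⟨A, N⟩ := x
    simp only at hx
    have h1 : 1 ≤ H N - H A := (le_max_left _ _).trans hx
    have h2 : 2 * (H n₀ + |C|) / ε ≤ H N - H A := (le_max_right _ _).trans hx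
    have hlt : A < N := lt_of_H (by linarith)
    have hbd : ‖∑ n ∈ Ioc A N, g n / (n : ℂ)‖ ≤ ε / 2 * (H N - H A) + (H n₀ + |C|) := by
      have hb : ∀ A' N' : ℕ, A' ≤ N' → ‖∑ n ∈ Ioc A' N', g n / (n : ℂ)‖ ≤ H N' - H A' := by
        intro A' N' hAN
        have e0 := S_sub (fun _ => (1 : ℝ)) hAN
        rw [S_one, S_one] at e0
        rw [e0]
        refine (norm_sum_le _ _).trans (sum_le_sum fun n _ => ?_)
        rw [norm_div, Complex.norm_natCast, mul_one]
        exact div_le_div_of_nonneg_right (hg n) (Nat.cast_nonneg n)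
      have hH0 : ∀ m, 0 ≤ H m := fun m => by unfold H; exact sum_nonneg fun _ _ => by positivity
      rcases le_or_gt n₀ A with hA | hA
      · refine (hC A N hA hlt.le).trans ?_
        have := le_abs_self C
        have := hH0 n₀
        linarith
      · rcases le_or_gt n₀ N with hN | hN
        · have e : ∑ n ∈ Ioc A N, g n / (n : ℂ) = ∑ n ∈ Ioc A n₀, g n / (n : ℂ) + ∑ n ∈ Ioc n₀ N, g n / (n : ℂ) := by
            rw [← sum_union]
            · rw [Finset.Ioc_union_Ioc_eq_Ioc hA.le hN]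
            · rw [Finset.disjoint_left]
              intro x hx hx2
              rw [mem_Ioc] at hx hx2
              omega
          rw [e]
          refine (norm_add_le _ _).trans ?_
          have h3 := hb A n₀ hA.le
          have h4 := hC n₀ N le_rfl hN
          have := le_abs_self C
          have := hH0 A
          have h5 := H_mono hA.le
          have h6 : ε / 2 * (H N - H n₀) ≤ ε / 2 * (H N - H A) := by
            apply mul_le_mul_of_nonneg_left _ (by positivity)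
            linarith
          linarith
        · refine (hb A N hlt.le).trans ?_
          have := H_mono hN.le
          have := hH0 A
          have := abs_nonneg C
          have : 0 ≤ ε / 2 * (H N - H A) := by positivity
          linarith
    have h7 : H n₀ + |C| ≤ ε / 2 * (H N - H A) := by
      rw [div_le_iff₀ hε] at h2
      linarith
    have h8 : ‖∑ n ∈ Ioc A N, g n / (n : ℂ)‖ ≤ ε * (H N - H A) := by linarith
    have hpos : 0 < H N - H A := by linarith
    constructor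
    · unfold wa
      simp only
      rw [S_sub _ hlt.le, abs_mul, abs_of_pos (by positivity : 0 < 1 / (H N - H A)), div_mul_eq_mul_div, one_mul, div_le_iff₀ hpos]
      refine le_trans ?_ h8
      refine le_trans (le_of_eq ?_) (Complex.abs_re_le_norm _)
      rw [Complex.re_sum]
      congr 1
      refine sum_congr rfl fun n _ => ?_
      rw [show ((n : ℂ)) = ((n : ℝ) : ℂ) by simp, Complex.div_ofReal_re]
      ring
    · unfold wa
      simp only
      rw [S_sub _ hlt.le, abs_mul, abs_of_pos (by positivity : 0 < 1 / (H N - H A)), div_mul_eq_mul_div, one_mul, div_le_iff₀ hpos]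
      refine le_trans ?_ h8
      refine le_trans (le_of_eq ?_) (Complex.abs_im_le_norm _)
      rw [Complex.im_sum]
      congr 1
      refine sum_congr rfl fun n _ => ?_
      rw [show ((n : ℂ)) = ((n : ℝ) : ℂ) by simp, Complex.div_ofReal_im]
      ring
  constructor
  · rw [Metric.tendsto_nhds]
    intro ε hε
    filter_upwards [main (ε / 2) (by positivity)] with x hx
    rw [dist_zero_right, Real.norm_eq_abs]
    linarith [hx.1]
  · rw [Metric.tendsto_nhds]
    intro ε hε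
    filter_upwards [main (ε / 2) (by positivity)] with x hx
    rw [dist_zero_right, Real.norm_eq_abs]
    linarith [hx.2]

lemma floor_div (m p : ℕ) : ⌊((m : ℕ) : ℝ) / (p : ℝ)⌋₊ = m / p := Nat.floor_div_eq_div m p

lemma psi_step {ψ : ℕ → ℝ} {Δ : ℕ → ℝ} (hΔ : ∀ n, 0 ≤ Δ n) (hψ : ∀ n, |ψ (n + 1) - ψ n| ≤ Δ n) (p m : ℕ) :
    |ψ ((m + 1) / p) - ψ (m / p)| ≤ Δ (m / p) := by
  rw [Nat.succ_div]
  split_ifs with hd
  · exact hψ _
  · rw [add_zero, sub_self, abs_zero]
    exact hΔ _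

/-- a slowly varying perturbation of the phase is admissible for all windows -/
lemma RP.wp {φ : ℝ → ℝ} {Δ : ℕ → ℝ} (h : RP φ Δ) {ψ : ℕ → ℝ} (hψ : ∀ n, |ψ (n + 1) - ψ n| ≤ Δ n)
    {F : Filter (ℕ × ℕ)} (hF : Tendsto (fun x : ℕ × ℕ => H x.2 - H x.1) F atTop) :
    WP F (fun x => φ x + ψ ⌊x⌋₊) := by
  refine ⟨fun p hp => ?_, fun P hP κ hκ => ?_⟩
  · obtain ⟨D, D', x₀, h1, _⟩ := h.sm {p} (fun q hq => by rw [mem_singleton] at hq; rw [hq]; exact hp) (fun _ => 1)
      ⟨p, mem_singleton_self p, one_ne_zero⟩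
    have h2 := h1.slow
    simp only [sum_singleton, Int.cast_one, one_mul] at h2
    have h3 : Tendsto (fun m : ℕ => ψ ((m + 1) / p) - ψ (m / p)) atTop (nhds 0) := by
      have h4 : Tendsto (fun m : ℕ => m / p) atTop atTop := Nat.tendsto_div_const_atTop hp.ne_zero
      refine squeeze_zero_norm (fun m => ?_) (h.tz.comp h4)
      rw [Real.norm_eq_abs]
      exact psi_step h.nn hψ p m
    have h5 := h2.add h3
    rw [add_zero] at h5
    refine h5.congr fun m => ?_
    rw [floor_div, floor_div]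
    ring
  · obtain ⟨D, D', x₀, h1, h2, h3⟩ := h.sm P hP κ hκ
    set w : ℕ → ℂ := fun n => ex (∑ p ∈ P, κ p * ψ (n / p)) with hw
    have hwn : ∀ n, ‖w n‖ ≤ 1 := fun n => (norm_ex _).le
    have hstep : ∀ n, ‖w (n + 1) - w n‖ ≤ ∑ p ∈ P, 2 * Real.pi * |(κ p : ℝ)| * Δ (n / p) := by
      intro n
      refine (ex_sub _ _).trans ?_
      rw [← sum_sub_distrib]
      refine (mul_le_mul_of_nonneg_left (abs_sum_le_sum_abs _ _) Real.two_pi_pos.le).trans ?_
      rw [mul_sum]
      refine sum_le_sum fun p _ => ?_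
      rw [← mul_sub, abs_mul, ← mul_assoc]
      exact mul_le_mul_of_nonneg_left (psi_step h.nn hψ p n) (by positivity)
    have hw2 : Tendsto (fun n : ℕ => ‖w (n + 1) - w n‖ * (((n : ℝ) + 1) / |D ((n : ℝ) + 1)|)) atTop (nhds 0) := by
      have h4 : Tendsto (fun n : ℕ => ∑ p ∈ P, 2 * Real.pi * |(κ p : ℝ)| * (Δ (n / p) * (((n : ℝ) + 1) / |D ((n : ℝ) + 1)|))) atTop
          (nhds (∑ p ∈ P, 2 * Real.pi * |(κ p : ℝ)| * 0)) :=
        tendsto_finsetSum _ fun p hp => (h2 p (hP p hp).one_lt.le).const_mul _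
      simp only [mul_zero, sum_const_zero] at h4
      refine squeeze_zero (fun n => by positivity) (fun n => ?_) h4
      refine (mul_le_mul_of_nonneg_right (hstep n) (by positivity)).trans (le_of_eq ?_)
      rw [sum_mul]
      refine sum_congr rfl fun p _ => ?_
      ring
    have key : ∀ ε : ℝ, 0 < ε → ∃ (n₀ : ℕ) (C : ℝ), ∀ A N : ℕ, n₀ ≤ A → A ≤ N →
        ‖∑ n ∈ Ioc A N, ex (∑ p ∈ P, κ p * (φ ((n : ℝ) / p) + ψ ⌊(n : ℝ) / p⌋₊)) / (n : ℂ)‖ ≤ ε * (H N - H A) + C := by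
      intro ε hε
      obtain ⟨n₀, hn₀⟩ := window_sum h1 hwn hw2 (ε / 10) (by positivity)
      obtain ⟨y, hy⟩ := eventually_atTop.1 h3
      obtain ⟨n₁, hn₁⟩ := exists_nat_ge y
      refine ⟨max n₀ n₁, 2, fun A N hA hN => ?_⟩
      have h5 := hn₀ A N ((le_max_left _ _).trans hA) hN
      have hA1 : (n₁ : ℝ) ≤ A := by exact_mod_cast (le_max_right _ _).trans hA
      have hN1 : (A : ℝ) ≤ N := by exact_mod_cast hN
      have h6 := hy ((A : ℝ) + 1) (by linarith)
      have h7 := hy ((N : ℝ) + 1) (by linarith)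
      have e : ∑ n ∈ Ioc A N, ex (∑ p ∈ P, κ p * (φ ((n : ℝ) / p) + ψ ⌊(n : ℝ) / p⌋₊)) / (n : ℂ) =
          ∑ n ∈ Ioc A N, w n * (ex (∑ p ∈ P, κ p * φ ((n : ℝ) / p)) / n) := by
        refine sum_congr rfl fun n _ => ?_
        rw [hw]
        simp only
        rw [← mul_div_assoc, ← ex_add]
        congr 2
        rw [← sum_add_distrib]
        refine sum_congr rfl fun p _ => ?_
        rw [floor_div]
        ring
      rw [e]
      refine h5.trans ?_
      have e2 : 10 * (ε / 10) * (H N - H A) = ε * (H N - H A) := by ring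
      rw [e2]
      linarith
    exact wa_zero_of hF (fun n => (norm_ex _).le) key

end

end Pool.Agent.Y326.Slw
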