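import Pool.Agent.Y326.Slf5
import Pool.Agent.Y326.Slw13

/-!
# Weyl sums of smooth functions which grow like a power
-/

set_option autoImplicit false

namespace Pool.Agent.Y326.Slf

open Finset Filter
open Pool.Agent.TH112.BL Pool.Agent.TH928.BLJ
open Pool.Agent.Y326.Slw

/-! ## van der Corput -/

lemma m_sq_le (μ : LM) {g : ℕ → ℝ} (hg : Bd g) : (μ.m g) ^ 2 ≤ μ.m (fun n => g n ^ 2) := by
  have hg2 : Bd (fun n => g n ^ 2) := by
    obtain ⟨C, hC⟩ := hg
    refine ⟨C ^ 2, fun n => ?_⟩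
    rw [abs_pow]
    exact pow_le_pow_left₀ (abs_nonneg _) (hC n) 2
  set a := μ.m g with ha
  have e : (fun n => (g n - a) ^ 2) = fun n => (g n ^ 2 + (-2 * a) * g n) + a ^ 2 * 1 := by
    funext n
    ring
  have h1 := μ.nonneg (fun n => (g n - a) ^ 2) (by
    rw [e]
    exact (hg2.add (hg.cmul _)).add (Bd.const _)) (fun n => sq_nonneg _)
  rw [e, μ.add _ _ (hg2.add (hg.cmul _)) (Bd.const _), μ.add _ _ hg2 (hg.cmul _), μ.smul _ _ hg,
    μ.smul _ _ (Bd.const 1), μ.one, ← ha] at h1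
  nlinarith

/-- van der Corput's inequality for means -/
lemma vdc (μ : LM) (F : ℕ → ℝ) (hd : ∀ h : ℕ, 1 ≤ h → ∀ c : ℝ, μ.m (fun u => (ex (F (u + h) - F u + c)).re) = 0) (c : ℝ) :
    μ.m (fun u => (ex (F u + c)).re) = 0 := by
  classical
  set g : ℕ → ℂ := fun u => ex (F u + c) with hg
  have b1 : Bd (fun u => (g u).re) := ⟨1, fun u => (Complex.abs_re_le_norm _).trans (norm_ex _).le⟩
  set s := μ.m (fun u => (g u).re) with hs
  have bij : ∀ i j : ℕ, Bd (fun u => (g (u + i) * (starRingEnd ℂ) (g (u + j))).re) := fun i j =>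
    ⟨1, fun u => (Complex.abs_re_le_norm _).trans (by
      rw [norm_mul, RCLike.norm_conj, hg]
      simp only [norm_ex, mul_one, le_refl])⟩
  have hgg : ∀ x y : ℝ, ex x * (starRingEnd ℂ) (ex y) = ex (x - y) := by
    intro x y
    have : (starRingEnd ℂ) (ex y) = ex (-y) := by
      unfold ex
      rw [← Complex.exp_conj]
      congr 1
      simp only [map_mul, Complex.conj_ofReal, Complex.conj_I, map_ofNat]
      push_cast
      ring
    rw [this, ← ex_add, sub_eq_add_neg]
  have key : ∀ i j : ℕ, μ.m (fun u => (g (u + i) * (starRingEnd ℂ) (g (u + j))).re) = if i = j then 1 else 0 := by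
    have k1 : ∀ i j : ℕ, j < i → μ.m (fun u => (g (u + i) * (starRingEnd ℂ) (g (u + j))).re) = 0 := by
      intro i j hij
      have h1 := hd (i - j) (by omega) 0
      have b2 : Bd (fun u => (ex (F (u + (i - j)) - F u + 0)).re) :=
        ⟨1, fun u => (Complex.abs_re_le_norm _).trans (norm_ex _).le⟩
      rw [← Pool.Agent.TH928.BLJ.m_shift μ _ b2 j] at h1
      rw [← h1]
      congr 1
      funext u
      rw [hg]
      simp only
      rw [hgg]
      have e1 : u + j + (i - j) = u + i := by omega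
      rw [e1]
      congr 2
      ring
    intro i j
    split_ifs with hij
    · subst hij
      have e : (fun u => (g (u + i) * (starRingEnd ℂ) (g (u + i))).re) = fun _ => (1 : ℝ) := by
        funext u
        rw [hg]
        simp only
        rw [hgg, sub_self]
        unfold ex
        simp
      rw [e, μ.one]
    · rcases Nat.lt_or_gt_of_ne hij with h | h
      · rw [← k1 j i h]
        congr 1
        funext u
        rw [← Complex.conj_re, map_mul, Complex.conj_conj, mul_comm]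
      · exact k1 i j h
  have main : ∀ N : ℕ, 1 ≤ N → (N * s) ^ 2 ≤ N := by
    intro N hN
    have h1 : μ.m (fun u => ∑ i ∈ range N, (g (u + i)).re) = N * s := by
      rw [μ.sum (range N) fun i _ => b1.comp fun u => u + i]
      have : ∀ i ∈ range N, μ.m (fun u => (g (u + i)).re) = s := fun i _ => Pool.Agent.TH928.BLJ.m_shift μ _ b1 i
      rw [sum_congr rfl this, sum_const, card_range, nsmul_eq_mul]
    have bS : Bd (fun u => ∑ i ∈ range N, (g (u + i)).re) := Bd.sum (range N) fun i _ => b1.comp fun u => u + i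
    have h2 := m_sq_le μ bS
    rw [h1] at h2
    refine h2.trans ?_
    have bD : Bd (fun u => ∑ i ∈ range N, ∑ j ∈ range N, (g (u + i) * (starRingEnd ℂ) (g (u + j))).re) :=
      Bd.sum (range N) fun i _ => Bd.sum (range N) fun j _ => bij i j
    have h3 : μ.m (fun u => ∑ i ∈ range N, ∑ j ∈ range N, (g (u + i) * (starRingEnd ℂ) (g (u + j))).re) = N := by
      rw [μ.sum (range N) fun i _ => Bd.sum (range N) fun j _ => bij i j]
      have : ∀ i ∈ range N, μ.m (fun u => ∑ j ∈ range N, (g (u + i) * (starRingEnd ℂ) (g (u + j))).re) = 1 := by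
        intro i hi
        rw [μ.sum (range N) fun j _ => bij i j]
        simp only [key]
        rw [sum_ite_eq]
        rw [if_pos hi]
      rw [sum_congr rfl this, sum_const, card_range, nsmul_eq_mul, mul_one]
    rw [← h3]
    have bS2 : Bd (fun u => (∑ i ∈ range N, (g (u + i)).re) ^ 2) := by
      obtain ⟨C, hC⟩ := bS
      refine ⟨C ^ 2, fun n => ?_⟩
      rw [abs_pow]
      exact pow_le_pow_left₀ (abs_nonneg _) (hC n) 2
    apply μ.mono bS2 bD
    intro u
    have e1 : ∑ i ∈ range N, (g (u + i)).re = (∑ i ∈ range N, g (u + i)).re := (Complex.re_sum _ _).symm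
    have e2 : ∑ i ∈ range N, ∑ j ∈ range N, (g (u + i) * (starRingEnd ℂ) (g (u + j))).re =
        ‖∑ i ∈ range N, g (u + i)‖ ^ 2 := by
      have e3 : ((∑ i ∈ range N, g (u + i)) * (starRingEnd ℂ) (∑ i ∈ range N, g (u + i))).re =
          ‖∑ i ∈ range N, g (u + i)‖ ^ 2 := by
        rw [Complex.mul_conj, Complex.ofReal_re, Complex.normSq_eq_norm_sq]
      rw [← e3, map_sum, sum_mul_sum, Complex.re_sum]
      refine sum_congr rfl fun i _ => ?_
      rw [Complex.re_sum]
    rw [e1, e2, ← sq_abs]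
    exact pow_le_pow_left₀ (abs_nonneg _) (Complex.abs_re_le_norm _) 2
  by_contra hne
  have h1 : 0 < s ^ 2 := by positivity
  obtain ⟨N, hN⟩ := exists_nat_gt (1 / s ^ 2)
  have hN0 : (0 : ℝ) < N := lt_trans (by positivity) hN
  have hN1 : 1 ≤ N := by exact_mod_cast hN0
  have h2 := main N hN1
  rw [div_lt_iff₀ h1] at hN
  rw [mul_pow] at h2
  have h3 : (N : ℝ) ^ 2 * s ^ 2 = N * (N * s ^ 2) := by ring
  rw [h3] at h2
  nlinarith

/-! ## smooth functions which grow like a power -/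

/-- falling factorial -/
def ff (γ : ℝ) (d : ℕ) : ℝ := ∏ i ∈ range d, (γ - i)

lemma ff_zero (γ : ℝ) : ff γ 0 = 1 := by simp [ff]

lemma ff_succ (γ : ℝ) (d : ℕ) : ff γ (d + 1) = γ * ff (γ - 1) d := by
  unfold ff
  rw [prod_range_succ']
  rw [mul_comm]
  congr 1
  · simp
  · refine prod_congr rfl fun i _ => ?_
    push_cast
    ring

lemma ff_ne {γ : ℝ} {n : ℕ} (h1 : (n : ℝ) < γ) (h2 : γ < n + 1) (d : ℕ) : ff γ d ≠ 0 := by
  unfold ff
  apply prod_ne_zero_iff.2
  intro i _ h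
  have h3 : γ = i := by linarith
  rw [h3] at h1 h2
  have h4 : n < i := by exact_mod_cast h1
  have h5 : i < n + 1 := by exact_mod_cast h2
  omega

/-- the derivatives of `F 0` are `F 1`, `F 2`, ..., and they are asymptotic to those of `β x ^ γ` -/
structure AS (F : ℕ → ℝ → ℝ) (γ β : ℝ) : Prop where
  der : ∃ x₀ : ℝ, ∀ d x, x₀ ≤ x → HasDerivAt (F d) (F (d + 1) x) x
  asy : ∀ d : ℕ, Tendsto (fun x => F d x / x ^ (γ - d)) atTop (nhds (β * ff γ d))

lemma AS.affine {F : ℕ → ℝ → ℝ} {γ β : ℝ} (h : AS F γ β) {l : ℝ} (hl : 0 < l) (s : ℝ) :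
    AS (fun d x => l ^ d * F d (l * x + s)) γ (β * l ^ γ) := by
  obtain ⟨x₀, hx₀⟩ := h.der
  constructor
  · refine ⟨(x₀ - s) / l, fun d x hx => ?_⟩
    have h1 : x₀ ≤ l * x + s := by
      rw [div_le_iff₀ hl] at hx
      linarith
    have h2 : HasDerivAt (fun x : ℝ => l * x + s) l x := by
      have := ((hasDerivAt_id x).const_mul l).add_const s
      simpa using this
    have h3 := ((hx₀ d _ h1).comp x h2).const_mul (l ^ d)
    refine h3.congr_deriv ?_
    rw [pow_succ]
    ring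
  · intro d
    have hy : Tendsto (fun x : ℝ => l * x + s) atTop atTop :=
      tendsto_atTop_add_const_right _ s (tendsto_id.const_mul_atTop hl)
    have h1 := (h.asy d).comp hy
    have h2 : Tendsto (fun x : ℝ => (l * x + s) / x) atTop (nhds l) := by
      have h3 : Tendsto (fun x : ℝ => l + s * x⁻¹) atTop (nhds (l + s * 0)) :=
        (tendsto_inv_atTop_zero.const_mul s).const_add l
      rw [mul_zero, add_zero] at h3
      refine h3.congr' ?_
      filter_upwards [eventually_gt_atTop 0] with x hx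
      field_simp
    have h3 : Tendsto (fun x : ℝ => ((l * x + s) / x) ^ (γ - d)) atTop (nhds (l ^ (γ - d))) :=
      h2.rpow_const (Or.inl hl.ne')
    have h4 := (h1.mul h3).const_mul (l ^ d)
    have e : l ^ d * (β * ff γ d * l ^ (γ - d)) = β * l ^ γ * ff γ d := by
      rw [Real.rpow_sub hl, Real.rpow_natCast]
      field_simp
    rw [e] at h4
    refine h4.congr' ?_
    filter_upwards [eventually_gt_atTop 0, hy.eventually_gt_atTop 0] with x hx hx2
    simp only [Function.comp]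
    rw [Real.div_rpow hx2.le hx.le]
    have h5 : (l * x + s) ^ (γ - d) ≠ 0 := (Real.rpow_pos_of_pos hx2 _).ne'
    field_simp

lemma AS.diff {F : ℕ → ℝ → ℝ} {γ β : ℝ} (h : AS F γ β) {t : ℝ} (ht : 0 < t) :
    AS (fun d x => F d (x + t) - F d x) (γ - 1) (β * γ * t) := by
  obtain ⟨x₀, hx₀⟩ := h.der
  constructor
  · refine ⟨x₀, fun d x hx => ?_⟩
    have h2 : HasDerivAt (fun x : ℝ => x + t) 1 x := (hasDerivAt_id x).add_const t
    have h3 := (hx₀ d (x + t) (by linarith)).comp x h2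
    rw [mul_one] at h3
    exact h3.sub (hx₀ d x hx)
  · intro d
    have hmvt : ∀ x : ℝ, ∃ ξ : ℝ, x ≤ ξ ∧ ξ ≤ x + t ∧ (x₀ ≤ x → F d (x + t) - F d x = t * F (d + 1) ξ) := by
      intro x
      by_cases hx : x₀ ≤ x
      · obtain ⟨ξ, hξ, e⟩ := exists_hasDerivAt_eq_slope (F d) (F (d + 1)) (by linarith : x < x + t)
          (fun y hy => (hx₀ d y (hx.trans hy.1)).continuousAt.continuousWithinAt)
          (fun y hy => hx₀ d y (hx.trans hy.1.le))
        refine ⟨ξ, hξ.1.le, hξ.2.le, fun _ => ?_⟩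
        rw [e]
        have : x + t - x = t := by ring
        rw [this]
        field_simp
      · exact ⟨x, le_rfl, by linarith, fun h => absurd h hx⟩
    choose ξ hξ1 hξ2 hξ3 using hmvt
    have hξ : Tendsto ξ atTop atTop := tendsto_atTop_mono hξ1 tendsto_id
    have h1 := (h.asy (d + 1)).comp hξ
    have h2 : Tendsto (fun x : ℝ => ξ x / x) atTop (nhds 1) := by
      have h3 : Tendsto (fun x : ℝ => 1 + t * x⁻¹) atTop (nhds (1 + t * 0)) :=
        (tendsto_inv_atTop_zero.const_mul t).const_add 1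
      rw [mul_zero, add_zero] at h3
      refine tendsto_of_tendsto_of_tendsto_of_le_of_le' tendsto_const_nhds h3 ?_ ?_
      · filter_upwards [eventually_gt_atTop 0] with x hx
        rw [le_div_iff₀ hx, one_mul]
        exact hξ1 x
      · filter_upwards [eventually_gt_atTop 0] with x hx
        rw [div_le_iff₀ hx]
        have : (1 + t * x⁻¹) * x = x + t := by field_simp
        rw [this]
        exact hξ2 x
    have h3 : Tendsto (fun x : ℝ => (ξ x / x) ^ (γ - 1 - d)) atTop (nhds (1 ^ (γ - 1 - d))) :=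
      h2.rpow_const (Or.inl one_ne_zero)
    rw [Real.one_rpow] at h3
    have h4 := (h1.mul h3).const_mul t
    have e : t * (β * ff γ (d + 1) * 1) = β * γ * t * ff (γ - 1) d := by
      rw [ff_succ]
      ring
    rw [e] at h4
    refine h4.congr' ?_
    filter_upwards [eventually_gt_atTop 0, eventually_ge_atTop x₀] with x hx hx2
    simp only [Function.comp]
    have hξ0 : 0 < ξ x := lt_of_lt_of_le hx (hξ1 x)
    have e1 : γ - ((d + 1 : ℕ) : ℝ) = γ - 1 - d := by
      push_cast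
      ring
    rw [hξ3 x hx2, Real.div_rpow hξ0.le hx.le, e1]
    have h5 : (ξ x) ^ (γ - 1 - d) ≠ 0 := (Real.rpow_pos_of_pos hξ0 _).ne'
    field_simp

lemma AS.lower {F : ℕ → ℝ → ℝ} {γ β γ' : ℝ} (h : AS F γ β) (hγ : γ < γ') : AS F γ' 0 := by
  refine ⟨h.der, fun d => ?_⟩
  have h1 : Tendsto (fun x : ℝ => x ^ (-(γ' - γ))) atTop (nhds 0) := tendsto_rpow_neg_atTop (by linarith)
  have h2 := (h.asy d).mul h1
  rw [mul_zero] at h2
  rw [zero_mul]
  refine h2.congr' ?_
  filter_upwards [eventually_gt_atTop 0] with x hx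
  rw [show γ' - (d : ℝ) = (γ - d) + (γ' - γ) by ring, Real.rpow_add hx, Real.rpow_neg hx.le]
  have h3 := (Real.rpow_pos_of_pos hx (γ - d)).ne'
  have h4 := (Real.rpow_pos_of_pos hx (γ' - γ)).ne'
  field_simp

lemma AS.zero (γ : ℝ) : AS (fun _ _ => 0) γ 0 :=
  ⟨⟨0, fun _ _ _ => hasDerivAt_const _ _⟩, fun d => by simp⟩

lemma AS.smul {F : ℕ → ℝ → ℝ} {γ β : ℝ} (h : AS F γ β) (c : ℝ) : AS (fun d x => c * F d x) γ (c * β) := by
  obtain ⟨x₀, hx₀⟩ := h.der
  refine ⟨⟨x₀, fun d x hx => (hx₀ d x hx).const_mul c⟩, fun d => ?_⟩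
  have h1 := (h.asy d).const_mul c
  rw [← mul_assoc] at h1
  refine h1.congr fun x => ?_
  ring

lemma AS.add {F G : ℕ → ℝ → ℝ} {γ β β' : ℝ} (h : AS F γ β) (h' : AS G γ β') :
    AS (fun d x => F d x + G d x) γ (β + β') := by
  obtain ⟨x₀, hx₀⟩ := h.der
  obtain ⟨x₁, hx₁⟩ := h'.der
  refine ⟨⟨max x₀ x₁, fun d x hx => (hx₀ d x ((le_max_left _ _).trans hx)).add (hx₁ d x ((le_max_right _ _).trans hx))⟩,
    fun d => ?_⟩
  have h1 := (h.asy d).add (h'.asy d)
  rw [← add_mul] at h1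
  refine h1.congr fun x => ?_
  ring

lemma AS.sum {ι : Type*} (s : Finset ι) {F : ι → ℕ → ℝ → ℝ} {γ : ℝ} {β : ι → ℝ} (h : ∀ i ∈ s, AS (F i) γ (β i)) :
    AS (fun d x => ∑ i ∈ s, F i d x) γ (∑ i ∈ s, β i) := by
  classical
  induction s using Finset.induction_on with
  | empty => simpa using AS.zero γ
  | insert i s hi ih =>
    have h1 := (h i (mem_insert_self i s)).add (ih fun j hj => h j (mem_insert_of_mem hj))
    simpa only [sum_insert hi] using h1

lemma AS.add_const {F : ℕ → ℝ → ℝ} {γ β : ℝ} (h : AS F γ β) (hγ : 0 < γ) (c : ℝ) :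
    AS (fun d x => F d x + (if d = 0 then c else 0)) γ β := by
  obtain ⟨x₀, hx₀⟩ := h.der
  refine ⟨⟨x₀, fun d x hx => ?_⟩, fun d => ?_⟩
  · have h1 := (hx₀ d x hx).add_const (if d = 0 then c else 0)
    refine h1.congr_deriv ?_
    simp
  · by_cases hd : d = 0
    · subst hd
      have h1 : Tendsto (fun x : ℝ => c * x ^ (-γ)) atTop (nhds (c * 0)) := (tendsto_rpow_neg_atTop hγ).const_mul c
      rw [mul_zero] at h1
      have h2 := (h.asy 0).add h1
      rw [add_zero] at h2
      refine h2.congr' ?_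
      filter_upwards [eventually_gt_atTop 0] with x hx
      rw [Real.rpow_neg hx.le]
      simp only [Nat.cast_zero, sub_zero, if_true]
      ring
    · simp only [if_neg hd, add_zero]
      exact h.asy d

/-- smooth phases of small growth -/
lemma AS.sm {F : ℕ → ℝ → ℝ} {γ β : ℝ} (h : AS F γ β) (h0 : 0 < γ) (h1 : γ < 1) (hβ : β ≠ 0) :
    ∃ x₀, SM (F 0) (fun x => x * F 1 x) (fun x => x * (F 1 x + x * F 2 x)) x₀ := by
  obtain ⟨x₁, hx₁⟩ := h.der
  have a1 : Tendsto (fun x : ℝ => x * F 1 x / x ^ γ) atTop (nhds (β * γ)) := by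
    have h2 := h.asy 1
    rw [ff_succ, ff_zero, mul_one] at h2
    refine h2.congr' ?_
    filter_upwards [eventually_gt_atTop 0] with x hx
    rw [Nat.cast_one, Real.rpow_sub_one hx.ne']
    have := (Real.rpow_pos_of_pos hx γ).ne'
    field_simp
  have a2 : Tendsto (fun x : ℝ => x * (F 1 x + x * F 2 x) / x ^ γ) atTop (nhds (β * γ + β * (γ * (γ - 1)))) := by
    have h2 := h.asy 2
    rw [ff_succ, ff_succ, ff_zero, mul_one] at h2
    have h3 : Tendsto (fun x : ℝ => x ^ 2 * F 2 x / x ^ γ) atTop (nhds (β * (γ * (γ - 1)))) := by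
      refine h2.congr' ?_
      filter_upwards [eventually_gt_atTop 0] with x hx
      have e : x ^ (γ - ((2 : ℕ) : ℝ)) = x ^ γ / x ^ 2 := by
        rw [Real.rpow_sub hx, Real.rpow_natCast]
      rw [e]
      have := (Real.rpow_pos_of_pos hx γ).ne'
      field_simp
    refine (a1.add h3).congr fun x => ?_
    ring
  have hne : β * γ ≠ 0 := mul_ne_zero hβ h0.ne'
  obtain ⟨x₂, hx₂⟩ := eventually_atTop.1 ((a1.eventually_ne hne).and (eventually_gt_atTop (0 : ℝ)))
  refine ⟨max x₁ (max x₂ 1), ?_, ?_, ?_, ?_, ?_⟩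
  · intro x hx
    have hx1 : x₁ ≤ x := (le_max_left _ _).trans hx
    have hx0 : 0 < x := by have := ((le_max_right x₂ 1).trans (le_max_right x₁ _)).trans hx; linarith
    refine (hx₁ 0 x hx1).congr_deriv ?_
    field_simp
  · intro x hx
    have hx1 : x₁ ≤ x := (le_max_left _ _).trans hx
    have hx0 : 0 < x := by have := ((le_max_right x₂ 1).trans (le_max_right x₁ _)).trans hx; linarith
    have h2 := (hasDerivAt_id x).mul (hx₁ 1 x hx1)
    refine h2.congr_deriv ?_
    simp only [id]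
    field_simp
  · intro x hx
    have hx2 := (hx₂ x (((le_max_left _ _).trans (le_max_right _ _)).trans hx)).1
    intro h0
    apply hx2
    show x * F 1 x / x ^ γ = 0
    have h0' : x * F 1 x = 0 := h0
    rw [h0', zero_div]
  · have h3 : Tendsto (fun x : ℝ => x ^ (-(1 - γ))) atTop (nhds 0) := tendsto_rpow_neg_atTop (by linarith)
    have h4 := a1.mul h3
    rw [mul_zero] at h4
    refine h4.congr' ?_
    filter_upwards [eventually_gt_atTop 0] with x hx
    rw [show -(1 - γ) = γ - 1 by ring, Real.rpow_sub_one hx.ne']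
    have := (Real.rpow_pos_of_pos hx γ).ne'
    field_simp
  · have h3 : Tendsto (fun x : ℝ => x ^ (-γ)) atTop (nhds 0) := tendsto_rpow_neg_atTop h0
    have h4 := (a2.div (a1.pow 2) (pow_ne_zero 2 hne)).mul h3
    rw [mul_zero] at h4
    refine h4.congr' ?_
    filter_upwards [eventually_gt_atTop 0, a1.eventually_ne hne] with x hx hx2
    have h5 := (Real.rpow_pos_of_pos hx γ).ne'
    have h6 : x * F 1 x ≠ 0 := by
      intro h7
      apply hx2
      rw [h7, zero_div]
    rw [Real.rpow_neg hx.le]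
    simp only [Pi.div_apply]
    field_simp

/-- means attached to a family of windows -/
def LMF (μ : LM) (Fl : Filter (ℕ × ℕ)) : Prop := ∀ g : ℕ → ℝ, ∀ L : ℝ, Tendsto (wa g) Fl (nhds L) → μ.m g = L

open Pool.Agent.TH833.BL (S H)

lemma sm_wz {Φ D D' : ℝ → ℝ} {x₀ : ℝ} (h : SM Φ D D' x₀) (hD : ∀ᶠ x in atTop, |1 / D x| ≤ 1) {Fl : Filter (ℕ × ℕ)}
    (hF : Tendsto (fun x : ℕ × ℕ => H x.2 - H x.1) Fl atTop) :
    Tendsto (wa fun n => (ex (Φ n)).re) Fl (nhds 0) := by
  have hw2 : Tendsto (fun n : ℕ => ‖(1 : ℂ) - 1‖ * (((n : ℝ) + 1) / |D ((n : ℝ) + 1)|)) atTop (nhds 0) := by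
    simp
  refine (wa_zero_of hF (g := fun n => ex (Φ n)) (fun n => (norm_ex _).le) fun ε hε => ?_).1
  obtain ⟨n₀, hn₀⟩ := window_sum h (w := fun _ => 1) (fun _ => by simp) hw2 (ε / 10) (by positivity)
  obtain ⟨y, hy⟩ := eventually_atTop.1 hD
  obtain ⟨n₁, hn₁⟩ := exists_nat_ge y
  refine ⟨max n₀ n₁, 2, fun A N hA hN => ?_⟩
  have h5 := hn₀ A N ((le_max_left _ _).trans hA) hN
  have hA1 : (n₁ : ℝ) ≤ A := by exact_mod_cast (le_max_right _ _).trans hA
  have hN1 : (A : ℝ) ≤ N := by exact_mod_cast hN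
  have h6 := hy ((A : ℝ) + 1) (by linarith)
  have h7 := hy ((N : ℝ) + 1) (by linarith)
  have e : ∑ n ∈ Ioc A N, ex (Φ n) / (n : ℂ) = ∑ n ∈ Ioc A N, (1 : ℂ) * (ex (Φ n) / n) :=
    sum_congr rfl fun n _ => by rw [one_mul]
  rw [e]
  refine h5.trans ?_
  have e2 : 10 * (ε / 10) * (H N - H A) = ε * (H N - H A) := by ring
  rw [e2]
  linarith

/-- Weyl sums -/
theorem as_weyl {μ : LM} {Fl : Filter (ℕ × ℕ)} (hF : Tendsto (fun x : ℕ × ℕ => H x.2 - H x.1) Fl atTop)
    (hμ : LMF μ Fl) : ∀ (n : ℕ) (F : ℕ → ℝ → ℝ) (γ β : ℝ), (n : ℝ) < γ → γ < n + 1 → β ≠ 0 →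
    AS F γ β → ∀ c : ℝ, μ.m (fun u => (ex (F 0 u + c)).re) = 0 := by
  intro n
  induction n with
  | zero =>
    intro F γ β h1 h2 hβ h c
    have h1' : 0 < γ := by exact_mod_cast h1
    obtain ⟨x₀, hsm⟩ := (h.add_const h1' c).sm h1' (by simpa using h2) hβ
    have hD : ∀ᶠ x : ℝ in atTop, |1 / (x * (F 1 x + (if (1 : ℕ) = 0 then c else 0)))| ≤ 1 := by
      have a1 : Tendsto (fun x : ℝ => x * F 1 x / x ^ γ) atTop (nhds (β * γ)) := by
        have h2 := h.asy 1
        rw [ff_succ, ff_zero, mul_one] at h2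
        refine h2.congr' ?_
        filter_upwards [eventually_gt_atTop 0] with x hx
        rw [Nat.cast_one, Real.rpow_sub_one hx.ne']
        have := (Real.rpow_pos_of_pos hx γ).ne'
        field_simp
      have hne : β * γ ≠ 0 := mul_ne_zero hβ h1'.ne'
      have a2 : Tendsto (fun x : ℝ => (x * F 1 x / x ^ γ)⁻¹ * x ^ (-γ)) atTop (nhds 0) := by
        have := (a1.inv₀ hne).mul (tendsto_rpow_neg_atTop h1')
        rwa [mul_zero] at this
      filter_upwards [a2.eventually (Metric.ball_mem_nhds 0 one_pos), eventually_gt_atTop 0] with x hx hx0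
      rw [dist_zero_right, Real.norm_eq_abs] at hx
      have e : (x * F 1 x / x ^ γ)⁻¹ * x ^ (-γ) = 1 / (x * (F 1 x + (if (1 : ℕ) = 0 then c else 0))) := by
        rw [if_neg one_ne_zero, add_zero, Real.rpow_neg hx0.le]
        have := (Real.rpow_pos_of_pos hx0 γ).ne'
        rw [inv_div]
        field_simp
      rw [← e]
      exact hx.le
    have h4 := hμ _ _ (sm_wz hsm hD hF)
    simpa using h4
  | succ n ih =>
    intro F γ β h1 h2 hβ h c
    have hγ : γ ≠ 0 := by
      push_cast at h1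
      have : (0 : ℝ) ≤ n := Nat.cast_nonneg n
      intro h0
      linarith
    refine vdc μ (fun u => F 0 u) (fun t ht c => ?_) c
    have ht0 : (0 : ℝ) < t := by exact_mod_cast ht
    have h3 := ih (fun d x => F d (x + t) - F d x) (γ - 1) (β * γ * t) (by push_cast at h1; linarith)
      (by push_cast at h2; linarith) (mul_ne_zero (mul_ne_zero hβ hγ) ht0.ne') (h.diff ht0) c
    rw [← h3]
    congr 1
    funext u
    push_cast
    rfl

/-! ## slowly varying perturbations -/

/-- the increments tend to zero -/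
def Slo (g : ℕ → ℝ) : Prop := Tendsto (fun m => g (m + 1) - g m) atTop (nhds 0)

lemma Slo.step {g : ℕ → ℝ} (h : Slo g) (t : ℕ) : Tendsto (fun m => g (m + t) - g m) atTop (nhds 0) := by
  induction t with
  | zero => simp
  | succ t ih =>
    have h1 := (h.comp (tendsto_add_atTop_nat t)).add ih
    rw [add_zero] at h1
    refine h1.congr fun m => ?_
    simp only [Function.comp]
    rw [show m + (t + 1) = m + t + 1 by ring]
    ring

lemma Slo.lin {g : ℕ → ℝ} (h : Slo g) (q r : ℕ) (hq : 1 ≤ q) : Slo (fun u => g (q * u + r)) := by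
  have h1 : Tendsto (fun u : ℕ => q * u + r) atTop atTop :=
    tendsto_atTop_mono (fun u => show u ≤ q * u + r by nlinarith) tendsto_id
  have h2 := (h.step q).comp h1
  refine h2.congr fun u => ?_
  simp only [Function.comp]
  rw [show q * (u + 1) + r = q * u + r + q by ring]

lemma Slo.cmul {g : ℕ → ℝ} (h : Slo g) (c : ℝ) : Slo (fun u => c * g u) := by
  have h1 := h.const_mul c
  rw [mul_zero] at h1
  refine h1.congr fun u => ?_
  ring

lemma Slo.sum {ι : Type*} (s : Finset ι) {g : ι → ℕ → ℝ} (h : ∀ i ∈ s, Slo (g i)) : Slo (fun u => ∑ i ∈ s, g i u) := by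
  have h1 : Tendsto (fun m => ∑ i ∈ s, (g i (m + 1) - g i m)) atTop (nhds (∑ _i ∈ s, (0 : ℝ))) :=
    tendsto_finsetSum _ fun i hi => h i hi
  rw [sum_const_zero] at h1
  refine h1.congr fun u => ?_
  rw [sum_sub_distrib]

lemma slo_null {g : ℕ → ℝ} (h : Tendsto g atTop (nhds 0)) : Slo g := by
  have h1 := ((tendsto_add_atTop_iff_nat 1).2 h).sub h
  rwa [sub_zero] at h1

/-- perturbations which tend to zero do not matter -/
lemma m_o1 (μ : LM) (X : ℕ → ℝ) {Y : ℕ → ℝ} (hY : Tendsto Y atTop (nhds 0)) :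
    μ.m (fun u => (ex (X u + Y u)).re) = μ.m (fun u => (ex (X u)).re) := by
  have b1 : Bd (fun u => (ex (X u + Y u)).re) := ⟨1, fun u => (Complex.abs_re_le_norm _).trans (norm_ex _).le⟩
  have b2 : Bd (fun u => (ex (X u)).re) := ⟨1, fun u => (Complex.abs_re_le_norm _).trans (norm_ex _).le⟩
  have key : ∀ ε : ℝ, 0 < ε → |μ.m (fun u => (ex (X u + Y u)).re) - μ.m (fun u => (ex (X u)).re)| ≤ 7 * ε := by
    intro ε hε
    rw [← μ.sub b1 b2]
    have b3 : Bd (fun u => (ex (X u + Y u)).re - (ex (X u)).re) := by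
      have := b1.add (b2.cmul (-1))
      simpa [sub_eq_add_neg] using this
    obtain ⟨M, hM⟩ := eventually_atTop.1 (hY.eventually (Metric.ball_mem_nhds 0 hε))
    refine abs_m_le_large μ b3 _ M fun n hn => ?_
    have h1 := hM n hn
    rw [dist_zero_right, Real.norm_eq_abs] at h1
    rw [← Complex.sub_re]
    refine (Complex.abs_re_le_norm _).trans ((ex_sub _ _).trans ?_)
    rw [add_sub_cancel_left]
    exact mul_le_mul (by linarith [Real.pi_lt_d2]) h1.le (abs_nonneg _) (by norm_num)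
  by_contra hne
  have h1 : 0 < |μ.m (fun u => (ex (X u + Y u)).re) - μ.m (fun u => (ex (X u)).re)| := abs_pos.2 (sub_ne_zero.2 hne)
  have h2 := key (|μ.m (fun u => (ex (X u + Y u)).re) - μ.m (fun u => (ex (X u)).re)| / 14) (by positivity)
  linarith

/-- Weyl sums with a slowly varying perturbation -/
theorem as_weyl_slo {μ : LM} {Fl : Filter (ℕ × ℕ)} (hF : Tendsto (fun x : ℕ × ℕ => H x.2 - H x.1) Fl atTop)
    (hμ : LMF μ Fl) (n : ℕ) (F : ℕ → ℝ → ℝ) (γ β : ℝ) (h1 : ((n + 1 : ℕ) : ℝ) < γ) (h2 : γ < n + 2) (hβ : β ≠ 0)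
    (h : AS F γ β) {Y : ℕ → ℝ} (hY : Slo Y) (c : ℝ) : μ.m (fun u => (ex (F 0 u + Y u + c)).re) = 0 := by
  have hγ : γ ≠ 0 := by
    push_cast at h1
    have : (0 : ℝ) ≤ n := Nat.cast_nonneg n
    intro h0
    linarith
  refine vdc μ (fun u => F 0 u + Y u) (fun t ht c => ?_) c
  have ht0 : (0 : ℝ) < t := by exact_mod_cast ht
  have h3 := as_weyl hF hμ n (fun d x => F d (x + t) - F d x) (γ - 1) (β * γ * t) (by push_cast at h1; linarith)
    (by linarith) (mul_ne_zero (mul_ne_zero hβ hγ) ht0.ne') (h.diff ht0) c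
  rw [← m_o1 μ _ (hY.step t)] at h3
  rw [← h3]
  congr 1
  funext u
  congr 2
  push_cast
  ring

/-! ## the phases -/

/-- the difference operator -/
def DF (F : ℕ → ℝ → ℝ) : ℕ → ℝ → ℝ := fun d x => F d (x + 1) - F d x

lemma DF_fwd (j : ℕ) : ∀ F : ℕ → ℝ → ℝ, (fwdDiff 1)^[j] (fun m : ℕ => F 0 m) = fun m : ℕ => (DF^[j] F) 0 m := by
  induction j with
  | zero => intro F; rfl
  | succ j ih =>
    intro F
    rw [Function.iterate_succ_apply, Function.iterate_succ_apply, ← ih]
    congr 1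
    funext m
    unfold fwdDiff DF
    push_cast
    rfl

lemma AS.iter (j : ℕ) : ∀ {F : ℕ → ℝ → ℝ} {γ : ℝ} {β : ℝ}, AS F γ β → AS (DF^[j] F) (γ - j) (β * ff γ j) := by
  induction j with
  | zero =>
    intro F γ β h
    simpa [ff_zero] using h
  | succ j ih =>
    intro F γ β h
    rw [Function.iterate_succ_apply, ff_succ]
    have h1 := h.diff zero_lt_one
    have h2 := ih h1
    have e : γ - 1 - (j : ℝ) = γ - ((j + 1 : ℕ) : ℝ) := by push_cast; ring
    have e2 : β * γ * 1 * ff (γ - 1) j = β * (γ * ff (γ - 1) j) := by ring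
    rw [e, e2] at h2
    exact h2

lemma slo_div {y : ℕ → ℝ} (hy : Slo y) (p s : ℕ) (hp : 1 ≤ p) : Slo (fun m => y (m / p + s)) := by
  have h1 : Tendsto (fun m : ℕ => m / p + s) atTop atTop :=
    tendsto_atTop_mono (fun m => Nat.le_add_right _ _) (Nat.tendsto_div_const_atTop (by omega))
  have h2 := hy.comp h1
  have h3 : Tendsto (fun m : ℕ => |y (m / p + s + 1) - y (m / p + s)|) atTop (nhds 0) := by
    have := h2.abs
    rw [abs_zero] at this
    exact this
  refine squeeze_zero_norm (fun m => ?_) h3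
  rw [Real.norm_eq_abs]
  beta_reduce
  rw [Nat.succ_div]
  split_ifs with hd
  · rw [show m / p + 1 + s = m / p + s + 1 by ring]
  · rw [add_zero, sub_self, abs_zero]
    exact abs_nonneg _

lemma jt_add (ψ η : ℕ → ℕ → ℝ) (j p : ℕ) : jt (fun p m => ψ p m + η p m) j p = fun m => jt ψ j p m + jt η j p m := by
  unfold jt
  exact fwdDiff_iter_add 1 (ψ p) (η p) j

lemma jt_slo {η : ℕ → ℕ → ℝ} {p : ℕ} (h : Slo (η p)) (j : ℕ) (hj : 1 ≤ j) : Tendsto (jt η j p) atTop (nhds 0) := by
  obtain ⟨i, rfl⟩ : ∃ i, j = i + 1 := ⟨j - 1, by omega⟩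
  unfold jt
  rw [Function.iterate_succ_apply]
  exact fwd_null h i

/-- **Smooth functions which grow like a power whose exponent is larger than one and not an integer are fast phases,
also with a slowly varying perturbation.** -/
theorem fp_pert {μ : LM} {Fl : Filter (ℕ × ℕ)} (hF : Tendsto (fun x : ℕ × ℕ => H x.2 - H x.1) Fl atTop)
    (hμ : LMF μ Fl) {k : ℕ} (hk : 1 ≤ k) {γ α : ℝ} (h1 : (k : ℝ) < γ) (h2 : γ < k + 1) (hi : Ind γ) (hα : α ≠ 0)
    {Φ : ℕ → ℝ → ℝ} (h : AS Φ γ α) (s : ℕ) (l : ℤ) (hl : l ≠ 0) {y : ℕ → ℝ} (hy : Slo y) (c : ℝ) :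
    FP μ k (fun p m => (l * Φ 0 ((m : ℝ) / p + s) + c) + y (m / p + s)) := by
  classical
  have hγ : 0 < γ := lt_of_le_of_lt (Nat.cast_nonneg k) h1
  -- the phases
  set G : ℕ → ℕ → ℝ → ℝ := fun p d x => l * ((1 / (p : ℝ)) ^ d * Φ d (1 / (p : ℝ) * x + s)) + (if d = 0 then c else 0) with hG
  have hGas : ∀ p : ℕ, p.Prime → AS (G p) γ (l * (α * (1 / (p : ℝ)) ^ γ)) := by
    intro p hp
    have hp0 : (0 : ℝ) < p := by exact_mod_cast hp.pos
    exact ((h.affine (one_div_pos.2 hp0) s).smul l).add_const hγ c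
  have hψ : ∀ p : ℕ, (fun m : ℕ => l * Φ 0 ((m : ℝ) / p + s) + c) = fun m : ℕ => G p 0 m := by
    intro p
    funext m
    rw [hG]
    simp only [pow_zero, one_mul, if_true]
    congr 4
    ring
  have hjt0 : ∀ j p, jt (fun p m => l * Φ 0 ((m : ℝ) / p + s) + c) j p = fun m : ℕ => (DF^[j] (G p)) 0 m := by
    intro j p
    unfold jt
    show (fwdDiff 1)^[j] (fun m : ℕ => l * Φ 0 ((m : ℝ) / p + s) + c) = _
    rw [hψ, DF_fwd]
  set η : ℕ → ℕ → ℝ := fun p m => y (m / p + s) with hη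
  have hηs : ∀ p : ℕ, p.Prime → Slo (η p) := fun p hp => slo_div hy p s hp.one_lt.le
  have hjt : ∀ j p, jt (fun p m => (l * Φ 0 ((m : ℝ) / p + s) + c) + y (m / p + s)) j p =
      fun m : ℕ => (DF^[j] (G p)) 0 m + jt η j p m := by
    intro j p
    rw [jt_add (fun p m => l * Φ 0 ((m : ℝ) / p + s) + c) η, hjt0]
  constructor
  · intro p hp
    rw [hjt]
    have h3 := ((hGas p hp).iter (k + 1)).asy 0
    rw [ff_zero, mul_one] at h3
    have h4 : Tendsto (fun x : ℝ => x ^ (-((k + 1 : ℕ) - γ : ℝ))) atTop (nhds 0) :=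
      tendsto_rpow_neg_atTop (by push_cast; linarith)
    have h5 := h3.mul h4
    rw [mul_zero] at h5
    have h6 : Tendsto (fun x : ℝ => (DF^[k + 1] (G p)) 0 x) atTop (nhds 0) := by
      refine h5.congr' ?_
      filter_upwards [eventually_gt_atTop 0] with x hx
      rw [show -((k + 1 : ℕ) - γ : ℝ) = γ - ((k + 1 : ℕ) : ℝ) - ((0 : ℕ) : ℝ) by push_cast; ring]
      have := (Real.rpow_pos_of_pos hx (γ - ((k + 1 : ℕ) : ℝ) - ((0 : ℕ) : ℝ))).ne'
      field_simp
    have h7 := (h6.comp tendsto_natCast_atTop_atTop).add (jt_slo (hηs p hp) (k + 1) (by omega))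
    rw [add_zero] at h7
    exact h7
  · intro P hP κ hκ q r hq c'
    simp only [hjt]
    have hq0 : (0 : ℝ) < q := by exact_mod_cast hq
    -- the smallest order
    have hex : ∃ j, ∃ p ∈ P, κ p j ≠ 0 := by
      obtain ⟨p, hp, j, _, hne⟩ := hκ
      exact ⟨j, p, hp, hne⟩
    set j₀ := Nat.find hex with hj₀
    have hj₀s := Nat.find_spec hex
    have hj₀k : j₀ ≤ k := by
      obtain ⟨p, hp, j, hj, hne⟩ := hκ
      exact (Nat.find_min' hex ⟨p, hp, hne⟩).trans hj
    have hmin : ∀ j < j₀, ∀ p ∈ P, κ p j = 0 := by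
      intro j hj p hp
      by_contra hne
      exact Nat.find_min hex hj ⟨p, hp, hne⟩
    set Hh : ℕ → ℕ → ℕ → ℝ → ℝ := fun p j d x => (q : ℝ) ^ d * (DF^[j] (G p)) d (q * x + r) with hH
    have hHas : ∀ p ∈ P, ∀ j, AS (Hh p j) (γ - j) (l * (α * (1 / (p : ℝ)) ^ γ) * ff γ j * (q : ℝ) ^ (γ - j)) :=
      fun p hp j => ((hGas p (hP p hp)).iter j).affine hq0 r
    set T : ℕ → ℕ → ℕ → ℝ → ℝ := fun p j d x => κ p j * Hh p j d x with hT
    have hTas : ∀ p ∈ P, ∀ j, AS (T p j) (γ - j₀) (if j = j₀ then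
        κ p j₀ * (l * (α * (1 / (p : ℝ)) ^ γ) * ff γ j₀ * (q : ℝ) ^ (γ - j₀)) else 0) := by
      intro p hp j
      rcases lt_trichotomy j j₀ with hj | hj | hj
      · have e : T p j = fun _ _ => 0 := by
          funext d x
          rw [hT]
          simp only [hmin j hj p hp, Int.cast_zero, zero_mul]
        rw [e, if_neg (by omega)]
        exact AS.zero _
      · subst hj
        rw [if_pos rfl]
        exact (hHas p hp _).smul _
      · rw [if_neg (by omega)]
        have hjr : (j₀ : ℝ) < j := by exact_mod_cast hj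
        exact ((hHas p hp j).smul _).lower (by linarith)
    set B : ℝ := ∑ p ∈ P, ∑ j ∈ range (k + 1), (if j = j₀ then
        κ p j₀ * (l * (α * (1 / (p : ℝ)) ^ γ) * ff γ j₀ * (q : ℝ) ^ (γ - j₀)) else 0) with hB
    have hΩ : AS (fun d x => ∑ p ∈ P, ∑ j ∈ range (k + 1), T p j d x) (γ - j₀) B :=
      AS.sum P fun p hp => AS.sum (range (k + 1)) fun j _ => hTas p hp j
    have hB' : B = l * α * ff γ j₀ * (q : ℝ) ^ (γ - j₀) * ∑ p ∈ P, κ p j₀ * (p : ℝ) ^ (-γ) := by
      rw [hB, mul_sum]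
      refine sum_congr rfl fun p hp => ?_
      have hp0 : (0 : ℝ) < p := by exact_mod_cast (hP p hp).pos
      rw [sum_ite_eq', if_pos (mem_range.2 (by omega))]
      rw [Real.rpow_neg hp0.le, one_div, Real.inv_rpow hp0.le]
      ring
    have hB0 : B ≠ 0 := by
      rw [hB']
      have hl' : (l : ℝ) ≠ 0 := by exact_mod_cast hl
      exact mul_ne_zero (mul_ne_zero (mul_ne_zero (mul_ne_zero hl' hα) (ff_ne h1 h2 j₀))
        (Real.rpow_pos_of_pos hq0 _).ne') (hi P hP (fun p => κ p j₀) hj₀s)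
    -- the perturbation
    set Y : ℕ → ℝ := fun u => ∑ p ∈ P, ∑ j ∈ range (k + 1), κ p j * jt η j p (q * u + r) with hY
    have hYs : Slo Y := by
      refine Slo.sum P fun p hp => Slo.sum (range (k + 1)) fun j _ => Slo.cmul ?_ _
      rcases Nat.eq_zero_or_pos j with rfl | hj
      · exact (hηs p (hP p hp)).lin q r hq
      · exact (slo_null (jt_slo (hηs p (hP p hp)) j hj)).lin q r hq
    have e : ∀ u : ℕ, (∑ p ∈ P, ∑ j ∈ range (k + 1), (κ p j : ℝ) * ((DF^[j] (G p)) 0 ((q * u + r : ℕ) : ℝ) + jt η j p (q * u + r))) =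
        (∑ p ∈ P, ∑ j ∈ range (k + 1), T p j 0 u) + Y u := by
      intro u
      rw [hY, ← sum_add_distrib]
      refine sum_congr rfl fun p _ => ?_
      rw [← sum_add_distrib]
      refine sum_congr rfl fun j _ => ?_
      rw [hT, hH]
      simp only [pow_zero, one_mul]
      push_cast
      ring
    simp only [e]
    rcases Nat.eq_zero_or_pos j₀ with hz | hz
    · have hk1 : ((k - 1 + 1 : ℕ) : ℝ) = k := by
        congr 1
        omega
      have hk2 : ((k - 1 : ℕ) : ℝ) = k - 1 := by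
        rw [Nat.cast_sub hk, Nat.cast_one]
      rw [hz, Nat.cast_zero, sub_zero] at hΩ
      exact as_weyl_slo hF hμ (k - 1) _ γ B (by rw [hk1]; exact h1) (by rw [hk2]; linarith) hB0 hΩ hYs c'
    · have hY0 : Tendsto Y atTop (nhds 0) := by
        have h5 : Tendsto (fun u : ℕ => ∑ p ∈ P, ∑ j ∈ range (k + 1), (κ p j : ℝ) * jt η j p (q * u + r)) atTop
            (nhds (∑ _p ∈ P, ∑ _j ∈ range (k + 1), (0 : ℝ))) := by
          refine tendsto_finsetSum _ fun p hp => tendsto_finsetSum _ fun j _ => ?_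
          rcases Nat.eq_zero_or_pos j with rfl | hj
          · rw [hmin 0 hz p hp]
            simp
          · have h6 : Tendsto (fun u : ℕ => q * u + r) atTop atTop :=
              tendsto_atTop_mono (fun u => show u ≤ q * u + r by nlinarith) tendsto_id
            have h7 := ((jt_slo (hηs p (hP p hp)) j hj).comp h6).const_mul (κ p j : ℝ)
            rw [mul_zero] at h7
            exact h7
        simp only [sum_const_zero] at h5
        exact h5
      have hkj : ((k - j₀ : ℕ) : ℝ) = k - j₀ := by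
        rw [Nat.cast_sub hj₀k]
      have h3 := as_weyl hF hμ (k - j₀) _ (γ - j₀) B (by rw [hkj]; linarith) (by rw [hkj]; linarith) hB0 hΩ c'
      rw [← m_o1 μ _ hY0] at h3
      rw [← h3]
      congr 1
      funext u
      congr 2
      ring

end Pool.Agent.Y326.Slf
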