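import Pool.Agent.Y326.Slw17

/-!
# Slow phases: summary
-/

set_option autoImplicit false

namespace Pool.Agent.Y326.Slw

open Finset Filter MeasureTheory
open Pool.Agent.TH112.BL Pool.Agent.TH928.BLJ

noncomputable section

/-- small at almost all scales -/
def Sm (B : ℕ → ℂ) : Prop :=
  ∀ ε : ℝ, 0 < ε → ∃ C : ℕ, ∀ A N : ℕ, 1 ≤ A → C * A ≤ N →
    ∑ x ∈ Ioc A N, ‖B x‖ / x ≤ ε * Real.log ((N : ℝ) / A)

lemma ZZ.sm {B : ℕ → ℂ} (h : ZZ FW B) : Sm B := fun ε hε => almost_all h ε hε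

variable {φ : ℝ → ℝ} {I : ℕ → Finset ℕ} {k : ℕ} {f : Fin k → ℕ → ℂ} {a : Fin k → ℕ} {b : Fin k → ℤ} {P₀ : ℕ}

theorem GG.sm_coeff (h : GG FW φ I) (hf : MF f a P₀) (l : ℤ) (hl : l ≠ 0) :
    Sm (av I (fun n => prd f a b n * ex (l * φ n))) := (h k f a b P₀ hf l hl).sm

theorem GG.sm_G (h : GG FW φ I) (hf : MF f a P₀) (G : ℝ → ℂ) (hG : Continuous G) (hp : Function.Periodic G 1) :
    Sm (av I (fun n => prd f a b n * (G (φ n) - ∫ x in (0 : ℝ)..1, G x))) := by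
  have hc : Continuous (hp.lift : UnitAddCircle → ℂ) := by
    apply continuous_coinduced_dom.2
    exact hG
  set G' : C(UnitAddCircle, ℂ) := ⟨hp.lift, hc⟩ with hG'
  have e1 : ∀ x : ℝ, G' ((x : ℝ) : UnitAddCircle) = G x := fun x => hp.lift_coe x
  have e2 : (∫ x, G' x) = ∫ x in (0 : ℝ)..1, G x := by
    have h1 := UnitAddCircle.intervalIntegral_preimage 0 (fun x => G' x)
    rw [← h1, zero_add]
    simp only [e1]
  have h1 := (h.cont (b := b) FW_tendsto hf G').sm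
  simp only [e1, e2] at h1
  exact h1

theorem GG.sm_arc (h : GG FW φ I) (hf : MF f a P₀) (c r : ℝ) (hr : 0 ≤ r) (hr2 : 2 * r ≤ 1) :
    Sm (av I (fun n => prd f a b n * ((ar c r (φ n) - 2 * r : ℝ) : ℂ))) := by
  have h1 := (h.arc (b := b) FW_tendsto hf ((c : ℝ) : UnitAddCircle) r hr hr2).sm
  simp only [← ar_eq] at h1
  exact h1

/-- the logarithm rate -/
lemma log_rate {s : ℝ} (hs : 0 < s) : Tendsto (fun n : ℕ => (n : ℝ) * ((Real.log n) ^ s / n)) atTop atTop := by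
  have h1 : Tendsto (fun n : ℕ => (Real.log (n : ℝ)) ^ s) atTop atTop :=
    (tendsto_rpow_atTop hs).comp (Real.tendsto_log_atTop.comp tendsto_natCast_atTop_atTop)
  refine h1.congr' ?_
  filter_upwards [eventually_ge_atTop 1] with n hn
  have : (n : ℝ) ≠ 0 := by exact_mod_cast (by omega : n ≠ 0)
  field_simp

lemma pow_rate {c : ℝ} (hc : 0 < c) : Tendsto (fun n : ℕ => (n : ℝ) * (n : ℝ) ^ (c - 1)) atTop atTop := by
  have h1 : Tendsto (fun n : ℕ => (n : ℝ) ^ c) atTop atTop := (tendsto_rpow_atTop hc).comp tendsto_natCast_atTop_atTop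
  refine h1.congr' ?_
  filter_upwards [eventually_ge_atTop 1] with n hn
  have : (n : ℝ) ≠ 0 := by exact_mod_cast (by omega : n ≠ 0)
  rw [Real.rpow_sub_one this]
  field_simp

end

end Pool.Agent.Y326.Slw
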