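import Pool.Agent.Y326.Slf6
import Pool.Agent.Y326.Slw18

/-!
# Fast phases: full and short averages at almost all scales
-/

set_option autoImplicit false

namespace Pool.Agent.Y326.Slf

open Finset Filter MeasureTheory
open Pool.Agent.TH112.BL Pool.Agent.TH928.BLJ
open Pool.Agent.Y326.Slw
open Pool.Agent.TH833.BL (S H)

/-- the data of a fast phase -/
structure FA (Φ : ℕ → ℝ → ℝ) (γ α : ℝ) (k : ℕ) : Prop where
  hk : 1 ≤ k
  lt : (k : ℝ) < γ
  lt' : γ < k + 1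
  ind : Ind γ
  ne : α ≠ 0
  as : AS Φ γ α

section

variable {μ : LM} {Fl : Filter (ℕ × ℕ)} {Φ : ℕ → ℝ → ℝ} {γ α : ℝ} {d k : ℕ} {f : Fin k → ℕ → ℂ} {a : Fin k → ℕ}
  {b : Fin k → ℤ} {P₀ : ℕ}

/-- all orders, integer shifts -/
theorem fast_meanZ (hF : Tendsto (fun x : ℕ × ℕ => H x.2 - H x.1) Fl atTop) (hμ : LMF μ Fl) (h : FA Φ γ α d)
    (hf : MF f a P₀) (l : ℤ) (hl : l ≠ 0) {y : ℕ → ℝ} (hy : Slo y) (c : ℝ) :
    μ.m (fun n => (prd f a b n * ex ((l * Φ 0 n + c) + y n)).re) = 0 := by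
  have bd : ∀ (ψ : ℕ → ℝ), Bd (fun n => (prd f a b n * ex (ψ n)).re) := fun ψ =>
    ⟨1, fun n => (Complex.abs_re_le_norm _).trans (by rw [norm_mul, norm_ex, mul_one]; exact norm_prod_le hf n)⟩
  set s : ℕ := ∑ j, (b j).natAbs with hs
  have hle : ∀ j, 0 ≤ (a j : ℤ) * s + b j := by
    intro j
    have h1 : (b j).natAbs ≤ s := single_le_sum (f := fun j => (b j).natAbs) (fun _ _ => Nat.zero_le _) (mem_univ j)
    have h2 : (s : ℤ) ≤ a j * s := by
      have := hf.pos j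
      nlinarith [(by exact_mod_cast this : (1 : ℤ) ≤ a j), (Int.natCast_nonneg s)]
    have h3 : -(b j) ≤ ((b j).natAbs : ℤ) := by omega
    have h4 : ((b j).natAbs : ℤ) ≤ s := by exact_mod_cast h1
    linarith
  set b' : Fin k → ℕ := fun j => ((a j : ℤ) * s + b j).toNat with hb'
  have e1 : ∀ n : ℕ, prd f a b (n + s) = ∏ j, f j (a j * n + b' j) := by
    intro n
    unfold prd
    refine prod_congr rfl fun j _ => ?_
    congr 1
    have h1 : ((b' j : ℕ) : ℤ) = (a j : ℤ) * s + b j := Int.toNat_of_nonneg (hle j)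
    have h2 : (a j : ℤ) * ((n + s : ℕ) : ℤ) + b j = ((a j * n + b' j : ℕ) : ℤ) := by
      push_cast
      rw [h1]; ring
    rw [h2, Int.toNat_natCast]
  rw [← Slw.m_shift μ (bd fun n => (l * Φ 0 n + c) + y n) s]
  simp only [e1]
  exact fast_mean (fp_pert hF hμ h.hk h.lt h.lt' h.ind h.ne h.as s l hl hy c)
    (w := fun n => ex ((l * Φ 0 ((n + s : ℕ) : ℝ) + c) + y (n + s))) (fun n => (norm_ex _).le)
    (fun p n hp => by
      have hp0 : (p : ℝ) ≠ 0 := by exact_mod_cast hp.ne_zero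
      show ex ((l * Φ 0 (((p * n : ℕ) : ℝ) / p + s) + c) + y (p * n / p + s)) =
        ex ((l * Φ 0 ((n + s : ℕ) : ℝ) + c) + y (n + s))
      rw [Nat.mul_div_cancel_left n hp.pos]
      congr 5
      push_cast
      field_simp) f a b' P₀ hf.le hf.mul hf.pos

/-- all the Fourier coefficients -/
lemma fast_coeff (hF : Tendsto (fun x : ℕ × ℕ => H x.2 - H x.1) Fl atTop) (hμ : LMF μ Fl) (h : FA Φ γ α d)
    (hf : MF f a P₀) (l : ℤ) (hl : l ≠ 0) {y : ℕ → ℝ} (hy : Slo y) (c : ℂ) :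
    μ.m (fun n => (prd f a b n * (c * ex (l * Φ 0 n + y n))).re) = 0 := by
  have h1 := fast_meanZ (b := b) hF hμ h hf l hl hy 0
  have h2 := fast_meanZ (b := b) hF hμ h hf l hl hy (-(1 / 4))
  have e4 : ex (-(1 / 4)) = -Complex.I := by
    unfold ex
    rw [show 2 * (Real.pi : ℂ) * Complex.I * ((-(1 / 4) : ℝ) : ℂ) = -(Real.pi / 2 * Complex.I) by push_cast; ring,
      Complex.exp_neg, Complex.exp_pi_div_two_mul_I, Complex.inv_I]
  have b0 : ∀ n, ‖prd f a b n * ex (l * Φ 0 n + y n)‖ ≤ 1 := by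
    intro n
    rw [norm_mul, norm_ex, mul_one]
    exact norm_prod_le hf n
  have b1 : Bd (fun n => (prd f a b n * ex (l * Φ 0 n + y n)).re) :=
    ⟨1, fun n => (Complex.abs_re_le_norm _).trans (b0 n)⟩
  have b2 : Bd (fun n => (prd f a b n * ex (l * Φ 0 n + y n)).im) :=
    ⟨1, fun n => (Complex.abs_im_le_norm _).trans (b0 n)⟩
  have h1' : μ.m (fun n => (prd f a b n * ex (l * Φ 0 n + y n)).re) = 0 := by
    simpa using h1
  have h2' : μ.m (fun n => (prd f a b n * ex (l * Φ 0 n + y n)).im) = 0 := by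
    rw [← h2]
    congr 1
    funext n
    have e5 : (l : ℝ) * Φ 0 n + -(1 / 4) + y n = (l * Φ 0 n + y n) + -(1 / 4) := by ring
    rw [e5, ex_add _ (-(1 / 4)), e4]
    rw [← mul_assoc, Complex.mul_re (_ * _) (-Complex.I)]
    simp
  have e : (fun n => (prd f a b n * (c * ex (l * Φ 0 n + y n))).re) =
      fun n => c.re * (prd f a b n * ex (l * Φ 0 n + y n)).re +
        (-c.im) * (prd f a b n * ex (l * Φ 0 n + y n)).im := by
    funext n
    rw [mul_left_comm, Complex.mul_re c]; ring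
  rw [e, μ.add _ _ (b1.cmul _) (b2.cmul _), μ.smul _ _ b1, μ.smul _ _ b2, h1', h2']
  ring

lemma slo_of {y Δ : ℕ → ℝ} (hΔ : Tendsto Δ atTop (nhds 0)) (h : ∀ n, |y (n + 1) - y n| ≤ Δ n) : Slo y :=
  squeeze_zero_norm (fun n => by rw [Real.norm_eq_abs]; exact h n) hΔ

/-- slowly varying weights -/
theorem weight_zero_fast (hF : Tendsto (fun x : ℕ × ℕ => H x.2 - H x.1) Fl atTop) (h : FA Φ γ α d)
    (hf : MF f a P₀) (l : ℤ) (hl : l ≠ 0) {Δ : ℕ → ℝ} (hΔ : Tendsto Δ atTop (nhds 0))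
    {Θ : ℕ → ℂ} (hΘ : ∀ n, ‖Θ n‖ ≤ 2) (hΘ2 : ∀ n, ‖Θ (n + 1) - Θ n‖ ≤ Δ n) :
    Tendsto (wa (fun n => (prd f a b n * ex (l * Φ 0 n) * Θ n).re)) Fl (nhds 0) := by
  have hbd : ∀ n, ‖prd f a b n * ex (l * Φ 0 n) * Θ n‖ ≤ 2 := by
    intro n
    rw [norm_mul, norm_mul, norm_ex, mul_one]
    calc ‖prd f a b n‖ * ‖Θ n‖ ≤ 1 * 2 := mul_le_mul (norm_prod_le hf n) (hΘ n) (norm_nonneg _) zero_le_one
      _ = 2 := one_mul 2
  by_contra hne
  obtain ⟨μ, h1, h2⟩ := win_exists hF _ ⟨2, fun n => (Complex.abs_re_le_norm _).trans (hbd n)⟩ hne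
  apply h1
  set ψ₁ : ℕ → ℝ := fun n => ang ((Θ n).re / 4) with hψ1
  set ψ₂ : ℕ → ℝ := fun n => ang ((Θ n).im / 4) with hψ2
  have r1 : ∀ n, |(Θ n).re / 4| ≤ 1 / 2 := fun n => by
    rw [abs_div, abs_of_pos (by norm_num : (0 : ℝ) < 4), div_le_iff₀ (by norm_num)]
    have := (Complex.abs_re_le_norm (Θ n)).trans (hΘ n)
    linarith
  have r2 : ∀ n, |(Θ n).im / 4| ≤ 1 / 2 := fun n => by
    rw [abs_div, abs_of_pos (by norm_num : (0 : ℝ) < 4), div_le_iff₀ (by norm_num)]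
    have := (Complex.abs_im_le_norm (Θ n)).trans (hΘ n)
    linarith
  have l1 : ∀ n, |ψ₁ (n + 1) - ψ₁ n| ≤ Δ n := fun n => by
    refine (ang_lip _ _ (r1 _) (r1 _)).trans ?_
    rw [← sub_div, ← Complex.sub_re, abs_div, abs_of_pos (by norm_num : (0 : ℝ) < 4)]
    have := (Complex.abs_re_le_norm (Θ (n + 1) - Θ n)).trans (hΘ2 n)
    have h4 := abs_nonneg (Θ (n + 1) - Θ n).re
    linarith
  have l2 : ∀ n, |ψ₂ (n + 1) - ψ₂ n| ≤ Δ n := fun n => by
    refine (ang_lip _ _ (r2 _) (r2 _)).trans ?_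
    rw [← sub_div, ← Complex.sub_im, abs_div, abs_of_pos (by norm_num : (0 : ℝ) < 4)]
    have := (Complex.abs_im_le_norm (Θ (n + 1) - Θ n)).trans (hΘ2 n)
    have h4 := abs_nonneg (Θ (n + 1) - Θ n).im
    linarith
  have neg : ∀ ψ : ℕ → ℝ, (∀ n, |ψ (n + 1) - ψ n| ≤ Δ n) → ∀ n, |(-ψ (n + 1)) - (-ψ n)| ≤ Δ n := fun ψ h n => by
    rw [show -ψ (n + 1) - -ψ n = -(ψ (n + 1) - ψ n) by ring, abs_neg]
    exact h n
  have z : ∀ (ψ : ℕ → ℝ), (∀ n, |ψ (n + 1) - ψ n| ≤ Δ n) → ∀ c : ℂ,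
      μ.m (fun n => (prd f a b n * (c * ex (l * Φ 0 n + ψ n))).re) = 0 := by
    intro ψ hψ c
    exact fast_coeff (b := b) hF h2 h hf l hl (slo_of hΔ hψ) c
  have bz : ∀ (ψ : ℕ → ℝ) (c : ℂ), Bd (fun n => (prd f a b n * (c * ex (l * Φ 0 n + ψ n))).re) := fun ψ c =>
    ⟨‖c‖, fun n => (Complex.abs_re_le_norm _).trans (by
      rw [norm_mul, norm_mul, norm_ex, mul_one]
      exact mul_le_of_le_one_left (norm_nonneg _) (norm_prod_le hf n))⟩
  have e : (fun n => (prd f a b n * ex (l * Φ 0 n) * Θ n).re) = fun n =>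
      ((prd f a b n * (2 * ex (l * Φ 0 n + ψ₁ n))).re + (prd f a b n * (2 * ex (l * Φ 0 n + -ψ₁ n))).re) +
      ((prd f a b n * (2 * Complex.I * ex (l * Φ 0 n + ψ₂ n))).re + (prd f a b n * (2 * Complex.I * ex (l * Φ 0 n + -ψ₂ n))).re) := by
    funext n
    rw [← Complex.add_re, ← Complex.add_re, ← Complex.add_re]
    congr 1
    rw [ex_add _ (ψ₁ n), ex_add _ (-ψ₁ n), ex_add _ (ψ₂ n), ex_add _ (-ψ₂ n)]
    have a1 := ang_ex ((Θ n).re / 4) (by linarith [(abs_le.1 (r1 n)).1]) (by linarith [(abs_le.1 (r1 n)).2])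
    have a2 := ang_ex ((Θ n).im / 4) (by linarith [(abs_le.1 (r2 n)).1]) (by linarith [(abs_le.1 (r2 n)).2])
    have e1 : prd f a b n * (2 * (ex (l * Φ 0 n) * ex (ψ₁ n))) + prd f a b n * (2 * (ex (l * Φ 0 n) * ex (-ψ₁ n))) +
        (prd f a b n * (2 * Complex.I * (ex (l * Φ 0 n) * ex (ψ₂ n))) + prd f a b n * (2 * Complex.I * (ex (l * Φ 0 n) * ex (-ψ₂ n)))) =
        prd f a b n * ex (l * Φ 0 n) * (2 * (ex (ψ₁ n) + ex (-ψ₁ n)) + 2 * Complex.I * (ex (ψ₂ n) + ex (-ψ₂ n))) := by ring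
    rw [e1, hψ1, hψ2]
    simp only
    rw [a1, a2]
    congr 1
    conv_lhs => rw [← Complex.re_add_im (Θ n)]
    push_cast
    ring
  rw [e, μ.add _ _ ((bz _ _).add (bz _ _)) ((bz _ _).add (bz _ _)), μ.add _ _ (bz _ _) (bz _ _), μ.add _ _ (bz _ _) (bz _ _),
    z ψ₁ l1, z (fun n => -ψ₁ n) (neg _ l1), z ψ₂ l2, z (fun n => -ψ₂ n) (neg _ l2)]
  ring

/-- averages of absolute values -/
theorem abs_zero_fast (hF : Tendsto (fun x : ℕ × ℕ => H x.2 - H x.1) Fl atTop) (h : FA Φ γ α d)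
    (hf : MF f a P₀) (l : ℤ) (hl : l ≠ 0) {Δ : ℕ → ℝ} (hΔ : Tendsto Δ atTop (nhds 0))
    {B : ℕ → ℂ} (hK : Ker B (fun n => prd f a b n * ex (l * Φ 0 n)) Δ) :
    Tendsto (wa (fun x => ‖B x‖)) Fl (nhds 0) := by
  set θ : ℕ → ℂ := fun x => if B x = 0 then 0 else (starRingEnd ℂ) (B x) / ‖B x‖ with hθ
  have hθ1 : ∀ x, ‖θ x‖ ≤ 1 := by
    intro x
    rw [hθ]
    simp only
    split_ifs with h
    · simp
    · rw [norm_div, RCLike.norm_conj, Complex.norm_real, norm_norm, div_self (norm_ne_zero_iff.2 h)]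
  have hθB : ∀ x, θ x * B x = (‖B x‖ : ℂ) := by
    intro x
    rw [hθ]
    simp only
    split_ifs with h
    · simp [h]
    · have h2 : ((‖B x‖ : ℝ) : ℂ) ≠ 0 := by exact_mod_cast norm_ne_zero_iff.2 h
      rw [div_mul_eq_mul_div, div_eq_iff h2, mul_comm, Complex.mul_conj, Complex.normSq_eq_norm_sq]
      push_cast
      ring
  obtain ⟨Θ, hΘ1, hΘ2, C, hC⟩ := hK θ hθ1
  have h1 := weight_zero_fast (b := b) hF h hf l hl hΔ hΘ1 hΘ2
  have h2 : Tendsto (fun x : ℕ × ℕ => C / (H x.2 - H x.1)) Fl (nhds 0) := Tendsto.div_atTop tendsto_const_nhds hF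
  have h3 : Tendsto (fun x : ℕ × ℕ => wa (fun n => (prd f a b n * ex (l * Φ 0 n) * Θ n).re) x + C / (H x.2 - H x.1)) Fl (nhds 0) := by
    have := h1.add h2
    rwa [add_zero] at this
  refine squeeze_zero' ?_ ?_ h3
  · filter_upwards [hF.eventually_gt_atTop 0] with x hx
    unfold wa
    rw [S_sub _ (lt_of_H hx).le]
    exact mul_nonneg (by positivity) (sum_nonneg fun n _ => mul_nonneg (by positivity) (norm_nonneg _))
  · filter_upwards [hF.eventually_gt_atTop 0] with x hx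
    have hlt := (lt_of_H hx).le
    unfold wa
    rw [S_sub _ hlt, S_sub _ hlt]
    have h4 := hC x.1 x.2 hlt
    have h5 := (Complex.abs_re_le_norm _).trans h4
    have e1 : (∑ y ∈ Ioc x.1 x.2, θ y * B y / (y : ℂ)).re = ∑ y ∈ Ioc x.1 x.2, (1 / (y : ℝ)) * ‖B y‖ := by
      rw [Complex.re_sum]
      refine sum_congr rfl fun y _ => ?_
      rw [hθB, show ((y : ℂ)) = ((y : ℝ) : ℂ) by simp, Complex.div_ofReal_re, Complex.ofReal_re]
      ring
    have e2 : (∑ y ∈ Ioc x.1 x.2, prd f a b y * ex (l * Φ 0 y) * Θ y / (y : ℂ)).re =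
        ∑ y ∈ Ioc x.1 x.2, (1 / (y : ℝ)) * (prd f a b y * ex (l * Φ 0 y) * Θ y).re := by
      rw [Complex.re_sum]
      refine sum_congr rfl fun y _ => ?_
      rw [show ((y : ℂ)) = ((y : ℝ) : ℂ) by simp, Complex.div_ofReal_re]
      ring
    rw [Complex.sub_re, e1, e2] at h5
    have h6 := (abs_le.1 h5).2
    rw [one_div, inv_mul_eq_div, inv_mul_eq_div, ← add_div]
    apply div_le_div_of_nonneg_right _ hx.le
    linarith

end

section

variable {Fl : Filter (ℕ × ℕ)} {Φ : ℕ → ℝ → ℝ} {γ α : ℝ} {d : ℕ}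

lemma D2_tendsto {h : ℕ → ℕ} (hlim : Tendsto h atTop atTop) : Tendsto (D2 h) atTop (nhds 0) := by
  have h1 : Tendsto (fun n : ℕ => 3 / (h (n / 2) : ℝ) + 2 / n) atTop (nhds (0 + 0)) := by
    apply Tendsto.add
    · apply Tendsto.div_atTop tendsto_const_nhds
      exact tendsto_natCast_atTop_atTop.comp (hlim.comp (Nat.tendsto_div_const_atTop two_ne_zero))
    · exact Tendsto.div_atTop tendsto_const_nhds tendsto_natCast_atTop_atTop
  rw [add_zero] at h1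
  refine h1.congr' ?_
  filter_upwards [eventually_ge_atTop 2] with n hn
  unfold D2
  rw [if_neg (by omega)]

theorem gf_short (hF : Tendsto (fun x : ℕ × ℕ => H x.2 - H x.1) Fl atTop) (hA : FA Φ γ α d) {h : ℕ → ℕ} (hh : Len h)
    (hlim : Tendsto h atTop atTop) : GG Fl (Φ 0) (IS h) := by
  intro k f a b P₀ hf l hl
  have hG : ∀ n, ‖prd f a b n * ex (l * Φ 0 n)‖ ≤ 1 := fun n => by
    rw [norm_mul, norm_ex, mul_one]
    exact norm_prod_le hf n
  have h1 := ker_short hG hh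
  have h2 : (av (IS h) (fun n => prd f a b n * ex (l * Φ 0 n))) =
      fun x => (CS (fun n => prd f a b n * ex (l * Φ 0 n)) (x + h x) - CS (fun n => prd f a b n * ex (l * Φ 0 n)) x) / (h x : ℂ) := by
    funext x
    exact av_IS h _ x
  rw [← h2] at h1
  exact abs_zero_fast hF hA hf l hl (D2_tendsto hlim) h1

theorem gf_full (hF : Tendsto (fun x : ℕ × ℕ => H x.2 - H x.1) Fl atTop) (hA : FA Φ γ α d) : GG Fl (Φ 0) IF := by
  intro k f a b P₀ hf l hl
  have hG : ∀ n, ‖prd f a b n * ex (l * Φ 0 n)‖ ≤ 1 := fun n => by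
    rw [norm_mul, norm_ex, mul_one]
    exact norm_prod_le hf n
  have h1 := ker_full hG
  have h2 : (av IF (fun n => prd f a b n * ex (l * Φ 0 n))) =
      fun x => CS (fun n => prd f a b n * ex (l * Φ 0 n)) x / (x : ℂ) := by
    funext x
    exact av_IF _ x
  rw [← h2] at h1
  have hD : Tendsto D1 atTop (nhds 0) := by
    have h3 : Tendsto (fun n : ℕ => 3 / (n : ℝ)) atTop (nhds 0) :=
      Tendsto.div_atTop tendsto_const_nhds tendsto_natCast_atTop_atTop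
    refine h3.congr' ?_
    filter_upwards [eventually_gt_atTop 0] with n hn
    unfold D1
    rw [if_neg (by omega)]
  exact abs_zero_fast hF hA hf l hl hD h1

end

/-! ## from unweighted averages to logarithmic averages -/

/-- the averages up to `x` are small at almost all scales: the logarithmic averages tend to zero -/
theorem lz_of_full {u : ℕ → ℂ} {C : ℝ} (hu : ∀ n, ‖u n‖ ≤ C)
    (h : ∀ ε : ℝ, 0 < ε → ∃ C : ℕ, ∀ A N : ℕ, 1 ≤ A → C * A ≤ N → ∑ x ∈ Ioc A N, ‖(∑ n ∈ Icc 1 x, u n) / (x : ℂ)‖ / x ≤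
      ε * Real.log ((N : ℝ) / A)) :
    Tendsto (fun N : ℕ => (∑ n ∈ Icc 1 N, u n / (n : ℂ)) / ((Real.log N : ℝ) : ℂ)) atTop (nhds 0) := by
  have hC : 0 ≤ C := (norm_nonneg _).trans (hu 0)
  set Bx : ℕ → ℂ := fun x => (∑ n ∈ Icc 1 x, u n) / (x : ℂ) with hB
  have hcs : ∀ x : ℕ, ‖∑ n ∈ Icc 1 x, u n‖ ≤ C * x := by
    intro x
    refine (norm_sum_le _ _).trans ((sum_le_sum fun n _ => hu n).trans ?_)
    rw [sum_const, Nat.card_Icc, nsmul_eq_mul, Nat.add_sub_cancel, mul_comm]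
  -- partial summation
  have key : ∀ N : ℕ, 1 ≤ N → ∑ n ∈ Icc 1 N, u n / (n : ℂ) = ∑ x ∈ Icc 1 N, (∑ n ∈ Icc 1 x, u n) / ((x : ℂ) * (x + 1)) +
      (∑ n ∈ Icc 1 N, u n) / ((N : ℂ) + 1) := by
    intro N hN
    induction N, hN using Nat.le_induction with
    | base =>
      simp
      ring
    | succ N hN ih =>
      rw [Finset.sum_Icc_succ_top (by omega), Finset.sum_Icc_succ_top (by omega), ih, Finset.sum_Icc_succ_top (by omega)]
      push_cast
      have h1 : (N : ℂ) + 1 ≠ 0 := by exact_mod_cast Nat.succ_ne_zero N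
      have h2 : (N : ℂ) + 1 + 1 ≠ 0 := by exact_mod_cast Nat.succ_ne_zero (N + 1)
      field_simp
      ring
  have hbound : ∀ ε : ℝ, 0 < ε → ∃ N₀ : ℕ, ∀ N, N₀ ≤ N → ‖∑ n ∈ Icc 1 N, u n / (n : ℂ)‖ ≤ ε * Real.log N + 2 * C := by
    intro ε hε
    obtain ⟨C₁, hC₁⟩ := h ε hε
    refine ⟨max C₁ 1, fun N hN => ?_⟩
    have hN1 : 1 ≤ N := (le_max_right _ _).trans hN
    have hNC : C₁ * 1 ≤ N := by rw [mul_one]; exact (le_max_left _ _).trans hN
    have h1 := hC₁ 1 N le_rfl hNC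
    rw [Nat.cast_one, div_one] at h1
    rw [key N hN1]
    refine (norm_add_le _ _).trans ?_
    have h2 : ‖(∑ n ∈ Icc 1 N, u n) / ((N : ℂ) + 1)‖ ≤ C := by
      rw [norm_div]
      have h3 : ‖(N : ℂ) + 1‖ = (N : ℝ) + 1 := by
        rw [show (N : ℂ) + 1 = ((N + 1 : ℕ) : ℂ) by push_cast; rfl, Complex.norm_natCast]
        push_cast
        rfl
      rw [h3, div_le_iff₀ (by positivity)]
      refine (hcs N).trans ?_
      nlinarith
    have h4 : ‖∑ x ∈ Icc 1 N, (∑ n ∈ Icc 1 x, u n) / ((x : ℂ) * (x + 1))‖ ≤ C + ε * Real.log N := by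
      have h5 : Icc 1 N = insert 1 (Ioc 1 N) := by
        ext x
        simp only [mem_Icc, mem_insert, mem_Ioc]
        omega
      rw [h5, sum_insert (by simp)]
      refine (norm_add_le _ _).trans (add_le_add ?_ ?_)
      · have h6 := hu 1
        have h7 : ‖(∑ n ∈ Icc 1 1, u n) / (((1 : ℕ) : ℂ) * (((1 : ℕ) : ℂ) + 1))‖ = ‖u 1‖ / 2 := by
          simp
          rw [show (1 : ℂ) + 1 = 2 by norm_num]
          simp
        rw [h7]
        linarith
      · refine (norm_sum_le _ _).trans (le_trans (sum_le_sum fun x hx => ?_) h1)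
        rw [mem_Ioc] at hx
        have hx0 : (0 : ℝ) < x := by exact_mod_cast (by omega : 0 < x)
        rw [norm_div, norm_div, norm_mul, Complex.norm_natCast, div_div]
        have h3 : ‖(x : ℂ) + 1‖ = (x : ℝ) + 1 := by
          rw [show (x : ℂ) + 1 = ((x + 1 : ℕ) : ℂ) by push_cast; rfl, Complex.norm_natCast]
          push_cast
          rfl
        rw [h3]
        apply div_le_div_of_nonneg_left (norm_nonneg _) (by positivity)
        nlinarith
    linarith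
  rw [Metric.tendsto_atTop]
  intro ε hε
  obtain ⟨N₀, hN₀⟩ := hbound (ε / 4) (by positivity)
  have hlog : Tendsto (fun N : ℕ => Real.log N) atTop atTop := Real.tendsto_log_atTop.comp tendsto_natCast_atTop_atTop
  obtain ⟨N₁, hN₁⟩ := eventually_atTop.1 (hlog.eventually_ge_atTop (max 1 (8 * C / ε)))
  refine ⟨max N₀ N₁, fun N hN => ?_⟩
  have h1 := hN₀ N ((le_max_left _ _).trans hN)
  have h2 := hN₁ N ((le_max_right _ _).trans hN)
  have h3 : 1 ≤ Real.log N := (le_max_left _ _).trans h2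
  have h4 : 8 * C / ε ≤ Real.log N := (le_max_right _ _).trans h2
  rw [div_le_iff₀ hε] at h4
  rw [dist_zero_right, norm_div, Complex.norm_real, Real.norm_eq_abs, abs_of_pos (by linarith), div_lt_iff₀ (by linarith)]
  nlinarith

end Pool.Agent.Y326.Slf
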