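import Pool.Agent.Y326.Slf7

/-!
# Joint patterns of the phase
-/

set_option autoImplicit false

namespace Pool.Agent.Y326.Slf

open Finset Filter MeasureTheory UnitAddTorus
open Pool.Agent.TH112.BL Pool.Agent.TH928.BLJ
open Pool.Agent.Y326.Slw
open Pool.Agent.TH833.BL (S H)

/-- small exponents: the phase is slow -/
theorem rp_of_as {Ψ : ℕ → ℝ → ℝ} {γ β : ℝ} (h : AS Ψ γ β) (h0 : 0 < γ) (h1 : γ < 1) (hβ : β ≠ 0) (hi : Ind γ) :
    RP (Ψ 0) D1 := by
  classical
  refine ⟨fun n => by unfold D1; split_ifs <;> positivity, ?_, fun P hP κ hκ => ?_⟩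
  · have h3 : Tendsto (fun n : ℕ => 3 / (n : ℝ)) atTop (nhds 0) :=
      Tendsto.div_atTop tendsto_const_nhds tendsto_natCast_atTop_atTop
    refine h3.congr' ?_
    filter_upwards [eventually_gt_atTop 0] with n hn
    unfold D1
    rw [if_neg (by omega)]
  · set Ω : ℕ → ℝ → ℝ := fun d x => ∑ p ∈ P, κ p * ((1 / (p : ℝ)) ^ d * Ψ d (1 / (p : ℝ) * x + 0)) with hΩ
    have hΩas : AS Ω γ (∑ p ∈ P, κ p * (β * (1 / (p : ℝ)) ^ γ)) :=
      AS.sum P fun p hp => (h.affine (one_div_pos.2 (by exact_mod_cast (hP p hp).pos : (0 : ℝ) < p)) 0).smul _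
    have hK : ∑ p ∈ P, (κ p : ℝ) * (β * (1 / (p : ℝ)) ^ γ) ≠ 0 := by
      have e : ∑ p ∈ P, (κ p : ℝ) * (β * (1 / (p : ℝ)) ^ γ) = β * ∑ p ∈ P, κ p * (p : ℝ) ^ (-γ) := by
        rw [mul_sum]
        refine sum_congr rfl fun p hp => ?_
        have hp0 : (0 : ℝ) < p := by exact_mod_cast (hP p hp).pos
        rw [Real.rpow_neg hp0.le, one_div, Real.inv_rpow hp0.le]
        ring
      rw [e]
      exact mul_ne_zero hβ (hi P hP κ hκ)
    set K := ∑ p ∈ P, (κ p : ℝ) * (β * (1 / (p : ℝ)) ^ γ) with hKd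
    obtain ⟨x₀, hsm⟩ := hΩas.sm h0 h1 hK
    have a1 : Tendsto (fun x : ℝ => x * Ω 1 x / x ^ γ) atTop (nhds (K * γ)) := by
      have h2 := hΩas.asy 1
      rw [ff_succ, ff_zero, mul_one] at h2
      refine h2.congr' ?_
      filter_upwards [eventually_gt_atTop 0] with x hx
      rw [Nat.cast_one, Real.rpow_sub_one hx.ne']
      have := (Real.rpow_pos_of_pos hx γ).ne'
      field_simp
    have hne : K * γ ≠ 0 := mul_ne_zero hK h0.ne'
    have a2 : Tendsto (fun x : ℝ => 1 / (x * Ω 1 x)) atTop (nhds 0) := by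
      have h3 := (a1.inv₀ hne).mul (tendsto_rpow_neg_atTop h0)
      rw [mul_zero] at h3
      refine h3.congr' ?_
      filter_upwards [eventually_gt_atTop 0] with x hx
      rw [Real.rpow_neg hx.le]
      have := (Real.rpow_pos_of_pos hx γ).ne'
      rw [inv_div]
      field_simp
    refine ⟨fun x => x * Ω 1 x, fun x => x * (Ω 1 x + x * Ω 2 x), x₀, ?_, ?_, ?_⟩
    · have e : (fun x => ∑ p ∈ P, (κ p : ℝ) * Ψ 0 (x / p)) = Ω 0 := by
        funext x
        rw [hΩ]
        refine sum_congr rfl fun p _ => ?_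
        simp only [pow_zero, one_mul, add_zero]
        congr 2
        ring
      rw [e]
      exact hsm
    · intro q hq
      have hq0 : (0 : ℝ) < q := by exact_mod_cast hq
      have h3 : Tendsto (fun n : ℕ => |1 / (((n : ℝ) + 1) * Ω 1 ((n : ℝ) + 1))|) atTop (nhds 0) := by
        have h4 : Tendsto (fun n : ℕ => (n : ℝ) + 1) atTop atTop :=
          tendsto_atTop_add_const_right _ 1 tendsto_natCast_atTop_atTop
        have h5 := (a2.comp h4).abs
        rw [abs_zero] at h5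
        exact h5
      have h4 := h3.const_mul (6 * (q : ℝ))
      rw [mul_zero] at h4
      refine squeeze_zero' (Eventually.of_forall fun n => ?_) ?_ h4
      · have : 0 ≤ D1 (n / q) := by unfold D1; split_ifs <;> positivity
        positivity
      · filter_upwards [eventually_ge_atTop q] with n hn
        have h5 : 1 ≤ n / q := (Nat.one_le_div_iff (by omega)).2 hn
        have h6 : n + 1 ≤ q * (n / q) + q := by
          have := Nat.div_add_mod n q
          have := Nat.mod_lt n (by omega : 0 < q)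
          omega
        have h7 : (n : ℝ) + 1 ≤ q * ((n / q : ℕ) : ℝ) + q := by exact_mod_cast h6
        have h8 : (1 : ℝ) ≤ ((n / q : ℕ) : ℝ) := by exact_mod_cast h5
        have h9 : D1 (n / q) * ((n : ℝ) + 1) ≤ 6 * q := by
          unfold D1
          rw [if_neg (by omega), div_mul_eq_mul_div, div_le_iff₀ (by linarith)]
          nlinarith
        have h10 : D1 (n / q) * (((n : ℝ) + 1) / |((n : ℝ) + 1) * Ω 1 ((n : ℝ) + 1)|) =
            D1 (n / q) * ((n : ℝ) + 1) * |1 / (((n : ℝ) + 1) * Ω 1 ((n : ℝ) + 1))| := by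
          rw [abs_div, abs_one]
          ring
        rw [h10]
        exact mul_le_mul_of_nonneg_right h9 (abs_nonneg _)
    · filter_upwards [a2.eventually (Metric.ball_mem_nhds 0 one_pos)] with x hx
      rw [dist_zero_right, Real.norm_eq_abs] at hx
      exact hx.le

/-- the iterated differences of the derivatives -/
lemma DF_fwd' (j : ℕ) : ∀ (F : ℕ → ℝ → ℝ) (d : ℕ), (DF^[j] F) d = (fwdDiff (1 : ℝ))^[j] (F d) := by
  induction j with
  | zero => intro F d; rfl
  | succ j ih =>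
    intro F d
    rw [Function.iterate_succ_apply, Function.iterate_succ_apply, ih]
    rfl

/-- the coefficients in the binomial basis -/
def bc (K : ℕ) (l : ℕ → ℤ) (j : ℕ) : ℤ := ∑ i ∈ range K, l i * (i.choose j : ℤ)

lemma bc_eq (K : ℕ) (l : ℕ → ℤ) (F : ℕ → ℝ → ℝ) (d : ℕ) (x : ℝ) :
    ∑ i ∈ range K, (l i : ℝ) * F d (x + i) = ∑ j ∈ range K, (bc K l j : ℝ) * (DF^[j] F) d x := by
  have e : ∀ i ∈ range K, F d (x + i) = ∑ j ∈ range K, (i.choose j : ℝ) * (DF^[j] F) d x := by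
    intro i hi
    rw [mem_range] at hi
    have h1 := shift_eq_sum_fwdDiff_iter (h := (1 : ℝ)) (F d) i x
    rw [nsmul_eq_mul, mul_one] at h1
    rw [h1]
    have h2 : range (i + 1) ⊆ range K := range_subset_range.2 (by omega)
    rw [← sum_subset h2]
    · refine sum_congr rfl fun j _ => ?_
      rw [nsmul_eq_mul, DF_fwd']
    · intro j _ hj
      rw [mem_range, not_lt] at hj
      rw [Nat.choose_eq_zero_of_lt (by omega)]
      simp
  rw [sum_congr rfl fun i hi => by rw [e i hi]]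
  simp only [mul_sum]
  rw [sum_comm]
  refine sum_congr rfl fun j _ => ?_
  unfold bc
  push_cast
  rw [sum_mul]
  refine sum_congr rfl fun i _ => ?_
  ring

lemma bc_ne (K : ℕ) (l : ℕ → ℤ) (hl : ∃ i < K, l i ≠ 0) : ∃ j < K, bc K l j ≠ 0 := by
  classical
  -- the largest index
  set T := (range K).filter (fun i => l i ≠ 0) with hT
  have hTn : T.Nonempty := by
    obtain ⟨i, hi, hne⟩ := hl
    exact ⟨i, by rw [hT, mem_filter, mem_range]; exact ⟨hi, hne⟩⟩
  set i₀ := T.max' hTn with hi₀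
  have h1 : i₀ ∈ T := T.max'_mem hTn
  rw [hT, mem_filter, mem_range] at h1
  refine ⟨i₀, h1.1, ?_⟩
  unfold bc
  rw [sum_eq_single i₀]
  · rw [Nat.choose_self]
    simpa using h1.2
  · intro i hi hne
    rw [mem_range] at hi
    rcases Nat.lt_or_gt_of_ne hne with h2 | h2
    · rw [Nat.choose_eq_zero_of_lt h2]
      simp
    · have h3 : l i = 0 := by
        by_contra hne2
        have := T.le_max' i (by rw [hT, mem_filter, mem_range]; exact ⟨hi, hne2⟩)
        omega
      rw [h3, zero_mul]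
  · intro h2
    exact absurd (mem_range.2 h1.1) h2

/-- integer combinations of shifts -/
theorem as_comb {Φ : ℕ → ℝ → ℝ} {γ α : ℝ} (h : AS Φ γ α) {k : ℕ} (h1 : (k : ℝ) < γ) (h2 : γ < k + 1) (hα : α ≠ 0)
    (K : ℕ) (l : ℕ → ℤ) (hl : ∃ i < K, l i ≠ 0) :
    ∃ j₀ < K, ∃ β : ℝ, β ≠ 0 ∧ AS (fun d x => ∑ i ∈ range K, (l i : ℝ) * Φ d (x + i)) (γ - j₀) β := by
  classical
  have hex : ∃ j, j < K ∧ bc K l j ≠ 0 := by
    obtain ⟨j, hj, hne⟩ := bc_ne K l hl
    exact ⟨j, hj, hne⟩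
  set j₀ := Nat.find hex with hj₀
  obtain ⟨hj1, hj2⟩ := Nat.find_spec hex
  have hmin : ∀ j < j₀, bc K l j = 0 := by
    intro j hj
    by_contra hne
    exact Nat.find_min hex hj ⟨by omega, hne⟩
  have e : (fun (d : ℕ) (x : ℝ) => ∑ i ∈ range K, (l i : ℝ) * Φ d (x + i)) =
      fun d x => ∑ j ∈ range K, (bc K l j : ℝ) * (DF^[j] Φ) d x := by
    funext d x
    exact bc_eq K l Φ d x
  refine ⟨j₀, hj1, (bc K l j₀ : ℝ) * (α * ff γ j₀), mul_ne_zero (by exact_mod_cast hj2) (mul_ne_zero hα (ff_ne h1 h2 j₀)), ?_⟩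
  rw [e]
  have hT : ∀ j ∈ range K, AS (fun d x => (bc K l j : ℝ) * (DF^[j] Φ) d x) (γ - j₀)
      (if j = j₀ then (bc K l j₀ : ℝ) * (α * ff γ j₀) else 0) := by
    intro j _
    rcases lt_trichotomy j j₀ with hj | hj | hj
    · have e : (fun (d : ℕ) (x : ℝ) => (bc K l j : ℝ) * (DF^[j] Φ) d x) = fun _ _ => 0 := by
        funext d x
        rw [hmin j hj, Int.cast_zero, zero_mul]
      rw [e, if_neg (by omega)]
      exact AS.zero _
    · subst hj
      rw [if_pos rfl]
      exact (h.iter _).smul _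
    · rw [if_neg (by omega)]
      have hjr : (j₀ : ℝ) < j := by exact_mod_cast hj
      exact ((h.iter j).smul _).lower (by linarith)
  have h3 := AS.sum (range K) hT
  rw [sum_ite_eq', if_pos (mem_range.2 hj1)] at h3
  exact h3

section

variable {Fl : Filter (ℕ × ℕ)} {Φ : ℕ → ℝ → ℝ} {γ α : ℝ} {k m : ℕ} {f : Fin m → ℕ → ℂ} {a : Fin m → ℕ}
  {b : Fin m → ℤ} {P₀ : ℕ}

/-- the combination of the shifts -/
noncomputable def cmb (K : ℕ) (l : ℕ → ℤ) (φ : ℝ → ℝ) (x : ℝ) : ℝ := ∑ i ∈ range K, (l i : ℝ) * φ (x + i)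

/-- full averages, `k + 1` consecutive values of the phase -/
theorem zz_full (hF : Tendsto (fun x : ℕ × ℕ => H x.2 - H x.1) Fl atTop) (h : AS Φ γ α) (h1 : (k : ℝ) < γ)
    (h2 : γ < k + 1) (hα : α ≠ 0) (hi : ∀ j ≤ k, Ind (γ - j)) (hf : MF f a P₀) (l : ℕ → ℤ) (hl : ∃ i < k + 1, l i ≠ 0) :
    ZZ Fl (av IF (fun n => prd f a b n * ex (cmb (k + 1) l (Φ 0) n))) := by
  obtain ⟨j₀, hj, β, hβ, has⟩ := as_comb h h1 h2 hα (k + 1) l hl
  have hj' : j₀ ≤ k := by omega
  have hkj : ((k - j₀ : ℕ) : ℝ) = k - j₀ := by rw [Nat.cast_sub hj']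
  have e : cmb (k + 1) l (Φ 0) = (fun (d : ℕ) (x : ℝ) => ∑ i ∈ range (k + 1), (l i : ℝ) * Φ d (x + i)) 0 := rfl
  rcases Nat.lt_or_ge j₀ k with hlt | hge
  · have hA : FA (fun (d : ℕ) (x : ℝ) => ∑ i ∈ range (k + 1), (l i : ℝ) * Φ d (x + i)) (γ - j₀) β (k - j₀) :=
      ⟨by omega, by rw [hkj]; linarith, by rw [hkj]; linarith, hi j₀ hj', hβ, has⟩
    have h3 := gf_full hF hA m f a b P₀ hf 1 one_ne_zero
    rw [e]
    simpa using h3
  · have hjk : j₀ = k := by omega
    subst hjk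
    have h3 := rp_of_as has (by linarith) (by linarith) hβ (hi j₀ le_rfl)
    have hG : ∀ n, ‖prd f a b n * ex (cmb (j₀ + 1) l (Φ 0) n)‖ ≤ 1 := fun n => by
      rw [norm_mul, norm_ex, mul_one]
      exact norm_prod_le hf n
    have h4 := ker_full hG
    have h5 : (av IF (fun n => prd f a b n * ex (cmb (j₀ + 1) l (Φ 0) n))) =
        fun x => CS (fun n => prd f a b n * ex (cmb (j₀ + 1) l (Φ 0) n)) x / (x : ℂ) := by
      funext x
      exact av_IF _ x
    rw [← h5] at h4
    exact abs_zero' hF h3 hf (fun x => (av_le IF (u := fun _ => 1) hG x).trans (av_const _ zero_le_one x)) h4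

/-- short averages, `k` consecutive values of the phase -/
theorem zz_short (hF : Tendsto (fun x : ℕ × ℕ => H x.2 - H x.1) Fl atTop) (h : AS Φ γ α) (h1 : (k : ℝ) < γ)
    (h2 : γ < k + 1) (hα : α ≠ 0) (hi : ∀ j ≤ k, Ind (γ - j)) {hh : ℕ → ℕ} (hL : Len hh) (hlim : Tendsto hh atTop atTop)
    (hf : MF f a P₀) (l : ℕ → ℤ) (hl : ∃ i < k, l i ≠ 0) :
    ZZ Fl (av (IS hh) (fun n => prd f a b n * ex (cmb k l (Φ 0) n))) := by
  obtain ⟨j₀, hj, β, hβ, has⟩ := as_comb h h1 h2 hα k l hl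
  have hkj : ((k - j₀ : ℕ) : ℝ) = k - j₀ := by rw [Nat.cast_sub hj.le]
  have e : cmb k l (Φ 0) = (fun (d : ℕ) (x : ℝ) => ∑ i ∈ range k, (l i : ℝ) * Φ d (x + i)) 0 := rfl
  have hA : FA (fun (d : ℕ) (x : ℝ) => ∑ i ∈ range k, (l i : ℝ) * Φ d (x + i)) (γ - j₀) β (k - j₀) :=
    ⟨by omega, by rw [hkj]; linarith, by rw [hkj]; linarith, hi j₀ hj.le, hβ, has⟩
  have h3 := gf_short hF hA hL hlim m f a b P₀ hf 1 one_ne_zero
  rw [e]
  simpa using h3

/-- the pattern of the phase -/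
noncomputable def pat (K : ℕ) (φ : ℝ → ℝ) (n : ℕ) : UnitAddTorus (Fin K) :=
  fun i => ((φ ((n : ℝ) + (i : ℕ)) : ℝ) : UnitAddCircle)

/-- from characters to continuous functions -/
theorem zz_cont (hF : Tendsto (fun x : ℕ × ℕ => H x.2 - H x.1) Fl atTop) {I : ℕ → Finset ℕ} {K : ℕ} {φ : ℝ → ℝ}
    (hf : MF f a P₀)
    (h : ∀ l : ℕ → ℤ, (∃ i < K, l i ≠ 0) → ZZ Fl (av I (fun n => prd f a b n * ex (cmb K l φ n))))
    (G : C(UnitAddTorus (Fin K), ℂ)) : ZZ Fl (av I (fun n => prd f a b n * (G (pat K φ n) - ∫ x, G x))) := by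
  classical
  apply ZZ_of hF
  intro τ hτ
  obtain ⟨s, c, hsc⟩ := exists_trig' G (τ / 2) (by positivity)
  have hG : Integrable (fun x => G x) (volume : Measure (UnitAddTorus (Fin K))) :=
    G.continuous.integrable_of_hasCompactSupport (HasCompactSupport.of_compactSpace _)
  have hint : ∀ l : Fin K → ℤ, Integrable (fun x => c l * mFourier l x) (volume : Measure (UnitAddTorus (Fin K))) := by
    intro l
    exact ((continuous_const.mul (mFourier l).continuous).integrable_of_hasCompactSupport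
      (HasCompactSupport.of_compactSpace _))
  have h2 : (∫ x : UnitAddTorus (Fin K), ∑ l ∈ s, c l * mFourier l x) = ∑ l ∈ s, c l * (if l = 0 then 1 else 0) := by
    rw [integral_finsetSum s fun l _ => hint l]
    refine sum_congr rfl fun l _ => ?_
    rw [integral_const_mul, integral_mF]
  have h3 : ‖(∫ x, G x) - ∫ x : UnitAddTorus (Fin K), ∑ l ∈ s, c l * mFourier l x‖ ≤ τ / 2 := by
    rw [← integral_sub hG (integrable_finsetSum s fun l _ => hint l)]
    refine (norm_integral_le_of_norm_le_const (Eventually.of_forall hsc)).trans ?_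
    rw [probReal_univ, mul_one]
  set s' := s.filter (fun l => l ≠ 0) with hs'
  have e0 : ∀ x : UnitAddTorus (Fin K), (∑ l ∈ s, c l * mFourier l x) - (∑ l ∈ s, c l * (if l = 0 then 1 else 0)) =
      ∑ l ∈ s', c l * mFourier l x := by
    intro x
    rw [← sum_sub_distrib, hs', sum_filter]
    refine sum_congr rfl fun l _ => ?_
    by_cases hl : l = 0
    · subst hl
      rw [mFourier_zero]
      simp
    · rw [if_neg hl, if_pos hl]
      ring
  set ext : (Fin K → ℤ) → ℕ → ℤ := fun l i => if hi : i < K then l ⟨i, hi⟩ else 0 with hext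
  have hextne : ∀ l : Fin K → ℤ, l ≠ 0 → ∃ i < K, ext l i ≠ 0 := by
    intro l hl
    obtain ⟨i, hi⟩ := Function.ne_iff.1 hl
    refine ⟨i, i.2, ?_⟩
    rw [hext]
    simp only [i.2, dif_pos]
    exact hi
  have hmF : ∀ (l : Fin K → ℤ) (n : ℕ), (mFourier l (pat K φ n) : ℂ) = ex (cmb K (ext l) φ n) := by
    intro l n
    show (∏ i, (fourier (l i) (pat K φ n i) : ℂ)) = _
    unfold cmb
    rw [ex_sum, ← Fin.prod_univ_eq_prod_range (fun i => ex ((ext l i : ℝ) * φ ((n : ℝ) + i))) K]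
    refine prod_congr rfl fun i _ => ?_
    unfold pat
    rw [four_coe, hext]
    simp only [i.2, dif_pos]
  refine ⟨Fin K → ℤ, s', fun l => ‖c l‖, fun l => av I (fun n => prd f a b n * ex (cmb K (ext l) φ n)), fun l hl => ?_, fun x => ?_⟩
  · exact h (ext l) (hextne l (mem_filter.1 hl).2)
  · have e1 : av I (fun n => prd f a b n * (G (pat K φ n) - ∫ x, G x)) x =
        ∑ l ∈ s', c l * av I (fun n => prd f a b n * ex (cmb K (ext l) φ n)) x +
        av I (fun n => prd f a b n * ((G (pat K φ n) - ∑ l ∈ s, c l * mFourier l (pat K φ n)) -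
          ((∫ x, G x) - ∫ x : UnitAddTorus (Fin K), ∑ l ∈ s, c l * mFourier l x))) x := by
      simp only [← av_smul]
      rw [← av_sum, ← av_add]
      congr 1
      funext n
      have e2 : ∑ l ∈ s', c l * (prd f a b n * ex (cmb K (ext l) φ n)) =
          prd f a b n * ((∑ l ∈ s, c l * mFourier l (pat K φ n)) - ∫ x : UnitAddTorus (Fin K), ∑ l ∈ s, c l * mFourier l x) := by
        rw [h2, e0, mul_sum]
        refine sum_congr rfl fun l _ => ?_
        rw [hmF]
        ring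
      rw [e2]
      ring
    rw [e1]
    refine (norm_add_le _ _).trans (add_le_add ((norm_sum_le _ _).trans (le_of_eq ?_)) ?_)
    · exact sum_congr rfl fun l _ => norm_mul _ _
    · refine (av_le I (u := fun _ => τ) (fun n => ?_) x).trans (av_const I hτ.le x)
      rw [norm_mul]
      refine (mul_le_of_le_one_left (norm_nonneg _) (norm_prod_le hf n)).trans ((norm_sub_le _ _).trans ?_)
      linarith [hsc (pat K φ n)]

end

end Pool.Agent.Y326.Slf
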