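import Pool.Agent.Y326.Slw9

/-!
# Slow phases: independence of the numbers `p ^ (-c)`
-/

set_option autoImplicit false

namespace Pool.Agent.Y326.Slw

open Finset Filter Polynomial

noncomputable section

/-! ## all but countably many exponents -/

lemma zeros_countable (P : Finset ℕ) (hP : ∀ p ∈ P, p.Prime) (κ : ℕ → ℤ) (hκ : ∃ p ∈ P, κ p ≠ 0) :
    {c : ℝ | ∑ p ∈ P, κ p * (p : ℝ) ^ (-c) = 0}.Countable := by
  classical
  set g : ℝ → ℝ := fun c => ∑ p ∈ P, κ p * (p : ℝ) ^ (-c) with hg
  have hpos : ∀ p ∈ P, (0 : ℝ) < p := fun p hp => by exact_mod_cast (hP p hp).pos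
  have han : AnalyticOnNhd ℝ g Set.univ := by
    intro c _
    have e : g = fun c : ℝ => ∑ p ∈ P, (κ p : ℝ) * Real.exp (Real.log p * (-c)) := by
      funext c
      refine sum_congr rfl fun p hp => ?_
      rw [Real.rpow_def_of_pos (hpos p hp)]
    rw [e]
    apply Finset.analyticAt_fun_sum
    intro p _
    exact analyticAt_const.mul (analyticAt_rexp.comp (analyticAt_const.mul analyticAt_id.neg))
  have hne : g ≠ fun _ => 0 := by
    intro h0
    obtain ⟨q, hq, hqn⟩ := hκ
    have h1 : ∀ n : ℕ, ∑ p ∈ P, κ p * (p : ℝ) ^ n = 0 := by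
      intro n
      have h2 := congrFun h0 (-(n : ℝ))
      simp only [hg, neg_neg, Real.rpow_natCast] at h2
      exact h2
    have h2 : ∀ Q : ℝ[X], ∑ p ∈ P, κ p * Q.eval (p : ℝ) = 0 := by
      intro Q
      simp only [Polynomial.eval_eq_sum_range, mul_sum]
      rw [sum_comm]
      refine sum_eq_zero fun n _ => ?_
      have e : ∑ p ∈ P, (κ p : ℝ) * (Q.coeff n * (p : ℝ) ^ n) = Q.coeff n * ∑ p ∈ P, κ p * (p : ℝ) ^ n := by
        rw [mul_sum]
        refine sum_congr rfl fun p _ => ?_
        ring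
      rw [e, h1, mul_zero]
    have h3 := h2 (∏ r ∈ P.erase q, (X - C (r : ℝ)))
    rw [sum_eq_single_of_mem q hq] at h3
    · rw [Polynomial.eval_prod] at h3
      rcases mul_eq_zero.1 h3 with h4 | h4
      · exact hqn (by exact_mod_cast h4)
      · obtain ⟨r, hr, hr0⟩ := prod_eq_zero_iff.1 h4
        rw [Polynomial.eval_sub, Polynomial.eval_X, Polynomial.eval_C, sub_eq_zero] at hr0
        exact (mem_erase.1 hr).1 (by exact_mod_cast hr0.symm)
    · intro p hp hpq
      rw [Polynomial.eval_prod, prod_eq_zero (mem_erase.2 ⟨hpq, hp⟩), mul_zero]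
      simp
  have hdis : DiscreteTopology {c : ℝ | g c = 0} := by
    rw [discreteTopology_subtype_iff]
    intro z _
    rcases (han z (Set.mem_univ z)).eventually_eq_zero_or_eventually_ne_zero with h1 | h1
    · exfalso
      apply hne
      have h2 : ∃ᶠ w in nhdsWithin z {z}ᶜ, g w = (fun _ => (0 : ℝ)) w := by
        apply Filter.Eventually.frequently
        exact h1.filter_mono nhdsWithin_le_nhds
      exact han.eq_of_frequently_eq analyticOnNhd_const h2
    · refine _root_.disjoint_iff.1 (Filter.disjoint_principal_right.2 ?_)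
      filter_upwards [h1] with w hw
      exact hw
  have hc : Countable {c : ℝ | g c = 0} := countable_of_Lindelof_of_discrete
  exact Set.countable_coe_iff.1 hc

theorem ind_countable : {c : ℝ | ¬ Ind c}.Countable := by
  classical
  set J := Σ P : Finset ℕ, ({p // p ∈ P} → ℤ)
  set ext : J → ℕ → ℤ := fun j p => if hp : p ∈ j.1 then j.2 ⟨p, hp⟩ else 0 with hext
  set Z : J → Set ℝ := fun j => if (∀ p ∈ j.1, p.Prime) ∧ ∃ p ∈ j.1, ext j p ≠ 0 then
    {c : ℝ | ∑ p ∈ j.1, ext j p * (p : ℝ) ^ (-c) = 0} else ∅ with hZ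
  have h1 : (⋃ j, Z j).Countable := by
    apply Set.countable_iUnion
    intro j
    rw [hZ]
    dsimp only
    split_ifs with h
    · exact zeros_countable _ h.1 _ h.2
    · exact Set.countable_empty
  refine h1.mono fun c hc => ?_
  rw [Set.mem_setOf_eq] at hc
  unfold Ind at hc
  push Not at hc
  obtain ⟨P, hP, κ, ⟨q, hq, hqn⟩, h0⟩ := hc
  rw [Set.mem_iUnion]
  refine ⟨⟨P, fun p => κ p⟩, ?_⟩
  have e : ∀ p ∈ P, ext ⟨P, fun p => κ p⟩ p = κ p := by
    intro p hp
    rw [hext]
    simp only [hp, dif_pos]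
  rw [hZ]
  dsimp only
  rw [if_pos ⟨hP, q, hq, by rw [e q hq]; exact hqn⟩, Set.mem_setOf_eq, ← h0]
  refine sum_congr rfl fun p hp => ?_
  rw [e p hp]

/-! ## rational exponents -/

/-- the trace of an irrational radical -/
lemma rad_trace (K : IntermediateField ℚ ℝ) [FiniteDimensional ℚ K] (y : K) (b : ℕ) (hb : 2 ≤ b) (hy0 : (0 : ℝ) < (y : ℝ))
    (r : ℚ) (hr : (y : ℝ) ^ b = r) (hmin : ∀ n : ℕ, 1 ≤ n → n < b → ∀ s : ℚ, (y : ℝ) ^ n ≠ s) : Algebra.trace ℚ K y = 0 := by
  rw [trace_eq_finrank_mul_minpoly_nextCoeff]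
  have hint : IsIntegral ℚ y := Algebra.IsIntegral.isIntegral y
  set m := minpoly ℚ y with hm
  have hmonic : m.Monic := minpoly.monic hint
  have hroot : Polynomial.aeval (y : ℝ) m = 0 := by
    have h1 : Polynomial.aeval y m = 0 := minpoly.aeval ℚ y
    have h2 := congrArg (algebraMap K ℝ) h1
    rw [← Polynomial.aeval_algebraMap_apply, map_zero] at h2
    exact h2
  have hdvd : m ∣ (X ^ b - C r : ℚ[X]) := by
    apply minpoly.dvd
    rw [map_sub, map_pow, Polynomial.aeval_X, Polynomial.aeval_C]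
    apply (algebraMap K ℝ).injective
    rw [map_sub, map_pow, map_zero]
    show (y : ℝ) ^ b - algebraMap K ℝ (algebraMap ℚ K r) = 0
    rw [hr, ← IsScalarTower.algebraMap_apply]
    simp
  have hr0 : (0 : ℝ) < r := by rw [← hr]; positivity
  have hdeg : m.natDegree = b := by
    apply le_antisymm
    · have h1 := Polynomial.natDegree_le_of_dvd hdvd (Polynomial.X_pow_sub_C_ne_zero (by omega) r)
      rwa [Polynomial.natDegree_X_pow_sub_C] at h1
    · by_contra hlt
      push Not at hlt
      have hd1 : 1 ≤ m.natDegree := minpoly.natDegree_pos hint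
      -- all complex roots have the same modulus
      have hsplit : (m.map (algebraMap ℚ ℂ)).Splits := IsAlgClosed.splits _
      have hmm : (m.map (algebraMap ℚ ℂ)).Monic := hmonic.map _
      have hnd : (m.map (algebraMap ℚ ℂ)).natDegree = m.natDegree := Polynomial.natDegree_map _
      have hcard := hsplit.natDegree_eq_card_roots
      have hprod := hsplit.coeff_zero_eq_prod_roots_of_monic hmm
      have habs : ∀ z ∈ (m.map (algebraMap ℚ ℂ)).roots, ‖z‖ = (y : ℝ) := by
        intro z hz
        have h1 : Polynomial.IsRoot (m.map (algebraMap ℚ ℂ)) z := Polynomial.isRoot_of_mem_roots hz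
        have h2 : Polynomial.IsRoot ((X ^ b - C r : ℚ[X]).map (algebraMap ℚ ℂ)) z :=
          h1.dvd (Polynomial.map_dvd _ hdvd)
        have h3 : z ^ b = (r : ℂ) := by
          have : (z ^ b - (r : ℂ)) = 0 := by
            have := h2
            simp only [Polynomial.IsRoot, Polynomial.map_sub, Polynomial.map_pow, Polynomial.map_X, Polynomial.map_C,
              Polynomial.eval_sub, Polynomial.eval_pow, Polynomial.eval_X, Polynomial.eval_C] at this
            simpa using this
          exact sub_eq_zero.1 this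
        have h4 : ‖z‖ ^ b = (y : ℝ) ^ b := by
          rw [← norm_pow, h3, hr]
          rw [show ((r : ℚ) : ℂ) = ((r : ℝ) : ℂ) by push_cast; rfl, Complex.norm_real, Real.norm_eq_abs, abs_of_pos hr0]
        exact (pow_left_inj₀ (norm_nonneg _) hy0.le (by omega)).1 h4
      have hnorm : ‖(m.map (algebraMap ℚ ℂ)).coeff 0‖ = (y : ℝ) ^ m.natDegree := by
        rw [hprod, norm_mul, norm_pow, norm_neg, norm_one, one_pow, one_mul]
        have h5 : ∀ S : Multiset ℂ, (∀ z ∈ S, ‖z‖ = (y : ℝ)) → ‖S.prod‖ = (y : ℝ) ^ (Multiset.card S) := by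
          intro S
          induction S using Multiset.induction_on with
          | empty => simp
          | cons a S ih =>
            intro h
            rw [Multiset.prod_cons, norm_mul, h a (Multiset.mem_cons_self a S), ih fun z hz => h z (Multiset.mem_cons_of_mem hz),
              Multiset.card_cons, pow_succ]
            ring
        rw [h5 _ habs, ← hcard, hnd]
      rw [Polynomial.coeff_map] at hnorm
      have h6 : ‖(algebraMap ℚ ℂ) (m.coeff 0)‖ = ((|m.coeff 0| : ℚ) : ℝ) := by
        rw [eq_ratCast, show ((m.coeff 0 : ℚ) : ℂ) = (((m.coeff 0 : ℚ) : ℝ) : ℂ) by push_cast; rfl, Complex.norm_real,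
          Real.norm_eq_abs, Rat.cast_abs]
      rw [h6] at hnorm
      exact hmin m.natDegree hd1 hlt _ hnorm.symm
  have hmeq : m = X ^ b - C r := by
    have h1 : (X ^ b - C r : ℚ[X]).Monic := Polynomial.monic_X_pow_sub_C r (by omega)
    refine (Polynomial.eq_of_monic_of_dvd_of_natDegree_le hmonic h1 hdvd ?_).symm
    rw [hdeg, Polynomial.natDegree_X_pow_sub_C]
  have hnext : m.nextCoeff = 0 := by
    rw [Polynomial.nextCoeff_of_natDegree_pos (by omega), hdeg, hmeq, Polynomial.coeff_sub, Polynomial.coeff_X_pow,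
      Polynomial.coeff_C, if_neg (by omega), if_neg (by omega), sub_zero]
  rw [hnext]
  simp

/-- independence for rational exponents which are not integers -/
theorem ind_rat (q : ℚ) (hq : q.den ≠ 1) : Ind (q : ℝ) := by
  classical
  intro P hP κ ⟨p₀, hp₀, hne⟩ h0
  set b := q.den with hb
  have hb2 : 2 ≤ b := by
    have := q.den_pos
    omega
  set x : ℕ → ℝ := fun p => (p : ℝ) ^ (-(q : ℝ)) with hx
  have hpos : ∀ p ∈ P, (0 : ℝ) < p := fun p hp => by exact_mod_cast (hP p hp).pos
  have hxp : ∀ p ∈ P, 0 < x p := fun p hp => Real.rpow_pos_of_pos (hpos p hp) _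
  have hqb : (q : ℝ) * b = q.num := by
    have := Rat.mul_den_eq_num q
    have h2 : ((q * q.den : ℚ) : ℝ) = ((q.num : ℚ) : ℝ) := by rw [this]
    push_cast at h2
    exact h2
  have hxb : ∀ p ∈ P, x p ^ b = ((p : ℚ) ^ (-q.num) : ℚ) := by
    intro p hp
    rw [hx]
    dsimp only
    rw [← Real.rpow_natCast, ← Real.rpow_mul (hpos p hp).le, neg_mul, hqb]
    push_cast
    rw [← Real.rpow_intCast]
    push_cast
    rfl
  set K : IntermediateField ℚ ℝ := IntermediateField.adjoin ℚ ((P.image x : Finset ℝ) : Set ℝ) with hK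
  have hint : ∀ p ∈ P, IsIntegral ℚ (x p) := by
    intro p hp
    refine ⟨X ^ b - C ((p : ℚ) ^ (-q.num)), Polynomial.monic_X_pow_sub_C _ (by omega), ?_⟩
    rw [Polynomial.eval₂_sub, Polynomial.eval₂_pow, Polynomial.eval₂_X, Polynomial.eval₂_C, hxb p hp]
    simp
  have : FiniteDimensional ℚ K := by
    apply IntermediateField.finiteDimensional_adjoin
    intro z hz
    rw [Finset.mem_coe, mem_image] at hz
    obtain ⟨p, hp, rfl⟩ := hz
    exact hint p hp
  have hmem : ∀ p ∈ P, x p ∈ K := fun p hp => IntermediateField.subset_adjoin ℚ _ (by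
    rw [Finset.mem_coe]; exact mem_image_of_mem x hp)
  set X' : ℕ → K := fun p => if hp : p ∈ P then ⟨x p, hmem p hp⟩ else 0 with hX'
  have hX'v : ∀ p ∈ P, ((X' p : K) : ℝ) = x p := by
    intro p hp
    rw [hX']
    simp only [hp, dif_pos]
  have hrel : ∑ p ∈ P, (κ p : ℚ) • (X' p / X' p₀) = 0 := by
    apply (algebraMap K ℝ).injective
    rw [map_sum, map_zero]
    have e : ∀ p ∈ P, algebraMap K ℝ ((κ p : ℚ) • (X' p / X' p₀)) = (κ p * x p) / x p₀ := by
      intro p hp
      rw [Algebra.smul_def, map_mul, map_div₀]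
      show algebraMap K ℝ (algebraMap ℚ K (κ p)) * (((X' p : K) : ℝ) / ((X' p₀ : K) : ℝ)) = _
      rw [hX'v p hp, hX'v p₀ hp₀, ← IsScalarTower.algebraMap_apply]
      simp
      ring
    rw [sum_congr rfl e, ← sum_div, h0, zero_div]
  have htr := congrArg (Algebra.trace ℚ K) hrel
  rw [map_sum, map_zero, sum_eq_single_of_mem p₀ hp₀] at htr
  · have h1 : X' p₀ / X' p₀ = 1 := by
      apply div_self
      intro hz
      have h9 := hX'v p₀ hp₀
      rw [hz] at h9
      exact (hxp p₀ hp₀).ne' (by simpa using h9.symm)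
    rw [h1, map_smul, ← map_one (algebraMap ℚ K), Algebra.trace_algebraMap] at htr
    have h2 : (Module.finrank ℚ K : ℚ) ≠ 0 := by
      have := Module.finrank_pos (R := ℚ) (M := K)
      exact_mod_cast this.ne'
    simp only [smul_eq_mul, nsmul_eq_mul, mul_one] at htr
    rcases mul_eq_zero.1 htr with h3 | h3
    · exact hne (by exact_mod_cast h3)
    · exact h2 h3
  · intro p hp hpp
    rw [map_smul]
    have hv : (((X' p / X' p₀ : K)) : ℝ) = x p / x p₀ := by
      show ((X' p : K) : ℝ) / ((X' p₀ : K) : ℝ) = _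
      rw [hX'v p hp, hX'v p₀ hp₀]
    have hz : Algebra.trace ℚ K (X' p / X' p₀) = 0 := by
      apply rad_trace K _ b hb2 (by rw [hv]; exact div_pos (hxp p hp) (hxp p₀ hp₀))
        ((p : ℚ) ^ (-q.num) / (p₀ : ℚ) ^ (-q.num))
      · rw [hv, div_pow, hxb p hp, hxb p₀ hp₀]
        push_cast
        rfl
      · intro n hn1 hnb s hs
        rw [hv] at hs
        have h1 : (s : ℝ) ^ b = (((p : ℚ) ^ (-q.num) / (p₀ : ℚ) ^ (-q.num)) ^ n : ℚ) := by
          rw [← hs, ← pow_mul, mul_comm n b, pow_mul, div_pow, hxb p hp, hxb p₀ hp₀]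
          push_cast
          rfl
        have h2 : s ^ b = ((p : ℚ) ^ (-q.num) / (p₀ : ℚ) ^ (-q.num)) ^ n := by
          have : ((s ^ b : ℚ) : ℝ) = (((p : ℚ) ^ (-q.num) / (p₀ : ℚ) ^ (-q.num)) ^ n : ℚ) := by
            rw [← h1]; push_cast; rfl
          exact_mod_cast this
        have hpr := hP p hp
        have : Fact p.Prime := ⟨hpr⟩
        have hp0q : (p : ℚ) ≠ 0 := by exact_mod_cast hpr.ne_zero
        have hp0q' : (p₀ : ℚ) ≠ 0 := by exact_mod_cast (hP p₀ hp₀).ne_zero
        have hs0 : s ≠ 0 := by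
          intro h
          rw [h, zero_pow (by omega)] at h2
          exact pow_ne_zero n (div_ne_zero (zpow_ne_zero _ hp0q) (zpow_ne_zero _ hp0q')) h2.symm
        have h3 := congrArg (padicValRat p) h2
        rw [padicValRat.pow, padicValRat.pow,
          padicValRat.div (zpow_ne_zero _ hp0q) (zpow_ne_zero _ hp0q'), padicValRat.zpow, padicValRat.zpow,
          padicValRat.of_nat, padicValRat.of_nat, padicValNat_self,
          padicValNat.eq_zero_of_not_dvd (fun hd => hpp ((Nat.prime_dvd_prime_iff_eq hpr (hP p₀ hp₀)).1 hd))] at h3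
        have h4 : (b : ℤ) ∣ n * q.num := ⟨-(padicValRat p s), by
          push_cast at h3
          linarith⟩
        have h5 : IsCoprime (b : ℤ) q.num := by
          have := q.reduced
          rw [Nat.Coprime, ← Int.natAbs_natCast q.den, ← Int.gcd_eq_natAbs] at this
          exact (Int.isCoprime_iff_gcd_eq_one.2 this).symm
        have h6 : (b : ℤ) ∣ (n : ℤ) := h5.dvd_of_dvd_mul_right h4
        have h7 : b ∣ n := by exact_mod_cast h6
        exact absurd (Nat.le_of_dvd (by omega) h7) (by omega)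
    rw [hz, smul_zero]

end

end Pool.Agent.Y326.Slw
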