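import Pool.Agent.Y326.Slf8
import Pool.Agent.Y326.Slw10

/-!
# Fast phases: examples, the exceptional set, two-point correlations
-/

set_option autoImplicit false

namespace Pool.Agent.Y326.Slf

open Finset Filter MeasureTheory
open Pool.Agent.TH112.BL Pool.Agent.TH928.BLJ
open Pool.Agent.Y326.Slw
open Pool.Agent.TH833.BL (S H)

/-- powers -/
lemma as_rpow (β : ℝ) : AS (fun d x => ff β d * x ^ (β - d)) β 1 := by
  refine ⟨⟨1, fun d x hx => ?_⟩, fun d => ?_⟩
  · have hx0 : x ≠ 0 := by linarith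
    have h1 := (Real.hasDerivAt_rpow_const (p := β - d) (Or.inl hx0)).const_mul (ff β d)
    refine h1.congr_deriv ?_
    have e : ff β (d + 1) = ff β d * (β - d) := by
      unfold ff
      rw [prod_range_succ]
    rw [e]
    push_cast
    rw [show β - ((d : ℝ) + 1) = β - d - 1 by ring]
    ring
  · rw [one_mul]
    refine (tendsto_const_nhds (x := ff β d)).congr' ?_
    filter_upwards [eventually_gt_atTop 0] with x hx
    have := (Real.rpow_pos_of_pos hx (β - d)).ne'
    field_simp

/-- generalised polynomials -/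
lemma as_gpoly {ι : Type} [Fintype ι] [DecidableEq ι] (α β : ι → ℝ) (i₀ : ι) (hb : ∀ i, i ≠ i₀ → β i < β i₀) :
    AS (fun d x => ∑ i, α i * (ff (β i) d * x ^ (β i - d))) (β i₀) (α i₀) := by
  have h1 : ∀ i ∈ (univ : Finset ι), AS (fun (d : ℕ) (x : ℝ) => α i * (ff (β i) d * x ^ (β i - d))) (β i₀)
      (if i = i₀ then α i₀ else 0) := by
    intro i _
    by_cases hi : i = i₀
    · subst hi
      rw [if_pos rfl]
      have := (as_rpow (β i)).smul (α i)
      rwa [mul_one] at this
    · rw [if_neg hi]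
      exact ((as_rpow (β i)).smul (α i)).lower (hb i hi)
  have h2 := AS.sum univ h1
  rw [sum_ite_eq', if_pos (mem_univ i₀)] at h2
  exact h2

/-- the exceptional set -/
def EE : Set ℝ := {c : ℝ | (∀ n : ℤ, c ≠ n) ∧ ∃ j : ℕ, ¬ Ind (c - j)}

lemma ee_countable : EE.Countable := by
  have h1 : EE ⊆ ⋃ j : ℕ, (fun c : ℝ => c + j) '' {c : ℝ | ¬ Ind c} := by
    rintro c ⟨_, j, hj⟩
    rw [Set.mem_iUnion]
    exact ⟨j, c - j, hj, by ring⟩
  refine Set.Countable.mono h1 ?_
  exact Set.countable_iUnion fun j => ind_countable.image _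

lemma ee_rat (q : ℚ) : (q : ℝ) ∉ EE := by
  rintro ⟨h1, j, hj⟩
  apply hj
  have e : (q : ℝ) - j = ((q - j : ℚ) : ℝ) := by push_cast; rfl
  rw [e]
  apply ind_rat
  intro hden
  apply h1 ((q - j).num + j)
  have h5 : (q - j : ℚ) = (q - j).num := (Rat.coe_int_num_of_den_eq_one hden).symm
  have h6 : q = ((q - j).num : ℚ) + j := by rw [← h5]; ring
  have h7 : (q : ℝ) = (((q - j).num : ℚ) : ℝ) + j := by exact_mod_cast congrArg (fun x : ℚ => (x : ℝ)) h6
  rw [h7]
  push_cast
  rfl

lemma ee_ind {c : ℝ} {k : ℕ} (h1 : (k : ℝ) < c) (h2 : c < k + 1) (h : c ∉ EE) (j : ℕ) : Ind (c - j) := by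
  by_contra hne
  apply h
  refine ⟨fun n hn => ?_, j, hne⟩
  rw [hn] at h1 h2
  have h3 : (k : ℤ) < n := by exact_mod_cast h1
  have h4 : n < (k : ℤ) + 1 := by exact_mod_cast h2
  omega

/-- the two-point correlations of the Möbius function, with logarithmic averages -/
theorem lz_mumu (s t : ℤ) (hst : s ≠ t) :
    Tendsto (fun N : ℕ => (∑ n ∈ Icc 1 N, (((ArithmeticFunction.moebius (((n : ℤ) + s).toNat) : ℤ) : ℂ) *
      ((ArithmeticFunction.moebius (((n : ℤ) + t).toNat) : ℤ) : ℂ)) / (n : ℂ)) / ((Real.log N : ℝ) : ℂ)) atTop (nhds 0) := by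
  wlog hlt : s < t with H
  · have := H t s hst.symm (by omega)
    refine this.congr fun N => ?_
    congr 1
    exact sum_congr rfl fun n _ => by rw [mul_comm]
  have hb : ∀ m : ℕ, |((ArithmeticFunction.moebius m : ℤ) : ℝ)| ≤ 1 := fun m => by
    have := ArithmeticFunction.abs_moebius_le_one (n := m)
    exact_mod_cast this
  set u : ℕ → ℝ := fun n : ℕ => (ArithmeticFunction.moebius (((n : ℤ) + s).toNat) * ArithmeticFunction.moebius (((n : ℤ) + t).toNat) : ℝ) with hu
  have hub : ∀ n, |u n| ≤ 1 := by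
    intro n
    rw [hu]
    simp only [abs_mul]
    exact mul_le_one₀ (hb _) (abs_nonneg _) (hb _)
  have h0 : LZ (fun n => ((u n : ℝ) : ℂ)) := by
    rw [LZ_iff]
    constructor
    · by_contra hne
      obtain ⟨μ, h1, h2⟩ := win_exists F0_tendsto _ ⟨1, fun n => by
        show |((u n : ℝ) : ℂ).re| ≤ 1
        rw [Complex.ofReal_re]; exact hub n⟩ hne
      apply h1
      have := lm_mumu h2 s t hlt
      simpa using this
    · have e : (fun n : ℕ => (((u n : ℝ) : ℂ)).im) = fun _ => (0 : ℝ) := by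
        funext n
        exact Complex.ofReal_im _
      rw [e]
      have : wa (fun _ : ℕ => (0 : ℝ)) = fun _ => 0 := by
        funext x
        unfold wa S
        simp
      rw [this]
      exact tendsto_const_nhds
  unfold LZ at h0
  refine h0.congr fun N => ?_
  congr 1
  refine sum_congr rfl fun n _ => ?_
  rw [hu]
  push_cast
  rfl

end Pool.Agent.Y326.Slf
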