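import Pool.Agent.TH928.BL.J4547
import Pool.Agent.TH452.BL.J4546
import Pool.Agent.TH112.BL.Mean

/-!
# Entropy decrement with local variables which consist of the residue and of a slow variable
-/

set_option autoImplicit false

namespace Pool.Agent.Y326.Slw

open Finset Filter
open Pool.Agent.TH112.BL Pool.Agent.TH928.BLJ
open Pool.Agent.W78.EC (ent cE rsf)
open Pool.Agent.W212.EC (ent_mono ent_congr submod ce WW ent_eq WW_pos)

/-- the entropy does not see null sets -/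
lemma E_ae (μ : LM) {B : Type} (F G : ℕ → B) (h : μ.m (ind (fun n => F n ≠ G n)) = 0) : E μ F = E μ G := by
  unfold E
  congr 1
  funext x
  congr 1
  have h1 : ∀ n, |ind (fun n => F n = x) n - ind (fun n => G n = x) n| ≤ ind (fun n => F n ≠ G n) n := by
    intro n
    unfold ind
    beta_reduce
    by_cases hFG : F n = G n
    · rw [hFG, sub_self, abs_zero]
      split_ifs <;> norm_num
    · rw [if_pos hFG]
      split_ifs <;> norm_num
  have hb1 := Bd_ind (fun n => F n = x)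
  have hb2 := Bd_ind (fun n => G n = x)
  have hb3 : Bd (fun n => ind (fun n => F n = x) n - ind (fun n => G n = x) n) :=
    ⟨1, fun n => (h1 n).trans (by unfold ind; split_ifs <;> norm_num)⟩
  have h2 := μ.abs_le hb3
  have h3 := μ.mono hb3.abs (Bd_ind (fun n => F n ≠ G n)) h1
  rw [h] at h3
  rw [μ.sub hb1 hb2] at h2
  have h4 : |μ.m (ind (fun n => F n = x)) - μ.m (ind (fun n => G n = x))| ≤ 0 := h2.trans h3
  have h5 := abs_nonpos_iff.1 h4
  linarith

/-- uniform distribution gives the full entropy -/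
lemma E_unif (μ : LM) {B : Type} (F : ℕ → B) (hF : FR F) (W : ℝ)
    (h : ∀ n, μ.m (ind (fun k => F k = F n)) = 1 / W) : E μ F = Real.log W := by
  classical
  obtain ⟨s, w, h1, h2, h3, h4⟩ := rep μ F hF
  rw [h4 _ F (fun n m e => e)]
  have hWW : ∀ x : B, WW s w F x = μ.m (ind (fun n => F n = x)) := by
    intro x
    rw [h3 (ind (fun n => F n = x)) (fun n m e => by unfold ind; simp only [e])]
    unfold WW
    rw [sum_filter]
    refine sum_congr rfl fun n _ => ?_
    unfold ind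
    split_ifs <;> simp
  rw [ent_eq]
  have h5 : ∑ ω ∈ s, w ω * Real.log (WW s w F (F ω)) = ∑ ω ∈ s, w ω * (- Real.log W) := by
    refine sum_congr rfl fun ω _ => ?_
    rw [hWW, h ω, one_div, Real.log_inv]
  rw [h5, ← sum_mul, h2]
  ring

/-- the local variables of the primes in `P` -/
def Rv (y : ℕ → ℕ → ℕ) (P : Finset ℕ) (n : ℕ) : ℕ → ℕ := fun p => if p ∈ P then y p n else 0

lemma Rv_eq (y : ℕ → ℕ → ℕ) (P : Finset ℕ) (n m : ℕ) :
    Rv y P n = Rv y P m ↔ ∀ p ∈ P, y p n = y p m := by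
  unfold Rv
  constructor
  · intro h p hp
    have := congrFun h p
    simpa [hp] using this
  · intro h
    funext p
    by_cases hp : p ∈ P
    · simp [hp, h p hp]
    · simp [hp]

/-- the local variables: the residue and a slow variable with `D` values -/
structure Loc (μ : LM) (D : ℕ) (s : ℕ → ℕ → ℕ) : Prop where
  hD : 1 ≤ D
  lt : ∀ p n, s p n < D
  slow : ∀ p, p.Prime → μ.m (ind (fun n => s p (n + 1) ≠ s p n)) = 0
  unif : ∀ P : Finset ℕ, (∀ p ∈ P, p.Prime) → ∀ v : ℕ → ℕ, (∀ p ∈ P, v p < p * D) →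
    μ.m (ind (fun n => ∀ p ∈ P, D * (n % p) + s p n = v p)) = ∏ p ∈ P, (1 / ((p : ℝ) * D))

/-- the local variable -/
def yv (D : ℕ) (s : ℕ → ℕ → ℕ) (p n : ℕ) : ℕ := D * (n % p) + s p n

section

variable (μ : LM) (D : ℕ) (s : ℕ → ℕ → ℕ)

lemma yv_lt {μ : LM} {D : ℕ} {s : ℕ → ℕ → ℕ} (h : Loc μ D s) {p : ℕ} (hp : 1 ≤ p) (n : ℕ) : yv D s p n < p * D := by
  unfold yv
  have h1 := h.lt p n
  have h2 := Nat.mod_lt n hp
  calc D * (n % p) + s p n < D * (n % p) + D := by omega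
    _ = (n % p + 1) * D := by ring
    _ ≤ p * D := Nat.mul_le_mul_right D h2

lemma yv_div {μ : LM} {D : ℕ} {s : ℕ → ℕ → ℕ} (h : Loc μ D s) (p n : ℕ) : yv D s p n / D = n % p := by
  unfold yv
  rw [Nat.mul_add_div h.hD, Nat.div_eq_of_lt (h.lt p n), add_zero]

lemma yv_mod {μ : LM} {D : ℕ} {s : ℕ → ℕ → ℕ} (h : Loc μ D s) (p n : ℕ) : yv D s p n % D = s p n := by
  unfold yv
  rw [Nat.mul_add_mod, Nat.mod_eq_of_lt (h.lt p n)]

lemma yv_eq {μ : LM} {D : ℕ} {s : ℕ → ℕ → ℕ} (h : Loc μ D s) (p n m : ℕ) :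
    yv D s p n = yv D s p m ↔ n % p = m % p ∧ s p n = s p m := by
  constructor
  · intro e
    rw [← yv_div h p n, ← yv_div h p m, ← yv_mod h p n, ← yv_mod h p m, e]
    exact ⟨rfl, rfl⟩
  · rintro ⟨e1, e2⟩
    unfold yv
    rw [e1, e2]

lemma FR_Rv {μ : LM} {D : ℕ} {s : ℕ → ℕ → ℕ} (h : Loc μ D s) (P : Finset ℕ) (hP : ∀ p ∈ P, 1 ≤ p) :
    FR (Rv (yv D s) P) := by
  classical
  set B : ℕ := ∑ p ∈ P, p * D + 1 with hB
  have h1 : ∀ p ∈ P, p * D ≤ B := fun p hp => by
    have := single_le_sum (f := fun p => p * D) (fun _ _ => Nat.zero_le _) hp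
    omega
  refine (Set.finite_range (fun g : ({p // p ∈ P} → Fin B) => fun p : ℕ => if hp : p ∈ P then (g ⟨p, hp⟩ : ℕ) else 0)).subset ?_
  rintro _ ⟨n, rfl⟩
  refine ⟨fun p => ⟨yv D s p n, lt_of_lt_of_le (yv_lt h (hP p p.2) n) (h1 p p.2)⟩, ?_⟩
  funext p
  unfold Rv
  beta_reduce
  split_ifs <;> rfl

lemma slow_k {μ : LM} {D : ℕ} {s : ℕ → ℕ → ℕ} (h : Loc μ D s) {p : ℕ} (hp : p.Prime) (W : ℕ) :
    μ.m (ind (fun n => s p (n + W) ≠ s p n)) = 0 := by
  induction W with
  | zero =>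
    have e : ind (fun n => s p (n + 0) ≠ s p n) = fun _ => 0 := by
      funext n
      unfold ind
      rw [if_neg (by simp)]
    rw [e]; exact μ.zero
  | succ W ih =>
    have h1 : μ.m (ind (fun n => s p (n + W + 1) ≠ s p (n + W))) = 0 := by
      have := m_shift μ (ind (fun n => s p (n + 1) ≠ s p n)) (Bd_ind _) W
      rw [h.slow p hp] at this
      exact this
    have h2 : ∀ n, ind (fun n => s p (n + (W + 1)) ≠ s p n) n ≤
        ind (fun n => s p (n + W + 1) ≠ s p (n + W)) n + ind (fun n => s p (n + W) ≠ s p n) n := by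
      intro n
      unfold ind
      by_cases a : s p (n + W + 1) = s p (n + W)
      · by_cases b : s p (n + W) = s p n
        · have : s p (n + (W + 1)) = s p n := by rw [← add_assoc, a, b]
          rw [if_neg (not_not.2 this), if_neg (not_not.2 a), if_neg (not_not.2 b)]
          norm_num
        · rw [if_pos b]; split_ifs <;> norm_num
      · rw [if_pos a]; split_ifs <;> norm_num
    have h3 := μ.mono (Bd_ind _) ((Bd_ind _).add (Bd_ind _)) h2
    rw [μ.add _ _ (Bd_ind _) (Bd_ind _), h1, ih] at h3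
    have h4 := μ.nonneg _ (Bd_ind (fun n => s p (n + (W + 1)) ≠ s p n)) (ind_nonneg _)
    linarith

/-- the shifted residues with the slow variables unchanged -/
def Rt (D : ℕ) (s : ℕ → ℕ → ℕ) (P : Finset ℕ) (W n : ℕ) : ℕ → ℕ :=
  fun p => if p ∈ P then D * ((n + W) % p) + s p n else 0

lemma Rt_ae {μ : LM} {D : ℕ} {s : ℕ → ℕ → ℕ} (h : Loc μ D s) (P : Finset ℕ) (hP : ∀ p ∈ P, p.Prime) (W : ℕ) :
    μ.m (ind (fun n => Rt D s P W n ≠ Rv (yv D s) P (n + W))) = 0 := by
  classical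
  have h1 : ∀ n, ind (fun n => Rt D s P W n ≠ Rv (yv D s) P (n + W)) n ≤
      ∑ p ∈ P, ind (fun n => s p (n + W) ≠ s p n) n := by
    intro n
    by_cases a : ∀ p ∈ P, s p (n + W) = s p n
    · have : Rt D s P W n = Rv (yv D s) P (n + W) := by
        funext p
        unfold Rt Rv yv
        by_cases hp : p ∈ P
        · rw [if_pos hp, if_pos hp, a p hp]
        · rw [if_neg hp, if_neg hp]
      have e0 : ind (fun n => Rt D s P W n ≠ Rv (yv D s) P (n + W)) n = 0 := by
        unfold ind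
        rw [if_neg (not_not.2 this)]
      rw [e0]
      exact sum_nonneg fun p _ => ind_nonneg _ n
    · push Not at a
      obtain ⟨p, hp, hne⟩ := a
      have h2 : (1 : ℝ) ≤ ∑ p ∈ P, ind (fun n => s p (n + W) ≠ s p n) n := by
        have h3 := single_le_sum (f := fun p => ind (fun n => s p (n + W) ≠ s p n) n) (fun p _ => ind_nonneg _ n) hp
        refine le_trans ?_ h3
        show 1 ≤ ind (fun n => s p (n + W) ≠ s p n) n
        unfold ind
        rw [if_pos hne]
      refine le_trans ?_ h2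
      unfold ind; split_ifs <;> norm_num
  have h2 := μ.mono (Bd_ind _) (Bd.sum P fun p _ => Bd_ind (fun n => s p (n + W) ≠ s p n)) h1
  rw [μ.sum P (fun p _ => Bd_ind _), sum_eq_zero fun p hp => slow_k h (hP p hp) W] at h2
  have h3 := μ.nonneg _ (Bd_ind (fun n => Rt D s P W n ≠ Rv (yv D s) P (n + W))) (ind_nonneg _)
  linarith

lemma Rt_eq {μ : LM} {D : ℕ} {s : ℕ → ℕ → ℕ} (h : Loc μ D s) (P : Finset ℕ) (W n m : ℕ) :
    Rt D s P W n = Rt D s P W m ↔ Rv (yv D s) P n = Rv (yv D s) P m := by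
  have e : Rt D s P W n = Rt D s P W m ↔ ∀ p ∈ P, D * ((n + W) % p) + s p n = D * ((m + W) % p) + s p m := by
    unfold Rt
    constructor
    · intro h p hp
      have := congrFun h p
      simpa [hp] using this
    · intro h
      funext p
      by_cases hp : p ∈ P
      · simp [hp, h p hp]
      · simp [hp]
  rw [e, Rv_eq]
  refine forall_congr' fun p => forall_congr' fun hp => ?_
  rw [yv_eq h]
  have key : ∀ a b : ℕ, ∀ u v : ℕ, u < D → v < D → (D * a + u = D * b + v ↔ a = b ∧ u = v) := by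
    intro a b u v hu hv
    constructor
    · intro h'
      have h1 : (D * a + u) / D = (D * b + v) / D := by rw [h']
      have h2 : (D * a + u) % D = (D * b + v) % D := by rw [h']
      rw [Nat.mul_add_div h.hD, Nat.mul_add_div h.hD, Nat.div_eq_of_lt hu, Nat.div_eq_of_lt hv] at h1
      rw [Nat.mul_add_mod, Nat.mul_add_mod, Nat.mod_eq_of_lt hu, Nat.mod_eq_of_lt hv] at h2
      exact ⟨by omega, h2⟩
    · rintro ⟨rfl, rfl⟩; rfl
  rw [key _ _ _ _ (h.lt p n) (h.lt p m)]
  constructor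
  · rintro ⟨a, b⟩
    exact ⟨Nat.ModEq.add_right_cancel' _ a, b⟩
  · rintro ⟨a, b⟩
    exact ⟨Nat.ModEq.add_right _ a, b⟩

/-- the entropy of the local variables -/
lemma E_Rv {μ : LM} {D : ℕ} {s : ℕ → ℕ → ℕ} (h : Loc μ D s) (P : Finset ℕ) (hP : ∀ p ∈ P, p.Prime) :
    E μ (Rv (yv D s) P) = ∑ p ∈ P, Real.log ((p * D : ℕ) : ℝ) := by
  have hpos : ∀ p ∈ P, (0 : ℝ) < (p : ℝ) * D := fun p hp => by
    have h1 : (0 : ℝ) < p := by exact_mod_cast (hP p hp).pos
    have h2 : (0 : ℝ) < D := by exact_mod_cast h.hD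
    positivity
  rw [E_unif μ (Rv (yv D s) P) (FR_Rv h P fun p hp => (hP p hp).pos) (∏ p ∈ P, ((p : ℝ) * D))]
  · rw [Real.log_prod fun p hp => (hpos p hp).ne']
    refine sum_congr rfl fun p _ => ?_
    push_cast
    rfl
  · intro n
    have h1 := h.unif P hP (fun p => yv D s p n) (fun p hp => yv_lt h (hP p hp).pos n)
    have e : ind (fun k => Rv (yv D s) P k = Rv (yv D s) P n) =
        ind (fun k => ∀ p ∈ P, D * (k % p) + s p k = yv D s p n) := by
      apply ind_congr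
      intro k
      rw [Rv_eq]
      rfl
    rw [e, h1, prod_div_distrib, prod_const_one]

end

section step

variable (μ : LM) {A : Type} (a : ℕ → A) (D : ℕ) (s : ℕ → ℕ → ℕ) (c : ℕ)

/-- conditional entropy of the window given the local variables -/
noncomputable def X' (i : ℕ) : ℝ :=
  E μ (fun n => (win (c * 2 ^ i) a n, Rv (yv D s) (QD 1 i) n)) - E μ (Rv (yv D s) (QD 1 i))

/-- the deficiency -/
noncomputable def Df' (i : ℕ) : ℝ :=
  ∑ p ∈ QD i (i + 1), Real.log ((p * D : ℕ) : ℝ) -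
    (E μ (fun n => (Rv (yv D s) (QD i (i + 1)) n, win (c * 2 ^ i) a n)) - E μ (win (c * 2 ^ i) a))

variable [Finite A] {D s}

lemma QD1 {a b p : ℕ} (h : p ∈ QD a b) : 1 ≤ p := (QDp h).pos

variable (h : Loc μ D s)
include h

lemma X'_nonneg (i : ℕ) : 0 ≤ X' μ a D s c i := by
  unfold X'
  have := E_mono μ (Rv (yv D s) (QD 1 i)) (fun n => (win (c * 2 ^ i) a n, Rv (yv D s) (QD 1 i) n))
    ((FR_win _ a).pair (FR_Rv h _ fun p hp => QD1 hp)) (fun n m e => (Prod.mk.injEq _ _ _ _ ▸ e).2)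
  linarith

lemma Df'_nonneg (i : ℕ) : 0 ≤ Df' μ a D s c i := by
  classical
  unfold Df'
  have hP : ∀ p ∈ QD i (i + 1), p.Prime := fun p hp => QDp hp
  have f1 : FR (Rv (yv D s) (QD i (i + 1))) := FR_Rv h _ fun p hp => QD1 hp
  have f2 : FR (win (c * 2 ^ i) a) := FR_win _ a
  have h1 := E_Rv h (QD i (i + 1)) hP
  -- subadditivity
  have h2 := E_sub μ (Rv (yv D s) (QD i (i + 1))) (fun _ => ()) (win (c * 2 ^ i) a) f1
    (Set.toFinite _) f2
  have e1 : E μ (fun n => (Rv (yv D s) (QD i (i + 1)) n, ((), win (c * 2 ^ i) a n))) =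
      E μ (fun n => (Rv (yv D s) (QD i (i + 1)) n, win (c * 2 ^ i) a n)) := by
    apply E_congr μ _ _ (f1.pair f2)
    intro n m
    simp only [Prod.mk.injEq]
    tauto
  have e2 : E μ (fun n => (Rv (yv D s) (QD i (i + 1)) n, ())) = E μ (Rv (yv D s) (QD i (i + 1))) := by
    apply E_congr μ _ _ f1
    intro n m
    simp only [Prod.mk.injEq, and_true]
  have e3 : E μ (fun n => ((), win (c * 2 ^ i) a n)) = E μ (win (c * 2 ^ i) a) := by
    apply E_congr μ _ _ f2
    intro n m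
    simp only [Prod.mk.injEq, true_and]
  have e4 : 0 ≤ E μ (fun _ : ℕ => ()) := by
    have h5 := E_card μ (fun _ : ℕ => ()) (fun _ : ℕ => ()) (Set.toFinite _) (Set.toFinite _) 1 le_rfl univ (by simp) (fun _ => mem_univ _)
    rw [Nat.cast_one, Real.log_one, add_zero] at h5
    unfold E
    apply finsum_nonneg
    intro x
    have h6 : μ.m (ind (fun _ => () = x)) = 1 := by
      have : ind (fun _ : ℕ => () = x) = fun _ => 1 := by
        funext n; unfold ind; simp
      rw [this]; exact μ.one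
    rw [h6]
    simp
  rw [e1, e2, e3, h1] at h2
  linarith

lemma claim1' (i : ℕ) :
    X' μ a D s c (i + 1) ≤
      2 * (E μ (fun n => (win (c * 2 ^ i) a n, Rv (yv D s) (QD 1 (i + 1)) n)) -
        E μ (Rv (yv D s) (QD 1 (i + 1)))) := by
  unfold X'
  set W := c * 2 ^ i with hW
  set P := QD 1 (i + 1) with hPd
  have hP : ∀ p ∈ P, p.Prime := fun p hp => QDp hp
  have hW2 : c * 2 ^ (i + 1) = W + W := by rw [hW, pow_succ]; ring
  have fW : FR (win W a) := FR_win _ _
  have fR : FR (Rv (yv D s) P) := FR_Rv h P fun p hp => (hP p hp).pos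
  have fW' : FR (fun n => win W a (n + W)) := fW.sh W
  have fR' : FR (fun n => Rv (yv D s) P (n + W)) := fR.sh W
  have fT : FR (Rt D s P W) := by
    have h1 : ∀ n m, Rv (yv D s) P n = Rv (yv D s) P m → Rt D s P W n = Rt D s P W m :=
      fun n m e => (Rt_eq h P W n m).2 e
    classical
    choose g hg using fun z : Set.range (Rv (yv D s) P) => z.2
    have h2 : Set.range (Rt D s P W) ⊆ (fun z : Set.range (Rv (yv D s) P) => Rt D s P W (g z)) '' Set.univ := by
      rintro _ ⟨n, rfl⟩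
      refine ⟨⟨Rv (yv D s) P n, ⟨n, rfl⟩⟩, trivial, ?_⟩
      exact h1 _ _ (hg ⟨Rv (yv D s) P n, ⟨n, rfl⟩⟩)
    have : Finite (Set.range (Rv (yv D s) P)) := fR
    exact (Set.toFinite _).subset h2
  have hae := Rt_ae h P hP W
  -- the long window
  have h1 : E μ (fun n => (win (c * 2 ^ (i + 1)) a n, Rv (yv D s) P n)) ≤
      E μ (fun n => (win W a (n + W), (Rt D s P W n, win W a n))) := by
    apply E_mono μ _ _ (fW'.pair (fT.pair fW))
    intro n m e
    simp only [Prod.mk.injEq] at e ⊢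
    refine ⟨?_, (Rt_eq h P W m n).1 e.2.1⟩
    funext k
    unfold win
    by_cases hk : (k : ℕ) < W
    · have := congrFun e.2.2 ⟨k, hk⟩
      exact this
    · have h5 : (k : ℕ) - W < W := by
        have := k.2
        omega
      have := congrFun e.1 ⟨k - W, h5⟩
      unfold win at this
      simp only at this
      have e1 : m + W + ((k : ℕ) - W) = m + k := by omega
      have e2 : n + W + ((k : ℕ) - W) = n + k := by omega
      rw [e1, e2] at this
      exact this
  have h1' : E μ (fun n => (win W a (n + W), (Rt D s P W n, win W a n))) =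
      E μ (fun n => (win W a (n + W), (Rv (yv D s) P (n + W), win W a n))) := by
    apply E_ae
    refine le_antisymm ?_ (μ.nonneg _ (Bd_ind _) (ind_nonneg _))
    rw [← hae]
    apply μ.mono (Bd_ind _) (Bd_ind _)
    intro n
    unfold ind
    by_cases e : Rt D s P W n = Rv (yv D s) P (n + W)
    · rw [if_neg (not_not.2 (by rw [e])), if_neg (not_not.2 e)]
    · rw [if_pos e]; split_ifs <;> norm_num
  have h2 := E_sub μ (fun n => win W a (n + W)) (fun n => Rv (yv D s) P (n + W)) (fun n => win W a n)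
    fW' fR' fW
  have h3' : E μ (fun n => (Rv (yv D s) P (n + W), win W a n)) = E μ (fun n => (Rt D s P W n, win W a n)) := by
    symm
    apply E_ae
    refine le_antisymm ?_ (μ.nonneg _ (Bd_ind _) (ind_nonneg _))
    rw [← hae]
    apply μ.mono (Bd_ind _) (Bd_ind _)
    intro n
    unfold ind
    by_cases e : Rt D s P W n = Rv (yv D s) P (n + W)
    · rw [if_neg (not_not.2 (by rw [e])), if_neg (not_not.2 e)]
    · rw [if_pos e]; split_ifs <;> norm_num
  have h3 : E μ (fun n => (Rt D s P W n, win W a n)) = E μ (fun n => (win W a n, Rv (yv D s) P n)) := by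
    apply E_congr μ _ _ (fW.pair fR)
    intro n m
    simp only [Prod.mk.injEq]
    constructor
    · rintro ⟨x, y⟩
      exact ⟨(Rt_eq h P W m n).2 y, x⟩
    · rintro ⟨x, y⟩
      exact ⟨y, (Rt_eq h P W m n).1 x⟩
  have h4 : E μ (fun n => (win W a (n + W), Rv (yv D s) P (n + W))) =
      E μ (fun n => (win W a n, Rv (yv D s) P n)) := E_shift μ (fun n => (win W a n, Rv (yv D s) P n)) W
  have h5 : E μ (fun n => Rv (yv D s) P (n + W)) = E μ (Rv (yv D s) P) := E_shift μ (Rv (yv D s) P) W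
  linarith

lemma claim2' (i : ℕ) (hi : 1 ≤ i) :
    Df' μ a D s c i ≤ X' μ a D s c i -
      (E μ (fun n => (win (c * 2 ^ i) a n, Rv (yv D s) (QD 1 (i + 1)) n)) -
        E μ (Rv (yv D s) (QD 1 (i + 1)))) := by
  unfold Df' X'
  have hs := QD_succ 1 i hi
  set W := c * 2 ^ i with hW
  set U := Rv (yv D s) (QD i (i + 1)) with hU
  set R := Rv (yv D s) (QD 1 i) with hR
  set R' := Rv (yv D s) (QD 1 (i + 1)) with hR'
  have fW : FR (win W a) := FR_win _ _
  have fU : FR U := FR_Rv h _ fun p hp => QD1 hp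
  have fR : FR R := FR_Rv h _ fun p hp => QD1 hp
  have h1 := E_sub μ U (win W a) R fU fW fR
  have h2 : E μ (fun n => (win W a n, R' n)) ≤ E μ (fun n => (U n, (win W a n, R n))) := by
    apply E_mono μ _ _ (fU.pair (fW.pair fR))
    intro n m e
    simp only [Prod.mk.injEq] at e ⊢
    obtain ⟨hu, hw, hr⟩ := e
    refine ⟨hw, ?_⟩
    rw [hR', Rv_eq]
    intro p hp
    rw [hs, mem_union] at hp
    rcases hp with hp | hp
    · exact (Rv_eq _ _ _ _).1 hr p hp
    · exact (Rv_eq _ _ _ _).1 hu p hp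
  have h3 : E μ R' = E μ R + ∑ p ∈ QD i (i + 1), Real.log ((p * D : ℕ) : ℝ) := by
    rw [hR', hR, E_Rv h _ fun p hp => QDp hp, E_Rv h _ fun p hp => QDp hp, hs, sum_union (QD_disj 1 i)]
  linarith

lemma X'_init [Fintype A] [Nonempty A] : X' μ a D s c 1 ≤ 2 * (c * Real.log (Fintype.card A)) := by
  classical
  unfold X'
  have hc : 0 < Fintype.card A := Fintype.card_pos
  have h1 := E_card μ (win (c * 2 ^ 1) a) (Rv (yv D s) (QD 1 1)) (FR_win _ a) (FR_Rv h _ fun p hp => QD1 hp)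
    (Fintype.card A ^ (c * 2 ^ 1)) (Nat.one_le_iff_ne_zero.2 (pow_pos hc _).ne') univ
    (by rw [card_univ, Fintype.card_fun, Fintype.card_fin]) (fun _ => mem_univ _)
  have h2 : Real.log ((Fintype.card A ^ (c * 2 ^ 1) : ℕ) : ℝ) =
      2 * (c * Real.log (Fintype.card A)) := by
    push_cast
    rw [Real.log_pow]
    push_cast
    ring
  rw [h2] at h1
  linarith

lemma sum_Df' (K : ℕ) (hK : 1 ≤ K) :
    ∑ i ∈ Ico 1 K, Df' μ a D s c i / 2 ^ i ≤ X' μ a D s c 1 / 2 - X' μ a D s c K / 2 ^ K := by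
  induction K, hK using Nat.le_induction with
  | base => simp
  | succ K hK ih =>
    rw [sum_Ico_succ_top hK]
    have h2 := claim1' μ a c h K
    have h3 := claim2' μ a c h K hK
    have h4 : Df' μ a D s c K / 2 ^ K ≤ X' μ a D s c K / 2 ^ K - X' μ a D s c (K + 1) / 2 ^ (K + 1) := by
      have h5 : (0 : ℝ) < 2 ^ K := by positivity
      have h6 : X' μ a D s c (K + 1) / 2 ^ (K + 1) = (X' μ a D s c (K + 1) / 2) / 2 ^ K := by
        rw [pow_succ]; field_simp
      rw [h6, ← sub_div]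
      apply div_le_div_of_nonneg_right _ h5.le
      linarith
    linarith

/-- there are pairs of consecutive good scales; one further summable quantity is small at these scales -/
lemma good' [Fintype A] [Nonempty A] (η : ℝ) (hη : 0 < η) (I : ℕ) (hI : 1 ≤ I) (b : ℕ → ℝ) (hb0 : ∀ i, 0 ≤ b i)
    (B : ℝ) (hb : ∀ K, ∑ i ∈ Ico 1 K, b i ≤ B) : ∃ i, I ≤ i ∧
      (Df' μ a D s c i ≤ η * 2 ^ i / i ∧ b i ≤ η / i) ∧
      (Df' μ a D s c (i + 1) ≤ η * 2 ^ (i + 1) / (i + 1 : ℕ) ∧ b (i + 1) ≤ η / (i + 1 : ℕ)) := by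
  by_contra hcon
  push Not at hcon
  set f : ℕ → ℝ := fun i => Df' μ a D s c i / 2 ^ i + b i with hf
  have hd0 : ∀ i, 0 ≤ Df' μ a D s c i / 2 ^ i := fun i => div_nonneg (Df'_nonneg μ a c h i) (by positivity)
  have hf0 : ∀ i, 0 ≤ f i := fun i => add_nonneg (hd0 i) (hb0 i)
  have h1 : ∀ i, I ≤ i → η * (1 / ((i : ℝ) + 1)) ≤ f i + f (i + 1) := by
    intro i hi
    have hi0 : (1 : ℝ) ≤ i := by exact_mod_cast hI.trans hi
    by_contra hlt
    push Not at hlt
    have hle : η * (1 / ((i : ℝ) + 1)) ≤ η / i := by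
      rw [mul_one_div]
      exact div_le_div_of_nonneg_left hη.le (by linarith) (by linarith)
    have a1 : Df' μ a D s c i / 2 ^ i ≤ η / i := by
      have := hf0 (i + 1)
      have := hb0 i
      simp only [hf] at hlt this ⊢
      linarith [hd0 (i + 1), hb0 (i + 1)]
    have a2 : b i ≤ η / i := by
      simp only [hf] at hlt
      linarith [hd0 i, hd0 (i + 1), hb0 (i + 1)]
    have a3 : Df' μ a D s c (i + 1) / 2 ^ (i + 1) ≤ η * (1 / ((i : ℝ) + 1)) := by
      simp only [hf] at hlt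
      linarith [hd0 i, hb0 i, hb0 (i + 1)]
    have a4 : b (i + 1) ≤ η * (1 / ((i : ℝ) + 1)) := by
      simp only [hf] at hlt
      linarith [hd0 i, hb0 i, hd0 (i + 1)]
    have a5 : Df' μ a D s c i ≤ η * 2 ^ i / i := by
      rw [div_le_iff₀ (by positivity)] at a1
      refine a1.trans (le_of_eq ?_)
      ring
    have a6 : Df' μ a D s c (i + 1) ≤ η * 2 ^ (i + 1) / (i + 1 : ℕ) := by
      rw [div_le_iff₀ (by positivity)] at a3
      refine a3.trans (le_of_eq ?_)
      push_cast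
      ring
    have a7 : b (i + 1) ≤ η / (i + 1 : ℕ) := by
      refine a4.trans (le_of_eq ?_)
      push_cast
      ring
    exact absurd a7 (not_le.2 (hcon i hi ⟨a5, a2⟩ a6))
  have hX : ∀ K, 1 ≤ K → ∑ i ∈ Ico 1 K, f i ≤ c * Real.log (Fintype.card A) + B := by
    intro K hK
    have h2 := sum_Df' μ a c h K hK
    have h3 := X'_init μ a c h
    have h4 : 0 ≤ X' μ a D s c K / 2 ^ K := div_nonneg (X'_nonneg μ a c h K) (by positivity)
    rw [hf, sum_add_distrib]
    have h5 := hb K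
    linarith
  have h2 : ∀ K, I ≤ K → η * ∑ i ∈ Ico I K, (1 / ((i : ℝ) + 1)) ≤
      2 * (c * Real.log (Fintype.card A) + B) := by
    intro K hK
    rw [mul_sum]
    have h3 : ∑ i ∈ Ico I K, η * (1 / ((i : ℝ) + 1)) ≤ ∑ i ∈ Ico I K, (f i + f (i + 1)) :=
      sum_le_sum fun i hi => h1 i (mem_Ico.1 hi).1
    rw [sum_add_distrib] at h3
    have h4 : ∑ i ∈ Ico I K, f i ≤ ∑ i ∈ Ico 1 K, f i := by
      apply sum_le_sum_of_subset_of_nonneg
      · intro i hi
        rw [mem_Ico] at hi ⊢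
        omega
      · intro i _ _
        exact hf0 i
    have h5 : ∑ i ∈ Ico I K, f (i + 1) ≤ ∑ i ∈ Ico 1 (K + 1), f i := by
      rw [sum_Ico_add' f I K 1]
      apply sum_le_sum_of_subset_of_nonneg
      · intro i hi
        rw [mem_Ico] at hi ⊢
        omega
      · intro i _ _
        exact hf0 i
    have h6 := hX K (hI.trans hK)
    have h7 := hX (K + 1) (by omega)
    linarith
  have hdiv := Real.tendsto_sum_range_one_div_nat_succ_atTop
  set S : ℝ := ∑ i ∈ range I, (1 / ((i : ℝ) + 1)) with hS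
  obtain ⟨K, hK⟩ := (hdiv.eventually_gt_atTop
    (S + 2 * (c * Real.log (Fintype.card A) + B) / η)).and (eventually_ge_atTop I) |>.exists
  obtain ⟨hK1, hK2⟩ := hK
  have h8 := h2 K hK2
  have h9 := sum_range_add_sum_Ico (fun i : ℕ => 1 / ((i : ℝ) + 1)) hK2
  rw [← h9] at hK1
  have h10 : 2 * (c * Real.log (Fintype.card A) + B) / η < ∑ i ∈ Ico I K, (1 / ((i : ℝ) + 1)) := by
    linarith
  rw [div_lt_iff₀ hη] at h10
  linarith

/-- decoupling at a good scale -/
lemma scale' {ε κ' : ℝ} (hε : 0 < ε) (hκ : κ' = ε / 30) (i : ℕ) (hi1 : 1 ≤ i)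
    (h2 : (i : ℝ) / 2 ^ i < κ' * ε / 3) (hD : Df' μ a D s c i ≤ (κ' * ε / 3) * 2 ^ i / i)
    (Ψ : ℕ → ℕ → ℕ → ℝ) (hΨ : ∀ p n r, |Ψ p n r| ≤ 1)
    (hΨ' : ∀ p ∈ QD i (i + 1), ∀ n n' r : ℕ, win (c * 2 ^ i) a n = win (c * 2 ^ i) a n' → Ψ p n r = Ψ p n' r) :
    μ.m (fun n => |∑ p ∈ QD i (i + 1), Real.log p / 2 ^ i *
      (Ψ p n (yv D s p n) - (∑ r ∈ range (p * D), Ψ p n r) / ((p * D : ℕ) : ℝ))|) ≤ ε := by
  classical
  have hκ0 : 0 < κ' := by rw [hκ]; positivity
  have hir : (1 : ℝ) ≤ i := by exact_mod_cast hi1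
  set W := c * 2 ^ i with hW
  set P := QD i (i + 1) with hPd
  set U := Rv (yv D s) P with hU
  set V := win W a with hV
  have fW : FR V := FR_win _ _
  have fU : FR U := FR_Rv h _ fun p hp => QD1 hp
  obtain ⟨t, w, r1, r2, r3, r4⟩ := rep μ (fun n => (U n, V n)) (fU.pair fW)
  set ζ : ℕ → (Fin W → A) → ℕ → ℝ := fun p d r =>
    if h : ∃ n, V n = d then Ψ p h.choose r else 0 with hζ
  have hζD : ∀ p ∈ P, ∀ n r : ℕ, ζ p (V n) r = Ψ p n r := by
    intro p hp n r
    have h : ∃ n', V n' = V n := ⟨n, rfl⟩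
    rw [hζ]
    simp only
    rw [dif_pos h]
    exact hΨ' p hp _ _ r h.choose_spec
  have hζ1 : ∀ p d r, |ζ p d r| ≤ 1 := by
    intro p d r
    rw [hζ]
    simp only
    split_ifs with h
    · exact hΨ _ _ _
    · simp
  set τ : ℝ := κ' * 2 ^ i / i with hτ
  have hτ0 : 0 < τ := by positivity
  have key := Pool.Agent.W721.ECV.dv ℕ (Fin W → A) ℕ t w V P
    (fun n p => yv D s p n) (fun p => range (p * D)) (fun p => Real.log p / 2 ^ i) ζ 1 τ
    r1 (fun n _ p hp => by
      rw [mem_range]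
      exact yv_lt h (QD1 hp) n) hζ1 hτ0
  rw [r2] at key
  simp only [one_mul, card_range, one_pow, mul_one] at key
  have e1 : μ.m (fun n => |∑ p ∈ P, Real.log p / 2 ^ i *
      (Ψ p n (yv D s p n) - (∑ r ∈ range (p * D), Ψ p n r) / ((p * D : ℕ) : ℝ))|) =
      ∑ n ∈ t, w n * |∑ p ∈ P, Real.log p / 2 ^ i *
      (ζ p (V n) (yv D s p n) - (∑ r ∈ range (p * D), ζ p (V n) r) / ((p * D : ℕ) : ℝ))| := by
    rw [r3]
    · refine sum_congr rfl fun n _ => ?_
      congr 2
      refine sum_congr rfl fun p hp => ?_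
      simp only [hζD p hp]
    · intro n m e
      rw [Prod.mk.injEq] at e
      have hu : ∀ p ∈ P, yv D s p n = yv D s p m := (Rv_eq _ _ _ _).1 e.1
      congr 1
      refine sum_congr rfl fun p hp => ?_
      have hVD : ∀ r, Ψ p n r = Ψ p m r := fun r => hΨ' p hp n m r e.2
      simp only [hVD, hu p hp]
  have e2 : cE t w (rsf P (fun n p => yv D s p n)) V =
      ∑ p ∈ P, Real.log ((p * D : ℕ) : ℝ) - Df' μ a D s c i := by
    have hrs : ∀ n m : ℕ, rsf P (fun n p => yv D s p n) m = rsf P (fun n p => yv D s p n) n ↔ U m = U n := by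
      intro n m
      rw [hU, Rv_eq]
      unfold rsf
      constructor
      · intro h p hp
        have := congrFun h p
        simpa [hp] using this
      · intro h
        funext p
        by_cases hp : p ∈ P
        · simp [hp, h p hp]
        · simp [hp]
    have c1 : ent t w (fun n => (rsf P (fun n p => yv D s p n) n, V n)) = E μ (fun n => (U n, V n)) := by
      rw [r4 _ (fun n => (U n, V n)) (fun n m e => e)]
      symm
      apply ent_congr r1
      intro n _ m _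
      simp only [Prod.mk.injEq, hrs]
    have c2 : ent t w V = E μ V :=
      (r4 _ V (fun n m e => by rw [Prod.mk.injEq] at e; exact e.2)).symm
    unfold cE Df'
    rw [c1, c2]
    ring
  rw [e2] at key
  have e3 : (∑ p ∈ P, Real.log ((p * D : ℕ) : ℝ) + Real.log 2) -
      (∑ p ∈ P, Real.log ((p * D : ℕ) : ℝ) - Df' μ a D s c i) = Real.log 2 + Df' μ a D s c i := by
    ring
  rw [e3] at key
  rw [e1]
  exact key.trans (ε_bound hε hκ i hi1 h2 _ hD τ hτ _ (Pool.Agent.TH575.CW.sq_QD i hi1))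

end step

/-- decoupling at pairs of consecutive scales -/
theorem decouple' (μ : LM) {A : Type} [Fintype A] [Nonempty A] (a : ℕ → A) {D : ℕ} {s : ℕ → ℕ → ℕ}
    (h : Loc μ D s) (c : ℕ) (ε : ℝ) (hε : 0 < ε) (i₁ : ℕ) (b : ℕ → ℝ) (hb0 : ∀ i, 0 ≤ b i)
    (B : ℝ) (hb : ∀ K, ∑ i ∈ Ico 1 K, b i ≤ B) :
    ∃ i : ℕ, i₁ ≤ i ∧ ∀ i' : ℕ, i ≤ i' → i' ≤ i + 1 → b i' ≤ ε / i' ∧ ∀ Ψ : ℕ → ℕ → ℕ → ℝ,
      (∀ p n r, |Ψ p n r| ≤ 1) →
      (∀ p ∈ QD i' (i' + 1), ∀ n n' r : ℕ, win (c * 2 ^ i') a n = win (c * 2 ^ i') a n' → Ψ p n r = Ψ p n' r) →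
      μ.m (fun n => |∑ p ∈ QD i' (i' + 1), Real.log p / 2 ^ i' *
        (Ψ p n (yv D s p n) - (∑ r ∈ range (p * D), Ψ p n r) / ((p * D : ℕ) : ℝ))|) ≤ ε := by
  set κ' : ℝ := ε / 30 with hκ
  have hκ0 : 0 < κ' := by positivity
  set η : ℝ := min ε (κ' * ε / 3) with hη
  have hη0 : 0 < κ' * ε / 3 := by positivity
  have hη1 : 0 < η := lt_min hε hη0
  have hlim : Filter.Tendsto (fun i : ℕ => (i : ℝ) / 2 ^ i) Filter.atTop (nhds 0) := by
    have := tendsto_pow_const_div_const_pow_of_one_lt 1 (show (1 : ℝ) < 2 by norm_num)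
    simpa using this
  obtain ⟨i2, hi2⟩ := Filter.eventually_atTop.1 (hlim.eventually_lt_const hη0)
  obtain ⟨i, hiI, ⟨hg1, hb1⟩, ⟨hg2, hb2⟩⟩ := good' μ a c h η hη1 (max i₁ (max i2 1))
    (le_trans (le_max_right _ _) (le_max_right _ _)) b hb0 B hb
  have hi_1 : i₁ ≤ i := (le_max_left _ _).trans hiI
  have hi_2 : i2 ≤ i := ((le_max_left _ _).trans (le_max_right _ _)).trans hiI
  have hi_3 : 1 ≤ i := ((le_max_right _ _).trans (le_max_right _ _)).trans hiI
  refine ⟨i, hi_1, ?_⟩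
  intro i' h1 h2
  have up : ∀ i : ℕ, η * 2 ^ i / i ≤ (κ' * ε / 3) * 2 ^ i / i := fun i =>
    div_le_div_of_nonneg_right (mul_le_mul_of_nonneg_right (min_le_right _ _) (by positivity)) (Nat.cast_nonneg i)
  have up2 : ∀ i : ℕ, η / i ≤ ε / i := fun i =>
    div_le_div_of_nonneg_right (min_le_left _ _) (Nat.cast_nonneg i)
  rcases Nat.eq_or_lt_of_le h1 with h3 | h3
  · subst h3
    exact ⟨hb1.trans (up2 _), fun Ψ hΨ hΨ' => scale' μ a c h hε hκ i hi_3 (hi2 i hi_2) (hg1.trans (up _)) Ψ hΨ hΨ'⟩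
  · have h' : i' = i + 1 := by omega
    subst h'
    exact ⟨hb2.trans (up2 _), fun Ψ hΨ hΨ' => scale' μ a c h hε hκ (i + 1) (by omega) (hi2 (i + 1) (by omega)) (hg2.trans (up _)) Ψ hΨ hΨ'⟩

end Pool.Agent.Y326.Slw
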