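import Pool.Agent.Y326.Slw10
import Pool.Agent.Y326.Chw2

/-!
# Slow phases: the theorems for the logarithmic averages
-/

set_option autoImplicit false

namespace Pool.Agent.Y326.Slw

open Finset Filter MeasureTheory
open Pool.Agent.TH112.BL Pool.Agent.TH928.BLJ

noncomputable section

open Pool.Agent.TH833.BL (S H S_bound S_add S_smul S_one S_nonneg S_succ shift_diff S_dil S_sub_bound dil_diff H_le le_H one_le_log log_tendsto)

section

variable {φ : ℝ → ℝ} {k : ℕ} {f : Fin k → ℕ → ℂ} {a : Fin k → ℕ} {b : Fin k → ℤ} {P₀ : ℕ}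

/-- twisted correlations -/
theorem lz_coeff (h : AP φ) (hf : MF f a P₀) (l : ℤ) (hl : l ≠ 0) : LZ (fun n => prd f a b n * ex (l * φ n)) := by
  refine LZ_of_mean h (C := 1) (fun n => ?_) fun μ hμ _ => ⟨?_, ?_⟩
  · rw [norm_mul, norm_ex, mul_one]
    exact norm_prod_le hf n
  · have := slow_coeff (b := b) hμ hf l hl 1
    simpa using this
  · have h1 := slow_coeff (b := b) hμ hf l hl (-Complex.I)
    rw [← h1]
    congr 1
    funext n
    rw [mul_left_comm, Complex.mul_re (-Complex.I)]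
    simp

/-- real and imaginary parts -/
lemma im_eq_re (z : ℂ) : z.im = (z * (-Complex.I)).re := by
  simp

theorem lz_G (h : AP φ) (hf : MF f a P₀) (G : ℝ → ℂ) (hG : Continuous G) (hp : Function.Periodic G 1) :
    LZ (fun n => prd f a b n * (G (φ n) - ∫ x in (0 : ℝ)..1, G x)) := by
  have hc : Continuous (hp.lift : UnitAddCircle → ℂ) := by
    apply continuous_coinduced_dom.2
    exact hG
  set G' : C(UnitAddCircle, ℂ) := ⟨hp.lift, hc⟩ with hG'
  have e1 : ∀ x : ℝ, G' ((x : ℝ) : UnitAddCircle) = G x := fun x => hp.lift_coe x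
  have e2 : (∫ x, G' x) = ∫ x in (0 : ℝ)..1, G x := by
    have h1 := UnitAddCircle.intervalIntegral_preimage 0 (fun x => G' x)
    rw [← h1, zero_add]
    simp only [e1]
  refine LZ_of_mean h (C := ‖G'‖ + ‖∫ x, G' x‖) (fun n => ?_) fun μ hμ _ => ⟨?_, ?_⟩
  · rw [norm_mul]
    refine (mul_le_of_le_one_left (norm_nonneg _) (norm_prod_le hf n)).trans ((norm_sub_le _ _).trans ?_)
    rw [← e1, e2]
    linarith [G'.norm_coe_le_norm ((φ n : ℝ) : UnitAddCircle)]
  · refine Eq.trans ?_ (lm_G (b := b) hμ hf G')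
    congr 1
    funext n
    rw [e1, e2]
  · have h1 := lm_G (b := b) hμ hf ((-Complex.I) • G')
    refine Eq.trans ?_ h1
    congr 1
    funext n
    have e3 : (∫ x, ((-Complex.I) • G') x) = (-Complex.I) * ∫ x, G' x := by
      rw [← integral_const_mul]
      rfl
    have e4 : ((-Complex.I) • G') ((φ n : ℝ) : UnitAddCircle) = (-Complex.I) * G (φ n) := by
      rw [← e1]; rfl
    rw [e3, e4, e2, im_eq_re]
    congr 1
    ring

/-- the indicator function of the set where the distance of `x - c` to the nearest integer is at most `r` -/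
def ar (c r x : ℝ) : ℝ := by classical exact if |x - c - round (x - c)| ≤ r then 1 else 0

lemma ar_eq (c r x : ℝ) : ar c r x = ia ((c : ℝ) : UnitAddCircle) r ((x : ℝ) : UnitAddCircle) := by
  unfold ar ia
  have e : dist ((x : ℝ) : UnitAddCircle) ((c : ℝ) : UnitAddCircle) = |x - c - round (x - c)| := by
    rw [dist_eq_norm, ← AddCircle.coe_sub, UnitAddCircle.norm_eq]
  rw [e]

theorem lz_arc (h : AP φ) (hf : MF f a P₀) (c r : ℝ) (hr : 0 ≤ r) (hr2 : 2 * r ≤ 1) :
    LZ (fun n => prd f a b n * ((ar c r (φ n) - 2 * r : ℝ) : ℂ)) := by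
  have b1 : ∀ n : ℕ, ‖((ar c r (φ n) - 2 * r : ℝ) : ℂ)‖ ≤ 1 := by
    intro n
    rw [Complex.norm_real, Real.norm_eq_abs, abs_le, ar_eq]
    have h2 := ia_nonneg ((c : ℝ) : UnitAddCircle) r ((φ n : ℝ) : UnitAddCircle)
    have h3 := ia_le ((c : ℝ) : UnitAddCircle) r ((φ n : ℝ) : UnitAddCircle)
    constructor <;> linarith
  refine LZ_of_mean h (C := 1) (fun n => ?_) fun μ hμ _ => ⟨?_, ?_⟩
  · rw [norm_mul]
    exact (mul_le_of_le_one_left (norm_nonneg _) (norm_prod_le hf n)).trans (b1 n)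
  · refine Eq.trans ?_ (lm_arc (b := b) hμ hf ((c : ℝ) : UnitAddCircle) r hr hr2 1 (by simp))
    congr 1
    funext n
    rw [ar_eq, mul_one]
  · refine Eq.trans ?_ (lm_arc (b := b) hμ hf ((c : ℝ) : UnitAddCircle) r hr hr2 (-Complex.I) (by simp))
    congr 1
    funext n
    rw [ar_eq, im_eq_re]
    congr 1
    ring

/-- products of two values of the Möbius function -/
lemma lm_mumu {μ : LM} (hμ : ∀ g : ℕ → ℝ, ∀ L : ℝ, Tendsto (wa g) F0 (nhds L) → μ.m g = L) (s t : ℤ) (hst : s < t) :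
    μ.m (fun n : ℕ => (ArithmeticFunction.moebius (((n : ℤ) + s).toNat) * ArithmeticFunction.moebius (((n : ℤ) + t).toNat) : ℝ)) = 0 := by
  have hbd : Bd (fun n : ℕ => (ArithmeticFunction.moebius (((n : ℤ) + s).toNat) * ArithmeticFunction.moebius (((n : ℤ) + t).toNat) : ℝ)) := by
    refine ⟨1, fun n => ?_⟩
    rw [abs_mul]
    have h1 : ∀ m : ℕ, |((ArithmeticFunction.moebius m : ℤ) : ℝ)| ≤ 1 := fun m => by
      have := ArithmeticFunction.abs_moebius_le_one (n := m)
      exact_mod_cast this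
    exact mul_le_one₀ (h1 _) (abs_nonneg _) (h1 _)
  set h : ℕ := (t - s).toNat with hh
  have hh1 : 1 ≤ h := by omega
  have hG0 : μ.m (fun n : ℕ => (ArithmeticFunction.moebius n * ArithmeticFunction.moebius (n + h) : ℝ)) = 0 := by
    apply hμ
    rw [wa_F0]
    have h1 := tao_mu h hh1
    refine h1.congr fun N => ?_
    rw [one_div, div_eq_inv_mul]
    rfl
  have hbG : Bd (fun n : ℕ => (ArithmeticFunction.moebius n * ArithmeticFunction.moebius (n + h) : ℝ)) := by
    refine ⟨1, fun n => ?_⟩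
    rw [abs_mul]
    have h1 : ∀ m : ℕ, |((ArithmeticFunction.moebius m : ℤ) : ℝ)| ≤ 1 := fun m => by
      have := ArithmeticFunction.abs_moebius_le_one (n := m)
      exact_mod_cast this
    exact mul_le_one₀ (h1 _) (abs_nonneg _) (h1 _)
  rcases le_or_gt 0 s with hs | hs
  · rw [← hG0, ← m_shift μ hbG s.toNat]
    congr 1
    funext n
    have e1 : ((n : ℤ) + s).toNat = n + s.toNat := by omega
    have e2 : ((n : ℤ) + t).toNat = n + s.toNat + h := by omega
    rw [e1, e2]
  · rw [← hG0, ← m_shift μ hbd (-s).toNat]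
    congr 1
    funext n
    have e1 : (((n + (-s).toNat : ℕ) : ℤ) + s).toNat = n := by omega
    have e2 : (((n + (-s).toNat : ℕ) : ℤ) + t).toNat = n + h := by omega
    rw [e1, e2]

/-- powers of the Möbius function -/
lemma MF_mu {k : ℕ} (ε : Fin k → ℕ) :
    MF (fun j n => ((ArithmeticFunction.moebius n : ℤ) : ℂ) ^ (ε j)) (fun _ : Fin k => 1) 0 := by
  refine ⟨fun j n => ?_, fun j p n hp _ hpn => ?_, fun j => le_rfl⟩
  · rw [norm_pow]
    apply pow_le_one₀ (norm_nonneg _)
    rw [Complex.norm_intCast]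
    have := ArithmeticFunction.abs_moebius_le_one (n := n)
    exact_mod_cast this
  · rw [ArithmeticFunction.isMultiplicative_moebius.map_mul_of_coprime ((Nat.Prime.coprime_iff_not_dvd hp).2 hpn)]
    push_cast
    rw [mul_pow]

/-- the two-point correlations of the Möbius function along the integers whose phase lies in an arc -/
theorem lz_two (h : AP φ) (c r : ℝ) (hr : 0 ≤ r) (hr2 : 2 * r ≤ 1) (s t : ℤ) (hst : s ≠ t) :
    LZ (fun n => ((ArithmeticFunction.moebius (((n : ℤ) + s).toNat) : ℤ) : ℂ) *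
      ((ArithmeticFunction.moebius (((n : ℤ) + t).toNat) : ℤ) : ℂ) * ((ar c r (φ n) : ℝ) : ℂ)) := by
  wlog hlt : s < t with H
  · have := H h c r hr hr2 t s hst.symm (by omega)
    refine (iff_of_eq ?_).1 this
    congr 1
    funext n
    ring
  have hb : ∀ m : ℕ, |((ArithmeticFunction.moebius m : ℤ) : ℝ)| ≤ 1 := fun m => by
    have := ArithmeticFunction.abs_moebius_le_one (n := m)
    exact_mod_cast this
  set u : ℕ → ℝ := fun n : ℕ => (ArithmeticFunction.moebius (((n : ℤ) + s).toNat) * ArithmeticFunction.moebius (((n : ℤ) + t).toNat) : ℝ) with hu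
  have hub : ∀ n, |u n| ≤ 1 := by
    intro n
    rw [hu]
    simp only [abs_mul]
    exact mul_le_one₀ (hb _) (abs_nonneg _) (hb _)
  have hg : ∀ n : ℕ, ((ArithmeticFunction.moebius (((n : ℤ) + s).toNat) : ℤ) : ℂ) *
      ((ArithmeticFunction.moebius (((n : ℤ) + t).toNat) : ℤ) : ℂ) * ((ar c r (φ n) : ℝ) : ℂ) = ((u n * ar c r (φ n) : ℝ) : ℂ) := by
    intro n
    rw [hu]
    push_cast
    rfl
  have har : ∀ n : ℕ, 0 ≤ ar c r (φ n) ∧ ar c r (φ n) ≤ 1 := fun n => by
    rw [ar_eq]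
    exact ⟨ia_nonneg _ _ _, ia_le _ _ _⟩
  simp only [hg]
  refine LZ_of_mean h (C := 1) (fun n => ?_) fun μ hμ hμ2 => ⟨?_, ?_⟩
  · rw [Complex.norm_real, Real.norm_eq_abs, abs_mul]
    refine mul_le_one₀ (hub n) (abs_nonneg _) ?_
    rw [abs_of_nonneg (har n).1]
    exact (har n).2
  · have h1 := lm_arc (f := fun (_ : Fin 2) n => ((ArithmeticFunction.moebius n : ℤ) : ℂ) ^ 1) (a := fun _ => 1) (b := ![s, t]) hμ
      (MF_mu (fun _ : Fin 2 => 1)) ((c : ℝ) : UnitAddCircle) r hr hr2 1 (by simp)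
    have h2 := lm_mumu hμ2 s t hlt
    have e : ∀ n : ℕ, (((u n * ar c r (φ n) : ℝ) : ℂ)).re =
        (prd (fun (_ : Fin 2) n => ((ArithmeticFunction.moebius n : ℤ) : ℂ) ^ 1) (fun _ => 1) ![s, t] n * 1 *
          ((ia ((c : ℝ) : UnitAddCircle) r ((φ n : ℝ) : UnitAddCircle) - 2 * r : ℝ) : ℂ)).re + 2 * r * u n := by
      intro n
      unfold prd
      rw [Fin.prod_univ_two, ← ar_eq]
      simp only [pow_one, Matrix.cons_val_zero, Matrix.cons_val_one, Nat.cast_one, one_mul, mul_one]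
      have e2 : ((ArithmeticFunction.moebius (((n : ℤ) + s).toNat) : ℤ) : ℂ) *
        ((ArithmeticFunction.moebius (((n : ℤ) + t).toNat) : ℤ) : ℂ) * ((ar c r (φ n) - 2 * r : ℝ) : ℂ) =
        ((u n * (ar c r (φ n) - 2 * r) : ℝ) : ℂ) := by
        rw [hu]
        push_cast
        rfl
      rw [e2, Complex.ofReal_re, Complex.ofReal_re]
      ring
    simp only [e]
    rw [μ.add _ _ ?_ ?_, h1, μ.smul _ _ ⟨1, hub⟩, h2, mul_zero, add_zero]
    · refine ⟨1, fun n => (Complex.abs_re_le_norm _).trans ?_⟩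
      rw [mul_one, norm_mul, ← ar_eq]
      refine (mul_le_of_le_one_left (norm_nonneg _) (norm_prod_le (MF_mu (fun _ : Fin 2 => 1)) n)).trans ?_
      rw [Complex.norm_real, Real.norm_eq_abs, abs_le]
      have := har n
      constructor <;> linarith [this.1, this.2]
    · exact Bd.cmul _ (⟨1, hub⟩ : Bd u)
  · have : (fun n : ℕ => (((u n * ar c r (φ n) : ℝ) : ℂ)).im) = fun _ => 0 := by
      funext n
      exact Complex.ofReal_im _
    rw [this, μ.zero]

end

end

end Pool.Agent.Y326.Slw
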