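import Pool.Agent.Y326.Slw13

/-!
# Slow phases: duality
-/

set_option autoImplicit false

namespace Pool.Agent.Y326.Slw

open Finset Filter MeasureTheory
open Pool.Agent.TH112.BL Pool.Agent.TH928.BLJ

noncomputable section

open Pool.Agent.TH833.BL (S H S_bound S_add S_smul S_one S_nonneg S_succ shift_diff S_dil S_sub_bound dil_diff H_le le_H one_le_log log_tendsto)

/-- duality between the averages `B` and the function `G` -/
def Ker (B G : ℕ → ℂ) (Δ : ℕ → ℝ) : Prop :=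
  ∀ θ : ℕ → ℂ, (∀ x, ‖θ x‖ ≤ 1) → ∃ Θ : ℕ → ℂ, (∀ n, ‖Θ n‖ ≤ 2) ∧ (∀ n, ‖Θ (n + 1) - Θ n‖ ≤ Δ n) ∧
    ∃ C : ℝ, ∀ A N : ℕ, A ≤ N →
      ‖∑ x ∈ Ioc A N, θ x * B x / (x : ℂ) - ∑ n ∈ Ioc A N, G n * Θ n / (n : ℂ)‖ ≤ C

/-- the angle with given cosine -/
def ang (x : ℝ) : ℝ := Real.arccos x / (2 * Real.pi)

lemma ang_ex (x : ℝ) (h1 : -1 ≤ x) (h2 : x ≤ 1) : ex (ang x) + ex (-(ang x)) = 2 * x := by
  unfold ex ang
  have hpi : (Real.pi : ℂ) ≠ 0 := by exact_mod_cast Real.pi_ne_zero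
  have e1 : 2 * (Real.pi : ℂ) * Complex.I * ((Real.arccos x / (2 * Real.pi) : ℝ) : ℂ) = (Real.arccos x : ℂ) * Complex.I := by
    push_cast
    field_simp
  have e2 : 2 * (Real.pi : ℂ) * Complex.I * ((-(Real.arccos x / (2 * Real.pi)) : ℝ) : ℂ) = -(Real.arccos x : ℂ) * Complex.I := by
    push_cast
    field_simp
  rw [e1, e2]
  have h3 := Complex.two_cos (Real.arccos x : ℂ)
  rw [← h3, ← Complex.ofReal_cos, Real.cos_arccos h1 h2]

lemma ang_lip (x y : ℝ) (hx : |x| ≤ 1 / 2) (hy : |y| ≤ 1 / 2) : |ang x - ang y| ≤ |x - y| := by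
  have h1 : |Real.arccos x - Real.arccos y| ≤ 2 * |x - y| := by
    have := (convex_Icc (-(1 / 2) : ℝ) (1 / 2)).norm_image_sub_le_of_norm_hasDerivWithin_le (f := Real.arccos)
      (f' := fun x => -(1 / Real.sqrt (1 - x ^ 2))) (C := 2)
      (fun z hz => (Real.hasDerivAt_arccos (by linarith [hz.1]) (by linarith [hz.2])).hasDerivWithinAt)
      (fun z hz => by
        rw [norm_neg, Real.norm_eq_abs, abs_of_nonneg (by positivity)]
        have h4 : z ^ 2 ≤ 1 / 4 := by nlinarith [hz.1, hz.2]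
        have h5 : 1 / 2 ≤ Real.sqrt (1 - z ^ 2) := by
          apply Real.le_sqrt_of_sq_le
          linarith
        rw [div_le_iff₀ (by linarith)]
        linarith)
      (abs_le.1 hy) (abs_le.1 hx)
    rw [Real.norm_eq_abs, Real.norm_eq_abs] at this
    exact this
  unfold ang
  rw [← sub_div, abs_div, abs_of_pos Real.two_pi_pos, div_le_iff₀ Real.two_pi_pos]
  nlinarith [Real.pi_gt_three, abs_nonneg (x - y)]

section

variable {φ : ℝ → ℝ} {Δ : ℕ → ℝ} {k : ℕ} {f : Fin k → ℕ → ℂ} {a : Fin k → ℕ} {b : Fin k → ℤ} {P₀ : ℕ}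
variable {F : Filter (ℕ × ℕ)}

lemma WP.sp (h : WP F φ) {μ : LM} (hμ : ∀ g : ℕ → ℝ, ∀ L : ℝ, Tendsto (wa g) F (nhds L) → μ.m g = L) : SP μ φ :=
  ⟨h.slow, fun P hP κ hκ => ⟨hμ _ _ (h.weyl P hP κ hκ).1, hμ _ _ (h.weyl P hP κ hκ).2⟩⟩

/-- slowly varying weights -/
theorem weight_zero (hF : Tendsto (fun x : ℕ × ℕ => H x.2 - H x.1) F atTop) (hφ : RP φ Δ) (hf : MF f a P₀)
    {Θ : ℕ → ℂ} (hΘ : ∀ n, ‖Θ n‖ ≤ 2) (hΘ2 : ∀ n, ‖Θ (n + 1) - Θ n‖ ≤ Δ n) :
    Tendsto (wa (fun n => (prd f a b n * ex (φ n) * Θ n).re)) F (nhds 0) := by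
  have hbd : ∀ n, ‖prd f a b n * ex (φ n) * Θ n‖ ≤ 2 := by
    intro n
    rw [norm_mul, norm_mul, norm_ex, mul_one]
    calc ‖prd f a b n‖ * ‖Θ n‖ ≤ 1 * 2 := mul_le_mul (norm_prod_le hf n) (hΘ n) (norm_nonneg _) zero_le_one
      _ = 2 := one_mul 2
  by_contra hne
  obtain ⟨μ, h1, h2⟩ := win_exists hF _ ⟨2, fun n => (Complex.abs_re_le_norm _).trans (hbd n)⟩ hne
  apply h1
  set ψ₁ : ℕ → ℝ := fun n => ang ((Θ n).re / 4) with hψ1
  set ψ₂ : ℕ → ℝ := fun n => ang ((Θ n).im / 4) with hψ2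
  have r1 : ∀ n, |(Θ n).re / 4| ≤ 1 / 2 := fun n => by
    rw [abs_div, abs_of_pos (by norm_num : (0 : ℝ) < 4), div_le_iff₀ (by norm_num)]
    have := (Complex.abs_re_le_norm (Θ n)).trans (hΘ n)
    linarith
  have r2 : ∀ n, |(Θ n).im / 4| ≤ 1 / 2 := fun n => by
    rw [abs_div, abs_of_pos (by norm_num : (0 : ℝ) < 4), div_le_iff₀ (by norm_num)]
    have := (Complex.abs_im_le_norm (Θ n)).trans (hΘ n)
    linarith
  have l1 : ∀ n, |ψ₁ (n + 1) - ψ₁ n| ≤ Δ n := fun n => by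
    refine (ang_lip _ _ (r1 _) (r1 _)).trans ?_
    rw [← sub_div, ← Complex.sub_re, abs_div, abs_of_pos (by norm_num : (0 : ℝ) < 4)]
    have := (Complex.abs_re_le_norm (Θ (n + 1) - Θ n)).trans (hΘ2 n)
    have h4 := abs_nonneg (Θ (n + 1) - Θ n).re
    linarith
  have l2 : ∀ n, |ψ₂ (n + 1) - ψ₂ n| ≤ Δ n := fun n => by
    refine (ang_lip _ _ (r2 _) (r2 _)).trans ?_
    rw [← sub_div, ← Complex.sub_im, abs_div, abs_of_pos (by norm_num : (0 : ℝ) < 4)]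
    have := (Complex.abs_im_le_norm (Θ (n + 1) - Θ n)).trans (hΘ2 n)
    have h4 := abs_nonneg (Θ (n + 1) - Θ n).im
    linarith
  have neg : ∀ ψ : ℕ → ℝ, (∀ n, |ψ (n + 1) - ψ n| ≤ Δ n) → ∀ n, |(-ψ (n + 1)) - (-ψ n)| ≤ Δ n := fun ψ h n => by
    rw [show -ψ (n + 1) - -ψ n = -(ψ (n + 1) - ψ n) by ring, abs_neg]
    exact h n
  have z : ∀ (ψ : ℕ → ℝ), (∀ n, |ψ (n + 1) - ψ n| ≤ Δ n) → ∀ c : ℂ,
      μ.m (fun n => (prd f a b n * (c * ex (φ n + ψ n))).re) = 0 := by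
    intro ψ hψ c
    have h3 := slow_coeff (b := b) ((hφ.wp hψ hF).sp h2) hf 1 one_ne_zero c
    rw [← h3]
    congr 1
    funext n
    simp
  have bz : ∀ (ψ : ℕ → ℝ) (c : ℂ), Bd (fun n => (prd f a b n * (c * ex (φ n + ψ n))).re) := fun ψ c =>
    ⟨‖c‖, fun n => (Complex.abs_re_le_norm _).trans (by
      rw [norm_mul, norm_mul, norm_ex, mul_one]
      exact mul_le_of_le_one_left (norm_nonneg _) (norm_prod_le hf n))⟩
  have e : (fun n => (prd f a b n * ex (φ n) * Θ n).re) = fun n =>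
      ((prd f a b n * (2 * ex (φ n + ψ₁ n))).re + (prd f a b n * (2 * ex (φ n + -ψ₁ n))).re) +
      ((prd f a b n * (2 * Complex.I * ex (φ n + ψ₂ n))).re + (prd f a b n * (2 * Complex.I * ex (φ n + -ψ₂ n))).re) := by
    funext n
    rw [← Complex.add_re, ← Complex.add_re, ← Complex.add_re]
    congr 1
    rw [ex_add, ex_add, ex_add, ex_add]
    have a1 := ang_ex ((Θ n).re / 4) (by linarith [(abs_le.1 (r1 n)).1]) (by linarith [(abs_le.1 (r1 n)).2])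
    have a2 := ang_ex ((Θ n).im / 4) (by linarith [(abs_le.1 (r2 n)).1]) (by linarith [(abs_le.1 (r2 n)).2])
    have e1 : prd f a b n * (2 * (ex (φ n) * ex (ψ₁ n))) + prd f a b n * (2 * (ex (φ n) * ex (-ψ₁ n))) +
        (prd f a b n * (2 * Complex.I * (ex (φ n) * ex (ψ₂ n))) + prd f a b n * (2 * Complex.I * (ex (φ n) * ex (-ψ₂ n)))) =
        prd f a b n * ex (φ n) * (2 * (ex (ψ₁ n) + ex (-ψ₁ n)) + 2 * Complex.I * (ex (ψ₂ n) + ex (-ψ₂ n))) := by ring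
    rw [e1, hψ1, hψ2]
    simp only
    rw [a1, a2]
    congr 1
    conv_lhs => rw [← Complex.re_add_im (Θ n)]
    push_cast
    ring
  rw [e, μ.add _ _ ((bz _ _).add (bz _ _)) ((bz _ _).add (bz _ _)), μ.add _ _ (bz _ _) (bz _ _), μ.add _ _ (bz _ _) (bz _ _),
    z ψ₁ l1, z (fun n => -ψ₁ n) (neg _ l1), z ψ₂ l2, z (fun n => -ψ₂ n) (neg _ l2)]
  ring

/-- averages of absolute values -/
theorem abs_zero' (hF : Tendsto (fun x : ℕ × ℕ => H x.2 - H x.1) F atTop) (hφ : RP φ Δ) (hf : MF f a P₀)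
    {B : ℕ → ℂ} (hB : ∀ x, ‖B x‖ ≤ 1) (hK : Ker B (fun n => prd f a b n * ex (φ n)) Δ) :
    Tendsto (wa (fun x => ‖B x‖)) F (nhds 0) := by
  set θ : ℕ → ℂ := fun x => if B x = 0 then 0 else (starRingEnd ℂ) (B x) / ‖B x‖ with hθ
  have hθ1 : ∀ x, ‖θ x‖ ≤ 1 := by
    intro x
    rw [hθ]
    simp only
    split_ifs with h
    · simp
    · rw [norm_div, RCLike.norm_conj, Complex.norm_real, norm_norm, div_self (norm_ne_zero_iff.2 h)]
  have hθB : ∀ x, θ x * B x = (‖B x‖ : ℂ) := by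
    intro x
    rw [hθ]
    simp only
    split_ifs with h
    · simp [h]
    · have h2 : ((‖B x‖ : ℝ) : ℂ) ≠ 0 := by exact_mod_cast norm_ne_zero_iff.2 h
      rw [div_mul_eq_mul_div, div_eq_iff h2, mul_comm, Complex.mul_conj, Complex.normSq_eq_norm_sq]
      push_cast
      ring
  obtain ⟨Θ, hΘ1, hΘ2, C, hC⟩ := hK θ hθ1
  have h1 := weight_zero (b := b) hF hφ hf hΘ1 hΘ2
  have h2 : Tendsto (fun x : ℕ × ℕ => C / (H x.2 - H x.1)) F (nhds 0) := Tendsto.div_atTop tendsto_const_nhds hF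
  have h3 : Tendsto (fun x : ℕ × ℕ => wa (fun n => (prd f a b n * ex (φ n) * Θ n).re) x + C / (H x.2 - H x.1)) F (nhds 0) := by
    have := h1.add h2
    rwa [add_zero] at this
  refine squeeze_zero' ?_ ?_ h3
  · filter_upwards [hF.eventually_gt_atTop 0] with x hx
    unfold wa
    rw [S_sub _ (lt_of_H hx).le]
    exact mul_nonneg (by positivity) (sum_nonneg fun n _ => mul_nonneg (by positivity) (norm_nonneg _))
  · filter_upwards [hF.eventually_gt_atTop 0] with x hx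
    have hlt := (lt_of_H hx).le
    unfold wa
    rw [S_sub _ hlt, S_sub _ hlt]
    have h4 := hC x.1 x.2 hlt
    have h5 := (Complex.abs_re_le_norm _).trans h4
    have e1 : (∑ y ∈ Ioc x.1 x.2, θ y * B y / (y : ℂ)).re = ∑ y ∈ Ioc x.1 x.2, (1 / (y : ℝ)) * ‖B y‖ := by
      rw [Complex.re_sum]
      refine sum_congr rfl fun y _ => ?_
      rw [hθB, show ((y : ℂ)) = ((y : ℝ) : ℂ) by simp, Complex.div_ofReal_re, Complex.ofReal_re]
      ring
    have e2 : (∑ y ∈ Ioc x.1 x.2, prd f a b y * ex (φ y) * Θ y / (y : ℂ)).re =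
        ∑ y ∈ Ioc x.1 x.2, (1 / (y : ℝ)) * (prd f a b y * ex (φ y) * Θ y).re := by
      rw [Complex.re_sum]
      refine sum_congr rfl fun y _ => ?_
      rw [show ((y : ℂ)) = ((y : ℝ) : ℂ) by simp, Complex.div_ofReal_re]
      ring
    rw [Complex.sub_re, e1, e2] at h5
    have h6 := (abs_le.1 h5).2
    rw [one_div, inv_mul_eq_div, inv_mul_eq_div, ← add_div]
    apply div_le_div_of_nonneg_right _ hx.le
    linarith

end

end

end Pool.Agent.Y326.Slw
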