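import Pool.Agent.Y326.Slw14

/-!
# Slow phases: the kernels of the full and of the short averages
-/

set_option autoImplicit false

namespace Pool.Agent.Y326.Slw

open Finset Filter MeasureTheory
open Pool.Agent.TH112.BL Pool.Agent.TH928.BLJ

noncomputable section

/-- partial sums -/
def CS (G : ℕ → ℂ) (x : ℕ) : ℂ := ∑ n ∈ Icc 1 x, G n

lemma CS_succ (G : ℕ → ℂ) (x : ℕ) : CS G (x + 1) = CS G x + G (x + 1) := by
  unfold CS
  rw [Finset.sum_Icc_succ_top (by omega)]

lemma CS_le {G : ℕ → ℂ} (hG : ∀ n, ‖G n‖ ≤ 1) (x : ℕ) : ‖CS G x‖ ≤ x := by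
  unfold CS
  refine (norm_sum_le _ _).trans ((sum_le_sum fun n _ => hG n).trans ?_)
  simp

lemma CS_sub {G : ℕ → ℂ} (hG : ∀ n, ‖G n‖ ≤ 1) {x y : ℕ} (h : x ≤ y) : ‖CS G y - CS G x‖ ≤ (y : ℝ) - x := by
  induction y, h using Nat.le_induction with
  | base => simp
  | succ y hy ih =>
    rw [CS_succ]
    push_cast
    have e : CS G y + G (y + 1) - CS G x = (CS G y - CS G x) + G (y + 1) := by ring
    rw [e]
    refine (norm_add_le _ _).trans ?_
    linarith [hG (y + 1)]

/-- increments for the full averages -/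
def D1 (n : ℕ) : ℝ := if n = 0 then 4 else 3 / n

lemma tail_le (n : ℕ) (hn : 1 ≤ n) (J : ℕ) : ∑ j ∈ range J, 1 / ((n + j : ℕ) : ℝ) ^ 2 ≤ 2 / (n : ℝ) := by
  have hn0 : (1 : ℝ) ≤ n := by exact_mod_cast hn
  rcases Nat.eq_zero_or_pos J with rfl | hJ
  · rw [range_zero, sum_empty]
    positivity
  · have key : ∑ j ∈ range J, 1 / ((n + j : ℕ) : ℝ) ^ 2 ≤ 2 / n - 1 / ((n : ℝ) + J - 1) := by
      induction J, hJ using Nat.le_induction with
      | base =>
        simp only [range_one, sum_singleton, add_zero, Nat.cast_one, zero_add]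
        have e : (n : ℝ) + 1 - 1 = n := by ring
        rw [e]
        have h1 : 1 / (n : ℝ) ^ 2 ≤ 1 / n := by
          apply div_le_div_of_nonneg_left zero_le_one (by linarith)
          nlinarith
        have h2 : 2 / (n : ℝ) = 1 / n + 1 / n := by ring
        linarith
      | succ J hJ ih =>
        rw [sum_range_succ]
        have hJ0 : (1 : ℝ) ≤ J := by exact_mod_cast hJ
        have h1 : 1 / ((n + J : ℕ) : ℝ) ^ 2 ≤ 1 / ((n : ℝ) + J - 1) - 1 / ((n : ℝ) + J) := by
          have hp1 : 0 < (n : ℝ) + J - 1 := by linarith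
          have hp2 : 0 < (n : ℝ) + J := by linarith
          push_cast
          rw [div_sub_div _ _ hp1.ne' hp2.ne', div_le_div_iff₀ (by positivity) (by positivity)]
          nlinarith
        have e : (n : ℝ) + ((J + 1 : ℕ) : ℝ) - 1 = n + J := by push_cast; ring
        rw [e]
        linarith
    refine key.trans ?_
    have : 0 ≤ 1 / ((n : ℝ) + J - 1) := by
      have : (1 : ℝ) ≤ J := by exact_mod_cast hJ
      apply div_nonneg zero_le_one
      linarith
    linarith

theorem ker_full {G : ℕ → ℂ} (hG : ∀ n, ‖G n‖ ≤ 1) : Ker (fun x => CS G x / x) G D1 := by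
  intro θ hθ
  set u : ℕ → ℂ := fun x => θ x / (x : ℂ) ^ 2 with hu
  have hun : ∀ x, ‖u x‖ ≤ 1 / (x : ℝ) ^ 2 := by
    intro x
    rw [hu]
    simp only
    rw [norm_div, norm_pow, Complex.norm_natCast]
    exact div_le_div_of_nonneg_right (hθ x) (by positivity)
  have hs0 : Summable (fun x : ℕ => 1 / (x : ℝ) ^ 2) := Real.summable_one_div_nat_pow.2 (by norm_num)
  have hsr : ∀ n, Summable (fun j : ℕ => 1 / ((n + j : ℕ) : ℝ) ^ 2) := fun n => by
    have := (summable_nat_add_iff n).2 hs0
    refine this.congr fun j => ?_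
    rw [add_comm j n]
  have hs : ∀ n, Summable (fun j => u (n + j)) := fun n => Summable.of_norm_bounded (hsr n) fun j => hun _
  set R : ℕ → ℂ := fun n => ∑' j, u (n + j) with hR
  have hRn : ∀ n, 1 ≤ n → ‖R n‖ ≤ 2 / n := by
    intro n hn
    refine (norm_tsum_le_tsum_norm (hs n).norm).trans ?_
    refine (Summable.tsum_le_tsum (fun j => hun _) (hs n).norm (hsr n)).trans ?_
    exact Real.tsum_le_of_sum_range_le (fun j => by positivity) (tail_le n hn)
  have hRs : ∀ n, R n = u n + R (n + 1) := by
    intro n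
    rw [hR]
    simp only
    rw [(hs n).tsum_eq_zero_add, add_zero]
    congr 1
    refine tsum_congr fun j => ?_
    congr 1
    ring
  refine ⟨fun n => n * R n, fun n => ?_, fun n => ?_, 4, fun A N hAN => ?_⟩
  · rcases Nat.eq_zero_or_pos n with rfl | hn
    · simp
    · have hn0 : (0 : ℝ) < n := by exact_mod_cast hn
      rw [norm_mul, Complex.norm_natCast]
      calc (n : ℝ) * ‖R n‖ ≤ n * (2 / n) := mul_le_mul_of_nonneg_left (hRn n hn) hn0.le
        _ = 2 := by field_simp
  · rcases Nat.eq_zero_or_pos n with rfl | hn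
    · have := hRn 1 le_rfl
      unfold D1
      simp at this ⊢
      linarith
    · have hn0 : (0 : ℝ) < n := by exact_mod_cast hn
      have hnc : (n : ℂ) ≠ 0 := by exact_mod_cast hn.ne'
      have e : ((n + 1 : ℕ) : ℂ) * R (n + 1) - n * R n = R (n + 1) - θ n / n := by
        rw [hRs n, hu]
        simp only
        push_cast
        field_simp
        ring
      rw [e]
      refine (norm_sub_le _ _).trans ?_
      have h1 := hRn (n + 1) (by omega)
      have h2 : ‖θ n / (n : ℂ)‖ ≤ 1 / n := by
        rw [norm_div, Complex.norm_natCast]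
        exact div_le_div_of_nonneg_right (hθ n) hn0.le
      have h3 : 2 / ((n + 1 : ℕ) : ℝ) ≤ 2 / n := by
        apply div_le_div_of_nonneg_left (by norm_num) hn0
        push_cast
        linarith
      unfold D1
      rw [if_neg hn.ne']
      have h4 : 3 / (n : ℝ) = 2 / n + 1 / n := by ring
      rw [h4]
      linarith
  · have key : ∑ x ∈ Ioc A N, θ x * (CS G x / x) / (x : ℂ) - ∑ n ∈ Ioc A N, G n * (n * R n) / (n : ℂ) =
        R (A + 1) * CS G A - R (N + 1) * CS G N := by
      induction N, hAN using Nat.le_induction with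
      | base => simp
      | succ N hN ih =>
        rw [← Finset.insert_Ioc_right_eq_Ioc_add_one hN, Finset.sum_insert (by simp), Finset.sum_insert (by simp)]
        have hc : ((N + 1 : ℕ) : ℂ) ≠ 0 := by exact_mod_cast Nat.succ_ne_zero N
        have e1 : θ (N + 1) * (CS G (N + 1) / ((N + 1 : ℕ) : ℂ)) / ((N + 1 : ℕ) : ℂ) = u (N + 1) * CS G (N + 1) := by
          rw [hu]
          simp only
          field_simp
        have e2 : G (N + 1) * (((N + 1 : ℕ) : ℂ) * R (N + 1)) / ((N + 1 : ℕ) : ℂ) = G (N + 1) * R (N + 1) := by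
          field_simp
        rw [e1, e2]
        have e3 : u (N + 1) = R (N + 1) - R (N + 1 + 1) := by rw [hRs (N + 1)]; ring
        have e4 : u (N + 1) * CS G (N + 1) + ∑ x ∈ Ioc A N, θ x * (CS G x / x) / (x : ℂ) -
            (G (N + 1) * R (N + 1) + ∑ n ∈ Ioc A N, G n * (n * R n) / (n : ℂ)) =
            u (N + 1) * CS G (N + 1) - G (N + 1) * R (N + 1) +
              (∑ x ∈ Ioc A N, θ x * (CS G x / x) / (x : ℂ) - ∑ n ∈ Ioc A N, G n * (n * R n) / (n : ℂ)) := by ring
        rw [e4, ih, e3, CS_succ]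
        ring
    rw [key]
    have hb : ∀ m : ℕ, ‖R (m + 1) * CS G m‖ ≤ 2 := by
      intro m
      rw [norm_mul]
      have h1 := hRn (m + 1) (by omega)
      have h2 := CS_le hG m
      have hm0 : (0 : ℝ) ≤ m := Nat.cast_nonneg m
      calc ‖R (m + 1)‖ * ‖CS G m‖ ≤ (2 / ((m + 1 : ℕ) : ℝ)) * m :=
            mul_le_mul h1 h2 (norm_nonneg _) (by positivity)
        _ ≤ 2 := by
            rw [div_mul_eq_mul_div, div_le_iff₀ (by positivity)]
            push_cast
            nlinarith
    refine (norm_sub_le _ _).trans ?_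
    linarith [hb A, hb N]

/-! ## short averages -/

/-- the lengths of the short intervals -/
structure Len (h : ℕ → ℕ) : Prop where
  mono : Monotone h
  pos : ∀ x, 1 ≤ x → 1 ≤ h x
  le : ∀ x, h x ≤ x

/-- increments for the short averages -/
def D2 (h : ℕ → ℕ) (n : ℕ) : ℝ := if n < 2 then 4 else 3 / h (n / 2) + 2 / n

theorem ker_short {G : ℕ → ℂ} (hG : ∀ n, ‖G n‖ ≤ 1) {h : ℕ → ℕ} (hh : Len h) :
    Ker (fun x => (CS G (x + h x) - CS G x) / (h x : ℂ)) G (D2 h) := by
  intro θ hθ
  set v : ℕ → ℂ := fun x => θ x / ((x : ℂ) * h x) with hv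
  have hvn : ∀ x, ‖v x‖ ≤ 1 / ((x : ℝ) * h x) := by
    intro x
    rw [hv]
    simp only
    rw [norm_div, norm_mul, Complex.norm_natCast, Complex.norm_natCast]
    exact div_le_div_of_nonneg_right (hθ x) (by positivity)
  -- the dual weights
  set R : ℕ → ℂ := fun n => ∑ x ∈ Ico 1 n, if n ≤ x + h x then v x else 0 with hR
  have hsm : StrictMono (fun x => x + h x) := fun x y hxy => by
    have := hh.mono hxy.le
    simp only
    omega
  have hRn : ∀ n, 1 ≤ n → ‖R n‖ ≤ 2 / n := by
    intro n hn
    have hn0 : (0 : ℝ) < n := by exact_mod_cast hn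
    set W := (Ico 1 n).filter (fun x => n ≤ x + h x) with hW
    have e : R n = ∑ x ∈ W, v x := by rw [hR, hW, sum_filter]
    rw [e]
    by_cases hWe : W.Nonempty
    · set x₀ := W.min' hWe with hx₀
      have hx0W : x₀ ∈ W := W.min'_mem hWe
      rw [hW, mem_filter, mem_Ico] at hx0W
      obtain ⟨⟨h1, h2⟩, h3⟩ := hx0W
      have h4 := hh.le x₀
      have hx0 : (0 : ℝ) < x₀ := by exact_mod_cast h1
      have hh0 : (0 : ℝ) < h x₀ := by exact_mod_cast hh.pos x₀ h1
      have hsub : W ⊆ Ico x₀ n := by
        intro x hx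
        have h5 := W.min'_le x hx
        rw [hW, mem_filter, mem_Ico] at hx
        rw [mem_Ico]
        exact ⟨h5, hx.1.2⟩
      have hcard : W.card ≤ h x₀ := by
        have := card_le_card hsub
        rw [Nat.card_Ico] at this
        omega
      have hterm : ∀ x ∈ W, ‖v x‖ ≤ 1 / ((x₀ : ℝ) * h x₀) := by
        intro x hx
        have h5 := (mem_Ico.1 (hsub hx)).1
        refine (hvn x).trans ?_
        apply div_le_div_of_nonneg_left zero_le_one (by positivity)
        exact mul_le_mul (by exact_mod_cast h5) (by exact_mod_cast hh.mono h5) hh0.le (Nat.cast_nonneg x)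
      calc ‖∑ x ∈ W, v x‖ ≤ ∑ x ∈ W, ‖v x‖ := norm_sum_le _ _
        _ ≤ ∑ _x ∈ W, 1 / ((x₀ : ℝ) * h x₀) := sum_le_sum hterm
        _ = W.card * (1 / ((x₀ : ℝ) * h x₀)) := by rw [sum_const, nsmul_eq_mul]
        _ ≤ h x₀ * (1 / ((x₀ : ℝ) * h x₀)) := mul_le_mul_of_nonneg_right (by exact_mod_cast hcard) (by positivity)
        _ = 1 / x₀ := by field_simp
        _ ≤ 2 / n := by
          rw [div_le_div_iff₀ hx0 hn0]
          have : n ≤ 2 * x₀ := by omega
          have h6 : (n : ℝ) ≤ 2 * x₀ := by exact_mod_cast this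
          linarith
    · rw [Finset.not_nonempty_iff_eq_empty] at hWe
      rw [hWe, sum_empty, norm_zero]
      positivity
  have hstep : ∀ n, 1 ≤ n → R (n + 1) = R n + v n - ∑ x ∈ Ico 1 n, if x + h x = n then v x else 0 := by
    intro n hn
    rw [hR]
    simp only
    rw [sum_Ico_succ_top hn, if_pos (by have := hh.pos n hn; omega)]
    have e : ∑ x ∈ Ico 1 n, (if n + 1 ≤ x + h x then v x else 0) =
        ∑ x ∈ Ico 1 n, (if n ≤ x + h x then v x else 0) - ∑ x ∈ Ico 1 n, (if x + h x = n then v x else 0) := by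
      rw [← sum_sub_distrib]
      refine sum_congr rfl fun x _ => ?_
      rcases lt_trichotomy (x + h x) n with h1 | h1 | h1
      · rw [if_neg (by omega), if_neg (by omega), if_neg (by omega), sub_zero]
      · rw [if_neg (by omega), if_pos (by omega), if_pos (by omega), sub_self]
      · rw [if_pos (by omega), if_pos (by omega), if_neg (by omega), sub_zero]
    rw [e]
    ring
  have hlost : ∀ n, 2 ≤ n → ‖∑ x ∈ Ico 1 n, if x + h x = n then v x else 0‖ ≤ 2 / (n * h (n / 2)) := by
    intro n hn
    have hn2 : 1 ≤ n / 2 := by omega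
    have hh2 := hh.pos _ hn2
    have hn0 : (0 : ℝ) < n := by exact_mod_cast (by omega : 0 < n)
    have hh0 : (0 : ℝ) < h (n / 2) := by exact_mod_cast hh2
    by_cases hex : ∃ x₀ ∈ Ico 1 n, x₀ + h x₀ = n
    · obtain ⟨x₀, hx0, hx1⟩ := hex
      have e : ∑ x ∈ Ico 1 n, (if x + h x = n then v x else 0) = v x₀ := by
        rw [sum_eq_single_of_mem x₀ hx0, if_pos hx1]
        intro y _ hy
        rw [if_neg]
        intro h1
        exact hy (hsm.injective (show y + h y = x₀ + h x₀ by omega))
      rw [e]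
      refine (hvn x₀).trans ?_
      rw [mem_Ico] at hx0
      have h4 := hh.le x₀
      have h5 : n ≤ 2 * x₀ := by omega
      have h6 : n / 2 ≤ x₀ := by omega
      have h7 : (n : ℝ) ≤ 2 * x₀ := by exact_mod_cast h5
      have h8 : (h (n / 2) : ℝ) ≤ h x₀ := by exact_mod_cast hh.mono h6
      have hx00 : (0 : ℝ) < x₀ := by exact_mod_cast hx0.1
      have hh00 : (0 : ℝ) < h x₀ := by linarith
      rw [div_le_div_iff₀ (by positivity) (by positivity)]
      nlinarith [mul_le_mul h7 h8 hh0.le (by positivity : (0 : ℝ) ≤ 2 * x₀)]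
    · have e : ∑ x ∈ Ico 1 n, (if x + h x = n then v x else 0) = 0 := by
        refine sum_eq_zero fun x hx => ?_
        rw [if_neg]
        intro h1
        exact hex ⟨x, hx, h1⟩
      rw [e, norm_zero]
      positivity
  have hnorm : ∀ n : ℕ, ‖(n : ℂ) * R n‖ ≤ 2 := by
    intro n
    rcases Nat.eq_zero_or_pos n with rfl | hn
    · simp
    · have hn0 : (0 : ℝ) < n := by exact_mod_cast hn
      rw [norm_mul, Complex.norm_natCast]
      calc (n : ℝ) * ‖R n‖ ≤ n * (2 / n) := mul_le_mul_of_nonneg_left (hRn n hn) hn0.le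
        _ = 2 := by field_simp
  refine ⟨fun n => n * R n, hnorm, fun n => ?_, 6, fun A N hAN => ?_⟩
  · unfold D2
    split_ifs with hn
    · refine (norm_sub_le _ _).trans ?_
      linarith [hnorm n, hnorm (n + 1)]
    · push Not at hn
      have hn0 : (0 : ℝ) < n := by exact_mod_cast (by omega : 0 < n)
      have hnc : (n : ℂ) ≠ 0 := by exact_mod_cast (by omega : n ≠ 0)
      have e : ((n + 1 : ℕ) : ℂ) * R (n + 1) - n * R n =
          R (n + 1) + n * v n - n * ∑ x ∈ Ico 1 n, (if x + h x = n then v x else 0) := by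
        have h1 := hstep n (by omega)
        have h2 : ((n + 1 : ℕ) : ℂ) * R (n + 1) = R (n + 1) + n * R (n + 1) := by push_cast; ring
        rw [h2]
        nth_rewrite 2 [h1]
        ring
      rw [e]
      have h1 := hRn (n + 1) (by omega)
      have h2 : ‖(n : ℂ) * v n‖ ≤ 1 / h (n / 2) := by
        rw [norm_mul, Complex.norm_natCast]
        have h3 : (h (n / 2) : ℝ) ≤ h n := by exact_mod_cast hh.mono (Nat.div_le_self n 2)
        have h4 : (0 : ℝ) < h (n / 2) := by exact_mod_cast hh.pos _ (by omega : 1 ≤ n / 2)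
        calc (n : ℝ) * ‖v n‖ ≤ n * (1 / ((n : ℝ) * h n)) := mul_le_mul_of_nonneg_left (hvn n) hn0.le
          _ = 1 / h n := by
            have : (0 : ℝ) < h n := by linarith
            field_simp
          _ ≤ 1 / h (n / 2) := div_le_div_of_nonneg_left zero_le_one h4 h3
      have h5 : ‖(n : ℂ) * ∑ x ∈ Ico 1 n, (if x + h x = n then v x else 0)‖ ≤ 2 / h (n / 2) := by
        rw [norm_mul, Complex.norm_natCast]
        have h4 : (0 : ℝ) < h (n / 2) := by exact_mod_cast hh.pos _ (by omega : 1 ≤ n / 2)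
        calc (n : ℝ) * ‖∑ x ∈ Ico 1 n, (if x + h x = n then v x else 0)‖ ≤ n * (2 / (n * h (n / 2))) :=
              mul_le_mul_of_nonneg_left (hlost n hn) hn0.le
          _ = 2 / h (n / 2) := by field_simp
      have h6 : 2 / ((n + 1 : ℕ) : ℝ) ≤ 2 / n := by
        apply div_le_div_of_nonneg_left (by norm_num) hn0
        push_cast
        linarith
      have h7 : 3 / (h (n / 2) : ℝ) = 1 / h (n / 2) + 2 / h (n / 2) := by ring
      rw [h7]
      refine (norm_sub_le _ _).trans ?_
      have h8 := norm_add_le (R (n + 1)) ((n : ℂ) * v n)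
      linarith
  · -- the error term
    set E : ℕ → ℂ := fun N => ∑ x ∈ Ico 1 (N + 1), if N < x + h x then v x * (CS G (x + h x) - CS G N) else 0 with hE
    have hEb : ∀ m, ‖E m‖ ≤ 3 := by
      intro m
      have hterm : ∀ x ∈ Ico 1 (m + 1), ‖(if m < x + h x then v x * (CS G (x + h x) - CS G m) else 0 : ℂ)‖ ≤
          if m < 2 * x then 2 / (m : ℝ) else 0 := by
        intro x hx
        rw [mem_Ico] at hx
        have h4 := hh.le x
        have hx0 : (0 : ℝ) < x := by exact_mod_cast hx.1
        have hh0 : (0 : ℝ) < h x := by exact_mod_cast hh.pos x hx.1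
        have hm0 : (0 : ℝ) < m := by exact_mod_cast (by omega : 0 < m)
        by_cases h1 : m < x + h x
        · rw [if_pos h1, if_pos (by omega : m < 2 * x), norm_mul]
          have h2 := CS_sub hG (le_of_lt h1)
          have h3 : ((x + h x : ℕ) : ℝ) - m ≤ h x := by
            have : (x : ℝ) ≤ m := by exact_mod_cast (by omega : x ≤ m)
            push_cast
            linarith
          calc ‖v x‖ * ‖CS G (x + h x) - CS G m‖ ≤ (1 / ((x : ℝ) * h x)) * h x :=
                mul_le_mul (hvn x) (h2.trans h3) (norm_nonneg _) (by positivity)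
            _ = 1 / x := by field_simp
            _ ≤ 2 / m := by
              rw [div_le_div_iff₀ hx0 hm0]
              have : (m : ℝ) ≤ 2 * x := by exact_mod_cast (by omega : m ≤ 2 * x)
              linarith
        · rw [if_neg h1, norm_zero]
          split_ifs <;> positivity
      rw [hE]
      simp only
      refine (norm_sum_le _ _).trans ((sum_le_sum hterm).trans ?_)
      rw [← sum_filter, sum_const, nsmul_eq_mul]
      rcases Nat.eq_zero_or_pos m with rfl | hm
      · simp
      · have hm0 : (0 : ℝ) < m := by exact_mod_cast hm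
        have hcard : ((Ico 1 (m + 1)).filter (fun x => m < 2 * x)).card ≤ (m + 1) / 2 := by
          have hsub : (Ico 1 (m + 1)).filter (fun x => m < 2 * x) ⊆ Ico (m / 2 + 1) (m + 1) := by
            intro x hx
            rw [mem_filter, mem_Ico] at hx
            rw [mem_Ico]
            omega
          have := card_le_card hsub
          rw [Nat.card_Ico] at this
          omega
        have hc2 : (((Ico 1 (m + 1)).filter (fun x => m < 2 * x)).card : ℝ) ≤ (m + 1) / 2 := by
          have h5 : ((((Ico 1 (m + 1)).filter (fun x => m < 2 * x)).card * 2 : ℕ) : ℝ) ≤ ((m + 1 : ℕ) : ℝ) := by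
            exact_mod_cast (by omega : ((Ico 1 (m + 1)).filter (fun x => m < 2 * x)).card * 2 ≤ m + 1)
          push_cast at h5
          linarith
        calc (((Ico 1 (m + 1)).filter (fun x => m < 2 * x)).card : ℝ) * (2 / m) ≤ ((m : ℝ) + 1) / 2 * (2 / m) :=
              mul_le_mul_of_nonneg_right hc2 (by positivity)
          _ = 1 + 1 / m := by field_simp
          _ ≤ 3 := by
            have : 1 / (m : ℝ) ≤ 1 := by
              rw [div_le_one hm0]
              exact_mod_cast hm
            linarith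
    have key : ∑ x ∈ Ioc A N, θ x * ((CS G (x + h x) - CS G x) / (h x : ℂ)) / (x : ℂ) - ∑ n ∈ Ioc A N, G n * (n * R n) / (n : ℂ) =
        E N - E A := by
      induction N, hAN using Nat.le_induction with
      | base => simp
      | succ N hN ih =>
        rw [← Finset.insert_Ioc_right_eq_Ioc_add_one hN, Finset.sum_insert (by simp), Finset.sum_insert (by simp)]
        have hc : ((N + 1 : ℕ) : ℂ) ≠ 0 := by exact_mod_cast Nat.succ_ne_zero N
        have hhc : ((h (N + 1) : ℕ) : ℂ) ≠ 0 := by
          have := hh.pos (N + 1) (by omega)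
          exact_mod_cast (by omega : h (N + 1) ≠ 0)
        have e1 : θ (N + 1) * ((CS G (N + 1 + h (N + 1)) - CS G (N + 1)) / (h (N + 1) : ℂ)) / ((N + 1 : ℕ) : ℂ) =
            v (N + 1) * (CS G (N + 1 + h (N + 1)) - CS G (N + 1)) := by
          rw [hv]
          simp only
          field_simp
        have e2 : G (N + 1) * (((N + 1 : ℕ) : ℂ) * R (N + 1)) / ((N + 1 : ℕ) : ℂ) = G (N + 1) * R (N + 1) := by
          field_simp
        have e3 : E (N + 1) = E N - G (N + 1) * R (N + 1) + v (N + 1) * (CS G (N + 1 + h (N + 1)) - CS G (N + 1)) := by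
          rw [hE, hR]
          simp only
          rw [sum_Ico_succ_top (by omega : 1 ≤ N + 1), if_pos (by have := hh.pos (N + 1) (by omega); omega), mul_sum]
          congr 1
          rw [← sum_sub_distrib]
          refine sum_congr rfl fun x _ => ?_
          rcases lt_trichotomy (x + h x) (N + 1) with h1 | h1 | h1
          · rw [if_neg (by omega), if_neg (by omega), if_neg (by omega), mul_zero, sub_zero]
          · rw [if_neg (by omega), if_pos (by omega), if_pos (by omega), h1, CS_succ]
            ring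
          · rw [if_pos (by omega), if_pos (by omega), if_pos (by omega), CS_succ]
            ring
        have e4 : θ (N + 1) * ((CS G (N + 1 + h (N + 1)) - CS G (N + 1)) / (h (N + 1) : ℂ)) / ((N + 1 : ℕ) : ℂ) +
            ∑ x ∈ Ioc A N, θ x * ((CS G (x + h x) - CS G x) / (h x : ℂ)) / (x : ℂ) -
            (G (N + 1) * (((N + 1 : ℕ) : ℂ) * R (N + 1)) / ((N + 1 : ℕ) : ℂ) + ∑ n ∈ Ioc A N, G n * (n * R n) / (n : ℂ)) =
            v (N + 1) * (CS G (N + 1 + h (N + 1)) - CS G (N + 1)) - G (N + 1) * R (N + 1) +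
            (∑ x ∈ Ioc A N, θ x * ((CS G (x + h x) - CS G x) / (h x : ℂ)) / (x : ℂ) - ∑ n ∈ Ioc A N, G n * (n * R n) / (n : ℂ)) := by
          rw [e1, e2]; ring
        rw [e4, ih, e3]
        ring
    rw [key]
    refine (norm_sub_le _ _).trans ?_
    linarith [hEb A, hEb N]

end

end Pool.Agent.Y326.Slw
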