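import Pool.Agent.Y326.Slw15

/-!
# Slow phases: rates
-/

set_option autoImplicit false

namespace Pool.Agent.Y326.Slw

open Finset Filter MeasureTheory
open Pool.Agent.TH112.BL Pool.Agent.TH928.BLJ

noncomputable section

/-- phases with rate `r` -/
structure RT (φ : ℝ → ℝ) (r : ℕ → ℝ) : Prop where
  pos : ∀ᶠ n in atTop, 0 < r n
  le : ∀ᶠ n in atTop, r n ≤ 1
  reg : ∀ Q : ℕ, 1 ≤ Q → ∃ c : ℝ, 0 < c ∧ ∀ᶠ n : ℕ in atTop, c * r (n / Q) ≤ r (n + 1)
  sm : ∀ P : Finset ℕ, (∀ p ∈ P, p.Prime) → ∀ κ : ℕ → ℤ, (∃ p ∈ P, κ p ≠ 0) →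
    ∃ D D' : ℝ → ℝ, ∃ x₀ : ℝ, SM (fun x => ∑ p ∈ P, κ p * φ (x / p)) D D' x₀ ∧
      (∃ c : ℝ, 0 < c ∧ ∀ᶠ n : ℕ in atTop, c * (((n : ℝ) + 1) * r (n + 1)) ≤ |D ((n : ℝ) + 1)|) ∧
      (∀ᶠ x in atTop, |1 / D x| ≤ 1)

theorem RT.rp {φ : ℝ → ℝ} {r : ℕ → ℝ} (hr : RT φ r) {h : ℕ → ℕ} (hh : Len h)
    (hlim : Tendsto (fun n => (h n : ℝ) * r n) atTop atTop) : RP φ (D2 h) := by
  have hinv : Tendsto (fun n => ((h n : ℝ) * r n)⁻¹) atTop (nhds 0) := tendsto_inv_atTop_zero.comp hlim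
  have hnn : ∀ n, 0 ≤ D2 h n := fun n => by
    unfold D2
    split_ifs <;> positivity
  have hev : ∀ᶠ n in atTop, (1 : ℝ) / h n ≤ ((h n : ℝ) * r n)⁻¹ := by
    filter_upwards [hr.pos, hr.le, eventually_ge_atTop 1] with n h1 h2 h3
    have h4 : (0 : ℝ) < h n := by exact_mod_cast hh.pos n h3
    rw [one_div]
    apply inv_anti₀ (by positivity)
    exact mul_le_of_le_one_right h4.le h2
  have hh0 : Tendsto (fun n => (1 : ℝ) / h n) atTop (nhds 0) :=
    squeeze_zero' (Eventually.of_forall fun n => by positivity) hev hinv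
  refine ⟨hnn, ?_, fun P hP κ hκ => ?_⟩
  · have h1 : Tendsto (fun n : ℕ => 3 * ((1 : ℝ) / h (n / 2)) + 2 * (1 / (n : ℝ))) atTop (nhds (3 * 0 + 2 * 0)) :=
      ((hh0.comp (Nat.tendsto_div_const_atTop two_ne_zero)).const_mul 3).add
        (tendsto_one_div_atTop_nhds_zero_nat.const_mul 2)
    simp only [mul_zero, add_zero] at h1
    refine h1.congr' ?_
    filter_upwards [eventually_ge_atTop 2] with n hn
    unfold D2
    rw [if_neg (by omega)]
    ring
  · obtain ⟨D, D', x₀, h1, ⟨c₁, hc₁, h2⟩, h3⟩ := hr.sm P hP κ hκ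
    refine ⟨D, D', x₀, h1, fun q hq => ?_, h3⟩
    obtain ⟨c₂, hc₂, h4⟩ := hr.reg (q * 2) (by omega)
    obtain ⟨c₃, hc₃, h5⟩ := hr.reg q hq
    have t1 : Tendsto (fun n : ℕ => n / (q * 2)) atTop atTop := Nat.tendsto_div_const_atTop (by omega)
    have t2 : Tendsto (fun n : ℕ => n / q) atTop atTop := Nat.tendsto_div_const_atTop (by omega)
    have h6 : Tendsto (fun n : ℕ => 3 / (c₁ * c₂) * ((h (n / (q * 2)) : ℝ) * r (n / (q * 2)))⁻¹ +
        2 / (c₁ * c₃) * ((h (n / q) : ℝ) * r (n / q))⁻¹) atTop (nhds (3 / (c₁ * c₂) * 0 + 2 / (c₁ * c₃) * 0)) :=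
      ((hinv.comp t1).const_mul _).add ((hinv.comp t2).const_mul _)
    simp only [mul_zero, add_zero] at h6
    refine squeeze_zero' (Eventually.of_forall fun n => mul_nonneg (hnn _) (by positivity)) ?_ h6
    have hpos1 := (tendsto_add_atTop_nat 1).eventually hr.pos
    filter_upwards [h2, h4, h5, hpos1, t1.eventually hr.pos, t2.eventually hr.pos, t1.eventually (eventually_ge_atTop 1),
      t2.eventually (eventually_ge_atTop 2)] with n a1 a2 a3 a4 a5 a6 a7 a8
    have hn0 : (0 : ℝ) < (n : ℝ) + 1 := by positivity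
    have hD : 0 < |D ((n : ℝ) + 1)| := lt_of_lt_of_le (by positivity) a1
    have b1 : ((n : ℝ) + 1) / |D ((n : ℝ) + 1)| ≤ 1 / (c₁ * r (n + 1)) := by
      rw [div_le_div_iff₀ hD (by positivity)]
      calc ((n : ℝ) + 1) * (c₁ * r (n + 1)) = c₁ * (((n : ℝ) + 1) * r (n + 1)) := by ring
        _ ≤ _ := a1
        _ = _ := by ring
    have hhM : (0 : ℝ) < h (n / (q * 2)) := by exact_mod_cast hh.pos _ a7
    have hhm : (0 : ℝ) < h (n / q) := by exact_mod_cast hh.pos _ (by omega)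
    have b2 : 1 / (c₁ * r (n + 1)) ≤ 1 / (c₁ * (c₂ * r (n / (q * 2)))) :=
      div_le_div_of_nonneg_left zero_le_one (by positivity) (mul_le_mul_of_nonneg_left a2 hc₁.le)
    have b3 : 1 / (c₁ * r (n + 1)) ≤ 1 / (c₁ * (c₃ * r (n / q))) :=
      div_le_div_of_nonneg_left zero_le_one (by positivity) (mul_le_mul_of_nonneg_left a3 hc₁.le)
    have hD2 : D2 h (n / q) = 3 / h (n / (q * 2)) + 2 / ((n / q : ℕ) : ℝ) := by
      unfold D2
      rw [if_neg (by omega), Nat.div_div_eq_div_mul]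
    rw [hD2, add_mul]
    have c1 : 3 / (h (n / (q * 2)) : ℝ) * (((n : ℝ) + 1) / |D ((n : ℝ) + 1)|) ≤
        3 / (c₁ * c₂) * ((h (n / (q * 2)) : ℝ) * r (n / (q * 2)))⁻¹ := by
      calc _ ≤ 3 / (h (n / (q * 2)) : ℝ) * (1 / (c₁ * (c₂ * r (n / (q * 2))))) :=
            mul_le_mul_of_nonneg_left (b1.trans b2) (by positivity)
        _ = _ := by field_simp
    have hm2 : (h (n / q) : ℝ) ≤ ((n / q : ℕ) : ℝ) := by exact_mod_cast hh.le _
    have c2 : 2 / ((n / q : ℕ) : ℝ) * (((n : ℝ) + 1) / |D ((n : ℝ) + 1)|) ≤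
        2 / (c₁ * c₃) * ((h (n / q) : ℝ) * r (n / q))⁻¹ := by
      calc 2 / ((n / q : ℕ) : ℝ) * (((n : ℝ) + 1) / |D ((n : ℝ) + 1)|) ≤
            2 / (h (n / q) : ℝ) * (1 / (c₁ * (c₃ * r (n / q)))) :=
            mul_le_mul (div_le_div_of_nonneg_left (by norm_num) hhm hm2) (b1.trans b3) (by positivity) (by positivity)
        _ = _ := by field_simp
    exact add_le_add c1 c2

/-- powers -/
theorem rt_rpow (c : ℝ) (hc : 0 < c) (hc1 : c < 1) (hi : Ind c) (α : ℝ) (hα : α ≠ 0) :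
    RT (fun x => α * x ^ c) (fun n => (n : ℝ) ^ (c - 1)) := by
  refine ⟨?_, ?_, fun Q hQ => ?_, fun P hP κ hκ => ?_⟩
  · filter_upwards [eventually_ge_atTop 1] with n hn
    exact Real.rpow_pos_of_pos (by exact_mod_cast hn) _
  · filter_upwards [eventually_ge_atTop 1] with n hn
    exact Real.rpow_le_one_of_one_le_of_nonpos (by exact_mod_cast hn) (by linarith)
  · refine ⟨((2 * Q : ℕ) : ℝ) ^ (c - 1), Real.rpow_pos_of_pos (by
      have : 0 < 2 * Q := by omega
      exact_mod_cast this) _, ?_⟩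
    filter_upwards [eventually_ge_atTop Q] with n hn
    have hm : 1 ≤ n / Q := by
      rw [Nat.le_div_iff_mul_le (by omega)]
      omega
    rw [← Real.mul_rpow (Nat.cast_nonneg _) (Nat.cast_nonneg _)]
    have hle : ((n + 1 : ℕ) : ℝ) ≤ ((2 * Q : ℕ) : ℝ) * ((n / Q : ℕ) : ℝ) := by
      have h1 : n < Q * (n / Q + 1) := Nat.lt_mul_div_succ n (by omega)
      have h2 : n + 1 ≤ 2 * Q * (n / Q) := by nlinarith
      exact_mod_cast h2
    exact Real.rpow_le_rpow_of_nonpos (by positivity) hle (by linarith)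
  · obtain ⟨B, hB, h⟩ := rpow_sm c hc hc1 hi α hα P hP κ hκ
    refine ⟨_, _, 2, h, ⟨c * |B|, by positivity, Eventually.of_forall fun n => ?_⟩, ?_⟩
    · have hn0 : (0 : ℝ) < (n : ℝ) + 1 := by positivity
      have hp := Real.rpow_pos_of_pos hn0 c
      push_cast
      rw [Real.rpow_sub_one hn0.ne', abs_mul, abs_mul, abs_of_pos hc, abs_of_pos hp]
      apply le_of_eq
      field_simp
    · have h2 : Tendsto (fun x : ℝ => |1 / (c * B)| * x ^ (-c)) atTop (nhds (|1 / (c * B)| * 0)) :=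
        (tendsto_rpow_neg_atTop hc).const_mul _
      rw [mul_zero] at h2
      filter_upwards [h2.eventually (Metric.ball_mem_nhds 0 zero_lt_one), eventually_gt_atTop 0] with x hx hx0
      have hp := Real.rpow_pos_of_pos hx0 c
      rw [dist_zero_right, Real.norm_eq_abs] at hx
      refine le_trans (le_of_eq ?_) ((le_abs_self _).trans hx.le)
      rw [Real.rpow_neg hx0.le, ← one_div_mul_one_div, abs_mul, one_div (x ^ c), abs_of_pos (inv_pos.2 hp)]

/-- powers of the logarithm -/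
theorem rt_log {I : Type} [Fintype I] (α β : I → ℝ) (i₀ : I) (h1 : 2 < β i₀) (hα : α i₀ ≠ 0)
    (htop : ∀ i, i ≠ i₀ → β i < β i₀) :
    RT (fun x => ∑ i, α i * (Real.log x) ^ (β i)) (fun n => (Real.log n) ^ (β i₀ - 2) / n) := by
  have hl := Real.tendsto_log_atTop
  refine ⟨?_, ?_, fun Q hQ => ?_, fun P hP κ hκ => ?_⟩
  · filter_upwards [eventually_ge_atTop 2] with n hn
    have hn1 : (1 : ℝ) < n := by exact_mod_cast hn
    have := Real.rpow_pos_of_pos (Real.log_pos hn1) (β i₀ - 2)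
    positivity
  · have h2 : Tendsto (fun T : ℝ => T ^ (β i₀ - 2) / Real.exp T) atTop (nhds 0) :=
      (isLittleO_rpow_exp_atTop _).tendsto_div_nhds_zero
    have h3 := (h2.comp hl).comp (tendsto_natCast_atTop_atTop (R := ℝ))
    filter_upwards [h3.eventually (Metric.ball_mem_nhds 0 zero_lt_one), eventually_ge_atTop 1] with n hn hn1
    rw [dist_zero_right, Real.norm_eq_abs] at hn
    have hn0 : (0 : ℝ) < n := by exact_mod_cast hn1
    simp only [Function.comp, Real.exp_log hn0] at hn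
    exact (le_abs_self _).trans hn.le
  · refine ⟨1 / ((2 * Q : ℕ) : ℝ), by
      have : 0 < 2 * Q := by omega
      have : (0 : ℝ) < ((2 * Q : ℕ) : ℝ) := by exact_mod_cast this
      positivity, ?_⟩
    filter_upwards [eventually_ge_atTop Q] with n hn
    have hm : 1 ≤ n / Q := by
      rw [Nat.le_div_iff_mul_le (by omega)]
      omega
    have hm0 : (1 : ℝ) ≤ ((n / Q : ℕ) : ℝ) := by exact_mod_cast hm
    have hQ0 : (0 : ℝ) < ((2 * Q : ℕ) : ℝ) := by
      have : 0 < 2 * Q := by omega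
      exact_mod_cast this
    have hle : ((n + 1 : ℕ) : ℝ) ≤ ((2 * Q : ℕ) : ℝ) * ((n / Q : ℕ) : ℝ) := by
      have h1 : n < Q * (n / Q + 1) := Nat.lt_mul_div_succ n (by omega)
      have h2 : n + 1 ≤ 2 * Q * (n / Q) := by nlinarith
      exact_mod_cast h2
    have hge : ((n / Q : ℕ) : ℝ) ≤ ((n + 1 : ℕ) : ℝ) := by
      exact_mod_cast (Nat.div_le_self n Q).trans (Nat.le_succ n)
    rw [one_div_mul_eq_div, div_div, mul_comm (((n / Q : ℕ) : ℝ))]
    apply div_le_div₀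
    · exact Real.rpow_nonneg (Real.log_nonneg (by linarith)) _
    · exact Real.rpow_le_rpow (Real.log_nonneg hm0) (Real.log_le_log (by linarith) hge) (by linarith)
    · positivity
    · exact hle
  · obtain ⟨G₁, G₂, r, d, x₀, hd, hr, h2, h3⟩ := log_sm α β i₀ (by linarith) hα htop P hP κ hκ
    have hd2 : 0 < |d| / 2 := by positivity
    have h4 : ∀ᶠ T : ℝ in atTop, |d| / 2 * T ^ (β i₀ - 2) ≤ |G₁ T| := by
      have h5 := h3.abs.eventually (lt_mem_nhds (show |d| / 2 < |d| by linarith))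
      filter_upwards [h5, eventually_ge_atTop 1] with T hT hT1
      have hT0 : (0 : ℝ) < T := by linarith
      have hp := Real.rpow_pos_of_pos hT0 r
      rw [abs_mul, Real.rpow_neg hT0.le, abs_inv, abs_of_pos hp, inv_mul_eq_div, lt_div_iff₀ hp] at hT
      refine le_trans ?_ hT.le
      exact mul_le_mul_of_nonneg_left (Real.rpow_le_rpow_of_exponent_le hT1 hr) hd2.le
    refine ⟨_, _, x₀, h2, ⟨|d| / 2, hd2, ?_⟩, ?_⟩
    · have h6 : Tendsto (fun n : ℕ => Real.log ((n : ℝ) + 1)) atTop atTop :=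
        hl.comp (tendsto_atTop_add_const_right _ _ tendsto_natCast_atTop_atTop)
      filter_upwards [h6.eventually h4] with n hn
      refine le_trans (le_of_eq ?_) hn
      have hn0 : (n : ℝ) + 1 ≠ 0 := by positivity
      push_cast
      field_simp
    · have h7 : Tendsto (fun T : ℝ => (|d| / 2)⁻¹ * T ^ (-(β i₀ - 2))) atTop (nhds ((|d| / 2)⁻¹ * 0)) :=
        (tendsto_rpow_neg_atTop (by linarith)).const_mul _
      rw [mul_zero] at h7
      filter_upwards [hl.eventually (h7.eventually (Metric.ball_mem_nhds 0 zero_lt_one)), hl.eventually h4,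
        hl.eventually (eventually_gt_atTop 0)] with x hx hx2 hx0
      have hp := Real.rpow_pos_of_pos hx0 (β i₀ - 2)
      rw [dist_zero_right, Real.norm_eq_abs] at hx
      refine le_trans ?_ ((le_abs_self _).trans hx.le)
      rw [abs_div, abs_one, Real.rpow_neg hx0.le, ← mul_inv, one_div]
      exact inv_anti₀ (by positivity) hx2

end

end Pool.Agent.Y326.Slw
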