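import Pool.Agent.Y326.Slw16

/-!
# Slow phases: full and short averages at almost all scales
-/

set_option autoImplicit false

namespace Pool.Agent.Y326.Slw

open Finset Filter MeasureTheory
open Pool.Agent.TH112.BL Pool.Agent.TH928.BLJ

noncomputable section

open Pool.Agent.TH833.BL (S H S_bound S_add S_smul S_one S_nonneg S_succ shift_diff S_dil S_sub_bound dil_diff H_le le_H one_le_log log_tendsto)

/-- averages over the sets `I x` -/
def av (I : ℕ → Finset ℕ) (g : ℕ → ℂ) (x : ℕ) : ℂ := (∑ n ∈ I x, g n) / ((I x).card : ℂ)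

/-- the absolute values of `B` have averages zero along the windows -/
def ZZ (F : Filter (ℕ × ℕ)) (B : ℕ → ℂ) : Prop := Tendsto (wa (fun x => ‖B x‖)) F (nhds 0)

lemma av_le (I : ℕ → Finset ℕ) {g : ℕ → ℂ} {u : ℕ → ℝ} (h : ∀ n, ‖g n‖ ≤ u n) (x : ℕ) :
    ‖av I g x‖ ≤ (∑ n ∈ I x, u n) / ((I x).card : ℝ) := by
  unfold av
  rw [norm_div, Complex.norm_natCast]
  exact div_le_div_of_nonneg_right ((norm_sum_le _ _).trans (sum_le_sum fun n _ => h n)) (Nat.cast_nonneg _)

lemma av_const (I : ℕ → Finset ℕ) {c : ℝ} (hc : 0 ≤ c) (x : ℕ) : (∑ _n ∈ I x, c) / ((I x).card : ℝ) ≤ c := by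
  rw [sum_const, nsmul_eq_mul]
  rcases Nat.eq_zero_or_pos (I x).card with h | h
  · rw [h]
    simpa using hc
  · have : (0 : ℝ) < (I x).card := by exact_mod_cast h
    rw [mul_div_assoc, mul_div_cancel₀ _ this.ne']

lemma av_sub (I : ℕ → Finset ℕ) (g k : ℕ → ℂ) (x : ℕ) : av I (fun n => g n - k n) x = av I g x - av I k x := by
  unfold av
  rw [sum_sub_distrib, sub_div]

lemma av_add (I : ℕ → Finset ℕ) (g k : ℕ → ℂ) (x : ℕ) : av I (fun n => g n + k n) x = av I g x + av I k x := by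
  unfold av
  rw [sum_add_distrib, add_div]

lemma av_sum {ι : Type*} (I : ℕ → Finset ℕ) (s : Finset ι) (g : ι → ℕ → ℂ) (x : ℕ) :
    av I (fun n => ∑ i ∈ s, g i n) x = ∑ i ∈ s, av I (g i) x := by
  unfold av
  rw [sum_comm, sum_div]

lemma av_smul (I : ℕ → Finset ℕ) (c : ℂ) (g : ℕ → ℂ) (x : ℕ) : av I (fun n => c * g n) x = c * av I g x := by
  unfold av
  rw [← mul_sum, mul_div_assoc]

section

variable {F : Filter (ℕ × ℕ)}

lemma wa_sum {ι : Type*} (s : Finset ι) (u : ι → ℕ → ℝ) (x : ℕ × ℕ) :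
    wa (fun n => ∑ i ∈ s, u i n) x = ∑ i ∈ s, wa (u i) x := by
  classical
  induction s using Finset.induction_on with
  | empty =>
    simp only [sum_empty]
    unfold wa S
    simp
  | insert i s hi ih =>
    rw [sum_insert hi, ← ih, ← wa_add]
    congr 1
    funext n
    rw [sum_insert hi]

lemma wa_one {x : ℕ × ℕ} (hx : 0 < H x.2 - H x.1) (c : ℝ) : wa (fun _ => c) x = c := by
  have e : (fun _ : ℕ => c) = fun n => c * (fun _ : ℕ => (1 : ℝ)) n := by
    funext n
    simp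
  rw [e, wa_smul]
  unfold wa
  rw [S_one, S_one]
  field_simp

lemma wa_mono {u v : ℕ → ℝ} (h : ∀ n, u n ≤ v n) {x : ℕ × ℕ} (hx : 0 < H x.2 - H x.1) : wa u x ≤ wa v x := by
  unfold wa
  rw [S_sub _ (lt_of_H hx).le, S_sub _ (lt_of_H hx).le]
  exact mul_le_mul_of_nonneg_left (sum_le_sum fun n _ => mul_le_mul_of_nonneg_left (h n) (by positivity)) (by positivity)

/-- approximation -/
lemma ZZ_of (hF : Tendsto (fun x : ℕ × ℕ => H x.2 - H x.1) F atTop) {B : ℕ → ℂ}
    (h : ∀ τ : ℝ, 0 < τ → ∃ (ι : Type) (s : Finset ι) (C : ι → ℝ) (B' : ι → ℕ → ℂ), (∀ i ∈ s, ZZ F (B' i)) ∧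
      ∀ x, ‖B x‖ ≤ ∑ i ∈ s, C i * ‖B' i x‖ + τ) : ZZ F B := by
  unfold ZZ
  rw [Metric.tendsto_nhds]
  intro ε hε
  obtain ⟨ι, s, C, B', h1, h2⟩ := h (ε / 4) (by positivity)
  have h3 : Tendsto (fun x => ∑ i ∈ s, C i * wa (fun n => ‖B' i n‖) x) F (nhds (∑ i ∈ s, C i * 0)) :=
    tendsto_finsetSum _ fun i hi => (h1 i hi).const_mul _
  simp only [mul_zero, sum_const_zero] at h3
  filter_upwards [h3.eventually (Metric.ball_mem_nhds 0 (by positivity : 0 < ε / 4)), hF.eventually_gt_atTop 0] with x hx hx0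
  rw [dist_zero_right, Real.norm_eq_abs] at hx ⊢
  have h4 : 0 ≤ wa (fun n => ‖B n‖) x := by
    unfold wa
    rw [S_sub _ (lt_of_H hx0).le]
    exact mul_nonneg (by positivity) (sum_nonneg fun n _ => mul_nonneg (by positivity) (norm_nonneg _))
  rw [abs_of_nonneg h4]
  refine lt_of_le_of_lt (wa_mono h2 hx0) ?_
  rw [wa_add (fun n => ∑ i ∈ s, C i * ‖B' i n‖) (fun _ => ε / 4), wa_one hx0, wa_sum]
  have h5 : ∀ i, wa (fun n => C i * ‖B' i n‖) x = C i * wa (fun n => ‖B' i n‖) x := fun i => wa_smul _ _ _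
  simp only [h5]
  linarith [le_abs_self (∑ i ∈ s, C i * wa (fun n => ‖B' i n‖) x)]

/-- all the correlations twisted by the phase vanish for the averages over `I` -/
def GG (F : Filter (ℕ × ℕ)) (φ : ℝ → ℝ) (I : ℕ → Finset ℕ) : Prop :=
  ∀ (k : ℕ) (f : Fin k → ℕ → ℂ) (a : Fin k → ℕ) (b : Fin k → ℤ) (P₀ : ℕ), MF f a P₀ → ∀ l : ℤ, l ≠ 0 →
    ZZ F (av I (fun n => prd f a b n * ex (l * φ n)))

variable {φ : ℝ → ℝ} {I : ℕ → Finset ℕ} {k : ℕ} {f : Fin k → ℕ → ℂ} {a : Fin k → ℕ} {b : Fin k → ℤ} {P₀ : ℕ}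

theorem GG.cont (h : GG F φ I) (hF : Tendsto (fun x : ℕ × ℕ => H x.2 - H x.1) F atTop) (hf : MF f a P₀)
    (G : C(UnitAddCircle, ℂ)) :
    ZZ F (av I (fun n => prd f a b n * (G ((φ n : ℝ) : UnitAddCircle) - ∫ x, G x))) := by
  apply ZZ_of hF
  intro τ hτ
  obtain ⟨s, c, hsc⟩ := exists_trig1 G (τ / 2) (by positivity)
  have hG : Integrable (fun x => G x) (volume : Measure UnitAddCircle) :=
    G.continuous.integrable_of_hasCompactSupport (HasCompactSupport.of_compactSpace _)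
  have hint : ∀ l : ℤ, Integrable (fun x => c l * fourier l x) (volume : Measure UnitAddCircle) := by
    intro l
    exact ((continuous_const.mul (fourier l).continuous).integrable_of_hasCompactSupport
      (HasCompactSupport.of_compactSpace _))
  have h2 : (∫ x : UnitAddCircle, ∑ l ∈ s, c l * fourier l x) = ∑ l ∈ s, c l * (if l = 0 then 1 else 0) := by
    rw [integral_finsetSum s fun l _ => hint l]
    refine sum_congr rfl fun l _ => ?_
    rw [integral_const_mul, integral_four]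
  have h3 : ‖(∫ x, G x) - ∫ x : UnitAddCircle, ∑ l ∈ s, c l * fourier l x‖ ≤ τ / 2 := by
    rw [← integral_sub hG (integrable_finsetSum s fun l _ => hint l)]
    refine (norm_integral_le_of_norm_le_const (Eventually.of_forall hsc)).trans ?_
    rw [probReal_univ, mul_one]
  set s' := s.filter (fun l => l ≠ 0) with hs'
  have e0 : ∀ x : UnitAddCircle, (∑ l ∈ s, c l * fourier l x) - (∑ l ∈ s, c l * (if l = 0 then 1 else 0)) =
      ∑ l ∈ s', c l * fourier l x := by
    intro x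
    rw [← sum_sub_distrib, hs', sum_filter]
    refine sum_congr rfl fun l _ => ?_
    by_cases hl : l = 0
    · subst hl
      simp
    · rw [if_neg hl, if_pos hl]
      ring
  refine ⟨ℤ, s', fun l => ‖c l‖, fun l => av I (fun n => prd f a b n * ex (l * φ n)), fun l hl => ?_, fun x => ?_⟩
  · exact h k f a b P₀ hf l (mem_filter.1 hl).2
  · have e1 : av I (fun n => prd f a b n * (G ((φ n : ℝ) : UnitAddCircle) - ∫ x, G x)) x =
        ∑ l ∈ s', c l * av I (fun n => prd f a b n * ex (l * φ n)) x +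
        av I (fun n => prd f a b n * ((G ((φ n : ℝ) : UnitAddCircle) - ∑ l ∈ s, c l * fourier l ((φ n : ℝ) : UnitAddCircle)) -
          ((∫ x, G x) - ∫ x : UnitAddCircle, ∑ l ∈ s, c l * fourier l x))) x := by
      simp only [← av_smul]
      rw [← av_sum, ← av_add]
      congr 1
      funext n
      have e2 : ∑ l ∈ s', c l * (prd f a b n * ex (l * φ n)) =
          prd f a b n * ((∑ l ∈ s, c l * fourier l ((φ n : ℝ) : UnitAddCircle)) - ∫ x : UnitAddCircle, ∑ l ∈ s, c l * fourier l x) := by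
        rw [h2, e0, mul_sum]
        refine sum_congr rfl fun l _ => ?_
        rw [four_coe]
        ring
      rw [e2]
      ring
    rw [e1]
    refine (norm_add_le _ _).trans (add_le_add ((norm_sum_le _ _).trans (le_of_eq ?_)) ?_)
    · exact sum_congr rfl fun l _ => norm_mul _ _
    · refine (av_le I (u := fun _ => τ) (fun n => ?_) x).trans (av_const I hτ.le x)
      rw [norm_mul]
      refine (mul_le_of_le_one_left (norm_nonneg _) (norm_prod_le hf n)).trans ((norm_sub_le _ _).trans ?_)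
      linarith [hsc ((φ n : ℝ) : UnitAddCircle)]

theorem GG.arc (h : GG F φ I) (hF : Tendsto (fun x : ℕ × ℕ => H x.2 - H x.1) F atTop) (hf : MF f a P₀)
    (c : UnitAddCircle) (r : ℝ) (hr : 0 ≤ r) (hr2 : 2 * r ≤ 1) :
    ZZ F (av I (fun n => prd f a b n * ((ia c r ((φ n : ℝ) : UnitAddCircle) - 2 * r : ℝ) : ℂ))) := by
  apply ZZ_of hF
  intro τ hτ
  set δ : ℝ := τ / 16 with hδ
  have hδ0 : 0 < δ := by positivity
  -- the outer and the inner approximation
  set c' : ℝ := if r ≤ δ then 0 else 1 with hc'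
  set K : C(UnitAddCircle, ℂ) := mj c r δ - (c' : ℂ) • mj c (r - δ) δ with hK
  have hf0 : MF (fun j : Fin 0 => (j.elim0 : ℕ → ℂ)) (fun j : Fin 0 => (j.elim0 : ℕ)) 0 :=
    ⟨fun j => j.elim0, fun j => j.elim0, fun j => j.elim0⟩
  have z1 := h.cont (b := b) hF hf (mj c r δ)
  have z2 := h.cont (b := fun j : Fin 0 => (j.elim0 : ℤ)) hF hf0 K
  have hKv : ∀ x : UnitAddCircle, K x = ((maj c r δ x - c' * maj c (r - δ) δ x : ℝ) : ℂ) := by
    intro x
    show ((maj c r δ x : ℝ) : ℂ) - (c' : ℂ) * ((maj c (r - δ) δ x : ℝ) : ℂ) = _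
    push_cast
    ring
  have hint : ∀ (ρ : ℝ), Integrable (fun x => maj c ρ δ x) (volume : Measure UnitAddCircle) := fun ρ =>
    (maj_cont c ρ δ).integrable_of_hasCompactSupport (HasCompactSupport.of_compactSpace _)
  have hKint : (∫ x, K x) = (((∫ x, maj c r δ x) - c' * ∫ x, maj c (r - δ) δ x : ℝ) : ℂ) := by
    have e1 : (∫ x, K x) = ∫ x, ((maj c r δ x - c' * maj c (r - δ) δ x : ℝ) : ℂ) := by
      congr 1
      funext x
      exact hKv x
    rw [e1, ← integral_const_mul, ← integral_sub (hint r) ((hint (r - δ)).const_mul _)]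
    exact integral_ofReal
  have hI1 := (integral_maj c r δ hr hδ0).2
  have hI2 := le_integral_maj c r δ hr hr2 hδ0
  have hKsmall : (∫ x, maj c r δ x) - c' * ∫ x, maj c (r - δ) δ x ≤ 4 * δ := by
    rw [hc']
    split_ifs with hrd
    · linarith
    · push Not at hrd
      have h3 := le_integral_maj c (r - δ) δ (by linarith) (by linarith) hδ0
      linarith
  -- pointwise
  have hpt : ∀ x : UnitAddCircle, |ia c r x - maj c r δ x| ≤ maj c r δ x - c' * maj c (r - δ) δ x := by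
    intro x
    have h1 := ia_le_maj c r δ x
    rw [abs_sub_comm, abs_of_nonneg (by linarith)]
    have h2 : c' * maj c (r - δ) δ x ≤ ia c r x := by
      rw [hc']
      split_ifs with hrd
      · rw [zero_mul]; exact ia_nonneg _ _ _
      · rw [one_mul]; exact maj_le_ia c r δ hδ0 x
    linarith
  refine ⟨Fin 2, univ, fun _ => 1, ![av I (fun n => prd f a b n * ((mj c r δ) ((φ n : ℝ) : UnitAddCircle) - ∫ x, (mj c r δ) x)),
    av I (fun n => prd (fun j : Fin 0 => (j.elim0 : ℕ → ℂ)) (fun j : Fin 0 => (j.elim0 : ℕ)) (fun j : Fin 0 => (j.elim0 : ℤ)) n *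
      (K ((φ n : ℝ) : UnitAddCircle) - ∫ x, K x))], fun i _ => ?_, fun x => ?_⟩
  · fin_cases i
    · exact z1
    · exact z2
  · rw [Fin.sum_univ_two]
    simp only [Matrix.cons_val_zero, Matrix.cons_val_one, one_mul]
    have e0 : ∀ n, prd (fun j : Fin 0 => (j.elim0 : ℕ → ℂ)) (fun j : Fin 0 => (j.elim0 : ℕ)) (fun j : Fin 0 => (j.elim0 : ℤ)) n = 1 := by
      intro n
      unfold prd
      simp
    simp only [e0, one_mul]
    have e1 : av I (fun n => prd f a b n * ((ia c r ((φ n : ℝ) : UnitAddCircle) - 2 * r : ℝ) : ℂ)) x =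
        av I (fun n => prd f a b n * ((mj c r δ) ((φ n : ℝ) : UnitAddCircle) - ∫ x, (mj c r δ) x)) x +
        av I (fun n => prd f a b n * (((ia c r ((φ n : ℝ) : UnitAddCircle) - maj c r δ ((φ n : ℝ) : UnitAddCircle)) +
          ((∫ x, maj c r δ x) - 2 * r) : ℝ) : ℂ)) x := by
      rw [← av_add]
      congr 1
      funext n
      rw [mj_int]
      show _ = prd f a b n * (((maj c r δ ((φ n : ℝ) : UnitAddCircle) : ℝ) : ℂ) - _) + _
      push_cast
      ring
    rw [e1, add_assoc]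
    refine (norm_add_le _ _).trans (add_le_add le_rfl ?_)
    -- the error
    have h5 : ‖av I (fun n => prd f a b n * (((ia c r ((φ n : ℝ) : UnitAddCircle) - maj c r δ ((φ n : ℝ) : UnitAddCircle)) +
          ((∫ x, maj c r δ x) - 2 * r) : ℝ) : ℂ)) x‖ ≤
        (∑ n ∈ I x, ((maj c r δ ((φ n : ℝ) : UnitAddCircle) - c' * maj c (r - δ) δ ((φ n : ℝ) : UnitAddCircle)) + 2 * δ)) / ((I x).card : ℝ) := by
      apply av_le
      intro n
      rw [norm_mul]
      refine (mul_le_of_le_one_left (norm_nonneg _) (norm_prod_le hf n)).trans ?_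
      rw [Complex.norm_real, Real.norm_eq_abs]
      refine (abs_add_le _ _).trans (add_le_add (hpt _) ?_)
      rw [abs_of_nonneg (by linarith)]
      linarith
    refine h5.trans ?_
    have h6 : (∑ n ∈ I x, ((maj c r δ ((φ n : ℝ) : UnitAddCircle) - c' * maj c (r - δ) δ ((φ n : ℝ) : UnitAddCircle)) + 2 * δ)) / ((I x).card : ℝ) =
        (av I (fun n => K ((φ n : ℝ) : UnitAddCircle) - ∫ x, K x) x).re +
        (∑ n ∈ I x, (((∫ x, maj c r δ x) - c' * ∫ x, maj c (r - δ) δ x) + 2 * δ)) / ((I x).card : ℝ) := by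
      unfold av
      rw [show (((I x).card : ℕ) : ℂ) = (((I x).card : ℝ) : ℂ) by simp, Complex.div_ofReal_re, ← add_div]
      congr 1
      rw [Complex.re_sum, ← sum_add_distrib]
      refine sum_congr rfl fun n _ => ?_
      rw [hKv, hKint, ← Complex.ofReal_sub, Complex.ofReal_re]
      ring
    rw [h6]
    refine add_le_add ((le_abs_self _).trans (Complex.abs_re_le_norm _)) ?_
    have hKnn : 0 ≤ (∫ x, maj c r δ x) - c' * ∫ x, maj c (r - δ) δ x := by
      have e7 : (∫ x, maj c r δ x) - c' * ∫ x, maj c (r - δ) δ x = ∫ x, (maj c r δ x - c' * maj c (r - δ) δ x) := by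
        rw [← integral_const_mul, ← integral_sub (hint r) ((hint (r - δ)).const_mul _)]
      rw [e7]
      exact integral_nonneg fun x => (abs_nonneg _).trans (hpt x)
    refine (av_const I (by linarith) x).trans ?_
    linarith

end

lemma Ker.mono {B G : ℕ → ℂ} {Δ Δ' : ℕ → ℝ} (h : Ker B G Δ) (hle : ∀ n, Δ n ≤ Δ' n) : Ker B G Δ' := by
  intro θ hθ
  obtain ⟨Θ, h1, h2, h3⟩ := h θ hθ
  exact ⟨Θ, h1, fun n => (h2 n).trans (hle n), h3⟩

/-- the intervals of the full averages -/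
def IF (x : ℕ) : Finset ℕ := Icc 1 x

/-- the short intervals -/
def IS (h : ℕ → ℕ) (x : ℕ) : Finset ℕ := Ioc x (x + h x)

lemma av_IF (g : ℕ → ℂ) (x : ℕ) : av IF g x = CS g x / x := by
  unfold av IF CS
  rw [Nat.card_Icc, Nat.add_sub_cancel]

lemma CS_Ioc (g : ℕ → ℂ) (x y : ℕ) : ∑ n ∈ Ioc x (x + y), g n = CS g (x + y) - CS g x := by
  induction y with
  | zero => simp
  | succ y ih =>
    rw [← add_assoc, CS_succ, ← Finset.insert_Ioc_right_eq_Ioc_add_one (by omega), Finset.sum_insert (by simp), ih]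
    ring

lemma av_IS (h : ℕ → ℕ) (g : ℕ → ℂ) (x : ℕ) : av (IS h) g x = (CS g (x + h x) - CS g x) / (h x : ℂ) := by
  unfold av IS
  rw [Nat.card_Ioc, Nat.add_sub_cancel_left, CS_Ioc]

theorem gg_short {F : Filter (ℕ × ℕ)} (hF : Tendsto (fun x : ℕ × ℕ => H x.2 - H x.1) F atTop) {φ : ℝ → ℝ} {r : ℕ → ℝ}
    (hr : RT φ r) {h : ℕ → ℕ} (hh : Len h) (hlim : Tendsto (fun n => (h n : ℝ) * r n) atTop atTop) : GG F φ (IS h) := by
  intro k f a b P₀ hf l hl
  have hG : ∀ n, ‖prd f a b n * ex (l * φ n)‖ ≤ 1 := fun n => by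
    rw [norm_mul, norm_ex, mul_one]
    exact norm_prod_le hf n
  have h1 := ker_short hG hh
  have h2 : (av (IS h) (fun n => prd f a b n * ex (l * φ n))) =
      fun x => (CS (fun n => prd f a b n * ex (l * φ n)) (x + h x) - CS (fun n => prd f a b n * ex (l * φ n)) x) / (h x : ℂ) := by
    funext x
    exact av_IS h _ x
  rw [← h2] at h1
  refine abs_zero' hF (((hr.rp hh hlim).mul l hl)) hf (fun x => ?_) h1
  refine (av_le (IS h) (u := fun _ => 1) hG x).trans (av_const _ zero_le_one x)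

theorem gg_full {F : Filter (ℕ × ℕ)} (hF : Tendsto (fun x : ℕ × ℕ => H x.2 - H x.1) F atTop) {φ : ℝ → ℝ} {r : ℕ → ℝ}
    (hr : RT φ r) (hlim : Tendsto (fun n : ℕ => (n : ℝ) * r n) atTop atTop) : GG F φ IF := by
  intro k f a b P₀ hf l hl
  have hG : ∀ n, ‖prd f a b n * ex (l * φ n)‖ ≤ 1 := fun n => by
    rw [norm_mul, norm_ex, mul_one]
    exact norm_prod_le hf n
  have hh : Len id := ⟨monotone_id, fun x hx => hx, fun x => le_rfl⟩
  have h0 : ∀ n, D1 n ≤ D2 id n := by
    intro n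
    unfold D1 D2
    by_cases h0 : n = 0
    · rw [if_pos h0, if_pos (by omega)]
    · by_cases h1 : n < 2
      · have : n = 1 := by omega
        subst this
        norm_num
      · rw [if_neg h0, if_neg h1]
        have h2 : (0 : ℝ) < ((n / 2 : ℕ) : ℝ) := by exact_mod_cast (by omega : 0 < n / 2)
        have h3 : ((n / 2 : ℕ) : ℝ) ≤ n := by exact_mod_cast Nat.div_le_self n 2
        have h4 : 3 / (n : ℝ) ≤ 3 / ((n / 2 : ℕ) : ℝ) := div_le_div_of_nonneg_left (by norm_num) h2 h3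
        have h5 : (0 : ℝ) ≤ 2 / n := by positivity
        simp only [id]
        linarith
  have h1 := (ker_full hG).mono h0
  have h2 : (av IF (fun n => prd f a b n * ex (l * φ n))) =
      fun x => CS (fun n => prd f a b n * ex (l * φ n)) x / (x : ℂ) := by
    funext x
    exact av_IF _ x
  rw [← h2] at h1
  refine abs_zero' hF (((hr.rp hh hlim).mul l hl)) hf (fun x => ?_) h1
  refine (av_le IF (u := fun _ => 1) hG x).trans (av_const _ zero_le_one x)

/-! ## windows in terms of the logarithm -/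

lemma H_sub_le {A N : ℕ} (hA : 1 ≤ A) (h : A ≤ N) : H N - H A ≤ Real.log N - Real.log A := by
  induction N, h using Nat.le_induction with
  | base => simp
  | succ N hN ih =>
    rw [H_succ]
    have hN0 : (0 : ℝ) < N := by exact_mod_cast (by omega : 0 < N)
    have h1 : 1 / ((N : ℝ) + 1) ≤ Real.log ((N + 1 : ℕ) : ℝ) - Real.log N := by
      have h2 := Real.log_le_sub_one_of_pos (show 0 < (N : ℝ) / ((N : ℝ) + 1) by positivity)
      rw [Real.log_div hN0.ne' (by positivity)] at h2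
      have e : (N : ℝ) / ((N : ℝ) + 1) - 1 = -(1 / ((N : ℝ) + 1)) := by field_simp; ring
      rw [e] at h2
      push_cast
      linarith
    linarith

lemma le_H_sub {A N : ℕ} (h : A ≤ N) : Real.log ((N : ℝ) + 1) - Real.log ((A : ℝ) + 1) ≤ H N - H A := by
  induction N, h using Nat.le_induction with
  | base => simp
  | succ N hN ih =>
    rw [H_succ]
    have h1 : Real.log (((N + 1 : ℕ) : ℝ) + 1) - Real.log ((N : ℝ) + 1) ≤ 1 / ((N : ℝ) + 1) := by
      have h2 := Real.log_le_sub_one_of_pos (show 0 < (((N + 1 : ℕ) : ℝ) + 1) / ((N : ℝ) + 1) by positivity)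
      rw [Real.log_div (by positivity) (by positivity)] at h2
      have e : (((N + 1 : ℕ) : ℝ) + 1) / ((N : ℝ) + 1) - 1 = 1 / ((N : ℝ) + 1) := by
        push_cast
        field_simp
        ring
      rw [e] at h2
      exact h2
    linarith

/-- all long windows -/
def FW : Filter (ℕ × ℕ) := comap (fun x : ℕ × ℕ => H x.2 - H x.1) atTop

lemma FW_tendsto : Tendsto (fun x : ℕ × ℕ => H x.2 - H x.1) FW atTop := tendsto_comap

/-- the averages are small at almost all scales, uniformly in all long windows -/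
theorem almost_all {B : ℕ → ℂ} (h : ZZ FW B) (ε : ℝ) (hε : 0 < ε) : ∃ C : ℕ, ∀ A N : ℕ, 1 ≤ A → C * A ≤ N →
    ∑ x ∈ Ioc A N, ‖B x‖ / x ≤ ε * Real.log ((N : ℝ) / A) := by
  have h1 : ∀ᶠ x in FW, wa (fun x => ‖B x‖) x < ε := by
    filter_upwards [h.eventually (Metric.ball_mem_nhds 0 hε)] with x hx
    rw [dist_zero_right, Real.norm_eq_abs] at hx
    exact (le_abs_self _).trans_lt hx
  unfold FW at h1
  rw [eventually_comap] at h1
  obtain ⟨T, hT⟩ := eventually_atTop.1 h1
  obtain ⟨C, hC⟩ := exists_nat_gt (2 * Real.exp (max T 1))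
  refine ⟨C, fun A N hA hN => ?_⟩
  have hA0 : (1 : ℝ) ≤ A := by exact_mod_cast hA
  have hCpos : (0 : ℝ) < C := lt_trans (by positivity) hC
  have hC1 : 1 ≤ C := by exact_mod_cast hCpos
  have hAN : A ≤ N := le_trans (Nat.le_mul_of_pos_left A hC1) hN
  have hNr : (C : ℝ) * A ≤ N := by exact_mod_cast hN
  have h2 : max T 1 ≤ H N - H A := by
    refine le_trans ?_ (le_H_sub hAN)
    rw [← Real.log_div (by positivity) (by positivity), Real.le_log_iff_exp_le (by positivity), le_div_iff₀ (by positivity)]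
    have h3 : Real.exp (max T 1) ≤ C / 2 := by linarith
    calc Real.exp (max T 1) * ((A : ℝ) + 1) ≤ C / 2 * ((A : ℝ) + 1) := mul_le_mul_of_nonneg_right h3 (by positivity)
      _ ≤ C / 2 * (2 * A) := mul_le_mul_of_nonneg_left (by linarith) (by positivity)
      _ = C * A := by ring
      _ ≤ (N : ℝ) + 1 := by linarith
  have h4 := hT _ ((le_max_left _ _).trans h2) (A, N) rfl
  have hpos : 0 < H N - H A := lt_of_lt_of_le (lt_of_lt_of_le one_pos (le_max_right T 1)) h2
  unfold wa at h4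
  simp only at h4
  rw [S_sub _ hAN, one_div, inv_mul_lt_iff₀ hpos] at h4
  have e : ∑ x ∈ Ioc A N, ‖B x‖ / (x : ℝ) = ∑ x ∈ Ioc A N, (1 / (x : ℝ)) * ‖B x‖ :=
    sum_congr rfl fun x _ => by ring
  rw [e]
  refine h4.le.trans ?_
  have hN0 : (N : ℝ) ≠ 0 := by
    have : (A : ℝ) ≤ N := by exact_mod_cast hAN
    linarith
  rw [Real.log_div hN0 (by positivity), mul_comm]
  exact mul_le_mul_of_nonneg_left (H_sub_le hA hAN) hε.le

end

end Pool.Agent.Y326.Slw
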