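import Pool.Agent.Y326.Slw2
import Pool.Agent.Y326.Null

/-!
# Slow phases: the local variables are independent and uniformly distributed
-/

set_option autoImplicit false

namespace Pool.Agent.Y326.Slw

open Finset Filter MeasureTheory UnitAddTorus
open Pool.Agent.TH112.BL Pool.Agent.TH928.BLJ

/-- The slow phases for a mean. -/
structure SP (μ : LM) (φ : ℝ → ℝ) : Prop where
  slow : ∀ p : ℕ, p.Prime → Tendsto (fun m : ℕ => φ (((m + 1 : ℕ) : ℝ) / p) - φ ((m : ℝ) / p)) atTop (nhds 0)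
  weyl : ∀ P : Finset ℕ, (∀ p ∈ P, p.Prime) → ∀ κ : ℕ → ℤ, (∃ p ∈ P, κ p ≠ 0) →
    μ.m (fun m => (ex (∑ p ∈ P, κ p * φ ((m : ℝ) / p))).re) = 0 ∧
    μ.m (fun m => (ex (∑ p ∈ P, κ p * φ ((m : ℝ) / p))).im) = 0

lemma ex_sum {ι : Type*} (s : Finset ι) (g : ι → ℝ) : ex (∑ i ∈ s, g i) = ∏ i ∈ s, ex (g i) := by
  classical
  induction s using Finset.induction_on with
  | empty => simp [ex]
  | insert i s hi ih => rw [sum_insert hi, prod_insert hi, ex_add, ih]

lemma ex_int (n : ℤ) : ex n = 1 := by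
  unfold ex
  rw [show 2 * (Real.pi : ℂ) * Complex.I * ((n : ℝ) : ℂ) = n * (2 * Real.pi * Complex.I) by push_cast; ring]
  exact Complex.exp_int_mul_two_pi_mul_I n

lemma ex_sub_one (x : ℝ) : ‖ex x - 1‖ ≤ 2 * Real.pi * |x| := by
  have h1 := Real.norm_exp_I_mul_ofReal_sub_one_le (x := 2 * Real.pi * x)
  rw [Real.norm_eq_abs, abs_mul, abs_of_pos Real.two_pi_pos] at h1
  refine le_trans (le_of_eq ?_) h1
  unfold ex
  congr 3
  push_cast
  ring

lemma ex_sub (x y : ℝ) : ‖ex x - ex y‖ ≤ 2 * Real.pi * |x - y| := by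
  have e : ex x - ex y = ex y * (ex (x - y) - 1) := by
    rw [mul_sub, ← ex_add, mul_one]
    congr 2
    ring
  rw [e, norm_mul, norm_ex, one_mul]
  exact ex_sub_one _

lemma four_coe (n : ℤ) (x : ℝ) : (fourier n (x : UnitAddCircle) : ℂ) = ex (n * x) := by
  rw [fourier_coe_apply]
  unfold ex
  congr 1
  push_cast
  ring

section torus

variable {ι : Type} [Fintype ι] [DecidableEq ι]

/-- the circle has measure one -/
instance instProbCircle : IsProbabilityMeasure (volume : Measure UnitAddCircle) := ⟨UnitAddCircle.measure_univ⟩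

lemma integral_four (n : ℤ) : ∫ η : UnitAddCircle, (fourier n η : ℂ) = if n = 0 then 1 else 0 := by
  split_ifs with h
  · subst h
    simp
  · exact integral_eq_zero_of_add_right_eq_neg (μ := volume)
      (fun x => fourier_add_half_inv_index h one_pos x)

lemma integral_mF (k : ι → ℤ) : ∫ x : UnitAddTorus ι, (mFourier k x : ℂ) = if k = 0 then 1 else 0 := by
  have e3 := integral_fintype_prod_volume_eq_prod (𝕜 := ℂ) (fun (i : ι) (y : UnitAddCircle) => (fourier (k i) y : ℂ))
  refine Eq.trans ?_ (e3.trans ?_)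
  · rfl
  · simp only [integral_four]
    by_cases hk : k = 0
    · rw [if_pos hk, hk]
      simp
    · rw [if_neg hk]
      obtain ⟨i, hi⟩ := Function.ne_iff.1 hk
      exact prod_eq_zero (mem_univ i) (if_neg hi)

omit [DecidableEq ι] in
lemma exists_trig' (f : C(UnitAddTorus ι, ℂ)) (τ : ℝ) (hτ : 0 < τ) :
    ∃ (s : Finset (ι → ℤ)) (c : (ι → ℤ) → ℂ), ∀ x, ‖f x - ∑ k ∈ s, c k * mFourier k x‖ ≤ τ := by
  have h1 : f ∈ (Submodule.span ℂ (Set.range (mFourier (d := ι)))).topologicalClosure := by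
    rw [span_mFourier_closure_eq_top]; trivial
  have h2 : f ∈ closure ((Submodule.span ℂ (Set.range (mFourier (d := ι)))) : Set C(UnitAddTorus ι, ℂ)) := h1
  obtain ⟨p, hp, hd⟩ := Metric.mem_closure_iff.1 h2 τ hτ
  obtain ⟨c, hc⟩ := Finsupp.mem_span_range_iff_exists_finsupp.1 hp
  refine ⟨c.support, c, fun x => ?_⟩
  have e : ∑ k ∈ c.support, c k * mFourier k x = p x := by
    rw [← hc, Finsupp.sum]
    rw [ContinuousMap.coe_sum, Finset.sum_apply]
    rfl
  rw [e]
  have := (f - p).norm_coe_le_norm x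
  rw [← dist_eq_norm] at this
  exact this.trans hd.le

/-- equidistribution of continuous functions from the Weyl sums -/
lemma mean_cont (μ : LM) (Θ : ℕ → UnitAddTorus ι)
    (h : ∀ k : ι → ℤ, k ≠ 0 → μ.m (fun m => (mFourier k (Θ m)).re) = 0 ∧ μ.m (fun m => (mFourier k (Θ m)).im) = 0)
    (G : C(UnitAddTorus ι, ℂ)) : μ.m (fun m => (G (Θ m)).re) = (∫ x, G x).re := by
  have bm : ∀ k : ι → ℤ, ∀ x, ‖mFourier k x‖ ≤ 1 := fun k x =>
    ((mFourier k).norm_coe_le_norm x).trans (le_of_eq mFourier_norm)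
  have b1 : ∀ k : ι → ℤ, Bd (fun m => (mFourier k (Θ m)).re) := fun k =>
    ⟨1, fun m => (Complex.abs_re_le_norm _).trans (bm k _)⟩
  have b2 : ∀ k : ι → ℤ, Bd (fun m => (mFourier k (Θ m)).im) := fun k =>
    ⟨1, fun m => (Complex.abs_im_le_norm _).trans (bm k _)⟩
  have one : ∀ (k : ι → ℤ) (c : ℂ), Bd (fun m => (c * mFourier k (Θ m)).re) ∧
      μ.m (fun m => (c * mFourier k (Θ m)).re) = (c * ∫ x, (mFourier k x : ℂ)).re := by
    intro k c
    have e : (fun m => (c * mFourier k (Θ m)).re) = fun m => c.re * (mFourier k (Θ m)).re +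
        (-c.im) * (mFourier k (Θ m)).im := by
      funext m
      rw [Complex.mul_re]; ring
    rw [e]
    refine ⟨((b1 k).cmul _).add ((b2 k).cmul _), ?_⟩
    rw [μ.add _ _ ((b1 k).cmul _) ((b2 k).cmul _), μ.smul _ _ (b1 k), μ.smul _ _ (b2 k), integral_mF]
    by_cases hk : k = 0
    · rw [if_pos hk, hk]
      have e1 : (fun m => (mFourier (0 : ι → ℤ) (Θ m)).re) = fun _ => 1 := by
        funext m
        rw [mFourier_zero]
        simp
      have e2 : (fun m => (mFourier (0 : ι → ℤ) (Θ m)).im) = fun _ => 0 := by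
        funext m
        rw [mFourier_zero]
        simp
      rw [e1, e2, μ.one, μ.zero]
      simp
    · rw [if_neg hk, (h k hk).1, (h k hk).2]
      simp
  have main : ∀ τ : ℝ, 0 < τ → |μ.m (fun m => (G (Θ m)).re) - (∫ x, G x).re| ≤ 2 * τ := by
    intro τ hτ
    obtain ⟨s, c, hsc⟩ := exists_trig' G τ hτ
    have hint : ∀ k : ι → ℤ, Integrable (fun x => c k * mFourier k x) (volume : Measure (UnitAddTorus ι)) := by
      intro k
      exact ((continuous_const.mul (mFourier k).continuous).integrable_of_hasCompactSupport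
        (HasCompactSupport.of_compactSpace _))
    have hG : Integrable (fun x => G x) (volume : Measure (UnitAddTorus ι)) :=
      G.continuous.integrable_of_hasCompactSupport (HasCompactSupport.of_compactSpace _)
    have bG : Bd (fun m => (G (Θ m)).re) := ⟨‖G‖, fun m => (Complex.abs_re_le_norm _).trans (G.norm_coe_le_norm _)⟩
    have bT : Bd (fun m => ∑ k ∈ s, (c k * mFourier k (Θ m)).re) := Bd.sum s fun k _ => (one k (c k)).1
    have h1 : |μ.m (fun m => (G (Θ m)).re) - μ.m (fun m => ∑ k ∈ s, (c k * mFourier k (Θ m)).re)| ≤ τ := by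
      rw [← μ.sub bG bT]
      have b3 : Bd (fun m => (G (Θ m)).re - ∑ k ∈ s, (c k * mFourier k (Θ m)).re) := by
        have := bG.add (bT.cmul (-1))
        simpa [sub_eq_add_neg] using this
      refine abs_m_le_large μ b3 τ 0 fun m _ => ?_
      rw [← Complex.re_sum, ← Complex.sub_re]
      exact (Complex.abs_re_le_norm _).trans (hsc _)
    have h2 : μ.m (fun m => ∑ k ∈ s, (c k * mFourier k (Θ m)).re) = (∫ x, ∑ k ∈ s, c k * mFourier k x).re := by
      rw [μ.sum s fun k _ => (one k (c k)).1, integral_finsetSum s fun k _ => hint k, Complex.re_sum]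
      refine sum_congr rfl fun k _ => ?_
      rw [(one k (c k)).2, integral_const_mul]
    have h3 : ‖(∫ x, G x) - ∫ x, ∑ k ∈ s, c k * mFourier k x‖ ≤ τ := by
      rw [← integral_sub hG (integrable_finsetSum s fun k _ => hint k)]
      refine (norm_integral_le_of_norm_le_const (Eventually.of_forall hsc)).trans ?_
      rw [probReal_univ, mul_one]
    rw [h2] at h1
    have h4 : |(∫ x, G x).re - (∫ x, ∑ k ∈ s, c k * mFourier k x).re| ≤ τ := by
      rw [← Complex.sub_re]
      exact (Complex.abs_re_le_norm _).trans h3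
    have h5 := abs_sub_le (μ.m (fun m => (G (Θ m)).re)) (∫ x, ∑ k ∈ s, c k * mFourier k x).re (∫ x, G x).re
    rw [abs_sub_comm (∫ x, ∑ k ∈ s, c k * mFourier k x).re] at h5
    linarith
  by_contra hne
  have h1 : 0 < |μ.m (fun m => (G (Θ m)).re) - (∫ x, G x).re| := abs_pos.2 (sub_ne_zero.2 hne)
  have := main (|μ.m (fun m => (G (Θ m)).re) - (∫ x, G x).re| / 4) (by positivity)
  linarith

end torus

/-! ## majorants -/

/-- a continuous majorant of the ball of radius `r` -/
noncomputable def maj (c : UnitAddCircle) (r δ : ℝ) (x : UnitAddCircle) : ℝ := max 0 (1 - max 0 (dist x c - r) / δ)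

lemma maj_cont (c : UnitAddCircle) (r δ : ℝ) : Continuous (maj c r δ) := by
  unfold maj
  fun_prop

lemma maj_nonneg (c : UnitAddCircle) (r δ : ℝ) (x : UnitAddCircle) : 0 ≤ maj c r δ x := le_max_left _ _

lemma maj_le (c : UnitAddCircle) (r δ : ℝ) (hδ : 0 < δ) (x : UnitAddCircle) : maj c r δ x ≤ 1 := by
  unfold maj
  refine max_le zero_le_one ?_
  have : 0 ≤ max 0 (dist x c - r) / δ := by positivity
  linarith

lemma one_le_maj (c : UnitAddCircle) (r δ : ℝ) (x : UnitAddCircle) (hx : dist x c ≤ r) : 1 ≤ maj c r δ x := by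
  unfold maj
  rw [max_eq_left (by linarith : dist x c - r ≤ 0), zero_div, sub_zero]
  exact le_max_right _ _

lemma maj_zero (c : UnitAddCircle) (r δ : ℝ) (hδ : 0 < δ) (x : UnitAddCircle) (hx : r + δ < dist x c) :
    maj c r δ x = 0 := by
  unfold maj
  apply max_eq_left
  have h1 : δ ≤ max 0 (dist x c - r) := le_trans (by linarith) (le_max_right _ _)
  have h2 : 1 ≤ max 0 (dist x c - r) / δ := by rw [le_div_iff₀ hδ]; linarith
  linarith

lemma integral_maj (c : UnitAddCircle) (r δ : ℝ) (hr : 0 ≤ r) (hδ : 0 < δ) :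
    0 ≤ ∫ x, maj c r δ x ∧ ∫ x, maj c r δ x ≤ 2 * r + 2 * δ := by
  refine ⟨integral_nonneg fun x => maj_nonneg c r δ x, ?_⟩
  have h1 : ∫ x, maj c r δ x ≤ ∫ x, (Metric.closedBall c (r + δ)).indicator (fun _ => (1 : ℝ)) x := by
    apply integral_mono
    · exact (maj_cont c r δ).integrable_of_hasCompactSupport (HasCompactSupport.of_compactSpace _)
    · exact (integrable_const (1 : ℝ)).indicator measurableSet_closedBall
    · intro x
      show maj c r δ x ≤ (Metric.closedBall c (r + δ)).indicator (fun _ => (1 : ℝ)) x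
      by_cases hx : x ∈ Metric.closedBall c (r + δ)
      · rw [Set.indicator_of_mem hx]; exact maj_le c r δ hδ x
      · rw [Set.indicator_of_notMem hx]
        rw [Metric.mem_closedBall, not_le] at hx
        exact (maj_zero c r δ hδ x hx).le
  refine h1.trans ?_
  rw [integral_indicator_const (1 : ℝ) measurableSet_closedBall, smul_eq_mul, mul_one]
  unfold Measure.real
  rw [AddCircle.volume_closedBall, ENNReal.toReal_ofReal]
  · exact (min_le_right _ _).trans (by linarith)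
  · exact le_min zero_le_one (by positivity)

section loc

variable {μ : LM} {φ : ℝ → ℝ}

/-- the point of the torus -/
noncomputable def Th (φ : ℝ → ℝ) (P : Finset ℕ) (m : ℕ) : UnitAddTorus {p // p ∈ P} :=
  fun p => ((φ ((m : ℝ) / (p : ℕ)) : ℝ) : UnitAddCircle)

lemma Th_weyl (h : SP μ φ) (P : Finset ℕ) (hP : ∀ p ∈ P, p.Prime) (k : {p // p ∈ P} → ℤ) (hk : k ≠ 0) :
    μ.m (fun m => (mFourier k (Th φ P m)).re) = 0 ∧ μ.m (fun m => (mFourier k (Th φ P m)).im) = 0 := by
  classical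
  set κ : ℕ → ℤ := fun p => if hp : p ∈ P then k ⟨p, hp⟩ else 0 with hκ
  have hne : ∃ p ∈ P, κ p ≠ 0 := by
    obtain ⟨p, hp⟩ := Function.ne_iff.1 hk
    refine ⟨p, p.2, ?_⟩
    rw [hκ]
    simp only [p.2, dif_pos]
    exact hp
  have e : ∀ m, (mFourier k (Th φ P m) : ℂ) = ex (∑ p ∈ P, κ p * φ ((m : ℝ) / p)) := by
    intro m
    show (∏ p, (fourier (k p) (Th φ P m p) : ℂ)) = _
    rw [ex_sum, ← prod_coe_sort P]
    refine prod_congr rfl fun p _ => ?_
    unfold Th
    rw [four_coe, hκ]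
    simp only [p.2, dif_pos]
  simp only [e]
  exact h.weyl P hP κ hne

/-- boxes have at most the right mean -/
lemma box_le (h : SP μ φ) (P : Finset ℕ) (hP : ∀ p ∈ P, p.Prime) (c : ℕ → UnitAddCircle) (r : ℕ → ℝ)
    (hr : ∀ p, 0 ≤ r p) (δ : ℝ) (hδ : 0 < δ) :
    μ.m (ind (fun m => ∀ p ∈ P, dist ((φ ((m : ℝ) / p) : ℝ) : UnitAddCircle) (c p) ≤ r p)) ≤
      ∏ p ∈ P, (2 * r p + 2 * δ) := by
  classical
  set G : C(UnitAddTorus {p // p ∈ P}, ℂ) :=
    ⟨fun x => ((∏ p : {p // p ∈ P}, maj (c p) (r p) δ (x p) : ℝ) : ℂ), by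
      refine Complex.continuous_ofReal.comp (continuous_finsetProd _ fun p _ => ?_)
      exact (maj_cont _ _ _).comp (continuous_apply p)⟩ with hG
  have h1 := mean_cont μ (Th φ P) (Th_weyl h P hP) G
  have e1 : ∀ x, (G x).re = ∏ p : {p // p ∈ P}, maj (c p) (r p) δ (x p) := fun x => Complex.ofReal_re _
  have h2 : (∫ x, G x).re = ∏ p ∈ P, ∫ y, maj (c p) (r p) δ y := by
    have e2 : (∫ x, G x) = ((∫ x : UnitAddTorus {p // p ∈ P}, ∏ p : {p // p ∈ P}, maj (c p) (r p) δ (x p) : ℝ) : ℂ) :=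
      integral_ofReal
    rw [e2, Complex.ofReal_re]
    have e3 := integral_fintype_prod_volume_eq_prod (𝕜 := ℝ) (fun (p : {p // p ∈ P}) (y : UnitAddCircle) => maj (c p) (r p) δ y)
    refine Eq.trans ?_ (e3.trans ?_)
    · rfl
    · exact prod_coe_sort P (fun p => ∫ y, maj (c p) (r p) δ y)
  have h3 : μ.m (ind (fun m => ∀ p ∈ P, dist ((φ ((m : ℝ) / p) : ℝ) : UnitAddCircle) (c p) ≤ r p)) ≤
      μ.m (fun m => (G (Th φ P m)).re) := by
    apply μ.mono (Bd_ind _) ⟨‖G‖, fun m => (Complex.abs_re_le_norm _).trans (G.norm_coe_le_norm _)⟩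
    intro m
    rw [e1]
    have h0 : 0 ≤ ∏ p : {p // p ∈ P}, maj (c p) (r p) δ (Th φ P m p) := prod_nonneg fun p _ => maj_nonneg _ _ _ _
    by_cases hm : ∀ p ∈ P, dist ((φ ((m : ℝ) / p) : ℝ) : UnitAddCircle) (c p) ≤ r p
    · have h4 : (1 : ℝ) ≤ ∏ p : {p // p ∈ P}, maj (c p) (r p) δ (Th φ P m p) := by
        calc (1 : ℝ) = ∏ _p : {p // p ∈ P}, (1 : ℝ) := by rw [prod_const_one]
          _ ≤ _ := prod_le_prod (fun _ _ => zero_le_one) fun p _ => one_le_maj _ _ _ _ (hm p p.2)
      refine le_trans ?_ h4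
      unfold ind
      split_ifs <;> norm_num
    · have : ind (fun m => ∀ p ∈ P, dist ((φ ((m : ℝ) / p) : ℝ) : UnitAddCircle) (c p) ≤ r p) m = 0 := by
        unfold ind
        rw [if_neg hm]
      rw [this]
      exact h0
  refine h3.trans ?_
  rw [h1, h2]
  exact prod_le_prod (fun p _ => (integral_maj _ _ _ (hr p) hδ).1) fun p _ => (integral_maj _ _ _ (hr p) hδ).2

end loc

end Pool.Agent.Y326.Slw
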