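import Pool.Agent.Y326.Slw5

/-!
# Slow phases: test functions and arcs
-/

set_option autoImplicit false

namespace Pool.Agent.Y326.Slw

open Finset Filter MeasureTheory
open Pool.Agent.TH112.BL Pool.Agent.TH928.BLJ

noncomputable section

open Pool.Agent.TH833.BL (S H S_bound S_add S_smul S_one S_nonneg S_succ shift_diff S_dil S_sub_bound dil_diff H_le le_H)

lemma exists_trig1 (f : C(UnitAddCircle, ℂ)) (τ : ℝ) (hτ : 0 < τ) :
    ∃ (s : Finset ℤ) (c : ℤ → ℂ), ∀ x, ‖f x - ∑ k ∈ s, c k * fourier k x‖ ≤ τ := by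
  have h1 : f ∈ (Submodule.span ℂ (Set.range (@fourier (1 : ℝ)))).topologicalClosure := by
    rw [span_fourier_closure_eq_top]; trivial
  have h2 : f ∈ closure ((Submodule.span ℂ (Set.range (@fourier (1 : ℝ)))) : Set C(UnitAddCircle, ℂ)) := h1
  obtain ⟨p, hp, hd⟩ := Metric.mem_closure_iff.1 h2 τ hτ
  obtain ⟨c, hc⟩ := Finsupp.mem_span_range_iff_exists_finsupp.1 hp
  refine ⟨c.support, c, fun x => ?_⟩
  have e : ∑ k ∈ c.support, c k * fourier k x = p x := by
    rw [← hc, Finsupp.sum]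
    rw [ContinuousMap.coe_sum, Finset.sum_apply]
    rfl
  rw [e]
  have := (f - p).norm_coe_le_norm x
  rw [← dist_eq_norm] at this
  exact this.trans hd.le

lemma m_const (μ : LM) (c : ℝ) : μ.m (fun _ => c) = c := by
  have h1 := μ.smul c (fun _ => 1) ⟨1, fun _ => by simp⟩
  rw [μ.one] at h1
  simpa using h1

lemma abs_m_le (μ : LM) {g : ℕ → ℝ} {C : ℝ} (h : ∀ n, |g n| ≤ C) : |μ.m g| ≤ C :=
  abs_m_le_large μ ⟨C, h⟩ C 0 fun n _ => h n

section

variable {μ : LM} {φ : ℝ → ℝ} {k : ℕ} {f : Fin k → ℕ → ℂ} {a : Fin k → ℕ} {b : Fin k → ℤ} {P₀ : ℕ}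

/-- the product and a continuous function of the phase -/
theorem lm_G (h : SP μ φ) (hf : MF f a P₀) (G : C(UnitAddCircle, ℂ)) :
    μ.m (fun n => (prd f a b n * (G ((φ n : ℝ) : UnitAddCircle) - ∫ x, G x)).re) = 0 := by
  set P : ℕ → ℂ := fun n => prd f a b n with hP
  have hPn : ∀ n, ‖P n‖ ≤ 1 := fun n => norm_prod_le hf n
  have hG : Integrable (fun x => G x) (volume : Measure UnitAddCircle) :=
    G.continuous.integrable_of_hasCompactSupport (HasCompactSupport.of_compactSpace _)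
  have main : ∀ τ : ℝ, 0 < τ →
      |μ.m (fun n => (P n * (G ((φ n : ℝ) : UnitAddCircle) - ∫ x, G x)).re)| ≤ 2 * τ := by
    intro τ hτ
    obtain ⟨s, c, hsc⟩ := exists_trig1 G τ hτ
    have hint : ∀ l : ℤ, Integrable (fun x => c l * fourier l x) (volume : Measure UnitAddCircle) := by
      intro l
      exact ((continuous_const.mul (fourier l).continuous).integrable_of_hasCompactSupport
        (HasCompactSupport.of_compactSpace _))
    have h2 : (∫ x : UnitAddCircle, ∑ l ∈ s, c l * fourier l x) = ∑ l ∈ s, c l * (if l = 0 then 1 else 0) := by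
      rw [integral_finsetSum s fun l _ => hint l]
      refine sum_congr rfl fun l _ => ?_
      rw [integral_const_mul, integral_four]
    have h3 : ‖(∫ x, G x) - ∫ x : UnitAddCircle, ∑ l ∈ s, c l * fourier l x‖ ≤ τ := by
      rw [← integral_sub hG (integrable_finsetSum s fun l _ => hint l)]
      refine (norm_integral_le_of_norm_le_const (Eventually.of_forall hsc)).trans ?_
      rw [probReal_univ, mul_one]
    set s' := s.filter (fun l => l ≠ 0) with hs'
    have e0 : ∀ x : UnitAddCircle, (∑ l ∈ s, c l * fourier l x) - (∑ l ∈ s, c l * (if l = 0 then 1 else 0)) =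
        ∑ l ∈ s', c l * fourier l x := by
      intro x
      rw [← sum_sub_distrib, hs', sum_filter]
      refine sum_congr rfl fun l _ => ?_
      by_cases hl : l = 0
      · subst hl
        simp
      · rw [if_neg hl, if_pos hl]
        ring
    have hz : μ.m (fun n => ∑ l ∈ s', (P n * (c l * ex (l * φ n))).re) = 0 := by
      rw [μ.sum s' fun l _ => ⟨‖c l‖, fun n => (Complex.abs_re_le_norm _).trans (by
        rw [norm_mul, norm_mul, norm_ex, mul_one]
        exact mul_le_of_le_one_left (norm_nonneg _) (hPn n))⟩]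
      refine sum_eq_zero fun l hl => ?_
      exact slow_coeff h hf l (mem_filter.1 hl).2 (c l)
    have bT : Bd (fun n => ∑ l ∈ s', (P n * (c l * ex (l * φ n))).re) :=
      Bd.sum s' fun l _ => ⟨‖c l‖, fun n => (Complex.abs_re_le_norm _).trans (by
        rw [norm_mul, norm_mul, norm_ex, mul_one]
        exact mul_le_of_le_one_left (norm_nonneg _) (hPn n))⟩
    have bG : Bd (fun n => (P n * (G ((φ n : ℝ) : UnitAddCircle) - ∫ x, G x)).re) := by
      refine ⟨‖G‖ + ‖∫ x, G x‖, fun n => (Complex.abs_re_le_norm _).trans ?_⟩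
      rw [norm_mul]
      refine (mul_le_of_le_one_left (norm_nonneg _) (hPn n)).trans ((norm_sub_le _ _).trans ?_)
      linarith [G.norm_coe_le_norm ((φ n : ℝ) : UnitAddCircle)]
    have h4 : |μ.m (fun n => (P n * (G ((φ n : ℝ) : UnitAddCircle) - ∫ x, G x)).re) -
        μ.m (fun n => ∑ l ∈ s', (P n * (c l * ex (l * φ n))).re)| ≤ 2 * τ := by
      rw [← μ.sub bG bT]
      apply abs_m_le
      intro n
      have e1 : ∑ l ∈ s', (P n * (c l * ex (l * φ n))).re =
          (P n * ((∑ l ∈ s, c l * fourier l ((φ n : ℝ) : UnitAddCircle)) - ∫ x : UnitAddCircle, ∑ l ∈ s, c l * fourier l x)).re := by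
        rw [h2, e0, ← Complex.re_sum, mul_sum]
        congr 1
        refine sum_congr rfl fun l _ => ?_
        rw [four_coe]
      rw [e1, ← Complex.sub_re]
      refine (Complex.abs_re_le_norm _).trans ?_
      rw [← mul_sub, norm_mul]
      refine (mul_le_of_le_one_left (norm_nonneg _) (hPn n)).trans ?_
      have e2 : (G ((φ n : ℝ) : UnitAddCircle) - ∫ x, G x) -
          ((∑ l ∈ s, c l * fourier l ((φ n : ℝ) : UnitAddCircle)) - ∫ x : UnitAddCircle, ∑ l ∈ s, c l * fourier l x) =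
          (G ((φ n : ℝ) : UnitAddCircle) - ∑ l ∈ s, c l * fourier l ((φ n : ℝ) : UnitAddCircle)) -
          ((∫ x, G x) - ∫ x : UnitAddCircle, ∑ l ∈ s, c l * fourier l x) := by ring
      rw [e2]
      refine (norm_sub_le _ _).trans ?_
      linarith [hsc ((φ n : ℝ) : UnitAddCircle)]
    rw [hz, sub_zero] at h4
    exact h4
  by_contra hne
  have h1 := abs_pos.2 hne
  have := main (|μ.m (fun n => (P n * (G ((φ n : ℝ) : UnitAddCircle) - ∫ x, G x)).re)| / 4) (by positivity)
  linarith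

/-- the distribution of the phase -/
lemma phase_G (h : SP μ φ) (G : C(UnitAddCircle, ℂ)) :
    μ.m (fun n => (G ((φ n : ℝ) : UnitAddCircle)).re) = (∫ x, G x).re := by
  have h1 := lm_G (k := 0) (f := fun j => j.elim0) (a := fun j => j.elim0) (b := fun j => j.elim0) (P₀ := 0) h
    ⟨fun j => j.elim0, fun j => j.elim0, fun j => j.elim0⟩ G
  have e : (fun n : ℕ => (prd (fun j : Fin 0 => (j.elim0 : ℕ → ℂ)) (fun j : Fin 0 => (j.elim0 : ℕ)) (fun j : Fin 0 => (j.elim0 : ℤ)) n *
      (G ((φ n : ℝ) : UnitAddCircle) - ∫ x, G x)).re) =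
      fun n : ℕ => (G ((φ n : ℝ) : UnitAddCircle)).re + (-(∫ x, G x).re) := by
    funext n
    simp [prd, sub_eq_add_neg]
  rw [e, μ.add _ _ ⟨‖G‖, fun n => (Complex.abs_re_le_norm _).trans (G.norm_coe_le_norm _)⟩
    ⟨|-(∫ x, G x).re|, fun n => le_rfl⟩] at h1
  have h2 : μ.m (fun _ => -(∫ x, G x).re) = -(∫ x, G x).re := m_const μ _
  rw [h2] at h1
  linarith

/-- the majorant as a continuous function -/
def mj (c : UnitAddCircle) (r δ : ℝ) : C(UnitAddCircle, ℂ) :=
  ⟨fun x => ((maj c r δ x : ℝ) : ℂ), Complex.continuous_ofReal.comp (maj_cont c r δ)⟩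

lemma mj_int (c : UnitAddCircle) (r δ : ℝ) : (∫ x, mj c r δ x) = ((∫ x, maj c r δ x : ℝ) : ℂ) := integral_ofReal

lemma phase_maj (h : SP μ φ) (c : UnitAddCircle) (r δ : ℝ) :
    μ.m (fun n => maj c r δ ((φ n : ℝ) : UnitAddCircle)) = ∫ x, maj c r δ x := by
  have h1 := phase_G h (mj c r δ)
  rw [mj_int, Complex.ofReal_re] at h1
  rw [← h1]
  rfl

/-- lower bound for the integral of the majorant -/
lemma le_integral_maj (c : UnitAddCircle) (r δ : ℝ) (hr : 0 ≤ r) (hr2 : 2 * r ≤ 1) (hδ : 0 < δ) :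
    2 * r ≤ ∫ x, maj c r δ x := by
  have h1 : ∫ x, (Metric.closedBall c r).indicator (fun _ => (1 : ℝ)) x ≤ ∫ x, maj c r δ x := by
    apply integral_mono
    · exact (integrable_const (1 : ℝ)).indicator measurableSet_closedBall
    · exact (maj_cont c r δ).integrable_of_hasCompactSupport (HasCompactSupport.of_compactSpace _)
    · intro x
      show (Metric.closedBall c r).indicator (fun _ => (1 : ℝ)) x ≤ maj c r δ x
      by_cases hx : x ∈ Metric.closedBall c r
      · rw [Set.indicator_of_mem hx]; exact one_le_maj c r δ x hx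
      · rw [Set.indicator_of_notMem hx]
        exact maj_nonneg _ _ _ _
  refine le_trans ?_ h1
  rw [integral_indicator_const (1 : ℝ) measurableSet_closedBall, smul_eq_mul, mul_one]
  unfold Measure.real
  rw [AddCircle.volume_closedBall, ENNReal.toReal_ofReal]
  · exact le_min hr2 le_rfl
  · exact le_min zero_le_one (by positivity)

/-- the indicator of an arc -/
def ia (c : UnitAddCircle) (r : ℝ) (x : UnitAddCircle) : ℝ := by
  classical exact if dist x c ≤ r then 1 else 0

lemma ia_nonneg (c : UnitAddCircle) (r : ℝ) (x : UnitAddCircle) : 0 ≤ ia c r x := by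
  unfold ia
  split_ifs <;> norm_num

lemma ia_le (c : UnitAddCircle) (r : ℝ) (x : UnitAddCircle) : ia c r x ≤ 1 := by
  unfold ia
  split_ifs <;> norm_num

lemma ia_le_maj (c : UnitAddCircle) (r δ : ℝ) (x : UnitAddCircle) : ia c r x ≤ maj c r δ x := by
  unfold ia
  split_ifs with h
  · exact one_le_maj c r δ x h
  · exact maj_nonneg _ _ _ _

lemma maj_le_ia (c : UnitAddCircle) (r δ : ℝ) (hδ : 0 < δ) (x : UnitAddCircle) : maj c (r - δ) δ x ≤ ia c r x := by
  unfold ia
  split_ifs with h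
  · exact maj_le _ _ _ hδ _
  · rw [maj_zero c (r - δ) δ hδ x (by linarith [not_le.1 h])]

/-- the distance between the majorant and the indicator in the mean -/
lemma arc_diff (h : SP μ φ) (c : UnitAddCircle) (r δ : ℝ) (hr : 0 ≤ r) (hr2 : 2 * r ≤ 1) (hδ : 0 < δ) :
    μ.m (fun n => maj c r δ ((φ n : ℝ) : UnitAddCircle) - ia c r ((φ n : ℝ) : UnitAddCircle)) ≤ 4 * δ := by
  have bm : Bd (fun n : ℕ => maj c r δ ((φ n : ℝ) : UnitAddCircle)) :=
    ⟨1, fun n => by rw [abs_of_nonneg (maj_nonneg _ _ _ _)]; exact maj_le _ _ _ hδ _⟩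
  have bi : Bd (fun n : ℕ => ia c r ((φ n : ℝ) : UnitAddCircle)) :=
    ⟨1, fun n => by rw [abs_of_nonneg (ia_nonneg _ _ _)]; exact ia_le _ _ _⟩
  have bm' : Bd (fun n : ℕ => maj c (r - δ) δ ((φ n : ℝ) : UnitAddCircle)) :=
    ⟨1, fun n => by rw [abs_of_nonneg (maj_nonneg _ _ _ _)]; exact maj_le _ _ _ hδ _⟩
  rw [μ.sub bm bi, phase_maj h]
  have h1 := (integral_maj c r δ hr hδ).2
  by_cases hrd : r ≤ δ
  · have h2 : 0 ≤ μ.m (fun n : ℕ => ia c r ((φ n : ℝ) : UnitAddCircle)) := μ.nonneg _ bi fun n => ia_nonneg _ _ _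
    linarith
  · push Not at hrd
    have h2 : μ.m (fun n : ℕ => maj c (r - δ) δ ((φ n : ℝ) : UnitAddCircle)) ≤
        μ.m (fun n : ℕ => ia c r ((φ n : ℝ) : UnitAddCircle)) := μ.mono bm' bi fun n => maj_le_ia c r δ hδ _
    rw [phase_maj h] at h2
    have h3 := le_integral_maj c (r - δ) δ (by linarith) (by linarith) hδ
    linarith

/-- the product is independent of the arc which contains the phase -/
theorem lm_arc (h : SP μ φ) (hf : MF f a P₀) (c : UnitAddCircle) (r : ℝ) (hr : 0 ≤ r) (hr2 : 2 * r ≤ 1)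
    (z : ℂ) (hz : ‖z‖ ≤ 1) :
    μ.m (fun n => (prd f a b n * z * ((ia c r ((φ n : ℝ) : UnitAddCircle) - 2 * r : ℝ) : ℂ)).re) = 0 := by
  set P : ℕ → ℂ := fun n => prd f a b n * z with hP
  have hPn : ∀ n, ‖P n‖ ≤ 1 := fun n => by
    rw [hP]
    simp only [norm_mul]
    exact mul_le_one₀ (norm_prod_le hf n) (norm_nonneg _) hz
  have main : ∀ δ : ℝ, 0 < δ →
      |μ.m (fun n => (P n * ((ia c r ((φ n : ℝ) : UnitAddCircle) - 2 * r : ℝ) : ℂ)).re)| ≤ 6 * δ := by
    intro δ hδ
    have h1 := lm_G (b := b) h hf (z • mj c r δ)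
    have h1e : (∫ x, (z • mj c r δ) x) = z * ((∫ x, maj c r δ x : ℝ) : ℂ) := by
      rw [← mj_int, ← integral_const_mul]
      rfl
    rw [h1e] at h1
    have h1f : (fun n : ℕ => (prd f a b n * ((z • mj c r δ) ((φ n : ℝ) : UnitAddCircle) - z * ((∫ x, maj c r δ x : ℝ) : ℂ))).re) =
        fun n : ℕ => (P n * (mj c r δ ((φ n : ℝ) : UnitAddCircle) - ((∫ x, maj c r δ x : ℝ) : ℂ))).re := by
      funext n
      congr 1
      show prd f a b n * (z * mj c r δ ((φ n : ℝ) : UnitAddCircle) - z * ((∫ x, maj c r δ x : ℝ) : ℂ)) =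
        prd f a b n * z * (mj c r δ ((φ n : ℝ) : UnitAddCircle) - ((∫ x, maj c r δ x : ℝ) : ℂ))
      ring
    rw [h1f] at h1
    set I : ℝ := ∫ x, maj c r δ x with hI
    have hI1 := (integral_maj c r δ hr hδ).2
    have hI2 := le_integral_maj c r δ hr hr2 hδ
    rw [← hI] at hI1 hI2
    have bA : Bd (fun n : ℕ => (P n * ((ia c r ((φ n : ℝ) : UnitAddCircle) - 2 * r : ℝ) : ℂ)).re) := by
      refine ⟨1 + 2 * r, fun n => (Complex.abs_re_le_norm _).trans ?_⟩
      rw [norm_mul]
      refine (mul_le_of_le_one_left (norm_nonneg _) (hPn n)).trans ?_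
      rw [Complex.norm_real, Real.norm_eq_abs, abs_le]
      have h2 := ia_nonneg c r ((φ n : ℝ) : UnitAddCircle)
      have h3 := ia_le c r ((φ n : ℝ) : UnitAddCircle)
      constructor <;> linarith
    have bB : Bd (fun n : ℕ => (P n * (mj c r δ ((φ n : ℝ) : UnitAddCircle) - (I : ℂ))).re) := by
      refine ⟨1 + |I|, fun n => (Complex.abs_re_le_norm _).trans ?_⟩
      rw [norm_mul]
      refine (mul_le_of_le_one_left (norm_nonneg _) (hPn n)).trans ?_
      refine (norm_sub_le _ _).trans ?_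
      rw [Complex.norm_real, Real.norm_eq_abs]
      refine add_le_add ?_ le_rfl
      show ‖((maj c r δ ((φ n : ℝ) : UnitAddCircle) : ℝ) : ℂ)‖ ≤ 1
      rw [Complex.norm_real, Real.norm_eq_abs, abs_of_nonneg (maj_nonneg _ _ _ _)]
      exact maj_le _ _ _ hδ _
    have bm : Bd (fun n : ℕ => maj c r δ ((φ n : ℝ) : UnitAddCircle) - ia c r ((φ n : ℝ) : UnitAddCircle)) := by
      refine ⟨1, fun n => ?_⟩
      rw [abs_of_nonneg (by linarith [ia_le_maj c r δ ((φ n : ℝ) : UnitAddCircle)])]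
      linarith [maj_le c r δ hδ ((φ n : ℝ) : UnitAddCircle), ia_nonneg c r ((φ n : ℝ) : UnitAddCircle)]
    have key : |μ.m (fun n => (P n * ((ia c r ((φ n : ℝ) : UnitAddCircle) - 2 * r : ℝ) : ℂ)).re) -
        μ.m (fun n => (P n * (mj c r δ ((φ n : ℝ) : UnitAddCircle) - (I : ℂ))).re)| ≤
        μ.m (fun n => (maj c r δ ((φ n : ℝ) : UnitAddCircle) - ia c r ((φ n : ℝ) : UnitAddCircle)) + 2 * δ) := by
      rw [← μ.sub bA bB]
      have b3 : Bd (fun n : ℕ => (P n * ((ia c r ((φ n : ℝ) : UnitAddCircle) - 2 * r : ℝ) : ℂ)).re -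
          (P n * (mj c r δ ((φ n : ℝ) : UnitAddCircle) - (I : ℂ))).re) := by
        have := bA.add (bB.cmul (-1))
        simpa [sub_eq_add_neg] using this
      have b4 : Bd (fun n : ℕ => (maj c r δ ((φ n : ℝ) : UnitAddCircle) - ia c r ((φ n : ℝ) : UnitAddCircle)) + 2 * δ) :=
        bm.add ⟨|2 * δ|, fun _ => le_rfl⟩
      have pt : ∀ n : ℕ, |(P n * ((ia c r ((φ n : ℝ) : UnitAddCircle) - 2 * r : ℝ) : ℂ)).re -
          (P n * (mj c r δ ((φ n : ℝ) : UnitAddCircle) - (I : ℂ))).re| ≤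
          (maj c r δ ((φ n : ℝ) : UnitAddCircle) - ia c r ((φ n : ℝ) : UnitAddCircle)) + 2 * δ := by
        intro n
        rw [← Complex.sub_re, ← mul_sub]
        refine (Complex.abs_re_le_norm _).trans ?_
        rw [norm_mul]
        refine (mul_le_of_le_one_left (norm_nonneg _) (hPn n)).trans ?_
        have e : ((ia c r ((φ n : ℝ) : UnitAddCircle) - 2 * r : ℝ) : ℂ) - (mj c r δ ((φ n : ℝ) : UnitAddCircle) - (I : ℂ)) =
            ((-(maj c r δ ((φ n : ℝ) : UnitAddCircle) - ia c r ((φ n : ℝ) : UnitAddCircle)) + (I - 2 * r) : ℝ) : ℂ) := by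
          show _ - (((maj c r δ ((φ n : ℝ) : UnitAddCircle) : ℝ) : ℂ) - (I : ℂ)) = _
          push_cast
          ring
        rw [e, Complex.norm_real, Real.norm_eq_abs]
        have h5 := ia_le_maj c r δ ((φ n : ℝ) : UnitAddCircle)
        rw [abs_le]
        constructor <;> linarith
      rw [abs_le]
      constructor
      · rw [neg_le]
        have e := μ.smul (-1) _ b3
        rw [neg_one_mul] at e
        rw [← e]
        exact μ.mono (b3.cmul _) b4 fun n => by
          have := neg_le_of_abs_le (pt n)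
          linarith
      · exact μ.mono b3 b4 fun n => le_of_abs_le (pt n)
    rw [h1, sub_zero] at key
    refine key.trans ?_
    rw [μ.add _ _ bm ⟨|2 * δ|, fun _ => le_rfl⟩]
    have h2 : μ.m (fun _ => 2 * δ) = 2 * δ := m_const μ _
    rw [h2]
    linarith [arc_diff h c r δ hr hr2 hδ]
  by_contra hne
  have h1 := abs_pos.2 hne
  have := main (|μ.m (fun n => (P n * ((ia c r ((φ n : ℝ) : UnitAddCircle) - 2 * r : ℝ) : ℂ)).re)| / 12) (by positivity)
  linarith

end

end

end Pool.Agent.Y326.Slw
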