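import Pool.Agent.Y326.Slw6

/-!
# Slow phases: logarithmic averages, and Weyl sums of smooth phases
-/

set_option autoImplicit false

namespace Pool.Agent.Y326.Slw

open Finset Filter MeasureTheory
open Pool.Agent.TH112.BL Pool.Agent.TH928.BLJ

noncomputable section

open Pool.Agent.TH833.BL (S H S_bound S_add S_smul S_one S_nonneg S_succ shift_diff S_dil S_sub_bound dil_diff H_le le_H one_le_log log_tendsto)

/-- the logarithmic averages tend to zero -/
def LZ (g : ℕ → ℂ) : Prop :=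
  Tendsto (fun N : ℕ => (∑ n ∈ Icc 1 N, g n / (n : ℂ)) / ((Real.log N : ℝ) : ℂ)) atTop (nhds 0)

/-- the windows `(0, N]` -/
def F0 : Filter (ℕ × ℕ) := map (fun N : ℕ => ((0 : ℕ), N)) atTop

lemma H_zero : H 0 = 0 := by simp [H]

lemma S_zero (g : ℕ → ℝ) : S g 0 = 0 := by simp [S]

lemma H_tendsto : Tendsto H atTop atTop := by
  refine tendsto_atTop_mono (fun N => ?_) (log_tendsto)
  refine le_trans ?_ (le_H N)
  rcases Nat.eq_zero_or_pos N with rfl | hN
  · simp
  · apply Real.log_le_log (by positivity) (by linarith)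

lemma F0_tendsto : Tendsto (fun x : ℕ × ℕ => H x.2 - H x.1) F0 atTop := by
  unfold F0
  rw [tendsto_map'_iff]
  refine H_tendsto.congr fun N => ?_
  simp [H_zero]

lemma ratio_tendsto : Tendsto (fun N : ℕ => H N / Real.log N) atTop (nhds 1) := by
  have h1 : Tendsto (fun N : ℕ => 1 + 1 / Real.log (N : ℝ)) atTop (nhds (1 + 0)) :=
    tendsto_const_nhds.add (Tendsto.div_atTop tendsto_const_nhds log_tendsto)
  rw [add_zero] at h1
  refine tendsto_of_tendsto_of_tendsto_of_le_of_le' tendsto_const_nhds h1 ?_ ?_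
  · filter_upwards [eventually_ge_atTop 3] with N hN
    have hl := one_le_log hN
    rw [le_div_iff₀ (by linarith), one_mul]
    refine le_trans ?_ (le_H N)
    apply Real.log_le_log (by positivity) (by linarith)
  · filter_upwards [eventually_ge_atTop 3] with N hN
    have hl := one_le_log hN
    rw [div_le_iff₀ (by linarith), add_mul, one_mul, one_div, inv_mul_cancel₀ (by linarith)]
    linarith [H_le N]

lemma sum_re (g : ℕ → ℂ) (N : ℕ) : ((∑ n ∈ Icc 1 N, g n / (n : ℂ)) / ((Real.log N : ℝ) : ℂ)).re =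
    S (fun n => (g n).re) N / Real.log N := by
  rw [Complex.div_ofReal_re, Complex.re_sum]
  congr 1
  unfold S
  refine sum_congr rfl fun n _ => ?_
  rw [show ((n : ℂ)) = ((n : ℝ) : ℂ) by simp, Complex.div_ofReal_re]
  ring

lemma sum_im (g : ℕ → ℂ) (N : ℕ) : ((∑ n ∈ Icc 1 N, g n / (n : ℂ)) / ((Real.log N : ℝ) : ℂ)).im =
    S (fun n => (g n).im) N / Real.log N := by
  rw [Complex.div_ofReal_im, Complex.im_sum]
  congr 1
  unfold S
  refine sum_congr rfl fun n _ => ?_
  rw [show ((n : ℂ)) = ((n : ℝ) : ℂ) by simp, Complex.div_ofReal_im]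
  ring

lemma wa_F0 (g : ℕ → ℝ) : Tendsto (wa g) F0 (nhds 0) ↔ Tendsto (fun N : ℕ => S g N / Real.log N) atTop (nhds 0) := by
  unfold F0
  rw [tendsto_map'_iff]
  have e : (wa g ∘ fun N : ℕ => ((0 : ℕ), N)) = fun N => S g N / H N := by
    funext N
    simp [wa, H_zero, S_zero]
    ring
  rw [e]
  constructor
  · intro h
    have h1 := h.mul ratio_tendsto
    rw [zero_mul] at h1
    refine h1.congr' ?_
    filter_upwards [eventually_ge_atTop 3] with N hN
    have hl := one_le_log hN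
    have hH : 0 < H N := lt_of_lt_of_le (Real.log_pos (by
      have : (3 : ℝ) ≤ N := by exact_mod_cast hN
      linarith)) (le_H N)
    field_simp
  · intro h
    have h1 := h.mul (ratio_tendsto.inv₀ one_ne_zero)
    rw [zero_mul] at h1
    refine h1.congr' ?_
    filter_upwards [eventually_ge_atTop 3] with N hN
    have hl := one_le_log hN
    have hH : 0 < H N := lt_of_lt_of_le (Real.log_pos (by
      have : (3 : ℝ) ≤ N := by exact_mod_cast hN
      linarith)) (le_H N)
    field_simp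

lemma LZ_iff (g : ℕ → ℂ) : LZ g ↔ Tendsto (wa fun n => (g n).re) F0 (nhds 0) ∧ Tendsto (wa fun n => (g n).im) F0 (nhds 0) := by
  rw [wa_F0, wa_F0]
  unfold LZ
  constructor
  · intro h
    constructor
    · have h1 := (Complex.continuous_re.tendsto 0).comp h
      simp only [Complex.zero_re] at h1
      refine h1.congr fun N => ?_
      exact sum_re g N
    · have h1 := (Complex.continuous_im.tendsto 0).comp h
      simp only [Complex.zero_im] at h1
      refine h1.congr fun N => ?_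
      exact sum_im g N
  · rintro ⟨h1, h2⟩
    have h3 : Tendsto (fun N : ℕ => (((S (fun n => (g n).re) N / Real.log N : ℝ) : ℂ) +
        ((S (fun n => (g n).im) N / Real.log N : ℝ) : ℂ) * Complex.I)) atTop (nhds (((0 : ℝ) : ℂ) + ((0 : ℝ) : ℂ) * Complex.I)) :=
      ((Complex.continuous_ofReal.tendsto _).comp h1).add (((Complex.continuous_ofReal.tendsto _).comp h2).mul_const _)
    simp only [Complex.ofReal_zero, zero_mul, add_zero] at h3
    refine h3.congr fun N => ?_
    rw [← sum_re, ← sum_im, Complex.re_add_im]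

/-- admissible phases for the logarithmic averages -/
structure AP (φ : ℝ → ℝ) : Prop where
  slow : ∀ p : ℕ, p.Prime → Tendsto (fun m : ℕ => φ (((m + 1 : ℕ) : ℝ) / p) - φ ((m : ℝ) / p)) atTop (nhds 0)
  weyl : ∀ P : Finset ℕ, (∀ p ∈ P, p.Prime) → ∀ κ : ℕ → ℤ, (∃ p ∈ P, κ p ≠ 0) →
    LZ (fun m => ex (∑ p ∈ P, κ p * φ ((m : ℝ) / p)))

lemma AP.sp {φ : ℝ → ℝ} (h : AP φ) {μ : LM} (hμ : ∀ g : ℕ → ℝ, ∀ L : ℝ, Tendsto (wa g) F0 (nhds L) → μ.m g = L) : SP μ φ :=
  ⟨h.slow, fun P hP κ hκ => by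
    have h1 := (LZ_iff _).1 (h.weyl P hP κ hκ)
    exact ⟨hμ _ _ h1.1, hμ _ _ h1.2⟩⟩

lemma LZ_of_mean {φ : ℝ → ℝ} (h : AP φ) {g : ℕ → ℂ} {C : ℝ} (hg : ∀ n, ‖g n‖ ≤ C)
    (hz : ∀ μ : LM, SP μ φ → (∀ g : ℕ → ℝ, ∀ L : ℝ, Tendsto (wa g) F0 (nhds L) → μ.m g = L) →
      μ.m (fun n => (g n).re) = 0 ∧ μ.m (fun n => (g n).im) = 0) : LZ g := by
  rw [LZ_iff]
  constructor
  · by_contra hne
    obtain ⟨μ, h1, h2⟩ := win_exists F0_tendsto _ ⟨C, fun n => (Complex.abs_re_le_norm _).trans (hg n)⟩ hne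
    exact h1 (hz μ (h.sp h2) h2).1
  · by_contra hne
    obtain ⟨μ, h1, h2⟩ := win_exists F0_tendsto _ ⟨C, fun n => (Complex.abs_im_le_norm _).trans (hg n)⟩ hne
    exact h1 (hz μ (h.sp h2) h2).2

lemma ex_hasDeriv {Φ : ℝ → ℝ} {Φ' x : ℝ} (h : HasDerivAt Φ Φ' x) :
    HasDerivAt (fun x => ex (Φ x)) (ex (Φ x) * (2 * Real.pi * Complex.I * Φ')) x := by
  unfold ex
  have h1 : HasDerivAt (fun x => 2 * (Real.pi : ℂ) * Complex.I * ((Φ x : ℝ) : ℂ)) (2 * Real.pi * Complex.I * Φ') x :=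
    h.ofReal_comp.const_mul _
  exact h1.cexp

/-- local form of the primitive -/
lemma prim_step {Φ D D' : ℝ → ℝ} {x₀ : ℝ}
    (h1 : ∀ x, x₀ ≤ x → HasDerivAt Φ (D x / x) x) (h2 : ∀ x, x₀ ≤ x → HasDerivAt D (D' x / x) x)
    (h3 : ∀ x, x₀ ≤ x → D x ≠ 0) {ε y : ℝ} (hy : x₀ ≤ y) (hy1 : 1 ≤ y) (hε : 0 ≤ ε)
    (h4 : ∀ x, y ≤ x → |D x / x| ≤ ε) (h5 : ∀ x, y ≤ x → |D' x / D x ^ 2| ≤ ε) (h6 : 1 / y ≤ ε) :
    ‖(ex (Φ (y + 1)) / (2 * Real.pi * Complex.I * D (y + 1)) - ex (Φ y) / (2 * Real.pi * Complex.I * D y)) - ex (Φ y) / y‖ ≤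
      9 * ε / y ∧ |1 / D (y + 1) - 1 / D y| ≤ ε / y := by
  have hy0 : 0 < y := by linarith
  have hpi := Real.pi_pos
  have hI : (2 * Real.pi * Complex.I : ℂ) ≠ 0 := by
    simp [Complex.I_ne_zero, Real.pi_ne_zero]
  have seg : ∀ x ∈ Set.Icc y (y + 1), y ≤ x ∧ x ≤ y + 1 := fun x hx => hx
  have hΦ : ∀ x ∈ Set.Icc y (y + 1), |Φ x - Φ y| ≤ ε := by
    intro x hx
    have := (convex_Icc y (y + 1)).norm_image_sub_le_of_norm_hasDerivWithin_le (f := Φ) (f' := fun x => D x / x) (C := ε)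
      (fun z hz => (h1 z (hy.trans hz.1)).hasDerivWithinAt) (fun z hz => h4 z hz.1)
      (Set.left_mem_Icc.2 (by linarith)) hx
    rw [Real.norm_eq_abs, Real.norm_eq_abs, abs_of_nonneg (by linarith [hx.1] : 0 ≤ x - y)] at this
    exact this.trans (mul_le_of_le_one_right hε (by linarith [hx.2]))
  constructor
  · set Y : ℝ → ℂ := fun x => ex (Φ x) / (2 * Real.pi * Complex.I * D x) with hY
    set g : ℝ → ℂ := fun x => Y x - (x - y : ℝ) * (ex (Φ y) / y) with hg
    have hD : ∀ x, x₀ ≤ x → (2 * Real.pi * Complex.I * D x : ℂ) ≠ 0 := fun x hx =>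
      mul_ne_zero hI (by exact_mod_cast h3 x hx)
    have hYd : ∀ x, y ≤ x → HasDerivAt Y (ex (Φ x) / x - ex (Φ x) * (D' x / D x ^ 2 : ℝ) / (2 * Real.pi * Complex.I) / x) x := by
      intro x hx
      have hx0 := hy.trans hx
      have hxp : (x : ℂ) ≠ 0 := by
        have : x ≠ 0 := by linarith
        exact_mod_cast this
      have hDx : (D x : ℂ) ≠ 0 := by exact_mod_cast h3 x hx0
      have d1 := ex_hasDeriv (h1 x hx0)
      have d2 : HasDerivAt (fun x => (2 * Real.pi * Complex.I * D x : ℂ)) (2 * Real.pi * Complex.I * ((D' x / x : ℝ) : ℂ)) x :=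
        (h2 x hx0).ofReal_comp.const_mul _
      have d3 := d1.div d2 (hD x hx0)
      refine d3.congr_deriv ?_
      have hpi' : (Real.pi : ℂ) ≠ 0 := by exact_mod_cast hpi.ne'
      have hI' := Complex.I_ne_zero
      push_cast
      field_simp
    have hgd : ∀ x ∈ Set.Icc y (y + 1), HasDerivWithinAt g
        (ex (Φ x) / x - ex (Φ x) * (D' x / D x ^ 2 : ℝ) / (2 * Real.pi * Complex.I) / x - ex (Φ y) / y) (Set.Icc y (y + 1)) x := by
      intro x hx
      have d1 : HasDerivAt (fun x : ℝ => ((x - y : ℝ) : ℂ) * (ex (Φ y) / y)) (((1 : ℝ) : ℂ) * (ex (Φ y) / y)) x :=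
        (((hasDerivAt_id x).sub_const y).ofReal_comp).mul_const _
      have d2 := (hYd x hx.1).sub d1
      rw [Complex.ofReal_one, one_mul] at d2
      exact d2.hasDerivWithinAt
    have hbd : ∀ x ∈ Set.Icc y (y + 1),
        ‖ex (Φ x) / x - ex (Φ x) * (D' x / D x ^ 2 : ℝ) / (2 * Real.pi * Complex.I) / x - ex (Φ y) / y‖ ≤ 9 * ε / y := by
      intro x hx
      have hx0 : 0 < x := by linarith [hx.1]
      have e1 : ex (Φ x) / (x : ℂ) - ex (Φ x) * (D' x / D x ^ 2 : ℝ) / (2 * Real.pi * Complex.I) / x - ex (Φ y) / y =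
          (ex (Φ x) - ex (Φ y)) / x + ex (Φ y) * ((1 / x - 1 / y : ℝ) : ℂ) -
            ex (Φ x) * (D' x / D x ^ 2 : ℝ) / (2 * Real.pi * Complex.I) / x := by
        push_cast
        ring
      rw [e1]
      have n1 : ‖(ex (Φ x) - ex (Φ y)) / (x : ℂ)‖ ≤ 7 * ε / y := by
        rw [norm_div, Complex.norm_real, Real.norm_eq_abs, abs_of_pos hx0]
        apply div_le_div₀ (by positivity) _ hy0 hx.1
        refine (ex_sub _ _).trans ?_
        calc 2 * Real.pi * |Φ x - Φ y| ≤ 2 * Real.pi * ε := mul_le_mul_of_nonneg_left (hΦ x hx) (by positivity)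
          _ ≤ 7 * ε := mul_le_mul_of_nonneg_right (by linarith [Real.pi_lt_d2]) hε
      have n2 : ‖ex (Φ y) * ((1 / x - 1 / y : ℝ) : ℂ)‖ ≤ ε / y := by
        rw [norm_mul, norm_ex, one_mul, Complex.norm_real, Real.norm_eq_abs]
        have e2 : 1 / x - 1 / y = -((x - y) / (x * y)) := by field_simp; ring
        rw [e2, abs_neg, abs_of_nonneg (div_nonneg (by linarith [hx.1]) (by positivity))]
        calc (x - y) / (x * y) ≤ 1 / (y * y) := div_le_div₀ zero_le_one (by linarith [hx.2]) (by positivity)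
                (mul_le_mul_of_nonneg_right hx.1 hy0.le)
          _ = (1 / y) / y := by field_simp
          _ ≤ ε / y := div_le_div_of_nonneg_right h6 hy0.le
      have n3 : ‖ex (Φ x) * ((D' x / D x ^ 2 : ℝ) : ℂ) / (2 * Real.pi * Complex.I) / x‖ ≤ ε / y := by
        rw [norm_div, norm_div, norm_mul, norm_ex, one_mul, Complex.norm_real, Real.norm_eq_abs, Complex.norm_real,
          Real.norm_eq_abs, abs_of_pos hx0]
        have e3 : ‖(2 * Real.pi * Complex.I : ℂ)‖ = 2 * Real.pi := by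
          rw [norm_mul, norm_mul, Complex.norm_I, Complex.norm_real, Real.norm_eq_abs, abs_of_pos hpi]
          norm_num
        rw [e3]
        apply div_le_div₀ hε _ hy0 hx.1
        rw [div_le_iff₀ (by positivity)]
        refine (h5 x hx.1).trans ?_
        nlinarith [Real.pi_gt_three]
      refine (norm_sub_le _ _).trans ?_
      refine (add_le_add (norm_add_le _ _) le_rfl).trans ?_
      have e4 : 9 * ε / y = 7 * ε / y + ε / y + ε / y := by ring
      rw [e4]
      exact add_le_add (add_le_add n1 n2) n3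
    have := (convex_Icc y (y + 1)).norm_image_sub_le_of_norm_hasDerivWithin_le hgd hbd
      (Set.left_mem_Icc.2 (by linarith)) (Set.right_mem_Icc.2 (by linarith))
    have e5 : g (y + 1) - g y = (Y (y + 1) - Y y) - ex (Φ y) / y := by
      rw [hg]
      simp
      ring
    rw [e5] at this
    simpa using this
  · have d : ∀ x ∈ Set.Icc y (y + 1), HasDerivWithinAt (fun x => 1 / D x) (-(D' x / x) / D x ^ 2) (Set.Icc y (y + 1)) x := by
      intro x hx
      have := ((h2 x (hy.trans hx.1)).inv (h3 x (hy.trans hx.1))).hasDerivWithinAt (s := Set.Icc y (y + 1))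
      refine this.congr_of_mem (fun z _ => ?_) hx
      rw [one_div]
      rfl
    have hb : ∀ x ∈ Set.Icc y (y + 1), ‖-(D' x / x) / D x ^ 2‖ ≤ ε / y := by
      intro x hx
      have hx0 : 0 < x := by linarith [hx.1]
      have e : -(D' x / x) / D x ^ 2 = -((D' x / D x ^ 2) / x) := by
        field_simp
      rw [e, norm_neg, norm_div, Real.norm_eq_abs, Real.norm_eq_abs, abs_of_pos hx0]
      exact div_le_div₀ hε (h5 x hx.1) hy0 hx.1
    have := (convex_Icc y (y + 1)).norm_image_sub_le_of_norm_hasDerivWithin_le d hb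
      (Set.left_mem_Icc.2 (by linarith)) (Set.right_mem_Icc.2 (by linarith))
    simpa using this

end

end Pool.Agent.Y326.Slw
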