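import Pool.Agent.Y326.Slw7

/-!
# Slow phases: Weyl sums of smooth phases
-/

set_option autoImplicit false

namespace Pool.Agent.Y326.Slw

open Finset Filter MeasureTheory
open Pool.Agent.TH112.BL Pool.Agent.TH928.BLJ

noncomputable section

open Pool.Agent.TH833.BL (S H S_bound S_add S_smul S_one S_nonneg S_succ shift_diff S_dil S_sub_bound dil_diff H_le le_H one_le_log log_tendsto)

/-- smooth phases `Φ` with `D = x Φ'` and `D' = x (x Φ')'` -/
structure SM (Φ D D' : ℝ → ℝ) (x₀ : ℝ) : Prop where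
  d1 : ∀ x, x₀ ≤ x → HasDerivAt Φ (D x / x) x
  d2 : ∀ x, x₀ ≤ x → HasDerivAt D (D' x / x) x
  ne : ∀ x, x₀ ≤ x → D x ≠ 0
  t1 : Tendsto (fun x => D x / x) atTop (nhds 0)
  t2 : Tendsto (fun x => D' x / D x ^ 2) atTop (nhds 0)

lemma H_succ (N : ℕ) : H (N + 1) = H N + 1 / ((N : ℝ) + 1) := by
  unfold H
  rw [Finset.sum_Icc_succ_top (by omega)]
  push_cast
  rfl

lemma norm_Y (z : ℂ) (hz : ‖z‖ = 1) (d : ℝ) : ‖z / (2 * Real.pi * Complex.I * d)‖ ≤ |1 / d| := by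
  rw [norm_div, hz, norm_mul, norm_mul, norm_mul, Complex.norm_I, Complex.norm_real, Complex.norm_real,
    Real.norm_eq_abs, Real.norm_eq_abs, abs_of_pos Real.pi_pos, Complex.norm_ofNat, abs_div, abs_one]
  by_cases hd : d = 0
  · simp [hd]
  · have hd0 : 0 < |d| := abs_pos.2 hd
    apply div_le_div_of_nonneg_left zero_le_one hd0
    nlinarith [Real.pi_gt_three]

lemma window_sum {Φ D D' : ℝ → ℝ} {x₀ : ℝ} (h : SM Φ D D' x₀) {w : ℕ → ℂ} (hw : ∀ n, ‖w n‖ ≤ 1)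
    (hw2 : Tendsto (fun n : ℕ => ‖w (n + 1) - w n‖ * (((n : ℝ) + 1) / |D ((n : ℝ) + 1)|)) atTop (nhds 0)) (ε : ℝ) (hε : 0 < ε) :
    ∃ n₀ : ℕ, ∀ A N : ℕ, n₀ ≤ A → A ≤ N → ‖∑ n ∈ Ioc A N, w n * (ex (Φ n) / n)‖ ≤
      10 * ε * (H N - H A) + |1 / D ((N : ℝ) + 1)| + |1 / D ((A : ℝ) + 1)| := by
  have e1 : ∀ᶠ x : ℝ in atTop, |D x / x| ≤ ε := by
    filter_upwards [h.t1.eventually (Metric.ball_mem_nhds 0 hε)] with x hx
    rw [dist_zero_right, Real.norm_eq_abs] at hx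
    exact hx.le
  have e2 : ∀ᶠ x : ℝ in atTop, |D' x / D x ^ 2| ≤ ε := by
    filter_upwards [h.t2.eventually (Metric.ball_mem_nhds 0 hε)] with x hx
    rw [dist_zero_right, Real.norm_eq_abs] at hx
    exact hx.le
  obtain ⟨y₁, hy₁⟩ := eventually_atTop.1 (e1.and e2)
  have e3 : ∀ᶠ n : ℕ in atTop, ‖w (n + 1) - w n‖ * (((n : ℝ) + 1) / |D ((n : ℝ) + 1)|) ≤ ε := by
    filter_upwards [hw2.eventually (Metric.ball_mem_nhds 0 hε)] with n hn
    rw [dist_zero_right, Real.norm_eq_abs] at hn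
    exact (le_abs_self _).trans hn.le
  obtain ⟨n₁, hn₁⟩ := eventually_atTop.1 e3
  obtain ⟨n₂, hn₂⟩ := exists_nat_ge (max (max y₁ x₀) (max 1 (1 / ε)))
  refine ⟨max n₁ n₂, fun A N hA hAN => ?_⟩
  set Y : ℕ → ℂ := fun n => ex (Φ n) / (2 * Real.pi * Complex.I * D n) with hY
  have hYn : ∀ n, ‖Y n‖ ≤ |1 / D n| := fun n => norm_Y _ (norm_ex _) _
  have step : ∀ n : ℕ, max n₁ n₂ ≤ n → ‖ex (Φ n) / n - (Y (n + 1) - Y n)‖ ≤ 9 * ε / n := by
    intro n hn
    have hn' : (n₂ : ℝ) ≤ n := by exact_mod_cast (le_max_right _ _).trans hn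
    have a1 : max (max y₁ x₀) (max 1 (1 / ε)) ≤ (n : ℝ) := hn₂.trans hn'
    have a2 : y₁ ≤ (n : ℝ) := ((le_max_left _ _).trans (le_max_left _ _)).trans a1
    have a3 : x₀ ≤ (n : ℝ) := ((le_max_right _ _).trans (le_max_left _ _)).trans a1
    have a4 : 1 ≤ (n : ℝ) := ((le_max_left _ _).trans (le_max_right _ _)).trans a1
    have a5 : 1 / ε ≤ (n : ℝ) := ((le_max_right _ _).trans (le_max_right _ _)).trans a1
    have := (prim_step h.d1 h.d2 h.ne a3 a4 hε.le (fun x hx => (hy₁ x (a2.trans hx)).1)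
      (fun x hx => (hy₁ x (a2.trans hx)).2) (by rw [div_le_iff₀ (by linarith)]; rw [div_le_iff₀ hε] at a5; linarith)).1
    rw [norm_sub_rev]
    rw [hY]
    push_cast
    simpa using this
  set T : ℕ → ℂ := fun N => ∑ n ∈ Ioc A N, w n * (ex (Φ n) / n) - w N * Y (N + 1) with hT
  have key : ∀ N, A ≤ N → ‖T N + w A * Y (A + 1)‖ ≤ 10 * ε * (H N - H A) := by
    intro N hN
    induction N, hN using Nat.le_induction with
    | base => simp [hT]
    | succ N hN ih =>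
      have hN0 : max n₁ n₂ ≤ N + 1 := hA.trans (hN.trans (Nat.le_succ N))
      have s1 := step (N + 1) hN0
      have s2 := hn₁ N ((le_max_left _ _).trans (hA.trans hN))
      have e : T (N + 1) + w A * Y (A + 1) = (T N + w A * Y (A + 1)) +
          (w (N + 1) * (ex (Φ ((N + 1 : ℕ) : ℝ)) / ((N + 1 : ℕ) : ℂ) - (Y (N + 1 + 1) - Y (N + 1))) -
            (w (N + 1) - w N) * Y (N + 1)) := by
        rw [hT]
        simp only
        rw [← Finset.insert_Ioc_right_eq_Ioc_add_one hN, Finset.sum_insert (by simp)]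
        ring
      rw [e, H_succ]
      have s3 : ‖w (N + 1) * (ex (Φ ((N + 1 : ℕ) : ℝ)) / ((N + 1 : ℕ) : ℂ) - (Y (N + 1 + 1) - Y (N + 1)))‖ ≤
          9 * ε * (1 / ((N : ℝ) + 1)) := by
        rw [norm_mul]
        refine (mul_le_of_le_one_left (norm_nonneg _) (hw _)).trans (s1.trans (le_of_eq ?_))
        push_cast
        ring
      have s4 : ‖(w (N + 1) - w N) * Y (N + 1)‖ ≤ ε * (1 / ((N : ℝ) + 1)) := by
        rw [norm_mul]
        refine (mul_le_mul_of_nonneg_left (hYn _) (norm_nonneg _)).trans ?_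
        rw [abs_div, abs_one]
        push_cast
        rw [mul_one_div, mul_one_div, div_eq_mul_one_div]
        have hN1 : (0 : ℝ) < (N : ℝ) + 1 := by positivity
        rw [le_div_iff₀ hN1]
        calc ‖w (N + 1) - w N‖ * (1 / |D ((N : ℝ) + 1)|) * ((N : ℝ) + 1) =
              ‖w (N + 1) - w N‖ * (((N : ℝ) + 1) / |D ((N : ℝ) + 1)|) := by ring
          _ ≤ ε := s2
      refine (norm_add_le _ _).trans ?_
      refine (add_le_add ih ((norm_sub_le _ _).trans (add_le_add s3 s4))).trans (le_of_eq ?_)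
      ring
  have h1 := key N hAN
  have e4 : ∑ n ∈ Ioc A N, w n * (ex (Φ n) / n) = (T N + w A * Y (A + 1)) + w N * Y (N + 1) - w A * Y (A + 1) := by
    rw [hT]; ring
  rw [e4]
  refine (norm_sub_le _ _).trans ?_
  refine add_le_add ((norm_add_le _ _).trans (add_le_add h1 ?_)) ?_
  · rw [norm_mul]
    refine (mul_le_of_le_one_left (norm_nonneg _) (hw _)).trans ((hYn _).trans (le_of_eq ?_))
    push_cast
    rfl
  · rw [norm_mul]
    refine (mul_le_of_le_one_left (norm_nonneg _) (hw _)).trans ((hYn _).trans (le_of_eq ?_))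
    push_cast
    rfl

lemma inv_D_small {Φ D D' : ℝ → ℝ} {x₀ : ℝ} (h : SM Φ D D' x₀) (ε : ℝ) (hε : 0 < ε) :
    ∃ C : ℝ, ∃ n₀ : ℕ, ∀ N : ℕ, n₀ ≤ N → |1 / D (N : ℝ)| ≤ C + ε * H N := by
  have e1 : ∀ᶠ x : ℝ in atTop, |D x / x| ≤ ε := by
    filter_upwards [h.t1.eventually (Metric.ball_mem_nhds 0 hε)] with x hx
    rw [dist_zero_right, Real.norm_eq_abs] at hx
    exact hx.le
  have e2 : ∀ᶠ x : ℝ in atTop, |D' x / D x ^ 2| ≤ ε := by
    filter_upwards [h.t2.eventually (Metric.ball_mem_nhds 0 hε)] with x hx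
    rw [dist_zero_right, Real.norm_eq_abs] at hx
    exact hx.le
  obtain ⟨y₁, hy₁⟩ := eventually_atTop.1 (e1.and e2)
  obtain ⟨n₂, hn₂⟩ := exists_nat_ge (max (max y₁ x₀) (max 1 (1 / ε)))
  have a : ∀ n : ℕ, n₂ ≤ n → |1 / D ((n : ℝ) + 1) - 1 / D n| ≤ ε / n ∧ 1 ≤ (n : ℝ) := by
    intro n hn
    have hn' : (n₂ : ℝ) ≤ n := by exact_mod_cast hn
    have a1 : max (max y₁ x₀) (max 1 (1 / ε)) ≤ (n : ℝ) := hn₂.trans hn'
    have a2 : y₁ ≤ (n : ℝ) := ((le_max_left _ _).trans (le_max_left _ _)).trans a1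
    have a3 : x₀ ≤ (n : ℝ) := ((le_max_right _ _).trans (le_max_left _ _)).trans a1
    have a4 : 1 ≤ (n : ℝ) := ((le_max_left _ _).trans (le_max_right _ _)).trans a1
    have a5 : 1 / ε ≤ (n : ℝ) := ((le_max_right _ _).trans (le_max_right _ _)).trans a1
    exact ⟨(prim_step h.d1 h.d2 h.ne a3 a4 hε.le (fun x hx => (hy₁ x (a2.trans hx)).1)
      (fun x hx => (hy₁ x (a2.trans hx)).2) (by rw [div_le_iff₀ (by linarith)]; rw [div_le_iff₀ hε] at a5; linarith)).2, a4⟩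
  refine ⟨|1 / D (n₂ : ℝ)| + ε, n₂, fun N hN => ?_⟩
  suffices hs : |1 / D (N : ℝ)| ≤ |1 / D (n₂ : ℝ)| + ε * (1 - 1 / N) + ε * H N by
    have : 0 ≤ 1 / (N : ℝ) := by positivity
    nlinarith
  induction N, hN using Nat.le_induction with
  | base =>
    have h0 := (a n₂ le_rfl).2
    have h1 : 0 ≤ H n₂ := by unfold H; exact sum_nonneg fun _ _ => by positivity
    have h2 : 1 / (n₂ : ℝ) ≤ 1 := by rw [div_le_one (by linarith)]; exact h0
    nlinarith
  | succ N hN ih =>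
    obtain ⟨h1, h2⟩ := a N hN
    rw [H_succ]
    push_cast
    have h3 : |1 / D ((N : ℝ) + 1)| ≤ |1 / D (N : ℝ)| + ε / N := by
      have := abs_add_le (1 / D ((N : ℝ) + 1) - 1 / D N) (1 / D N)
      rw [sub_add_cancel] at this
      linarith
    have e : ε / (N : ℝ) = ε * (1 / (N : ℝ) - 1 / ((N : ℝ) + 1)) + ε * (1 / ((N : ℝ) + 1)) := by ring
    rw [e] at h3
    linarith

/-- Weyl sums of smooth phases -/
theorem SM.lz {Φ D D' : ℝ → ℝ} {x₀ : ℝ} (h : SM Φ D D' x₀) : LZ (fun n => ex (Φ n)) := by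
  unfold LZ
  rw [Metric.tendsto_atTop]
  intro ε hε
  have hw2 : Tendsto (fun n : ℕ => ‖(1 : ℂ) - 1‖ * (((n : ℝ) + 1) / |D ((n : ℝ) + 1)|)) atTop (nhds 0) := by
    simp
  obtain ⟨n₀, hn₀⟩ := window_sum h (w := fun _ => 1) (fun _ => by simp) hw2 (ε / 100) (by positivity)
  obtain ⟨C, n₁, hn₁⟩ := inv_D_small h (ε / 100) (by positivity)
  set A := max n₀ n₁ with hA
  set B : ℝ := ‖∑ n ∈ Icc 1 A, ex (Φ n) / (n : ℂ)‖ + |1 / D ((A : ℝ) + 1)| + |C| + ε with hB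
  obtain ⟨N₁, hN₁⟩ := eventually_atTop.1 (log_tendsto.eventually_ge_atTop (max 1 (2 * B / ε)))
  refine ⟨max N₁ (A + 1), fun N hN => ?_⟩
  have h1 := hN₁ N ((le_max_left _ _).trans hN)
  have h2 : A ≤ N := by have := (le_max_right N₁ (A + 1)).trans hN; omega
  have hl1 : 1 ≤ Real.log N := (le_max_left _ _).trans h1
  have hl2 : 2 * B / ε ≤ Real.log N := (le_max_right _ _).trans h1
  rw [dist_zero_right, norm_div, Complex.norm_real, Real.norm_eq_abs, abs_of_pos (by linarith),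
    div_lt_iff₀ (by linarith)]
  have h3 := hn₀ A N (le_max_left _ _) h2
  have h4 := hn₁ (N + 1) ((le_max_right n₀ n₁).trans (h2.trans (Nat.le_succ N)))
  push_cast at h4
  have e : ∑ n ∈ Icc 1 N, ex (Φ n) / (n : ℂ) = ∑ n ∈ Icc 1 A, ex (Φ n) / (n : ℂ) + ∑ n ∈ Ioc A N, (1 : ℂ) * (ex (Φ n) / n) := by
    have hdis : Disjoint (Icc 1 A) (Ioc A N) := by
      rw [Finset.disjoint_left]
      intro x hx hx2
      rw [mem_Icc] at hx
      rw [mem_Ioc] at hx2
      omega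
    have hun : Icc 1 N = Icc 1 A ∪ Ioc A N := by
      ext x
      simp only [mem_Icc, mem_union, mem_Ioc]
      omega
    rw [hun, sum_union hdis]
    simp
  rw [e]
  refine lt_of_le_of_lt (norm_add_le _ _) ?_
  have hHA : 0 ≤ H A := by unfold H; exact sum_nonneg fun _ _ => by positivity
  have hHN := H_le N
  have hHN1 : H (N + 1) ≤ H N + 1 := by
    rw [H_succ]
    have : 1 / ((N : ℝ) + 1) ≤ 1 := by
      rw [div_le_one (by positivity)]
      linarith [(Nat.cast_nonneg N : (0 : ℝ) ≤ N)]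
    linarith
  have h5 : B ≤ ε / 2 * Real.log N := by
    rw [div_le_iff₀ hε] at hl2
    linarith
  have h6 : |1 / D ((N : ℝ) + 1)| ≤ |C| + ε / 100 * (2 + Real.log N) := by
    refine h4.trans ?_
    have := le_abs_self C
    nlinarith
  have h7 : 10 * (ε / 100) * (H N - H A) ≤ 10 * (ε / 100) * (1 + Real.log N) := by
    apply mul_le_mul_of_nonneg_left _ (by positivity)
    linarith
  have h8 : 0 < ε * Real.log N := by positivity
  nlinarith

end

end Pool.Agent.Y326.Slw
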