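import Pool.Agent.Y326.Slw8

/-!
# Slow phases: powers of the logarithm and small powers
-/

set_option autoImplicit false

namespace Pool.Agent.Y326.Slw

open Finset Filter MeasureTheory
open Pool.Agent.TH112.BL Pool.Agent.TH928.BLJ

noncomputable section

/-- unique factorisation -/
lemma log_indep (P : Finset ℕ) (hP : ∀ p ∈ P, p.Prime) (κ : ℕ → ℤ) (h0 : ∑ p ∈ P, κ p * Real.log p = 0)
    (q : ℕ) (hq : q ∈ P) : κ q = 0 := by
  have hpos : ∀ p ∈ P, (0 : ℝ) < p := fun p hp => by exact_mod_cast (hP p hp).pos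
  have h1 : ∏ p ∈ P, (p : ℝ) ^ (κ p) = 1 := by
    have h2 : Real.exp (∑ p ∈ P, κ p * Real.log p) = ∏ p ∈ P, (p : ℝ) ^ (κ p) := by
      rw [Real.exp_sum]
      refine prod_congr rfl fun p hp => ?_
      rw [mul_comm, ← Real.rpow_intCast, Real.rpow_def_of_pos (hpos p hp)]
    rw [← h2, h0, Real.exp_zero]
  have h3 : ∏ p ∈ P, (p : ℚ) ^ (κ p) = 1 := by
    have : ((∏ p ∈ P, (p : ℚ) ^ (κ p) : ℚ) : ℝ) = ((1 : ℚ) : ℝ) := by
      push_cast
      exact h1
    exact_mod_cast this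
  have : Fact q.Prime := ⟨hP q hq⟩
  have h4 : ∀ T : Finset ℕ, (∀ p ∈ T, p.Prime) → padicValRat q (∏ p ∈ T, (p : ℚ) ^ (κ p)) = ∑ p ∈ T, κ p * padicValRat q (p : ℚ) ∧
      ∏ p ∈ T, (p : ℚ) ^ (κ p) ≠ 0 := by
    intro T
    classical
    induction T using Finset.induction_on with
    | empty => simp
    | insert p T hp ih =>
      intro hT
      obtain ⟨i1, i2⟩ := ih fun x hx => hT x (mem_insert_of_mem hx)
      have hp0 : (p : ℚ) ≠ 0 := by exact_mod_cast (hT p (mem_insert_self p T)).ne_zero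
      have hpz : (p : ℚ) ^ (κ p) ≠ 0 := zpow_ne_zero _ hp0
      rw [prod_insert hp, sum_insert hp, padicValRat.mul hpz i2, i1, padicValRat.zpow]
      exact ⟨rfl, mul_ne_zero hpz i2⟩
  have h5 := (h4 P hP).1
  rw [h3, padicValRat.one, sum_eq_single_of_mem q hq] at h5
  · rw [padicValRat.of_nat, padicValNat_self] at h5
    simpa using h5.symm
  · intro p hp hne
    rw [padicValRat.of_nat, padicValNat.eq_zero_of_not_dvd]
    · simp
    · intro hd
      exact hne ((Nat.prime_dvd_prime_iff_eq (hP q hq) (hP p hp)).1 hd).symm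

/-- smooth phases are slow -/
lemma SM.slow {Φ D D' : ℝ → ℝ} {x₀ : ℝ} (h : SM Φ D D' x₀) : Tendsto (fun m : ℕ => Φ ((m + 1 : ℕ) : ℝ) - Φ (m : ℝ)) atTop (nhds 0) := by
  rw [Metric.tendsto_atTop]
  intro ε hε
  have e1 : ∀ᶠ x : ℝ in atTop, |D x / x| ≤ ε / 2 := by
    filter_upwards [h.t1.eventually (Metric.ball_mem_nhds 0 (half_pos hε))] with x hx
    rw [dist_zero_right, Real.norm_eq_abs] at hx
    exact hx.le
  obtain ⟨y₁, hy₁⟩ := eventually_atTop.1 e1
  obtain ⟨n₂, hn₂⟩ := exists_nat_ge (max y₁ x₀)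
  refine ⟨n₂, fun m hm => ?_⟩
  have hm' : (n₂ : ℝ) ≤ m := by exact_mod_cast hm
  have a1 : y₁ ≤ (m : ℝ) := (le_max_left _ _).trans (hn₂.trans hm')
  have a2 : x₀ ≤ (m : ℝ) := (le_max_right _ _).trans (hn₂.trans hm')
  have := (convex_Icc (m : ℝ) (m + 1)).norm_image_sub_le_of_norm_hasDerivWithin_le (f := Φ) (f' := fun x => D x / x) (C := ε / 2)
      (fun z hz => (h.d1 z (a2.trans hz.1)).hasDerivWithinAt) (fun z hz => hy₁ z (a1.trans hz.1))
      (Set.left_mem_Icc.2 (by linarith)) (Set.right_mem_Icc.2 (by linarith))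
  rw [dist_zero_right]
  push_cast
  refine lt_of_le_of_lt this ?_
  simp
  linarith

lemma ap_of_sm {φ : ℝ → ℝ} (h : ∀ P : Finset ℕ, (∀ p ∈ P, p.Prime) → ∀ κ : ℕ → ℤ, (∃ p ∈ P, κ p ≠ 0) →
    ∃ D D' : ℝ → ℝ, ∃ x₀ : ℝ, SM (fun x => ∑ p ∈ P, κ p * φ (x / p)) D D' x₀) : AP φ := by
  refine ⟨fun p hp => ?_, fun P hP κ hκ => ?_⟩
  · obtain ⟨D, D', x₀, h1⟩ := h {p} (fun q hq => by rw [mem_singleton] at hq; rw [hq]; exact hp) (fun _ => 1)
      ⟨p, mem_singleton_self p, one_ne_zero⟩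
    simpa using h1.slow
  · obtain ⟨D, D', x₀, h1⟩ := h P hP κ hκ
    exact h1.lz

/-! ## powers -/

/-- independence over the rationals of `p ^ (-c)` -/
def Ind (c : ℝ) : Prop := ∀ P : Finset ℕ, (∀ p ∈ P, p.Prime) → ∀ κ : ℕ → ℤ, (∃ p ∈ P, κ p ≠ 0) →
  ∑ p ∈ P, κ p * (p : ℝ) ^ (-c) ≠ 0

theorem rpow_sm (c : ℝ) (hc : 0 < c) (hc1 : c < 1) (hi : Ind c) (α : ℝ) (hα : α ≠ 0)
    (P : Finset ℕ) (hP : ∀ p ∈ P, p.Prime) (κ : ℕ → ℤ) (hκ : ∃ p ∈ P, κ p ≠ 0) :
    ∃ B : ℝ, B ≠ 0 ∧ SM (fun x => ∑ p ∈ P, κ p * (α * (x / p) ^ c)) (fun x => c * B * x ^ c) (fun x => c ^ 2 * B * x ^ c) 2 := by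
  set B : ℝ := α * ∑ p ∈ P, κ p * (p : ℝ) ^ (-c) with hB
  have hB0 : B ≠ 0 := mul_ne_zero hα (hi P hP κ hκ)
  refine ⟨B, hB0, ?_⟩
  have e : ∀ x : ℝ, 1 ≤ x → ∑ p ∈ P, κ p * (α * (x / p) ^ c) = B * x ^ c := by
    intro x hx
    rw [hB, mul_sum, sum_mul]
    refine sum_congr rfl fun p hp => ?_
    have hp0 : (0 : ℝ) < p := by exact_mod_cast (hP p hp).pos
    rw [Real.div_rpow (by linarith) hp0.le, Real.rpow_neg hp0.le]
    ring
  refine ⟨?_, ?_, ?_, ?_, ?_⟩
  · intro x hx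
    have hx0 : 0 < x := by linarith
    have h1 : HasDerivAt (fun x : ℝ => B * x ^ c) (B * (c * x ^ (c - 1))) x :=
      (Real.hasDerivAt_rpow_const (Or.inl hx0.ne')).const_mul B
    have h2 : (fun x => ∑ p ∈ P, κ p * (α * (x / p) ^ c)) =ᶠ[nhds x] (fun x : ℝ => B * x ^ c) := by
      filter_upwards [lt_mem_nhds (by linarith : (1 : ℝ) < x)] with y hy
      exact e y hy.le
    refine (h1.congr_of_eventuallyEq h2).congr_deriv ?_
    rw [Real.rpow_sub_one hx0.ne']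
    ring
  · intro x hx
    have hx0 : 0 < x := by linarith
    have h1 : HasDerivAt (fun x : ℝ => c * B * x ^ c) (c * B * (c * x ^ (c - 1))) x :=
      (Real.hasDerivAt_rpow_const (Or.inl hx0.ne')).const_mul _
    refine h1.congr_deriv ?_
    rw [Real.rpow_sub_one hx0.ne']
    ring
  · intro x hx
    have hx0 : 0 < x := by linarith
    have := Real.rpow_pos_of_pos hx0 c
    exact mul_ne_zero (mul_ne_zero hc.ne' hB0) this.ne'
  · have h1 : Tendsto (fun x : ℝ => c * B * x ^ (-(1 - c))) atTop (nhds (c * B * 0)) :=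
      (tendsto_rpow_neg_atTop (by linarith : 0 < 1 - c)).const_mul _
    rw [mul_zero] at h1
    refine h1.congr' ?_
    filter_upwards [eventually_gt_atTop 0] with x hx
    rw [show -(1 - c) = c - 1 by ring, Real.rpow_sub_one hx.ne']
    ring
  · have h1 : Tendsto (fun x : ℝ => (1 / B) * x ^ (-c)) atTop (nhds ((1 / B) * 0)) :=
      (tendsto_rpow_neg_atTop hc).const_mul _
    rw [mul_zero] at h1
    refine h1.congr' ?_
    filter_upwards [eventually_gt_atTop 0] with x hx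
    have := Real.rpow_pos_of_pos hx c
    rw [Real.rpow_neg hx.le]
    field_simp

theorem ap_rpow (c : ℝ) (hc : 0 < c) (hc1 : c < 1) (hi : Ind c) (α : ℝ) (hα : α ≠ 0) : AP (fun x => α * x ^ c) := by
  apply ap_of_sm
  intro P hP κ hκ
  obtain ⟨B, _, h⟩ := rpow_sm c hc hc1 hi α hα P hP κ hκ
  exact ⟨_, _, 2, h⟩

/-! ## powers of the logarithm -/

/-- the sums over the primes and the exponents -/
def AA {I : Type} [Fintype I] (P : Finset ℕ) (κ : ℕ → ℤ) (γ s : I → ℝ) (T : ℝ) : ℝ :=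
  ∑ p ∈ P, κ p * ∑ i, γ i * (T - Real.log p) ^ (s i)

section

variable {I : Type} [Fintype I] {P : Finset ℕ} {κ : ℕ → ℤ} {γ s : I → ℝ}

lemma AA_deriv (hP : ∀ p ∈ P, p.Prime) {x : ℝ} (hx : 0 < x) (hx2 : ∀ p ∈ P, Real.log p < Real.log x) :
    HasDerivAt (fun x => AA P κ γ s (Real.log x)) (AA P κ (fun i => γ i * s i) (fun i => s i - 1) (Real.log x) / x) x := by
  unfold AA
  have h1 : ∀ p ∈ P, HasDerivAt (fun x => (κ p : ℝ) * ∑ i, γ i * (Real.log x - Real.log p) ^ (s i))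
      (κ p * ∑ i, γ i * (x⁻¹ * s i * (Real.log x - Real.log p) ^ (s i - 1))) x := by
    intro p hp
    apply HasDerivAt.const_mul
    apply HasDerivAt.fun_sum
    intro i _
    apply HasDerivAt.const_mul
    exact ((Real.hasDerivAt_log hx.ne').sub_const _).rpow_const (Or.inl (sub_ne_zero.2 (hx2 p hp).ne'))
  refine (HasDerivAt.fun_sum h1).congr_deriv ?_
  rw [sum_div]
  refine sum_congr rfl fun p _ => ?_
  rw [mul_sum, mul_sum, sum_div]
  refine sum_congr rfl fun i _ => ?_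
  field_simp

lemma base_lim (l s : ℝ) : Tendsto (fun T : ℝ => T ^ (-s) * (T - l) ^ s) atTop (nhds 1) ∧
    Tendsto (fun T : ℝ => T ^ (1 - s) * (T - l) ^ s - T) atTop (nhds (-s * l)) := by
  have h1 : HasDerivAt (fun u : ℝ => (1 - l * u) ^ s) (-s * l) 0 := by
    have h2 : HasDerivAt (fun u : ℝ => 1 - l * u) (-(l * 1)) 0 := ((hasDerivAt_id (0 : ℝ)).const_mul l).const_sub 1
    have h3 := h2.rpow_const (p := s) (Or.inl (by norm_num))
    refine h3.congr_deriv ?_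
    simp
    ring
  have h4 := h1.tendsto_slope_zero_right
  have h5 : Tendsto (fun T : ℝ => T⁻¹) atTop (nhdsWithin 0 (Set.Ioi 0)) := tendsto_inv_atTop_nhdsGT_zero
  have h6 := h4.comp h5
  have e : ∀ᶠ T : ℝ in atTop, (1 - l * T⁻¹) ^ s = T ^ (-s) * (T - l) ^ s := by
    filter_upwards [eventually_gt_atTop (max 0 l)] with T hT
    have hT0 : 0 < T := (le_max_left _ _).trans_lt hT
    have hTl : l < T := (le_max_right _ _).trans_lt hT
    have e1 : 1 - l * T⁻¹ = (T - l) / T := by field_simp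
    rw [e1, Real.div_rpow (by linarith) hT0.le, Real.rpow_neg hT0.le]
    ring
  constructor
  · have h7 := h1.continuousAt.tendsto
    have h8 : Tendsto (fun T : ℝ => T⁻¹) atTop (nhds 0) := tendsto_inv_atTop_zero
    have h9 := h7.comp h8
    simp only [mul_zero, sub_zero, Real.one_rpow] at h9
    exact h9.congr' e
  · refine h6.congr' ?_
    filter_upwards [e, eventually_gt_atTop 0] with T hT hT0
    simp only [Function.comp, zero_add, mul_zero, sub_zero, Real.one_rpow, inv_inv, smul_eq_mul]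
    rw [hT, Real.rpow_sub hT0, Real.rpow_neg hT0.le, Real.rpow_one]
    ring

lemma AA_lim (i₀ : I) (htop : ∀ i, i ≠ i₀ → s i < s i₀) :
    Tendsto (fun T => T ^ (-(s i₀)) * AA P κ γ s T) atTop (nhds (γ i₀ * ∑ p ∈ P, (κ p : ℝ))) ∧
    (∑ p ∈ P, (κ p : ℝ) = 0 → Tendsto (fun T => T ^ (1 - s i₀) * AA P κ γ s T) atTop
      (nhds (-(γ i₀ * s i₀ * ∑ p ∈ P, κ p * Real.log p)))) := by
  classical
  have hA : ∀ T, AA P κ γ s T = ∑ i, γ i * ∑ p ∈ P, κ p * (T - Real.log p) ^ (s i) := by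
    intro T
    unfold AA
    simp only [mul_sum]
    rw [sum_comm]
    refine sum_congr rfl fun i _ => sum_congr rfl fun p _ => ?_
    ring
  have l1 : ∀ i, Tendsto (fun T : ℝ => T ^ (-(s i)) * ∑ p ∈ P, κ p * (T - Real.log p) ^ (s i)) atTop
      (nhds (∑ p ∈ P, (κ p : ℝ))) := by
    intro i
    have h1 : Tendsto (fun T : ℝ => ∑ p ∈ P, (κ p : ℝ) * (T ^ (-(s i)) * (T - Real.log p) ^ (s i))) atTop
        (nhds (∑ p ∈ P, (κ p : ℝ) * 1)) :=
      tendsto_finsetSum _ fun p _ => ((base_lim (Real.log p) (s i)).1).const_mul _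
    simp only [mul_one] at h1
    refine h1.congr fun T => ?_
    rw [mul_sum]
    refine sum_congr rfl fun p _ => ?_
    ring
  have l2 : ∑ p ∈ P, (κ p : ℝ) = 0 → ∀ i, Tendsto (fun T : ℝ => T ^ (1 - s i) * ∑ p ∈ P, κ p * (T - Real.log p) ^ (s i)) atTop
      (nhds (-(s i * ∑ p ∈ P, κ p * Real.log p))) := by
    intro hK i
    have h1 : Tendsto (fun T : ℝ => ∑ p ∈ P, (κ p : ℝ) * (T ^ (1 - s i) * (T - Real.log p) ^ (s i) - T)) atTop
        (nhds (∑ p ∈ P, (κ p : ℝ) * (-(s i) * Real.log p))) :=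
      tendsto_finsetSum _ fun p _ => ((base_lim (Real.log p) (s i)).2).const_mul _
    have e2 : ∑ p ∈ P, (κ p : ℝ) * (-(s i) * Real.log p) = -(s i * ∑ p ∈ P, κ p * Real.log p) := by
      rw [mul_sum, ← sum_neg_distrib]
      refine sum_congr rfl fun p _ => ?_
      ring
    rw [e2] at h1
    refine h1.congr fun T => ?_
    have e3 : ∑ p ∈ P, (κ p : ℝ) * (T ^ (1 - s i) * (T - Real.log p) ^ (s i) - T) =
        T ^ (1 - s i) * (∑ p ∈ P, κ p * (T - Real.log p) ^ (s i)) - (∑ p ∈ P, (κ p : ℝ)) * T := by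
      rw [mul_sum, sum_mul, ← sum_sub_distrib]
      refine sum_congr rfl fun p _ => ?_
      ring
    rw [e3, hK, zero_mul, sub_zero]
  have l3 : ∀ i, i ≠ i₀ → Tendsto (fun T : ℝ => T ^ (s i - s i₀)) atTop (nhds 0) := by
    intro i hi
    have := tendsto_rpow_neg_atTop (by linarith [htop i hi] : 0 < s i₀ - s i)
    rwa [neg_sub] at this
  constructor
  · have h1 : Tendsto (fun T : ℝ => ∑ i, γ i * ((if i = i₀ then 1 else T ^ (s i - s i₀)) *
        (T ^ (-(s i)) * ∑ p ∈ P, κ p * (T - Real.log p) ^ (s i)))) atTop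
        (nhds (∑ i, γ i * ((if i = i₀ then 1 else 0) * ∑ p ∈ P, (κ p : ℝ)))) := by
      apply tendsto_finsetSum
      intro i _
      apply Tendsto.const_mul
      refine Tendsto.mul ?_ (l1 i)
      by_cases hi : i = i₀
      · simp only [hi, if_true]; exact tendsto_const_nhds
      · simp only [if_neg hi]; exact l3 i hi
    simp only [ite_mul, one_mul, zero_mul, mul_ite, mul_zero, sum_ite_eq', mem_univ, if_true] at h1
    refine h1.congr' ?_
    filter_upwards [eventually_gt_atTop 0] with T hT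
    rw [hA, mul_sum]
    refine sum_congr rfl fun i _ => ?_
    by_cases hi : i = i₀
    · rw [if_pos hi, hi]; ring
    · rw [if_neg hi]
      have e4 : T ^ (-(s i₀)) = T ^ (s i - s i₀) * T ^ (-(s i)) := by
        rw [← Real.rpow_add hT]; congr 1; ring
      rw [e4]; ring
  · intro hK
    have h1 : Tendsto (fun T : ℝ => ∑ i, γ i * ((if i = i₀ then 1 else T ^ (s i - s i₀)) *
        (T ^ (1 - s i) * ∑ p ∈ P, κ p * (T - Real.log p) ^ (s i)))) atTop
        (nhds (∑ i, γ i * ((if i = i₀ then 1 else 0) * (-(s i * ∑ p ∈ P, κ p * Real.log p))))) := by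
      apply tendsto_finsetSum
      intro i _
      apply Tendsto.const_mul
      refine Tendsto.mul ?_ (l2 hK i)
      by_cases hi : i = i₀
      · simp only [hi, if_true]; exact tendsto_const_nhds
      · simp only [if_neg hi]; exact l3 i hi
    simp only [ite_mul, one_mul, zero_mul, mul_ite, mul_zero, sum_ite_eq', mem_univ, if_true] at h1
    have e5 : γ i₀ * -(s i₀ * ∑ p ∈ P, κ p * Real.log p) = -(γ i₀ * s i₀ * ∑ p ∈ P, κ p * Real.log p) := by ring
    rw [e5] at h1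
    refine h1.congr' ?_
    filter_upwards [eventually_gt_atTop 0] with T hT
    rw [hA, mul_sum]
    refine sum_congr rfl fun i _ => ?_
    by_cases hi : i = i₀
    · rw [if_pos hi, hi]; ring
    · rw [if_neg hi]
      have e4 : T ^ (1 - s i₀) = T ^ (s i - s i₀) * T ^ (1 - s i) := by
        rw [← Real.rpow_add hT]; congr 1; ring
      rw [e4]; ring

end

/-- asymptotic criterion in the variable `log x` -/
lemma sm_of_asymp {Φ : ℝ → ℝ} {G₁ G₂ : ℝ → ℝ} {r d d' : ℝ} (hr : -1 < r) (hd : d ≠ 0)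
    (h1 : ∀ᶠ x in atTop, HasDerivAt Φ (G₁ (Real.log x) / x) x)
    (h2 : ∀ᶠ x in atTop, HasDerivAt (fun x => G₁ (Real.log x)) (G₂ (Real.log x) / x) x)
    (h3 : Tendsto (fun T : ℝ => T ^ (-r) * G₁ T) atTop (nhds d))
    (h4 : Tendsto (fun T : ℝ => T ^ (1 - r) * G₂ T) atTop (nhds d')) :
    ∃ x₀ : ℝ, SM Φ (fun x => G₁ (Real.log x)) (fun x => G₂ (Real.log x)) x₀ := by
  have hl := Real.tendsto_log_atTop
  have h5 : ∀ᶠ T : ℝ in atTop, G₁ T ≠ 0 := by
    filter_upwards [h3.eventually_ne hd] with T hT h0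
    rw [h0, mul_zero] at hT
    exact hT rfl
  obtain ⟨x₀, hx₀⟩ := eventually_atTop.1 (h1.and (h2.and (hl.eventually h5)))
  refine ⟨x₀, fun x hx => (hx₀ x hx).1, fun x hx => (hx₀ x hx).2.1, fun x hx => (hx₀ x hx).2.2, ?_, ?_⟩
  · have h6 : Tendsto (fun T : ℝ => T ^ r / Real.exp T) atTop (nhds 0) := (isLittleO_rpow_exp_atTop r).tendsto_div_nhds_zero
    have h7 := ((h3.mul h6).comp hl)
    rw [mul_zero] at h7
    refine h7.congr' ?_
    filter_upwards [eventually_gt_atTop 1] with x hx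
    have hx0 : 0 < x := by linarith
    have hlx : 0 < Real.log x := Real.log_pos hx
    simp only [Function.comp]
    rw [Real.exp_log hx0, Real.rpow_neg hlx.le]
    have := (Real.rpow_pos_of_pos hlx r).ne'
    field_simp
  · have h6 : Tendsto (fun T : ℝ => T ^ (-(1 + r))) atTop (nhds 0) := tendsto_rpow_neg_atTop (by linarith)
    have h7 := (((h4.div (h3.pow 2) (pow_ne_zero 2 hd)).mul h6)).comp hl
    rw [mul_zero] at h7
    refine h7.congr' ?_
    filter_upwards [eventually_gt_atTop 1, hl.eventually h5] with x hx hne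
    have hlx : 0 < Real.log x := Real.log_pos hx
    simp only [Function.comp, Pi.div_apply]
    have e1 : Real.log x ^ (1 - r) = Real.log x ^ (-r) * Real.log x := by
      rw [show (1 - r) = -r + 1 by ring, Real.rpow_add_one hlx.ne']
    have e2 : Real.log x ^ (-(1 + r)) = Real.log x ^ (-r) / Real.log x := by
      rw [show (-(1 + r)) = -r - 1 by ring, Real.rpow_sub_one hlx.ne']
    rw [e1, e2]
    have h8 := (Real.rpow_pos_of_pos hlx (-r)).ne'
    field_simp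

/-- generalised polynomials in the logarithm with a top exponent larger than one: the dilates -/
theorem log_sm {I : Type} [Fintype I] (α β : I → ℝ) (i₀ : I) (h1 : 1 < β i₀) (hα : α i₀ ≠ 0)
    (htop : ∀ i, i ≠ i₀ → β i < β i₀) (P : Finset ℕ) (hP : ∀ p ∈ P, p.Prime) (κ : ℕ → ℤ) (hκ : ∃ p ∈ P, κ p ≠ 0) :
    ∃ (G₁ G₂ : ℝ → ℝ) (r d x₀ : ℝ), d ≠ 0 ∧ β i₀ - 2 ≤ r ∧
      SM (fun x => ∑ p ∈ P, κ p * ∑ i, α i * (Real.log (x / p)) ^ (β i)) (fun x => G₁ (Real.log x)) (fun x => G₂ (Real.log x)) x₀ ∧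
      Tendsto (fun T : ℝ => T ^ (-r) * G₁ T) atTop (nhds d) := by
  have hl := Real.tendsto_log_atTop
  have hbig : ∀ᶠ x : ℝ in atTop, ∀ p ∈ P, Real.log p < Real.log x := by
    rw [Filter.eventually_all_finset]
    intro p _
    exact hl.eventually (eventually_gt_atTop _)
  have d0 : ∀ᶠ x : ℝ in atTop, HasDerivAt (fun x => ∑ p ∈ P, κ p * ∑ i, α i * (Real.log (x / p)) ^ (β i))
      (AA P κ (fun i => α i * β i) (fun i => β i - 1) (Real.log x) / x) x := by
    filter_upwards [hbig, eventually_gt_atTop 0] with x hx hx0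
    refine (AA_deriv (γ := α) (s := β) hP hx0 hx).congr_of_eventuallyEq ?_
    filter_upwards [lt_mem_nhds hx0] with y hy
    unfold AA
    refine sum_congr rfl fun p hp => ?_
    have hp0 : (p : ℝ) ≠ 0 := by exact_mod_cast (hP p hp).ne_zero
    rw [Real.log_div hy.ne' hp0]
  have d1 : ∀ᶠ x : ℝ in atTop, HasDerivAt (fun x => AA P κ (fun i => α i * β i) (fun i => β i - 1) (Real.log x))
      (AA P κ (fun i => α i * β i * (β i - 1)) (fun i => β i - 1 - 1) (Real.log x) / x) x := by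
    filter_upwards [hbig, eventually_gt_atTop 0] with x hx hx0
    exact AA_deriv hP hx0 hx
  have t1 : ∀ i, i ≠ i₀ → β i - 1 < β i₀ - 1 := fun i hi => by linarith [htop i hi]
  have t2 : ∀ i, i ≠ i₀ → β i - 1 - 1 < β i₀ - 1 - 1 := fun i hi => by linarith [htop i hi]
  obtain ⟨a1, a2⟩ := AA_lim (P := P) (κ := κ) (γ := fun i => α i * β i) (s := fun i => β i - 1) i₀ t1
  obtain ⟨b1, b2⟩ := AA_lim (P := P) (κ := κ) (γ := fun i => α i * β i * (β i - 1)) (s := fun i => β i - 1 - 1) i₀ t2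
  have hne : α i₀ * β i₀ ≠ 0 := mul_ne_zero hα (by linarith)
  by_cases hK : ∑ p ∈ P, (κ p : ℝ) = 0
  · have hL : ∑ p ∈ P, κ p * Real.log p ≠ 0 := by
      intro h0
      obtain ⟨q, hq, hqn⟩ := hκ
      exact hqn (log_indep P hP κ h0 q hq)
    have a3 := a2 hK
    have b3 := b2 hK
    have hd : -(α i₀ * β i₀ * (β i₀ - 1) * ∑ p ∈ P, κ p * Real.log p) ≠ 0 :=
      neg_ne_zero.2 (mul_ne_zero (mul_ne_zero hne (by linarith : β i₀ - 1 ≠ 0)) hL)
    have a4 : Tendsto (fun T : ℝ => T ^ (-(β i₀ - 2)) * AA P κ (fun i => α i * β i) (fun i => β i - 1) T) atTop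
        (nhds (-(α i₀ * β i₀ * (β i₀ - 1) * ∑ p ∈ P, κ p * Real.log p))) := a3.congr fun T => by congr 2; ring
    obtain ⟨x₀, hx₀⟩ := sm_of_asymp (r := β i₀ - 2) (by linarith) hd d0 d1 a4 (b3.congr fun T => by congr 2; ring)
    exact ⟨_, _, β i₀ - 2, _, x₀, hd, le_rfl, hx₀, a4⟩
  · have a4 : Tendsto (fun T : ℝ => T ^ (-(β i₀ - 1)) * AA P κ (fun i => α i * β i) (fun i => β i - 1) T) atTop
        (nhds (α i₀ * β i₀ * ∑ p ∈ P, (κ p : ℝ))) := a1.congr fun T => by congr 2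
    obtain ⟨x₀, hx₀⟩ := sm_of_asymp (r := β i₀ - 1) (by linarith) (mul_ne_zero hne hK) d0 d1
      a4 (b1.congr fun T => by congr 2; ring)
    exact ⟨_, _, β i₀ - 1, _, x₀, mul_ne_zero hne hK, by linarith, hx₀, a4⟩

/-- generalised polynomials in the logarithm with a top exponent larger than one -/
theorem ap_log {I : Type} [Fintype I] (α β : I → ℝ) (i₀ : I) (h1 : 1 < β i₀) (hα : α i₀ ≠ 0)
    (htop : ∀ i, i ≠ i₀ → β i < β i₀) : AP (fun x => ∑ i, α i * (Real.log x) ^ (β i)) := by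
  apply ap_of_sm
  intro P hP κ hκ
  obtain ⟨G₁, G₂, r, d, x₀, _, _, h2, _⟩ := log_sm α β i₀ h1 hα htop P hP κ hκ
  exact ⟨_, _, x₀, h2⟩

end

end Pool.Agent.Y326.Slw
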