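import Pool.Agent.Y326.Unif
import Pool.Agent.Y326.Appr

/-!
# Functions on topological systems whose windows lie close to subspaces of small dimension
-/

set_option autoImplicit false

namespace Pool.Agent.Y326

open Finset Filter Topology
open Pool.Agent.TH833.BL (S H H_le le_H one_le_log)

variable {X : Type*}

/-- The windows of length `L` of the function `f` along the orbits of `T` lie within `δ √L`, in `ℓ²`, of a
subspace of dimension at most `ρ L`. -/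
def NearSub (T : X → X) (f : X → ℂ) (L : ℕ) (ρ δ : ℝ) : Prop :=
  ∃ V : Submodule ℂ (EuclideanSpace ℂ (Fin L)), (Module.finrank ℂ V : ℝ) ≤ ρ * L ∧
    ∀ x : X, ∃ v ∈ V, ∑ h : Fin L, ‖f (T^[h] x) - v h‖ ^ 2 ≤ δ ^ 2 * L

/-- the sequences along the orbits -/
def orb (T : X → X) (f : X → ℂ) : Set (ℕ → ℂ) := {a | ∃ x, ∀ h, a h = f (T^[h] x)}

lemma orb_bd {T : X → X} {f : X → ℂ} {B : ℝ} (hf : ∀ x, ‖f x‖ ≤ B) : ∀ a ∈ orb T f, ∀ n, ‖a n‖ ≤ B := by
  rintro a ⟨x, hx⟩ n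
  rw [hx]; exact hf _

lemma orb_shift {T : X → X} {f : X → ℂ} : ∀ a ∈ orb T f, (fun n => a (n + 1)) ∈ orb T f := by
  rintro a ⟨x, hx⟩
  exact ⟨T x, fun h => by
    show a (h + 1) = _
    rw [hx, Function.iterate_succ_apply]⟩

lemma fac_near {T : X → X} {f : X → ℂ} {B : ℝ} (hB : 0 ≤ B) (hf : ∀ x, ‖f x‖ ≤ B) {L : ℕ} (hL : 1 ≤ L) {ρ δ : ℝ}
    (hρ : 0 ≤ ρ) (hδ : 0 ≤ δ) (h : NearSub T f L ρ δ) : Fac (orb T f) L ((B + δ) * √ρ + δ) := by
  obtain ⟨V, hV, hx⟩ := h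
  set r := Module.finrank ℂ V with hr
  set b := stdOrthonormalBasis ℂ V with hb
  have hL0 : (0 : ℝ) < L := by exact_mod_cast hL
  set K : ℝ := (B + δ) * √L with hK
  have hK0 : 0 ≤ K := by positivity
  set c : ℕ → EuclideanSpace ℂ (Fin r) := fun h => WithLp.toLp 2 fun j =>
    if hh : h < L then (K : ℂ) * ((b j : V) : EuclideanSpace ℂ (Fin L)) ⟨h, hh⟩ else 0 with hc
  set η := (B + δ) * √ρ + δ with hη
  have hη0 : 0 ≤ η := by positivity
  refine ⟨EuclideanSpace ℂ (Fin r), inferInstance, inferInstance, c, ?_, ?_⟩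
  · have e1 : ∀ h : Fin L, ‖c h‖ ^ 2 = ∑ j, K ^ 2 * ‖((b j : V) : EuclideanSpace ℂ (Fin L)) h‖ ^ 2 := by
      intro h
      rw [EuclideanSpace.norm_sq_eq]
      refine sum_congr rfl fun j _ => ?_
      rw [hc]
      simp only [Fin.is_lt, dif_pos, Fin.eta, norm_mul, mul_pow, Complex.norm_real, Real.norm_eq_abs, sq_abs]
    rw [← Fin.sum_univ_eq_sum_range (fun h => ‖c h‖ ^ 2) L]
    simp only [e1]
    rw [sum_comm]
    have e2 : ∀ j, ∑ h : Fin L, K ^ 2 * ‖((b j : V) : EuclideanSpace ℂ (Fin L)) h‖ ^ 2 = K ^ 2 := by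
      intro j
      rw [← mul_sum, ← EuclideanSpace.norm_sq_eq]
      have : ‖((b j : V) : EuclideanSpace ℂ (Fin L))‖ = 1 := b.orthonormal.1 j
      rw [this]; ring
    simp only [e2, sum_const, card_univ, Fintype.card_fin, nsmul_eq_mul]
    have e3 : K ^ 2 = (B + δ) ^ 2 * L := by
      rw [hK, mul_pow, Real.sq_sqrt hL0.le]
    rw [e3]
    have e4 : ((B + δ) * √ρ) ^ 2 ≤ η ^ 2 := by
      apply pow_le_pow_left₀ (by positivity)
      rw [hη]; linarith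
    rw [mul_pow, Real.sq_sqrt hρ] at e4
    calc (r : ℝ) * ((B + δ) ^ 2 * L) ≤ (ρ * L) * ((B + δ) ^ 2 * L) :=
          mul_le_mul_of_nonneg_right hV (by positivity)
      _ = ((B + δ) ^ 2 * ρ) * L ^ 2 := by ring
      _ ≤ η ^ 2 * L ^ 2 := mul_le_mul_of_nonneg_right e4 (by positivity)
      _ = _ := by ring
  · rintro a ⟨x, ha⟩ w hw
    obtain ⟨v, hv, hd⟩ := hx x
    have h1 : ∑ h ∈ range L, w h • a h = ∑ h : Fin L, w h * (f (T^[h] x) - v h) + ∑ h : Fin L, w h * v h := by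
      rw [← sum_add_distrib, ← Fin.sum_univ_eq_sum_range (fun h => w h • a h) L]
      refine sum_congr rfl fun h _ => ?_
      rw [ha, smul_eq_mul]; ring
    have h2 : ‖∑ h : Fin L, w h * (f (T^[h] x) - v h)‖ ≤ δ * L := by
      have h3 : ‖∑ h : Fin L, w h * (f (T^[h] x) - v h)‖ ≤ ∑ h : Fin L, 1 * ‖f (T^[h] x) - v h‖ := by
        refine (norm_sum_le _ _).trans (sum_le_sum fun h _ => ?_)
        rw [norm_mul]
        exact mul_le_mul_of_nonneg_right (hw h) (norm_nonneg _)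
      have h4 := sum_mul_sq_le_sq_mul_sq (univ : Finset (Fin L)) (fun _ => (1 : ℝ)) (fun h => ‖f (T^[h] x) - v h‖)
      simp only [one_pow, sum_const, card_univ, Fintype.card_fin, nsmul_eq_mul, mul_one] at h4
      have h5 : (∑ h : Fin L, 1 * ‖f (T^[h] x) - v h‖) ^ 2 ≤ (δ * L) ^ 2 := by
        refine h4.trans ?_
        calc (L : ℝ) * ∑ h : Fin L, ‖f (T^[h] x) - v h‖ ^ 2 ≤ L * (δ ^ 2 * L) := mul_le_mul_of_nonneg_left hd hL0.le
          _ = _ := by ring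
      exact h3.trans (abs_le_of_sq_le_sq' h5 (by positivity)).2
    -- the norm of `v`
    have h3 : ‖v‖ ≤ K := by
      set y : EuclideanSpace ℂ (Fin L) := WithLp.toLp 2 fun h => f (T^[h] x) with hy
      have h4 : ‖y‖ ≤ B * √L := by
        have : ‖y‖ ^ 2 ≤ (B * √L) ^ 2 := by
          rw [EuclideanSpace.norm_sq_eq, mul_pow, Real.sq_sqrt hL0.le]
          calc ∑ h : Fin L, ‖y h‖ ^ 2 ≤ ∑ h : Fin L, B ^ 2 :=
                sum_le_sum fun h _ => pow_le_pow_left₀ (norm_nonneg _) (hf _) 2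
            _ = B ^ 2 * L := by rw [sum_const, card_univ, Fintype.card_fin, nsmul_eq_mul, mul_comm]
        exact (abs_le_of_sq_le_sq' this (by positivity)).2
      have h5 : ‖y - v‖ ≤ δ * √L := by
        have : ‖y - v‖ ^ 2 ≤ (δ * √L) ^ 2 := by
          rw [EuclideanSpace.norm_sq_eq, mul_pow, Real.sq_sqrt hL0.le]
          exact hd
        exact (abs_le_of_sq_le_sq' this (by positivity)).2
      have h6 : ‖v‖ ≤ ‖y‖ + ‖y - v‖ := by
        have := norm_sub_le y (y - v)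
        rwa [sub_sub_cancel] at this
      rw [hK]
      linarith
    -- the expansion of `v`
    have h4 : ‖∑ h : Fin L, w h * v h‖ ≤ ‖∑ h ∈ range L, w h • c h‖ := by
      set v' : V := ⟨v, hv⟩ with hv'
      have h5 : ∀ h : Fin L, v h = ∑ j, (b.repr v' j) * ((b j : V) : EuclideanSpace ℂ (Fin L)) h := by
        intro h
        have h6 := b.sum_repr v'
        have h7 : ((∑ j, b.repr v' j • b j : V) : EuclideanSpace ℂ (Fin L)) h = v h := by rw [h6]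
        rw [← h7]
        simp
      have h6 : ∑ h : Fin L, w h * v h = ∑ j, (b.repr v' j) *
          ∑ h : Fin L, w h * ((b j : V) : EuclideanSpace ℂ (Fin L)) h := by
        simp only [h5, mul_sum]
        rw [sum_comm]
        exact sum_congr rfl fun j _ => sum_congr rfl fun h _ => by ring
      have h7 : ‖∑ h ∈ range L, w h • c h‖ ^ 2 = ∑ j, K ^ 2 *
          ‖∑ h : Fin L, w h * ((b j : V) : EuclideanSpace ℂ (Fin L)) h‖ ^ 2 := by
        rw [← Fin.sum_univ_eq_sum_range (fun h => w h • c h) L, EuclideanSpace.norm_sq_eq]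
        refine sum_congr rfl fun j _ => ?_
        have : (∑ h : Fin L, w h • c h) j = K * ∑ h : Fin L, w h * ((b j : V) : EuclideanSpace ℂ (Fin L)) h := by
          rw [mul_sum]
          simp only [WithLp.ofLp_sum, Finset.sum_apply]
          refine sum_congr rfl fun h _ => ?_
          rw [hc]
          simp only [WithLp.ofLp_smul, Pi.smul_apply, Fin.is_lt, dif_pos, Fin.eta, smul_eq_mul]
          ring
        rw [this, norm_mul, mul_pow, Complex.norm_real, Real.norm_eq_abs, sq_abs]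
      have h8 : ∑ j, ‖b.repr v' j‖ ^ 2 = ‖v‖ ^ 2 := by
        rw [← EuclideanSpace.norm_sq_eq, LinearIsometryEquiv.norm_map]
        rfl
      have h9 : ‖∑ h : Fin L, w h * v h‖ ^ 2 ≤ ‖∑ h ∈ range L, w h • c h‖ ^ 2 := by
        rw [h7, h6]
        have h10 : ‖∑ j, (b.repr v' j) * ∑ h : Fin L, w h * ((b j : V) : EuclideanSpace ℂ (Fin L)) h‖ ≤
            ∑ j, ‖b.repr v' j‖ * ‖∑ h : Fin L, w h * ((b j : V) : EuclideanSpace ℂ (Fin L)) h‖ := by
          refine (norm_sum_le _ _).trans_eq ?_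
          simp only [norm_mul]
        have h11 := sum_mul_sq_le_sq_mul_sq (univ : Finset (Fin r)) (fun j => ‖b.repr v' j‖)
          (fun j => ‖∑ h : Fin L, w h * ((b j : V) : EuclideanSpace ℂ (Fin L)) h‖)
        rw [h8] at h11
        calc _ ≤ (∑ j, ‖b.repr v' j‖ * ‖∑ h : Fin L, w h * ((b j : V) : EuclideanSpace ℂ (Fin L)) h‖) ^ 2 :=
              pow_le_pow_left₀ (norm_nonneg _) h10 2
          _ ≤ ‖v‖ ^ 2 * ∑ j, ‖∑ h : Fin L, w h * ((b j : V) : EuclideanSpace ℂ (Fin L)) h‖ ^ 2 := h11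
          _ ≤ K ^ 2 * ∑ j, ‖∑ h : Fin L, w h * ((b j : V) : EuclideanSpace ℂ (Fin L)) h‖ ^ 2 := by
              gcongr
          _ = _ := by rw [mul_sum]
      exact (abs_le_of_sq_le_sq' h9 (norm_nonneg _)).2
    rw [h1]
    refine (norm_add_le _ _).trans ?_
    have h5 : δ * L ≤ η * L := by
      apply mul_le_mul_of_nonneg_right _ hL0.le
      rw [hη]
      have : 0 ≤ (B + δ) * √ρ := by positivity
      linarith
    linarith

/-- `sup_x |∑_{h < H} u(n + h) e(hθ) f(Tʰ x)|` -/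
noncomputable def supW (T : X → X) (f : X → ℂ) (u : ℕ → ℤ) (θ : ℝ) (n H : ℕ) : ℝ :=
  ⨆ x : X, ‖∑ h ∈ range H, ((u (n + h) : ℤ) : ℂ) * ex (h * θ) * f (T^[h] x)‖

lemma supW_nonneg (T : X → X) (f : X → ℂ) (u : ℕ → ℤ) (θ : ℝ) (n H : ℕ) : 0 ≤ supW T f u θ n H :=
  Real.iSup_nonneg fun _ => norm_nonneg _

lemma term_le {T : X → X} {f : X → ℂ} {u : ℕ → ℤ} (hu : ∀ n, |u n| ≤ 1) {B : ℝ} (hf : ∀ x, ‖f x‖ ≤ B) (θ : ℝ)
    (n H : ℕ) (x : X) : ‖∑ h ∈ range H, ((u (n + h) : ℤ) : ℂ) * ex (h * θ) * f (T^[h] x)‖ ≤ H * B := by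
  refine (norm_sum_le _ _).trans ?_
  calc _ ≤ ∑ h ∈ range H, B := by
        refine sum_le_sum fun h _ => ?_
        rw [norm_mul]
        calc _ ≤ 1 * B := mul_le_mul (coef_le hu θ n h) (hf _) (norm_nonneg _) zero_le_one
          _ = B := one_mul B
    _ = H * B := by rw [sum_const, card_range, nsmul_eq_mul]

lemma supW_bdd {T : X → X} {f : X → ℂ} {u : ℕ → ℤ} (hu : ∀ n, |u n| ≤ 1) {B : ℝ} (hf : ∀ x, ‖f x‖ ≤ B) (θ : ℝ)
    (n H : ℕ) : BddAbove (Set.range fun x : X => ‖∑ h ∈ range H, ((u (n + h) : ℤ) : ℂ) * ex (h * θ) * f (T^[h] x)‖) := by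
  refine ⟨H * B, ?_⟩
  rintro _ ⟨x, rfl⟩
  exact term_le hu hf θ n H x

lemma le_supW {T : X → X} {f : X → ℂ} {u : ℕ → ℤ} (hu : ∀ n, |u n| ≤ 1) {B : ℝ} (hf : ∀ x, ‖f x‖ ≤ B) (θ : ℝ)
    (n H : ℕ) (x : X) : ‖∑ h ∈ range H, ((u (n + h) : ℤ) : ℂ) * ex (h * θ) * f (T^[h] x)‖ ≤ supW T f u θ n H :=
  le_ciSup (supW_bdd hu hf θ n H) x

/-- **quantitative**: windows close to a subspace of dimension at most `ρ L`, uniformly over all systems -/
theorem supW_near_unif.{w} {u : ℕ → ℤ} (hu : ∀ n, |u n| ≤ 1) (hT : TwoPoint u) {B : ℝ} (hB : 0 ≤ B)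
    {L : ℕ} (hL : 1 ≤ L) {ρ δ : ℝ} (hρ : 0 < ρ) (hδ : 0 < δ) :
    ∃ H₀ C : ℕ, ∀ (X : Type w) (T : X → X) (f : X → ℂ), (∀ x, ‖f x‖ ≤ B) → NearSub T f L ρ δ →
      ∀ M N : ℕ, H₀ ≤ M → M ^ C ≤ N → ∀ θ : ℝ,
        ∑ n ∈ Icc 1 N, (1 / (n : ℝ)) * supW T f u θ n M ≤ 13 * ((B + δ) * √ρ + δ) * M * Real.log N := by
  set η := (B + δ) * √ρ + δ with hη
  have hη0 : 0 < η := by positivity
  obtain ⟨M₀, C, hMC⟩ := long_unif (X := ℂ) hu hT L hL η hη0 B hB
  refine ⟨max M₀ 3, C + 1, fun X T f hf h M N hM hN θ => ?_⟩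
  have hM3 : 3 ≤ M := (le_max_right _ _).trans hM
  have hMN : M ≤ N := (Nat.le_self_pow (by omega) M).trans hN
  have hN' : M ^ C ≤ N := (Nat.pow_le_pow_right (by omega) (by omega)).trans hN
  have hl := one_le_log (hM3.trans hMN)
  have hM0 : (0 : ℝ) < M := by exact_mod_cast (by omega : 0 < M)
  rcases isEmpty_or_nonempty X with hem | hne
  · have h0 : ∀ n, supW T f u θ n M = 0 := fun n => Real.iSup_of_isEmpty _
    simp only [h0, mul_zero, sum_const_zero]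
    positivity
  have h1 : ∀ n, ∃ x : X, supW T f u θ n M ≤
      ‖∑ h ∈ range M, ((u (n + h) : ℤ) : ℂ) * ex (h * θ) * f (T^[h] x)‖ + η / 2 * M := by
    intro n
    obtain ⟨x, hx⟩ := exists_lt_of_lt_ciSup (show supW T f u θ n M - η / 2 * M < supW T f u θ n M by
      have : 0 < η / 2 * M := by positivity
      linarith)
    exact ⟨x, by linarith⟩
  choose x hx using h1
  have h2 := hMC M N ((le_max_left _ _).trans hM) hN' (orb T f)
    (fac_near hB hf hL hρ.le hδ.le h) (orb_bd hf) orb_shift (fun n h => f (T^[h] (x n))) (fun n => ⟨x n, fun _ => rfl⟩) θ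
  have h3 := S_mono (φ := fun n => supW T f u θ n M)
    (ψ := fun n => wv u (fun n h => f (T^[h] (x n))) θ M n + η / 2 * M) (fun n => hx n) N
  rw [Pool.Agent.TH833.BL.S_add (fun n => wv u (fun n h => f (T^[h] (x n))) θ M n) (fun _ => η / 2 * M), S_const] at h3
  have e : ∑ n ∈ Icc 1 N, (1 / (n : ℝ)) * supW T f u θ n M = S (fun n => supW T f u θ n M) N := rfl
  rw [e]
  have h4 : η / 2 * M * H N ≤ η / 2 * M * (2 * Real.log N) := by
    apply mul_le_mul_of_nonneg_left _ (by positivity)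
    linarith [H_le N]
  calc S (fun n => supW T f u θ n M) N ≤ 12 * η * M * Real.log N + η / 2 * M * (2 * Real.log N) := by linarith
    _ = _ := by ring

/-- one system -/
theorem supW_near {T : X → X} {f : X → ℂ} {u : ℕ → ℤ} (hu : ∀ n, |u n| ≤ 1) (hT : TwoPoint u) {B : ℝ} (hB : 0 ≤ B)
    (hf : ∀ x, ‖f x‖ ≤ B) {L : ℕ} (hL : 1 ≤ L) {ρ δ : ℝ} (hρ : 0 < ρ) (hδ : 0 < δ) (h : NearSub T f L ρ δ) :
    ∃ H₀ C : ℕ, ∀ M N : ℕ, H₀ ≤ M → M ^ C ≤ N → ∀ θ : ℝ,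
      ∑ n ∈ Icc 1 N, (1 / (n : ℝ)) * supW T f u θ n M ≤ 13 * ((B + δ) * √ρ + δ) * M * Real.log N := by
  obtain ⟨H₀, C, h1⟩ := supW_near_unif hu hT hB hL hρ hδ
  exact ⟨H₀, C, h1 X T f hf h⟩

/-! ## linear combinations and limits -/

/-- the suprema over the windows are small -/
def SW (T : X → X) (f : X → ℂ) (u : ℕ → ℤ) : Prop := ∀ ε : ℝ, 0 < ε → ∃ H₀ C : ℕ, ∀ M N : ℕ, H₀ ≤ M → M ^ C ≤ N →
  ∀ θ : ℝ, ∑ n ∈ Icc 1 N, (1 / (n : ℝ)) * supW T f u θ n M ≤ ε * M * Real.log N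

lemma SW.of_near {T : X → X} {f : X → ℂ} {u : ℕ → ℤ} (hu : ∀ n, |u n| ≤ 1) (hT : TwoPoint u) {B : ℝ} (hB : 0 ≤ B)
    (hf : ∀ x, ‖f x‖ ≤ B) (h : ∀ η : ℝ, 0 < η → ∃ L : ℕ, 1 ≤ L ∧ NearSub T f L η η) : SW T f u := by
  intro ε hε
  set η : ℝ := min 1 ((ε / (13 * (B + 2))) ^ 2) with hη
  have hη0 : 0 < η := by positivity
  have hη1 : η ≤ 1 := min_le_left _ _
  have hs : √η ≤ ε / (13 * (B + 2)) := by
    rw [Real.sqrt_le_left (by positivity)]
    exact min_le_right _ _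
  have hs1 : η ≤ √η := by
    have h1 : √η ≤ 1 := by rw [Real.sqrt_le_left zero_le_one]; linarith
    calc η = √η * √η := (Real.mul_self_sqrt hη0.le).symm
      _ ≤ √η * 1 := mul_le_mul_of_nonneg_left h1 (Real.sqrt_nonneg _)
      _ = √η := mul_one _
  obtain ⟨L, hL, hn⟩ := h η hη0
  obtain ⟨H₀, C, hM⟩ := supW_near hu hT hB hf hL hη0 hη0 hn
  refine ⟨H₀, C + 1, fun M N h1 h2 θ => ?_⟩
  rcases Nat.eq_zero_or_pos M with hM0 | hM0
  · subst hM0
    have h0 : ∀ n, supW T f u θ n 0 = 0 := by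
      intro n
      unfold supW
      simp only [range_zero, sum_empty, norm_zero]
      exact Real.iSup_const_zero
    simp only [h0, mul_zero, sum_const_zero, Nat.cast_zero, zero_mul]
    exact le_rfl
  have hN' : M ^ C ≤ N := (Nat.pow_le_pow_right hM0 (by omega)).trans h2
  have hN1 : 1 ≤ N := (Nat.one_le_pow _ _ hM0).trans hN'
  have hl := Real.log_nonneg (by exact_mod_cast hN1 : (1 : ℝ) ≤ N)
  refine (hM M N h1 hN' θ).trans ?_
  refine mul_le_mul_of_nonneg_right (mul_le_mul_of_nonneg_right ?_ (Nat.cast_nonneg M)) hl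
  calc 13 * ((B + η) * √η + η) ≤ 13 * ((B + 1) * √η + √η) := by
        have : (B + η) * √η ≤ (B + 1) * √η := mul_le_mul_of_nonneg_right (by linarith) (Real.sqrt_nonneg _)
        linarith
    _ = 13 * (B + 2) * √η := by ring
    _ ≤ 13 * (B + 2) * (ε / (13 * (B + 2))) := mul_le_mul_of_nonneg_left hs (by positivity)
    _ = ε := by field_simp

lemma supW_add {T : X → X} {f g : X → ℂ} {u : ℕ → ℤ} (hu : ∀ n, |u n| ≤ 1) {B B' : ℝ} (hf : ∀ x, ‖f x‖ ≤ B)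
    (hg : ∀ x, ‖g x‖ ≤ B') (θ : ℝ) (n M : ℕ) :
    supW T (fun x => f x + g x) u θ n M ≤ supW T f u θ n M + supW T g u θ n M := by
  rcases isEmpty_or_nonempty X with hem | hne
  · have h0 : ∀ f : X → ℂ, supW T f u θ n M = 0 := fun f => Real.iSup_of_isEmpty _
    rw [h0, h0, h0, add_zero]
  refine ciSup_le fun x => ?_
  have e : ∑ h ∈ range M, ((u (n + h) : ℤ) : ℂ) * ex (h * θ) * (f (T^[h] x) + g (T^[h] x)) =
      ∑ h ∈ range M, ((u (n + h) : ℤ) : ℂ) * ex (h * θ) * f (T^[h] x) +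
      ∑ h ∈ range M, ((u (n + h) : ℤ) : ℂ) * ex (h * θ) * g (T^[h] x) := by
    rw [← sum_add_distrib]
    exact sum_congr rfl fun h _ => by ring
  rw [e]
  exact (norm_add_le _ _).trans (add_le_add (le_supW hu hf θ n M x) (le_supW hu hg θ n M x))

lemma supW_smul {T : X → X} {f : X → ℂ} {u : ℕ → ℤ} (hu : ∀ n, |u n| ≤ 1) {B : ℝ} (hf : ∀ x, ‖f x‖ ≤ B)
    (c : ℂ) (θ : ℝ) (n M : ℕ) : supW T (fun x => c * f x) u θ n M ≤ ‖c‖ * supW T f u θ n M := by
  rcases isEmpty_or_nonempty X with hem | hne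
  · have h0 : ∀ f : X → ℂ, supW T f u θ n M = 0 := fun f => Real.iSup_of_isEmpty _
    rw [h0, h0, mul_zero]
  refine ciSup_le fun x => ?_
  have e : ∑ h ∈ range M, ((u (n + h) : ℤ) : ℂ) * ex (h * θ) * (c * f (T^[h] x)) =
      c * ∑ h ∈ range M, ((u (n + h) : ℤ) : ℂ) * ex (h * θ) * f (T^[h] x) := by
    rw [mul_sum]
    exact sum_congr rfl fun h _ => by ring
  rw [e, norm_mul]
  exact mul_le_mul_of_nonneg_left (le_supW hu hf θ n M x) (norm_nonneg _)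

lemma supW_le {T : X → X} {f : X → ℂ} {u : ℕ → ℤ} (hu : ∀ n, |u n| ≤ 1) {B : ℝ} (hB : 0 ≤ B) (hf : ∀ x, ‖f x‖ ≤ B)
    (θ : ℝ) (n M : ℕ) : supW T f u θ n M ≤ M * B := by
  rcases isEmpty_or_nonempty X with hem | hne
  · have h0 : supW T f u θ n M = 0 := Real.iSup_of_isEmpty _
    rw [h0]; positivity
  exact ciSup_le fun x => term_le hu hf θ n M x

/-- one form of the sums -/
lemma SW_iff {T : X → X} {f : X → ℂ} {u : ℕ → ℤ} (h : SW T f u) (ε : ℝ) (hε : 0 < ε) :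
    ∃ H₀ C : ℕ, 3 ≤ H₀ ∧ 1 ≤ C ∧ ∀ M N : ℕ, H₀ ≤ M → M ^ C ≤ N →
      ∀ θ : ℝ, S (fun n => supW T f u θ n M) N ≤ ε * M * Real.log N := by
  obtain ⟨H₀, C, h1⟩ := h ε hε
  refine ⟨max 3 H₀, max 1 C, le_max_left _ _, le_max_left _ _, fun M N hM hN θ => ?_⟩
  exact h1 M N ((le_max_right _ _).trans hM)
    ((Nat.pow_le_pow_right (by have := (le_max_left 3 H₀).trans hM; omega) (le_max_right _ _)).trans hN) θ

lemma SW.add {T : X → X} {f g : X → ℂ} {u : ℕ → ℤ} (hu : ∀ n, |u n| ≤ 1) {B B' : ℝ} (hf : ∀ x, ‖f x‖ ≤ B)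
    (hg : ∀ x, ‖g x‖ ≤ B') (h1 : SW T f u) (h2 : SW T g u) : SW T (fun x => f x + g x) u := by
  intro ε hε
  obtain ⟨H1, C1, hH1, hC1, a1⟩ := SW_iff h1 (ε / 2) (by positivity)
  obtain ⟨H2, C2, hH2, hC2, a2⟩ := SW_iff h2 (ε / 2) (by positivity)
  refine ⟨max H1 H2, max C1 C2, fun M N hM hN θ => ?_⟩
  have hM1 : 1 ≤ M := by have := (le_max_left H1 H2).trans hM; omega
  have b1 := a1 M N ((le_max_left _ _).trans hM) ((Nat.pow_le_pow_right hM1 (le_max_left _ _)).trans hN) θ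
  have b2 := a2 M N ((le_max_right _ _).trans hM) ((Nat.pow_le_pow_right hM1 (le_max_right _ _)).trans hN) θ
  have h3 := S_mono (fun n => supW_add hu hf hg θ n M (T := T)) N
  rw [Pool.Agent.TH833.BL.S_add] at h3
  calc _ ≤ _ := h3
    _ ≤ ε / 2 * M * Real.log N + ε / 2 * M * Real.log N := add_le_add b1 b2
    _ = _ := by ring

lemma SW.smul {T : X → X} {f : X → ℂ} {u : ℕ → ℤ} (hu : ∀ n, |u n| ≤ 1) {B : ℝ} (hf : ∀ x, ‖f x‖ ≤ B)
    (c : ℂ) (h1 : SW T f u) : SW T (fun x => c * f x) u := by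
  intro ε hε
  obtain ⟨H1, C1, hH1, hC1, a1⟩ := SW_iff h1 (ε / (‖c‖ + 1)) (by positivity)
  refine ⟨H1, C1, fun M N hM hN θ => ?_⟩
  have b1 := a1 M N hM hN θ
  have hM3 : 3 ≤ M := hH1.trans hM
  have hMN : M ≤ N := (Nat.le_self_pow (by omega) M).trans hN
  have hl := one_le_log (hM3.trans hMN)
  have h3 := S_mono (fun n => supW_smul hu hf c θ n M (T := T)) N
  rw [S_cmul] at h3
  calc _ ≤ _ := h3
    _ ≤ ‖c‖ * (ε / (‖c‖ + 1) * M * Real.log N) := mul_le_mul_of_nonneg_left b1 (norm_nonneg _)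
    _ = (‖c‖ / (‖c‖ + 1)) * (ε * M * Real.log N) := by ring
    _ ≤ 1 * (ε * M * Real.log N) := by
        apply mul_le_mul_of_nonneg_right _ (by positivity)
        rw [div_le_one (by positivity)]
        linarith
    _ = _ := one_mul _

lemma SW.approx {T : X → X} {f : X → ℂ} {u : ℕ → ℤ} (hu : ∀ n, |u n| ≤ 1)
    (h : ∀ ε : ℝ, 0 < ε → ∃ g : X → ℂ, ∃ B : ℝ, (∀ x, ‖g x‖ ≤ B) ∧ (∀ x, ‖f x - g x‖ ≤ ε) ∧ SW T g u) :
    SW T f u := by
  intro ε hε
  obtain ⟨g, B, hg, hfg, h1⟩ := h (ε / 4) (by positivity)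
  obtain ⟨H1, C1, hH1, hC1, a1⟩ := SW_iff h1 (ε / 2) (by positivity)
  refine ⟨H1, C1, fun M N hM hN θ => ?_⟩
  have b1 := a1 M N hM hN θ
  have hM3 : 3 ≤ M := hH1.trans hM
  have hMN : M ≤ N := (Nat.le_self_pow (by omega) M).trans hN
  have hl := one_le_log (hM3.trans hMN)
  have h3 : ∀ n, supW T f u θ n M ≤ supW T g u θ n M + M * (ε / 4) := by
    intro n
    have h4 := supW_add (f := g) (g := fun x => f x - g x) hu hg hfg θ n M (T := T)
    have e : (fun x => g x + (f x - g x)) = f := by funext x; ring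
    rw [e] at h4
    have h5 := supW_le (T := T) (f := fun x => f x - g x) hu (by positivity : (0 : ℝ) ≤ ε / 4) hfg θ n M
    linarith
  have h4 := S_mono h3 N
  rw [Pool.Agent.TH833.BL.S_add (fun n => supW T g u θ n M) (fun _ => M * (ε / 4)), S_const] at h4
  have h5 : (M : ℝ) * (ε / 4) * H N ≤ M * (ε / 4) * (2 * Real.log N) := by
    apply mul_le_mul_of_nonneg_left _ (by positivity)
    linarith [H_le N]
  calc _ ≤ _ := h4
    _ ≤ ε / 2 * M * Real.log N + M * (ε / 4) * (2 * Real.log N) := add_le_add b1 h5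
    _ = _ := by ring

end Pool.Agent.Y326
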