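import Pool.Agent.Y326.Top

/-!
# Topological systems: the conclusions
-/

set_option autoImplicit false

namespace Pool.Agent.Y326

open Finset Filter Topology
open Pool.Agent.TH833.BL (S H H_le le_H one_le_log)

variable {X : Type*} [MetricSpace X] [CompactSpace X]

/-- composition with `T` -/
noncomputable def Ko (T : C(X, X)) : C(X, ℂ) →L[ℂ] C(X, ℂ) :=
  LinearMap.mkContinuous
    { toFun := fun f => f.comp T
      map_add' := fun _ _ => rfl
      map_smul' := fun _ _ => rfl } 1 (fun f => by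
        rw [one_mul]
        refine (ContinuousMap.norm_le _ (norm_nonneg _)).2 fun x => ?_
        exact f.norm_coe_le_norm _)

lemma Ko_norm (T : C(X, X)) : ‖Ko T‖ ≤ 1 := LinearMap.mkContinuous_norm_le _ zero_le_one _

lemma Ko_iter (T : C(X, X)) (n : ℕ) (f : C(X, ℂ)) (x : X) : ((Ko T)^[n]) f x = f (T^[n] x) := by
  induction n generalizing x with
  | zero => rfl
  | succ n ih =>
    rw [Function.iterate_succ_apply', Function.iterate_succ_apply]
    show ((Ko T)^[n]) f (T x) = _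
    exact ih (T x)

lemma wn_le_supW (T : C(X, X)) (f : C(X, ℂ)) {u : ℕ → ℤ} (hu : ∀ n, |u n| ≤ 1) (θ : ℝ) (M n : ℕ) :
    wn u (fun n => ((Ko T)^[n]) f) θ M n ≤ supW T f u θ n M := by
  unfold wn
  refine (ContinuousMap.norm_le _ (supW_nonneg _ _ _ _ _ _)).2 fun x => ?_
  have e : (∑ h ∈ range M, tm u (fun n => ((Ko T)^[n]) f) θ (n + h)) x =
      ex (n * θ) * ∑ h ∈ range M, ((u (n + h) : ℤ) : ℂ) * ex (h * θ) * f (T^[h] (T^[n] x)) := by
    rw [ContinuousMap.coe_sum, Finset.sum_apply, mul_sum]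
    refine sum_congr rfl fun h _ => ?_
    unfold tm
    rw [ContinuousMap.smul_apply, Ko_iter, ← Function.iterate_add_apply, add_comm h n, smul_eq_mul]
    push_cast
    rw [add_mul, ex_add]
    ring
  rw [e, norm_mul, norm_ex, one_mul]
  exact le_supW hu (fun x => f.norm_coe_le_norm x) θ n M _

lemma lw_of_SW (T : C(X, X)) (f : C(X, ℂ)) {u : ℕ → ℤ} (hu : ∀ n, |u n| ≤ 1) (h : SW T f u) :
    LW u (fun n => ((Ko T)^[n]) f) := by
  intro ε hε
  obtain ⟨H₀, C, hH, hC, h1⟩ := SW_iff h ε hε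
  refine ⟨H₀, fun M hM => ⟨M ^ C, fun N hN θ => ?_⟩⟩
  exact (S_mono (fun n => wn_le_supW T f hu θ M n) N).trans (h1 M N hM hN θ)

/-- the functions with small suprema over the windows -/
theorem SW_closure (T : C(X, X)) {u : ℕ → ℤ} (hu : ∀ n, |u n| ≤ 1) (D : Set C(X, ℂ)) (hD : ∀ f ∈ D, SW T f u)
    (hs : (Submodule.span ℂ D).topologicalClosure = ⊤) (f : C(X, ℂ)) : SW T f u := by
  set W : Submodule ℂ C(X, ℂ) :=
    { carrier := {f | SW T f u}
      add_mem' := fun {f g} hf hg => SW.add hu (fun x => f.norm_coe_le_norm x) (fun x => g.norm_coe_le_norm x) hf hg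
      zero_mem' := by
        intro ε hε
        refine ⟨0, 0, fun M N _ hN θ => ?_⟩
        have h0 : ∀ n, supW T (fun _ => (0 : ℂ)) u θ n M = 0 := by
          intro n
          refine le_antisymm ?_ (supW_nonneg _ _ _ _ _ _)
          refine (supW_le (T := T) (f := fun _ => (0 : ℂ)) (B := 0) hu le_rfl (fun x => by simp) θ n M).trans ?_
          simp
        have hN1 : 1 ≤ N := by simpa using hN
        have hl := Real.log_nonneg (by exact_mod_cast hN1 : (1 : ℝ) ≤ N)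
        have e : ⇑(0 : C(X, ℂ)) = fun _ => (0 : ℂ) := rfl
        rw [e]
        simp only [h0, mul_zero, sum_const_zero]
        positivity
      smul_mem' := fun c f hf => SW.smul hu (fun x => f.norm_coe_le_norm x) c hf } with hW
  have h1 : Submodule.span ℂ D ≤ W := Submodule.span_le.2 hD
  have h2 : f ∈ closure ((Submodule.span ℂ D : Submodule ℂ C(X, ℂ)) : Set C(X, ℂ)) := by
    have : f ∈ (Submodule.span ℂ D).topologicalClosure := by rw [hs]; trivial
    exact this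
  refine SW.approx hu fun ε hε => ?_
  obtain ⟨g, hg, hfg⟩ := Metric.mem_closure_iff.1 h2 ε hε
  refine ⟨g, ‖g‖, fun x => g.norm_coe_le_norm x, fun x => ?_, h1 hg⟩
  have := (f - g).norm_coe_le_norm x
  rw [← dist_eq_norm] at this
  exact this.trans hfg.le

/-- logarithmic means, uniformly in the starting point and in the twist -/
theorem logmean_unif (T : C(X, X)) (f : C(X, ℂ)) {u : ℕ → ℤ} (hu : ∀ n, |u n| ≤ 1) (h : SW T f u) (ε : ℝ)
    (hε : 0 < ε) : ∃ N₀ : ℕ, ∀ N : ℕ, N₀ ≤ N → ∀ (x : X) (θ : ℝ),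
      ‖∑ n ∈ Icc 1 N, ((u n : ℤ) : ℂ) * ex (n * θ) * f (T^[n] x) / n‖ ≤ ε * Real.log N := by
  obtain ⟨N₀, hN₀⟩ := (lw_of_SW T f hu h).logmean hu (fun n => iter_le (Ko_norm T) n f) ε hε
  refine ⟨N₀, fun N hN x θ => ?_⟩
  refine le_trans (le_of_eq ?_) ((ContinuousMap.norm_coe_le_norm _ x).trans (hN₀ N hN θ))
  congr 1
  rw [ContinuousMap.coe_sum, Finset.sum_apply]
  refine sum_congr rfl fun n _ => ?_
  rw [ContinuousMap.smul_apply]
  unfold tm
  rw [ContinuousMap.smul_apply, Ko_iter, smul_eq_mul, smul_eq_mul]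
  ring

/-- along one set of logarithmic density one -/
theorem scales_unif (T : C(X, X)) {u : ℕ → ℤ} (hu : ∀ n, |u n| ≤ 1) (h : ∀ f : C(X, ℂ), SW T f u) (Θ : Set ℝ)
    (hΘ : Θ.Countable) : ∃ s : Set ℕ, LD1 s ∧ ∀ f : C(X, ℂ), ∀ θ ∈ Θ, ∀ ε : ℝ, 0 < ε →
      ∃ N₀ : ℕ, ∀ N ∈ s, N₀ ≤ N → ∀ x : X,
        ‖∑ n ∈ Icc 1 N, ((u n : ℤ) : ℂ) * ex (n * θ) * f (T^[n] x)‖ ≤ ε * N := by
  obtain ⟨s, hs1, hs2⟩ := lw_scales hu (Ko_norm T) Set.univ Θ (fun f _ => lw_of_SW T f hu (h f))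
    (TopologicalSpace.IsSeparable.of_separableSpace _) hΘ
  refine ⟨s, hs1, fun f θ hθ ε hε => ?_⟩
  have h1 := hs2 f (Set.mem_univ f) θ hθ
  have h2 := (h1.eventually_le_const hε)
  rw [eventually_inf_principal, eventually_atTop] at h2
  obtain ⟨N₀, hN₀⟩ := h2
  refine ⟨max N₀ 1, fun N hNs hN x => ?_⟩
  have h3 := hN₀ N ((le_max_left _ _).trans hN) hNs
  have hN0 : (0 : ℝ) < N := by exact_mod_cast (le_max_right N₀ 1).trans hN
  rw [norm_smul, norm_div, norm_one, Complex.norm_natCast, one_div, inv_mul_le_iff₀ hN0] at h3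
  rw [mul_comm]
  refine le_trans (le_of_eq ?_) ((ContinuousMap.norm_coe_le_norm _ x).trans h3)
  congr 1
  unfold fs
  rw [ContinuousMap.coe_sum, Finset.sum_apply]
  refine sum_congr rfl fun n _ => ?_
  unfold tm
  rw [ContinuousMap.smul_apply, Ko_iter, smul_eq_mul]

end Pool.Agent.Y326
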