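import Pool.Agent.Y326.Fact

/-!
# Long windows, uniformly over all families with a small trace, for `M ^ C ≤ N`
-/

set_option autoImplicit false

namespace Pool.Agent.Y326

open Finset Filter
open Pool.Agent.TH833.BL (S H H_le le_H one_le_log)

variable {X : Type*} [NormedAddCommGroup X] [NormedSpace ℂ X]

lemma H_shift (j N : ℕ) : ∑ n ∈ Icc 1 N, (1 / (n : ℝ) - 1 / ((n + j : ℕ) : ℝ)) ≤ H j := by
  have h1 : ∀ j : ℕ, ∑ n ∈ Icc 1 N, 1 / ((n + j : ℕ) : ℝ) = H (N + j) - H j := by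
    intro j
    unfold H
    induction N with
    | zero => simp
    | succ N ih =>
      rw [sum_Icc_succ_top (by omega), ih, show N + 1 + j = N + j + 1 by ring, sum_Icc_succ_top (by omega)]
      ring
  rw [sum_sub_distrib, h1 j]
  have h2 : H N ≤ H (N + j) := by
    unfold H
    refine sum_le_sum_of_subset_of_nonneg (Icc_subset_Icc_right (by omega)) fun n _ _ => by positivity
  have e : ∑ n ∈ Icc 1 N, 1 / (n : ℝ) = H N := rfl
  rw [e]
  linarith

lemma S_shift_log {φ : ℕ → ℝ} {C : ℝ} (h0 : ∀ n, 0 ≤ φ n) (h : ∀ n, φ n ≤ C) (j N : ℕ) :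
    S (fun n => φ (n + j)) N ≤ S φ (N + j) + C * H j := by
  have h1 : S (fun n => φ (n + j)) N = ∑ n ∈ Icc 1 N, (1 / ((n + j : ℕ) : ℝ)) * φ (n + j) +
      ∑ n ∈ Icc 1 N, (1 / (n : ℝ) - 1 / ((n + j : ℕ) : ℝ)) * φ (n + j) := by
    rw [← sum_add_distrib]
    exact sum_congr rfl fun n _ => by ring
  have hC : 0 ≤ C := (h0 0).trans (h 0)
  have h2 : ∑ n ∈ Icc 1 N, (1 / ((n + j : ℕ) : ℝ)) * φ (n + j) ≤ S φ (N + j) := by
    have e : ∑ n ∈ Icc 1 N, (1 / ((n + j : ℕ) : ℝ)) * φ (n + j) =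
        ∑ m ∈ (Icc 1 N).image (fun n => n + j), (1 / (m : ℝ)) * φ m := by
      rw [sum_image fun a _ b _ hab => by omega]
    rw [e]
    refine sum_le_sum_of_subset_of_nonneg ?_ fun n _ _ => mul_nonneg (by positivity) (h0 n)
    intro m hm
    rw [mem_image] at hm
    obtain ⟨n, hn, rfl⟩ := hm
    rw [mem_Icc] at hn ⊢
    omega
  have h3 : ∑ n ∈ Icc 1 N, (1 / (n : ℝ) - 1 / ((n + j : ℕ) : ℝ)) * φ (n + j) ≤ C * H j := by
    calc _ ≤ ∑ n ∈ Icc 1 N, (1 / (n : ℝ) - 1 / ((n + j : ℕ) : ℝ)) * C := by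
          refine sum_le_sum fun n hn => mul_le_mul_of_nonneg_left (h _) ?_
          rw [mem_Icc] at hn
          have hn0 : (0 : ℝ) < n := by exact_mod_cast hn.1
          rw [sub_nonneg]
          apply one_div_le_one_div_of_le hn0
          push_cast
          linarith [(Nat.cast_nonneg j : (0 : ℝ) ≤ j)]
      _ = C * ∑ n ∈ Icc 1 N, (1 / (n : ℝ) - 1 / ((n + j : ℕ) : ℝ)) := by rw [← sum_mul, mul_comm]
      _ ≤ C * H j := mul_le_mul_of_nonneg_left (H_shift j N) hC
  linarith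

lemma S_mono_N {φ : ℕ → ℝ} (h0 : ∀ n, 0 ≤ φ n) {N N' : ℕ} (h : N ≤ N') : S φ N ≤ S φ N' :=
  sum_le_sum_of_subset_of_nonneg (Icc_subset_Icc_right h) fun n _ _ => mul_nonneg (by positivity) (h0 n)

/-- **long windows**, uniformly over the families, for `M ^ C ≤ N` -/
theorem long_unif {f : ℕ → ℤ} (hf : ∀ n, |f n| ≤ 1) (hT : TwoPoint f) (L : ℕ) (hL : 1 ≤ L) (η : ℝ) (hη : 0 < η)
    (B : ℝ) (hB : 0 ≤ B) :
    ∃ M₀ C : ℕ, ∀ M N : ℕ, M₀ ≤ M → M ^ C ≤ N → ∀ 𝓕 : Set (ℕ → X), Fac 𝓕 L η →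
      (∀ a ∈ 𝓕, ∀ n, ‖a n‖ ≤ B) → (∀ a ∈ 𝓕, (fun n => a (n + 1)) ∈ 𝓕) →
      ∀ A : ℕ → ℕ → X, (∀ n, A n ∈ 𝓕) → ∀ θ : ℝ, S (wv f A θ M) N ≤ 12 * η * M * Real.log N := by
  have hL0 : (0 : ℝ) < L := by exact_mod_cast hL
  obtain ⟨N₁, hN₁⟩ := short_fac (X := X) hf hT L hL η hη.le
  refine ⟨max (max 3 N₁) ⌈4 * B * L / η⌉₊, max 1 ⌈2 * B / η⌉₊, fun M N hM hN 𝓕 hfac hb hs A hA θ => ?_⟩
  set C := max 1 ⌈2 * B / η⌉₊ with hC
  have hC1 : 1 ≤ C := le_max_left _ _
  have hC2 : 2 * B / η ≤ C := (Nat.le_ceil _).trans (by exact_mod_cast le_max_right _ _)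
  have hM3 : 3 ≤ M := ((le_max_left _ _).trans (le_max_left _ _)).trans hM
  have hMN : M ≤ N := (Nat.le_self_pow (by omega) M).trans hN
  have hNN₁ : N₁ ≤ N := (((le_max_right _ _).trans (le_max_left _ _)).trans hM).trans hMN
  have hM' : 4 * B * L / η ≤ M := (Nat.le_ceil _).trans (by exact_mod_cast (le_max_right _ _).trans hM)
  rw [div_le_iff₀ hη] at hC2 hM'
  have hlM := one_le_log hM3
  have hlN := one_le_log (hM3.trans hMN)
  have hM0 : (0 : ℝ) < M := by exact_mod_cast (by omega : 0 < M)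
  have hN0 : (0 : ℝ) < N := by exact_mod_cast (by omega : 0 < N)
  have hlog : (C : ℝ) * Real.log M ≤ Real.log N := by
    rw [← Real.log_pow]
    apply Real.log_le_log (by positivity)
    exact_mod_cast hN
  have hAb : ∀ n h, ‖A n h‖ ≤ B := fun n h => hb _ (hA n) h
  set D : ℕ → ℕ → ℕ → X := fun j m h => A (m - j) (j + h) with hD
  have hDm : ∀ j m, D j m ∈ 𝓕 := fun j m => shift_mem hs (hA (m - j)) j
  have hDb : ∀ j m h, ‖D j m h‖ ≤ B := fun j m h => hAb _ _
  have h2 : (L : ℝ) * S (wv f A θ M) N ≤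
      ∑ j ∈ range M, S (fun n => wv f (D j) θ L (n + j)) N + 2 * B * L * L * H N := by
    have h3 := S_mono (φ := fun n => (L : ℝ) * wv f A θ M n)
      (ψ := fun n => ∑ j ∈ range M, wv f (D j) θ L (n + j) + 2 * B * L * L)
      (fun n => comb_var hf A hAb θ L M n) N
    rw [S_cmul] at h3
    refine h3.trans (le_of_eq ?_)
    rw [Pool.Agent.TH833.BL.S_add (fun n => ∑ j ∈ range M, wv f (D j) θ L (n + j)) (fun _ => 2 * B * L * L),
      S_sum, S_const]
  have h4 : ∀ j ∈ range M, S (fun n => wv f (D j) θ L (n + j)) N ≤ 11 * η * L * Real.log N := by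
    intro j hj
    rw [mem_range] at hj
    have h5 := S_shift_log (φ := wv f (D j) θ L) (C := L * B) (fun n => wv_nonneg _ _ _ _ _)
      (fun n => wv_le hf (hDb j) θ L n) j N
    have h6 : S (wv f (D j) θ L) (N + j) ≤ S (wv f (D j) θ L) (2 * N) :=
      S_mono_N (fun n => wv_nonneg _ _ _ _ _) (by omega)
    have h7 := hN₁ (2 * N) (by omega) 𝓕 hfac (D j) (hDm j) θ
    have h8 : Real.log ((2 * N : ℕ) : ℝ) ≤ 2 * Real.log N := by
      push_cast
      rw [Real.log_mul (by norm_num) hN0.ne']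
      have : Real.log 2 ≤ 1 := by linarith [Real.log_two_lt_d9]
      linarith
    have h9 : H j ≤ 2 * Real.log M := by
      rcases Nat.eq_zero_or_pos j with h | h
      · subst h
        have : H 0 = 0 := by unfold H; simp
        rw [this]; linarith
      · have h10 := H_le j
        have h11 : Real.log j ≤ Real.log M := Real.log_le_log (by exact_mod_cast h) (by exact_mod_cast hj.le)
        linarith
    have h10 : 5 * η * L * Real.log ((2 * N : ℕ) : ℝ) ≤ 5 * η * L * (2 * Real.log N) :=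
      mul_le_mul_of_nonneg_left h8 (by positivity)
    have h11 : L * B * H j ≤ η * L * Real.log N := by
      have h12 : L * B * H j ≤ L * B * (2 * Real.log M) := mul_le_mul_of_nonneg_left h9 (by positivity)
      have h13 : L * B * (2 * Real.log M) = L * ((2 * B) * Real.log M) := by ring
      have h14 : (2 * B) * Real.log M ≤ (C * η) * Real.log M := mul_le_mul_of_nonneg_right hC2 (by linarith)
      have h15 : (C * η) * Real.log M = η * (C * Real.log M) := by ring
      have h16 : η * (C * Real.log M) ≤ η * Real.log N := mul_le_mul_of_nonneg_left hlog hη.le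
      calc L * B * H j ≤ L * ((2 * B) * Real.log M) := by linarith
        _ ≤ L * (η * Real.log N) := mul_le_mul_of_nonneg_left (by linarith) hL0.le
        _ = _ := by ring
    linarith
  have h5 := (sum_le_sum h4).trans_eq (by rw [sum_const, card_range, nsmul_eq_mul])
  have h6 : 2 * B * L * L * H N ≤ L * (η * M * Real.log N) := by
    have h7 : H N ≤ 2 * Real.log N := by linarith [H_le N]
    calc 2 * B * L * L * H N ≤ 2 * B * L * L * (2 * Real.log N) := mul_le_mul_of_nonneg_left h7 (by positivity)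
      _ = L * Real.log N * (4 * B * L) := by ring
      _ ≤ L * Real.log N * (M * η) := mul_le_mul_of_nonneg_left hM' (by positivity)
      _ = _ := by ring
  have h7 : (L : ℝ) * S (wv f A θ M) N ≤ L * (12 * η * M * Real.log N) := by
    calc (L : ℝ) * S (wv f A θ M) N ≤ M * (11 * η * L * Real.log N) + L * (η * M * Real.log N) := by linarith
      _ = _ := by ring
  exact le_of_mul_le_mul_left h7 hL0

end Pool.Agent.Y326
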